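import Pool.Agent.FDR.Defs

/-!
# FDR: the module statements
-/

open scoped BigOperators Polynomial Topology
open Metric Filter

namespace Pool.Agent.FDR

noncomputable section

/-! ## 1. General lemmas on rational germs, representations and periods -/

/-- RC1: `RatIn F` is closed under the ring operations and inverses. -/
def Stmt_RC1 : Prop := ∀ (E ι : Type) [NormedAddCommGroup E] [NormedSpace ℂ E] [Fintype ι]
  (F : E → ι → ℂ), ContinuousAt F 0 →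
  (∀ c : ℂ, RatIn F (fun _ => c)) ∧
  (∀ i, RatIn F (fun z => F z i)) ∧
  (∀ h h', RatIn F h → RatIn F h' → RatIn F (fun z => h z + h' z)) ∧
  (∀ h h', RatIn F h → RatIn F h' → RatIn F (fun z => h z * h' z)) ∧
  (∀ h, RatIn F h → RatIn F (fun z => -h z)) ∧
  (∀ h, RatIn F h → h 0 ≠ 0 → RatIn F (fun z => (h z)⁻¹)) ∧
  (∀ h h', RatIn F h → (∀ᶠ z in 𝓝 (0 : E), h' z = h z) → RatIn F h') ∧
  (∀ (κ : Type) (s : Finset κ) (h : κ → E → ℂ), (∀ k ∈ s, RatIn F (h k)) →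
    RatIn F (fun z => ∑ k ∈ s, h k z)) ∧
  (∀ (κ : Type) (s : Finset κ) (h : κ → E → ℂ), (∀ k ∈ s, RatIn F (h k)) →
    RatIn F (fun z => ∏ k ∈ s, h k z))

/-- RC2: `RatIn F` is closed under directional derivatives if the `∂ F i` are in it. -/
def Stmt_RC2 : Prop := ∀ (E ι : Type) [NormedAddCommGroup E] [NormedSpace ℂ E] [Fintype ι]
  (F : E → ι → ℂ), (∀ i, AnalyticAt ℂ (fun z => F z i) 0) → ∀ v : E,
  (∀ i, RatIn F (fun z => fderiv ℂ (fun z => F z i) z v)) →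
  ∀ h, RatIn F h → RatIn F (fun z => fderiv ℂ h z v)

/-- RC3: division by monic polynomials with coefficients in `RatIn F`. -/
def Stmt_RC3 : Prop := ∀ (E ι : Type) [NormedAddCommGroup E] [NormedSpace ℂ E] [Fintype ι]
  (F : E → ι → ℂ), ContinuousAt F 0 → ∀ (P U : E → ℂ[X]) (n m : ℕ),
  (∀ᶠ z in 𝓝 (0 : E), (P z).natDegree ≤ n) → (∀ l, RatIn F (fun z => (P z).coeff l)) →
  (∀ᶠ z in 𝓝 (0 : E), (U z).Monic ∧ (U z).natDegree = m) →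
  (∀ l, RatIn F (fun z => (U z).coeff l)) →
  (∀ l, RatIn F (fun z => (P z /ₘ U z).coeff l)) ∧
  (∀ l, RatIn F (fun z => (P z %ₘ U z).coeff l))

/-- RC4: matrix inverses. -/
def Stmt_RC4 : Prop := ∀ (E ι κ : Type) [NormedAddCommGroup E] [NormedSpace ℂ E] [Fintype ι]
  [Fintype κ] [DecidableEq κ] (F : E → ι → ℂ), ContinuousAt F 0 → ∀ A : E → Matrix κ κ ℂ,
  (∀ i j, RatIn F (fun z => A z i j)) → (A 0).det ≠ 0 →
  ∀ i j, RatIn F (fun z => (A z)⁻¹ i j)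

/-- GROWTH: a rational doubling formula gives meromorphic continuation of finite order. -/
def Stmt_Growth : Prop := ∀ (E ι : Type) [NormedAddCommGroup E] [NormedSpace ℂ E] [Fintype ι]
  (F : E → ι → ℂ), (∀ i, AnalyticAt ℂ (fun z => F z i) 0) →
  (∀ i, RatIn F (fun z => F ((2 : ℂ) • z) i)) → HasGrowth F

/-- PULL: pullback along continuous linear maps, and subfamilies. -/
def Stmt_Pull : Prop := ∀ (E E' ι ι' : Type) [NormedAddCommGroup E] [NormedSpace ℂ E]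
  [NormedAddCommGroup E'] [NormedSpace ℂ E'] [Fintype ι] [Fintype ι']
  (F : E → ι → ℂ) (L : E' →L[ℂ] E) (φ : ι' → ι), HasGrowth F →
  HasGrowth (fun z i => F (L z) (φ i)) ∧
  ∀ γ : E', IsPer F (L γ) → IsPer (fun z i => F (L z) (φ i)) γ

/-- PERANY: the period relation holds for every representation, and uniformly. -/
def Stmt_PerAny : Prop := ∀ (E ι : Type) [NormedAddCommGroup E] [NormedSpace ℂ E] [Fintype ι]
  (F : E → ι → ℂ) (γ : E), IsPer F γ → ∀ R : ℝ, ‖γ‖ < R → ∀ r : Rep F R,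
  (∀ᶠ w in 𝓝 (0 : E), ∀ i, r.G i (γ + w) = F w i * r.G0 (γ + w)) ∧
  ∀ ε : ℝ, (∀ i, AnalyticOnNhd ℂ (fun z => F z i) (ball 0 ε)) → ‖γ‖ + ε ≤ R →
    ∀ w ∈ ball (0 : E) ε, ∀ i, r.G i (γ + w) = F w i * r.G0 (γ + w)

/-- PERGROUP: the periods form a group. -/
def Stmt_PerGroup : Prop := ∀ (E ι : Type) [NormedAddCommGroup E] [NormedSpace ℂ E] [Fintype ι]
  (F : E → ι → ℂ), HasGrowth F → IsPer F 0 ∧
  (∀ γ δ, IsPer F γ → IsPer F δ → IsPer F (γ + δ)) ∧ (∀ γ, IsPer F γ → IsPer F (-γ))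

/-- PERFST: functions which do not depend on the second coordinate. -/
def Stmt_PerFst : Prop := ∀ (E ι : Type) [NormedAddCommGroup E] [NormedSpace ℂ E] [Fintype ι]
  (U : E → ι → ℂ), HasGrowth (fun p : E × ℂ => U p.1) → ∀ (γ : E) (η : ℂ),
  IsPer (fun p : E × ℂ => U p.1) (γ, η) → IsPer U γ

/-! ## 2. The periodic Schneider-Lang theorem -/

/-- SL: the periodic Schneider-Lang theorem in `d` variables. -/
def Stmt_SL : Prop := ∀ (d n : ℕ), 0 < d → ∀ (K : IntermediateField ℚ ℂ),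
  FiniteDimensional ℚ K → ∀ (v : Fin d → (Fin d → ℂ)), LinearIndependent ℂ v →
  ∀ (H : (Fin d → ℂ) → (Fin n → ℂ)), AnalyticAt ℂ H 0 → (∀ i, H 0 i ∈ K) →
  (∀ j i, ∃ P : MvPolynomial (Fin n) K, ∀ᶠ w in 𝓝 (0 : Fin d → ℂ),
    fderiv ℂ (fun w => H w i) w (v j) = MvPolynomial.aeval (H w) P) →
  ∀ (f : (Fin d → ℂ) → Fin (d + 1) → ℂ),
  (∀ i, ∃ P : MvPolynomial (Fin n) K, ∀ᶠ w in 𝓝 (0 : Fin d → ℂ),
    f w i = MvPolynomial.aeval (H w) P) →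
  HasGrowth f → (∀ s : Fin d, IsPer f (Pi.single s 1)) →
  (∀ P : MvPolynomial (Fin (d + 1)) ℂ,
    (∀ᶠ w in 𝓝 (0 : Fin d → ℂ), MvPolynomial.eval (f w) P = 0) → P = 0) → False

/-- ALGIND: Dirichlet recurrence forces algebraic independence of more than `d` functions. -/
def Stmt_AlgInd : Prop := ∀ (g d : ℕ), 0 < d → ∀ (U : (Fin g → ℂ) → (Fin g → ℂ)),
  AnalyticAt ℂ U 0 → Function.Injective (fderiv ℂ U 0) → HasGrowth U →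
  ∀ (Λ : AddSubgroup (Fin g → ℂ)), (∀ γ ∈ Λ, IsPer U γ) →
  Submodule.span ℝ (Λ : Set (Fin g → ℂ)) = ⊤ →
  ∀ (e : Fin d → (Fin g → ℂ)), LinearIndependent ℂ e → (∀ s, e s ∈ Λ) →
  (∀ γ ∈ Λ, γ ∈ Submodule.span ℂ (Set.range e) → γ ∈ Submodule.span ℝ (Set.range e)) →
  ∃ φ : Fin (d + 1) → Fin g, ∀ P : MvPolynomial (Fin (d + 1)) ℂ,
    (∀ᶠ w in 𝓝 (0 : Fin d → ℂ),
      MvPolynomial.eval (fun i => U (∑ s, w s • e s) (φ i)) P = 0) → P = 0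

/-! ## 3. The local theory of the Jacobian of `y ^ 2 = f x` -/

/-- BRANCH -/
def Stmt_Branch : Prop := ∀ (f : ℂ[X]) (b c : ℂ), c ^ 2 = f.eval b → c ≠ 0 →
  Nonempty (Branch f b c)

/-- CHART: existence of the local coordinates (analytic inverse function theorem). -/
def Stmt_Chart : Prop := ∀ (g : ℕ) (f : ℂ[X]) (b c : Fin g → ℂ), Function.Injective b →
  ∀ β : ∀ k, Branch f (b k) (c k), ∃ C : Chart g f b c, C.β = β

/-- CHARTD: derivatives of the coordinates. -/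
def Stmt_ChartD : Prop := ∀ (g : ℕ) (f : ℂ[X]) (b c : Fin g → ℂ) (C : Chart g f b c),
  Function.Injective b →
  (∀ k, AnalyticAt ℂ (fun z => C.Y z k) 0) ∧ AnalyticAt ℂ C.s 0 ∧ (∀ k, C.Y 0 k = c k) ∧
  C.s 0 = 0 ∧
  ∀ᶠ z in 𝓝 (0 : Fin g → ℂ), Function.Injective (C.X z) ∧
    (∀ k, C.Y z k ≠ 0 ∧ C.Y z k ^ 2 = f.eval (C.X z k)) ∧
    ∀ j : Fin g,
      (∀ k, fderiv ℂ (fun z => C.X z k) z (Pi.single j 1) = C.Y z k * lagC (C.X z) k j) ∧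
      (∀ k, fderiv ℂ (fun z => C.Y z k) z (Pi.single j 1) =
        (Polynomial.derivative f).eval (C.X z k) / 2 * lagC (C.X z) k j) ∧
      fderiv ℂ C.s z (Pi.single j 1) = ∑ k, C.X z k ^ g * lagC (C.X z) k j

/-- ULOC: the coefficients of `U` are local coordinates. -/
def Stmt_ULoc : Prop := ∀ (g : ℕ) (f : ℂ[X]) (b c : Fin g → ℂ) (C : Chart g f b c),
  Function.Injective b →
  AnalyticAt ℂ (fun (z : Fin g → ℂ) (l : Fin g) => (polyU (C.X z)).coeff l) 0 ∧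
  Function.Injective
    (fderiv ℂ (fun (z : Fin g → ℂ) (l : Fin g) => (polyU (C.X z)).coeff l) 0)

/-- MUM: the Mumford vector fields in coordinates. -/
def Stmt_Mum : Prop := ∀ (g : ℕ) (f : ℂ[X]), f.Monic → f.natDegree = 2 * g + 1 →
  ∀ (b c : Fin g → ℂ) (C : Chart g f b c), Function.Injective b →
  ∀ᶠ z in 𝓝 (0 : Fin g → ℂ), ∀ (j : Fin g) (l : ℕ),
    fderiv ℂ (fun z => (polyU (C.X z)).coeff l) z (Pi.single j 1) =
      - ∑ t ∈ Finset.range (j + 1),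
        ((polyU (C.X z)).coeff (l + 1 + t) * (polyV (C.X z) (C.Y z)).coeff (j - t) -
          (polyU (C.X z)).coeff (j - t) * (polyV (C.X z) (C.Y z)).coeff (l + 1 + t)) ∧
    fderiv ℂ (fun z => (polyV (C.X z) (C.Y z)).coeff l) z (Pi.single j 1) =
      (polyU (C.X z)).coeff j * (polyU (C.X z)).coeff l / 2 -
      (∑ t ∈ Finset.range (j + 1),
        ((polyU (C.X z)).coeff (j - t) * (polyW f (C.X z) (C.Y z)).coeff (l + 1 + t) -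
          (polyW f (C.X z) (C.Y z)).coeff (j - t) * (polyU (C.X z)).coeff (l + 1 + t))) / 2

/-- F4D: the derivatives of the functions `F4 C` are rational in them. -/
def Stmt_F4D : Prop := ∀ (g : ℕ) (f : ℂ[X]), f.Monic → f.natDegree = 2 * g + 1 →
  ∀ (b c : Fin 2 → Fin g → ℂ) (C : ∀ r, Chart g f (b r) (c r)),
  (∀ r, Function.Injective (b r)) →
  (∀ i, AnalyticAt ℂ (fun z => F4 C z i) 0) ∧
  ∀ (i : (Fin 2 × Fin 2) × Fin g) (j : Fin g),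
    RatIn (F4 C) (fun z => fderiv ℂ (fun z => F4 C z i) z (Pi.single j 1))

/-- ABELA: the zeros of `A + B y` near `A = ∏ (X - b q)`, `B = 0`. -/
def Stmt_AbelA : Prop := ∀ (g : ℕ), 0 < g → ∀ (f : ℂ[X]), f.Monic → f.natDegree = 2 * g + 1 →
  ∀ (b c : Fin 2 × Fin g → ℂ), Function.Injective b → ∀ (β : ∀ q, Branch f (b q) (c q))
    (p0 : Fin 3 × Fin g → ℂ),
  polyA p0 = ∏ q, (Polynomial.X - Polynomial.C (b q)) → polyB p0 = 0 →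
  ∃ (xp xm : Fin 2 × Fin g → (Fin 3 × Fin g → ℂ) → ℂ) (ε : ℝ), 0 < ε ∧
    (∀ q, ε ≤ (β q).r) ∧
    (∀ q, AnalyticAt ℂ (xp q) p0 ∧ AnalyticAt ℂ (xm q) p0 ∧ xp q p0 = b q ∧ xm q p0 = b q) ∧
    ∀ᶠ p in 𝓝 p0,
      (∀ q, xp q p ∈ ball (b q) ε ∧ xm q p ∈ ball (b q) ε ∧
        (∀ x ∈ ball (b q) ε,
          ((polyA p).eval x + (polyB p).eval x * (β q).y x = 0 ↔ x = xp q p)) ∧
        (∀ x ∈ ball (b q) ε,
          ((polyA p).eval x - (polyB p).eval x * (β q).y x = 0 ↔ x = xm q p))) ∧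
      polyA p ^ 2 - polyB p ^ 2 * f =
        ∏ q, ((Polynomial.X - Polynomial.C (xp q p)) * (Polynomial.X - Polynomial.C (xm q p)))

/-- ABELB: Abel's theorem for the zeros of `A + B y`. -/
def Stmt_AbelB : Prop := ∀ (g : ℕ) (hg : 0 < g) (f : ℂ[X]), f.Monic →
  f.natDegree = 2 * g + 1 →
  ∀ (b c : Fin 2 × Fin g → ℂ), Function.Injective b → ∀ (β : ∀ q, Branch f (b q) (c q))
    (p0 : Fin 3 × Fin g → ℂ),
  polyA p0 = ∏ q, (Polynomial.X - Polynomial.C (b q)) → polyB p0 = 0 →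
  ∀ (xp xm : Fin 2 × Fin g → (Fin 3 × Fin g → ℂ) → ℂ),
    (∀ q, AnalyticAt ℂ (xp q) p0 ∧ AnalyticAt ℂ (xm q) p0 ∧ xp q p0 = b q ∧ xm q p0 = b q) →
    (∀ᶠ p in 𝓝 p0,
      (∀ q, (polyA p).eval (xp q p) + (polyB p).eval (xp q p) * (β q).y (xp q p) = 0 ∧
        (polyA p).eval (xm q p) - (polyB p).eval (xm q p) * (β q).y (xm q p) = 0) ∧
      polyA p ^ 2 - polyB p ^ 2 * f =
        ∏ q, ((Polynomial.X - Polynomial.C (xp q p)) *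
          (Polynomial.X - Polynomial.C (xm q p)))) →
    ∀ᶠ p in 𝓝 p0,
      (∀ i < g, ∑ q, ((β q).I i (xp q p) - (β q).I i (xm q p)) = 0) ∧
      ∑ q, ((β q).I g (xp q p) - (β q).I g (xm q p)) = -2 * p (2, ⟨g - 1, by omega⟩)

/-- LINSYS: the function `A + B y` through the two moving divisors. -/
def Stmt_LinSys : Prop := ∀ (g : ℕ), 0 < g → ∀ (f : ℂ[X]), f.Monic →
  f.natDegree = 2 * g + 1 →
  ∀ (b c : Fin 2 → Fin g → ℂ) (C : ∀ r, Chart g f (b r) (c r)),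
  Function.Injective (fun q : Fin 2 × Fin g => b q.1 q.2) → ∀ r : Fin 2,
  ∃ p : (Fin g → ℂ) → (Fin 3 × Fin g → ℂ), AnalyticAt ℂ p 0 ∧
    polyA (p 0) = ∏ q : Fin 2 × Fin g, (Polynomial.X - Polynomial.C (b q.1 q.2)) ∧
    polyB (p 0) = 0 ∧ (∀ t, RatIn (F4 C) (fun z => p z t)) ∧
    ∀ᶠ z in 𝓝 (0 : Fin g → ℂ),
      (∀ q : Fin 2 × Fin g, (polyA (p z)).eval ((C q.1).X z q.2) +
        (polyB (p z)).eval ((C q.1).X z q.2) * (C q.1).Y z q.2 = 0) ∧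
      ∀ k, (polyA (p z)).eval (b (1 - r) k) - (polyB (p z)).eval (b (1 - r) k) * c (1 - r) k = 0

/-- DOUB: the doubling formula. -/
def Stmt_Doub : Prop := ∀ (g : ℕ) (hg : 0 < g) (f : ℂ[X]), f.Monic →
  f.natDegree = 2 * g + 1 →
  ∀ (b c : Fin 2 → Fin g → ℂ) (C : ∀ r, Chart g f (b r) (c r)),
  Function.Injective (fun q : Fin 2 × Fin g => b q.1 q.2) → ∀ r : Fin 2,
  ∃ p : (Fin g → ℂ) → (Fin 3 × Fin g → ℂ), (∀ t, RatIn (F4 C) (fun z => p z t)) ∧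
    ∀ᶠ z in 𝓝 (0 : Fin g → ℂ),
      polyA (p z) ^ 2 - polyB (p z) ^ 2 * f =
        polyU ((C 0).X z) * polyU ((C 1).X z) * polyU (b (1 - r)) *
          polyU ((C r).X ((2 : ℂ) • z)) ∧
      (C r).s ((2 : ℂ) • z) = (C 0).s z + (C 1).s z + 2 * p z (2, ⟨g - 1, by omega⟩)

/-- DOUB2: all functions are rational at `2 z` in their values at `z`. -/
def Stmt_Doub2 : Prop := ∀ (g : ℕ), 0 < g → ∀ (f : ℂ[X]), f.Monic →
  f.natDegree = 2 * g + 1 →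
  ∀ (b c : Fin 2 → Fin g → ℂ) (C : ∀ r, Chart g f (b r) (c r)),
  Function.Injective (fun q : Fin 2 × Fin g => b q.1 q.2) →
  (∀ i, RatIn (F4 C) (fun z => F4 C ((2 : ℂ) • z) i)) ∧
  ∀ r, RatIn (F4 C) (fun z => (C r).s ((2 : ℂ) • z) - (C 0).s z - (C 1).s z)

/-- F1G: the functions of one chart have finite order. -/
def Stmt_F1G : Prop := ∀ (g : ℕ), 0 < g → ∀ (f : ℂ[X]), f.Monic →
  f.natDegree = 2 * g + 1 →
  ∀ (b c : Fin 2 → Fin g → ℂ) (C : ∀ r, Chart g f (b r) (c r)),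
  Function.Injective (fun q : Fin 2 × Fin g => b q.1 q.2) → HasGrowth (F1 (C 0))

/-! ## 4. Periods of `y ^ 2 = x ^ (2 g + 1) + 1` -/

/-- the roots of `x ^ (2 g + 1) = -1` -/
def aRoot (g k : ℕ) : ℂ := Complex.exp (Complex.I * Real.pi * (2 * k + 1) / (2 * g + 1))

/-- SHEETS: the abelian integrals on the two unit discs and on the discs around the branch
points, and their comparison. -/
def Stmt_Sheets : Prop := ∀ (g : ℕ), 0 < g →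
  ∃ (J : ℕ → ℂ → ℂ) (K : ℕ → ℕ → ℂ → ℂ) (M : ℝ),
    (∀ i ≤ g, J i 0 = 0 ∧ ∀ x ∈ ball (0 : ℂ) 1,
      HasDerivAt (J i) (x ^ i * (1 + x ^ (2 * g + 1)) ^ (-(1 / 2) : ℂ)) x ∧ ‖J i x‖ ≤ M) ∧
    (∀ k, ∀ i ≤ g, K k i 0 = 0 ∧ ∀ v ∈ ball (0 : ℂ) 1,
      HasDerivAt (K k i) (-(2 / (2 * g + 1)) * aRoot g k ^ (i + 1) *
        (1 - v ^ 2) ^ (((i + 1) / (2 * g + 1) - 1 : ℂ))) v ∧ ‖K k i v‖ ≤ M ∧
        K k i (-v) = -K k i v) ∧
    ∀ k, ∀ i ≤ g, ∀ v : ℝ, 0 < v → v < 1 →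
      J i (aRoot g k * (((1 - v ^ 2) ^ (1 / (2 * g + 1) : ℝ) : ℝ) : ℂ)) =
        K k i v + lam g k i / 2

/-- CONT: analytic continuation along the discs gives the periods. -/
def Stmt_Cont : Prop := ∀ (g : ℕ) (hg : 0 < g) (b c : Fin g → ℂ),
  b ⟨0, hg⟩ = 0 → c ⟨0, hg⟩ = 1 → Function.Injective b →
  ∀ C : Chart g (Polynomial.X ^ (2 * g + 1) + 1) b c, HasGrowth (F1 C) →
  ∀ k k' : ℕ, IsPer (F1 C) (lamv g k - lamv g k')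

/-- The period lattice (first kind). -/
def Lam (g : ℕ) : AddSubgroup (Fin g → ℂ) :=
  AddSubgroup.closure (Set.range fun (q : ℕ × ℕ) (i : Fin g) => lam g q.1 i - lam g q.2 i)

/-- LAMSPAN -/
def Stmt_LamSpan : Prop := ∀ g : ℕ, 0 < g →
  Submodule.span ℝ (Lam g : Set (Fin g → ℂ)) = ⊤

/-- LATT: if the relevant period ratios are algebraic, there is a subspace, rational over the
algebraic numbers, containing periods `e s` as a basis and no other periods up to real span. -/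
def Stmt_Latt : Prop := ∀ (ℓ j g : ℕ), ℓ.Prime → ℓ ≠ 2 → 0 < j → 2 * g + 1 = ℓ ^ j → 2 ≤ g →
  (∀ i i' : ℕ, 0 < i → i ≤ g → 0 < i' → i' ≤ g → ¬ ℓ ∣ i → ¬ ℓ ∣ i' →
    i ≡ i' [MOD ℓ ^ (j - 1)] →
    IsAlgebraic ℚ (bet (i / (ℓ ^ j : ℕ)) (1 / 2) / bet (i' / (ℓ ^ j : ℕ)) (1 / 2))) →
  ∃ (d : ℕ) (e : Fin d → (Fin g → ℂ)) (v : Fin d → (Fin d → ℂ)), 0 < d ∧
    LinearIndependent ℂ e ∧ (∀ s, e s ∈ Lam g) ∧ LinearIndependent ℂ v ∧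
    (∀ t i, IsAlgebraic ℚ ((∑ s, v t s • e s) i)) ∧
    ∀ γ ∈ Lam g, γ ∈ Submodule.span ℂ (Set.range e) → γ ∈ Submodule.span ℝ (Set.range e)

/-- ARITH: the arithmetic germs for Schneider-Lang. -/
def Stmt_Arith : Prop := ∀ (g d : ℕ) (K : IntermediateField ℚ ℂ) (f : ℂ[X]),
  (∀ i, f.coeff i ∈ K) → ∀ (b c : Fin g → ℂ), (∀ k, b k ∈ K) → (∀ k, c k ∈ K) →
  Function.Injective b → ∀ (C : Chart g f b c)
    (L : (Fin d → ℂ) →L[ℂ] (Fin g → ℂ) × ℂ) (v : Fin d → (Fin d → ℂ)),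
  (∀ t i, (L (v t)).1 i ∈ K) → (∀ t, (L (v t)).2 ∈ K) →
  ∃ (n : ℕ) (H : (Fin d → ℂ) → (Fin n → ℂ)), AnalyticAt ℂ H 0 ∧ (∀ i, H 0 i ∈ K) ∧
    (∀ j i, ∃ P : MvPolynomial (Fin n) K, ∀ᶠ w in 𝓝 (0 : Fin d → ℂ),
      fderiv ℂ (fun w => H w i) w (v j) = MvPolynomial.aeval (H w) P) ∧
    ∀ o, ∃ P : MvPolynomial (Fin n) K, ∀ᶠ w in 𝓝 (0 : Fin d → ℂ),
      F1 C (L w) o = MvPolynomial.aeval (H w) P

/-- TBIG: transcendence for `ℓ ^ j = 2 g + 1 ≥ 5`. -/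
def Stmt_TBig : Prop := ∀ (ℓ j g : ℕ), ℓ.Prime → ℓ ≠ 2 → 0 < j → 2 * g + 1 = ℓ ^ j → 2 ≤ g →
  ¬ (∀ i i' : ℕ, 0 < i → i ≤ g → 0 < i' → i' ≤ g → ¬ ℓ ∣ i → ¬ ℓ ∣ i' →
    i ≡ i' [MOD ℓ ^ (j - 1)] →
    IsAlgebraic ℚ (bet (i / (ℓ ^ j : ℕ)) (1 / 2) / bet (i' / (ℓ ^ j : ℕ)) (1 / 2)))

/-- IND3: algebraic independence for the elliptic curve `y ^ 2 = x ^ 3 + 1`. -/
def Stmt_Ind3 : Prop := ∀ (b c : Fin 1 → ℂ) (C : Chart 1 (Polynomial.X ^ 3 + 1) b c),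
  HasGrowth (F1 C) → (∀ k k' : ℕ, IsPer (F1 C) (lamv 1 k - lamv 1 k')) →
  ∀ P : MvPolynomial (Option (Fin 1)) ℂ,
    (∀ᶠ w in 𝓝 (0 : ℂ), MvPolynomial.eval (F1 C (w • (lamv 1 1 - lamv 1 0))) P = 0) → P = 0

/-- TSMALL: Schneider's theorem for `y ^ 2 = x ^ 3 + 1`. -/
def Stmt_TSmall : Prop := ¬ IsAlgebraic ℚ (bet (1 / 3) (1 / 2) / bet (2 / 3) (1 / 2))

/-- T: the transcendence theorem. -/
def Stmt_T : Prop := ∀ (ℓ j : ℕ), ℓ.Prime → ℓ ≠ 2 → 0 < j →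
  ¬ (∀ i i' : ℕ, 0 < i → i < ℓ ^ j → 0 < i' → i' < ℓ ^ j → ¬ ℓ ∣ i → ¬ ℓ ∣ i' →
    i ≡ i' [MOD ℓ ^ (j - 1)] →
    IsAlgebraic ℚ (bet (i / (ℓ ^ j : ℕ)) (1 / 2) / bet (i' / (ℓ ^ j : ℕ)) (1 / 2)))

/-! ## 5. Gamma values -/

/-- PITR: Lindemann's theorem for `π`. -/
def Stmt_PiTr : Prop := Transcendental ℚ Real.pi

/-- GMUL: Gauss's multiplication formula up to a constant. -/
def Stmt_GMul : Prop := ∀ n : ℕ, 0 < n → ∃ C : ℝ, 0 < C ∧ ∀ x : ℝ, 0 < x →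
  ∏ k ∈ Finset.range n, Real.Gamma (x + k / n) =
    C * (n : ℝ) ^ (-(n * x)) * Real.Gamma (n * x)

/-- DIST: the distribution relation for `Hlog`. -/
def Stmt_Dist : Prop := ∀ n : ℕ, 0 < n → ∀ x : ℚ, (∀ z : ℤ, (n : ℚ) * x ≠ z) →
  ∑ k ∈ Finset.range n, Hlog (x + k / n) - Hlog (n * x) ∈ algLog

/-- THETAH -/
def Stmt_ThetaH : Prop := ∀ x : ℚ, 0 < x → x < 1 → x ≠ 1 / 2 →
  2 * Real.log (bet x (1 / 2)) - (Real.log Real.pi + 2 * Hlog x - Hlog (2 * x)) ∈ algLog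

/-- BETAREFL -/
def Stmt_BetaRefl : Prop := ∀ x y : ℚ, 0 < x → x < 1 → 0 < y → y < 1 → x + y ≠ 1 →
  Real.log (bet x y) + Real.log (bet (1 - x) (1 - y)) - Real.log Real.pi ∈ algLog ∧
  Real.log (bet x y) - Real.log (bet (1 - x) (1 - y)) -
    (Hlog x + Hlog y - Hlog (x + y)) ∈ algLog

/-- GD: iterated distribution relations. -/
def Stmt_GD : Prop := ∀ (V : Type) [AddCommGroup V] (h : ℚ → V) (ℓ : ℕ), ℓ.Prime →
  (∀ x, h (x + 1) = h x) →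
  (∀ x : ℚ, (∀ z : ℤ, (ℓ : ℚ) * x ≠ z) →
    ∑ k ∈ Finset.range ℓ, h (x + k / ℓ) = h (ℓ * x)) →
  ∀ (i K a : ℕ), 0 < i → i ≤ K → a.Coprime ℓ →
    ∑ b ∈ (Finset.range (ℓ ^ K)).filter (fun b => b ≡ a [MOD ℓ ^ i]),
      h ((b : ℚ) / ((ℓ ^ K : ℕ) : ℚ)) = h ((a : ℚ) / ((ℓ ^ i : ℕ) : ℚ))

/-- `ℓ` is a Fermat prime, i.e. a prime of the form `2 ^ s + 1` with `s ≥ 1`. -/
def IsFermatPrime (ℓ : ℕ) : Prop := ℓ.Prime ∧ ∃ s : ℕ, 0 < s ∧ ℓ = 2 ^ s + 1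

/-- IRR: a translation-stable space of functions on `(ℤ/ℓ^K)ˣ` with a non-even element
contains the `ℓ`-primitive odd functions of some level. -/
def Stmt_Irr : Prop := ∀ (ℓ K : ℕ) [NeZero ℓ], IsFermatPrime ℓ → 0 < K →
  ∀ (S : Submodule ℚ ((ZMod (ℓ ^ K))ˣ → ℚ)),
  (∀ x ∈ S, ∀ t : (ZMod (ℓ ^ K))ˣ, (fun b => x (t * b)) ∈ S) →
  (∃ x ∈ S, ∃ b, x b ≠ x (-b)) →
  ∃ j : ℕ, 0 < j ∧ j ≤ K ∧ ∀ i i' : ℕ, i.Coprime ℓ → i'.Coprime ℓ →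
    i ≡ i' [MOD ℓ ^ (j - 1)] →
    (fun b : (ZMod (ℓ ^ K))ˣ =>
      (if (b : ZMod (ℓ ^ K)).val ≡ i [MOD ℓ ^ j] then (1 : ℚ) else 0) -
      (if (((-b : (ZMod (ℓ ^ K))ˣ)) : ZMod (ℓ ^ K)).val ≡ i [MOD ℓ ^ j] then 1 else 0) -
      (if (b : ZMod (ℓ ^ K)).val ≡ i' [MOD ℓ ^ j] then 1 else 0) +
      (if (((-b : (ZMod (ℓ ^ K))ˣ)) : ZMod (ℓ ^ K)).val ≡ i' [MOD ℓ ^ j] then 1 else 0)) ∈ S

/-- The main theorem at the prime `ℓ`: a combination of `Hlog`-values of level `ℓ ^ K` all of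
whose Galois conjugates are logarithms of algebraic numbers is even. -/
def OddAt (ℓ : ℕ) : Prop := ∀ (K : ℕ) [NeZero ℓ], 0 < K → ∀ D : (ZMod (ℓ ^ K))ˣ → ℚ,
  (∀ t : (ZMod (ℓ ^ K))ˣ,
    ∑ b, (D b : ℝ) * Hlog ((((t * b : (ZMod (ℓ ^ K))ˣ) : ZMod (ℓ ^ K)).val : ℚ) /
      ((ℓ ^ K : ℕ) : ℚ)) ∈ algLog) →
  ∀ b, D b = D (-b)

/-- ODD: the main theorem for Fermat primes. -/
def Stmt_Odd : Prop := ∀ ℓ : ℕ, IsFermatPrime ℓ → OddAt ℓ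

/-- ONE: the main theorem on one prime, for arbitrary combinations of `Hlog` values. -/
def Stmt_One : Prop := ∀ (ℓ : ℕ), ℓ.Prime → OddAt ℓ → ∀ (ι : Type) (s : Finset ι) (n : ι → ℤ)
  (x : ι → ℚ), (∀ i ∈ s, (∀ z : ℤ, x i ≠ z) ∧ ∃ (K : ℕ) (z : ℤ), (ℓ : ℚ) ^ K * x i = z) →
  (∀ t : ℕ, t.Coprime ℓ → ∑ i ∈ s, (n i : ℝ) * Hlog (t * x i) ∈ algLog) →
  ∑ i ∈ s, (n i : ℚ) * (Int.fract (x i) - 1 / 2) = 0

/-! ## 6. De Rham-Betti classes -/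

/-- The index set of the forms `ω_{a,b} = x ^ (a-1) y ^ (b-N) dx` which form a basis of
`H¹_dR` of the Fermat curve `x ^ N + y ^ N = 1`. -/
def FIdx (N : ℕ) : Type :=
  {p : Fin N × Fin N // 0 < (p.1 : ℕ) ∧ 0 < (p.2 : ℕ) ∧ (p.1 : ℕ) + (p.2 : ℕ) ≠ N}

instance (N : ℕ) : Fintype (FIdx N) := by unfold FIdx; infer_instance
instance (N : ℕ) : DecidableEq (FIdx N) := by unfold FIdx; infer_instance

/-- first exponent -/
def FIdx.a {N : ℕ} (p : FIdx N) : ℕ := (p.1.1 : ℕ)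
/-- second exponent -/
def FIdx.b {N : ℕ} (p : FIdx N) : ℕ := (p.1.2 : ℕ)

/-- `exp (2 π i / N)` -/
def zeta (N : ℕ) : ℂ := Complex.exp (2 * Real.pi * Complex.I / N)

/-- The integral of `ω_{a,b}` over the generator `(1-ρ)(1-σ)κ` of `H₁(F_N, ℚ)`. -/
def fper (N : ℕ) (p : FIdx N) : ℂ :=
  (1 - zeta N ^ p.a) * (1 - zeta N ^ p.b) / N *
    Complex.betaIntegral (p.a / N) (p.b / N)

/-- `α`, an element with coordinates in the algebraic numbers, is a de Rham-Betti class on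
`⨂ j, H¹(F_{N j}) (k)`: its values on all tensors of rational homology classes are rational
multiples of `(2 π i) ^ k`. -/
def IsDRB {n : ℕ} (N : Fin n → ℕ) (k : ℤ) (α : (∀ j, FIdx (N j)) → ℂ) : Prop :=
  (∀ I, IsAlgebraic ℚ (α I)) ∧
  ∀ r s : Fin n → ℕ, ∃ q : ℚ,
    ∑ I : ∀ j, FIdx (N j), α I *
      ∏ j, (zeta (N j) ^ (r j * (I j).a + s j * (I j).b) * fper (N j) (I j)) =
    (2 * Real.pi * Complex.I) ^ k * q

/-- `α` is of Hodge type `(0,0)` in `⨂ j, H¹(F_{N j}) (k)`: `n = 2 k`, and every nonzero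
component has exactly `k` factors of the first kind. -/
def IsHodge {n : ℕ} (N : Fin n → ℕ) (k : ℤ) (α : (∀ j, FIdx (N j)) → ℂ) : Prop :=
  ∀ I, α I ≠ 0 → (n : ℤ) = 2 * k ∧
    ((Finset.univ.filter fun j => (I j).a + (I j).b < N j).card : ℤ) = k

/-- DESC: from de Rham-Betti classes to algebraic Beta monomials. -/
def Stmt_Desc : Prop := ∀ (n : ℕ) (N : Fin n → ℕ) (k : ℤ) (α : (∀ j, FIdx (N j)) → ℂ),
  (∀ j, 0 < N j) → IsDRB N k α → ∀ I, α I ≠ 0 → ∀ t : ℕ, (∀ j, t.Coprime (N j)) →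
  IsAlgebraic ℚ ((∏ j, bet (((t * (I j).a) % N j : ℕ) / N j) (((t * (I j).b) % N j : ℕ) / N j)) /
    Real.pi ^ k)

/-- CORE: the Galois-stable Rohrlich conjecture for prime powers at primes with `OddAt`. -/
def Stmt_Core : Prop := ∀ (n : ℕ) (N : Fin n → ℕ) (k : ℤ),
  (∀ j, ∃ ℓ K, ℓ.Prime ∧ OddAt ℓ ∧ 0 < K ∧ N j = ℓ ^ K) → ∀ I : ∀ j, FIdx (N j),
  (∀ t : ℕ, (∀ j, t.Coprime (N j)) →
    IsAlgebraic ℚ ((∏ j, bet (((t * (I j).a) % N j : ℕ) / N j)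
      (((t * (I j).b) % N j : ℕ) / N j)) / Real.pi ^ k)) →
  (n : ℤ) = 2 * k ∧ ((Finset.univ.filter fun j => (I j).a + (I j).b < N j).card : ℤ) = k

/-- MAIN -/
def Stmt_Main : Prop := ∀ (n : ℕ) (N : Fin n → ℕ) (k : ℤ),
  (∀ j, ∃ ℓ K, IsFermatPrime ℓ ∧ 0 < K ∧ N j = ℓ ^ K) →
  ∀ α : (∀ j, FIdx (N j)) → ℂ, IsDRB N k α → IsHodge N k α

end

end Pool.Agent.FDR
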