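import Pool.Agent.FDR.Stmts

/-!
# PERGROUP : the periods form a group
-/

open scoped Topology
open Metric Filter

namespace Pool.Agent.FDR.PERGROUP

variable {E ι : Type} [NormedAddCommGroup E] [NormedSpace ℂ E]

/-- nonzero analytic functions on a ball do not vanish identically near any point -/
theorem frequently_ne {R : ℝ} {A : E → ℂ} (hA : AnalyticOnNhd ℂ A (ball 0 R)) (h0 : A 0 ≠ 0)
    {p : E} (hp : p ∈ ball (0 : E) R) : ∃ᶠ q in 𝓝 p, A q ≠ 0 := by
  intro h
  have hR : (0 : E) ∈ ball (0 : E) R := by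
    rw [mem_ball, dist_self]
    exact lt_of_le_of_lt dist_nonneg (mem_ball.1 hp)
  have h1 : A =ᶠ[𝓝 p] 0 := by
    filter_upwards [h] with q hq
    simpa using hq
  have h2 := hA.eqOn_zero_of_preconnected_of_eventuallyEq_zero
    (convex_ball (0 : E) R).isPreconnected hp h1
  exact h0 (h2 hR)

/-- cancellation of a nonzero analytic factor -/
theorem cancel {R : ℝ} {A : E → ℂ} (hA : AnalyticOnNhd ℂ A (ball 0 R)) (h0 : A 0 ≠ 0)
    {p : E} (hp : p ∈ ball (0 : E) R) {f g : E → ℂ} (hf : ContinuousAt f p)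
    (hg : ContinuousAt g p) (h : ∀ᶠ q in 𝓝 p, A q * f q = A q * g q) : f p = g p := by
  by_contra hne
  have h1 : ∀ᶠ q in 𝓝 p, f q - g q ≠ 0 := by
    have h2 : ContinuousAt (fun q => f q - g q) p := hf.sub hg
    exact h2.eventually_ne (sub_ne_zero.2 hne)
  obtain ⟨q, hq1, hq2, hq3⟩ := ((frequently_ne hA h0 hp).and_eventually (h1.and h)).exists
  apply hq2
  have h4 := mul_left_cancel₀ hq1 hq3
  rw [h4, sub_self]

/-- the germ is continuous near `0` -/
theorem germ_cont [Finite ι] {F : E → ι → ℂ} {R : ℝ} (hR : 0 < R) (r : Rep F R) :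
    ∀ᶠ z in 𝓝 (0 : E), ∀ i, ContinuousAt (fun z => F z i) z := by
  have h0 : (0 : E) ∈ ball (0 : E) R := by simpa using hR
  have hne : ∀ᶠ z in 𝓝 (0 : E), r.G0 z ≠ 0 :=
    ((r.an0 0 h0).continuousAt).eventually_ne r.ne
  have h1 : ∀ᶠ z in 𝓝 (0 : E), z ∈ ball (0 : E) R := isOpen_ball.mem_nhds h0
  filter_upwards [r.eq.eventually_nhds, hne.eventually_nhds, h1] with z hz1 hz2 hz3
  intro i
  have h3 : (fun z => F z i) =ᶠ[𝓝 z] fun z => r.G i z / r.G0 z := by
    filter_upwards [hz1, hz2] with q hq1 hq2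
    rw [hq1 i, mul_div_assoc, div_self hq2, mul_one]
  have h4 : ContinuousAt (fun z => r.G i z / r.G0 z) z := by
    refine ((r.an i z hz3).continuousAt).div ((r.an0 z hz3).continuousAt) ?_
    exact hz2.self_of_nhds
  exact h4.congr_of_eventuallyEq h3

/-- the functional equation of a period on the whole lens -/
theorem lens {F : E → ι → ℂ} {R : ℝ} (r : Rep F R) {γ : E} (hγR : ‖γ‖ < R)
    (hγ : ∀ᶠ w in 𝓝 (0 : E), ∀ i, r.G i (γ + w) = F w i * r.G0 (γ + w)) (i : ι) :
    ∀ w : E, w ∈ ball (0 : E) R → γ + w ∈ ball (0 : E) R →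
      r.G i (γ + w) * r.G0 w = r.G i w * r.G0 (γ + w) := by
  intro w hw1 hw2
  have hRpos : 0 < R := lt_of_le_of_lt (norm_nonneg γ) hγR
  have hsh : ∀ w : E, AnalyticAt ℂ (fun w : E => γ + w) w := fun w =>
    analyticAt_const.add analyticAt_id
  set S : Set E := ball (0 : E) R ∩ ball (-γ) R with hS
  have hmem : ∀ w : E, w ∈ S ↔ w ∈ ball (0 : E) R ∧ γ + w ∈ ball (0 : E) R := by
    intro w
    have h4 : w ∈ ball (-γ) R ↔ γ + w ∈ ball (0 : E) R := by
      rw [Metric.mem_ball, Metric.mem_ball, dist_eq_norm, dist_eq_norm]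
      have : w - -γ = γ + w - 0 := by abel
      rw [this]
    rw [hS, Set.mem_inter_iff, h4]
  have hconv : IsPreconnected S := ((convex_ball (0 : E) R).inter (convex_ball (-γ) R)).isPreconnected
  have h0 : (0 : E) ∈ S := by
    rw [hmem]
    constructor
    · simpa using hRpos
    · simpa using hγR
  have h1 : AnalyticOnNhd ℂ (fun w => r.G i (γ + w) * r.G0 w) S := by
    intro w hw
    have hw' := (hmem w).1 hw
    exact (AnalyticAt.fun_comp (r.an i _ hw'.2) (hsh w)).mul (r.an0 _ hw'.1)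
  have h2 : AnalyticOnNhd ℂ (fun w => r.G i w * r.G0 (γ + w)) S := by
    intro w hw
    have hw' := (hmem w).1 hw
    exact (r.an i _ hw'.1).mul (AnalyticAt.fun_comp (r.an0 _ hw'.2) (hsh w))
  have h3 : (fun w => r.G i (γ + w) * r.G0 w) =ᶠ[𝓝 0] fun w => r.G i w * r.G0 (γ + w) := by
    filter_upwards [hγ, r.eq] with q h4 h5
    rw [h4 i, h5 i]
    ring
  exact h1.eqOn_of_preconnected_of_eventuallyEq h2 hconv h0 h3 ((hmem w).2 ⟨hw1, hw2⟩)

theorem tendsto_add (γ : E) (p : E) : Tendsto (fun w : E => γ + w) (𝓝 p) (𝓝 (γ + p)) :=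
  (continuous_const.add continuous_id).tendsto p

theorem thm_PERGROUP (hPerAny : Stmt_PerAny) : Stmt_PerGroup := by
  intro E ι _ _ _ F hF
  obtain ⟨C, ρ, hC, hρ, hrep⟩ := hF
  refine ⟨?_, ?_, ?_⟩
  · obtain ⟨r, -⟩ := hrep 1 le_rfl
    refine ⟨1, by simp, r, ?_⟩
    filter_upwards [r.eq] with w hw i
    rw [zero_add]
    exact hw i
  · intro γ δ hγ hδ
    obtain ⟨r, -⟩ := hrep (‖γ‖ + ‖δ‖ + 1) (by
      have := norm_nonneg γ
      have := norm_nonneg δ
      linarith)
    set R := ‖γ‖ + ‖δ‖ + 1 with hR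
    have hRpos : 0 < R := by
      have := norm_nonneg γ
      have := norm_nonneg δ
      linarith
    have hγR : ‖γ‖ < R := by
      have := norm_nonneg δ
      linarith
    have hδR : ‖δ‖ < R := by
      have := norm_nonneg γ
      linarith
    have hγδ : ‖γ + δ‖ < R := lt_of_le_of_lt (norm_add_le _ _) (by linarith)
    have h1 := (hPerAny E ι F γ hγ R hγR r).1
    have h2 := (hPerAny E ι F δ hδ R hδR r).1
    refine ⟨R, hγδ, r, ?_⟩
    have ht1 : Tendsto (fun w : E => δ + w) (𝓝 0) (𝓝 δ) := by simpa using tendsto_add δ 0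
    have ht2 : Tendsto (fun w : E => γ + δ + w) (𝓝 0) (𝓝 (γ + δ)) := by
      simpa using tendsto_add (γ + δ) 0
    have hb1 : ∀ᶠ w in 𝓝 (0 : E), δ + w ∈ ball (0 : E) R :=
      ht1.eventually (isOpen_ball.mem_nhds (by simpa using hδR))
    have hb2 : ∀ᶠ w in 𝓝 (0 : E), γ + δ + w ∈ ball (0 : E) R :=
      ht2.eventually (isOpen_ball.mem_nhds (by simpa using hγδ))
    filter_upwards [hb1.eventually_nhds, hb2.eventually_nhds, h2.eventually_nhds,
      germ_cont hRpos r] with w hw1 hw2 hw3 hw4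
    intro i
    have hp1 : δ + w ∈ ball (0 : E) R := hw1.self_of_nhds
    have hp2 : γ + δ + w ∈ ball (0 : E) R := hw2.self_of_nhds
    have hback : Tendsto (fun q : E => -δ + q) (𝓝 (δ + w)) (𝓝 w) := by
      simpa using tendsto_add (-δ) (δ + w)
    have hfor : Tendsto (fun q : E => γ + q) (𝓝 (δ + w)) (𝓝 (γ + δ + w)) := by
      simpa [add_assoc] using tendsto_add γ (δ + w)
    have key := cancel r.an0 r.ne (p := δ + w) hp1
      (f := fun q => r.G i (γ + q)) (g := fun q => F (-δ + q) i * r.G0 (γ + q)) ?_ ?_ ?_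
    · simpa [add_assoc] using key
    · have hc : ContinuousAt (r.G i) (γ + (δ + w)) := by
        rw [← add_assoc]
        exact (r.an i _ hp2).continuousAt
      exact ContinuousAt.comp (f := fun q : E => γ + q) (g := r.G i) hc
        ((continuous_const.add continuous_id).continuousAt)
    · have hc : ContinuousAt r.G0 (γ + (δ + w)) := by
        rw [← add_assoc]
        exact (r.an0 _ hp2).continuousAt
      refine ContinuousAt.mul ?_ (ContinuousAt.comp (f := fun q : E => γ + q) (g := r.G0) hc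
        ((continuous_const.add continuous_id).continuousAt))
      have h6 : ContinuousAt (fun z => F z i) (-δ + (δ + w)) := by
        have h7 : -δ + (δ + w) = w := by abel
        rw [h7]
        exact hw4 i
      exact ContinuousAt.comp (f := fun q : E => -δ + q) (g := fun z => F z i) h6
        ((continuous_const.add continuous_id).continuousAt)
    · filter_upwards [hback.eventually hw3, hback.eventually hw1, hback.eventually hw2] with
        q hq1 hq2 hq3
      have e1 : δ + (-δ + q) = q := by abel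
      have e2 : γ + δ + (-δ + q) = γ + q := by abel
      rw [e1] at hq2
      rw [e2] at hq3
      have h8 := hq1 i
      rw [e1] at h8
      have h9 := lens r hγR h1 i q hq2 hq3
      rw [mul_comm (r.G0 q), h9, h8]
      ring
  · intro γ hγ
    obtain ⟨r, -⟩ := hrep (‖γ‖ + 1) (by
      have := norm_nonneg γ
      linarith)
    set R := ‖γ‖ + 1 with hR
    have hRpos : 0 < R := by
      have := norm_nonneg γ
      linarith
    have hγR : ‖γ‖ < R := by linarith
    have h1 := (hPerAny E ι F γ hγ R hγR r).1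
    refine ⟨R, by rwa [norm_neg], r, ?_⟩
    have ht1 : Tendsto (fun w : E => -γ + w) (𝓝 0) (𝓝 (-γ)) := by simpa using tendsto_add (-γ) 0
    have h0 : (0 : E) ∈ ball (0 : E) R := by simpa using hRpos
    have hb1 : ∀ᶠ w in 𝓝 (0 : E), -γ + w ∈ ball (0 : E) R :=
      ht1.eventually (isOpen_ball.mem_nhds (by simpa using hγR))
    have hb2 : ∀ᶠ w in 𝓝 (0 : E), w ∈ ball (0 : E) R := isOpen_ball.mem_nhds h0
    have hne : ∀ᶠ z in 𝓝 (0 : E), r.G0 z ≠ 0 :=
      ((r.an0 0 h0).continuousAt).eventually_ne r.ne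
    filter_upwards [hb1, hb2, hne, r.eq] with w hw1 hw2 hw3 hw4
    intro i
    have e1 : γ + (-γ + w) = w := by abel
    have h2 := lens r hγR h1 i (-γ + w) hw1 (by rw [e1]; exact hw2)
    rw [e1, hw4 i] at h2
    apply mul_right_cancel₀ hw3
    rw [← h2]
    ring

end Pool.Agent.FDR.PERGROUP
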