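import Pool.Agent.FDR.Stmts

open scoped BigOperators Polynomial Topology
open Metric Filter

namespace Pool.Agent.FDR.ABELA

noncomputable section

/-- Analytic implicit function theorem in one unknown. -/
theorem ift {P : Type} [NormedAddCommGroup P] [NormedSpace ℂ P] [CompleteSpace P]
    (Φ : P × ℂ → ℂ) (p0 : P) (b : ℂ) (han : AnalyticAt ℂ Φ (p0, b)) (h0 : Φ (p0, b) = 0)
    (d : ℂ) (hd : d ≠ 0) (hder : HasDerivAt (fun x => Φ (p0, x)) d b) :
    ∃ u : P → ℂ, AnalyticAt ℂ u p0 ∧ u p0 = b ∧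
      ∀ᶠ w in 𝓝 (p0, b), (Φ w = 0 ↔ w.2 = u w.1) := by
  have cdf : ContDiffAt ℂ ⊤ Φ (p0, b) := han.contDiffAt
  have hfd : HasFDerivAt Φ (fderiv ℂ Φ (p0, b)) (p0, b) := han.differentiableAt.hasFDerivAt
  have hinr : HasFDerivAt (fun x : ℂ => ((p0, x) : P × ℂ)) (ContinuousLinearMap.inr ℂ P ℂ) b :=
    hasFDerivAt_prodMk_right p0 b
  have hcomp : HasFDerivAt (fun x => Φ (p0, x))
      ((fderiv ℂ Φ (p0, b)).comp (ContinuousLinearMap.inr ℂ P ℂ)) b :=
    HasFDerivAt.comp b hfd hinr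
  have heq : (fderiv ℂ Φ (p0, b)).comp (ContinuousLinearMap.inr ℂ P ℂ) =
      ContinuousLinearMap.toSpanSingleton ℂ d := hcomp.unique hder.hasFDerivAt
  have hinv : ((fderiv ℂ Φ (p0, b)).comp (ContinuousLinearMap.inr ℂ P ℂ)).IsInvertible := by
    rw [heq]
    refine ⟨ContinuousLinearEquiv.unitsEquivAut ℂ (Units.mk0 d hd), ?_⟩
    ext
    simp
  refine ⟨cdf.implicitFunction (by simp) hinv,
    (cdf.contDiffAt_implicitFunction (by simp) hinv).analyticAt,
    cdf.implicitFunction_apply_self (by simp) hinv, ?_⟩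
  filter_upwards [cdf.eventually_apply_eq_iff_implicitFunction (by simp) hinv] with w hw
  rw [h0] at hw
  rw [hw]
  exact eq_comm

theorem evalA {g : ℕ} (p : Fin 3 × Fin g → ℂ) (x : ℂ) : (polyA p).eval x =
    x ^ (2 * g) + ∑ i : Fin g, p (0, i) * x ^ (i : ℕ) +
      ∑ i : Fin g, p (1, i) * x ^ (g + (i : ℕ)) := by
  simp [polyA, Polynomial.eval_finsetSum]

theorem evalB {g : ℕ} (p : Fin 3 × Fin g → ℂ) (x : ℂ) : (polyB p).eval x =
    ∑ i : Fin g, p (2, i) * x ^ (i : ℕ) := by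
  simp [polyB, Polynomial.eval_finsetSum]

theorem degB {g : ℕ} (p : Fin 3 × Fin g → ℂ) : (polyB p).degree < g := by
  unfold polyB
  exact Polynomial.degree_sum_fin_lt _

theorem monicA {g : ℕ} (p : Fin 3 × Fin g → ℂ) : (polyA p).Monic ∧
    (polyA p).natDegree = 2 * g := by
  have h : (∑ i : Fin g, Polynomial.C (p (0, i)) * Polynomial.X ^ (i : ℕ) +
    ∑ i : Fin g, Polynomial.C (p (1, i)) * Polynomial.X ^ (g + (i : ℕ)) : ℂ[X]).degree <
      ((2 * g : ℕ) : WithBot ℕ) := by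
    rw [Polynomial.degree_lt_iff_coeff_zero]
    intro m hm
    simp only [Polynomial.coeff_add, Polynomial.finsetSum_coeff, Polynomial.coeff_C_mul,
      Polynomial.coeff_X_pow]
    rw [Finset.sum_eq_zero, Finset.sum_eq_zero, add_zero]
    · intro i _
      rw [if_neg (by have := i.2; omega), mul_zero]
    · intro i _
      rw [if_neg (by have := i.2; omega), mul_zero]
  unfold polyA
  rw [add_assoc]
  refine ⟨Polynomial.monic_X_pow_add h, ?_⟩
  rw [Polynomial.natDegree_add_eq_left_of_degree_lt]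
  · simp
  · simpa using h

theorem monicN {g : ℕ} (f : ℂ[X]) (hf : f.Monic) (hd : f.natDegree = 2 * g + 1)
    (p : Fin 3 × Fin g → ℂ) : (polyA p ^ 2 - polyB p ^ 2 * f).Monic ∧
    (polyA p ^ 2 - polyB p ^ 2 * f).natDegree = 4 * g := by
  obtain ⟨hA, hA2⟩ := monicA p
  have hd1 : (polyA p ^ 2).degree = ((4 * g : ℕ) : WithBot ℕ) := by
    rw [Polynomial.degree_eq_natDegree (hA.pow 2).ne_zero, hA.natDegree_pow, hA2]
    congr 1
    ring
  have hlt : (polyB p ^ 2 * f).degree < (polyA p ^ 2).degree := by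
    rw [hd1]
    by_cases hB : polyB p = 0
    · rw [hB]
      simp only [ne_eq, OfNat.ofNat_ne_zero, not_false_eq_true, zero_pow, zero_mul,
        Polynomial.degree_zero]
      exact WithBot.bot_lt_coe _
    · have h1 : (polyB p).natDegree < g := by
        have := degB p
        rwa [Polynomial.degree_eq_natDegree hB, Nat.cast_lt] at this
      rw [Polynomial.degree_eq_natDegree (mul_ne_zero (pow_ne_zero _ hB) hf.ne_zero),
        Polynomial.natDegree_mul (pow_ne_zero _ hB) hf.ne_zero, Polynomial.natDegree_pow, hd,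
        Nat.cast_lt]
      omega
  refine ⟨(hA.pow 2).sub_of_left hlt, ?_⟩
  apply Polynomial.natDegree_eq_of_degree_eq_some
  rw [Polynomial.degree_sub_eq_left_of_degree_lt hlt, hd1]

/-- The two zeros of one branch divide the norm. -/
theorem pairdvd (A B f : ℂ[X]) (y : ℂ → ℂ) (u v : ℂ) (hu : y u ^ 2 = f.eval u)
    (hv : y v ^ 2 = f.eval v) (hyu : y u ≠ 0) (h1 : A.eval u + B.eval u * y u = 0)
    (h2 : A.eval v - B.eval v * y v = 0) :
    (Polynomial.X - Polynomial.C u) * (Polynomial.X - Polynomial.C v) ∣ A ^ 2 - B ^ 2 * f := by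
  by_cases huv : u = v
  · subst huv
    have hA : A.eval u = 0 := by linear_combination h1 / 2 + h2 / 2
    have hB : B.eval u = 0 := by
      have : B.eval u * y u = 0 := by linear_combination h1 / 2 - h2 / 2
      exact (mul_eq_zero.1 this).resolve_right hyu
    obtain ⟨A', hA'⟩ := Polynomial.dvd_iff_isRoot.2 hA
    obtain ⟨B', hB'⟩ := Polynomial.dvd_iff_isRoot.2 hB
    refine ⟨A' ^ 2 - B' ^ 2 * f, ?_⟩
    rw [hA', hB']
    ring
  · apply IsCoprime.mul_dvd
    · exact Polynomial.isCoprime_X_sub_C_of_isUnit_sub (sub_ne_zero.2 huv).isUnit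
    · rw [Polynomial.dvd_iff_isRoot]
      simp only [Polynomial.IsRoot.def, Polynomial.eval_sub, Polynomial.eval_pow,
        Polynomial.eval_mul]
      rw [← hu]
      linear_combination (A.eval u - B.eval u * y u) * h1
    · rw [Polynomial.dvd_iff_isRoot]
      simp only [Polynomial.IsRoot.def, Polynomial.eval_sub, Polynomial.eval_pow,
        Polynomial.eval_mul]
      rw [← hv]
      linear_combination (A.eval v + B.eval v * y v) * h2

theorem prodformula {g : ℕ} (f : ℂ[X]) (hf : f.Monic) (hd : f.natDegree = 2 * g + 1)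
    (p : Fin 3 × Fin g → ℂ) (y : Fin 2 × Fin g → ℂ → ℂ) (u v : Fin 2 × Fin g → ℂ)
    (hu : ∀ q, y q (u q) ^ 2 = f.eval (u q)) (hv : ∀ q, y q (v q) ^ 2 = f.eval (v q))
    (hyu : ∀ q, y q (u q) ≠ 0)
    (h1 : ∀ q, (polyA p).eval (u q) + (polyB p).eval (u q) * y q (u q) = 0)
    (h2 : ∀ q, (polyA p).eval (v q) - (polyB p).eval (v q) * y q (v q) = 0)
    (hdis : ∀ q q', q ≠ q' → u q ≠ u q' ∧ u q ≠ v q' ∧ v q ≠ u q' ∧ v q ≠ v q') :
    polyA p ^ 2 - polyB p ^ 2 * f =
        ∏ q, ((Polynomial.X - Polynomial.C (u q)) * (Polynomial.X - Polynomial.C (v q))) := by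
  obtain ⟨hm, hdeg⟩ := monicN f hf hd p
  symm
  have hmon : ∀ q, ((Polynomial.X - Polynomial.C (u q)) *
      (Polynomial.X - Polynomial.C (v q))).Monic := fun q =>
    (Polynomial.monic_X_sub_C _).mul (Polynomial.monic_X_sub_C _)
  apply Eq.symm
  apply Polynomial.eq_of_monic_of_dvd_of_natDegree_le _ hm
  · apply Finset.prod_dvd_of_coprime
    · intro q _ q' _ hqq
      have hh := hdis q q' hqq
      have key : ∀ a b : ℂ, a ≠ b →
          IsCoprime (Polynomial.X - Polynomial.C a) (Polynomial.X - Polynomial.C b) :=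
        fun a b hab => Polynomial.isCoprime_X_sub_C_of_isUnit_sub (sub_ne_zero.2 hab).isUnit
      exact IsCoprime.mul_left
        (IsCoprime.mul_right (key _ _ hh.1) (key _ _ hh.2.1))
        (IsCoprime.mul_right (key _ _ hh.2.2.1) (key _ _ hh.2.2.2))
    · intro q _
      exact pairdvd _ _ _ (y q) _ _ (hu q) (hv q) (hyu q) (h1 q) (h2 q)
  · rw [hdeg, Polynomial.natDegree_prod_of_monic _ _ (fun q _ => hmon q)]
    rw [Finset.sum_congr rfl (g := fun _ => 2)]
    · simp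
      omega
    · intro q _
      rw [Polynomial.Monic.natDegree_mul (Polynomial.monic_X_sub_C _)
        (Polynomial.monic_X_sub_C _)]
      simp
  · exact Polynomial.monic_prod_of_monic _ _ (fun q _ => hmon q)

/-- the function to which the implicit function theorem is applied -/
def Phi {g : ℕ} (s : ℂ) (y : ℂ → ℂ) (w : (Fin 3 × Fin g → ℂ) × ℂ) : ℂ :=
  (polyA w.1).eval w.2 + s * ((polyB w.1).eval w.2 * y w.2)

theorem an_Phi {g : ℕ} (s : ℂ) (y : ℂ → ℂ) (p0 : Fin 3 × Fin g → ℂ) (b : ℂ)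
    (hy : AnalyticAt ℂ y b) : AnalyticAt ℂ (Phi s y) (p0, b) := by
  have hcoord : ∀ t, AnalyticAt ℂ (fun w : (Fin 3 × Fin g → ℂ) × ℂ => w.1 t) (p0, b) := by
    intro t
    exact ((ContinuousLinearMap.proj (R := ℂ) t).comp
      (ContinuousLinearMap.fst ℂ (Fin 3 × Fin g → ℂ) ℂ)).analyticAt _
  have hsnd : AnalyticAt ℂ (fun w : (Fin 3 × Fin g → ℂ) × ℂ => w.2) (p0, b) := analyticAt_snd
  have hyc : AnalyticAt ℂ (fun w : (Fin 3 × Fin g → ℂ) × ℂ => y w.2) (p0, b) :=
    AnalyticAt.comp (g := y) (f := fun w : (Fin 3 × Fin g → ℂ) × ℂ => w.2) hy hsnd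
  unfold Phi
  simp only [evalA, evalB]
  refine ((((hsnd.pow _).add ?_).add ?_)).add (analyticAt_const.mul (?_ : AnalyticAt ℂ _ _))
  · exact Finset.analyticAt_fun_sum _ fun i _ => (hcoord _).mul (hsnd.pow _)
  · exact Finset.analyticAt_fun_sum _ fun i _ => (hcoord _).mul (hsnd.pow _)
  · exact (Finset.analyticAt_fun_sum _ fun i _ => (hcoord _).mul (hsnd.pow _)).mul hyc

theorem der_Phi {g : ℕ} (s : ℂ) (y : ℂ → ℂ) (p0 : Fin 3 × Fin g → ℂ)
    (b : Fin 2 × Fin g → ℂ) (hA : polyA p0 = ∏ q, (Polynomial.X - Polynomial.C (b q)))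
    (hB : polyB p0 = 0) (q : Fin 2 × Fin g) :
    HasDerivAt (fun x => Phi s y (p0, x)) (∏ q' ∈ Finset.univ.erase q, (b q - b q')) (b q) := by
  have h1 : (fun x => Phi s y (p0, x)) = fun x => (polyA p0).eval x := by
    funext x
    simp [Phi, hB]
  rw [h1]
  have h2 := (polyA p0).hasDerivAt (b q)
  suffices heq : ∏ q' ∈ Finset.univ.erase q, (b q - b q') =
      (Polynomial.derivative (polyA p0)).eval (b q) by
    rw [heq]
    exact h2
  rw [hA, Polynomial.derivative_prod_finset]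
  simp only [Polynomial.derivative_sub, Polynomial.derivative_X, Polynomial.derivative_C,
    sub_zero, mul_one]
  rw [Polynomial.eval_finsetSum, Finset.sum_eq_single q]
  · simp [Polynomial.eval_prod]
  · intro q' _ hq'
    rw [Polynomial.eval_prod]
    apply Finset.prod_eq_zero (i := q)
    · simp [hq'.symm]
    · simp
  · simp

theorem an_y {f : ℂ[X]} {b c : ℂ} (β : Branch f b c) : AnalyticAt ℂ β.y b :=
  β.y_diff.analyticAt (isOpen_ball.mem_nhds (mem_ball_self β.rpos))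

theorem thm_ABELA : Stmt_AbelA := by
  intro g hg f hf hd b c hb β p0 hA hB
  have hroot : ∀ q, (polyA p0).eval (b q) = 0 := by
    intro q
    rw [hA, Polynomial.eval_prod]
    exact Finset.prod_eq_zero (Finset.mem_univ q) (by simp)
  have hdne : ∀ q, ∏ q' ∈ Finset.univ.erase q, (b q - b q') ≠ 0 := by
    intro q
    rw [Finset.prod_ne_zero_iff]
    intro q' hq'
    exact sub_ne_zero.2 (fun h => (Finset.mem_erase.1 hq').1 (hb h).symm)
  have key : ∀ (s : ℂ) (q : Fin 2 × Fin g), ∃ u : (Fin 3 × Fin g → ℂ) → ℂ,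
      AnalyticAt ℂ u p0 ∧ u p0 = b q ∧ ∃ δ > 0, ∀ ε > 0, ε ≤ δ →
        ∀ᶠ p in 𝓝 p0, u p ∈ ball (b q) ε ∧
          ∀ x ∈ ball (b q) ε, (Phi s (β q).y (p, x) = 0 ↔ x = u p) := by
    intro s q
    obtain ⟨u, hu1, hu2, hu3⟩ := ift (Phi s (β q).y) p0 (b q)
      (an_Phi s _ p0 _ (an_y (β q))) (by simp [Phi, hroot, hB]) _ (hdne q)
      (der_Phi s _ p0 b hA hB q)
    refine ⟨u, hu1, hu2, ?_⟩
    rw [nhds_prod_eq, Filter.eventually_prod_iff] at hu3
    obtain ⟨pa, hpa, pb, hpb, hpp⟩ := hu3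
    obtain ⟨δ, hδ, hball⟩ := Metric.eventually_nhds_iff_ball.1 hpb
    refine ⟨δ, hδ, fun ε hε hle => ?_⟩
    have hc : ∀ᶠ p in 𝓝 p0, u p ∈ ball (b q) ε := by
      apply hu1.continuousAt
      rw [hu2]
      exact ball_mem_nhds _ hε
    filter_upwards [hpa, hc] with p h1 h2
    exact ⟨h2, fun x hx => hpp h1 (hball x (ball_subset_ball hle hx))⟩
  choose! u hu1 hu2 δ hδ hu3 using key
  obtain ⟨ε, hε, hεle⟩ : ∃ ε > 0, ∀ q, ε ≤ (β q).r ∧ ε ≤ δ 1 q ∧ ε ≤ δ (-1) q := by
    have hne : (Finset.univ : Finset (Fin 2 × Fin g)).Nonempty := ⟨(0, ⟨0, hg⟩), Finset.mem_univ _⟩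
    refine ⟨Finset.univ.inf' hne (fun q => min (β q).r (min (δ 1 q) (δ (-1) q))), ?_, ?_⟩
    · rw [gt_iff_lt, Finset.lt_inf'_iff]
      intro q _
      exact lt_min (β q).rpos (lt_min (hδ 1 q) (hδ (-1) q))
    · intro q
      have := Finset.inf'_le (fun q => min (β q).r (min (δ 1 q) (δ (-1) q))) (Finset.mem_univ q)
      exact ⟨this.trans (min_le_left _ _), this.trans ((min_le_right _ _).trans (min_le_left _ _)),
        this.trans ((min_le_right _ _).trans (min_le_right _ _))⟩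
  have hdis : ∀ᶠ p in 𝓝 p0, ∀ q q', q ≠ q' → u 1 q p ≠ u 1 q' p ∧ u 1 q p ≠ u (-1) q' p ∧
      u (-1) q p ≠ u 1 q' p ∧ u (-1) q p ≠ u (-1) q' p := by
    rw [Filter.eventually_all]
    intro q
    rw [Filter.eventually_all]
    intro q'
    by_cases hqq : q = q'
    · filter_upwards with p h
      exact absurd hqq h
    · have hbq : b q ≠ b q' := fun h => hqq (hb h)
      have key2 : ∀ s s' : ℂ, ∀ᶠ p in 𝓝 p0, u s q p ≠ u s' q' p := by
        intro s s'
        have hc : ContinuousAt (fun p => u s q p - u s' q' p) p0 :=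
          (hu1 s q).continuousAt.sub (hu1 s' q').continuousAt
        have hne : (fun p => u s q p - u s' q' p) p0 ≠ 0 := by
          simp only [hu2]
          exact sub_ne_zero.2 hbq
        filter_upwards [hc.eventually_ne hne] with p hp
        exact sub_ne_zero.1 hp
      filter_upwards [key2 1 1, key2 1 (-1), key2 (-1) 1, key2 (-1) (-1)] with p h1 h2 h3 h4 _
      exact ⟨h1, h2, h3, h4⟩
  refine ⟨u 1, u (-1), ε, hε, fun q => (hεle q).1, fun q => ⟨hu1 1 q, hu1 (-1) q, hu2 1 q,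
    hu2 (-1) q⟩, ?_⟩
  have e1 : ∀ᶠ p in 𝓝 p0, ∀ q, u 1 q p ∈ ball (b q) ε ∧
          ∀ x ∈ ball (b q) ε, (Phi 1 (β q).y (p, x) = 0 ↔ x = u 1 q p) := by
    rw [Filter.eventually_all]
    intro q
    exact hu3 1 q ε hε (hεle q).2.1
  have e2 : ∀ᶠ p in 𝓝 p0, ∀ q, u (-1) q p ∈ ball (b q) ε ∧
          ∀ x ∈ ball (b q) ε, (Phi (-1) (β q).y (p, x) = 0 ↔ x = u (-1) q p) := by
    rw [Filter.eventually_all]
    intro q
    exact hu3 (-1) q ε hε (hεle q).2.2
  filter_upwards [e1, e2, hdis] with p h1 h2 h3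
  have r1 : ∀ q, ∀ x ∈ ball (b q) ε,
          ((polyA p).eval x + (polyB p).eval x * (β q).y x = 0 ↔ x = u 1 q p) := by
    intro q x hx
    rw [← (h1 q).2 x hx]
    simp [Phi]
  have r2 : ∀ q, ∀ x ∈ ball (b q) ε,
          ((polyA p).eval x - (polyB p).eval x * (β q).y x = 0 ↔ x = u (-1) q p) := by
    intro q x hx
    rw [← (h2 q).2 x hx]
    simp [Phi, sub_eq_add_neg]
  refine ⟨fun q => ⟨(h1 q).1, (h2 q).1, r1 q, r2 q⟩, ?_⟩
  have hin : ∀ q, ball (b q) ε ⊆ ball (b q) (β q).r := fun q => ball_subset_ball (hεle q).1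
  exact prodformula f hf hd p (fun q => (β q).y) (fun q => u 1 q p) (fun q => u (-1) q p)
    (fun q => (β q).y_sq _ (hin q (h1 q).1)) (fun q => (β q).y_sq _ (hin q (h2 q).1))
    (fun q => (β q).y_ne _ (hin q (h1 q).1))
    (fun q => (r1 q _ (h1 q).1).2 rfl) (fun q => (r2 q _ (h2 q).1).2 rfl) h3

end

end Pool.Agent.FDR.ABELA
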