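import Pool.Agent.FDR.Stmts

/-!
# FDR, module ABELB: Abel's theorem for the zeros of `A + B y`.
-/

open scoped BigOperators Polynomial Topology
open Metric Filter

namespace Pool.Agent.FDR.ABELB

noncomputable section

/-- Euler's identity. -/
theorem euler {ι : Type} [Fintype ι] [DecidableEq ι] (x : ι → ℂ) (hx : Function.Injective x)
    (R : ℂ[X]) (hR : R.degree < (Fintype.card ι : ℕ)) :
    ∑ i, R.eval (x i) /
      (Polynomial.derivative (∏ j, (Polynomial.X - Polynomial.C (x j)))).eval (x i) =
      R.coeff (Fintype.card ι - 1) := by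
  have h := Lagrange.coeff_eq_sum (s := (Finset.univ : Finset ι)) (v := x) hx.injOn (P := R)
    (by simpa using hR)
  rw [Finset.card_univ] at h
  rw [h]
  refine Finset.sum_congr rfl fun i _ => ?_
  have h2 := Lagrange.eval_nodal_derivative_eval_node_eq (s := (Finset.univ : Finset ι)) (v := x)
    (Finset.mem_univ i)
  rw [Lagrange.eval_nodal] at h2
  rw [← h2]
  rfl

theorem deriv_ne {ι : Type} [Fintype ι] [DecidableEq ι] (x : ι → ℂ) (hx : Function.Injective x)
    (i : ι) :
    (Polynomial.derivative (∏ j, (Polynomial.X - Polynomial.C (x j)))).eval (x i) ≠ 0 := by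
  have h2 := Lagrange.eval_nodal_derivative_eval_node_eq (s := (Finset.univ : Finset ι)) (v := x)
    (Finset.mem_univ i)
  rw [Lagrange.eval_nodal] at h2
  have h3 : (Polynomial.derivative (∏ j, (Polynomial.X - Polynomial.C (x j)))).eval (x i) =
      ∏ j ∈ Finset.univ.erase i, (x i - x j) := h2
  rw [h3, Finset.prod_ne_zero_iff]
  intro j hj
  rw [sub_ne_zero]
  intro h
  exact (Finset.ne_of_mem_erase hj) (hx h).symm

/-- the derivative of the branch -/
theorem branch_y_hasDerivAt {f : ℂ[X]} {b c : ℂ} (β : Branch f b c) {x : ℂ}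
    (hx : x ∈ ball b β.r) :
    HasDerivAt β.y ((Polynomial.derivative f).eval x / (2 * β.y x)) x := by
  have hd : DifferentiableAt ℂ β.y x := β.y_diff.differentiableAt (isOpen_ball.mem_nhds hx)
  have h1 : HasDerivAt (fun z => β.y z ^ 2) (2 * β.y x * deriv β.y x) x := by
    have := hd.hasDerivAt.fun_pow 2
    simpa using this
  have h2 : HasDerivAt (fun z => β.y z ^ 2) ((Polynomial.derivative f).eval x) x := by
    refine (f.hasDerivAt x).congr_of_eventuallyEq ?_
    filter_upwards [isOpen_ball.mem_nhds hx] with z hz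
    exact β.y_sq z hz
  have h3 := h1.unique h2
  have hy := β.y_ne x hx
  rw [← h3]
  have : 2 * β.y x * deriv β.y x / (2 * β.y x) = deriv β.y x := by
    field_simp
  rw [this]
  exact hd.hasDerivAt

/-- the derivative of a root along a line -/
theorem root_deriv {f : ℂ[X]} {b c : ℂ} (β : Branch f b c) (A B A1 B1 : ℂ[X]) (σ : ℂ)
    (hσ : σ ^ 2 = 1) (x : ℂ → ℂ) (x' : ℂ) (hx : HasDerivAt x x' 0) (hxb : x 0 ∈ ball b β.r)
    (hev : ∀ᶠ t in 𝓝 (0 : ℂ), (A.eval (x t) + t * A1.eval (x t)) +
      σ * (B.eval (x t) + t * B1.eval (x t)) * β.y (x t) = 0) :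
    σ * x' * (Polynomial.derivative (A ^ 2 - B ^ 2 * f)).eval (x 0) =
      β.y (x 0) * (2 * (B.eval (x 0) * A1.eval (x 0) - A.eval (x 0) * B1.eval (x 0))) := by
  have hy := branch_y_hasDerivAt β hxb
  have hyx : HasDerivAt (fun t => β.y (x t))
      ((Polynomial.derivative f).eval (x 0) / (2 * β.y (x 0)) * x') 0 := hy.comp 0 hx
  have hp : ∀ P : ℂ[X], HasDerivAt (fun t => P.eval (x t))
      ((Polynomial.derivative P).eval (x 0) * x') 0 := fun P => (P.hasDerivAt (x 0)).comp 0 hx
  have hid : HasDerivAt (fun t : ℂ => t) 1 0 := hasDerivAt_id 0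
  have hA := (hp A).add (hid.mul (hp A1))
  have hB := ((hp B).add (hid.mul (hp B1))).const_mul σ
  have htot := hA.add (hB.mul hyx)
  have h0 : HasDerivAt (fun _ : ℂ => (0 : ℂ)) 0 0 := hasDerivAt_const 0 0
  have htot2 := htot.unique (h0.congr_of_eventuallyEq (by
    filter_upwards [hev] with t ht
    simpa using ht))
  have hAB : A.eval (x 0) + σ * B.eval (x 0) * β.y (x 0) = 0 := by
    have := hev.self_of_nhds
    simpa using this
  have hy0 := β.y_ne _ hxb
  have hysq := β.y_sq _ hxb
  have hAe : A.eval (x 0) = -(σ * B.eval (x 0) * β.y (x 0)) := by linear_combination hAB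
  simp only [Polynomial.derivative_sub, Polynomial.derivative_mul, Polynomial.derivative_pow,
    Polynomial.eval_sub, Polynomial.eval_mul, Polynomial.eval_add, Polynomial.eval_pow]
  simp only [zero_mul, add_zero, one_mul, Pi.add_apply, Pi.mul_apply] at htot2
  have hC2 : Polynomial.eval (x 0) (Polynomial.C ((2 : ℕ) : ℂ)) = 2 := by simp
  rw [hC2]
  have hd : (Polynomial.derivative f).eval (x 0) =
      2 * β.y (x 0) * ((Polynomial.derivative f).eval (x 0) / (2 * β.y (x 0))) := by
    field_simp
  set d := (Polynomial.derivative f).eval (x 0) / (2 * β.y (x 0)) with hddef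
  rw [hd, hAe, ← hysq]
  simp only [Nat.add_one_sub_one, pow_one]
  linear_combination (-(2 * β.y (x 0) * B.eval (x 0))) * htot2 +
    (-(2 * B.eval (x 0) * β.y (x 0) * (Polynomial.derivative A).eval (x 0) * x')) * hσ

/-- the linear part of `polyA` -/
def linA {g : ℕ} (p : Fin 3 × Fin g → ℂ) : ℂ[X] :=
  ∑ i : Fin g, Polynomial.C (p (0, i)) * Polynomial.X ^ (i : ℕ) +
    ∑ i : Fin g, Polynomial.C (p (1, i)) * Polynomial.X ^ (g + (i : ℕ))

theorem polyA_eq {g : ℕ} (p : Fin 3 × Fin g → ℂ) :
    polyA p = Polynomial.X ^ (2 * g) + linA p := by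
  simp only [polyA, linA]
  ring

theorem natDegree_polyB {g : ℕ} (p : Fin 3 × Fin g → ℂ) :
    (polyB p).natDegree ≤ g - 1 := by
  refine Polynomial.natDegree_sum_le_of_forall_le _ _ fun i _ => ?_
  refine (Polynomial.natDegree_C_mul_X_pow_le _ _).trans ?_
  have := i.2
  omega

theorem natDegree_linA {g : ℕ} (hg : 0 < g) (p : Fin 3 × Fin g → ℂ) :
    (linA p).natDegree ≤ 2 * g - 1 := by
  refine Polynomial.natDegree_add_le_of_degree_le ?_ ?_
  · refine Polynomial.natDegree_sum_le_of_forall_le _ _ fun i _ => ?_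
    refine (Polynomial.natDegree_C_mul_X_pow_le _ _).trans ?_
    have := i.2
    omega
  · refine Polynomial.natDegree_sum_le_of_forall_le _ _ fun i _ => ?_
    refine (Polynomial.natDegree_C_mul_X_pow_le _ _).trans ?_
    have := i.2
    omega

theorem natDegree_polyA {g : ℕ} (hg : 0 < g) (p : Fin 3 × Fin g → ℂ) :
    (polyA p).natDegree ≤ 2 * g := by
  rw [polyA_eq]
  refine Polynomial.natDegree_add_le_of_degree_le ?_ ?_
  · simp
  · exact (natDegree_linA hg p).trans (by omega)

theorem coeff_polyA {g : ℕ} (hg : 0 < g) (p : Fin 3 × Fin g → ℂ) :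
    (polyA p).coeff (2 * g) = 1 := by
  rw [polyA_eq, Polynomial.coeff_add, Polynomial.coeff_X_pow_self,
    Polynomial.coeff_eq_zero_of_natDegree_lt
      (lt_of_le_of_lt (natDegree_linA hg p) (by omega)), add_zero]

theorem coeff_polyB {g : ℕ} (hg : 0 < g) (p : Fin 3 × Fin g → ℂ) :
    (polyB p).coeff (g - 1) = p (2, ⟨g - 1, by omega⟩) := by
  simp only [polyB, Polynomial.finsetSum_coeff, Polynomial.coeff_C_mul_X_pow]
  rw [Finset.sum_eq_single (⟨g - 1, by omega⟩ : Fin g)]
  · simp
  · intro i _ hi
    rw [if_neg]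
    intro h
    exact hi (Fin.ext h.symm)
  · intro h
    exact absurd (Finset.mem_univ _) h

theorem natDegree_P {g : ℕ} (hg : 0 < g) (p u : Fin 3 × Fin g → ℂ) :
    (2 * (polyB p * linA u - polyA p * polyB u) : ℂ[X]).natDegree ≤ 3 * g - 1 := by
  have h2 : (2 : ℂ[X]) = Polynomial.C 2 := rfl
  rw [h2]
  refine (Polynomial.natDegree_C_mul_le _ _).trans ?_
  have ha : (polyB p * linA u).natDegree ≤ 3 * g - 1 := by
    refine (Polynomial.natDegree_mul_le).trans ?_
    have h3 := natDegree_polyB p
    have h4 := natDegree_linA hg u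
    omega
  have hb : (polyA p * polyB u).natDegree ≤ 3 * g - 1 := by
    refine (Polynomial.natDegree_mul_le).trans ?_
    have h3 := natDegree_polyB u
    have h4 := natDegree_polyA hg p
    omega
  exact (Polynomial.natDegree_sub_le_of_le ha hb).trans (by simp)

theorem coeff_P {g : ℕ} (hg : 0 < g) (p u : Fin 3 × Fin g → ℂ) :
    (2 * (polyB p * linA u - polyA p * polyB u) : ℂ[X]).coeff (3 * g - 1) =
      -2 * u (2, ⟨g - 1, by omega⟩) := by
  have h2 : (2 : ℂ[X]) = Polynomial.C 2 := rfl
  rw [h2, Polynomial.coeff_C_mul, Polynomial.coeff_sub]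
  have h5 : (polyB p * linA u).coeff (3 * g - 1) = 0 := by
    refine Polynomial.coeff_eq_zero_of_natDegree_lt (lt_of_le_of_lt Polynomial.natDegree_mul_le ?_)
    have h3 := natDegree_polyB p
    have h4 := natDegree_linA hg u
    omega
  have h6 : (polyA p * polyB u).coeff (3 * g - 1) = u (2, ⟨g - 1, by omega⟩) := by
    have h7 : 3 * g - 1 = 2 * g + (g - 1) := by omega
    rw [h7, Polynomial.coeff_mul_add_eq_of_natDegree_le (natDegree_polyA hg p) (natDegree_polyB u),
      coeff_polyA hg, coeff_polyB hg, one_mul]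
  rw [h5, h6]
  ring

theorem coeff_R {g : ℕ} (hg : 0 < g) (p u : Fin 3 × Fin g → ℂ) (k : ℕ) (hk : k ≤ g) :
    (Polynomial.X ^ k * (2 * (polyB p * linA u - polyA p * polyB u)) : ℂ[X]).degree <
      (4 * g : ℕ) ∧
    (Polynomial.X ^ k * (2 * (polyB p * linA u - polyA p * polyB u)) : ℂ[X]).coeff (4 * g - 1) =
      if k = g then -2 * u (2, ⟨g - 1, by omega⟩) else 0 := by
  have hP := natDegree_P hg p u
  constructor
  · refine lt_of_le_of_lt Polynomial.degree_le_natDegree ?_
    have h1 := (Polynomial.natDegree_mul_le (p := (Polynomial.X ^ k : ℂ[X]))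
      (q := 2 * (polyB p * linA u - polyA p * polyB u)))
    rw [Polynomial.natDegree_X_pow] at h1
    have h2 : (Polynomial.X ^ k * (2 * (polyB p * linA u - polyA p * polyB u)) : ℂ[X]).natDegree
        < 4 * g := by omega
    exact_mod_cast h2
  · rw [Polynomial.coeff_X_pow_mul', if_pos (by omega)]
    split_ifs with h
    · subst h
      have h7 : 4 * k - 1 - k = 3 * k - 1 := by omega
      rw [h7]
      exact coeff_P hg p u
    · exact Polynomial.coeff_eq_zero_of_natDegree_lt (by omega)

/-- the sheets -/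
def sg : Bool → ℂ
  | true => 1
  | false => -1

theorem sg_sq (s : Bool) : sg s ^ 2 = 1 := by cases s <;> norm_num [sg]

theorem sg_ne (s : Bool) : sg s ≠ 0 := by cases s <;> norm_num [sg]

/-- the index set of the zeros -/
abbrev Idx (g : ℕ) := (Fin 2 × Fin g) × Bool

theorem card_Idx (g : ℕ) : Fintype.card (Idx g) = 4 * g := by
  simp [Idx]
  ring

theorem eval_polyB_line {g : ℕ} (p u : Fin 3 × Fin g → ℂ) (t z : ℂ) :
    (polyB (p + t • u)).eval z = (polyB p).eval z + t * (polyB u).eval z := by
  simp only [polyB, Polynomial.eval_finsetSum, Polynomial.eval_mul, Polynomial.eval_C,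
    Polynomial.eval_pow, Polynomial.eval_X, Pi.add_apply, Pi.smul_apply, smul_eq_mul,
    Finset.mul_sum, ← Finset.sum_add_distrib]
  exact Finset.sum_congr rfl fun i _ => by ring

theorem eval_polyA_line {g : ℕ} (p u : Fin 3 × Fin g → ℂ) (t z : ℂ) :
    (polyA (p + t • u)).eval z = (polyA p).eval z + t * (linA u).eval z := by
  simp only [polyA, linA, Polynomial.eval_add, Polynomial.eval_finsetSum, Polynomial.eval_mul,
    Polynomial.eval_C, Polynomial.eval_pow, Polynomial.eval_X, Pi.add_apply, Pi.smul_apply,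
    smul_eq_mul]
  have h : ∀ (r : Fin 3) (n : Fin g → ℕ),
      ∑ i : Fin g, (p (r, i) + t * u (r, i)) * z ^ (n i) =
      ∑ i : Fin g, p (r, i) * z ^ (n i) + t * ∑ i : Fin g, u (r, i) * z ^ (n i) := by
    intro r n
    rw [Finset.mul_sum, ← Finset.sum_add_distrib]
    exact Finset.sum_congr rfl fun i _ => by ring
  rw [h 0 (fun i => (i : ℕ)), h 1 (fun i => g + (i : ℕ))]
  ring

theorem sum_deriv {g : ℕ} (hg : 0 < g) {f : ℂ[X]} {b c : Fin 2 × Fin g → ℂ}
    (β : ∀ q, Branch f (b q) (c q)) (x : Idx g → (Fin 3 × Fin g → ℂ) → ℂ)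
    (p u : Fin 3 × Fin g → ℂ) (hx : ∀ i, DifferentiableAt ℂ (x i) p)
    (hb : ∀ i, x i p ∈ ball (b i.1) (β i.1).r)
    (hinj : Function.Injective (fun i => x i p))
    (hev : ∀ᶠ p' in 𝓝 p, ∀ i, (polyA p').eval (x i p') +
      sg i.2 * (polyB p').eval (x i p') * (β i.1).y (x i p') = 0)
    (hN : polyA p ^ 2 - polyB p ^ 2 * f = ∏ i, (Polynomial.X - Polynomial.C (x i p)))
    (k : ℕ) (hk : k ≤ g) :
    HasDerivAt (fun t : ℂ => ∑ i, sg i.2 * (β i.1).I k (x i (p + t • u)))
      (if k = g then -2 * u (2, ⟨g - 1, by omega⟩) else 0) 0 := by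
  have hline : HasDerivAt (fun t : ℂ => p + t • u) u 0 := by
    have := ((hasDerivAt_id (0 : ℂ)).smul_const u).const_add p
    simpa using this
  have hline0 : (fun t : ℂ => p + t • u) 0 = p := by simp
  have hcont : Tendsto (fun t : ℂ => p + t • u) (𝓝 0) (𝓝 p) := by
    have := hline.continuousAt.tendsto
    simpa using this
  have hxd : ∀ i, HasDerivAt (fun t : ℂ => x i (p + t • u)) (fderiv ℂ (x i) p u) 0 := by
    intro i
    have h1 : HasFDerivAt (x i) (fderiv ℂ (x i) p) ((fun t : ℂ => p + t • u) 0) := by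
      rw [hline0]
      exact (hx i).hasFDerivAt
    exact h1.comp_hasDerivAt 0 hline
  have hR := coeff_R hg p u k hk
  rw [← hR.2]
  have hcard := card_Idx g
  have hE := euler (fun i => x i p) hinj
    (Polynomial.X ^ k * (2 * (polyB p * linA u - polyA p * polyB u)))
    (by rw [hcard]; exact hR.1)
  rw [hcard] at hE
  rw [← hE]
  have hterm : ∀ i : Idx g, HasDerivAt (fun t : ℂ => sg i.2 * (β i.1).I k (x i (p + t • u)))
      ((Polynomial.X ^ k * (2 * (polyB p * linA u - polyA p * polyB u)) : ℂ[X]).eval (x i p) /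
      (Polynomial.derivative (∏ j, (Polynomial.X - Polynomial.C (x j p)))).eval (x i p)) 0 := by
    intro i
    have h0 : x i (p + (0 : ℂ) • u) = x i p := by simp
    have hroot := root_deriv (β i.1) (polyA p) (polyB p) (linA u) (polyB u) (sg i.2) (sg_sq _)
      (fun t => x i (p + t • u)) _ (hxd i) (by simpa using hb i) (by
        filter_upwards [hcont.eventually hev] with t ht
        have := ht i
        rw [eval_polyA_line, eval_polyB_line] at this
        exact this)
    simp only [zero_smul, add_zero] at hroot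
    rw [hN] at hroot
    have hne := deriv_ne (fun i => x i p) hinj i
    have hI : HasDerivAt ((β i.1).I k) (x i p ^ k / (β i.1).y (x i p)) (x i (p + (0 : ℂ) • u)) := by
      rw [h0]
      exact (β i.1).I_deriv k _ (hb i)
    have hIc : HasDerivAt (fun t : ℂ => (β i.1).I k (x i (p + t • u)))
        (x i p ^ k / (β i.1).y (x i p) * fderiv ℂ (x i) p u) 0 := hI.comp 0 (hxd i)
    have hy := (β i.1).y_ne _ (hb i)
    have hval : (Polynomial.X ^ k * (2 * (polyB p * linA u - polyA p * polyB u)) : ℂ[X]).eval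
        (x i p) / (Polynomial.derivative (∏ j, (Polynomial.X - Polynomial.C (x j p)))).eval (x i p)
        = sg i.2 * (x i p ^ k / (β i.1).y (x i p) * fderiv ℂ (x i) p u) := by
      rw [div_eq_iff hne]
      simp only [Polynomial.eval_mul, Polynomial.eval_pow, Polynomial.eval_X, Polynomial.eval_sub]
      have h2 : Polynomial.eval (x i p) (2 : ℂ[X]) = 2 := by simp
      rw [h2]
      field_simp
      linear_combination (-(x i p ^ k)) * hroot
    rw [hval]
    exact hIc.const_mul _
  have hsum := HasDerivAt.fun_sum (u := (Finset.univ : Finset (Idx g))) fun i _ => hterm i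
  exact hsum

theorem analyticAt_coord {g : ℕ} (j : Fin 3 × Fin g) (p : Fin 3 × Fin g → ℂ) :
    AnalyticAt ℂ (fun p : Fin 3 × Fin g → ℂ => p j) p :=
  (ContinuousLinearMap.proj (R := ℂ) (φ := fun _ : Fin 3 × Fin g => ℂ) j).analyticAt p

theorem fderiv_coord {g : ℕ} (j : Fin 3 × Fin g) (p u : Fin 3 × Fin g → ℂ) :
    HasDerivAt (fun t : ℂ => (p + t • u) j) (u j) 0 := by
  have := ((hasDerivAt_id (0 : ℂ)).smul_const u).const_add p
  have h2 := (hasDerivAt_pi.1 this) j
  simpa using h2

theorem thm_ABELB : Stmt_AbelB := by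
  intro g hg f hf hfd b c hb β p0 hA0 hB0 xp xm hx hev
  obtain ⟨x, hxdef⟩ : ∃ x : Idx g → (Fin 3 × Fin g → ℂ) → ℂ,
      x = fun i => cond i.2 (xp i.1) (xm i.1) := ⟨_, rfl⟩
  have hxt : ∀ q, x (q, true) = xp q := fun q => by rw [hxdef]; rfl
  have hxf : ∀ q, x (q, false) = xm q := fun q => by rw [hxdef]; rfl
  have hxan : ∀ i, AnalyticAt ℂ (x i) p0 := by
    rintro ⟨q, s⟩
    cases s
    · rw [hxf]; exact (hx q).2.1
    · rw [hxt]; exact (hx q).1
  have hx0 : ∀ i, x i p0 = b i.1 := by
    rintro ⟨q, s⟩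
    cases s
    · rw [hxf]; exact (hx q).2.2.2
    · rw [hxt]; exact (hx q).2.2.1
  have hev2 : ∀ᶠ p in 𝓝 p0, (∀ i, (polyA p).eval (x i p) +
      sg i.2 * (polyB p).eval (x i p) * (β i.1).y (x i p) = 0) ∧
      polyA p ^ 2 - polyB p ^ 2 * f = ∏ i, (Polynomial.X - Polynomial.C (x i p)) := by
    filter_upwards [hev] with p hp
    refine ⟨?_, ?_⟩
    · rintro ⟨q, s⟩
      cases s
      · rw [hxf]
        have := (hp.1 q).2
        simp only [sg]
        linear_combination this
      · rw [hxt]
        have := (hp.1 q).1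
        simp only [sg]
        linear_combination this
    · rw [hp.2, Fintype.prod_prod_type (f := fun i : Idx g =>
        (Polynomial.X - Polynomial.C (x i p) : ℂ[X]))]
      refine Finset.prod_congr rfl fun q _ => ?_
      rw [Fintype.prod_bool, hxt, hxf]
  have hsep : ∀ᶠ p in 𝓝 p0, ∀ i j : Idx g, i.1 ≠ j.1 → x i p ≠ x j p := by
    rw [eventually_all]
    intro i
    rw [eventually_all]
    intro j
    by_cases hij : i.1 = j.1
    · exact Eventually.of_forall fun p h => absurd hij h
    · have h1 : Tendsto (x i) (𝓝 p0) (𝓝 (b i.1)) := by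
        rw [← hx0 i]; exact (hxan i).continuousAt
      have h2 : Tendsto (x j) (𝓝 p0) (𝓝 (b j.1)) := by
        rw [← hx0 j]; exact (hxan j).continuousAt
      have h3 := h1.sub h2
      have h4 : ∀ᶠ p in 𝓝 p0, x i p - x j p ≠ 0 :=
        h3.eventually_ne (sub_ne_zero.2 fun h => hij (hb h))
      filter_upwards [h4] with p hp _
      exact sub_ne_zero.1 hp
  have hball : ∀ᶠ p in 𝓝 p0, ∀ i, x i p ∈ ball (b i.1) (β i.1).r := by
    rw [eventually_all]
    intro i
    have h1 : Tendsto (x i) (𝓝 p0) (𝓝 (b i.1)) := by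
      rw [← hx0 i]; exact (hxan i).continuousAt
    exact h1 (ball_mem_nhds _ (β i.1).rpos)
  have hana : ∀ᶠ p in 𝓝 p0, ∀ i, AnalyticAt ℂ (x i) p := by
    rw [eventually_all]
    intro i
    exact (hxan i).eventually_analyticAt
  obtain ⟨ε, hε, hU⟩ := Metric.eventually_nhds_iff_ball.1
    (((hev2.and hsep).and hball).and hana)
  -- the discriminant
  obtain ⟨D, hD⟩ : ∃ D : (Fin 3 × Fin g → ℂ) → ℂ,
      D = fun p => ∏ q, (polyB p).eval (x (q, true) p) := ⟨_, rfl⟩
  have hDan : AnalyticOnNhd ℂ D (ball p0 ε) := by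
    intro p hp
    rw [hD]
    refine Finset.analyticAt_fun_prod _ fun q _ => ?_
    have h1 : (fun p : Fin 3 × Fin g → ℂ => (polyB p).eval (x (q, true) p)) =
        fun p => ∑ i : Fin g, p (2, i) * (x (q, true) p) ^ (i : ℕ) := by
      funext p
      simp [polyB, Polynomial.eval_finsetSum]
    rw [h1]
    refine Finset.analyticAt_fun_sum _ fun i _ => ?_
    exact (analyticAt_coord _ _).mul (((hU p hp).2 _).pow _)
  -- the abelian sums
  have key : ∀ k, k ≤ g → ∀ p ∈ ball p0 ε,
      ∑ i, sg i.2 * (β i.1).I k (x i p) +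
        (if k = g then 2 * p (2, ⟨g - 1, by omega⟩) else 0) = 0 := by
    intro k hk
    obtain ⟨G, hG⟩ : ∃ G : (Fin 3 × Fin g → ℂ) → ℂ,
      G = fun p => ∑ i, sg i.2 * (β i.1).I k (x i p) +
        (if k = g then 2 * p (2, ⟨g - 1, by omega⟩) else 0) := ⟨_, rfl⟩
    have hGan : AnalyticOnNhd ℂ G (ball p0 ε) := by
      intro p hp
      rw [hG]
      refine AnalyticAt.add ?_ ?_
      · refine Finset.analyticAt_fun_sum _ fun i _ => ?_
        refine analyticAt_const.mul ?_
        have h1 : AnalyticAt ℂ ((β i.1).I k) (x i p) := by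
          refine DifferentiableOn.analyticAt (s := ball (b i.1) (β i.1).r) ?_
            (isOpen_ball.mem_nhds ((hU p hp).1.2 i))
          intro z hz
          exact ((β i.1).I_deriv k z hz).differentiableAt.differentiableWithinAt
        exact h1.comp ((hU p hp).2 i)
      · split_ifs
        · exact analyticAt_const.mul (analyticAt_coord _ _)
        · exact analyticAt_const
    have hG0 : ∀ p ∈ ball p0 ε, D p ≠ 0 → fderiv ℂ G p = 0 := by
      intro p hp hDp
      have hinj : Function.Injective (fun i => x i p) := by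
        intro i j hij
        by_contra hne
        have h1 : i.1 = j.1 := by
          by_contra h
          exact (hU p hp).1.1.2 i j h hij
        have hmain : ∀ q, x (q, true) p ≠ x (q, false) p := by
          intro q heq
          have e1 := (hU p hp).1.1.1.1 (q, true)
          have e2 := (hU p hp).1.1.1.1 (q, false)
          have hy := (β q).y_ne _ ((hU p hp).1.2 (q, true))
          simp only [sg] at e1 e2
          rw [← heq] at e2
          have h3 : (polyB p).eval (x (q, true) p) * (β q).y (x (q, true) p) = 0 := by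
            linear_combination (e1 - e2) / 2
          rcases mul_eq_zero.1 h3 with h4 | h4
          · apply hDp
            rw [hD]
            exact Finset.prod_eq_zero (Finset.mem_univ q) h4
          · exact hy h4
        obtain ⟨q, s⟩ := i
        obtain ⟨q', s'⟩ := j
        simp only at h1 hij
        subst h1
        cases s <;> cases s'
        · exact hne rfl
        · exact hmain q hij.symm
        · exact hmain q hij
        · exact hne rfl
      have hevp : ∀ᶠ p' in 𝓝 p, ∀ i, (polyA p').eval (x i p') +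
          sg i.2 * (polyB p').eval (x i p') * (β i.1).y (x i p') = 0 := by
        filter_upwards [isOpen_ball.mem_nhds hp] with p' hp'
        exact (hU p' hp').1.1.1.1
      ext u
      have h1 := sum_deriv hg β x p u (fun i => ((hU p hp).2 i).differentiableAt)
        (hU p hp).1.2 hinj hevp (hU p hp).1.1.1.2 k hk
      have h2 : HasDerivAt (fun t : ℂ => G (p + t • u))
          ((if k = g then -2 * u (2, ⟨g - 1, by omega⟩) else 0) +
          (if k = g then 2 * u (2, ⟨g - 1, by omega⟩) else 0)) 0 := by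
        rw [hG]
        refine h1.add ?_
        split_ifs
        · exact (fderiv_coord _ p u).const_mul 2
        · exact hasDerivAt_const _ _
      have hline : HasDerivAt (fun t : ℂ => p + t • u) u 0 := by
        have := ((hasDerivAt_id (0 : ℂ)).smul_const u).const_add p
        simpa using this
      have h3 : HasFDerivAt G (fderiv ℂ G p) ((fun t : ℂ => p + t • u) 0) := by
        have h4 : (fun t : ℂ => p + t • u) 0 = p := by simp
        rw [h4]
        exact (hGan p hp).differentiableAt.hasFDerivAt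
      have h5 := (h3.comp_hasDerivAt 0 hline).unique h2
      rw [h5]
      split_ifs <;> simp
    have hGf : Set.EqOn (fderiv ℂ G) 0 (ball p0 ε) := by
      intro p1 hp1
      by_contra hne
      have hc : ContinuousAt (fderiv ℂ G) p1 := (hGan p1 hp1).fderiv.continuousAt
      have h1 : ∀ᶠ p in 𝓝 p1, fderiv ℂ G p ≠ 0 := hc.eventually_ne hne
      have h2 : ∀ᶠ p in 𝓝 p1, D p = 0 := by
        filter_upwards [h1, isOpen_ball.mem_nhds hp1] with p hp hpb
        by_contra h
        exact hp (hG0 p hpb h)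
      have h3 := hDan.eqOn_zero_of_preconnected_of_eventuallyEq_zero
        (convex_ball p0 ε).isPreconnected hp1 h2
      -- a point where `D ≠ 0`
      obtain ⟨e, he⟩ : ∃ e : Fin 3 × Fin g → ℂ, e = Pi.single (2, ⟨0, hg⟩) 1 := ⟨_, rfl⟩
      have hes : ∀ z : ℂ, (polyB e).eval z = 1 := by
        intro z
        simp only [polyB, Polynomial.eval_finsetSum, Polynomial.eval_mul, Polynomial.eval_C,
          Polynomial.eval_pow, Polynomial.eval_X]
        rw [Finset.sum_eq_single (⟨0, hg⟩ : Fin g)]
        · simp [he]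
        · intro i _ hi
          rw [he, Pi.single_eq_of_ne, zero_mul]
          intro h
          exact hi (Prod.ext_iff.1 h).2
        · intro h
          exact absurd (Finset.mem_univ _) h
      have hmem : p0 + ((ε / 2 : ℝ) : ℂ) • e ∈ ball p0 ε := by
        rw [mem_ball, dist_eq_norm, add_sub_cancel_left, norm_smul, he, Pi.norm_single]
        simp only [Complex.norm_real, norm_one, mul_one, Real.norm_eq_abs]
        rw [abs_of_pos (by positivity)]
        linarith
      have h4 := h3 hmem
      have h5 : D (p0 + ((ε / 2 : ℝ) : ℂ) • e) = ∏ q : Fin 2 × Fin g, ((ε / 2 : ℝ) : ℂ) := by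
        rw [hD]
        refine Finset.prod_congr rfl fun q _ => ?_
        rw [eval_polyB_line, hB0, hes]
        simp
      rw [h5] at h4
      have h6 : ((ε / 2 : ℝ) : ℂ) ≠ 0 := by
        exact_mod_cast (by positivity : (ε / 2 : ℝ) ≠ 0)
      simp only [Pi.zero_apply] at h4
      exact Finset.prod_ne_zero_iff.2 (fun q _ => h6) h4
    intro p hp
    have h1 := isOpen_ball.is_const_of_fderiv_eq_zero (convex_ball p0 ε).isPreconnected
      hGan.differentiableOn hGf hp (mem_ball_self hε)
    have h2 : G p0 = 0 := by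
      rw [hG]
      have h3 : ∀ i : Idx g, (β i.1).I k (x i p0) = 0 := by
        intro i
        rw [hx0]
        exact (β i.1).I_b k
      have h4 : p0 (2, ⟨g - 1, by omega⟩) = 0 := by
        rw [← coeff_polyB hg p0, hB0, Polynomial.coeff_zero]
      simp only [h3, h4, mul_zero, Finset.sum_const_zero, ite_self, add_zero]
    rw [h2] at h1
    rw [hG] at h1
    exact h1
  have hsplit : ∀ k p, ∑ i : Idx g, sg i.2 * (β i.1).I k (x i p) =
      ∑ q, ((β q).I k (xp q p) - (β q).I k (xm q p)) := by
    intro k p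
    rw [Fintype.sum_prod_type]
    refine Finset.sum_congr rfl fun q _ => ?_
    rw [Fintype.sum_bool, hxt, hxf]
    simp only [sg]
    ring
  filter_upwards [ball_mem_nhds p0 hε] with p hp
  refine ⟨fun i hi => ?_, ?_⟩
  · have := key i hi.le p hp
    rw [if_neg hi.ne, hsplit, add_zero] at this
    exact this
  · have := key g le_rfl p hp
    rw [if_pos rfl, hsplit] at this
    linear_combination this

end

end Pool.Agent.FDR.ABELB
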