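import Pool.Agent.FDR.SL.AI
import Pool.Agent.FDR.SL.AIDIR
import Pool.Agent.FDR.SL.AILEAF
import Pool.Agent.FDR.SL.AIMINOR
import Pool.Agent.FDR.SL.AITRANS

namespace Pool.Agent.FDR.ALGIND

open Pool.Agent.FDR

theorem thm_ALGIND (hPerAny : Stmt_PerAny) : Stmt_AlgInd :=
  SL.AI.thm_AlgInd SL.AIDIR.thm_AIDIR (SL.AITRANS.thm_AITRANS hPerAny)
    SL.AIMINOR.thm_AIMINOR SL.AILEAF.thm_AILEAF

end Pool.Agent.FDR.ALGIND
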