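import Pool.Agent.FDR.Stmts

/-!
# ARITH: the arithmetic germs for Schneider-Lang
-/

set_option autoImplicit false

open scoped BigOperators Polynomial Topology
open Metric Filter

namespace Pool.Agent.FDR.ARITH

section pol

variable {d : ℕ} {J : Type} {K : IntermediateField ℚ ℂ} {H : (Fin d → ℂ) → J → ℂ}

/-- `h` is, near `0`, a polynomial in the functions `H` with coefficients in `K`. -/
def Pol (K : IntermediateField ℚ ℂ) (H : (Fin d → ℂ) → J → ℂ) (h : (Fin d → ℂ) → ℂ) : Prop :=
  ∃ P : MvPolynomial J K, ∀ᶠ w in 𝓝 (0 : Fin d → ℂ), h w = MvPolynomial.aeval (H w) P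

theorem Pol.congr {h h' : (Fin d → ℂ) → ℂ} (hh : Pol K H h)
    (e : ∀ᶠ w in 𝓝 (0 : Fin d → ℂ), h' w = h w) : Pol K H h' := by
  obtain ⟨P, hP⟩ := hh
  exact ⟨P, by filter_upwards [hP, e] with w h1 h2 using h2.trans h1⟩

theorem Pol.const {a : ℂ} (ha : a ∈ K) : Pol K H (fun _ => a) :=
  ⟨MvPolynomial.C ⟨a, ha⟩, Filter.Eventually.of_forall fun w => by
    rw [MvPolynomial.aeval_C]; rfl⟩

theorem Pol.var (i : J) : Pol K H (fun w => H w i) :=
  ⟨MvPolynomial.X i, Filter.Eventually.of_forall fun w => by rw [MvPolynomial.aeval_X]⟩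

theorem Pol.add {h h' : (Fin d → ℂ) → ℂ} (hh : Pol K H h) (hh' : Pol K H h') :
    Pol K H (fun w => h w + h' w) := by
  obtain ⟨P, hP⟩ := hh
  obtain ⟨Q, hQ⟩ := hh'
  exact ⟨P + Q, by filter_upwards [hP, hQ] with w h1 h2 using by rw [map_add, h1, h2]⟩

theorem Pol.mul {h h' : (Fin d → ℂ) → ℂ} (hh : Pol K H h) (hh' : Pol K H h') :
    Pol K H (fun w => h w * h' w) := by
  obtain ⟨P, hP⟩ := hh
  obtain ⟨Q, hQ⟩ := hh'
  exact ⟨P * Q, by filter_upwards [hP, hQ] with w h1 h2 using by rw [map_mul, h1, h2]⟩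

theorem Pol.neg {h : (Fin d → ℂ) → ℂ} (hh : Pol K H h) : Pol K H (fun w => -h w) := by
  obtain ⟨P, hP⟩ := hh
  exact ⟨-P, by filter_upwards [hP] with w h1 using by rw [map_neg, h1]⟩

theorem Pol.sub {h h' : (Fin d → ℂ) → ℂ} (hh : Pol K H h) (hh' : Pol K H h') :
    Pol K H (fun w => h w - h' w) := by
  have := hh.add hh'.neg
  simpa [sub_eq_add_neg] using this

theorem Pol.sum {κ : Type} (s : Finset κ) {h : κ → (Fin d → ℂ) → ℂ}
    (hh : ∀ k ∈ s, Pol K H (h k)) : Pol K H (fun w => ∑ k ∈ s, h k w) := by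
  classical
  induction s using Finset.induction_on with
  | empty => simpa using Pol.const (H := H) (zero_mem K)
  | insert a s ha ih =>
    have h1 := (hh a (Finset.mem_insert_self a s)).add
      (ih fun k hk => hh k (Finset.mem_insert_of_mem hk))
    simpa only [Finset.sum_insert ha] using h1

theorem Pol.prod {κ : Type} (s : Finset κ) {h : κ → (Fin d → ℂ) → ℂ}
    (hh : ∀ k ∈ s, Pol K H (h k)) : Pol K H (fun w => ∏ k ∈ s, h k w) := by
  classical
  induction s using Finset.induction_on with
  | empty => simpa using Pol.const (H := H) (one_mem K)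
  | insert a s ha ih =>
    have h1 := (hh a (Finset.mem_insert_self a s)).mul
      (ih fun k hk => hh k (Finset.mem_insert_of_mem hk))
    simpa only [Finset.prod_insert ha] using h1

theorem Pol.pow {h : (Fin d → ℂ) → ℂ} (hh : Pol K H h) (n : ℕ) :
    Pol K H (fun w => h w ^ n) := by
  have := Pol.prod (Finset.range n) (h := fun _ => h) (fun _ _ => hh)
  simpa using this

/-- all coefficients are in `Pol` -/
def PolC (K : IntermediateField ℚ ℂ) (H : (Fin d → ℂ) → J → ℂ) (P : (Fin d → ℂ) → ℂ[X]) :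
    Prop := ∀ n, Pol K H (fun w => (P w).coeff n)

theorem PolC.mul {P Q : (Fin d → ℂ) → ℂ[X]} (hP : PolC K H P) (hQ : PolC K H Q) :
    PolC K H (fun w => P w * Q w) := by
  intro n
  have h := Pol.sum (K := K) (H := H) (Finset.HasAntidiagonal.antidiagonal n)
    (h := fun p w => (P w).coeff p.1 * (Q w).coeff p.2) (fun p _ => (hP p.1).mul (hQ p.2))
  simpa only [Polynomial.coeff_mul] using h

theorem PolC.prod {κ : Type} (s : Finset κ) {P : κ → (Fin d → ℂ) → ℂ[X]}
    (hP : ∀ k ∈ s, PolC K H (P k)) : PolC K H (fun w => ∏ k ∈ s, P k w) := by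
  classical
  induction s using Finset.induction_on with
  | empty =>
    intro n
    simp only [Finset.prod_empty, Polynomial.coeff_one]
    split_ifs
    · exact Pol.const (one_mem K)
    · exact Pol.const (zero_mem K)
  | insert a s ha ih =>
    have h1 := (hP a (Finset.mem_insert_self a s)).mul
      (ih fun k hk => hP k (Finset.mem_insert_of_mem hk))
    simpa only [Finset.prod_insert ha] using h1

theorem PolC.lin {h h' : (Fin d → ℂ) → ℂ} (hh : Pol K H h) (hh' : Pol K H h') :
    PolC K H (fun w => Polynomial.C (h w) * (Polynomial.X - Polynomial.C (h' w))) := by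
  intro n
  simp only [Polynomial.coeff_C_mul, Polynomial.coeff_sub, Polynomial.coeff_X,
    Polynomial.coeff_C]
  refine hh.mul (Pol.sub ?_ ?_)
  · split_ifs
    · exact Pol.const (one_mem K)
    · exact Pol.const (zero_mem K)
  · split_ifs
    · exact hh'
    · exact Pol.const (zero_mem K)

/-- evaluation of a polynomial with coefficients in `K` -/
theorem Pol.eval {h : (Fin d → ℂ) → ℂ} (hh : Pol K H h) (f : ℂ[X]) (hf : ∀ i, f.coeff i ∈ K) :
    Pol K H (fun w => f.eval (h w)) := by
  have := Pol.sum (K := K) (H := H) (Finset.range (f.natDegree + 1))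
    (h := fun i w => f.coeff i * h w ^ i) (fun i _ => (Pol.const (hf i)).mul (hh.pow i))
  simpa only [Polynomial.eval_eq_sum_range] using this

/-- differentiable, and the function and its derivatives in the directions `v j` are in `Pol` -/
structure Good (K : IntermediateField ℚ ℂ) (H : (Fin d → ℂ) → J → ℂ) (v : Fin d → (Fin d → ℂ))
    (h : (Fin d → ℂ) → ℂ) : Prop where
  diff : ∀ᶠ w in 𝓝 (0 : Fin d → ℂ), DifferentiableAt ℂ h w
  pol : Pol K H h
  der : ∀ j, Pol K H (fun w => fderiv ℂ h w (v j))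

variable {v : Fin d → (Fin d → ℂ)}

theorem Good.sub {h h' : (Fin d → ℂ) → ℂ} (hh : Good K H v h) (hh' : Good K H v h') :
    Good K H v (fun w => h w - h' w) where
  diff := by filter_upwards [hh.diff, hh'.diff] with w h1 h2 using h1.sub h2
  pol := hh.pol.sub hh'.pol
  der := fun j => ((hh.der j).sub (hh'.der j)).congr (by
    filter_upwards [hh.diff, hh'.diff] with w h1 h2
    have e : fderiv ℂ (fun w => h w - h' w) w = fderiv ℂ h w - fderiv ℂ h' w :=
      fderiv_fun_sub h1 h2
    rw [e]; rfl)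

theorem Good.mul {h h' : (Fin d → ℂ) → ℂ} (hh : Good K H v h) (hh' : Good K H v h') :
    Good K H v (fun w => h w * h' w) where
  diff := by filter_upwards [hh.diff, hh'.diff] with w h1 h2 using h1.mul h2
  pol := hh.pol.mul hh'.pol
  der := fun j => ((hh.pol.mul (hh'.der j)).add (hh'.pol.mul (hh.der j))).congr (by
    filter_upwards [hh.diff, hh'.diff] with w h1 h2
    have e := fderiv_fun_mul h1 h2
    rw [e]
    simp [smul_eq_mul])

theorem Good.prod {κ : Type} (s : Finset κ) {h : κ → (Fin d → ℂ) → ℂ}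
    (hh : ∀ k ∈ s, Good K H v (h k)) : Good K H v (fun w => ∏ k ∈ s, h k w) := by
  classical
  induction s using Finset.induction_on with
  | empty =>
    simp only [Finset.prod_empty]
    exact ⟨Filter.Eventually.of_forall fun w => differentiableAt_const _, Pol.const (one_mem K),
      fun j => by
        have : (fun w : Fin d → ℂ => fderiv ℂ (fun _ : Fin d → ℂ => (1 : ℂ)) w (v j)) =
            fun _ => 0 := by
          funext w
          rw [fderiv_fun_const]; rfl
        rw [this]
        exact Pol.const (zero_mem K)⟩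
  | insert a s ha ih =>
    have h1 := (hh a (Finset.mem_insert_self a s)).mul
      (ih fun k hk => hh k (Finset.mem_insert_of_mem hk))
    simpa only [Finset.prod_insert ha] using h1

end pol

section main

variable {g d : ℕ} {f : ℂ[X]} {b c : Fin g → ℂ}

/-- index type of the germs -/
abbrev Idx (g : ℕ) : Type := (Fin g ⊕ Fin g) ⊕ Fin 2

/-- ordered pairs of different indices -/
def prs (g : ℕ) : Finset (Fin g × Fin g) := Finset.univ.filter fun q => q.1 ≠ q.2

/-- the product of the differences -/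
noncomputable def Del (C : Chart g f b c) (z : Fin g → ℂ) : ℂ :=
  ∏ q ∈ prs g, (C.X z q.1 - C.X z q.2)

/-- the germs -/
noncomputable def HH (C : Chart g f b c) (L : (Fin d → ℂ) →L[ℂ] (Fin g → ℂ) × ℂ) (w : Fin d → ℂ) :
    Idx g → ℂ
  | Sum.inl (Sum.inl k) => C.X (L w).1 k
  | Sum.inl (Sum.inr k) => C.Y (L w).1 k
  | Sum.inr r => if r = 0 then (Del C (L w).1)⁻¹ else C.s (L w).1 - (L w).2

theorem thm (hCD : Stmt_ChartD) (K : IntermediateField ℚ ℂ) (hf : ∀ i, f.coeff i ∈ K)
    (hb : ∀ k, b k ∈ K) (hc : ∀ k, c k ∈ K) (hinj : Function.Injective b) (C : Chart g f b c)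
    (L : (Fin d → ℂ) →L[ℂ] (Fin g → ℂ) × ℂ) (v : Fin d → (Fin d → ℂ))
    (hL1 : ∀ t i, (L (v t)).1 i ∈ K) (hL2 : ∀ t, (L (v t)).2 ∈ K) :
    AnalyticAt ℂ (HH C L) 0 ∧ (∀ i, HH C L 0 i ∈ K) ∧
    (∀ j i, Pol K (HH C L) (fun w => fderiv ℂ (fun w => HH C L w i) w (v j))) ∧
    ∀ o, Pol K (HH C L) (fun w => F1 C (L w) o) := by
  classical
  obtain ⟨anY, ans, Y0, s0, hev⟩ := hCD g f b c C hinj
  have anX : ∀ k, AnalyticAt ℂ (fun z => C.X z k) 0 := fun k =>
    (ContinuousLinearMap.proj (R := ℂ) (φ := fun _ : Fin g => ℂ) k).analyticAt _ |>.comp C.an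
  set L1 : (Fin d → ℂ) →L[ℂ] (Fin g → ℂ) := (ContinuousLinearMap.fst ℂ _ _).comp L with hL1def
  set L2 : (Fin d → ℂ) →L[ℂ] ℂ := (ContinuousLinearMap.snd ℂ _ _).comp L with hL2def
  have e1 : ∀ w, (L w).1 = L1 w := fun w => rfl
  have e2 : ∀ w, (L w).2 = L2 w := fun w => rfl
  have L10 : L1 0 = 0 := map_zero L1
  have tend : Tendsto L1 (𝓝 0) (𝓝 0) := by
    have := L1.continuous.tendsto 0
    rwa [L10] at this
  have an1 : ∀ F : (Fin g → ℂ) → ℂ, AnalyticAt ℂ F 0 → AnalyticAt ℂ (fun w => F (L1 w)) 0 := by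
    intro F hF
    refine AnalyticAt.fun_comp ?_ (L1.analyticAt 0)
    rwa [L10]
  -- basic nonvanishing
  have hne : ∀ z : Fin g → ℂ, Function.Injective (C.X z) → ∀ q ∈ prs g,
      C.X z q.1 - C.X z q.2 ≠ 0 := by
    intro z hz q hq
    have h1 : q.1 ≠ q.2 := (Finset.mem_filter.mp hq).2
    exact sub_ne_zero.mpr fun h => h1 (hz h)
  have inj0 : Function.Injective (C.X 0) := by rw [C.X0]; exact hinj
  have Del0 : Del C 0 ≠ 0 := Finset.prod_ne_zero_iff.mpr (hne 0 inj0)
  have anDel : AnalyticAt ℂ (Del C) 0 := by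
    unfold Del
    exact Finset.analyticAt_fun_prod _ fun q _ => (anX q.1).sub (anX q.2)
  -- the functions `X`, `Y`
  have polX : ∀ k, Pol K (HH C L) (fun w => C.X (L w).1 k) :=
    fun k => Pol.var (H := HH C L) (Sum.inl (Sum.inl k))
  have polY : ∀ k, Pol K (HH C L) (fun w => C.Y (L w).1 k) :=
    fun k => Pol.var (H := HH C L) (Sum.inl (Sum.inr k))
  have polD : Pol K (HH C L) (fun w => (Del C (L w).1)⁻¹) := by
    have := Pol.var (K := K) (H := HH C L) (Sum.inr 0)
    simpa [HH] using this
  have polS : Pol K (HH C L) (fun w => C.s (L w).1 - (L w).2) := by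
    have := Pol.var (K := K) (H := HH C L) (Sum.inr 1)
    simpa [HH] using this
  -- inverses of the differences
  have hev1 : ∀ᶠ w in 𝓝 (0 : Fin d → ℂ), Function.Injective (C.X (L w).1) := by
    filter_upwards [tend.eventually hev] with w hw using hw.1
  have polInv : ∀ q ∈ prs g, Pol K (HH C L)
      (fun w => (C.X (L w).1 q.1 - C.X (L w).1 q.2)⁻¹) := by
    intro q hq
    refine (polD.mul (Pol.prod ((prs g).erase q)
      (h := fun q' w => C.X (L w).1 q'.1 - C.X (L w).1 q'.2)
      (fun q' _ => (polX q'.1).sub (polX q'.2)))).congr ?_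
    filter_upwards [hev1] with w hw
    have h1 := Finset.mul_prod_erase (prs g) (fun q' => C.X (L w).1 q'.1 - C.X (L w).1 q'.2) hq
    have h2 := hne _ hw q hq
    have h3 : Del C (L w).1 ≠ 0 := Finset.prod_ne_zero_iff.mpr (hne _ hw)
    have h4 : Del C (L w).1 = (C.X (L w).1 q.1 - C.X (L w).1 q.2) *
      ∏ q' ∈ (prs g).erase q, (C.X (L w).1 q'.1 - C.X (L w).1 q'.2) := h1.symm
    rw [inv_eq_iff_eq_inv, mul_inv, inv_inv, h4]
    have h5 : ∏ q' ∈ (prs g).erase q, (C.X (L w).1 q'.1 - C.X (L w).1 q'.2) ≠ 0 := by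
      intro h0
      rw [h0, mul_zero] at h4
      exact h3 h4
    field_simp
  -- the Lagrange coefficients
  have polLag : ∀ k j, Pol K (HH C L) (fun w => lagC (C.X (L w).1) k j) := by
    intro k j
    have h := PolC.prod (K := K) (H := HH C L) (Finset.univ.erase k)
      (P := fun l w => Polynomial.C ((C.X (L w).1 k - C.X (L w).1 l)⁻¹) *
        (Polynomial.X - Polynomial.C (C.X (L w).1 l))) (fun l hl =>
        PolC.lin (polInv (k, l) (Finset.mem_filter.mpr ⟨Finset.mem_univ _,
          (Finset.ne_of_mem_erase hl).symm⟩)) (polX l))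
    exact h j
  -- derivatives
  have hder : ∀ (F : (Fin g → ℂ) → ℂ), AnalyticAt ℂ F 0 → ∀ j,
      ∀ᶠ w in 𝓝 (0 : Fin d → ℂ), fderiv ℂ (fun w => F (L w).1) w (v j) =
        ∑ i, (L (v j)).1 i * fderiv ℂ F (L w).1 (Pi.single i 1) := by
    intro F hF j
    filter_upwards [tend.eventually (hF.eventually_analyticAt)] with w hw
    have h1 : HasFDerivAt (fun w => F (L w).1) ((fderiv ℂ F (L1 w)).comp L1) w :=
      HasFDerivAt.comp w hw.differentiableAt.hasFDerivAt L1.hasFDerivAt
    rw [h1.fderiv, ContinuousLinearMap.comp_apply]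
    have h2 : L1 (v j) = ∑ i, (L (v j)).1 i • (Pi.single i (1 : ℂ) : Fin g → ℂ) := by
      rw [e1]
      exact (pi_eq_sum_univ' (L1 (v j)))
    rw [h2, map_sum]
    apply Finset.sum_congr rfl
    intro i _
    rw [map_smul, smul_eq_mul]
    rfl
  have gX : ∀ k, Good K (HH C L) v (fun w => C.X (L w).1 k) := by
    intro k
    refine ⟨?_, polX k, fun j => ?_⟩
    · filter_upwards [(an1 _ (anX k)).eventually_analyticAt] with w hw
      exact hw.differentiableAt
    · refine (Pol.sum Finset.univ (h := fun i w => (L (v j)).1 i *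
        (C.Y (L w).1 k * lagC (C.X (L w).1) k i)) (fun i _ =>
          (Pol.const (hL1 j i)).mul ((polY k).mul (polLag k i)))).congr ?_
      filter_upwards [hder _ (anX k) j, tend.eventually hev] with w h1 h2
      rw [h1]
      apply Finset.sum_congr rfl
      intro i _
      exact congrArg (fun x => (L (v j)).1 i * x) ((h2.2.2 i).1 k)
  have hfd : ∀ i, (Polynomial.derivative f).coeff i ∈ K := by
    intro i
    rw [Polynomial.coeff_derivative]
    refine mul_mem (hf _) ?_
    exact add_mem (natCast_mem K i) (one_mem K)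
  have gDel : Good K (HH C L) v (fun w => Del C (L w).1) := by
    have := Good.prod (K := K) (H := HH C L) (v := v) (prs g)
      (h := fun q w => C.X (L w).1 q.1 - C.X (L w).1 q.2) (fun q _ => (gX q.1).sub (gX q.2))
    exact this
  refine ⟨?_, ?_, ?_, ?_⟩
  · -- analyticity
    rw [analyticAt_pi_iff]
    rintro ((k | k) | r)
    · exact an1 _ (anX k)
    · exact an1 _ (anY k)
    · fin_cases r
      · exact (an1 _ anDel).inv (by show Del C (L1 0) ≠ 0; rw [L10]; exact Del0)
      · exact (an1 _ ans).sub (L2.analyticAt 0)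
  · -- values
    rintro ((k | k) | r)
    · show C.X (L1 0) k ∈ K
      rw [L10, C.X0]; exact hb k
    · show C.Y (L1 0) k ∈ K
      rw [L10, Y0]; exact hc k
    · fin_cases r
      · show (Del C (L1 0))⁻¹ ∈ K
        rw [L10]
        refine inv_mem ?_
        unfold Del
        rw [C.X0]
        exact prod_mem fun q _ => sub_mem (hb q.1) (hb q.2)
      · show C.s (L1 0) - L2 0 ∈ K
        rw [L10, s0, map_zero, sub_zero]
        exact zero_mem K
  · -- derivatives
    rintro j ((k | k) | r)
    · exact (gX k).der j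
    · refine (Pol.sum Finset.univ (h := fun i w => (L (v j)).1 i *
        ((Polynomial.derivative f).eval (C.X (L w).1 k) / 2 * lagC (C.X (L w).1) k i))
        (fun i _ => ?_)).congr ?_
      · refine (Pol.const (hL1 j i)).mul (Pol.mul ?_ (polLag k i))
        have := ((polX k).eval _ hfd).mul (Pol.const (K := K) (H := HH C L)
          (inv_mem (ofNat_mem K 2)))
        simpa only [div_eq_mul_inv] using this
      · filter_upwards [hder _ (anY k) j, tend.eventually hev] with w h1 h2
        refine h1.trans ?_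
        apply Finset.sum_congr rfl
        intro i _
        exact congrArg (fun x => (L (v j)).1 i * x) ((h2.2.2 i).2.1 k)
    · fin_cases r
      · refine ((((polD.pow 2).mul (gDel.der j)).neg).congr ?_)
        filter_upwards [gDel.diff, hev1] with w h1 h2
        have h3 : Del C (L w).1 ≠ 0 := Finset.prod_ne_zero_iff.mpr (hne _ h2)
        have h4 := ((hasDerivAt_inv h3).comp_hasFDerivAt w h1.hasFDerivAt).fderiv
        refine (congrArg (fun F : (Fin d → ℂ) →L[ℂ] ℂ => F (v j)) h4).trans ?_
        simp [smul_eq_mul]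
      · refine (Pol.sub (Pol.sum Finset.univ (h := fun i w => (L (v j)).1 i *
          ∑ k, C.X (L w).1 k ^ g * lagC (C.X (L w).1) k i) (fun i _ =>
            (Pol.const (hL1 j i)).mul (Pol.sum Finset.univ fun k _ =>
              ((polX k).pow g).mul (polLag k i)))) (Pol.const (hL2 j))).congr ?_
        filter_upwards [hder _ ans j, tend.eventually hev,
          tend.eventually ans.eventually_analyticAt] with w h1 h2 h3
        show fderiv ℂ (fun w => C.s (L w).1 - (L w).2) w (v j) = _
        have h4 : DifferentiableAt ℂ (fun w => C.s (L w).1) w :=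
          DifferentiableAt.comp (g := C.s) (f := fun w => (L w).1) w h3.differentiableAt
            L1.differentiableAt
        have h5 : DifferentiableAt ℂ (fun w => (L w).2) w := L2.differentiableAt
        rw [fderiv_fun_sub h4 h5]
        have h6 : fderiv ℂ (fun w => (L w).2) w = L2 := L2.fderiv
        rw [h6]
        show fderiv ℂ (fun w => C.s (L w).1) w (v j) - L2 (v j) = _
        rw [h1, e2]
        congr 1
        apply Finset.sum_congr rfl
        intro i _
        exact congrArg (fun x => (L (v j)).1 i * x) (h2.2.2 i).2.2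
  · -- the functions `F1`
    rintro (_ | l)
    · exact polS
    · have h := PolC.prod (K := K) (H := HH C L) Finset.univ
        (P := fun k w => (Polynomial.X - Polynomial.C (C.X (L w).1 k))) (fun k _ => by
          have := PolC.lin (K := K) (H := HH C L) (Pol.const (one_mem K)) (polX k)
          simpa using this)
      exact h l

end main

theorem thm_Arith (hCD : Stmt_ChartD) : Stmt_Arith := by
  intro g d K f hf b c hb hc hinj C L v hL1 hL2
  obtain ⟨h1, h2, h3, h4⟩ := thm hCD K hf hb hc hinj C L v hL1 hL2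
  set e : Fin (Fintype.card (Idx g)) ≃ Idx g := (Fintype.equivFin (Idx g)).symm with he
  have key : ∀ (P : MvPolynomial (Idx g) K) (w : Fin d → ℂ),
      MvPolynomial.aeval (fun i => HH C L w (e i)) (MvPolynomial.rename e.symm P) =
        MvPolynomial.aeval (HH C L w) P := by
    intro P w
    rw [MvPolynomial.aeval_rename]
    congr 2
    funext i
    simp
  refine ⟨Fintype.card (Idx g), fun w i => HH C L w (e i), ?_, fun i => h2 (e i), ?_, ?_⟩
  · rw [analyticAt_pi_iff] at h1 ⊢
    exact fun i => h1 (e i)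
  · intro j i
    obtain ⟨P, hP⟩ := h3 j (e i)
    refine ⟨MvPolynomial.rename e.symm P, ?_⟩
    filter_upwards [hP] with w hw
    rw [key]
    exact hw
  · intro o
    obtain ⟨P, hP⟩ := h4 o
    refine ⟨MvPolynomial.rename e.symm P, ?_⟩
    filter_upwards [hP] with w hw
    rw [key]
    exact hw

end Pool.Agent.FDR.ARITH
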