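import Pool.Agent.FDR.Stmts

/-!
# FDR, BETAREFL: reflection formulas for the Beta function
-/

open scoped BigOperators Polynomial Topology
open Metric Filter

namespace Pool.Agent.FDR.BETAREFL

noncomputable section

theorem mem_algLog {x : ℝ} : x ∈ algLog ↔ IsAlgebraic ℚ (Real.exp x) := Iff.rfl

theorem log_mem {x : ℝ} (hx : 0 < x) (h : IsAlgebraic ℚ x) : Real.log x ∈ algLog := by
  rw [mem_algLog, Real.exp_log hx]
  exact h

theorem sin_alg (q : ℚ) : IsAlgebraic ℚ (Real.sin (Real.pi * q)) := by
  have h := Real.isAlgebraic_sin_rat_mul_pi q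
  rw [mul_comm] at h
  exact (IsFractionRing.isAlgebraic_iff ℤ ℚ ℝ).1 h

theorem rat_alg (q : ℚ) : IsAlgebraic ℚ (q : ℝ) := isAlgebraic_algebraMap (A := ℝ) q

/-- reflection formula in logarithmic form -/
theorem log_refl {s : ℝ} (h0 : 0 < s) (h1 : s < 1) :
    Real.log (Real.Gamma s) + Real.log (Real.Gamma (1 - s)) =
      Real.log Real.pi - Real.log (Real.sin (Real.pi * s)) := by
  have hs : 0 < Real.sin (Real.pi * s) := by
    apply Real.sin_pos_of_pos_of_lt_pi
    · positivity
    · nlinarith [Real.pi_pos]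
  rw [← Real.log_mul (Real.Gamma_pos_of_pos h0).ne' (Real.Gamma_pos_of_pos (by linarith)).ne',
    Real.Gamma_mul_Gamma_one_sub, Real.log_div Real.pi_ne_zero hs.ne']

theorem log_succ {s : ℝ} (h0 : 0 < s) :
    Real.log (Real.Gamma (s + 1)) = Real.log s + Real.log (Real.Gamma s) := by
  rw [Real.Gamma_add_one h0.ne', Real.log_mul h0.ne' (Real.Gamma_pos_of_pos h0).ne']

theorem log_bet {x y : ℝ} (hx : 0 < x) (hy : 0 < y) :
    Real.log (bet x y) = Real.log (Real.Gamma x) + Real.log (Real.Gamma y) -
      Real.log (Real.Gamma (x + y)) := by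
  unfold bet
  rw [Real.log_div (mul_pos (Real.Gamma_pos_of_pos hx) (Real.Gamma_pos_of_pos hy)).ne'
    (Real.Gamma_pos_of_pos (by linarith)).ne',
    Real.log_mul (Real.Gamma_pos_of_pos hx).ne' (Real.Gamma_pos_of_pos hy).ne']

theorem Hlog_of {x : ℚ} (h0 : 0 ≤ x) (h1 : x < 1) :
    Hlog x = Real.log (Real.Gamma x) - Real.log (Real.Gamma (1 - x)) := by
  unfold Hlog
  rw [Int.fract_eq_self.2 ⟨h0, h1⟩]

theorem Hlog_of' {x : ℚ} (h0 : 1 ≤ x) (h1 : x < 2) :
    Hlog x = Real.log (Real.Gamma ((x : ℝ) - 1)) - Real.log (Real.Gamma (2 - (x : ℝ))) := by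
  have h : Hlog x = Hlog (x - 1) := by
    unfold Hlog
    rw [Int.fract_sub_one]
  rw [h, Hlog_of (by linarith) (by linarith)]
  push_cast
  rw [show (1 : ℝ) - ((x : ℝ) - 1) = 2 - x by ring]

/-- `log (Γ(s) Γ(2 - s)) = log π + log |(1 - s) / sin (π s)|` -/
theorem two_refl {s : ℚ} (h0 : 0 < s) (h2 : s < 2) (h1 : s ≠ 1) :
    ∃ a : ℝ, a ∈ algLog ∧ Real.log (Real.Gamma s) + Real.log (Real.Gamma (2 - (s : ℝ))) =
      Real.log Real.pi + a := by
  rcases lt_or_gt_of_ne h1 with h | h
  · have hs0 : (0 : ℝ) < s := by exact_mod_cast h0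
    have hs1 : (s : ℝ) < 1 := by exact_mod_cast h
    have e := log_refl hs0 hs1
    have e2 := log_succ (s := 1 - (s : ℝ)) (by linarith)
    rw [show (1 : ℝ) - s + 1 = 2 - s by ring] at e2
    have hsin : 0 < Real.sin (Real.pi * s) := by
      apply Real.sin_pos_of_pos_of_lt_pi
      · positivity
      · nlinarith [Real.pi_pos]
    refine ⟨Real.log (1 - (s : ℝ)) - Real.log (Real.sin (Real.pi * s)), ?_, by linarith⟩
    refine algLog.sub_mem (log_mem (by linarith) ?_) (log_mem hsin (sin_alg s))
    have := rat_alg (1 - s)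
    push_cast at this
    exact this
  · have hs0 : (0 : ℝ) < (s : ℝ) - 1 := by
      have : ((1 : ℚ) : ℝ) < s := by exact_mod_cast h
      push_cast at this
      linarith
    have hs1 : (s : ℝ) - 1 < 1 := by
      have : (s : ℝ) < ((2 : ℚ) : ℝ) := by exact_mod_cast h2
      push_cast at this
      linarith
    have e := log_refl hs0 hs1
    rw [show (1 : ℝ) - (s - 1) = 2 - s by ring] at e
    have e2 := log_succ hs0
    rw [show (s : ℝ) - 1 + 1 = s by ring] at e2
    have hsin : 0 < Real.sin (Real.pi * ((s : ℝ) - 1)) := by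
      apply Real.sin_pos_of_pos_of_lt_pi
      · exact mul_pos Real.pi_pos hs0
      · nlinarith [Real.pi_pos]
    refine ⟨Real.log ((s : ℝ) - 1) - Real.log (Real.sin (Real.pi * ((s : ℝ) - 1))), ?_,
      by linarith⟩
    have h3 := rat_alg (s - 1)
    have h4 := sin_alg (s - 1)
    push_cast at h3 h4
    exact algLog.sub_mem (log_mem hs0 h3) (log_mem hsin h4)

theorem thm_BETAREFL : Stmt_BetaRefl := by
  intro x y hx0 hx1 hy0 hy1 hxy
  have rx0 : (0 : ℝ) < x := by exact_mod_cast hx0
  have rx1 : (x : ℝ) < 1 := by exact_mod_cast hx1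
  have ry0 : (0 : ℝ) < y := by exact_mod_cast hy0
  have ry1 : (y : ℝ) < 1 := by exact_mod_cast hy1
  have b1 := log_bet rx0 ry0
  have b2 := log_bet (x := 1 - (x : ℝ)) (y := 1 - (y : ℝ)) (by linarith) (by linarith)
  rw [show (1 : ℝ) - x + (1 - y) = 2 - (x + y) by ring] at b2
  constructor
  · obtain ⟨a, ha, hs⟩ := two_refl (s := x + y) (by linarith) (by linarith) hxy
    push_cast at hs
    have ex := log_refl rx0 rx1
    have ey := log_refl ry0 ry1
    have sx : 0 < Real.sin (Real.pi * x) := by
      apply Real.sin_pos_of_pos_of_lt_pi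
      · positivity
      · nlinarith [Real.pi_pos]
    have sy : 0 < Real.sin (Real.pi * y) := by
      apply Real.sin_pos_of_pos_of_lt_pi
      · positivity
      · nlinarith [Real.pi_pos]
    have e : Real.log (bet x y) + Real.log (bet (1 - x) (1 - y)) - Real.log Real.pi =
        -(Real.log (Real.sin (Real.pi * x))) - Real.log (Real.sin (Real.pi * y)) - a := by
      rw [b1, b2]
      linarith
    rw [e]
    exact algLog.sub_mem (algLog.sub_mem (algLog.neg_mem (log_mem sx (sin_alg x)))
      (log_mem sy (sin_alg y))) ha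
  · rw [Hlog_of hx0.le hx1, Hlog_of hy0.le hy1]
    rcases lt_or_gt_of_ne hxy with h | h
    · rw [Hlog_of (by linarith) h]
      have hs1 : (x : ℝ) + y < 1 := by exact_mod_cast h
      have e2 := log_succ (s := 1 - ((x : ℝ) + y)) (by linarith)
      rw [show (1 : ℝ) - (x + y) + 1 = 2 - (x + y) by ring] at e2
      push_cast
      have e : Real.log (bet x y) - Real.log (bet (1 - x) (1 - y)) -
          (Real.log (Real.Gamma x) - Real.log (Real.Gamma (1 - x)) +
            (Real.log (Real.Gamma y) - Real.log (Real.Gamma (1 - y))) -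
            (Real.log (Real.Gamma (x + y)) - Real.log (Real.Gamma (1 - (x + y))))) =
          Real.log (1 - ((x : ℝ) + y)) := by
        rw [b1, b2]
        linarith
      rw [e]
      have h3 := rat_alg (1 - (x + y))
      push_cast at h3
      exact log_mem (by linarith) h3
    · rw [Hlog_of' h.le (by linarith)]
      have hs1 : 1 < (x : ℝ) + y := by exact_mod_cast h
      have e2 := log_succ (s := (x : ℝ) + y - 1) (by linarith)
      rw [show (x : ℝ) + y - 1 + 1 = x + y by ring] at e2
      push_cast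
      have e : Real.log (bet x y) - Real.log (bet (1 - x) (1 - y)) -
          (Real.log (Real.Gamma x) - Real.log (Real.Gamma (1 - x)) +
            (Real.log (Real.Gamma y) - Real.log (Real.Gamma (1 - y))) -
            (Real.log (Real.Gamma (x + y - 1)) - Real.log (Real.Gamma (2 - (x + y))))) =
          -Real.log ((x : ℝ) + y - 1) := by
        rw [b1, b2]
        linarith
      rw [e]
      have h3 := rat_alg (x + y - 1)
      push_cast at h3
      exact algLog.neg_mem (log_mem (by linarith) h3)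

end

end Pool.Agent.FDR.BETAREFL
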