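import Pool.Agent.FDR.Stmts

/-! Module BRANCH. -/

set_option autoImplicit false

open scoped BigOperators Polynomial Topology
open Metric Filter

namespace Pool.Agent.FDR.BRANCH

theorem thm_BRANCH : Stmt_Branch := by
  intro f b c hbc hc
  have hc2 : c ^ 2 ≠ 0 := pow_ne_zero 2 hc
  -- the ball on which `f x / c ^ 2` lies in the slit plane
  have hcont : Continuous fun x : ℂ => f.eval x / c ^ 2 :=
    (f.continuous).div_const _
  have hopen : IsOpen ((fun x : ℂ => f.eval x / c ^ 2) ⁻¹' Complex.slitPlane) :=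
    Complex.isOpen_slitPlane.preimage hcont
  have hmem : b ∈ (fun x : ℂ => f.eval x / c ^ 2) ⁻¹' Complex.slitPlane := by
    show f.eval b / c ^ 2 ∈ Complex.slitPlane
    rw [← hbc, div_self hc2]
    exact Complex.one_mem_slitPlane
  obtain ⟨r, hr, hball⟩ := Metric.isOpen_iff.mp hopen b hmem
  let y : ℂ → ℂ := fun x => c * Complex.exp (Complex.log (f.eval x / c ^ 2) / 2)
  have hy_ne : ∀ x, y x ≠ 0 := fun x => mul_ne_zero hc (Complex.exp_ne_zero _)
  have hy_diff : DifferentiableOn ℂ y (ball b r) := by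
    intro x hx
    have h1 : f.eval x / c ^ 2 ∈ Complex.slitPlane := hball hx
    have h2 : DifferentiableAt ℂ (fun x : ℂ => f.eval x / c ^ 2) x :=
      f.differentiable.differentiableAt.div_const _
    exact ((((h2.clog h1).div_const 2).cexp).const_mul c).differentiableWithinAt
  have hy_sq : ∀ x ∈ ball b r, y x ^ 2 = f.eval x := by
    intro x hx
    have h1 : f.eval x / c ^ 2 ∈ Complex.slitPlane := hball hx
    have h3 : f.eval x / c ^ 2 ≠ 0 := Complex.slitPlane_ne_zero h1
    show (c * Complex.exp (Complex.log (f.eval x / c ^ 2) / 2)) ^ 2 = f.eval x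
    rw [mul_pow, ← Complex.exp_nat_mul]
    have h4 : ((2 : ℕ) : ℂ) * (Complex.log (f.eval x / c ^ 2) / 2) =
        Complex.log (f.eval x / c ^ 2) := by
      push_cast
      ring
    rw [h4, Complex.exp_log h3, mul_div_cancel₀ _ hc2]
  have hI : ∀ i : ℕ, ∃ g : ℂ → ℂ, g b = 0 ∧ ∀ x ∈ ball b r, HasDerivAt g (x ^ i / y x) x := by
    intro i
    have hd : DifferentiableOn ℂ (fun x : ℂ => x ^ i / y x) (ball b r) :=
      (differentiableOn_id.pow i).div hy_diff fun x _ => hy_ne x
    exact hd.isExactOn_ball.with_val_at b 0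
  choose I hI0 hI1 using hI
  refine ⟨⟨r, hr, y, I, ?_, hy_diff, hy_sq, fun x _ => hy_ne x, hI0, hI1⟩⟩
  show c * Complex.exp (Complex.log (f.eval b / c ^ 2) / 2) = c
  rw [← hbc, div_self hc2, Complex.log_one, zero_div, Complex.exp_zero, mul_one]

end Pool.Agent.FDR.BRANCH
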