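import Pool.Agent.FDR.Stmts

/-!
FDR/CHART (helper92): existence of the local coordinates, by the analytic inverse function
theorem in several variables.
-/

open scoped BigOperators Polynomial Topology
open Metric Filter

namespace Pool.Agent.FDR.CHART

noncomputable section

/-- the abelian integrals -/
def AA {g : ℕ} {f : ℂ[X]} {b c : Fin g → ℂ} (β : ∀ k, Branch f (b k) (c k))
    (x : Fin g → ℂ) (i : Fin g) : ℂ := ∑ k, (β k).I i (x k)

theorem analytic_I {f : ℂ[X]} {b c : ℂ} (β : Branch f b c) (i : ℕ) : AnalyticAt ℂ (β.I i) b := by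
  have h1 : DifferentiableOn ℂ (β.I i) (ball b β.r) := fun x hx =>
    (β.I_deriv i x hx).differentiableAt.differentiableWithinAt
  exact h1.analyticAt (ball_mem_nhds b β.rpos)

theorem analytic_AA {g : ℕ} {f : ℂ[X]} {b c : Fin g → ℂ} (β : ∀ k, Branch f (b k) (c k)) :
    AnalyticAt ℂ (AA β) b := by
  unfold AA
  rw [analyticAt_pi_iff]
  intro i
  refine Finset.analyticAt_fun_sum _ fun k _ => ?_
  have h1 : AnalyticAt ℂ (fun x : Fin g → ℂ => x k) b :=
    (ContinuousLinearMap.proj (R := ℂ) (φ := fun _ : Fin g => ℂ) k).analyticAt b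
  exact (analytic_I (β k) i).comp_of_eq h1 rfl

theorem hasFDerivAt_AA {g : ℕ} {f : ℂ[X]} {b c : Fin g → ℂ} (β : ∀ k, Branch f (b k) (c k)) :
    HasFDerivAt (AA β) (ContinuousLinearMap.pi fun i : Fin g =>
      ∑ k, (b k ^ (i : ℕ) / c k) •
        (ContinuousLinearMap.proj (R := ℂ) (φ := fun _ : Fin g => ℂ) k)) b := by
  rw [hasFDerivAt_pi]
  intro i
  unfold AA
  refine HasFDerivAt.fun_sum fun k _ => ?_
  have h1 : HasFDerivAt (fun x : Fin g → ℂ => x k)
      (ContinuousLinearMap.proj (R := ℂ) (φ := fun _ : Fin g => ℂ) k) b :=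
    (ContinuousLinearMap.proj (R := ℂ) (φ := fun _ : Fin g => ℂ) k).hasFDerivAt
  have h2 := (β k).I_deriv i (b k) (mem_ball_self (β k).rpos)
  rw [(β k).y_b] at h2
  exact h2.comp_hasFDerivAt_of_eq b h1 rfl

theorem injective_mat {g : ℕ} {b c : Fin g → ℂ} (hb : Function.Injective b) (hc : ∀ k, c k ≠ 0)
    (v : Fin g → ℂ) (hv : ∀ i : Fin g, ∑ k, (b k ^ (i : ℕ) / c k) * v k = 0) : v = 0 := by
  have h1 : (Matrix.vandermonde b).det ≠ 0 := Matrix.det_vandermonde_ne_zero_iff.2 hb
  have h2 : Matrix.vecMul (fun k => v k / c k) (Matrix.vandermonde b) = 0 := by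
    funext i
    have := hv i
    simp only [Matrix.vecMul, dotProduct, Matrix.vandermonde_apply, Pi.zero_apply]
    rw [← this]
    refine Finset.sum_congr rfl fun k _ => ?_
    ring
  have h3 := Matrix.eq_zero_of_vecMul_eq_zero h1 h2
  funext k
  have h4 := congrFun h3 k
  simp only [Pi.zero_apply] at h4
  rcases div_eq_zero_iff.1 h4 with h5 | h5
  · exact h5
  · exact absurd h5 (hc k)

theorem thm_CHART : Stmt_Chart := by
  intro g f b c hb β
  have hc : ∀ k, c k ≠ 0 := fun k => by
    have := (β k).y_ne (b k) (mem_ball_self (β k).rpos)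
    rwa [(β k).y_b] at this
  obtain ⟨p, hp⟩ := analytic_AA β
  have hstrict := hp.hasStrictFDerivAt
  set L : (Fin g → ℂ) →L[ℂ] (Fin g → ℂ) :=
    continuousMultilinearCurryFin1 ℂ (Fin g → ℂ) (Fin g → ℂ) (p 1) with hL
  have hLeq : L = ContinuousLinearMap.pi fun i : Fin g =>
      ∑ k, (b k ^ (i : ℕ) / c k) •
        (ContinuousLinearMap.proj (R := ℂ) (φ := fun _ : Fin g => ℂ) k) :=
    hstrict.hasFDerivAt.unique (hasFDerivAt_AA β)
  have hinj : Function.Injective (L : (Fin g → ℂ) →ₗ[ℂ] (Fin g → ℂ)) := by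
    rw [← LinearMap.ker_eq_bot, LinearMap.ker_eq_bot']
    intro v hv
    refine injective_mat hb hc v fun i => ?_
    have h1 := congrFun hv i
    rw [ContinuousLinearMap.coe_coe, hLeq] at h1
    simpa using h1
  let e : (Fin g → ℂ) ≃L[ℂ] (Fin g → ℂ) :=
    (LinearEquiv.ofInjectiveEndo (L : (Fin g → ℂ) →ₗ[ℂ] (Fin g → ℂ)) hinj).toContinuousLinearEquiv
  have he : (e : (Fin g → ℂ) →L[ℂ] (Fin g → ℂ)) = L := by
    ext v i
    rfl
  have hfd : HasStrictFDerivAt (AA β) (e : (Fin g → ℂ) →L[ℂ] (Fin g → ℂ)) b := by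
    rw [he]; exact hstrict
  let R := hfd.toOpenPartialHomeomorph (AA β)
  have hx : b ∈ R.source := HasStrictFDerivAt.mem_toOpenPartialHomeomorph_source _
  have h0 : AA β b = 0 := by
    funext i
    simp only [AA, Pi.zero_apply]
    exact Finset.sum_eq_zero fun k _ => (β k).I_b i
  have hsymm : AnalyticAt ℂ R.symm (AA β b) := by
    refine (R.hasFPowerSeriesAt_symm hx (i := e) (p := p) hp ?_).analyticAt
    rw [he, hL]
    simp
  have hright := hfd.eventually_right_inverse
  have hleft := hfd.eventually_left_inverse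
  have himg := hfd.localInverse_apply_image
  refine ⟨{ β := β, X := hfd.localInverse (AA β) e b, an := ?_, X0 := ?_, right := ?_,
            left := ?_ }, rfl⟩
  · rw [h0] at hsymm
    exact hsymm
  · rw [h0] at himg
    exact himg
  · rw [h0] at hright
    filter_upwards [hright] with z hz i
    exact congrFun hz i
  · filter_upwards [hleft] with x hx'
    exact hx'

end

end Pool.Agent.FDR.CHART
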