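import Pool.Agent.FDR.Stmts

/-!
# FDR, module CHARTD: derivatives of the coordinates
-/

open scoped BigOperators Polynomial Topology
open Metric Filter

namespace Pool.Agent.FDR.CHARTD

noncomputable section

theorem branch_y_analyticAt {f : ℂ[X]} {b c : ℂ} (B : Branch f b c) {x : ℂ}
    (hx : x ∈ ball b B.r) : AnalyticAt ℂ B.y x :=
  B.y_diff.analyticAt (isOpen_ball.mem_nhds hx)

theorem branch_I_analyticAt {f : ℂ[X]} {b c : ℂ} (B : Branch f b c) (i : ℕ) {x : ℂ}
    (hx : x ∈ ball b B.r) : AnalyticAt ℂ (B.I i) x := by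
  have h : DifferentiableOn ℂ (B.I i) (ball b B.r) := fun u hu =>
    ((B.I_deriv i u hu).differentiableAt).differentiableWithinAt
  exact h.analyticAt (isOpen_ball.mem_nhds hx)

/-- The sum `∑ k, x k ^ i * lagC x k j` is the Kronecker delta. -/
theorem sum_pow_mul_lagC {g : ℕ} (x : Fin g → ℂ) (hx : Function.Injective x) (i j : Fin g) :
    ∑ k, x k ^ (i : ℕ) * lagC x k j = if j = i then 1 else 0 := by
  have h1 : (Polynomial.X ^ (i : ℕ) : ℂ[X]) =
      Lagrange.interpolate Finset.univ x (fun k => (x k) ^ (i : ℕ)) := by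
    have h2 := Lagrange.eq_interpolate (s := Finset.univ) (v := x)
      (f := (Polynomial.X ^ (i : ℕ) : ℂ[X])) (fun a _ b _ h => hx h) (by
        rw [Polynomial.degree_X_pow, Finset.card_univ, Fintype.card_fin]
        exact_mod_cast i.2)
    rw [h2]
    congr 1
    funext k
    simp
  have h3 := congrArg (fun p : ℂ[X] => p.coeff (j : ℕ)) h1
  simp only [Lagrange.interpolate_apply, Polynomial.finset_sum_coeff, Polynomial.coeff_C_mul,
    Polynomial.coeff_X_pow] at h3
  unfold lagC
  rw [← h3]
  simp only [Fin.ext_iff]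

theorem thm_CHARTD : Stmt_ChartD := by
  intro g f b c C hb
  -- analyticity of the coordinates
  have hXan : ∀ k, AnalyticAt ℂ (fun z => C.X z k) 0 := by
    intro k
    exact (analyticAt_pi_iff (f := fun k z => C.X z k)).1 C.an k
  have hX0 : ∀ k, C.X 0 k = b k := fun k => by rw [C.X0]
  have hYan : ∀ k, AnalyticAt ℂ (fun z => C.Y z k) 0 := by
    intro k
    have h1 : AnalyticAt ℂ (C.β k).y (C.X 0 k) := by
      rw [hX0]; exact branch_y_analyticAt _ (mem_ball_self (C.β k).rpos)
    exact AnalyticAt.comp' (f := fun z => C.X z k) (g := (C.β k).y) h1 (hXan k)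
  have hsan : AnalyticAt ℂ C.s 0 := by
    have : C.s = fun z => ∑ k, (C.β k).I g (C.X z k) := rfl
    rw [this]
    refine Finset.analyticAt_fun_sum _ ?_
    intro k _
    have h1 : AnalyticAt ℂ ((C.β k).I g) (C.X 0 k) := by
      rw [hX0]; exact branch_I_analyticAt _ _ (mem_ball_self (C.β k).rpos)
    exact AnalyticAt.comp' (f := fun z => C.X z k) (g := (C.β k).I g) h1 (hXan k)
  refine ⟨hYan, hsan, ?_, ?_, ?_⟩
  · intro k
    simp only [Chart.Y, hX0, (C.β k).y_b]
  · simp only [Chart.s, hX0, (C.β _).I_b, Finset.sum_const_zero]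
  -- the open conditions
  have e1 : ∀ᶠ z in 𝓝 (0 : Fin g → ℂ), ∀ k, C.X z k ∈ ball (b k) (C.β k).r := by
    rw [Filter.eventually_all]
    intro k
    have := (hXan k).continuousAt
    refine this.eventually ?_
    simp only [hX0]
    exact isOpen_ball.mem_nhds (mem_ball_self (C.β k).rpos)
  have e2 : ∀ᶠ z in 𝓝 (0 : Fin g → ℂ), ∀ k l, k ≠ l → C.X z k ≠ C.X z l := by
    rw [Filter.eventually_all]
    intro k
    rw [Filter.eventually_all]
    intro l
    by_cases hkl : k = l
    · exact Filter.Eventually.of_forall fun z h => absurd hkl h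
    · have h1 : ContinuousAt (fun z => C.X z k - C.X z l) 0 :=
        (hXan k).continuousAt.sub (hXan l).continuousAt
      have h2 : C.X 0 k - C.X 0 l ≠ 0 := by
        rw [hX0, hX0, sub_ne_zero]
        exact fun h => hkl (hb h)
      have h3 := h1.eventually_ne h2
      filter_upwards [h3] with z hz _
      exact sub_ne_zero.1 hz
  have e3 : ∀ᶠ z in 𝓝 (0 : Fin g → ℂ), ∀ k, AnalyticAt ℂ (fun z => C.X z k) z := by
    rw [Filter.eventually_all]
    intro k
    exact (hXan k).eventually_analyticAt
  have e4 := C.right.eventually_nhds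
  have e5 := e1.eventually_nhds
  filter_upwards [e1, e2, e3, e4, e5] with z h1 h2 h3 h4 h5
  have hinj : Function.Injective (C.X z) := by
    intro k l hkl
    by_contra hne
    exact h2 k l hne hkl
  have hYne : ∀ k, C.Y z k ≠ 0 := fun k => (C.β k).y_ne _ (h1 k)
  have hYsq : ∀ k, C.Y z k ^ 2 = f.eval (C.X z k) := fun k => (C.β k).y_sq _ (h1 k)
  have hXd : ∀ k, DifferentiableAt ℂ (fun z => C.X z k) z := fun k => (h3 k).differentiableAt
  refine ⟨hinj, fun k => ⟨hYne k, hYsq k⟩, ?_⟩
  intro j
  -- derivative of `I i (X z k)`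
  have hI : ∀ i k, HasFDerivAt (fun z => (C.β k).I i (C.X z k))
      ((C.X z k ^ i / C.Y z k) • fderiv ℂ (fun z => C.X z k) z) z := by
    intro i k
    have h6 := (C.β k).I_deriv i (C.X z k) (h1 k)
    exact h6.comp_hasFDerivAt z (hXd k).hasFDerivAt
  have hder : ∀ k, fderiv ℂ (fun z => C.X z k) z (Pi.single j 1) =
      C.Y z k * lagC (C.X z) k j := by
    have key : ∀ i : Fin g, ∑ k, (C.X z k ^ (i : ℕ) / C.Y z k) *
        fderiv ℂ (fun z => C.X z k) z (Pi.single j 1) = if j = i then 1 else 0 := by
      intro i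
      have h7 : HasFDerivAt (fun z => ∑ k, (C.β k).I i (C.X z k))
          (∑ k, (C.X z k ^ (i : ℕ) / C.Y z k) • fderiv ℂ (fun z => C.X z k) z) z := by
        exact HasFDerivAt.fun_sum fun k _ => hI i k
      have h8 : (fun z => ∑ k, (C.β k).I i (C.X z k)) =ᶠ[𝓝 z] fun z => z i := by
        filter_upwards [h4] with w hw
        exact hw i
      have h9 : HasFDerivAt (fun z : Fin g → ℂ => z i)
          (ContinuousLinearMap.proj (R := ℂ) i) z := by
        exact (ContinuousLinearMap.proj (R := ℂ) (φ := fun _ : Fin g => ℂ) i).hasFDerivAt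
      have h10 := (h7.congr_of_eventuallyEq h8.symm).unique h9
      have h11 := congrArg (fun T : (Fin g → ℂ) →L[ℂ] ℂ => T (Pi.single j 1)) h10
      simp only [ContinuousLinearMap.coe_sum', Finset.sum_apply,
        ContinuousLinearMap.smul_apply, smul_eq_mul, ContinuousLinearMap.proj_apply] at h11
      rw [h11, Pi.single_apply]
      simp only [eq_comm]
    have h12 : (fun k => (fderiv ℂ (fun z => C.X z k) z (Pi.single j 1) -
        C.Y z k * lagC (C.X z) k j) / C.Y z k) = 0 := by
      refine Matrix.eq_zero_of_forall_pow_sum_mul_pow_eq_zero hinj ?_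
      intro i
      have h13 := key i
      have h14 := sum_pow_mul_lagC (C.X z) hinj i j
      rw [← h14] at h13
      rw [← sub_eq_zero, ← Finset.sum_sub_distrib] at h13
      rw [← h13]
      refine Finset.sum_congr rfl ?_
      intro k _
      have := hYne k
      field_simp
    intro k
    have h15 := congrFun h12 k
    simp only [Pi.zero_apply, div_eq_zero_iff, hYne k, or_false] at h15
    exact sub_eq_zero.1 h15
  have hYd : ∀ k, DifferentiableAt ℂ (fun z => C.Y z k) z := by
    intro k
    have h6 := (branch_y_analyticAt (C.β k) (h1 k)).differentiableAt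
    exact h6.comp z (hXd k)
  refine ⟨hder, ?_, ?_⟩
  · intro k
    have h7 : HasFDerivAt (fun z => C.Y z k ^ 2)
        ((2 * C.Y z k) • fderiv ℂ (fun z => C.Y z k) z) z := by
      have := (hYd k).hasFDerivAt.pow 2
      simpa using this
    have h8 : HasFDerivAt (fun z => f.eval (C.X z k))
        (((Polynomial.derivative f).eval (C.X z k)) • fderiv ℂ (fun z => C.X z k) z) z := by
      exact (f.hasDerivAt (C.X z k)).comp_hasFDerivAt z (hXd k).hasFDerivAt
    have h9 : (fun z => f.eval (C.X z k)) =ᶠ[𝓝 z] fun z => C.Y z k ^ 2 := by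
      filter_upwards [h5] with w hw
      exact ((C.β k).y_sq _ (hw k)).symm
    have h10 := (h7.congr_of_eventuallyEq h9).unique h8
    have h11 := congrArg (fun T : (Fin g → ℂ) →L[ℂ] ℂ => T (Pi.single j 1)) h10
    simp only [ContinuousLinearMap.smul_apply, smul_eq_mul] at h11
    rw [hder k] at h11
    have hne := hYne k
    have h12 : 2 * C.Y z k ≠ 0 := mul_ne_zero two_ne_zero hne
    apply mul_left_cancel₀ h12
    rw [h11]
    ring
  · have h7 : HasFDerivAt C.s
        (∑ k, (C.X z k ^ g / C.Y z k) • fderiv ℂ (fun z => C.X z k) z) z := by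
      have : C.s = fun z => ∑ k, (C.β k).I g (C.X z k) := rfl
      rw [this]
      exact HasFDerivAt.fun_sum fun k _ => hI g k
    rw [h7.fderiv]
    simp only [ContinuousLinearMap.coe_sum', Finset.sum_apply,
        ContinuousLinearMap.smul_apply, smul_eq_mul]
    refine Finset.sum_congr rfl ?_
    intro k _
    rw [hder k]
    have := hYne k
    field_simp

end

end Pool.Agent.FDR.CHARTD
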