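import Pool.Agent.FDR.Stmts

/-!
# FDR: CONT, analytic continuation along three discs gives the periods
-/

open scoped BigOperators Polynomial Topology
open Metric Filter

namespace Pool.Agent.FDR.CONT

noncomputable section

variable {g : ℕ}

/-- the point of the Jacobian (and of its additive extension) with moving part `t`, fixed part
`s` and last coordinate `σ` -/
def Zof (s t : ℕ → ℂ) (σ : ℂ) : (Fin g → ℂ) × ℂ := (fun i => t i + s i, t g + s g - σ)

/-- the expected values -/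
def val (i0 : Fin g) (x1 : ℂ) (x : Fin g → ℂ) (σ : ℂ) : Option (Fin g) → ℂ
  | some l => (polyU (Function.update x i0 x1)).coeff l
  | none => σ

/-- the relation which is continued -/
def P {R : ℝ} {F : (Fin g → ℂ) × ℂ → Option (Fin g) → ℂ} (r : Rep F R) (i0 : Fin g)
    (s t : ℕ → ℂ) (x1 : ℂ) (x : Fin g → ℂ) (σ : ℂ) : Prop :=
  ∀ o, r.G o (Zof s t σ) = val i0 x1 x σ o * r.G0 (Zof s t σ)

theorem polyU_update (i0 : Fin g) (x : Fin g → ℂ) (x1 : ℂ) :
    polyU (Function.update x i0 x1) =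
      (Polynomial.X - Polynomial.C x1) *
        ∏ k ∈ Finset.univ.erase i0, (Polynomial.X - Polynomial.C (x k)) := by
  unfold polyU
  rw [← Finset.mul_prod_erase Finset.univ _ (Finset.mem_univ i0)]
  simp only [Function.update_self]
  congr 1
  apply Finset.prod_congr rfl
  intro k hk
  rw [Function.update_of_ne (Finset.ne_of_mem_erase hk)]

theorem val_some (i0 l : Fin g) (x : Fin g → ℂ) (x1 σ : ℂ) :
    val i0 x1 x σ (some l) =
      (Polynomial.X * ∏ k ∈ Finset.univ.erase i0, (Polynomial.X - Polynomial.C (x k))).coeff l -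
      x1 * (∏ k ∈ Finset.univ.erase i0, (Polynomial.X - Polynomial.C (x k))).coeff l := by
  change (polyU (Function.update x i0 x1)).coeff l = _
  rw [polyU_update, sub_mul, Polynomial.coeff_sub, Polynomial.coeff_C_mul]

theorem ident {R : ℝ} {F : (Fin g → ℂ) × ℂ → Option (Fin g) → ℂ} (r : Rep F R) (i0 : Fin g)
    (s : ℕ → ℂ) (x : Fin g → ℂ) (σ : ℂ) (t : ℂ → ℕ → ℂ) (ξ : ℂ → ℂ)
    (ht : ∀ i ≤ g, DifferentiableOn ℂ (fun v => t v i) (ball 0 1))
    (hξ : DifferentiableOn ℂ ξ (ball 0 1))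
    (hZ : ∀ v ∈ ball (0 : ℂ) 1, Zof s (t v) σ ∈ ball (0 : (Fin g → ℂ) × ℂ) R)
    (z0 : ℂ) (hz0 : z0 ∈ ball (0 : ℂ) 1)
    (hf : ∃ᶠ v in 𝓝[≠] z0, P r i0 s (t v) (ξ v) x σ) :
    ∀ v ∈ ball (0 : ℂ) 1, P r i0 s (t v) (ξ v) x σ := by
  intro v hv o
  have hZan : AnalyticOnNhd ℂ (fun v => (Zof s (t v) σ : (Fin g → ℂ) × ℂ)) (ball 0 1) := by
    apply DifferentiableOn.analyticOnNhd _ isOpen_ball
    unfold Zof
    apply DifferentiableOn.prodMk
    · rw [differentiableOn_pi]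
      intro i
      exact (ht i i.2.le).add_const _
    · exact ((ht g le_rfl).add_const _).sub_const _
  have h0 : AnalyticOnNhd ℂ (fun v => r.G0 (Zof s (t v) σ)) (ball 0 1) := r.an0.comp hZan hZ
  have h1 : AnalyticOnNhd ℂ (fun v => r.G o (Zof s (t v) σ)) (ball 0 1) := (r.an o).comp hZan hZ
  have hval : AnalyticOnNhd ℂ (fun v => val i0 (ξ v) x σ o) (ball 0 1) := by
    apply DifferentiableOn.analyticOnNhd _ isOpen_ball
    cases o with
    | none => exact differentiableOn_const _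
    | some l =>
      simp only [val_some]
      exact (hξ.mul_const _).const_sub _
  exact h1.eqOn_of_preconnected_of_frequently_eq (hval.mul h0)
    (convex_ball (0 : ℂ) 1).isPreconnected hz0 (hf.mono fun v h => h o) hv

theorem Zof_mem {s t : ℕ → ℂ} {σ : ℂ} {M R : ℝ} (hM : 0 ≤ M) (hR : M + 2 < R)
    (hs : ∀ i ≤ g, ‖s i‖ ≤ 1) (ht : ∀ i ≤ g, ‖t i‖ ≤ M) (hσ : ‖σ‖ ≤ 1) :
    Zof s t σ ∈ ball (0 : (Fin g → ℂ) × ℂ) R := by
  rw [mem_ball_zero_iff]
  refine lt_of_le_of_lt ?_ hR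
  unfold Zof
  refine max_le ?_ ?_
  · rw [pi_norm_le_iff_of_nonneg (by linarith)]
    intro i
    calc ‖t i + s i‖ ≤ ‖t i‖ + ‖s i‖ := norm_add_le _ _
      _ ≤ M + 2 := by linarith [ht i i.2.le, hs i i.2.le]
  · calc ‖t g + s g - σ‖ ≤ ‖t g + s g‖ + ‖σ‖ := norm_sub_le _ _
      _ ≤ ‖t g‖ + ‖s g‖ + ‖σ‖ := by linarith [norm_add_le (t g) (s g)]
      _ ≤ M + 2 := by linarith [ht g le_rfl, hs g le_rfl]

theorem aRoot_norm (g k : ℕ) : ‖aRoot g k‖ = 1 := by
  have h : Complex.I * Real.pi * (2 * k + 1) / (2 * g + 1) =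
      ((Real.pi * (2 * k + 1) / (2 * g + 1) : ℝ) : ℂ) * Complex.I := by
    push_cast
    ring
  unfold aRoot
  rw [h, Complex.norm_exp_ofReal_mul_I]

/-- the local branch near `0` agrees with the global one on the unit disc -/
theorem branch_eq {m : ℕ} (hm : 0 < m) (β : Branch (Polynomial.X ^ m + 1 : ℂ[X]) 0 1) (i : ℕ)
    (J : ℂ → ℂ) (hJ0 : J 0 = 0)
    (hJ : ∀ x ∈ ball (0 : ℂ) 1, HasDerivAt J (x ^ i * (1 + x ^ m) ^ (-(1 / 2) : ℂ)) x) :
    ∀ᶠ x in 𝓝 (0 : ℂ), β.I i x = J x := by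
  -- the two square roots agree near `0`
  have hy : ContinuousAt β.y 0 :=
    (β.y_diff.differentiableAt (ball_mem_nhds _ β.rpos)).continuousAt
  have hslit : (1 : ℂ) + 0 ^ m ∈ Complex.slitPlane := by
    rw [zero_pow hm.ne', add_zero]; exact Complex.one_mem_slitPlane
  have hc : ContinuousAt (fun x : ℂ => (1 + x ^ m) ^ (-(1 / 2) : ℂ)) 0 := by
    apply ContinuousAt.cpow
    · fun_prop
    · fun_prop
    · exact hslit
  have hu : Tendsto (fun x : ℂ => β.y x * (1 + x ^ m) ^ (-(1 / 2) : ℂ)) (𝓝 0) (𝓝 1) := by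
    have h := (hy.mul hc).tendsto
    have h' : (β.y 0 * (1 + 0 ^ m) ^ (-(1 / 2) : ℂ)) = 1 := by
      rw [β.y_b, zero_pow hm.ne', add_zero, Complex.one_cpow, mul_one]
    change Tendsto (fun x : ℂ => β.y x * (1 + x ^ m) ^ (-(1 / 2) : ℂ)) (𝓝 0)
      (𝓝 (β.y 0 * (1 + 0 ^ m) ^ (-(1 / 2) : ℂ))) at h
    rwa [h'] at h
  have hne : ∀ᶠ x in 𝓝 (0 : ℂ), (1 : ℂ) + x ^ m ≠ 0 := by
    have : ContinuousAt (fun x : ℂ => (1 : ℂ) + x ^ m) 0 := by fun_prop
    apply this.eventually_ne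
    rw [zero_pow hm.ne']; norm_num
  have h1 : ∀ᶠ x in 𝓝 (0 : ℂ), β.y x * (1 + x ^ m) ^ (-(1 / 2) : ℂ) = 1 := by
    filter_upwards [hu (ball_mem_nhds 1 one_pos), hne, ball_mem_nhds (0 : ℂ) β.rpos]
      with x hx hx' hx''
    set u := β.y x * (1 + x ^ m) ^ (-(1 / 2) : ℂ) with hu_def
    have h2 : u ^ 2 = 1 := by
      have h3 : ((1 + x ^ m) ^ (-(1 / 2) : ℂ)) ^ 2 = (1 + x ^ m)⁻¹ := by
        rw [← Complex.cpow_nat_mul]
        norm_num
        exact Complex.cpow_neg_one _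
      rw [hu_def, mul_pow, h3, β.y_sq x hx'']
      simp only [Polynomial.eval_add, Polynomial.eval_pow, Polynomial.eval_X,
        Polynomial.eval_one]
      rw [add_comm, mul_inv_cancel₀ hx']
    rw [pow_two] at h2
    rcases mul_self_eq_one_iff.mp h2 with h | h
    · exact h
    · exfalso
      have hx1 : u ∈ ball (1 : ℂ) 1 := hx
      rw [h, mem_ball, dist_eq_norm] at hx1
      norm_num at hx1
  have hb1 : ∀ᶠ x in 𝓝 (0 : ℂ), x ∈ ball (0 : ℂ) β.r := ball_mem_nhds (0 : ℂ) β.rpos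
  have hb2 : ∀ᶠ x in 𝓝 (0 : ℂ), x ∈ ball (0 : ℂ) 1 := ball_mem_nhds (0 : ℂ) one_pos
  obtain ⟨ε, hε, hball⟩ := Metric.eventually_nhds_iff_ball.mp (h1.and (hb1.and hb2))
  filter_upwards [ball_mem_nhds (0 : ℂ) hε] with x hx
  have hd : ∀ x ∈ ball (0 : ℂ) ε, HasDerivAt (fun x => β.I i x - J x) 0 x := by
    intro x hx
    obtain ⟨ha, hb, hc⟩ := hball x hx
    have h4 : x ^ i / β.y x = x ^ i * (1 + x ^ m) ^ (-(1 / 2) : ℂ) := by
      rw [div_eq_mul_inv]
      congr 1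
      exact inv_eq_of_mul_eq_one_right ha
    have h5 := (β.I_deriv i x hb).sub (hJ x hc)
    rwa [h4, sub_self] at h5
  have h6 : (fun x => β.I i x - J x) x = (fun x => β.I i x - J x) 0 := by
    refine (isOpen_ball (x := (0 : ℂ)) (ε := ε)).is_const_of_deriv_eq_zero
      (convex_ball (0 : ℂ) ε).isPreconnected
      (fun x hx => (hd x hx).differentiableAt.differentiableWithinAt)
      (fun x hx => (hd x hx).deriv) hx (mem_ball_self hε)
  have h7 : β.I i x - J x = 0 := by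
    have : β.I i x - J x = β.I i 0 - J 0 := h6
    rw [this, β.I_b, hJ0, sub_zero]
  exact sub_eq_zero.mp h7

/-- the contribution of the fixed points -/
def S {f : ℂ[X]} {b c : Fin g → ℂ} (β : ∀ k, Branch f (b k) (c k)) (i0 : Fin g)
    (x : Fin g → ℂ) (i : ℕ) : ℂ := ∑ k ∈ Finset.univ.erase i0, (β k).I i (x k)

theorem I_cont {f : ℂ[X]} {b c : ℂ} (β : Branch f b c) (i : ℕ) : ContinuousAt (β.I i) b :=
  (β.I_deriv i b (mem_ball_self β.rpos)).continuousAt

theorem S_tendsto {f : ℂ[X]} {b c : Fin g → ℂ} (β : ∀ k, Branch f (b k) (c k)) (i0 : Fin g)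
    (i : ℕ) : Tendsto (fun x : Fin g → ℂ => S β i0 x i) (𝓝 b) (𝓝 0) := by
  have h : Tendsto (fun x : Fin g → ℂ => ∑ k ∈ Finset.univ.erase i0, (β k).I i (x k)) (𝓝 b)
      (𝓝 (∑ k ∈ Finset.univ.erase i0, (β k).I i (b k))) := by
    apply tendsto_finsetSum
    intro k _
    exact (I_cont (β k) i).tendsto.comp ((continuous_apply k).tendsto b)
  have h0 : ∑ k ∈ Finset.univ.erase i0, (β k).I i (b k) = 0 :=
    Finset.sum_eq_zero fun k _ => (β k).I_b i
  rwa [h0] at h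

theorem sum_update {f : ℂ[X]} {b c : Fin g → ℂ} (β : ∀ k, Branch f (b k) (c k)) (i0 : Fin g)
    (x : Fin g → ℂ) (x1 : ℂ) (i : ℕ) :
    ∑ k, (β k).I i (Function.update x i0 x1 k) = (β i0).I i x1 + S β i0 x i := by
  unfold S
  rw [← Finset.add_sum_erase Finset.univ _ (Finset.mem_univ i0)]
  simp only [Function.update_self]
  congr 1
  apply Finset.sum_congr rfl
  intro k hk
  rw [Function.update_of_ne (Finset.ne_of_mem_erase hk)]

theorem Zof_tendsto {α : Type} {l : Filter α} {s t : α → ℕ → ℂ} {σ : α → ℂ}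
    (hs : ∀ i ≤ g, Tendsto (fun a => s a i) l (𝓝 0))
    (ht : ∀ i ≤ g, Tendsto (fun a => t a i) l (𝓝 0)) (hσ : Tendsto σ l (𝓝 0)) :
    Tendsto (fun a => (Zof (s a) (t a) (σ a) : (Fin g → ℂ) × ℂ)) l (𝓝 0) := by
  unfold Zof
  have h1 : Tendsto (fun a => (fun i : Fin g => t a i + s a i)) l (𝓝 (0 : Fin g → ℂ)) := by
    rw [tendsto_pi_nhds]
    intro i
    simpa using (ht i i.2.le).add (hs i i.2.le)
  have h2 : Tendsto (fun a => t a g + s a g - σ a) l (𝓝 0) := by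
    simpa using ((ht g le_rfl).add (hs g le_rfl)).sub hσ
  exact h1.prodMk_nhds h2

/-- the relation near the base point -/
theorem step0 {f : ℂ[X]} {b c : Fin g → ℂ} (i0 : Fin g) (hb : b i0 = 0) (C : Chart g f b c)
    {R : ℝ} (r : Rep (F1 C) R) (J : ℕ → ℂ → ℂ) (hJ0 : ∀ i ≤ g, J i 0 = 0)
    (hJ : ∀ i ≤ g, ∀ᶠ x in 𝓝 (0 : ℂ), (C.β i0).I i x = J i x)
    (hJc : ∀ i ≤ g, ContinuousAt (J i) 0) :
    ∀ᶠ q : ((Fin g → ℂ) × ℂ) × ℂ in 𝓝 ((b, 0), 0),
      P r i0 (S C.β i0 q.1.1) (fun i => J i q.2) q.2 q.1.1 q.1.2 := by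
  have hf1 : Tendsto (fun q : ((Fin g → ℂ) × ℂ) × ℂ => q.1.1) (𝓝 ((b, 0), 0)) (𝓝 b) :=
    (continuous_fst.fst).tendsto _
  have hf2 : Tendsto (fun q : ((Fin g → ℂ) × ℂ) × ℂ => q.1.2) (𝓝 ((b, 0), 0)) (𝓝 0) :=
    (continuous_fst.snd).tendsto _
  have hf3 : Tendsto (fun q : ((Fin g → ℂ) × ℂ) × ℂ => q.2) (𝓝 ((b, 0), 0)) (𝓝 0) :=
    (continuous_snd).tendsto _
  have hup : Tendsto (fun q : ((Fin g → ℂ) × ℂ) × ℂ => Function.update q.1.1 i0 q.2)
      (𝓝 ((b, 0), 0)) (𝓝 b) := by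
    have h : Continuous (fun q : ((Fin g → ℂ) × ℂ) × ℂ => Function.update q.1.1 i0 q.2) :=
      (continuous_fst.fst).update i0 continuous_snd
    have h' := h.tendsto ((b, 0), 0)
    have hbb : Function.update b i0 0 = b := by
      rw [← hb, Function.update_eq_self]
    simpa [hbb] using h'
  have e1 := hup.eventually C.left
  have hZt : Tendsto (fun q : ((Fin g → ℂ) × ℂ) × ℂ =>
      (Zof (S C.β i0 q.1.1) (fun i => J i q.2) q.1.2 : (Fin g → ℂ) × ℂ))
      (𝓝 ((b, 0), 0)) (𝓝 0) := by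
    apply Zof_tendsto
    · intro i _
      exact (S_tendsto C.β i0 i).comp hf1
    · intro i hi
      have := (hJc i hi).tendsto.comp hf3
      rw [hJ0 i hi] at this
      exact this
    · exact hf2
  have e2 := hZt.eventually r.eq
  have e3 : ∀ᶠ q : ((Fin g → ℂ) × ℂ) × ℂ in 𝓝 ((b, 0), 0), ∀ i ∈ Finset.range (g + 1),
      (C.β i0).I i q.2 = J i q.2 := by
    rw [Finset.eventually_all]
    intro i hi
    exact hf3.eventually (hJ i (Nat.lt_succ_iff.mp (Finset.mem_range.mp hi)))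
  filter_upwards [e1, e2, e3] with q h1 h2 h3 o
  set Z : (Fin g → ℂ) × ℂ := Zof (S C.β i0 q.1.1) (fun i => J i q.2) q.1.2 with hZ
  have hI : ∀ i ≤ g, ∑ k, (C.β k).I i (Function.update q.1.1 i0 q.2 k) =
      J i q.2 + S C.β i0 q.1.1 i := by
    intro i hi
    rw [sum_update, h3 i (Finset.mem_range.mpr (Nat.lt_succ_of_le hi))]
  have hX : C.X Z.1 = Function.update q.1.1 i0 q.2 := by
    rw [← h1]
    congr 1
    funext i
    rw [hI i i.2.le]
    rfl
  have hF : F1 C Z o = val i0 q.2 q.1.1 q.1.2 o := by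
    cases o with
    | some l =>
      change (polyU (C.X Z.1)).coeff l = (polyU (Function.update q.1.1 i0 q.2)).coeff l
      rw [hX]
    | none =>
      change C.s Z.1 - Z.2 = q.1.2
      unfold Chart.s
      rw [hX, hI g le_rfl]
      change J g q.2 + S C.β i0 q.1.1 g - (J g q.2 + S C.β i0 q.1.1 g - q.1.2) = q.1.2
      ring
  rw [← hF]
  exact h2 o

theorem lam_le_g {g k i : ℕ} (hi : i ≤ g) : ‖lam g k i‖ ≤ ‖lamv g k‖ := by
  unfold lamv
  rcases hi.lt_or_eq with h | h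
  · refine le_trans ?_ (norm_fst_le _)
    exact norm_le_pi_norm (fun i : Fin g => lam g k i) ⟨i, h⟩
  · subst h
    exact norm_snd_le ((fun j : Fin i => lam i k j : Fin i → ℂ), lam i k i)

theorem half_frequently (p : ℂ → Prop) (h : ∀ v : ℝ, 0 < v → v < 1 → p v) :
    ∃ᶠ v in 𝓝[≠] ((1 / 2 : ℝ) : ℂ), p v := by
  have ht : Tendsto (fun v : ℝ => (v : ℂ)) (𝓝[≠] (1 / 2 : ℝ)) (𝓝[≠] ((1 / 2 : ℝ) : ℂ)) := by
    apply tendsto_nhdsWithin_of_tendsto_nhds_of_eventually_within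
    · exact (Complex.continuous_ofReal.tendsto _).mono_left nhdsWithin_le_nhds
    · filter_upwards [self_mem_nhdsWithin] with v hv
      intro h'
      exact hv (Complex.ofReal_injective h')
  have he : ∀ᶠ v : ℝ in 𝓝[≠] (1 / 2 : ℝ), p v := by
    have : Set.Ioo (0 : ℝ) 1 ∈ 𝓝 (1 / 2 : ℝ) := Ioo_mem_nhds (by norm_num) (by norm_num)
    filter_upwards [mem_nhdsWithin_of_mem_nhds this] with v hv
    exact h v hv.1 hv.2
  exact ht.frequently he.frequently

theorem Zof_congr {s t t' : ℕ → ℂ} {σ : ℂ} (h : ∀ i ≤ g, t i = t' i) :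
    (Zof s t σ : (Fin g → ℂ) × ℂ) = Zof s t' σ := by
  unfold Zof
  rw [h g le_rfl]
  congr 1
  funext i
  rw [h i i.2.le]

theorem P_congr {R : ℝ} {F : (Fin g → ℂ) × ℂ → Option (Fin g) → ℂ} {r : Rep F R} {i0 : Fin g}
    {s t t' : ℕ → ℂ} {x1 x1' : ℂ} {x : Fin g → ℂ} {σ : ℂ} (h : ∀ i ≤ g, t i = t' i)
    (hx : x1 = x1') (hP : P r i0 s t x1 x σ) : P r i0 s t' x1' x σ := by
  subst hx
  intro o
  have h1 := hP o
  rw [Zof_congr h] at h1
  exact h1

/-- continuation along the three discs -/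
theorem discs (hg : 0 < g) {F : (Fin g → ℂ) × ℂ → Option (Fin g) → ℂ} {R : ℝ} (r : Rep F R)
    (i0 : Fin g) (s : ℕ → ℂ) (x : Fin g → ℂ) (σ : ℂ) (hs : ∀ i ≤ g, ‖s i‖ ≤ 1) (hσ : ‖σ‖ ≤ 1)
    (J : ℕ → ℂ → ℂ) (K : ℕ → ℕ → ℂ → ℂ) (M : ℝ) (hM : 0 ≤ M)
    (hJ : ∀ i ≤ g, ∀ x ∈ ball (0 : ℂ) 1, DifferentiableAt ℂ (J i) x ∧ ‖J i x‖ ≤ M)
    (hK : ∀ k, ∀ i ≤ g, ∀ v ∈ ball (0 : ℂ) 1, DifferentiableAt ℂ (K k i) v ∧ ‖K k i v‖ ≤ M ∧
      K k i (-v) = -K k i v)
    (hJK : ∀ k, ∀ i ≤ g, ∀ v : ℝ, 0 < v → v < 1 →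
      J i (aRoot g k * (((1 - v ^ 2) ^ (1 / (2 * g + 1) : ℝ) : ℝ) : ℂ)) =
        K k i v + lam g k i / 2)
    (k : ℕ) (hR : M + ‖lamv g k‖ + 2 < R)
    (h0 : ∀ᶠ x1 in 𝓝 (0 : ℂ), P r i0 s (fun i => J i x1) x1 x σ) :
    ∀ x1 ∈ ball (0 : ℂ) 1, P r i0 s (fun i => lam g k i - J i x1) x1 x σ := by
  have hL : 0 ≤ ‖lamv g k‖ := norm_nonneg _
  have ha := aRoot_norm g k
  have hm : (0 : ℝ) < 2 * g + 1 := by positivity
  -- step 1: the upper disc
  have h1 : ∀ x1 ∈ ball (0 : ℂ) 1, P r i0 s (fun i => J i x1) x1 x σ := by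
    refine ident r i0 s x σ (fun x1 i => J i x1) (fun x1 => x1) ?_ differentiableOn_id ?_ 0
      (mem_ball_self one_pos) ?_
    · intro i hi x1 hx1
      exact (hJ i hi x1 hx1).1.differentiableWithinAt
    · intro v hv
      exact Zof_mem (M := M) hM (by linarith) hs (fun i hi => (hJ i hi v hv).2) hσ
    · exact (h0.filter_mono nhdsWithin_le_nhds).frequently
  -- the real points of the parameter disc
  have hreal : ∀ v : ℝ, 0 < v → v < 1 → (0 : ℝ) < (1 - v ^ 2) ^ (1 / (2 * g + 1) : ℝ) ∧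
      ((1 - v ^ 2) ^ (1 / (2 * g + 1) : ℝ) : ℝ) < 1 := by
    intro v hv0 hv1
    have h2 : 0 < 1 - v ^ 2 := by nlinarith
    exact ⟨Real.rpow_pos_of_pos h2 _, Real.rpow_lt_one h2.le (by nlinarith) (by positivity)⟩
  have hcast : ∀ v : ℝ, 0 < 1 - v ^ 2 →
      (((1 - v ^ 2) ^ (1 / (2 * g + 1) : ℝ) : ℝ) : ℂ) =
        (1 - (v : ℂ) ^ 2) ^ (1 / (2 * g + 1) : ℂ) := by
    intro v hv
    rw [Complex.ofReal_cpow hv.le]
    push_cast
    rfl
  -- step 2: the disc around the branch point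
  have h2 : ∀ v ∈ ball (0 : ℂ) 1, P r i0 s (fun i => K k i v + lam g k i / 2)
      (aRoot g k * (1 - v ^ 2) ^ (1 / (2 * g + 1) : ℂ)) x σ := by
    refine ident r i0 s x σ (fun v i => K k i v + lam g k i / 2)
      (fun v => aRoot g k * (1 - v ^ 2) ^ (1 / (2 * g + 1) : ℂ)) ?_ ?_ ?_ ((1 / 2 : ℝ) : ℂ) ?_ ?_
    · intro i hi v hv
      exact ((hK k i hi v hv).1.add_const _).differentiableWithinAt
    · intro v hv
      apply DifferentiableAt.differentiableWithinAt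
      apply DifferentiableAt.const_mul
      apply DifferentiableAt.cpow
      · fun_prop
      · fun_prop
      · left
        have h3 : ‖v ^ 2‖ < 1 := by
          rw [norm_pow]
          have : ‖v‖ < 1 := mem_ball_zero_iff.mp hv
          exact pow_lt_one₀ (norm_nonneg _) this (by norm_num)
        have h4 : (v ^ 2).re ≤ ‖v ^ 2‖ := Complex.re_le_norm _
        rw [Complex.sub_re, Complex.one_re]
        linarith
    · intro v hv
      refine Zof_mem (M := M + ‖lamv g k‖) (by linarith) (by linarith) hs (fun i hi => ?_) hσ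
      calc ‖K k i v + lam g k i / 2‖ ≤ ‖K k i v‖ + ‖lam g k i / 2‖ := norm_add_le _ _
        _ ≤ M + ‖lamv g k‖ := by
          have h5 := (hK k i hi v hv).2.1
          have h6 := lam_le_g (k := k) hi
          rw [norm_div, Complex.norm_two]
          linarith
    · rw [mem_ball_zero_iff, Complex.norm_real]
      norm_num
    · apply half_frequently
      intro v hv0 hv1
      obtain ⟨hp0, hp1⟩ := hreal v hv0 hv1
      have h7 : aRoot g k * (((1 - v ^ 2) ^ (1 / (2 * g + 1) : ℝ) : ℝ) : ℂ) ∈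
          ball (0 : ℂ) 1 := by
        rw [mem_ball_zero_iff, norm_mul, ha, one_mul, Complex.norm_real,
          Real.norm_of_nonneg hp0.le]
        exact hp1
      have h8 := h1 _ h7
      exact P_congr (fun i hi => hJK k i hi v hv0 hv1) (by rw [hcast v (by nlinarith)]) h8
  -- step 3: the lower disc
  have h3 : ∀ v ∈ ball (0 : ℂ) 1, P r i0 s (fun i => lam g k i - J i (aRoot g k * v))
      (aRoot g k * v) x σ := by
    have hball : ∀ v ∈ ball (0 : ℂ) 1, aRoot g k * v ∈ ball (0 : ℂ) 1 := by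
      intro v hv
      rw [mem_ball_zero_iff, norm_mul, ha, one_mul]
      exact mem_ball_zero_iff.mp hv
    refine ident r i0 s x σ (fun v i => lam g k i - J i (aRoot g k * v))
      (fun v => aRoot g k * v) ?_ ?_ ?_ ((1 / 2 : ℝ) : ℂ) ?_ ?_
    · intro i hi v hv
      apply DifferentiableAt.differentiableWithinAt
      apply DifferentiableAt.const_sub
      exact DifferentiableAt.comp v (hJ i hi _ (hball v hv)).1 (by fun_prop)
    · fun_prop
    · intro v hv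
      refine Zof_mem (M := M + ‖lamv g k‖) (by linarith) (by linarith) hs (fun i hi => ?_) hσ
      calc ‖lam g k i - J i (aRoot g k * v)‖ ≤ ‖lam g k i‖ + ‖J i (aRoot g k * v)‖ :=
            norm_sub_le _ _
        _ ≤ M + ‖lamv g k‖ := by
          have h5 := (hJ i hi _ (hball v hv)).2
          have h6 := lam_le_g (k := k) hi
          linarith
    · rw [mem_ball_zero_iff, Complex.norm_real]
      norm_num
    · apply half_frequently
      intro ρ hρ0 hρ1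
      -- the real parameter
      have hρm0 : 0 < ρ ^ (2 * g + 1) := pow_pos hρ0 _
      have hρm1 : ρ ^ (2 * g + 1) < 1 := pow_lt_one₀ hρ0.le hρ1 (by omega)
      set w : ℝ := Real.sqrt (1 - ρ ^ (2 * g + 1)) with hw
      have hw2 : w ^ 2 = 1 - ρ ^ (2 * g + 1) := Real.sq_sqrt (by linarith)
      have hw0 : 0 < w := Real.sqrt_pos.mpr (by linarith)
      have hw1 : w < 1 := by nlinarith
      have hroot : (1 - w ^ 2) ^ (1 / (2 * g + 1) : ℝ) = ρ := by
        rw [hw2, sub_sub_cancel, one_div]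
        have := Real.pow_rpow_inv_natCast hρ0.le (n := 2 * g + 1) (by omega)
        push_cast at this
        exact this
      have hwb : (w : ℂ) ∈ ball (0 : ℂ) 1 := by
        rw [mem_ball_zero_iff, Complex.norm_real, Real.norm_of_nonneg hw0.le]
        exact hw1
      have hwb' : (-(w : ℂ)) ∈ ball (0 : ℂ) 1 := by
        rw [mem_ball_zero_iff, norm_neg]
        exact mem_ball_zero_iff.mp hwb
      refine P_congr (fun i hi => ?_) ?_ (h2 _ hwb')
      · rw [(hK k i hi _ hwb).2.2]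
        have h7 := hJK k i hi w hw0 hw1
        rw [hroot] at h7
        rw [h7]
        ring
      · rw [neg_sq]
        rw [← hcast w (by nlinarith), hroot]
  intro x1 hx1
  have hane : aRoot g k ≠ 0 := by
    intro h
    rw [h, norm_zero] at ha
    exact zero_ne_one ha
  have h4 : (aRoot g k)⁻¹ * x1 ∈ ball (0 : ℂ) 1 := by
    rw [mem_ball_zero_iff, norm_mul, norm_inv, ha, inv_one, one_mul]
    exact mem_ball_zero_iff.mp hx1
  have h5 := h3 _ h4
  have h6 : aRoot g k * ((aRoot g k)⁻¹ * x1) = x1 := mul_inv_cancel_left₀ hane x1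
  rw [h6] at h5
  exact h5

/-- change the sign of a branch -/
def signBranch {f : ℂ[X]} {b c : ℂ} (ε : ℂ) (hε : ε * ε = 1) (β : Branch f b c) :
    Branch f b (ε * c) where
  r := β.r
  rpos := β.rpos
  y := fun x => ε * β.y x
  I := fun i x => ε * β.I i x
  y_b := by rw [β.y_b]
  y_diff := β.y_diff.const_mul ε
  y_sq := by
    intro x hx
    rw [mul_pow, β.y_sq x hx, pow_two, hε, one_mul]
  y_ne := by
    intro x hx
    have hε0 : ε ≠ 0 := by
      rintro rfl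
      rw [zero_mul] at hε
      exact zero_ne_one hε
    exact mul_ne_zero hε0 (β.y_ne x hx)
  I_b := by
    intro i
    rw [β.I_b, mul_zero]
  I_deriv := by
    intro i x hx
    have h := (β.I_deriv i x hx).const_mul ε
    have hε0 : ε ≠ 0 := by
      rintro rfl
      rw [zero_mul] at hε
      exact zero_ne_one hε
    have h2 : x ^ i / (ε * β.y x) = ε * (x ^ i / β.y x) := by
      have h3 : ε⁻¹ = ε := inv_eq_of_mul_eq_one_right hε
      rw [div_eq_mul_inv, mul_inv, h3]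
      ring
    rw [h2]
    exact h

theorem branch_eq' {m : ℕ} (hm : 0 < m) {b c : ℂ} (hb : b = 0) (hc : c = 1)
    (β : Branch (Polynomial.X ^ m + 1 : ℂ[X]) b c) (i : ℕ)
    (J : ℂ → ℂ) (hJ0 : J 0 = 0)
    (hJ : ∀ x ∈ ball (0 : ℂ) 1, HasDerivAt J (x ^ i * (1 + x ^ m) ^ (-(1 / 2) : ℂ)) x) :
    ∀ᶠ x in 𝓝 (0 : ℂ), β.I i x = J x := by
  subst hb hc
  exact branch_eq hm β i J hJ0 hJ

/-- the last step: from the relation at both half periods to the period -/
theorem final {F : (Fin g → ℂ) × ℂ → Option (Fin g) → ℂ} {R : ℝ} (r : Rep F R)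
    (l l' : (Fin g → ℂ) × ℂ) (hl : ‖l‖ + ‖l'‖ < R)
    (h : ∀ᶠ ζ in 𝓝 (0 : (Fin g → ℂ) × ℂ), ∀ o,
      r.G o (l + ζ) * r.G0 (l' + ζ) = r.G o (l' + ζ) * r.G0 (l + ζ)) :
    IsPer F (l - l') := by
  have hn := norm_nonneg l
  have hn' := norm_nonneg l'
  refine ⟨R, lt_of_le_of_lt (norm_sub_le _ _) hl, r, ?_⟩
  set D : Set ((Fin g → ℂ) × ℂ) := ball (-l) R ∩ ball (-l') R with hD
  have hDm : ∀ ζ ∈ D, l + ζ ∈ ball (0 : (Fin g → ℂ) × ℂ) R ∧
      l' + ζ ∈ ball (0 : (Fin g → ℂ) × ℂ) R := by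
    intro ζ hζ
    constructor
    · have := hζ.1
      rw [mem_ball, dist_eq_norm, sub_neg_eq_add] at this
      rwa [mem_ball_zero_iff, add_comm]
    · have := hζ.2
      rw [mem_ball, dist_eq_norm, sub_neg_eq_add] at this
      rwa [mem_ball_zero_iff, add_comm]
  have hDc : IsPreconnected D := ((convex_ball _ _).inter (convex_ball _ _)).isPreconnected
  have hDo : IsOpen D := isOpen_ball.inter isOpen_ball
  have h0D : (0 : (Fin g → ℂ) × ℂ) ∈ D := by
    constructor <;> rw [mem_ball, dist_eq_norm, sub_neg_eq_add, zero_add] <;> linarith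
  have hlD : -l' ∈ D := by
    constructor
    · rw [mem_ball, dist_eq_norm, sub_neg_eq_add]
      refine lt_of_le_of_lt (norm_add_le _ _) ?_
      rw [norm_neg]
      linarith
    · exact mem_ball_self (by linarith)
  have hshift : ∀ a : (Fin g → ℂ) × ℂ, AnalyticOnNhd ℂ (fun ζ => a + ζ) D := by
    intro a
    exact analyticOnNhd_const.add analyticOnNhd_id
  have key : ∀ o, ∀ ζ ∈ D,
      r.G o (l + ζ) * r.G0 (l' + ζ) = r.G o (l' + ζ) * r.G0 (l + ζ) := by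
    intro o
    have h1 : AnalyticOnNhd ℂ (fun ζ => r.G o (l + ζ) * r.G0 (l' + ζ)) D :=
      ((r.an o).comp (hshift l) fun ζ hζ => (hDm ζ hζ).1).mul
        (r.an0.comp (hshift l') fun ζ hζ => (hDm ζ hζ).2)
    have h2 : AnalyticOnNhd ℂ (fun ζ => r.G o (l' + ζ) * r.G0 (l + ζ)) D :=
      ((r.an o).comp (hshift l') fun ζ hζ => (hDm ζ hζ).2).mul
        (r.an0.comp (hshift l) fun ζ hζ => (hDm ζ hζ).1)
    exact h1.eqOn_of_preconnected_of_eventuallyEq h2 hDc h0D (h.mono fun ζ hζ => hζ o)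
  have e1 : ∀ᶠ w in 𝓝 (0 : (Fin g → ℂ) × ℂ), -l' + w ∈ D := by
    have : Tendsto (fun w : (Fin g → ℂ) × ℂ => -l' + w) (𝓝 0) (𝓝 (-l')) := by
      have := (continuous_const_add (-l')).tendsto (0 : (Fin g → ℂ) × ℂ)
      simpa using this
    exact this.eventually (hDo.mem_nhds hlD)
  have e2 : ∀ᶠ w in 𝓝 (0 : (Fin g → ℂ) × ℂ), r.G0 w ≠ 0 :=
    (r.an0 0 (mem_ball_self (by linarith))).continuousAt.eventually_ne r.ne
  filter_upwards [e1, e2, r.eq] with w hw1 hw2 hw3 o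
  have h3 := key o (-l' + w) hw1
  have h4 : l + (-l' + w) = l - l' + w := by abel
  have h5 : l' + (-l' + w) = w := by abel
  rw [h4, h5, hw3 o] at h3
  have h6 : r.G o (l - l' + w) * r.G0 w = (F w o * r.G0 (l - l' + w)) * r.G0 w := by
    rw [h3]; ring
  exact mul_right_cancel₀ hw2 h6

theorem thm_CONT (hSheets : Stmt_Sheets) (hChart : Stmt_Chart) : Stmt_Cont := by
  intro g hg b c hb hc hinj C hG k k'
  obtain ⟨J, K, M, hJ, hK, hJK⟩ := hSheets g hg
  set i0 : Fin g := ⟨0, hg⟩ with hi0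
  have hM : 0 ≤ M :=
    le_trans (norm_nonneg _) ((hJ 0 (Nat.zero_le g)).2 0 (mem_ball_self one_pos)).2
  have hL := norm_nonneg (lamv g k)
  have hL' := norm_nonneg (lamv g k')
  set R : ℝ := M + ‖lamv g k‖ + ‖lamv g k'‖ + 3 with hR
  obtain ⟨C0, ρ, _, _, hG⟩ := hG
  obtain ⟨r, -⟩ := hG R (by linarith)
  have hJI : ∀ i ≤ g, ∀ᶠ x in 𝓝 (0 : ℂ), (C.β i0).I i x = J i x := by
    intro i hi
    exact branch_eq' (by omega) hb hc (C.β i0) i (J i) (hJ i hi).1
      fun x hx => ((hJ i hi).2 x hx).1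
  have hJc : ∀ i ≤ g, ContinuousAt (J i) 0 := fun i hi =>
    ((hJ i hi).2 0 (mem_ball_self one_pos)).1.continuousAt
  have hJ0 : ∀ i ≤ g, J i 0 = 0 := fun i hi => (hJ i hi).1
  -- good parameters
  have hgood : ∀ᶠ q : (Fin g → ℂ) × ℂ in 𝓝 (b, 0),
      (∀ i ∈ Finset.range (g + 1), ‖S C.β i0 q.1 i‖ ≤ 1) ∧ ‖q.2‖ ≤ 1 ∧
      ∀ᶠ x1 in 𝓝 (0 : ℂ), P r i0 (S C.β i0 q.1) (fun i => J i x1) x1 q.1 q.2 := by
    have h1 : ∀ᶠ q : (Fin g → ℂ) × ℂ in 𝓝 (b, 0),
        ∀ i ∈ Finset.range (g + 1), ‖S C.β i0 q.1 i‖ ≤ 1 := by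
      rw [Finset.eventually_all]
      intro i _
      have h2 : Tendsto (fun q : (Fin g → ℂ) × ℂ => S C.β i0 q.1 i) (𝓝 (b, 0)) (𝓝 0) :=
        (S_tendsto C.β i0 i).comp (continuous_fst.tendsto _)
      filter_upwards [h2.eventually (closedBall_mem_nhds 0 one_pos)] with q hq
      exact mem_closedBall_zero_iff.mp hq
    have h3 : ∀ᶠ q : (Fin g → ℂ) × ℂ in 𝓝 (b, 0), ‖q.2‖ ≤ 1 := by
      have h2 : Tendsto (fun q : (Fin g → ℂ) × ℂ => q.2) (𝓝 (b, 0)) (𝓝 0) :=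
        continuous_snd.tendsto _
      filter_upwards [h2.eventually (closedBall_mem_nhds 0 one_pos)] with q hq
      exact mem_closedBall_zero_iff.mp hq
    have h4 := (step0 i0 hb C r J hJ0 hJI hJc).curry_nhds
    exact h1.and (h3.and h4)
  -- the other branch at the first point
  set ε : Fin g → ℂ := fun j => if j = i0 then -1 else 1 with hε
  have hεε : ∀ j, ε j * ε j = 1 := by
    intro j
    simp only [hε]
    split_ifs <;> norm_num
  obtain ⟨C', hC'⟩ := hChart g (Polynomial.X ^ (2 * g + 1) + 1) b (fun j => ε j * c j) hinj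
    (fun j => signBranch (ε j) (hεε j) (C.β j))
  have hright : ∀ᶠ z in 𝓝 (0 : Fin g → ℂ), ∀ i : Fin g,
      -(C.β i0).I i (C'.X z i0) + S C.β i0 (C'.X z) i = z i := by
    filter_upwards [C'.right] with z hz i
    have h1 := hz i
    rw [hC'] at h1
    have h2 : ∑ j, (signBranch (ε j) (hεε j) (C.β j)).I i (C'.X z j) =
        ∑ j, ε j * (C.β j).I i (C'.X z j) := rfl
    rw [h2, ← Finset.add_sum_erase Finset.univ _ (Finset.mem_univ i0)] at h1
    have h3 : ε i0 = -1 := by simp [hε]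
    have h4 : ∑ j ∈ Finset.univ.erase i0, ε j * (C.β j).I i (C'.X z j) =
        S C.β i0 (C'.X z) i := by
      unfold S
      apply Finset.sum_congr rfl
      intro j hj
      have : ε j = 1 := by
        simp only [hε]
        rw [if_neg (Finset.ne_of_mem_erase hj)]
      rw [this, one_mul]
    rw [h3, h4] at h1
    rw [← h1]
    ring
  have hXt : Tendsto (fun ζ : (Fin g → ℂ) × ℂ => C'.X ζ.1) (𝓝 0) (𝓝 b) := by
    have h1 : Tendsto C'.X (𝓝 0) (𝓝 b) := by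
      have := C'.an.continuousAt.tendsto
      rwa [C'.X0] at this
    exact h1.comp (continuous_fst.tendsto _)
  have hx1t : Tendsto (fun ζ : (Fin g → ℂ) × ℂ => C'.X ζ.1 i0) (𝓝 0) (𝓝 0) := by
    have h1 := ((continuous_apply i0).tendsto b).comp hXt
    rw [hb] at h1
    exact h1
  have hTt : Tendsto (fun ζ : (Fin g → ℂ) × ℂ =>
      (C'.X ζ.1, -J g (C'.X ζ.1 i0) + S C.β i0 (C'.X ζ.1) g - ζ.2)) (𝓝 0) (𝓝 (b, 0)) := by
    apply hXt.prodMk_nhds
    have h1 : Tendsto (fun ζ : (Fin g → ℂ) × ℂ => J g (C'.X ζ.1 i0)) (𝓝 0) (𝓝 0) := by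
      have := (hJc g le_rfl).tendsto.comp hx1t
      rw [hJ0 g le_rfl] at this
      exact this
    have h2 : Tendsto (fun ζ : (Fin g → ℂ) × ℂ => S C.β i0 (C'.X ζ.1) g) (𝓝 0) (𝓝 0) :=
      (S_tendsto C.β i0 g).comp hXt
    have h3 : Tendsto (fun ζ : (Fin g → ℂ) × ℂ => ζ.2) (𝓝 0) (𝓝 0) := continuous_snd.tendsto _
    simpa using (h1.neg.add h2).sub h3
  apply final r (lamv g k) (lamv g k') (by linarith)
  have e1 := hTt.eventually hgood
  have e2 : ∀ᶠ ζ in 𝓝 (0 : (Fin g → ℂ) × ℂ), ∀ i ∈ Finset.range (g + 1),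
      (C.β i0).I i (C'.X ζ.1 i0) = J i (C'.X ζ.1 i0) := by
    rw [Finset.eventually_all]
    intro i hi
    exact hx1t.eventually (hJI i (Nat.lt_succ_iff.mp (Finset.mem_range.mp hi)))
  have e3 : ∀ᶠ ζ in 𝓝 (0 : (Fin g → ℂ) × ℂ), C'.X ζ.1 i0 ∈ ball (0 : ℂ) 1 :=
    hx1t.eventually (ball_mem_nhds 0 one_pos)
  have e4 : ∀ᶠ ζ in 𝓝 (0 : (Fin g → ℂ) × ℂ), ∀ i : Fin g,
      -(C.β i0).I i (C'.X ζ.1 i0) + S C.β i0 (C'.X ζ.1) i = ζ.1 i :=
    (continuous_fst.tendsto (0 : (Fin g → ℂ) × ℂ)).eventually hright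
  filter_upwards [e1, e2, e3, e4] with ζ h1 h2 h3 h4 o
  obtain ⟨hs, hσ, hP⟩ := h1
  set x := C'.X ζ.1 with hx
  set σ := -J g (x i0) + S C.β i0 x g - ζ.2 with hσd
  have hs' : ∀ i ≤ g, ‖S C.β i0 x i‖ ≤ 1 := fun i hi =>
    hs i (Finset.mem_range.mpr (Nat.lt_succ_of_le hi))
  have hZ : ∀ κ, (Zof (S C.β i0 x) (fun i => lam g κ i - J i (x i0)) σ : (Fin g → ℂ) × ℂ) =
      lamv g κ + ζ := by
    intro κ
    unfold Zof lamv
    ext i
    · have h5 := h4 i
      rw [h2 i (Finset.mem_range.mpr (by omega))] at h5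
      simp only [Prod.fst_add, Pi.add_apply]
      rw [← h5]
      ring
    · simp only [Prod.snd_add]
      rw [hσd]
      ring
  have hd : ∀ κ, M + ‖lamv g κ‖ + 2 < R → r.G o (lamv g κ + ζ) =
      val i0 (x i0) x σ o * r.G0 (lamv g κ + ζ) := by
    intro κ hκ
    have h5 := discs hg r i0 (S C.β i0 x) x σ hs' hσ J K M hM
      (fun i hi x hx => ⟨((hJ i hi).2 x hx).1.differentiableAt, ((hJ i hi).2 x hx).2⟩)
      (fun κ i hi v hv => ⟨((hK κ i hi).2 v hv).1.differentiableAt, ((hK κ i hi).2 v hv).2⟩)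
      hJK κ hκ hP (x i0) h3 o
    rw [hZ κ] at h5
    exact h5
  rw [hd k (by linarith), hd k' (by linarith)]
  ring

end

end Pool.Agent.FDR.CONT
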