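import Pool.Agent.FDR.Stmts2
import Pool.Agent.FDR.CONT

/-!
# FDR: CONT2, analytic continuation along two discs gives the periods of
`y ^ 2 = x ^ (2 g + 1) + x`
-/

open scoped BigOperators Polynomial Topology
open Metric Filter

namespace Pool.Agent.FDR.CONT2

open Pool.Agent.FDR.CONT (Zof val P ident Zof_mem Zof_congr P_congr S I_cont S_tendsto
  sum_update Zof_tendsto half_frequently)

noncomputable section

variable {g : ℕ}

theorem aRoot2_norm (g k : ℕ) : ‖aRoot2 g k‖ = 1 := by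
  have h : Complex.I * Real.pi * (2 * k + 1) / (4 * g) =
      ((Real.pi * (2 * k + 1) / (4 * g) : ℝ) : ℂ) * Complex.I := by
    push_cast
    ring
  unfold aRoot2
  rw [h, Complex.norm_exp_ofReal_mul_I]

/-- the relation near the base point, in a general coordinate at the moving point -/
theorem step0 {f : ℂ[X]} {b c : Fin g → ℂ} (i0 : Fin g) (C : Chart g f b c)
    {R : ℝ} (r : Rep (F1 C) R) (T : ℕ → ℂ → ℂ) (ξ : ℂ → ℂ) (s0 : ℂ) (hξ0 : ξ s0 = b i0)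
    (hξ : Continuous ξ) (hT0 : ∀ i ≤ g, T i s0 = 0)
    (hT : ∀ i ≤ g, ∀ᶠ s in 𝓝 s0, (C.β i0).I i (ξ s) = T i s)
    (hTc : ∀ i ≤ g, ContinuousAt (T i) s0) :
    ∀ᶠ q : ((Fin g → ℂ) × ℂ) × ℂ in 𝓝 ((b, 0), s0),
      P r i0 (S C.β i0 q.1.1) (fun i => T i q.2) (ξ q.2) q.1.1 q.1.2 := by
  have hf1 : Tendsto (fun q : ((Fin g → ℂ) × ℂ) × ℂ => q.1.1) (𝓝 ((b, 0), s0)) (𝓝 b) :=
    (continuous_fst.fst).tendsto _
  have hf2 : Tendsto (fun q : ((Fin g → ℂ) × ℂ) × ℂ => q.1.2) (𝓝 ((b, 0), s0)) (𝓝 0) :=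
    (continuous_fst.snd).tendsto _
  have hf3 : Tendsto (fun q : ((Fin g → ℂ) × ℂ) × ℂ => q.2) (𝓝 ((b, 0), s0)) (𝓝 s0) :=
    (continuous_snd).tendsto _
  have hup : Tendsto (fun q : ((Fin g → ℂ) × ℂ) × ℂ => Function.update q.1.1 i0 (ξ q.2))
      (𝓝 ((b, 0), s0)) (𝓝 b) := by
    have h : Continuous (fun q : ((Fin g → ℂ) × ℂ) × ℂ => Function.update q.1.1 i0 (ξ q.2)) :=
      (continuous_fst.fst).update i0 (hξ.comp continuous_snd)
    have h' := h.tendsto ((b, 0), s0)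
    have hbb : Function.update b i0 (ξ s0) = b := by
      rw [hξ0, Function.update_eq_self]
    simpa [hbb] using h'
  have e1 := hup.eventually C.left
  have hZt : Tendsto (fun q : ((Fin g → ℂ) × ℂ) × ℂ =>
      (Zof (S C.β i0 q.1.1) (fun i => T i q.2) q.1.2 : (Fin g → ℂ) × ℂ))
      (𝓝 ((b, 0), s0)) (𝓝 0) := by
    apply Zof_tendsto
    · intro i _
      exact (S_tendsto C.β i0 i).comp hf1
    · intro i hi
      have := (hTc i hi).tendsto.comp hf3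
      rw [hT0 i hi] at this
      exact this
    · exact hf2
  have e2 := hZt.eventually r.eq
  have e3 : ∀ᶠ q : ((Fin g → ℂ) × ℂ) × ℂ in 𝓝 ((b, 0), s0), ∀ i ∈ Finset.range (g + 1),
      (C.β i0).I i (ξ q.2) = T i q.2 := by
    rw [Finset.eventually_all]
    intro i hi
    exact hf3.eventually (hT i (Nat.lt_succ_iff.mp (Finset.mem_range.mp hi)))
  filter_upwards [e1, e2, e3] with q h1 h2 h3 o
  set Z : (Fin g → ℂ) × ℂ := Zof (S C.β i0 q.1.1) (fun i => T i q.2) q.1.2 with hZ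
  have hI : ∀ i ≤ g, ∑ k, (C.β k).I i (Function.update q.1.1 i0 (ξ q.2) k) =
      T i q.2 + S C.β i0 q.1.1 i := by
    intro i hi
    rw [sum_update, h3 i (Finset.mem_range.mpr (Nat.lt_succ_of_le hi))]
  have hX : C.X Z.1 = Function.update q.1.1 i0 (ξ q.2) := by
    rw [← h1]
    congr 1
    funext i
    rw [hI i i.2.le]
    rfl
  have hF : F1 C Z o = val i0 (ξ q.2) q.1.1 q.1.2 o := by
    cases o with
    | some l =>
      change (polyU (C.X Z.1)).coeff l = (polyU (Function.update q.1.1 i0 (ξ q.2))).coeff l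
      rw [hX]
    | none =>
      change C.s Z.1 - Z.2 = q.1.2
      unfold Chart.s
      rw [hX, hI g le_rfl]
      change T g q.2 + S C.β i0 q.1.1 g - (T g q.2 + S C.β i0 q.1.1 g - q.1.2) = q.1.2
      ring
  rw [← hF]
  exact h2 o

/-- the local branch near `x = 1 / 4` agrees with the global one in the coordinate `s` -/
theorem branch_eq {b c : ℂ} (hb : b = 1 / 4)
    (hc : c = (Real.sqrt ((1 / 4) ^ (2 * g + 1) + 1 / 4) : ℂ))
    (β : Branch (Polynomial.X ^ (2 * g + 1) + Polynomial.X : ℂ[X]) b c) (i : ℕ)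
    (J : ℂ → ℂ)
    (hJ : ∀ s ∈ ball (0 : ℂ) 1,
      HasDerivAt J (2 * s ^ (2 * i) * (1 + s ^ (4 * g)) ^ (-(1 / 2) : ℂ)) s) :
    ∀ᶠ s in 𝓝 (1 / 2 : ℂ), β.I i (s ^ 2) = J s - J (1 / 2) := by
  have hsq : ((1 / 2 : ℂ)) ^ 2 = b := by rw [hb]; norm_num
  have hst : Tendsto (fun s : ℂ => s ^ 2) (𝓝 (1 / 2)) (𝓝 b) := by
    have h : Continuous (fun s : ℂ => s ^ 2) := by fun_prop
    have h' := h.tendsto (1 / 2)
    rwa [hsq] at h'
  have hyc : ContinuousAt β.y b :=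
    (β.y_diff.differentiableAt (ball_mem_nhds _ β.rpos)).continuousAt
  have hy : Tendsto (fun s : ℂ => β.y (s ^ 2)) (𝓝 (1 / 2)) (𝓝 c) := by
    have h := hyc.tendsto.comp hst
    rwa [β.y_b] at h
  have hreal : (1 : ℂ) + (1 / 2) ^ (4 * g) = ((1 + (1 / 2) ^ (4 * g) : ℝ) : ℂ) := by
    push_cast; rfl
  have hpos : (0 : ℝ) < 1 + (1 / 2) ^ (4 * g) := by positivity
  have hslit : (1 : ℂ) + (1 / 2) ^ (4 * g) ∈ Complex.slitPlane := by
    rw [hreal]
    exact Complex.ofReal_mem_slitPlane.mpr hpos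
  have hcp : ContinuousAt (fun s : ℂ => (1 + s ^ (4 * g)) ^ (-(1 / 2) : ℂ)) (1 / 2) := by
    apply ContinuousAt.cpow
    · fun_prop
    · fun_prop
    · exact hslit
  have hinv : ContinuousAt (fun s : ℂ => s⁻¹) (1 / 2) :=
    continuousAt_inv₀ (by norm_num)
  have hval : c * (1 + (1 / 2) ^ (4 * g)) ^ (-(1 / 2) : ℂ) * (1 / 2)⁻¹ = 1 := by
    have h1 : (1 + (1 / 2) ^ (4 * g) : ℂ) ^ (-(1 / 2) : ℂ) =
        (((1 + (1 / 2) ^ (4 * g) : ℝ) ^ (-(1 / 2) : ℝ) : ℝ) : ℂ) := by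
      rw [hreal, Complex.ofReal_cpow hpos.le]
      push_cast
      rfl
    rw [h1, hc]
    have h2 : Real.sqrt ((1 / 4) ^ (2 * g + 1) + 1 / 4) * (1 + (1 / 2) ^ (4 * g)) ^ (-(1 / 2) : ℝ)
        * (1 / 2)⁻¹ = 1 := by
      have h3 : ((1 / 4 : ℝ)) ^ (2 * g + 1) + 1 / 4 = (1 / 2) ^ 2 * (1 + (1 / 2) ^ (4 * g)) := by
        have h4 : (1 / 4 : ℝ) = (1 / 2) ^ 2 := by norm_num
        rw [h4, ← pow_mul]
        ring
      rw [h3, Real.sqrt_mul (by positivity), Real.sqrt_sq (by norm_num), Real.sqrt_eq_rpow,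
        mul_assoc (1 / 2 : ℝ), ← Real.rpow_add hpos]
      norm_num
    have h5 := congrArg (fun t : ℝ => (t : ℂ)) h2
    simp only [Complex.ofReal_mul, Complex.ofReal_one] at h5
    have h6 : (((1 / 2 : ℝ)⁻¹ : ℝ) : ℂ) = (1 / 2 : ℂ)⁻¹ := by push_cast; rfl
    rw [h6] at h5
    exact h5
  have hu : Tendsto (fun s : ℂ => β.y (s ^ 2) * (1 + s ^ (4 * g)) ^ (-(1 / 2) : ℂ) * s⁻¹)
      (𝓝 (1 / 2)) (𝓝 1) := by
    have h := (hy.mul hcp.tendsto).mul hinv.tendsto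
    rwa [hval] at h
  have hne : ∀ᶠ s in 𝓝 (1 / 2 : ℂ), (1 : ℂ) + s ^ (4 * g) ≠ 0 := by
    have : ContinuousAt (fun s : ℂ => (1 : ℂ) + s ^ (4 * g)) (1 / 2) := by fun_prop
    apply this.eventually_ne
    rw [hreal]
    exact_mod_cast hpos.ne'
  have hs0 : ∀ᶠ s in 𝓝 (1 / 2 : ℂ), s ≠ 0 :=
    eventually_ne_nhds (by norm_num)
  have hbr : ∀ᶠ s in 𝓝 (1 / 2 : ℂ), s ^ 2 ∈ ball b β.r :=
    hst.eventually (ball_mem_nhds _ β.rpos)
  have h1 : ∀ᶠ s in 𝓝 (1 / 2 : ℂ),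
      β.y (s ^ 2) * (1 + s ^ (4 * g)) ^ (-(1 / 2) : ℂ) * s⁻¹ = 1 := by
    filter_upwards [hu (ball_mem_nhds 1 one_pos), hne, hs0, hbr] with s hx hx' hs hb'
    set u := β.y (s ^ 2) * (1 + s ^ (4 * g)) ^ (-(1 / 2) : ℂ) * s⁻¹ with hu_def
    have h2 : u ^ 2 = 1 := by
      have h3 : ((1 + s ^ (4 * g)) ^ (-(1 / 2) : ℂ)) ^ 2 = (1 + s ^ (4 * g))⁻¹ := by
        rw [← Complex.cpow_nat_mul]
        norm_num
        exact Complex.cpow_neg_one _
      rw [hu_def, mul_pow, mul_pow, h3, β.y_sq _ hb']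
      simp only [Polynomial.eval_add, Polynomial.eval_pow, Polynomial.eval_X]
      have h4 : (s ^ 2) ^ (2 * g + 1) + s ^ 2 = (1 + s ^ (4 * g)) * s ^ 2 := by ring
      rw [h4]
      field_simp
    rw [pow_two] at h2
    rcases mul_self_eq_one_iff.mp h2 with h | h
    · exact h
    · exfalso
      have hx1 : u ∈ ball (1 : ℂ) 1 := hx
      rw [h, mem_ball, dist_eq_norm] at hx1
      norm_num at hx1
  have hb2 : ∀ᶠ s in 𝓝 (1 / 2 : ℂ), s ∈ ball (0 : ℂ) 1 :=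
    isOpen_ball.mem_nhds (by rw [mem_ball_zero_iff]; norm_num)
  obtain ⟨ε, hε, hball⟩ := Metric.eventually_nhds_iff_ball.mp (h1.and (hbr.and (hb2.and hs0)))
  filter_upwards [ball_mem_nhds (1 / 2 : ℂ) hε] with x hx
  have hd : ∀ x ∈ ball (1 / 2 : ℂ) ε, HasDerivAt (fun x => β.I i (x ^ 2) - J x) 0 x := by
    intro x hx
    obtain ⟨ha, hb, hc, hd⟩ := hball x hx
    have h3 : HasDerivAt (fun x : ℂ => x ^ 2) (2 * x) x := by
      have := hasDerivAt_pow 2 x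
      simpa using this
    have h4 : (x ^ 2) ^ i / β.y (x ^ 2) * (2 * x) =
        2 * x ^ (2 * i) * (1 + x ^ (4 * g)) ^ (-(1 / 2) : ℂ) := by
      have hy0 := β.y_ne _ hb
      have h5 : (1 + x ^ (4 * g)) ^ (-(1 / 2) : ℂ) = x / β.y (x ^ 2) := by
        rw [eq_div_iff hy0]
        have h6 : β.y (x ^ 2) * (1 + x ^ (4 * g)) ^ (-(1 / 2) : ℂ) = x := by
          calc β.y (x ^ 2) * (1 + x ^ (4 * g)) ^ (-(1 / 2) : ℂ)
              = β.y (x ^ 2) * (1 + x ^ (4 * g)) ^ (-(1 / 2) : ℂ) * x⁻¹ * x := by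
                rw [mul_assoc _ x⁻¹ x, inv_mul_cancel₀ hd, mul_one]
            _ = x := by rw [ha, one_mul]
        linear_combination h6
      rw [h5]
      rw [← pow_mul]
      ring
    have h5 := ((β.I_deriv i _ hb).comp x h3).sub (hJ x hc)
    rw [h4, sub_self] at h5
    exact h5
  have h6 : (fun x => β.I i (x ^ 2) - J x) x = (fun x => β.I i (x ^ 2) - J x) (1 / 2) := by
    refine (isOpen_ball (x := (1 / 2 : ℂ)) (ε := ε)).is_const_of_deriv_eq_zero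
      (convex_ball (1 / 2 : ℂ) ε).isPreconnected
      (fun x hx => (hd x hx).differentiableAt.differentiableWithinAt)
      (fun x hx => (hd x hx).deriv) hx (mem_ball_self hε)
  have h7 : β.I i (x ^ 2) - J x = β.I i ((1 / 2) ^ 2) - J (1 / 2) := h6
  rw [hsq, β.I_b, zero_sub] at h7
  linear_combination h7

theorem lam_le_g {g k i : ℕ} (hi : i ≤ g) : ‖lam2 g k i‖ ≤ ‖lamv2 g k‖ := by
  unfold lamv2
  rcases hi.lt_or_eq with h | h
  · refine le_trans ?_ (norm_fst_le _)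
    exact norm_le_pi_norm (fun i : Fin g => lam2 g k i) ⟨i, h⟩
  · subst h
    exact norm_snd_le ((fun j : Fin i => lam2 i k j : Fin i → ℂ), lam2 i k i)

/-- continuation along the two discs -/
theorem discs (hg : 0 < g) {F : (Fin g → ℂ) × ℂ → Option (Fin g) → ℂ} {R : ℝ} (r : Rep F R)
    (i0 : Fin g) (s : ℕ → ℂ) (x : Fin g → ℂ) (σ : ℂ) (hs : ∀ i ≤ g, ‖s i‖ ≤ 1) (hσ : ‖σ‖ ≤ 1)
    (J : ℕ → ℂ → ℂ) (K : ℕ → ℕ → ℂ → ℂ) (M : ℝ) (hM : 0 ≤ M)
    (hJ : ∀ i ≤ g, ∀ x ∈ ball (0 : ℂ) 1, DifferentiableAt ℂ (J i) x ∧ ‖J i x‖ ≤ M ∧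
      J i (-x) = -J i x)
    (hK : ∀ k, ∀ i ≤ g, ∀ v ∈ ball (0 : ℂ) 1, DifferentiableAt ℂ (K k i) v ∧ ‖K k i v‖ ≤ M ∧
      K k i (-v) = -K k i v)
    (hJK : ∀ k, ∀ i ≤ g, ∀ v : ℝ, 0 < v → v < 1 →
      J i (aRoot2 g k * (((1 - v ^ 2) ^ (1 / (4 * g) : ℝ) : ℝ) : ℂ)) =
        K k i v + lam2 g k i / 2)
    (k : ℕ) (hR : 2 * M + ‖lamv2 g k‖ + 2 < R)
    (h0 : ∀ᶠ x1 in 𝓝 (1 / 2 : ℂ),
      P r i0 s (fun i => J i x1 - J i (1 / 2)) (x1 ^ 2) x σ) :
    ∀ x1 ∈ ball (0 : ℂ) 1,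
      P r i0 s (fun i => lam2 g k i + J i x1 - J i (1 / 2)) (x1 ^ 2) x σ := by
  have hL : 0 ≤ ‖lamv2 g k‖ := norm_nonneg _
  have ha := aRoot2_norm g k
  have hg' : (0 : ℝ) < g := by exact_mod_cast hg
  have hm : (0 : ℝ) < 4 * g := by positivity
  have hhalf : (1 / 2 : ℂ) ∈ ball (0 : ℂ) 1 := by
    rw [mem_ball_zero_iff]; norm_num
  -- step 1
  have h1 : ∀ x1 ∈ ball (0 : ℂ) 1,
      P r i0 s (fun i => J i x1 - J i (1 / 2)) (x1 ^ 2) x σ := by
    refine ident r i0 s x σ (fun x1 i => J i x1 - J i (1 / 2)) (fun x1 => x1 ^ 2) ?_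
      (by fun_prop) ?_ (1 / 2) hhalf ?_
    · intro i hi x1 hx1
      exact ((hJ i hi x1 hx1).1.sub_const _).differentiableWithinAt
    · intro v hv
      refine Zof_mem (M := 2 * M) (by linarith) (by linarith) hs (fun i hi => ?_) hσ
      calc ‖J i v - J i (1 / 2)‖ ≤ ‖J i v‖ + ‖J i (1 / 2)‖ := norm_sub_le _ _
        _ ≤ 2 * M := by linarith [(hJ i hi v hv).2.1, (hJ i hi _ hhalf).2.1]
    · exact (h0.filter_mono nhdsWithin_le_nhds).frequently
  -- the real points of the parameter disc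
  have hreal : ∀ v : ℝ, 0 < v → v < 1 → (0 : ℝ) < (1 - v ^ 2) ^ (1 / (4 * g) : ℝ) ∧
      ((1 - v ^ 2) ^ (1 / (4 * g) : ℝ) : ℝ) < 1 := by
    intro v hv0 hv1
    have h2 : 0 < 1 - v ^ 2 := by nlinarith
    exact ⟨Real.rpow_pos_of_pos h2 _, Real.rpow_lt_one h2.le (by nlinarith) (by positivity)⟩
  have hcast : ∀ v : ℝ, 0 < 1 - v ^ 2 →
      (((1 - v ^ 2) ^ (1 / (4 * g) : ℝ) : ℝ) : ℂ) =
        (1 - (v : ℂ) ^ 2) ^ (1 / (4 * g) : ℂ) := by
    intro v hv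
    rw [Complex.ofReal_cpow hv.le]
    push_cast
    rfl
  -- step 2: the disc around the branch point
  have h2 : ∀ v ∈ ball (0 : ℂ) 1, P r i0 s (fun i => K k i v + lam2 g k i / 2 - J i (1 / 2))
      ((aRoot2 g k * (1 - v ^ 2) ^ (1 / (4 * g) : ℂ)) ^ 2) x σ := by
    refine ident r i0 s x σ (fun v i => K k i v + lam2 g k i / 2 - J i (1 / 2))
      (fun v => (aRoot2 g k * (1 - v ^ 2) ^ (1 / (4 * g) : ℂ)) ^ 2) ?_ ?_ ?_
      ((1 / 2 : ℝ) : ℂ) ?_ ?_
    · intro i hi v hv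
      exact (((hK k i hi v hv).1.add_const _).sub_const _).differentiableWithinAt
    · intro v hv
      apply DifferentiableAt.differentiableWithinAt
      apply DifferentiableAt.pow
      apply DifferentiableAt.const_mul
      apply DifferentiableAt.cpow
      · fun_prop
      · fun_prop
      · left
        have h3 : ‖v ^ 2‖ < 1 := by
          rw [norm_pow]
          have : ‖v‖ < 1 := mem_ball_zero_iff.mp hv
          exact pow_lt_one₀ (norm_nonneg _) this (by norm_num)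
        have h4 : (v ^ 2).re ≤ ‖v ^ 2‖ := Complex.re_le_norm _
        rw [Complex.sub_re, Complex.one_re]
        linarith
    · intro v hv
      refine Zof_mem (M := 2 * M + ‖lamv2 g k‖) (by linarith) (by linarith) hs
        (fun i hi => ?_) hσ
      have h5 := (hK k i hi v hv).2.1
      have h6 := lam_le_g (k := k) hi
      have h7 := (hJ i hi _ hhalf).2.1
      have h8 : ‖lam2 g k i / 2‖ = ‖lam2 g k i‖ / 2 := by
        rw [norm_div, Complex.norm_two]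
      have h9 := norm_nonneg (lam2 g k i)
      calc ‖K k i v + lam2 g k i / 2 - J i (1 / 2)‖
          ≤ ‖K k i v + lam2 g k i / 2‖ + ‖J i (1 / 2)‖ := norm_sub_le _ _
        _ ≤ ‖K k i v‖ + ‖lam2 g k i / 2‖ + ‖J i (1 / 2)‖ := by
          linarith [norm_add_le (K k i v) (lam2 g k i / 2)]
        _ ≤ 2 * M + ‖lamv2 g k‖ := by linarith
    · rw [mem_ball_zero_iff, Complex.norm_real]
      norm_num
    · apply half_frequently
      intro v hv0 hv1
      obtain ⟨hp0, hp1⟩ := hreal v hv0 hv1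
      have h7 : aRoot2 g k * (((1 - v ^ 2) ^ (1 / (4 * g) : ℝ) : ℝ) : ℂ) ∈
          ball (0 : ℂ) 1 := by
        rw [mem_ball_zero_iff, norm_mul, ha, one_mul, Complex.norm_real,
          Real.norm_of_nonneg hp0.le]
        exact hp1
      have h8 := h1 _ h7
      exact P_congr (fun i hi => by rw [hJK k i hi v hv0 hv1])
        (by rw [hcast v (by nlinarith)]) h8
  -- step 3: back in the unit disc
  have h3 : ∀ v ∈ ball (0 : ℂ) 1,
      P r i0 s (fun i => lam2 g k i - J i (aRoot2 g k * v) - J i (1 / 2))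
      ((aRoot2 g k * v) ^ 2) x σ := by
    have hball : ∀ v ∈ ball (0 : ℂ) 1, aRoot2 g k * v ∈ ball (0 : ℂ) 1 := by
      intro v hv
      rw [mem_ball_zero_iff, norm_mul, ha, one_mul]
      exact mem_ball_zero_iff.mp hv
    refine ident r i0 s x σ (fun v i => lam2 g k i - J i (aRoot2 g k * v) - J i (1 / 2))
      (fun v => (aRoot2 g k * v) ^ 2) ?_ (by fun_prop) ?_ ((1 / 2 : ℝ) : ℂ) ?_ ?_
    · intro i hi v hv
      apply DifferentiableAt.differentiableWithinAt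
      apply DifferentiableAt.sub_const
      apply DifferentiableAt.const_sub
      exact DifferentiableAt.comp v (hJ i hi _ (hball v hv)).1 (by fun_prop)
    · intro v hv
      refine Zof_mem (M := 2 * M + ‖lamv2 g k‖) (by linarith) (by linarith) hs
        (fun i hi => ?_) hσ
      have h5 := (hJ i hi _ (hball v hv)).2.1
      have h6 := lam_le_g (k := k) hi
      have h7 := (hJ i hi _ hhalf).2.1
      calc ‖lam2 g k i - J i (aRoot2 g k * v) - J i (1 / 2)‖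
          ≤ ‖lam2 g k i - J i (aRoot2 g k * v)‖ + ‖J i (1 / 2)‖ := norm_sub_le _ _
        _ ≤ ‖lam2 g k i‖ + ‖J i (aRoot2 g k * v)‖ + ‖J i (1 / 2)‖ := by
          linarith [norm_sub_le (lam2 g k i) (J i (aRoot2 g k * v))]
        _ ≤ 2 * M + ‖lamv2 g k‖ := by linarith
    · rw [mem_ball_zero_iff, Complex.norm_real]
      norm_num
    · apply half_frequently
      intro ρ hρ0 hρ1
      -- the real parameter
      have hρm0 : 0 < ρ ^ (4 * g) := pow_pos hρ0 _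
      have hρm1 : ρ ^ (4 * g) < 1 := pow_lt_one₀ hρ0.le hρ1 (by omega)
      set w : ℝ := Real.sqrt (1 - ρ ^ (4 * g)) with hw
      have hw2 : w ^ 2 = 1 - ρ ^ (4 * g) := Real.sq_sqrt (by linarith)
      have hw0 : 0 < w := Real.sqrt_pos.mpr (by linarith)
      have hw1 : w < 1 := by nlinarith
      have hroot : (1 - w ^ 2) ^ (1 / (4 * g) : ℝ) = ρ := by
        rw [hw2, sub_sub_cancel, one_div]
        have := Real.pow_rpow_inv_natCast hρ0.le (n := 4 * g) (by omega)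
        push_cast at this
        exact this
      have hwb : (w : ℂ) ∈ ball (0 : ℂ) 1 := by
        rw [mem_ball_zero_iff, Complex.norm_real, Real.norm_of_nonneg hw0.le]
        exact hw1
      have hwb' : (-(w : ℂ)) ∈ ball (0 : ℂ) 1 := by
        rw [mem_ball_zero_iff, norm_neg]
        exact mem_ball_zero_iff.mp hwb
      refine P_congr (fun i hi => ?_) ?_ (h2 _ hwb')
      · rw [(hK k i hi _ hwb).2.2]
        have h7 := hJK k i hi w hw0 hw1
        rw [hroot] at h7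
        rw [h7]
        ring
      · rw [neg_sq]
        rw [← hcast w (by nlinarith), hroot]
  intro x1 hx1
  have hane : aRoot2 g k ≠ 0 := by
    intro h
    rw [h, norm_zero] at ha
    exact zero_ne_one ha
  have h4 : (aRoot2 g k)⁻¹ * (-x1) ∈ ball (0 : ℂ) 1 := by
    rw [mem_ball_zero_iff, norm_mul, norm_inv, ha, inv_one, one_mul, norm_neg]
    exact mem_ball_zero_iff.mp hx1
  have h5 := h3 _ h4
  have h6 : aRoot2 g k * ((aRoot2 g k)⁻¹ * (-x1)) = -x1 := mul_inv_cancel_left₀ hane (-x1)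
  rw [h6] at h5
  refine P_congr (fun i hi => ?_) (neg_sq x1) h5
  rw [(hJ i hi x1 hx1).2.2]
  ring

theorem thm_CONT2 (hSheets : Stmt_Sheets2) : Stmt_Cont2 := by
  intro g hg b c hb hc hinj C hG k
  obtain ⟨J, K, M, hJ, hK, hJK⟩ := hSheets g hg
  set i0 : Fin g := ⟨0, hg⟩ with hi0
  have hhalf : (1 / 2 : ℂ) ∈ ball (0 : ℂ) 1 := by
    rw [mem_ball_zero_iff]; norm_num
  have hM : 0 ≤ M :=
    le_trans (norm_nonneg _) ((hJ 0 (Nat.zero_le g)).2 0 (mem_ball_self one_pos)).2.1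
  have hL := norm_nonneg (lamv2 g k)
  set R : ℝ := 2 * M + ‖lamv2 g k‖ + 3 with hR
  obtain ⟨C0, ρ, _, _, hG⟩ := hG
  obtain ⟨r, -⟩ := hG R (by linarith)
  have hJI : ∀ i ≤ g, ∀ᶠ s in 𝓝 (1 / 2 : ℂ), (C.β i0).I i (s ^ 2) = J i s - J i (1 / 2) := by
    intro i hi
    exact branch_eq hb hc (C.β i0) i (J i) fun x hx => ((hJ i hi).2 x hx).1
  have hJc : ∀ i ≤ g, ContinuousAt (fun s => J i s - J i (1 / 2)) (1 / 2) := fun i hi =>
    (((hJ i hi).2 _ hhalf).1.sub_const _).continuousAt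
  -- good parameters
  have hgood : ∀ᶠ q : (Fin g → ℂ) × ℂ in 𝓝 (b, 0),
      (∀ i ∈ Finset.range (g + 1), ‖S C.β i0 q.1 i‖ ≤ 1) ∧ ‖q.2‖ ≤ 1 ∧
      ∀ᶠ x1 in 𝓝 (1 / 2 : ℂ),
        P r i0 (S C.β i0 q.1) (fun i => J i x1 - J i (1 / 2)) (x1 ^ 2) q.1 q.2 := by
    have h1 : ∀ᶠ q : (Fin g → ℂ) × ℂ in 𝓝 (b, 0),
        ∀ i ∈ Finset.range (g + 1), ‖S C.β i0 q.1 i‖ ≤ 1 := by
      rw [Finset.eventually_all]
      intro i _
      have h2 : Tendsto (fun q : (Fin g → ℂ) × ℂ => S C.β i0 q.1 i) (𝓝 (b, 0)) (𝓝 0) :=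
        (S_tendsto C.β i0 i).comp (continuous_fst.tendsto _)
      filter_upwards [h2.eventually (closedBall_mem_nhds 0 one_pos)] with q hq
      exact mem_closedBall_zero_iff.mp hq
    have h3 : ∀ᶠ q : (Fin g → ℂ) × ℂ in 𝓝 (b, 0), ‖q.2‖ ≤ 1 := by
      have h2 : Tendsto (fun q : (Fin g → ℂ) × ℂ => q.2) (𝓝 (b, 0)) (𝓝 0) :=
        continuous_snd.tendsto _
      filter_upwards [h2.eventually (closedBall_mem_nhds 0 one_pos)] with q hq
      exact mem_closedBall_zero_iff.mp hq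
    have h4 := (step0 i0 C r (fun i s => J i s - J i (1 / 2)) (fun s => s ^ 2) (1 / 2)
      (by rw [hb]; norm_num) (by fun_prop) (fun i _ => sub_self _) hJI hJc).curry_nhds
    exact h1.and (h3.and h4)
  -- the square root near `1 / 4`
  set rt : ℂ → ℂ := fun x => x ^ (1 / 2 : ℂ) with hrt
  have hrt0 : rt (1 / 4) = 1 / 2 := by
    have h1 : (1 / 4 : ℂ) = ((1 / 4 : ℝ) : ℂ) := by push_cast; rfl
    have h2 : (1 / 2 : ℂ) = ((1 / 2 : ℝ) : ℂ) := by push_cast; rfl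
    rw [hrt]
    simp only
    rw [h1]
    conv_lhs => rw [h2]
    rw [← Complex.ofReal_cpow (by norm_num), ← Real.sqrt_eq_rpow]
    have h3 : Real.sqrt (1 / 4) = 1 / 2 := by
      rw [show (1 / 4 : ℝ) = (1 / 2) ^ 2 by norm_num, Real.sqrt_sq (by norm_num)]
    rw [h3]
    push_cast
    rfl
  have hrtc : ContinuousAt rt (1 / 4) := by
    apply ContinuousAt.cpow continuousAt_id continuousAt_const
    · have h1 : (1 / 4 : ℂ) = ((1 / 4 : ℝ) : ℂ) := by push_cast; rfl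
      simp only [id]
      rw [h1]
      exact Complex.ofReal_mem_slitPlane.mpr (by norm_num)
  have hrt2 : ∀ x, rt x ^ 2 = x := by
    intro x
    rw [hrt]
    simp only
    rw [← Complex.cpow_nat_mul]
    norm_num
  have hXt : Tendsto (fun ζ : (Fin g → ℂ) × ℂ => C.X ζ.1) (𝓝 0) (𝓝 b) := by
    have h1 : Tendsto C.X (𝓝 0) (𝓝 b) := by
      have := C.an.continuousAt.tendsto
      rwa [C.X0] at this
    exact h1.comp (continuous_fst.tendsto _)
  have hx1t : Tendsto (fun ζ : (Fin g → ℂ) × ℂ => rt (C.X ζ.1 i0)) (𝓝 0) (𝓝 (1 / 2)) := by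
    have h1 := ((continuous_apply i0).tendsto b).comp hXt
    rw [hb] at h1
    have h2 := hrtc.tendsto.comp h1
    rw [hrt0] at h2
    exact h2
  have hTt : Tendsto (fun ζ : (Fin g → ℂ) × ℂ =>
      (C.X ζ.1, (J g (rt (C.X ζ.1 i0)) - J g (1 / 2)) + S C.β i0 (C.X ζ.1) g - ζ.2))
      (𝓝 0) (𝓝 (b, 0)) := by
    apply hXt.prodMk_nhds
    have h1 : Tendsto (fun ζ : (Fin g → ℂ) × ℂ => J g (rt (C.X ζ.1 i0)) - J g (1 / 2))
        (𝓝 0) (𝓝 0) := by
      have := (hJc g le_rfl).tendsto.comp hx1t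
      rw [sub_self] at this
      exact this
    have h2 : Tendsto (fun ζ : (Fin g → ℂ) × ℂ => S C.β i0 (C.X ζ.1) g) (𝓝 0) (𝓝 0) :=
      (S_tendsto C.β i0 g).comp hXt
    have h3 : Tendsto (fun ζ : (Fin g → ℂ) × ℂ => ζ.2) (𝓝 0) (𝓝 0) := continuous_snd.tendsto _
    simpa using (h1.add h2).sub h3
  refine ⟨R, by linarith, r, ?_⟩
  have e1 := hTt.eventually hgood
  have e2 : ∀ᶠ ζ in 𝓝 (0 : (Fin g → ℂ) × ℂ), ∀ i ∈ Finset.range (g + 1),
      (C.β i0).I i ((rt (C.X ζ.1 i0)) ^ 2) = J i (rt (C.X ζ.1 i0)) - J i (1 / 2) := by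
    rw [Finset.eventually_all]
    intro i hi
    exact hx1t.eventually (hJI i (Nat.lt_succ_iff.mp (Finset.mem_range.mp hi)))
  have e3 : ∀ᶠ ζ in 𝓝 (0 : (Fin g → ℂ) × ℂ), rt (C.X ζ.1 i0) ∈ ball (0 : ℂ) 1 :=
    hx1t.eventually (isOpen_ball.mem_nhds hhalf)
  have e4 : ∀ᶠ ζ in 𝓝 (0 : (Fin g → ℂ) × ℂ), ∀ i : Fin g,
      ∑ j, (C.β j).I i (C.X ζ.1 j) = ζ.1 i :=
    (continuous_fst.tendsto (0 : (Fin g → ℂ) × ℂ)).eventually C.right
  filter_upwards [e1, e2, e3, e4] with ζ h1 h2 h3 h4 o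
  obtain ⟨hs, hσ, hP⟩ := h1
  set x := C.X ζ.1 with hx
  set x1 := rt (x i0) with hx1
  set σ := (J g x1 - J g (1 / 2)) + S C.β i0 x g - ζ.2 with hσd
  have hs' : ∀ i ≤ g, ‖S C.β i0 x i‖ ≤ 1 := fun i hi =>
    hs i (Finset.mem_range.mpr (Nat.lt_succ_of_le hi))
  have hsum : ∀ i ≤ g, ∑ j, (C.β j).I i (x j) = (J i x1 - J i (1 / 2)) + S C.β i0 x i := by
    intro i hi
    rw [← h2 i (Finset.mem_range.mpr (Nat.lt_succ_of_le hi)), hrt2]
    unfold S
    rw [← Finset.add_sum_erase Finset.univ _ (Finset.mem_univ i0)]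
  have hZ : (Zof (S C.β i0 x) (fun i => lam2 g k i + J i x1 - J i (1 / 2)) σ :
      (Fin g → ℂ) × ℂ) = lamv2 g k + ζ := by
    unfold Zof lamv2
    ext i
    · have h5 := h4 i
      rw [hsum i i.2.le] at h5
      simp only [Prod.fst_add, Pi.add_apply]
      rw [← h5]
      ring
    · simp only [Prod.snd_add]
      rw [hσd]
      ring
  have h5 := discs hg r i0 (S C.β i0 x) x σ hs' hσ J K M hM
    (fun i hi x hx => ⟨((hJ i hi).2 x hx).1.differentiableAt, ((hJ i hi).2 x hx).2⟩)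
    (fun κ i hi v hv => ⟨((hK κ i hi).2 v hv).1.differentiableAt, ((hK κ i hi).2 v hv).2⟩)
    hJK k (by linarith) hP x1 h3 o
  rw [hZ] at h5
  have h6 : val i0 (x1 ^ 2) x σ o = F1 C ζ o := by
    cases o with
    | some l =>
      change (polyU (Function.update x i0 (x1 ^ 2))).coeff l = (polyU (C.X ζ.1)).coeff l
      rw [hrt2, Function.update_eq_self]
    | none =>
      change σ = C.s ζ.1 - ζ.2
      unfold Chart.s
      rw [← hx, hsum g le_rfl]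
  rw [h6] at h5
  exact h5

end

end Pool.Agent.FDR.CONT2
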