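import Pool.Agent.FDR.Stmts2

open scoped BigOperators Polynomial Topology
open Finset

namespace Pool.Agent.FDR.CORE2

noncomputable section

theorem mem_algLog {x : ℝ} : x ∈ algLog ↔ IsAlgebraic ℚ (Real.exp x) := Iff.rfl

theorem Hlog_congr {x y : ℚ} {z : ℤ} (h : x - y = z) : Hlog x = Hlog y := by
  unfold Hlog
  have : Int.fract x = Int.fract y := by
    rw [Int.fract_eq_fract]
    exact ⟨z, h⟩
  rw [this]

theorem Hlog_neg (x : ℚ) : Hlog (-x) = -Hlog x := by
  unfold Hlog
  by_cases h : Int.fract x = 0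
  · have h2 : Int.fract (-x) = 0 := Int.fract_neg_eq_zero.mpr h
    rw [h, h2]
    simp [Real.Gamma_zero, Real.Gamma_one]
  · have h2 : Int.fract (-x) = 1 - Int.fract x := Int.fract_neg h
    rw [h2, Rat.cast_sub, Rat.cast_one]
    have : (1 : ℝ) - (1 - ((Int.fract x : ℚ) : ℝ)) = ((Int.fract x : ℚ) : ℝ) := by ring
    rw [this]
    ring

theorem bet_pos {x y : ℝ} (hx : 0 < x) (hy : 0 < y) : 0 < bet x y := by
  unfold bet
  have h1 := Real.Gamma_pos_of_pos hx
  have h2 := Real.Gamma_pos_of_pos hy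
  have h3 := Real.Gamma_pos_of_pos (add_pos hx hy)
  positivity

/-- transcendence of `π` in logarithmic form -/
theorem int_log_pi (hpi : Stmt_PiTr) {m : ℤ} (h : (m : ℝ) * Real.log Real.pi ∈ algLog) :
    m = 0 := by
  rw [mem_algLog] at h
  have key : ∀ d : ℕ, IsAlgebraic ℚ (Real.exp ((d : ℝ) * Real.log Real.pi)) → d = 0 := by
    intro d hd
    by_contra hne
    have h1 : Real.exp ((d : ℝ) * Real.log Real.pi) = Real.pi ^ d := by
      rw [Real.exp_nat_mul, Real.exp_log Real.pi_pos]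
    rw [h1] at hd
    exact hpi (hd.of_pow (Nat.pos_of_ne_zero hne))
  rcases Int.eq_nat_or_neg m with ⟨d, rfl | rfl⟩
  · have := key d (by simpa using h)
    simp [this]
  · have h2 : IsAlgebraic ℚ (Real.exp ((d : ℝ) * Real.log Real.pi)) := by
      have h3 := h.inv
      rw [← Real.exp_neg] at h3
      have h4 : -(((-(d : ℤ) : ℤ) : ℝ) * Real.log Real.pi) = (d : ℝ) * Real.log Real.pi := by
        push_cast
        ring
      rwa [h4] at h3
    have := key d h2
    simp [this]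

theorem mod_pos {N a t : ℕ} (ha : 0 < a) (haN : a < N) (ht : t.Coprime N) :
    0 < (t * a) % N := by
  apply Nat.pos_of_ne_zero
  intro h
  have h1 : N ∣ t * a := Nat.dvd_of_mod_eq_zero h
  have h2 : N ∣ a := ht.symm.dvd_of_dvd_mul_left h1
  exact absurd (Nat.le_of_dvd ha h2) (by omega)

theorem mod_neg {N M a t : ℕ} (hN : 0 < N) (hM : 0 < M) (hNM : N ∣ M)
    (h0 : 0 < (t * a) % N) : (t * (M - 1) * a) % N = N - (t * a) % N := by
  have h1 : t * (M - 1) * a + t * a = t * a * M := by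
    obtain ⟨M', rfl⟩ : ∃ M', M = M' + 1 := ⟨M - 1, by omega⟩
    simp only [Nat.add_sub_cancel]
    ring
  have h2 : N ∣ t * (M - 1) * a + t * a := by
    rw [h1]
    exact hNM.mul_left _
  have h3 : ((t * (M - 1) * a) % N + (t * a) % N) % N = 0 := by
    rw [← Nat.add_mod]
    exact Nat.mod_eq_zero_of_dvd h2
  have h4 := Nat.mod_lt (t * (M - 1) * a) hN
  have h5 := Nat.mod_lt (t * a) hN
  obtain ⟨c, hc⟩ := Nat.dvd_of_mod_eq_zero h3
  have h6 : c = 1 := by
    have hc0 : c ≠ 0 := by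
      rintro rfl
      omega
    have hc2 : c < 2 := by
      by_contra hcon
      push Not at hcon
      have : N * 2 ≤ N * c := Nat.mul_le_mul_left N hcon
      omega
    omega
  rw [h6] at hc
  omega

/-- data of one factor -/
structure Dat (N a b : ℕ) : Prop where
  a0 : 0 < a
  aN : a < N
  b0 : 0 < b
  bN : b < N
  ab : a + b ≠ N

theorem Dat.N0 {N a b : ℕ} (D : Dat N a b) : 0 < N := lt_of_le_of_lt (Nat.zero_le _) D.aN

theorem Dat.ndvd {N a b : ℕ} (D : Dat N a b) : ¬ N ∣ a + b := by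
  rintro ⟨c, hc⟩
  have h1 := D.a0
  have h2 := D.aN
  have h3 := D.bN
  have h4 := D.ab
  have hc0 : c ≠ 0 := by
    rintro rfl
    omega
  have hc1 : c ≠ 1 := by
    rintro rfl
    omega
  have : N * 2 ≤ N * c := Nat.mul_le_mul_left N (by omega)
  omega

/-- the combination of `Hlog` values of one factor -/
def hh (N a b : ℕ) (t : ℤ) : ℝ :=
  Hlog (t * ((a : ℚ) / N)) + Hlog (t * ((b : ℚ) / N)) - Hlog (t * (((a : ℚ) + b) / N))

theorem Hlog_mod (N a t : ℕ) (hN : 0 < N) :
    Hlog (((t * a % N : ℕ) : ℚ) / N) = Hlog (((t : ℤ) : ℚ) * ((a : ℚ) / N)) := by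
  have hN' : (N : ℚ) ≠ 0 := by exact_mod_cast hN.ne'
  have h := Nat.div_add_mod (t * a) N
  generalize t * a / N = c at h
  generalize t * a % N = r at h
  apply Hlog_congr (z := -(c : ℤ))
  have h' : (N : ℚ) * (c : ℚ) + (r : ℚ) = (t : ℚ) * a := by
    exact_mod_cast h
  push_cast
  field_simp
  linarith

theorem Dat.main {N a b t : ℕ} (D : Dat N a b) (ht : t.Coprime N) {M : ℕ} (hM : 0 < M)
    (hNM : N ∣ M) (hR : Stmt_BetaRefl) :
    (Real.log (bet ((t * a % N : ℕ) / N) ((t * b % N : ℕ) / N)) +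
      Real.log (bet ((t * (M - 1) * a % N : ℕ) / N) ((t * (M - 1) * b % N : ℕ) / N)) -
      Real.log Real.pi ∈ algLog) ∧
    (Real.log (bet ((t * a % N : ℕ) / N) ((t * b % N : ℕ) / N)) -
      Real.log (bet ((t * (M - 1) * a % N : ℕ) / N) ((t * (M - 1) * b % N : ℕ) / N)) -
      hh N a b t ∈ algLog) := by
  have hN := D.N0
  have hNq : (0 : ℚ) < N := by exact_mod_cast hN
  have hNr : (N : ℝ) ≠ 0 := by exact_mod_cast hN.ne'
  have ha := mod_pos D.a0 D.aN ht
  have hb := mod_pos D.b0 D.bN ht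
  have ha2 := Nat.mod_lt (t * a) hN
  have hb2 := Nat.mod_lt (t * b) hN
  rw [mod_neg hN hM hNM ha, mod_neg hN hM hNM hb]
  have hsum : (t * a) % N + (t * b) % N ≠ N := by
    intro h
    have h1 : (t * a + t * b) % N = 0 := by
      rw [Nat.add_mod, h, Nat.mod_self]
    rw [← mul_add] at h1
    have h2 : N ∣ t * (a + b) := Nat.dvd_of_mod_eq_zero h1
    exact D.ndvd (ht.symm.dvd_of_dvd_mul_left h2)
  obtain ⟨h1, h2⟩ := hR (((t * a % N : ℕ) : ℚ) / N) (((t * b % N : ℕ) : ℚ) / N)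
    (by have : (0 : ℚ) < ((t * a % N : ℕ) : ℚ) := by exact_mod_cast ha
        positivity)
    (by rw [div_lt_one hNq]; exact_mod_cast ha2)
    (by have : (0 : ℚ) < ((t * b % N : ℕ) : ℚ) := by exact_mod_cast hb
        positivity)
    (by rw [div_lt_one hNq]; exact_mod_cast hb2)
    (by
      intro h
      rw [← add_div, div_eq_one_iff_eq hNq.ne'] at h
      exact hsum (by exact_mod_cast h))
  have e1 : ((N - t * a % N : ℕ) : ℝ) / N = 1 - (((t * a % N : ℕ) : ℚ) / N : ℚ) := by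
    push_cast [Nat.cast_sub ha2.le]
    field_simp
  have e2 : ((N - t * b % N : ℕ) : ℝ) / N = 1 - (((t * b % N : ℕ) : ℚ) / N : ℚ) := by
    push_cast [Nat.cast_sub hb2.le]
    field_simp
  have e3 : ((t * a % N : ℕ) : ℝ) / N = ((((t * a % N : ℕ) : ℚ) / N : ℚ) : ℝ) := by
    push_cast
    rfl
  have e4 : ((t * b % N : ℕ) : ℝ) / N = ((((t * b % N : ℕ) : ℚ) / N : ℚ) : ℝ) := by
    push_cast
    rfl
  rw [e1, e2, e3, e4]
  refine ⟨h1, ?_⟩
  have e5 : Hlog (((t * a % N : ℕ) : ℚ) / N) + Hlog (((t * b % N : ℕ) : ℚ) / N) -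
      Hlog (((t * a % N : ℕ) : ℚ) / N + ((t * b % N : ℕ) : ℚ) / N) = hh N a b t := by
    unfold hh
    rw [Hlog_mod N a t hN, Hlog_mod N b t hN]
    congr 1
    have hNq' : (N : ℚ) ≠ 0 := hNq.ne'
    have k1 := Nat.div_add_mod (t * a) N
    have k2 := Nat.div_add_mod (t * b) N
    clear * - hNq' k1 k2
    generalize t * a / N = c at k1
    generalize t * a % N = r at k1 ⊢
    generalize t * b / N = c' at k2
    generalize t * b % N = r' at k2 ⊢
    apply Hlog_congr (z := -(c : ℤ) - (c' : ℤ))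
    have k1' : (N : ℚ) * (c : ℚ) + (r : ℚ) = (t : ℚ) * a := by exact_mod_cast k1
    have k2' : (N : ℚ) * (c' : ℚ) + (r' : ℚ) = (t : ℚ) * b := by exact_mod_cast k2
    push_cast
    field_simp
    linarith
  rw [← e5]
  exact h2

theorem hh_congr {N a b : ℕ} (hN : 0 < N) {t t' : ℤ} (h : t ≡ t' [ZMOD N]) :
    hh N a b t = hh N a b t' := by
  obtain ⟨c, hc⟩ := (Int.modEq_iff_dvd.mp h)
  have hN' : (N : ℚ) ≠ 0 := by exact_mod_cast hN.ne'
  have ht : (t' : ℚ) = t + N * c := by
    have : t' = t + N * c := by omega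
    rw [this]
    push_cast
    ring
  unfold hh
  rw [Hlog_congr (x := (t : ℚ) * ((a : ℚ) / N)) (y := (t' : ℚ) * ((a : ℚ) / N)) (z := -(c * a)),
    Hlog_congr (x := (t : ℚ) * ((b : ℚ) / N)) (y := (t' : ℚ) * ((b : ℚ) / N)) (z := -(c * b)),
    Hlog_congr (x := (t : ℚ) * (((a : ℚ) + b) / N)) (y := (t' : ℚ) * (((a : ℚ) + b) / N))
      (z := -(c * (a + b)))]
  · rw [ht]
    push_cast
    field_simp
    ring
  · rw [ht]
    push_cast
    field_simp
    ring
  · rw [ht]
    push_cast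
    field_simp
    ring

theorem hh_neg (N a b : ℕ) (t : ℤ) : hh N a b (-t) = -hh N a b t := by
  unfold hh
  have e : ∀ x : ℚ, ((-t : ℤ) : ℚ) * x = -((t : ℚ) * x) := by
    intro x
    push_cast
    ring
  rw [e, e, e, Hlog_neg, Hlog_neg, Hlog_neg]
  ring

section global

variable {n : ℕ} {N : Fin n → ℕ} {k : ℤ} {a b : Fin n → ℕ}

/-- the logarithm of the `t`-th product -/
def LL (N : Fin n → ℕ) (a b : Fin n → ℕ) (k : ℤ) (t : ℕ) : ℝ :=
  ∑ j, Real.log (bet ((t * a j % N j : ℕ) / N j) ((t * b j % N j : ℕ) / N j)) -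
    k * Real.log Real.pi

theorem LL_mem (D : ∀ j, Dat (N j) (a j) (b j)) {t : ℕ} (ht : ∀ j, t.Coprime (N j))
    (h : IsAlgebraic ℚ ((∏ j, bet ((t * a j % N j : ℕ) / N j) ((t * b j % N j : ℕ) / N j)) /
      Real.pi ^ k)) : LL N a b k t ∈ algLog := by
  rw [mem_algLog]
  unfold LL
  have hpos : ∀ j, 0 < bet ((t * a j % N j : ℕ) / N j) ((t * b j % N j : ℕ) / N j) := by
    intro j
    have h1 := mod_pos (D j).a0 (D j).aN (ht j)
    have h2 := mod_pos (D j).b0 (D j).bN (ht j)
    have h3 := (D j).N0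
    apply bet_pos
    · have : (0 : ℝ) < ((t * a j % N j : ℕ) : ℝ) := by exact_mod_cast h1
      have h4 : (0 : ℝ) < N j := by exact_mod_cast h3
      positivity
    · have : (0 : ℝ) < ((t * b j % N j : ℕ) : ℝ) := by exact_mod_cast h2
      have h4 : (0 : ℝ) < N j := by exact_mod_cast h3
      positivity
  have h1 : Real.exp (∑ j, Real.log (bet ((t * a j % N j : ℕ) / N j)
      ((t * b j % N j : ℕ) / N j)) - k * Real.log Real.pi) =
      (∏ j, bet ((t * a j % N j : ℕ) / N j) ((t * b j % N j : ℕ) / N j)) / Real.pi ^ k := by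
    rw [Real.exp_sub, Real.exp_sum]
    congr 1
    · exact Finset.prod_congr rfl fun j _ => Real.exp_log (hpos j)
    · rw [mul_comm, exp_intCast_mul_aux, Real.exp_log Real.pi_pos]
  rw [h1]
  exact h

theorem step2 (hR : Stmt_BetaRefl) (D : ∀ j, Dat (N j) (a j) (b j))
    (h : ∀ t : ℕ, (∀ j, t.Coprime (N j)) → LL N a b k t ∈ algLog) (t : ℕ)
    (ht : ∀ j, t.Coprime (N j)) :
    (((n : ℤ) - 2 * k : ℤ) : ℝ) * Real.log Real.pi ∈ algLog ∧
    ∑ j, hh (N j) (a j) (b j) t ∈ algLog := by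
  set M := ∏ j, N j with hM
  have hM0 : 0 < M := Finset.prod_pos fun j _ => (D j).N0
  have hdvd : ∀ j, N j ∣ M := fun j => Finset.dvd_prod_of_mem N (Finset.mem_univ j)
  have hcop : (M - 1).Coprime M := by
    obtain ⟨m, hm⟩ : ∃ m, M = m + 1 := ⟨M - 1, by omega⟩
    rw [hm]
    simp
  have ht' : ∀ j, (t * (M - 1)).Coprime (N j) := fun j =>
    Nat.Coprime.mul_left (ht j) (hcop.coprime_dvd_right (hdvd j))
  have h1 := h t ht
  have h2 := h _ ht'
  have h3 := fun j => (D j).main (ht j) hM0 (hdvd j) hR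
  have h4 := Submodule.sum_mem algLog (fun j (_ : j ∈ (Finset.univ : Finset (Fin n))) => (h3 j).1)
  have h5 := Submodule.sum_mem algLog (fun j (_ : j ∈ (Finset.univ : Finset (Fin n))) => (h3 j).2)
  rw [Finset.sum_sub_distrib, Finset.sum_add_distrib] at h4
  rw [Finset.sum_sub_distrib, Finset.sum_sub_distrib] at h5
  unfold LL at h1 h2
  constructor
  · have h6 := algLog.sub_mem (algLog.add_mem h1 h2) h4
    convert h6 using 1
    simp only [Finset.sum_const, Finset.card_univ, Fintype.card_fin, nsmul_eq_mul]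
    push_cast
    ring
  · have h6 := algLog.sub_mem (algLog.sub_mem h1 h2) h5
    convert h6 using 1
    ring

theorem coprime_of_modEq {t t' m : ℕ} (h : t ≡ t' [MOD m]) (h' : t'.Coprime m) :
    t.Coprime m := by
  unfold Nat.Coprime at *
  rw [h.gcd_eq]
  exact h'

/-- the degrees -/
def Good (ℓ K N : ℕ) : Prop := N = ℓ ^ K ∨ N = 2 * ℓ ^ K

theorem modEq_good {ℓ K N t t' : ℕ} (hℓ : ℓ.Prime) (hN : Good ℓ K N) (ht : ¬ 2 ∣ t)
    (ht' : ¬ 2 ∣ t') (h : t ≡ t' [MOD ℓ ^ (K + 1)]) : t ≡ t' [MOD N] := by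
  have h1 : t ≡ t' [MOD ℓ ^ K] := h.of_dvd (pow_dvd_pow _ (Nat.le_succ K))
  rcases hN with rfl | rfl
  · exact h1
  · by_cases h2 : ℓ = 2
    · subst h2
      rw [pow_succ'] at h
      exact h
    · have h3 : t ≡ t' [MOD 2] := by
        unfold Nat.ModEq
        omega
      have h4 : Nat.Coprime 2 (ℓ ^ K) := by
        apply Nat.Coprime.pow_right
        rw [Nat.coprime_primes Nat.prime_two hℓ]
        exact fun h => h2 h.symm
      exact (Nat.modEq_and_modEq_iff_modEq_mul h4).mp ⟨h3, h1⟩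

theorem coprime_good {ℓ K N t : ℕ} (hN : Good ℓ K N) (ht : t.Coprime (2 * ℓ)) :
    t.Coprime N := by
  have h1 : t.Coprime 2 := ht.coprime_dvd_right (Dvd.intro _ rfl)
  have h2 : t.Coprime ℓ := ht.coprime_dvd_right (Dvd.intro_left _ rfl)
  rcases hN with rfl | rfl
  · exact h2.pow_right _
  · exact h1.mul_right (h2.pow_right _)

theorem step3 (D : ∀ j, Dat (N j) (a j) (b j)) (ℓ K : Fin n → ℕ) (hℓ : ∀ j, (ℓ j).Prime)
    (hK : ∀ j, Good (ℓ j) (K j) (N j))
    (h : ∀ t : ℕ, (∀ j, t.Coprime (N j)) → ∑ j, hh (N j) (a j) (b j) t ∈ algLog)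
    (p : ℕ) (t : ℕ) (ht : t.Coprime (2 * p)) :
    ∑ j ∈ Finset.univ.filter (fun j => ℓ j = p), hh (N j) (a j) (b j) t ∈ algLog := by
  classical
  by_cases hp : ∃ j, ℓ j = p
  swap
  · have : Finset.univ.filter (fun j => ℓ j = p) = ∅ := by
      rw [Finset.filter_eq_empty_iff]
      intro j _ hj
      exact hp ⟨j, hj⟩
    rw [this]
    simp
  obtain ⟨j0, hj0⟩ := hp
  have hpp : p.Prime := hj0 ▸ hℓ j0
  have htodd : ¬ 2 ∣ t := by
    have h1 : t.Coprime 2 := ht.coprime_dvd_right (Dvd.intro _ rfl)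
    rw [← Nat.prime_two.coprime_iff_not_dvd]
    exact h1.symm
  set M1 := ∏ j ∈ Finset.univ.filter (fun j => ℓ j = p), (ℓ j) ^ (K j + 1) with hM1
  set M2 := ∏ j ∈ Finset.univ.filter (fun j => ¬ ℓ j = p), (ℓ j) ^ (K j + 1) with hM2
  set e := (if p = 2 then 1 else 2) with he
  have hM10 : 0 < M1 := Finset.prod_pos fun j _ => pow_pos (hℓ j).pos _
  have hd1 : ∀ j, ℓ j = p → (ℓ j) ^ (K j + 1) ∣ M1 := fun j hj =>
    Finset.dvd_prod_of_mem (fun j => (ℓ j) ^ (K j + 1)) (by simp [hj])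
  have hd2 : ∀ j, ℓ j ≠ p → (ℓ j) ^ (K j + 1) ∣ e * M2 := fun j hj =>
    Dvd.dvd.mul_left (Finset.dvd_prod_of_mem (fun j => (ℓ j) ^ (K j + 1)) (by simp [hj])) _
  have hc : M1.Coprime (e * M2) := by
    apply Nat.Coprime.mul_right
    · rw [he]
      split_ifs with h2
      · exact Nat.coprime_one_right _
      · apply Nat.Coprime.prod_left
        intro i hi
        simp only [Finset.mem_filter, Finset.mem_univ, true_and] at hi
        apply Nat.Coprime.pow_left
        rw [hi, Nat.coprime_primes hpp Nat.prime_two]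
        exact h2
    · apply Nat.Coprime.prod_left
      intro i hi
      apply Nat.Coprime.prod_right
      intro j hj
      simp only [Finset.mem_filter, Finset.mem_univ, true_and] at hi hj
      apply Nat.Coprime.pow
      rw [Nat.coprime_primes (hℓ i) (hℓ j)]
      intro hij
      exact hj (hij ▸ hi)
  have h2M1 : p = 2 → 2 ∣ M1 := by
    intro h2
    refine Dvd.dvd.trans ?_ (hd1 j0 hj0)
    rw [hj0, h2, pow_succ]
    exact Dvd.intro_left _ rfl
  have odd_of : ∀ s r : ℕ, ¬ 2 ∣ r → s ≡ r [MOD M1] → s ≡ 1 [MOD e * M2] → ¬ 2 ∣ s := by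
    intro s r hr h1 h2
    by_cases hp2 : p = 2
    · have h3 := h1.of_dvd (h2M1 hp2)
      unfold Nat.ModEq at h3
      omega
    · have h3 : 2 ∣ e * M2 := by
        rw [he, if_neg hp2]
        exact Dvd.intro _ rfl
      have h4 := h2.of_dvd h3
      unfold Nat.ModEq at h4
      omega
  obtain ⟨t1, ht11, ht12⟩ := Nat.chineseRemainder hc t 1
  obtain ⟨t2, ht21, ht22⟩ := Nat.chineseRemainder hc (t * (M1 - 1)) 1
  have hcopM : (M1 - 1).Coprime M1 := by
    obtain ⟨m, hm⟩ : ∃ m, M1 = m + 1 := ⟨M1 - 1, by omega⟩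
    rw [hm]
    simp
  have t1odd : ¬ 2 ∣ t1 := odd_of t1 t htodd ht11 ht12
  have t2odd : ¬ 2 ∣ t2 := by
    by_cases hp2 : p = 2
    · apply odd_of t2 (t * (M1 - 1)) _ ht21 ht22
      rw [Nat.prime_two.dvd_mul]
      rintro (h3 | h3)
      · exact htodd h3
      · have := h2M1 hp2
        omega
    · have h3 : 2 ∣ e * M2 := by
        rw [he, if_neg hp2]
        exact Dvd.intro _ rfl
      have h4 := ht22.of_dvd h3
      unfold Nat.ModEq at h4
      omega
  have q1 : ∀ j, ℓ j = p → t1 ≡ t [MOD N j] := fun j hj =>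
    modEq_good (hℓ j) (hK j) t1odd htodd (ht11.of_dvd (hd1 j hj))
  have q1' : ∀ j, ℓ j ≠ p → t1 ≡ 1 [MOD N j] := fun j hj =>
    modEq_good (hℓ j) (hK j) t1odd (by norm_num) (ht12.of_dvd (hd2 j hj))
  have q2' : ∀ j, ℓ j ≠ p → t2 ≡ 1 [MOD N j] := fun j hj =>
    modEq_good (hℓ j) (hK j) t2odd (by norm_num) (ht22.of_dvd (hd2 j hj))
  -- `t2 + t` is divisible by `N j`
  have q2 : ∀ j, ℓ j = p → N j ∣ t2 + t := by
    intro j hj
    have h1 : (ℓ j) ^ (K j + 1) ∣ t2 + t := by
      have h2 : t2 + t ≡ t * (M1 - 1) + t [MOD M1] := ht21.add_right t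
      have h3 : t * (M1 - 1) + t = t * M1 := by
        obtain ⟨m, hm⟩ : ∃ m, M1 = m + 1 := ⟨M1 - 1, by omega⟩
        rw [hm]
        simp only [Nat.add_sub_cancel]
        ring
      rw [h3] at h2
      have h4 : M1 ∣ t2 + t := by
        rw [(h2.dvd_iff dvd_rfl)]
        exact Dvd.intro_left _ rfl
      exact (hd1 j hj).trans h4
    rcases hK j with h5 | h5
    · rw [h5]
      exact (pow_dvd_pow _ (Nat.le_succ _)).trans h1
    · rw [h5]
      by_cases h6 : ℓ j = 2
      · rw [h6] at h1 ⊢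
        rw [pow_succ'] at h1
        exact h1
      · apply Nat.Coprime.mul_dvd_of_dvd_of_dvd
        · apply Nat.Coprime.pow_right
          rw [Nat.coprime_primes Nat.prime_two (hℓ j)]
          exact fun h => h6 h.symm
        · omega
        · exact (pow_dvd_pow _ (Nat.le_succ _)).trans h1
  have htN : ∀ j, ℓ j = p → t.Coprime (N j) := fun j hj => coprime_good (hK j) (hj ▸ ht)
  have c1 : ∀ j, t1.Coprime (N j) := by
    intro j
    by_cases hj : ℓ j = p
    · exact coprime_of_modEq (q1 j hj) (htN j hj)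
    · exact coprime_of_modEq (q1' j hj) (Nat.coprime_one_left _)
  have c2 : ∀ j, t2.Coprime (N j) := by
    intro j
    by_cases hj : ℓ j = p
    · have h1 := htN j hj
      have h2 := q2 j hj
      have h3 : (t2 + t).gcd (N j) = N j := Nat.gcd_eq_right h2
      apply Nat.Coprime.symm
      apply Nat.Coprime.symm at h1
      apply Nat.coprime_of_dvd
      intro r hr hr1 hr2
      have h4 : r ∣ t := (Nat.dvd_add_right hr2).mp (hr1.trans h2)
      exact hr.one_lt.ne' (Nat.dvd_one.mp (h1 ▸ Nat.dvd_gcd hr1 h4))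
    · exact coprime_of_modEq (q2' j hj) (Nat.coprime_one_left _)
  have h1 := algLog.sub_mem (h t1 c1) (h t2 c2)
  rw [← Finset.sum_filter_add_sum_filter_not Finset.univ (fun j => ℓ j = p)
      (fun j => hh (N j) (a j) (b j) t1),
    ← Finset.sum_filter_add_sum_filter_not Finset.univ (fun j => ℓ j = p)
      (fun j => hh (N j) (a j) (b j) t2)] at h1
  have e1 : ∑ j ∈ Finset.univ.filter (fun j => ℓ j = p), hh (N j) (a j) (b j) t1 =
      ∑ j ∈ Finset.univ.filter (fun j => ℓ j = p), hh (N j) (a j) (b j) t := by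
    apply Finset.sum_congr rfl
    intro j hj
    simp only [Finset.mem_filter, Finset.mem_univ, true_and] at hj
    apply hh_congr (D j).N0
    exact (Int.natCast_modEq_iff).mpr (q1 j hj)
  have e2 : ∑ j ∈ Finset.univ.filter (fun j => ℓ j = p), hh (N j) (a j) (b j) t2 =
      -∑ j ∈ Finset.univ.filter (fun j => ℓ j = p), hh (N j) (a j) (b j) t := by
    rw [← Finset.sum_neg_distrib]
    apply Finset.sum_congr rfl
    intro j hj
    simp only [Finset.mem_filter, Finset.mem_univ, true_and] at hj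
    rw [← hh_neg]
    apply hh_congr (D j).N0
    rw [Int.modEq_iff_dvd]
    have h2 : ((N j : ℕ) : ℤ) ∣ ((t2 + t : ℕ) : ℤ) := Int.natCast_dvd_natCast.mpr (q2 j hj)
    have h3 : -(t : ℤ) - (t2 : ℤ) = -((t2 + t : ℕ) : ℤ) := by
      push_cast
      ring
    rw [h3]
    exact (dvd_neg).mpr h2
  have e3 : ∑ j ∈ Finset.univ.filter (fun j => ¬ ℓ j = p), hh (N j) (a j) (b j) t1 =
      ∑ j ∈ Finset.univ.filter (fun j => ¬ ℓ j = p), hh (N j) (a j) (b j) t2 := by
    apply Finset.sum_congr rfl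
    intro j hj
    simp only [Finset.mem_filter, Finset.mem_univ, true_and] at hj
    apply hh_congr (D j).N0
    exact (Int.natCast_modEq_iff).mpr ((q1' j hj).trans (q2' j hj).symm)
  rw [e1, e2, e3] at h1
  have h2 := algLog.smul_mem (1 / 2 : ℚ) h1
  convert h2 using 1
  rw [Rat.smul_def]
  push_cast
  ring

theorem fract_term {N a b : ℕ} (D : Dat N a b) :
    (Int.fract ((a : ℚ) / N) - 1 / 2) + (Int.fract ((b : ℚ) / N) - 1 / 2) -
      (Int.fract (((a : ℚ) + b) / N) - 1 / 2) = 1 / 2 - if a + b < N then 1 else 0 := by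
  have hN : (0 : ℚ) < N := by exact_mod_cast D.N0
  have h1 : Int.fract ((a : ℚ) / N) = (a : ℚ) / N := by
    rw [Int.fract_eq_self]
    refine ⟨by positivity, ?_⟩
    rw [div_lt_one hN]
    exact_mod_cast D.aN
  have h2 : Int.fract ((b : ℚ) / N) = (b : ℚ) / N := by
    rw [Int.fract_eq_self]
    refine ⟨by positivity, ?_⟩
    rw [div_lt_one hN]
    exact_mod_cast D.bN
  rw [h1, h2]
  split_ifs with h
  · have h3 : Int.fract (((a : ℚ) + b) / N) = ((a : ℚ) + b) / N := by
      rw [Int.fract_eq_self]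
      refine ⟨by positivity, ?_⟩
      rw [div_lt_one hN]
      exact_mod_cast h
    rw [h3]
    ring
  · have h3 : Int.fract (((a : ℚ) + b) / N) = ((a : ℚ) + b) / N - 1 := by
      have h5 : Int.fract (((a : ℚ) + b) / N) = Int.fract (((a : ℚ) + b) / N - 1) := by
        rw [Int.fract_sub_one]
      rw [h5, Int.fract_eq_self]
      have h6 : (N : ℚ) ≤ (a : ℚ) + b := by
        have : N ≤ a + b := not_lt.mp h
        exact_mod_cast this
      have h7 : (a : ℚ) < N := by exact_mod_cast D.aN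
      have h8 : (b : ℚ) < N := by exact_mod_cast D.bN
      constructor
      · rw [sub_nonneg, one_le_div hN]
        exact h6
      · rw [sub_lt_iff_lt_add, div_lt_iff₀ hN]
        linarith
    rw [h3]
    ring

theorem step4 (hOne : Stmt_One2) (D : ∀ j, Dat (N j) (a j) (b j)) (ℓ K : Fin n → ℕ)
    (hℓ : ∀ j, (ℓ j).Prime) (hF : ∀ j, OddAt (ℓ j)) (hK : ∀ j, Good (ℓ j) (K j) (N j))
    (h : ∀ (p : ℕ) (t : ℕ), t.Coprime (2 * p) →
      ∑ j ∈ Finset.univ.filter (fun j => ℓ j = p), hh (N j) (a j) (b j) t ∈ algLog)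
    (p : ℕ) : ∑ j ∈ Finset.univ.filter (fun j => ℓ j = p),
      ((1 / 2 : ℚ) - if a j + b j < N j then 1 else 0) = 0 := by
  classical
  by_cases hp : ∃ j, ℓ j = p
  swap
  · have : Finset.univ.filter (fun j => ℓ j = p) = ∅ := by
      rw [Finset.filter_eq_empty_iff]
      intro j _ hj
      exact hp ⟨j, hj⟩
    rw [this]
    simp
  obtain ⟨j0, hj0⟩ := hp
  have hpF : OddAt p := hj0 ▸ hF j0
  have h1 := hOne p (hj0 ▸ hℓ j0) hpF (Fin n × Fin 3)
    ((Finset.univ.filter (fun j => ℓ j = p)) ×ˢ (Finset.univ : Finset (Fin 3)))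
    (fun q => ![(1 : ℤ), 1, -1] q.2)
    (fun q => ![(a q.1 : ℚ) / N q.1, (b q.1 : ℚ) / N q.1, ((a q.1 : ℚ) + b q.1) / N q.1] q.2)
    ?_ ?_
  · rw [Finset.sum_product] at h1
    refine Eq.trans ?_ h1
    apply Finset.sum_congr rfl
    intro j _
    rw [← fract_term (D j), Fin.sum_univ_three]
    simp
    ring
  · rintro ⟨j, c⟩ hq
    simp only [Finset.mem_product, Finset.mem_filter, Finset.mem_univ, true_and, and_true] at hq
    have hN : (0 : ℚ) < N j := by exact_mod_cast (D j).N0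
    obtain ⟨c0, hKj⟩ : ∃ c0 : ℤ, (2 : ℚ) * (p : ℚ) ^ K j = c0 * N j := by
      rcases hK j with h5 | h5
      · refine ⟨2, ?_⟩
        rw [h5, hq]
        push_cast
        ring
      · refine ⟨1, ?_⟩
        rw [h5, hq]
        push_cast
        ring
    constructor
    · intro z
      fin_cases c
      · simp only [Fin.zero_eta, Matrix.cons_val_zero]
        intro hz
        rw [div_eq_iff hN.ne'] at hz
        have hz' : (a j : ℤ) = z * N j := by exact_mod_cast hz
        have : (N j : ℤ) ∣ a j := ⟨z, by rw [hz']; ring⟩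
        have h2 := Nat.le_of_dvd (D j).a0 (Int.natCast_dvd_natCast.mp this)
        exact absurd (D j).aN (by omega)
      · simp only [Fin.mk_one, Matrix.cons_val_one, Matrix.cons_val_zero]
        intro hz
        rw [div_eq_iff hN.ne'] at hz
        have hz' : (b j : ℤ) = z * N j := by exact_mod_cast hz
        have : (N j : ℤ) ∣ b j := ⟨z, by rw [hz']; ring⟩
        have h2 := Nat.le_of_dvd (D j).b0 (Int.natCast_dvd_natCast.mp this)
        exact absurd (D j).bN (by omega)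
      · simp only [Fin.reduceFinMk, Matrix.cons_val]
        intro hz
        rw [div_eq_iff hN.ne'] at hz
        have hz' : ((a j + b j : ℕ) : ℤ) = z * N j := by exact_mod_cast hz
        have : (N j : ℤ) ∣ ((a j + b j : ℕ) : ℤ) := ⟨z, by rw [hz']; ring⟩
        exact (D j).ndvd (Int.natCast_dvd_natCast.mp this)
    · fin_cases c
      · refine ⟨K j, c0 * a j, ?_⟩
        simp only [Fin.zero_eta, Matrix.cons_val_zero]
        rw [hKj]
        push_cast
        field_simp
      · refine ⟨K j, c0 * b j, ?_⟩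
        simp only [Fin.mk_one, Matrix.cons_val_one, Matrix.cons_val_zero]
        rw [hKj]
        push_cast
        field_simp
      · refine ⟨K j, c0 * (a j + b j : ℕ), ?_⟩
        simp only [Fin.reduceFinMk, Matrix.cons_val]
        rw [hKj]
        push_cast
        field_simp
  · intro t ht
    have h2 := h p t ht
    rw [Finset.sum_product]
    convert h2 using 1
    apply Finset.sum_congr rfl
    intro j _
    rw [Fin.sum_univ_three]
    unfold hh
    simp
    ring

end global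

theorem thm_CORE2 (hOne : Stmt_One2) (hR : Stmt_BetaRefl) (hpi : Stmt_PiTr) : Stmt_Core2 := by
  classical
  intro n N k hN I hI
  choose ℓ K hℓ hF _ hK using hN
  set a : Fin n → ℕ := fun j => (I j).a with ha
  set b : Fin n → ℕ := fun j => (I j).b with hb
  have D : ∀ j, Dat (N j) (a j) (b j) := by
    intro j
    obtain ⟨h1, h2, h3⟩ := (I j).2
    exact ⟨h1, (I j).1.1.2, h2, (I j).1.2.2, h3⟩
  have hL : ∀ t : ℕ, (∀ j, t.Coprime (N j)) → LL N a b k t ∈ algLog := by
    intro t ht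
    exact LL_mem D ht (hI t ht)
  have h2 := step2 hR D hL
  have hn : (n : ℤ) = 2 * k := by
    have := int_log_pi hpi (h2 1 (fun j => Nat.coprime_one_left _)).1
    omega
  have h3 := step3 D ℓ K hℓ hK (fun t ht => (h2 t ht).2)
  have h4 := step4 hOne D ℓ K hℓ hF hK h3
  have h5 : ∑ j : Fin n, ((1 / 2 : ℚ) - if a j + b j < N j then 1 else 0) = 0 := by
    rw [← Finset.sum_fiberwise_of_maps_to (s := Finset.univ)
      (t := Finset.univ.image ℓ) (g := ℓ) (fun j _ => Finset.mem_image_of_mem _ (Finset.mem_univ j))]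
    exact Finset.sum_eq_zero fun p _ => h4 p
  refine ⟨hn, ?_⟩
  rw [Finset.sum_sub_distrib, Finset.sum_const, Finset.card_univ, Fintype.card_fin,
    Finset.sum_boole, nsmul_eq_mul] at h5
  have h6 : (((Finset.univ.filter fun j => a j + b j < N j).card : ℤ) : ℚ) = (k : ℚ) := by
    have h7 : ((n : ℤ) : ℚ) = 2 * k := by
      rw [hn]
      push_cast
      ring
    push_cast at h7 ⊢
    linarith
  exact_mod_cast h6

end

end Pool.Agent.FDR.CORE2
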