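import Pool.Agent.FDR.Stmts

open scoped BigOperators Polynomial

namespace Pool.Agent.FDR.DESC

noncomputable section

theorem zeta_prim {N : ℕ} (hN : 0 < N) : IsPrimitiveRoot (zeta N) N :=
  Complex.isPrimitiveRoot_exp N hN.ne'

theorem orth {N : ℕ} (hN : 0 < N) (m : ℕ) :
    ∑ r ∈ Finset.range N, zeta N ^ (r * m) = if N ∣ m then (N : ℂ) else 0 := by
  have hz := zeta_prim hN
  split_ifs with h
  · have h1 : ∀ r ∈ Finset.range N, zeta N ^ (r * m) = 1 := by
      intro r _
      rw [hz.pow_eq_one_iff_dvd]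
      exact h.mul_left r
    rw [Finset.sum_congr rfl h1]
    simp
  · have h1 : zeta N ^ m ≠ 1 := by
      intro hc
      exact h ((hz.pow_eq_one_iff_dvd m).mp hc)
    have h2 : ∑ r ∈ Finset.range N, zeta N ^ (r * m) = ∑ r ∈ Finset.range N, (zeta N ^ m) ^ r := by
      apply Finset.sum_congr rfl
      intro r _
      rw [← pow_mul, mul_comm]
    rw [h2, geom_sum_eq h1, ← pow_mul, mul_comm m N, pow_mul, hz.pow_eq_one, one_pow, sub_self, zero_div]

theorem orth_idx {N : ℕ} (hN : 0 < N) {a a' : ℕ} (ha : a < N) (ha' : a' < N) :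
    ∑ r ∈ Finset.range N, zeta N ^ (r * (a' + (N - 1) * a)) = if a' = a then (N : ℂ) else 0 := by
  rw [orth hN]
  have h1 : N ∣ a' + (N - 1) * a ↔ a' = a := by
    have h2 : a' + (N - 1) * a + a = a' + N * a := by
      obtain ⟨m, rfl⟩ : ∃ m, N = m + 1 := ⟨N - 1, by omega⟩
      simp only [Nat.add_sub_cancel]
      ring
    constructor
    · intro h
      have h3 : (a' + (N - 1) * a) + a ≡ 0 + a [MOD N] := Nat.ModEq.add_right a ((Nat.modEq_zero_iff_dvd).mpr h)
      rw [h2, zero_add] at h3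
      have h4 : a' ≡ a [MOD N] := by
        have h5 : a' + N * a ≡ a' [MOD N] := by
          unfold Nat.ModEq
          simp
        exact h5.symm.trans h3
      exact Nat.ModEq.eq_of_lt_of_lt h4 ha' ha
    · rintro rfl
      have : a' + (N - 1) * a' = N * a' := by
        have := h2
        omega
      rw [this]
      exact dvd_mul_right _ _
  simp only [h1]

variable {n : ℕ} {N : Fin n → ℕ}

/-- The grid. -/
def grid (N : Fin n → ℕ) : Finset (Fin n → ℕ) := Fintype.piFinset (fun j => Finset.range (N j))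

/-- The values of `α` on homology. -/
def val (N : Fin n → ℕ) (α : (∀ j, FIdx (N j)) → ℂ) (r s : Fin n → ℕ) : ℂ :=
  ∑ I : ∀ j, FIdx (N j), α I *
      ∏ j, (zeta (N j) ^ (r j * (I j).a + s j * (I j).b) * fper (N j) (I j))

theorem grid_prod (f : Fin n → ℕ → ℂ) :
    ∑ r ∈ grid N, ∏ j, f j (r j) = ∏ j, ∑ r ∈ Finset.range (N j), f j r := by
  unfold grid
  rw [Finset.prod_univ_sum]

theorem inversion (hN : ∀ j, 0 < N j) (α : (∀ j, FIdx (N j)) → ℂ) (I : ∀ j, FIdx (N j)) :
    ∑ r ∈ grid N, ∑ s ∈ grid N, val N α r s *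
      ∏ j, zeta (N j) ^ ((N j - 1) * (r j * (I j).a + s j * (I j).b))
      = α I * (∏ j, fper (N j) (I j)) * ∏ j, ((N j : ℂ) * N j) := by
  have h1 : ∀ I' : ∀ j, FIdx (N j),
      ∑ r ∈ grid N, ∑ s ∈ grid N,
        (∏ j, (zeta (N j) ^ (r j * (I' j).a + s j * (I' j).b) * fper (N j) (I' j))) *
        ∏ j, zeta (N j) ^ ((N j - 1) * (r j * (I j).a + s j * (I j).b))
      = (∏ j, fper (N j) (I' j)) * if I' = I then ∏ j, ((N j : ℂ) * N j) else 0 := by
    intro I'
    have h2 : ∀ r s : Fin n → ℕ,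
        (∏ j, (zeta (N j) ^ (r j * (I' j).a + s j * (I' j).b) * fper (N j) (I' j))) *
        ∏ j, zeta (N j) ^ ((N j - 1) * (r j * (I j).a + s j * (I j).b))
        = (∏ j, fper (N j) (I' j)) *
          ((∏ j, zeta (N j) ^ (r j * ((I' j).a + (N j - 1) * (I j).a))) *
            ∏ j, zeta (N j) ^ (s j * ((I' j).b + (N j - 1) * (I j).b))) := by
      intro r s
      rw [← Finset.prod_mul_distrib, ← Finset.prod_mul_distrib, ← Finset.prod_mul_distrib]
      apply Finset.prod_congr rfl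
      intro j _
      rw [mul_comm (zeta (N j) ^ (r j * (I' j).a + s j * (I' j).b)), mul_assoc, ← pow_add, ← pow_add]
      congr 2
      ring
    simp_rw [h2, ← Finset.mul_sum, ← Finset.sum_mul]
    congr 1
    rw [grid_prod (N := N) (fun j r => zeta (N j) ^ (r * ((I' j).a + (N j - 1) * (I j).a))),
      grid_prod (N := N) (fun j r => zeta (N j) ^ (r * ((I' j).b + (N j - 1) * (I j).b)))]
    have h3 : ∀ j, ∑ r ∈ Finset.range (N j), zeta (N j) ^ (r * ((I' j).a + (N j - 1) * (I j).a))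
        = if (I' j).a = (I j).a then (N j : ℂ) else 0 := fun j =>
      orth_idx (hN j) (I j).1.1.2 (I' j).1.1.2
    have h4 : ∀ j, ∑ r ∈ Finset.range (N j), zeta (N j) ^ (r * ((I' j).b + (N j - 1) * (I j).b))
        = if (I' j).b = (I j).b then (N j : ℂ) else 0 := fun j =>
      orth_idx (hN j) (I j).1.2.2 (I' j).1.2.2
    simp_rw [h3, h4]
    rw [← Finset.prod_mul_distrib]
    split_ifs with h5
    · subst h5
      simp
    · have h6 : ∃ j, I' j ≠ I j := by
        by_contra hc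
        push Not at hc
        exact h5 (funext hc)
      obtain ⟨j, hj⟩ := h6
      apply Finset.prod_eq_zero (Finset.mem_univ j)
      by_cases h7 : (I' j).a = (I j).a
      · have h8 : (I' j).b ≠ (I j).b := by
          intro h8
          apply hj
          apply Subtype.ext
          apply Prod.ext
          · exact Fin.ext h7
          · exact Fin.ext h8
        rw [if_neg h8, mul_zero]
      · rw [if_neg h7, zero_mul]
  have h9 : ∀ r s : Fin n → ℕ, val N α r s *
      ∏ j, zeta (N j) ^ ((N j - 1) * (r j * (I j).a + s j * (I j).b))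
      = ∑ I' : ∀ j, FIdx (N j), α I' *
        ((∏ j, (zeta (N j) ^ (r j * (I' j).a + s j * (I' j).b) * fper (N j) (I' j))) *
        ∏ j, zeta (N j) ^ ((N j - 1) * (r j * (I j).a + s j * (I j).b))) := by
    intro r s
    unfold val
    rw [Finset.sum_mul]
    apply Finset.sum_congr rfl
    intro I' _
    ring
  simp_rw [h9]
  have h10 : ∑ r ∈ grid N, ∑ s ∈ grid N, ∑ I' : ∀ j, FIdx (N j), α I' *
        ((∏ j, (zeta (N j) ^ (r j * (I' j).a + s j * (I' j).b) * fper (N j) (I' j))) *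
        ∏ j, zeta (N j) ^ ((N j - 1) * (r j * (I j).a + s j * (I j).b)))
      = ∑ I' : ∀ j, FIdx (N j), α I' * ∑ r ∈ grid N, ∑ s ∈ grid N,
        ((∏ j, (zeta (N j) ^ (r j * (I' j).a + s j * (I' j).b) * fper (N j) (I' j))) *
        ∏ j, zeta (N j) ^ ((N j - 1) * (r j * (I j).a + s j * (I j).b))) := by
    have h11 : ∀ r ∈ grid N, ∑ s ∈ grid N, ∑ I' : ∀ j, FIdx (N j), α I' *
        ((∏ j, (zeta (N j) ^ (r j * (I' j).a + s j * (I' j).b) * fper (N j) (I' j))) *
        ∏ j, zeta (N j) ^ ((N j - 1) * (r j * (I j).a + s j * (I j).b)))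
        = ∑ I' : ∀ j, FIdx (N j), α I' * ∑ s ∈ grid N,
        ((∏ j, (zeta (N j) ^ (r j * (I' j).a + s j * (I' j).b) * fper (N j) (I' j))) *
        ∏ j, zeta (N j) ^ ((N j - 1) * (r j * (I j).a + s j * (I j).b))) := by
      intro r _
      rw [Finset.sum_comm]
      apply Finset.sum_congr rfl
      intro I' _
      rw [Finset.mul_sum]
    rw [Finset.sum_congr rfl h11, Finset.sum_comm]
    apply Finset.sum_congr rfl
    intro I' _
    rw [Finset.mul_sum]
  rw [h10]
  simp_rw [h1]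
  rw [Finset.sum_eq_single I]
  · rw [if_pos rfl]
    ring
  · intro I' _ hne
    rw [if_neg hne]
    ring
  · intro h
    exact absurd (Finset.mem_univ I) h

/-- multiplication of indices by a unit -/
def mulIdx {M : ℕ} (hM : 0 < M) (t : ℕ) (ht : t.Coprime M) (p : FIdx M) : FIdx M :=
  ⟨(⟨(t * p.a) % M, Nat.mod_lt _ hM⟩, ⟨(t * p.b) % M, Nat.mod_lt _ hM⟩), by
    have ha : 0 < p.a := p.2.1
    have hb : 0 < p.b := p.2.2.1
    have hab : p.a + p.b ≠ M := p.2.2.2
    have haM : p.a < M := p.1.1.2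
    have hbM : p.b < M := p.1.2.2
    have key : ∀ c : ℕ, 0 < c → c < M → 0 < (t * c) % M := by
      intro c hc hcM
      rw [Nat.pos_iff_ne_zero]
      intro h0
      have h1 : M ∣ t * c := Nat.dvd_of_mod_eq_zero h0
      have h2 : M ∣ c := (Nat.Coprime.symm ht).dvd_of_dvd_mul_left h1
      exact absurd (Nat.le_of_dvd hc h2) (not_le.mpr hcM)
    refine ⟨key p.a ha haM, key p.b hb hbM, ?_⟩
    intro h
    have h : (t * p.a) % M + (t * p.b) % M = M := h
    have h1 : M ∣ t * (p.a + p.b) := by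
      have h2 : t * (p.a + p.b) % M = 0 := by
        rw [mul_add, Nat.add_mod, h, Nat.mod_self]
      exact Nat.dvd_of_mod_eq_zero h2
    have h3 : M ∣ p.a + p.b := (Nat.Coprime.symm ht).dvd_of_dvd_mul_left h1
    obtain ⟨c, hc⟩ := h3
    have h4 : c < 2 := by
      by_contra hc2
      push Not at hc2
      have : M * 2 ≤ M * c := Nat.mul_le_mul_left M hc2
      omega
    interval_cases c
    · omega
    · omega⟩

theorem mulIdx_a {M : ℕ} (hM : 0 < M) (t : ℕ) (ht : t.Coprime M) (p : FIdx M) :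
    (mulIdx hM t ht p).a = (t * p.a) % M := rfl

theorem mulIdx_b {M : ℕ} (hM : 0 < M) (t : ℕ) (ht : t.Coprime M) (p : FIdx M) :
    (mulIdx hM t ht p).b = (t * p.b) % M := rfl

theorem zeta_mul {M : ℕ} (hM : 0 < M) (t : ℕ) (ht : t.Coprime M) (p : FIdx M) (e r s : ℕ) :
    zeta M ^ (e * (r * (mulIdx hM t ht p).a + s * (mulIdx hM t ht p).b))
      = (zeta M ^ t) ^ (e * (r * p.a + s * p.b)) := by
  rw [← pow_mul, mulIdx_a, mulIdx_b]
  apply pow_eq_pow_of_modEq (n := M) _ (zeta_prim hM).pow_eq_one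
  have h1 : t * p.a % M ≡ t * p.a [MOD M] := Nat.mod_modEq _ _
  have h2 : t * p.b % M ≡ t * p.b [MOD M] := Nat.mod_modEq _ _
  have h3 : e * (r * (t * p.a % M) + s * (t * p.b % M)) ≡ e * (r * (t * p.a) + s * (t * p.b)) [MOD M] :=
    ((h1.mul_left r).add (h2.mul_left s)).mul_left e
  have h4 : e * (r * (t * p.a) + s * (t * p.b)) = t * (e * (r * p.a + s * p.b)) := by ring
  rw [h4] at h3
  exact h3

theorem zeta_pow_div {M L : ℕ} (hM : 0 < M) (hL : L ∣ M) : zeta M ^ (M / L) = zeta L := by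
  obtain ⟨c, rfl⟩ := hL
  have hL0 : 0 < L := Nat.pos_of_mul_pos_right hM |> fun _ => by
    rcases Nat.eq_zero_or_pos L with h | h
    · simp [h] at hM
    · exact h
  have hc0 : 0 < c := by
    rcases Nat.eq_zero_or_pos c with h | h
    · simp [h] at hM
    · exact h
  rw [Nat.mul_div_cancel_left _ hL0]
  unfold zeta
  rw [← Complex.exp_nat_mul]
  congr 1
  have : (c : ℂ) ≠ 0 := by exact_mod_cast hc0.ne'
  have : (L : ℂ) ≠ 0 := by exact_mod_cast hL0.ne'
  push_cast
  field_simp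

/-- The polynomial of which the Fourier coefficient is a value. -/
def gpol (N : Fin n → ℕ) (M : ℕ) (q : (Fin n → ℕ) → (Fin n → ℕ) → ℚ) (I : ∀ j, FIdx (N j)) : ℚ[X] :=
  ∑ r ∈ grid N, ∑ s ∈ grid N, Polynomial.C (q r s) *
    ∏ j, Polynomial.X ^ ((M / N j) * ((N j - 1) * (r j * (I j).a + s j * (I j).b)))

theorem gpol_eval (M : ℕ) (q : (Fin n → ℕ) → (Fin n → ℕ) → ℚ) (I : ∀ j, FIdx (N j)) (z : ℂ) :
    Polynomial.aeval z (gpol N M q I) = ∑ r ∈ grid N, ∑ s ∈ grid N, (q r s : ℂ) *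
      ∏ j, (z ^ (M / N j)) ^ ((N j - 1) * (r j * (I j).a + s j * (I j).b)) := by
  unfold gpol
  simp only [map_sum, map_mul, map_prod, map_pow, Polynomial.aeval_X, Polynomial.aeval_C,
    ← pow_mul]
  rfl

theorem conj_ne {M : ℕ} (hM : 0 < M) {t : ℕ} (ht : t.Coprime M) (g : ℚ[X])
    (h : Polynomial.aeval (zeta M) g ≠ 0) : Polynomial.aeval (zeta M ^ t) g ≠ 0 := by
  intro h0
  apply h
  have h1 := zeta_prim hM
  have h2 := h1.pow_of_coprime t ht
  have h3 : minpoly ℚ (zeta M ^ t) ∣ g := minpoly.dvd ℚ _ h0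
  rw [← Polynomial.cyclotomic_eq_minpoly_rat h2 hM, Polynomial.cyclotomic_eq_minpoly_rat h1 hM] at h3
  exact (minpoly.dvd_iff).mp h3

theorem bet_eq {x y : ℝ} (hx : 0 < x) (hy : 0 < y) : Complex.betaIntegral x y = (bet x y : ℂ) := by
  have h := Complex.Gamma_mul_Gamma_eq_betaIntegral (s := (x : ℂ)) (t := (y : ℂ)) (by simpa using hx)
    (by simpa using hy)
  have h2 : (x : ℂ) + y = ((x + y : ℝ) : ℂ) := by push_cast; rfl
  rw [h2, Complex.Gamma_ofReal, Complex.Gamma_ofReal, Complex.Gamma_ofReal] at h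
  unfold bet
  have h3 : (Real.Gamma (x + y) : ℂ) ≠ 0 := by
    exact_mod_cast (Real.Gamma_pos_of_pos (by linarith)).ne'
  push_cast
  rw [eq_div_iff h3, h]
  ring

theorem bet_pos {x y : ℝ} (hx : 0 < x) (hy : 0 < y) : 0 < bet x y := by
  unfold bet
  have := Real.Gamma_pos_of_pos hx
  have := Real.Gamma_pos_of_pos hy
  have := Real.Gamma_pos_of_pos (add_pos hx hy)
  positivity

/-- the algebraic factor -/
def fac (M : ℕ) (p : FIdx M) : ℂ := (1 - zeta M ^ p.a) * (1 - zeta M ^ p.b) / M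

theorem fper_eq {M : ℕ} (hM : 0 < M) (p : FIdx M) :
    fper M p = fac M p * (bet ((p.a : ℝ) / M) ((p.b : ℝ) / M) : ℂ) := by
  have hM' : (0 : ℝ) < M := by exact_mod_cast hM
  have ha : (0 : ℝ) < p.a := by exact_mod_cast p.2.1
  have hb : (0 : ℝ) < p.b := by exact_mod_cast p.2.2.1
  unfold fper fac
  rw [← bet_eq (by positivity) (by positivity)]
  push_cast
  rfl

theorem zeta_alg {M : ℕ} (hM : 0 < M) : IsAlgebraic ℚ (zeta M) :=
  ((zeta_prim hM).isIntegral hM).tower_top.isAlgebraic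

theorem fac_alg {M : ℕ} (hM : 0 < M) (p : FIdx M) : IsAlgebraic ℚ (fac M p) := by
  have hz := zeta_alg hM
  unfold fac
  rw [div_eq_mul_inv]
  exact ((isAlgebraic_one.sub (hz.pow _)).mul (isAlgebraic_one.sub (hz.pow _))).mul
    (isAlgebraic_natCast M).inv

theorem fac_ne {M : ℕ} (hM : 0 < M) (p : FIdx M) : fac M p ≠ 0 := by
  have key : ∀ c : ℕ, 0 < c → c < M → 1 - zeta M ^ c ≠ 0 := by
    intro c hc hcM h
    have h1 : zeta M ^ c = 1 := (sub_eq_zero.mp h).symm
    have h2 := ((zeta_prim hM).pow_eq_one_iff_dvd c).mp h1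
    exact absurd (Nat.le_of_dvd hc h2) (not_le.mpr hcM)
  unfold fac
  refine div_ne_zero (mul_ne_zero (key _ p.2.1 p.1.1.2) (key _ p.2.2.1 p.1.2.2)) ?_
  exact_mod_cast hM.ne'

theorem fper_ne {M : ℕ} (hM : 0 < M) (p : FIdx M) : fper M p ≠ 0 := by
  rw [fper_eq hM]
  have hM' : (0 : ℝ) < M := by exact_mod_cast hM
  have ha : (0 : ℝ) < p.a := by exact_mod_cast p.2.1
  have hb : (0 : ℝ) < p.b := by exact_mod_cast p.2.2.1
  refine mul_ne_zero (fac_ne hM p) ?_
  exact_mod_cast (bet_pos (x := (p.a : ℝ) / M) (y := (p.b : ℝ) / M) (by positivity) (by positivity)).ne'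

theorem alg_aeval {z : ℂ} (hz : IsAlgebraic ℚ z) (g : ℚ[X]) : IsAlgebraic ℚ (Polynomial.aeval z g) := by
  induction g using Polynomial.induction_on with
  | C a =>
    rw [Polynomial.aeval_C]
    exact isAlgebraic_algebraMap a
  | add f g hf hg =>
    rw [map_add]
    exact hf.add hg
  | monomial m a _ =>
    rw [map_mul, map_pow, Polynomial.aeval_C, Polynomial.aeval_X]
    exact (isAlgebraic_algebraMap a).mul (hz.pow _)

theorem prod_alg {ι : Type} (s : Finset ι) (f : ι → ℂ) (h : ∀ i ∈ s, IsAlgebraic ℚ (f i)) :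
    IsAlgebraic ℚ (∏ i ∈ s, f i) := by
  classical
  induction s using Finset.induction_on with
  | empty => simpa using (isAlgebraic_one : IsAlgebraic ℚ (1 : ℂ))
  | insert a s ha ih =>
    rw [Finset.prod_insert ha]
    exact (h a (Finset.mem_insert_self a s)).mul (ih fun i hi => h i (Finset.mem_insert_of_mem hi))

theorem thm_DESC : Stmt_Desc := by
  intro n N k α hN hα I hI t ht
  obtain ⟨halg, hrat⟩ := hα
  choose q hq using hrat
  set M : ℕ := ∏ j, N j with hMdef
  have hM : 0 < M := Finset.prod_pos fun j _ => hN j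
  have hdvd : ∀ j, N j ∣ M := fun j => Finset.dvd_prod_of_mem _ (Finset.mem_univ j)
  have htM : t.Coprime M := Nat.Coprime.prod_right fun j _ => ht j
  have hpi : (2 * Real.pi * Complex.I : ℂ) ≠ 0 := by
    simp [Real.pi_ne_zero, Complex.I_ne_zero]
  have hpik : (2 * Real.pi * Complex.I : ℂ) ^ k ≠ 0 := zpow_ne_zero _ hpi
  have hroot : ∀ j, zeta M ^ (M / N j) = zeta (N j) := fun j => zeta_pow_div hM (hdvd j)
  -- Fourier inversion
  have hinv : ∀ J : ∀ j, FIdx (N j), (2 * Real.pi * Complex.I : ℂ) ^ k * Polynomial.aeval (zeta M) (gpol N M q J)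
      = α J * (∏ j, fper (N j) (J j)) * ∏ j, ((N j : ℂ) * N j) := by
    intro J
    rw [← inversion hN α J, gpol_eval, Finset.mul_sum]
    apply Finset.sum_congr rfl
    intro r _
    rw [Finset.mul_sum]
    apply Finset.sum_congr rfl
    intro s _
    unfold val
    rw [hq r s]
    simp_rw [hroot]
    ring
  have hNN : ∏ j, ((N j : ℂ) * N j) ≠ 0 := by
    apply Finset.prod_ne_zero_iff.mpr
    intro j _
    have : (N j : ℂ) ≠ 0 := by exact_mod_cast (hN j).ne'
    exact mul_ne_zero this this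
  have hfp : ∀ J : ∀ j, FIdx (N j), ∏ j, fper (N j) (J j) ≠ 0 := by
    intro J
    apply Finset.prod_ne_zero_iff.mpr
    intro j _
    exact fper_ne (hN j) (J j)
  have hg0 : Polynomial.aeval (zeta M) (gpol N M q I) ≠ 0 := by
    intro h0
    have h1 := hinv I
    rw [h0, mul_zero] at h1
    exact mul_ne_zero (mul_ne_zero hI (hfp I)) hNN h1.symm
  have hgt := conj_ne hM htM _ hg0
  -- the conjugate index
  set J : ∀ j, FIdx (N j) := fun j => mulIdx (hN j) t (ht j) (I j) with hJ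
  have hgJ : Polynomial.aeval (zeta M) (gpol N M q J) = Polynomial.aeval (zeta M ^ t) (gpol N M q I) := by
    rw [gpol_eval, gpol_eval]
    apply Finset.sum_congr rfl
    intro r _
    apply Finset.sum_congr rfl
    intro s _
    congr 1
    apply Finset.prod_congr rfl
    intro j _
    rw [hroot j, zeta_mul (hN j) t (ht j)]
    congr 1
    rw [← pow_mul, mul_comm t, pow_mul, hroot j]
  have hgalg : IsAlgebraic ℚ (Polynomial.aeval (zeta M) (gpol N M q J)) :=
    alg_aeval (zeta_alg hM) _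
  have hαJ : α J ≠ 0 := by
    intro h0
    have h1 := hinv J
    rw [h0, zero_mul, zero_mul, hgJ] at h1
    exact mul_ne_zero hpik hgt h1
  -- conclusion
  have hbet : (∏ j, fper (N j) (J j)) = (∏ j, fac (N j) (J j)) *
      ((∏ j, bet (((J j).a : ℝ) / N j) (((J j).b : ℝ) / N j) : ℝ) : ℂ) := by
    push_cast
    rw [← Finset.prod_mul_distrib]
    apply Finset.prod_congr rfl
    intro j _
    rw [fper_eq (hN j)]
  set Bt : ℝ := ∏ j, bet (((J j).a : ℝ) / N j) (((J j).b : ℝ) / N j) with hBt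
  have hfac : ∏ j, fac (N j) (J j) ≠ 0 := Finset.prod_ne_zero_iff.mpr fun j _ => fac_ne (hN j) (J j)
  have hfin : (((Bt / Real.pi ^ k : ℝ)) : ℂ) = Polynomial.aeval (zeta M) (gpol N M q J) *
      (2 * Complex.I) ^ k * (α J * (∏ j, fac (N j) (J j)) * ∏ j, ((N j : ℂ) * N j))⁻¹ := by
    have h1 := hinv J
    rw [hbet] at h1
    have h2 : (2 * Real.pi * Complex.I : ℂ) ^ k = (2 * Complex.I) ^ k * (Real.pi : ℂ) ^ k := by
      rw [← mul_zpow]
      congr 1
      ring
    rw [h2] at h1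
    have hpi0 : (Real.pi : ℂ) ^ k ≠ 0 := zpow_ne_zero _ (by exact_mod_cast Real.pi_ne_zero)
    push_cast
    rw [div_eq_iff hpi0]
    have hne : α J * (∏ j, fac (N j) (J j)) * ∏ j, ((N j : ℂ) * N j) ≠ 0 :=
      mul_ne_zero (mul_ne_zero hαJ hfac) hNN
    set D : ℂ := α J * (∏ j, fac (N j) (J j)) * ∏ j, ((N j : ℂ) * N j) with hD
    set A : ℂ := Polynomial.aeval (zeta M) (gpol N M q J) with hA
    have h3 : A * (2 * Complex.I) ^ k * (Real.pi : ℂ) ^ k = D * Bt := by
      rw [hD]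
      linear_combination h1
    calc (Bt : ℂ) = D⁻¹ * (D * Bt) := (inv_mul_cancel_left₀ hne _).symm
      _ = D⁻¹ * (A * (2 * Complex.I) ^ k * (Real.pi : ℂ) ^ k) := by rw [h3]
      _ = A * (2 * Complex.I) ^ k * D⁻¹ * (Real.pi : ℂ) ^ k := by ring
  have halgfin : IsAlgebraic ℚ (((Bt / Real.pi ^ k : ℝ)) : ℂ) := by
    rw [hfin]
    have h2I : IsAlgebraic ℚ ((2 * Complex.I : ℂ) ^ k) := by
      have hI2 : IsAlgebraic ℚ (Complex.I : ℂ) := by
        apply IsIntegral.isAlgebraic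
        refine ⟨Polynomial.X ^ 2 + 1, ?_, ?_⟩
        · monicity!
        · simp
      have hb : IsAlgebraic ℚ (2 * Complex.I : ℂ) := (isAlgebraic_natCast 2).mul hI2
      cases k with
      | ofNat m => simpa using hb.pow m
      | negSucc m =>
        rw [zpow_negSucc]
        exact (hb.pow (m + 1)).inv
    refine (hgalg.mul h2I).mul ?_
    apply IsAlgebraic.inv
    refine ((halg J).mul (prod_alg _ _ fun j _ => fac_alg (hN j) (J j))).mul ?_
    exact prod_alg _ _ fun j _ => (isAlgebraic_natCast (N j)).mul (isAlgebraic_natCast (N j))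
  have hR : IsAlgebraic ℚ (Bt / Real.pi ^ k : ℝ) :=
    (isAlgebraic_algebraMap_iff (R := ℚ) (algebraMap ℝ ℂ).injective).mp halgfin
  exact hR

end

end Pool.Agent.FDR.DESC
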