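import Pool.Agent.FDR.Stmts

open scoped BigOperators
open Set

namespace Pool.Agent.FDR.DIST

noncomputable section

theorem Hlog_add_int (x : ℚ) (m : ℤ) : Hlog (x + m) = Hlog x := by
  unfold Hlog
  rw [Int.fract_add_intCast]

theorem sum_shift (n : ℕ) (h : ℤ → ℝ) (hp : ∀ m, h (m + n) = h m) (j : ℤ) :
    ∑ k ∈ Finset.range n, h (j + k) = ∑ k ∈ Finset.range n, h k := by
  have key : ∀ j : ℤ, ∑ k ∈ Finset.range n, h (j + 1 + k) = ∑ k ∈ Finset.range n, h (j + k) := by
    intro j
    have h1 : ∑ k ∈ Finset.range (n + 1), h (j + k) = ∑ k ∈ Finset.range n, h (j + k) + h (j + n) :=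
      Finset.sum_range_succ _ _
    have h2 : ∑ k ∈ Finset.range (n + 1), h (j + k)
        = ∑ k ∈ Finset.range n, h (j + ((k + 1 : ℕ) : ℤ)) + h (j + ((0 : ℕ) : ℤ)) :=
      Finset.sum_range_succ' _ _
    have h3 : ∑ k ∈ Finset.range n, h (j + 1 + k) = ∑ k ∈ Finset.range n, h (j + ((k + 1 : ℕ) : ℤ)) := by
      apply Finset.sum_congr rfl
      intro k _
      congr 1
      push_cast
      ring
    have h4 : h (j + n) = h (j + ((0 : ℕ) : ℤ)) := by
      rw [hp]
      simp
    rw [h3]
    linarith
  induction j using Int.induction_on with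
  | zero => simp
  | succ i ih => rw [key]; exact ih
  | pred i ih =>
    have := key (-(i : ℤ) - 1)
    rw [← this]
    have h5 : ∀ k : ℕ, (-(i : ℤ) - 1 + 1 + k) = -(i : ℤ) + k := by
      intro k
      ring
    simp_rw [h5]
    exact ih

theorem log_nat_mem (n : ℕ) (hn : 0 < n) : Real.log n ∈ algLog := by
  show IsAlgebraic ℚ (Real.exp (Real.log n))
  rw [Real.exp_log (by exact_mod_cast hn)]
  exact isAlgebraic_natCast n

theorem thm_DIST (hG : Stmt_GMul) : Stmt_Dist := by
  intro n hn x hx
  have hn' : (0 : ℝ) < n := by exact_mod_cast hn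
  have hnq : (0 : ℚ) < n := by exact_mod_cast hn
  set t : ℚ := Int.fract ((n : ℚ) * x) with ht
  set j : ℤ := ⌊(n : ℚ) * x⌋ with hj
  have ht1 : t < 1 := Int.fract_lt_one _
  have ht0 : 0 < t := by
    rcases (Int.fract_nonneg ((n : ℚ) * x)).lt_or_eq with h | h
    · exact h
    · exfalso
      apply hx j
      have := Int.self_sub_floor ((n : ℚ) * x)
      linarith
  have hxt : (n : ℚ) * x = t + j := by
    have := Int.self_sub_floor ((n : ℚ) * x)
    linarith
  have hxe : x = t / n + j / n := by
    field_simp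
    linarith
  -- shift the sum
  have h1 : ∑ k ∈ Finset.range n, Hlog (x + k / n) = ∑ k ∈ Finset.range n, Hlog (t / n + k / n) := by
    have h2 := sum_shift n (fun m : ℤ => Hlog (t / n + m / n)) (by
      intro m
      show Hlog (t / n + ((m + n : ℤ) : ℚ) / n) = Hlog (t / n + m / n)
      have : t / n + ((m + n : ℤ) : ℚ) / n = t / n + m / n + ((1 : ℤ) : ℚ) := by
        push_cast
        field_simp
        ring
      rw [this, Hlog_add_int]) j
    have h3 : ∀ k ∈ Finset.range n, Hlog (x + k / n) = Hlog (t / n + ((j + (k : ℤ) : ℤ) : ℚ) / n) := by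
      intro k _
      congr 1
      rw [hxe]
      push_cast
      ring
    rw [Finset.sum_congr rfl h3]
    simpa using h2
  -- values
  obtain ⟨C, hC, hG⟩ := hG n hn
  have htr0 : (0 : ℝ) < (t : ℝ) := by exact_mod_cast ht0
  have htr1 : (t : ℝ) < 1 := by exact_mod_cast ht1
  have hval : ∀ k ∈ Finset.range n, Hlog (t / n + k / n)
      = Real.log (Real.Gamma ((t : ℝ) / n + k / n))
        - Real.log (Real.Gamma ((1 - (t : ℝ)) / n + ((n - 1 - k : ℕ) : ℝ) / n)) := by
    intro k hk
    have hk' : k + 1 ≤ n := Finset.mem_range.mp hk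
    have hkq : (k : ℚ) + 1 ≤ n := by exact_mod_cast hk'
    have h4 : Int.fract (t / n + (k : ℚ) / n) = t / n + k / n := by
      rw [Int.fract_eq_self]
      constructor
      · positivity
      · rw [← add_div, div_lt_one hnq]
        linarith
    unfold Hlog
    rw [h4]
    have h5 : ((n - 1 - k : ℕ) : ℝ) = (n : ℝ) - 1 - k := by
      have : n - 1 - k = n - (k + 1) := by omega
      rw [this, Nat.cast_sub hk']
      push_cast
      ring
    congr 2
    · congr 1
      push_cast
      ring
    · congr 1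
      rw [h5]
      push_cast
      field_simp
      ring
  rw [h1, Finset.sum_congr rfl hval, Finset.sum_sub_distrib]
  have hrefl : ∑ k ∈ Finset.range n, Real.log (Real.Gamma ((1 - (t : ℝ)) / n + ((n - 1 - k : ℕ) : ℝ) / n))
      = ∑ k ∈ Finset.range n, Real.log (Real.Gamma ((1 - (t : ℝ)) / n + k / n)) :=
    Finset.sum_range_reflect (fun k : ℕ => Real.log (Real.Gamma ((1 - (t : ℝ)) / n + k / n))) n
  rw [hrefl]
  have hsum : ∀ y : ℝ, 0 < y → ∑ k ∈ Finset.range n, Real.log (Real.Gamma (y / n + k / n))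
      = Real.log C - y * Real.log n + Real.log (Real.Gamma y) := by
    intro y hy
    have h6 := hG (y / n) (by positivity)
    have h7 : (n : ℝ) * (y / n) = y := by field_simp
    rw [h7] at h6
    rw [← Real.log_prod, h6, Real.log_mul, Real.log_mul, Real.log_rpow hn']
    · ring
    · exact hC.ne'
    · exact (Real.rpow_pos_of_pos hn' _).ne'
    · exact mul_ne_zero hC.ne' (Real.rpow_pos_of_pos hn' _).ne'
    · exact (Real.Gamma_pos_of_pos hy).ne'
    · intro k _
      exact (Real.Gamma_pos_of_pos (by positivity)).ne'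
  rw [hsum t htr0, hsum (1 - t) (by linarith)]
  have hH : Hlog ((n : ℚ) * x) = Real.log (Real.Gamma t) - Real.log (Real.Gamma (1 - t)) := by
    unfold Hlog
    rw [← ht]
  rw [hH]
  have hfin : Real.log C - t * Real.log n + Real.log (Real.Gamma t)
      - (Real.log C - (1 - t) * Real.log n + Real.log (Real.Gamma (1 - t)))
      - (Real.log (Real.Gamma t) - Real.log (Real.Gamma (1 - t))) = (1 - 2 * t : ℚ) • Real.log n := by
    rw [Rat.smul_def]
    push_cast
    ring
  rw [hfin]
  exact algLog.smul_mem _ (log_nat_mem n hn)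

end

end Pool.Agent.FDR.DIST
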