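import Pool.Agent.FDR.Stmts

open scoped BigOperators Polynomial Topology
open Metric Filter

namespace Pool.Agent.FDR.DOUB

theorem two_sum {M : Type*} [AddCommMonoid M] (r : Fin 2) (F : Fin 2 → M) :
    ∑ i, F i = F r + F (1 - r) := by
  rw [Fin.sum_univ_two]
  fin_cases r
  · rfl
  · exact add_comm _ _

theorem two_prod {M : Type*} [CommMonoid M] (r : Fin 2) (F : Fin 2 → M) :
    ∏ i, F i = F r * F (1 - r) := by
  rw [Fin.prod_univ_two]
  fin_cases r
  · rfl
  · exact mul_comm _ _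

theorem thm_DOUB (hA : Stmt_AbelA) (hB : Stmt_AbelB) (hL : Stmt_LinSys) (_hCD : Stmt_ChartD) :
    Stmt_Doub := by
  intro g hg f hf hdeg b c C hinj r
  obtain ⟨p, hpan, hpA, hpB, hrat, hev⟩ := hL g hg f hf hdeg b c C hinj r
  obtain ⟨xp, xm, ε, hε, hεr, hx, hroots⟩ := hA g hg f hf hdeg (fun q => b q.1 q.2)
    (fun q => c q.1 q.2) hinj (fun q => (C q.1).β q.2) (p 0) hpA hpB
  have hAB := hB g hg f hf hdeg (fun q => b q.1 q.2)
    (fun q => c q.1 q.2) hinj (fun q => (C q.1).β q.2) (p 0) hpA hpB xp xm hx (by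
      filter_upwards [hroots] with P hP
      refine ⟨fun q => ⟨?_, ?_⟩, hP.2⟩
      · exact ((hP.1 q).2.2.1 _ (hP.1 q).1).2 rfl
      · exact ((hP.1 q).2.2.2 _ (hP.1 q).2.1).2 rfl)
  refine ⟨p, hrat, ?_⟩
  have hpc : ContinuousAt p 0 := hpan.continuousAt
  -- the chart coordinates are near `b`
  have hXball : ∀ q : Fin 2 × Fin g, ∀ᶠ z in 𝓝 (0 : Fin g → ℂ),
      (C q.1).X z q.2 ∈ ball (b q.1 q.2) ε := by
    intro q
    have h1 : ContinuousAt (fun z => (C q.1).X z q.2) 0 :=
      ((analyticAt_pi_iff.1 (C q.1).an) q.2).continuousAt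
    refine h1.eventually (isOpen_ball.mem_nhds ?_)
    change (C q.1).X 0 q.2 ∈ ball (b q.1 q.2) ε
    rw [(C q.1).X0]
    exact mem_ball_self hε
  have hXball' : ∀ᶠ z in 𝓝 (0 : Fin g → ℂ), ∀ q : Fin 2 × Fin g,
      (C q.1).X z q.2 ∈ ball (b q.1 q.2) ε := eventually_all.2 hXball
  -- the new divisor
  have hxm : ContinuousAt (fun z => fun k : Fin g => xm (r, k) (p z)) 0 := by
    refine continuousAt_pi.2 (fun k => ?_)
    exact ContinuousAt.comp (f := p) (g := xm (r, k)) ((hx (r, k)).2.1.continuousAt) hpc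
  have hxm0 : (fun k : Fin g => xm (r, k) (p 0)) = b r := by
    funext k
    exact (hx (r, k)).2.2.2
  have hleft : ∀ᶠ z in 𝓝 (0 : Fin g → ℂ),
      (C r).X (fun i : Fin g => ∑ k, ((C r).β k).I i (xm (r, k) (p z))) =
        fun k => xm (r, k) (p z) := by
    have h1 := (C r).left
    have h2 : Tendsto (fun z => fun k : Fin g => xm (r, k) (p z)) (𝓝 0) (𝓝 (b r)) := by
      rw [← hxm0]
      exact hxm
    exact h2.eventually h1
  filter_upwards [hev, hpc.eventually hroots, hpc.eventually hAB, hXball', hleft,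
    (C r).right, (C (1 - r)).right] with z hz1 hz2 hz3 hz4 hz5 hz6 hz7
  have exp : ∀ q : Fin 2 × Fin g, xp q (p z) = (C q.1).X z q.2 := fun q =>
    (((hz2.1 q).2.2.1 _ (hz4 q)).1 (hz1.1 q)).symm
  have exm : ∀ k : Fin g, xm (1 - r, k) (p z) = b (1 - r) k := by
    intro k
    refine (((hz2.1 (1 - r, k)).2.2.2 _ (mem_ball_self hε)).1 ?_).symm
    have h1 := hz1.2 k
    rw [← ((C (1 - r)).β k).y_b] at h1
    exact h1
  -- sums of integrals
  have key : ∀ i : ℕ, ∑ q : Fin 2 × Fin g, (((C q.1).β q.2).I i (xp q (p z)) -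
      ((C q.1).β q.2).I i (xm q (p z))) =
      ∑ r' : Fin 2, ∑ k, ((C r').β k).I i ((C r').X z k) -
        ∑ k, ((C r).β k).I i (xm (r, k) (p z)) := by
    intro i
    rw [Finset.sum_sub_distrib, Fintype.sum_prod_type, Fintype.sum_prod_type]
    congr 1
    · refine Finset.sum_congr rfl (fun r' _ => Finset.sum_congr rfl fun k _ => ?_)
      rw [exp (r', k)]
    · rw [two_sum r]
      have : ∑ k, ((C (1 - r)).β k).I i (xm (1 - r, k) (p z)) = 0 := by
        refine Finset.sum_eq_zero (fun k _ => ?_)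
        rw [exm k]
        exact ((C (1 - r)).β k).I_b i
      rw [this, add_zero]
  have hX2 : (C r).X ((2 : ℂ) • z) = fun k => xm (r, k) (p z) := by
    rw [← hz5]
    congr 1
    funext i
    have h1 := hz3.1 i i.2
    rw [key, two_sum r, hz6 i, hz7 i] at h1
    simp only [Pi.smul_apply, smul_eq_mul]
    linear_combination h1
  refine ⟨?_, ?_⟩
  · rw [hz2.2, Finset.prod_mul_distrib, Fintype.prod_prod_type, Fintype.prod_prod_type]
    have h1 : ∏ r' : Fin 2, ∏ k, (Polynomial.X - Polynomial.C (xp (r', k) (p z))) =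
        polyU ((C 0).X z) * polyU ((C 1).X z) := by
      rw [Fin.prod_univ_two]
      simp only [polyU, exp]
    have h2 : ∏ r' : Fin 2, ∏ k, (Polynomial.X - Polynomial.C (xm (r', k) (p z))) =
        polyU ((C r).X ((2 : ℂ) • z)) * polyU (b (1 - r)) := by
      rw [two_prod r, hX2]
      simp only [polyU, exm]
    rw [h1, h2]
    ring
  · have h1 := hz3.2
    rw [key, Fin.sum_univ_two] at h1
    have h2 : (C r).s ((2 : ℂ) • z) = ∑ k, ((C r).β k).I g (xm (r, k) (p z)) := by
      unfold Chart.s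
      rw [hX2]
    rw [h2]
    unfold Chart.s
    linear_combination -h1

end Pool.Agent.FDR.DOUB
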