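import Pool.Agent.FDR.Stmts

open scoped BigOperators Polynomial Topology
open Metric Filter

namespace Pool.Agent.FDR.DOUB2

theorem polyU_monic {g : ℕ} (x : Fin g → ℂ) : (polyU x).Monic :=
  Polynomial.monic_prod_of_monic _ _ fun k _ => Polynomial.monic_X_sub_C (x k)

theorem polyU_natDegree {g : ℕ} (x : Fin g → ℂ) : (polyU x).natDegree = g := by
  unfold polyU
  rw [Polynomial.natDegree_prod_of_monic _ _ fun k _ => Polynomial.monic_X_sub_C (x k)]
  simp

theorem polyU_coeff_top {g : ℕ} (x : Fin g → ℂ) : (polyU x).coeff g = 1 := by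
  have := polyU_monic x
  rw [Polynomial.Monic, Polynomial.leadingCoeff, polyU_natDegree] at this
  exact this

theorem polyU_coeff_gt {g : ℕ} (x : Fin g → ℂ) {l : ℕ} (hl : g < l) : (polyU x).coeff l = 0 :=
  Polynomial.coeff_eq_zero_of_natDegree_lt (by rw [polyU_natDegree]; exact hl)

theorem polyV_coeff_ge {g : ℕ} (x y : Fin g → ℂ) (hx : Function.Injective x) {l : ℕ}
    (hl : g ≤ l) : (polyV x y).coeff l = 0 := by
  have h := Lagrange.degree_interpolate_lt (s := (Finset.univ : Finset (Fin g))) (v := x) y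
    (hx.injOn)
  rw [Finset.card_univ, Fintype.card_fin] at h
  exact Polynomial.coeff_eq_zero_of_degree_lt (lt_of_lt_of_le h (by exact_mod_cast hl))

section

variable {E ι : Type} [NormedAddCommGroup E] [NormedSpace ℂ E] [Fintype ι]

theorem coeff_mul (hRC1 : Stmt_RC1) {F : E → ι → ℂ} (hF : ContinuousAt F 0)
    {P Q : E → ℂ[X]} (hP : ∀ l, RatIn F (fun z => (P z).coeff l))
    (hQ : ∀ l, RatIn F (fun z => (Q z).coeff l)) (l : ℕ) :
    RatIn F (fun z => (P z * Q z).coeff l) := by
  obtain ⟨hconst, hcoord, hadd, hmul, hneg, hinv, hcongr, hsum, hprod⟩ := hRC1 E ι F hF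
  have h := hsum (ℕ × ℕ) (Finset.HasAntidiagonal.antidiagonal l) (fun q z => (P z).coeff q.1 * (Q z).coeff q.2)
    (fun q _ => hmul _ _ (hP q.1) (hQ q.2))
  exact hcongr _ _ h (Eventually.of_forall fun z => Polynomial.coeff_mul _ _ _)

theorem coeff_sub (hRC1 : Stmt_RC1) {F : E → ι → ℂ} (hF : ContinuousAt F 0)
    {P Q : E → ℂ[X]} (hP : ∀ l, RatIn F (fun z => (P z).coeff l))
    (hQ : ∀ l, RatIn F (fun z => (Q z).coeff l)) (l : ℕ) :
    RatIn F (fun z => (P z - Q z).coeff l) := by
  obtain ⟨hconst, hcoord, hadd, hmul, hneg, hinv, hcongr, hsum, hprod⟩ := hRC1 E ι F hF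
  have h := hadd _ _ (hP l) (hneg _ (hQ l))
  refine hcongr _ _ h (Eventually.of_forall fun z => ?_)
  simp only [Polynomial.coeff_sub]
  ring

theorem coeff_polyA (hRC1 : Stmt_RC1) {F : E → ι → ℂ} (hF : ContinuousAt F 0) {g : ℕ}
    {p : E → (Fin 3 × Fin g → ℂ)} (hp : ∀ t, RatIn F (fun z => p z t)) (l : ℕ) :
    RatIn F (fun z => (polyA (p z)).coeff l) := by
  obtain ⟨hconst, hcoord, hadd, hmul, hneg, hinv, hcongr, hsum, hprod⟩ := hRC1 E ι F hF
  have h1 := hsum (Fin g) Finset.univ (fun i z => p z (0, i) * (if l = (i : ℕ) then 1 else 0))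
    (fun i _ => hmul _ _ (hp _) (hconst _))
  have h2 := hsum (Fin g) Finset.univ
    (fun i z => p z (1, i) * (if l = g + (i : ℕ) then 1 else 0))
    (fun i _ => hmul _ _ (hp _) (hconst _))
  have h3 := hadd _ _ (hadd _ _ (hconst (if l = 2 * g then 1 else 0)) h1) h2
  refine hcongr _ _ h3 (Eventually.of_forall fun z => ?_)
  unfold polyA
  simp only [Polynomial.coeff_add, Polynomial.finsetSum_coeff, Polynomial.coeff_C_mul,
    Polynomial.coeff_X_pow]

theorem coeff_polyB (hRC1 : Stmt_RC1) {F : E → ι → ℂ} (hF : ContinuousAt F 0) {g : ℕ}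
    {p : E → (Fin 3 × Fin g → ℂ)} (hp : ∀ t, RatIn F (fun z => p z t)) (l : ℕ) :
    RatIn F (fun z => (polyB (p z)).coeff l) := by
  obtain ⟨hconst, hcoord, hadd, hmul, hneg, hinv, hcongr, hsum, hprod⟩ := hRC1 E ι F hF
  have h1 := hsum (Fin g) Finset.univ (fun i z => p z (2, i) * (if l = (i : ℕ) then 1 else 0))
    (fun i _ => hmul _ _ (hp _) (hconst _))
  refine hcongr _ _ h1 (Eventually.of_forall fun z => ?_)
  unfold polyB
  simp only [Polynomial.finsetSum_coeff, Polynomial.coeff_C_mul,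
    Polynomial.coeff_X_pow]

end

theorem thm_DOUB2 (hRC1 : Stmt_RC1) (hRC2 : Stmt_RC2) (hRC3 : Stmt_RC3) (hCD : Stmt_ChartD)
    (hMum : Stmt_Mum) (hF4D : Stmt_F4D) (hDoub : Stmt_Doub) : Stmt_Doub2 := by
  intro g hg f hf hfd b c C hb
  have hbr : ∀ r, Function.Injective (b r) := by
    intro r k k' h
    have := @hb (r, k) (r, k') h
    exact (Prod.mk.inj this).2
  obtain ⟨hFan, hFd⟩ := hF4D g f hf hfd b c C hbr
  have hF : ContinuousAt (F4 C) 0 := continuousAt_pi.2 fun i => (hFan i).continuousAt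
  obtain ⟨hconst, hcoord, hadd, hmul, hneg, hinv, hcongr, hsum, hprod⟩ :=
    hRC1 (Fin g → ℂ) _ (F4 C) hF
  -- coefficients of `U_r z`
  have hUc : ∀ r l, RatIn (F4 C) (fun z => (polyU ((C r).X z)).coeff l) := by
    intro r l
    rcases lt_trichotomy l g with h | h | h
    · exact hcongr _ _ (hcoord ((r, 0), ⟨l, h⟩)) (Eventually.of_forall fun z => rfl)
    · subst h
      exact hcongr _ _ (hconst 1) (Eventually.of_forall fun z => polyU_coeff_top _)
    · exact hcongr _ _ (hconst 0) (Eventually.of_forall fun z => polyU_coeff_gt _ h)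
  have h2z : Tendsto (fun z : Fin g → ℂ => (2 : ℂ) • z) (𝓝 0) (𝓝 0) := by
    have : Tendsto (fun z : Fin g → ℂ => (2 : ℂ) • z) (𝓝 0) (𝓝 ((2 : ℂ) • (0 : Fin g → ℂ))) :=
      (continuous_const_smul (2 : ℂ)).continuousAt
    simpa using this
  -- coefficients of `U_r (2 z)`
  have hU2 : ∀ r l, RatIn (F4 C) (fun z => (polyU ((C r).X ((2 : ℂ) • z))).coeff l) := by
    intro r l
    obtain ⟨p, hp, hev⟩ := hDoub g hg f hf hfd b c C hb r
    set N : (Fin g → ℂ) → ℂ[X] := fun z => polyA (p z) ^ 2 - polyB (p z) ^ 2 * f with hN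
    set M : (Fin g → ℂ) → ℂ[X] := fun z =>
      polyU ((C 0).X z) * polyU ((C 1).X z) * polyU (b (1 - r)) with hM
    have hMm : ∀ z, (M z).Monic ∧ (M z).natDegree = 3 * g := by
      intro z
      have m1 := polyU_monic ((C 0).X z)
      have m2 := polyU_monic ((C 1).X z)
      have m3 := polyU_monic (b (1 - r))
      refine ⟨(m1.mul m2).mul m3, ?_⟩
      simp only [hM]
      rw [(m1.mul m2).natDegree_mul m3, m1.natDegree_mul m2, polyU_natDegree, polyU_natDegree,
        polyU_natDegree]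
      ring
    have hMc : ∀ l, RatIn (F4 C) (fun z => (M z).coeff l) := by
      refine coeff_mul hRC1 hF (coeff_mul hRC1 hF (hUc 0) (hUc 1)) fun l => ?_
      exact hconst _
    have hNc : ∀ l, RatIn (F4 C) (fun z => (N z).coeff l) := by
      refine coeff_sub hRC1 hF ?_ (coeff_mul hRC1 hF ?_ fun l => hconst _)
      · intro l
        have := coeff_mul hRC1 hF (coeff_polyA hRC1 hF hp) (coeff_polyA hRC1 hF hp) l
        exact hcongr _ _ this (Eventually.of_forall fun z => by simp only [pow_two])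
      · intro l
        have := coeff_mul hRC1 hF (coeff_polyB hRC1 hF hp) (coeff_polyB hRC1 hF hp) l
        exact hcongr _ _ this (Eventually.of_forall fun z => by simp only [pow_two])
    have hNe : ∀ᶠ z in 𝓝 (0 : Fin g → ℂ), N z = M z * polyU ((C r).X ((2 : ℂ) • z)) := by
      filter_upwards [hev] with z hz
      exact hz.1
    have hNd : ∀ᶠ z in 𝓝 (0 : Fin g → ℂ), (N z).natDegree ≤ 4 * g := by
      filter_upwards [hNe] with z hz
      rw [hz, (hMm z).1.natDegree_mul (polyU_monic _), (hMm z).2, polyU_natDegree]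
      omega
    obtain ⟨h1, _⟩ := hRC3 (Fin g → ℂ) _ (F4 C) hF N M (4 * g) (3 * g) hNd hNc
      (Eventually.of_forall hMm) hMc
    refine hcongr _ _ (h1 l) ?_
    filter_upwards [hNe] with z hz
    rw [hz, Polynomial.mul_divByMonic_cancel_left _ (hMm z).1]
  refine ⟨?_, ?_⟩
  · rintro ⟨⟨r, s⟩, l⟩
    fin_cases s
    · exact hcongr _ _ (hU2 r l) (Eventually.of_forall fun z => rfl)
    · -- the coefficient of V
      set u : (Fin g → ℂ) → ℂ := fun z => (polyU ((C r).X z)).coeff (g - 1) with hu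
      have hgl : g - 1 < g := by omega
      have hu_an : AnalyticAt ℂ u 0 := hFan ((r, 0), ⟨g - 1, hgl⟩)
      have hu_diff : ∀ᶠ z in 𝓝 (0 : Fin g → ℂ), DifferentiableAt ℂ u z := by
        filter_upwards [hu_an.eventually_analyticAt] with z hz
        exact hz.differentiableAt
      have hR : RatIn (F4 C) (fun z => fderiv ℂ (fun z => u ((2 : ℂ) • z)) z (Pi.single l 1)) :=
        hRC2 (Fin g → ℂ) _ (F4 C) hFan (Pi.single l 1) (fun i => hFd i l) _ (hU2 r (g - 1))
      have hR2 := hmul _ _ (hconst (-(1 / 2))) hR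
      refine hcongr _ _ hR2 ?_
      have hM := hMum g f hf hfd (b r) (c r) (C r) (hbr r)
      have hI := (hCD g f (b r) (c r) (C r) (hbr r)).2.2.2.2
      filter_upwards [h2z.eventually hM, h2z.eventually hI, h2z.eventually hu_diff] with
        z hMz hIz hdz
      have e1 : fderiv ℂ (fun z => u ((2 : ℂ) • z)) z (Pi.single l 1) =
          2 * fderiv ℂ u ((2 : ℂ) • z) (Pi.single l 1) := by
        have hd : HasFDerivAt (fun z : Fin g → ℂ => u ((2 : ℂ) • z))
            ((fderiv ℂ u ((2 : ℂ) • z)).comp ((2 : ℂ) • ContinuousLinearMap.id ℂ (Fin g → ℂ)))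
            z := by
          refine HasFDerivAt.comp z hdz.hasFDerivAt ?_
          exact ((2 : ℂ) • ContinuousLinearMap.id ℂ (Fin g → ℂ)).hasFDerivAt
        rw [hd.fderiv]
        simp
      have e2 := (hMz l (g - 1)).1
      have e3 : fderiv ℂ u ((2 : ℂ) • z) (Pi.single l 1) =
          -(polyV ((C r).X ((2 : ℂ) • z)) ((C r).Y ((2 : ℂ) • z))).coeff l := by
        rw [hu, e2]
        congr 1
        rw [Finset.sum_eq_single 0]
        · have : g - 1 + 1 + 0 = g := by omega
          rw [this, polyU_coeff_top, polyV_coeff_ge _ _ hIz.1 le_rfl]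
          simp
        · intro t _ ht
          have hg1 : g < g - 1 + 1 + t := by omega
          have hg2 : g ≤ g - 1 + 1 + t := hg1.le
          rw [polyU_coeff_gt _ hg1, polyV_coeff_ge _ _ hIz.1 hg2]
          ring
        · intro h
          exact absurd (Finset.mem_range.2 (Nat.succ_pos _)) h
      rw [e1, e3]
      change (polyV ((C r).X ((2 : ℂ) • z)) ((C r).Y ((2 : ℂ) • z))).coeff l = _
      ring
  · intro r
    obtain ⟨p, hp, hev⟩ := hDoub g hg f hf hfd b c C hb r
    have h1 := hmul _ _ (hconst 2) (hp (2, ⟨g - 1, by omega⟩))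
    refine hcongr _ _ h1 ?_
    filter_upwards [hev] with z hz
    rw [hz.2]
    ring

end Pool.Agent.FDR.DOUB2
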