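import Pool.Agent.FDR.Stmts

/-!
# FDR: module F1G
The functions of one chart have finite order.
-/

open scoped BigOperators Polynomial Topology
open Metric Filter

namespace Pool.Agent.FDR.F1G

noncomputable section

/-- the index type -/
abbrev Idx (g : ℕ) : Type := ((Fin 2 × Fin 2) × Fin g) ⊕ Fin 2

/-- all functions together, on `ℂ ^ g × ℂ` -/
def H {g : ℕ} {f : ℂ[X]} {b c : Fin 2 → Fin g → ℂ} (C : ∀ r, Chart g f (b r) (c r))
    (p : (Fin g → ℂ) × ℂ) : Idx g → ℂ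
  | Sum.inl i => F4 C p.1 i
  | Sum.inr r => (C r).s p.1 - p.2

theorem ratIn_fst {g : ℕ} {f : ℂ[X]} {b c : Fin 2 → Fin g → ℂ}
    (C : ∀ r, Chart g f (b r) (c r)) (h : (Fin g → ℂ) → ℂ) (hh : RatIn (F4 C) h) :
    RatIn (H C) (fun p => h p.1) := by
  obtain ⟨P, Q, hQ, hPQ⟩ := hh
  refine ⟨MvPolynomial.rename Sum.inl P, MvPolynomial.rename Sum.inl Q, ?_, ?_⟩
  · rw [MvPolynomial.eval_rename]
    exact hQ
  · have ht : Tendsto (fun p : (Fin g → ℂ) × ℂ => p.1) (𝓝 0) (𝓝 0) :=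
      continuous_fst.tendsto 0
    filter_upwards [ht.eventually hPQ] with p hp
    rw [MvPolynomial.eval_rename, MvPolynomial.eval_rename]
    exact hp

/-- the embedding of the index set of `F1` -/
def φ (g : ℕ) : Option (Fin g) → Idx g
  | some l => Sum.inl ((0, 0), l)
  | none => Sum.inr 0

end

end Pool.Agent.FDR.F1G

namespace Pool.Agent.FDR.F1G

theorem thm_F1G (hGrowth : Stmt_Growth) (hPull : Stmt_Pull) (hDoub2 : Stmt_Doub2)
    (hF4D : Stmt_F4D) (hChartD : Stmt_ChartD) (hRC1 : Stmt_RC1) : Stmt_F1G := by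
  intro g hg f hf hdeg b c C hb
  have hbr : ∀ r, Function.Injective (b r) := by
    intro r i j hij
    have := @hb (r, i) (r, j) hij
    exact (Prod.mk.inj this).2
  obtain ⟨han4, -⟩ := hF4D g f hf hdeg b c C hbr
  have hs : ∀ r, AnalyticAt ℂ (C r).s 0 := fun r => (hChartD g f (b r) (c r) (C r) (hbr r)).2.1
  have hfst : AnalyticAt ℂ (fun p : (Fin g → ℂ) × ℂ => p.1) 0 := analyticAt_fst
  have hsnd : AnalyticAt ℂ (fun p : (Fin g → ℂ) × ℂ => p.2) 0 := analyticAt_snd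
  have hanH : ∀ i, AnalyticAt ℂ (fun p => H C p i) 0 := by
    intro i
    rcases i with i | r
    · exact AnalyticAt.comp (f := fun p : (Fin g → ℂ) × ℂ => p.1)
        (g := fun z => F4 C z i) (han4 i) hfst
    · exact (AnalyticAt.comp (f := fun p : (Fin g → ℂ) × ℂ => p.1)
        (g := (C r).s) (hs r) hfst).sub hsnd
  have hcont : ContinuousAt (H C) 0 := continuousAt_pi.mpr fun i => (hanH i).continuousAt
  obtain ⟨-, hcoord, hadd, -, -, -, hcongr, -, -⟩ := hRC1 _ _ (H C) hcont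
  obtain ⟨hd4, hds⟩ := hDoub2 g hg f hf hdeg b c C hb
  have hrat : ∀ i, RatIn (H C) (fun p => H C ((2 : ℂ) • p) i) := by
    intro i
    rcases i with i | r
    · exact ratIn_fst C (fun z => F4 C ((2 : ℂ) • z) i) (hd4 i)
    · have h1 := ratIn_fst C _ (hds r)
      have h2 := hadd _ _ (hadd _ _ h1 (hcoord (Sum.inr 0))) (hcoord (Sum.inr 1))
      refine hcongr _ _ h2 (Eventually.of_forall fun p => ?_)
      change (C r).s ((2 : ℂ) • p.1) - (2 : ℂ) • p.2 = ((C r).s ((2 : ℂ) • p.1) - (C 0).s p.1 -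
        (C 1).s p.1) + ((C 0).s p.1 - p.2) + ((C 1).s p.1 - p.2)
      rw [smul_eq_mul]
      ring
  have hG := hGrowth _ _ (H C) hanH hrat
  have hP := (hPull _ _ _ (Option (Fin g)) (H C)
    (ContinuousLinearMap.id ℂ ((Fin g → ℂ) × ℂ)) (φ g) hG).1
  have heq : F1 (C 0) = fun z i => H C ((ContinuousLinearMap.id ℂ ((Fin g → ℂ) × ℂ)) z)
      (φ g i) := by
    funext z i
    rcases i with _ | l
    · rfl
    · rfl
  rw [heq]
  exact hP

end Pool.Agent.FDR.F1G
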