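import Pool.Agent.FDR.Stmts2

/-!
# FDR, module FINAL: assembly
-/

open scoped BigOperators Polynomial Topology
open Metric Filter

namespace Pool.Agent.FDR.FINAL

noncomputable section

theorem goodDeg_pos {N : ℕ} (h : GoodDeg N) : 0 < N := by
  obtain ⟨ℓ, K, s, hℓ, -, -, hN | hN⟩ := h
  · rw [hN]
    exact pow_pos hℓ.pos K
  · rw [hN]
    have := pow_pos hℓ.pos K
    positivity

theorem thm_FINAL (hMain2 : Stmt_Main2) (hLoop : Stmt_Loop) : Stmt_Final := by
  intro n N k hN α hα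
  refine hMain2 n N k hN α ⟨hα.1, ?_⟩
  intro r s
  choose γ hγ using fun j => hLoop (N j) (goodDeg_pos (hN j)) (r j) (s j)
  obtain ⟨q, hq⟩ := hα.2 γ
  refine ⟨q, ?_⟩
  rw [← hq]
  refine Finset.sum_congr rfl fun I _ => ?_
  congr 1
  exact Finset.prod_congr rfl fun j _ => (hγ j (I j)).symm

end

end Pool.Agent.FDR.FINAL
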