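import Pool.Agent.FDR.Stmts

/-! Module GD: iterated distribution relations. -/

set_option autoImplicit false

open scoped BigOperators Polynomial Topology
open Metric Filter

namespace Pool.Agent.FDR.GD

theorem per_nat {V : Type} (h : ℚ → V) (hper : ∀ x, h (x + 1) = h x) (n : ℕ) (x : ℚ) :
    h (x + n) = h x := by
  induction n with
  | zero => simp
  | succ n ih =>
    rw [Nat.cast_succ, ← add_assoc, hper, ih]

theorem base {V : Type} [AddCommGroup V] (h : ℚ → V) (hper : ∀ x, h (x + 1) = h x) (m a : ℕ)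
    (hm : 0 < m) :
    ∑ b ∈ (Finset.range m).filter (fun b => b ≡ a [MOD m]), h ((b : ℚ) / (m : ℚ)) =
      h ((a : ℚ) / (m : ℚ)) := by
  have h1 : (Finset.range m).filter (fun b => b ≡ a [MOD m]) = {a % m} := by
    ext b
    simp only [Finset.mem_filter, Finset.mem_range, Finset.mem_singleton]
    constructor
    · rintro ⟨hb, hba⟩
      have h2 : b % m = a % m := hba
      rwa [Nat.mod_eq_of_lt hb] at h2
    · rintro rfl
      exact ⟨Nat.mod_lt _ hm, Nat.mod_modEq _ _⟩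
  rw [h1, Finset.sum_singleton]
  have hm' : (m : ℚ) ≠ 0 := by exact_mod_cast hm.ne'
  have h3 : (a : ℚ) / m = ((a % m : ℕ) : ℚ) / m + ((a / m : ℕ) : ℚ) := by
    have h4 : (a : ℚ) = ((a % m : ℕ) : ℚ) + (m : ℚ) * ((a / m : ℕ) : ℚ) := by
      exact_mod_cast (Nat.mod_add_div a m).symm
    rw [div_add' _ _ _ hm', mul_comm ((a / m : ℕ) : ℚ) (m : ℚ), ← h4]
  rw [h3, per_nat h hper]

theorem thm_GD : Stmt_GD := by
  intro V _ h ℓ hℓ hper hdist i K a hi hiK hcop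
  induction K, hiK using Nat.le_induction with
  | base => exact base h hper (ℓ ^ i) a (pow_pos hℓ.pos i)
  | succ K hiK ih =>
    rw [← ih]
    have hK : 0 < ℓ ^ K := pow_pos hℓ.pos K
    have hℓ0 : (ℓ : ℚ) ≠ 0 := by exact_mod_cast hℓ.ne_zero
    have hK0 : ((ℓ ^ K : ℕ) : ℚ) ≠ 0 := by exact_mod_cast hK.ne'
    have hdvd : ℓ ^ i ∣ ℓ ^ K := pow_dvd_pow ℓ hiK
    have hstep : ∀ b ∈ (Finset.range (ℓ ^ K)).filter (fun b => b ≡ a [MOD ℓ ^ i]),
        h ((b : ℚ) / ((ℓ ^ K : ℕ) : ℚ)) =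
          ∑ k ∈ Finset.range ℓ, h (((b + ℓ ^ K * k : ℕ) : ℚ) / ((ℓ ^ (K + 1) : ℕ) : ℚ)) := by
      intro b hb
      rw [Finset.mem_filter, Finset.mem_range] at hb
      have e0 : (ℓ : ℚ) * ((b : ℚ) / ((ℓ ^ (K + 1) : ℕ) : ℚ)) = (b : ℚ) / ((ℓ ^ K : ℕ) : ℚ) := by
        rw [pow_succ, Nat.cast_mul]
        field_simp
      have hnint : ∀ z : ℤ, (ℓ : ℚ) * ((b : ℚ) / ((ℓ ^ (K + 1) : ℕ) : ℚ)) ≠ z := by
        intro z hz
        rw [e0, div_eq_iff hK0] at hz
        have hz' : (b : ℤ) = z * ((ℓ ^ K : ℕ) : ℤ) := by exact_mod_cast hz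
        have h1 : ((ℓ ^ K : ℕ) : ℤ) ∣ (b : ℤ) := ⟨z, by rw [hz', mul_comm]⟩
        have h2 : ℓ ^ K ∣ b := by exact_mod_cast h1
        have h3 : ℓ ∣ ℓ ^ i := dvd_pow_self ℓ hi.ne'
        have h4 : ℓ ^ i ∣ b := hdvd.trans h2
        have h5 : ℓ ^ i ∣ a := (hb.2.dvd_iff dvd_rfl).1 h4
        have h6 : ℓ ∣ a := h3.trans h5
        have h7 : ℓ ∣ Nat.gcd a ℓ := Nat.dvd_gcd h6 dvd_rfl
        rw [hcop] at h7
        exact hℓ.one_lt.ne' (Nat.dvd_one.1 h7)
      have h1 := hdist _ hnint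
      rw [e0] at h1
      rw [← h1]
      refine Finset.sum_congr rfl fun k _ => ?_
      congr 1
      rw [pow_succ]
      push_cast
      field_simp
    rw [Finset.sum_congr rfl hstep, ← Finset.sum_product']
    refine Finset.sum_nbij' (fun b => (b % ℓ ^ K, b / ℓ ^ K)) (fun p => p.1 + ℓ ^ K * p.2)
      ?_ ?_ ?_ ?_ ?_
    · intro b hb
      rw [Finset.mem_filter, Finset.mem_range] at hb
      rw [Finset.mem_product, Finset.mem_filter, Finset.mem_range, Finset.mem_range]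
      refine ⟨⟨Nat.mod_lt _ hK, ?_⟩, ?_⟩
      · exact ((Nat.mod_modEq b (ℓ ^ K)).of_dvd hdvd).trans hb.2
      · rw [Nat.div_lt_iff_lt_mul hK, mul_comm, ← pow_succ]
        exact hb.1
    · rintro ⟨b, k⟩ hp
      rw [Finset.mem_product, Finset.mem_filter, Finset.mem_range, Finset.mem_range] at hp
      obtain ⟨⟨hb, hba⟩, hk⟩ := hp
      rw [Finset.mem_filter, Finset.mem_range]
      refine ⟨?_, ?_⟩
      · calc b + ℓ ^ K * k < ℓ ^ K + ℓ ^ K * k := Nat.add_lt_add_right hb _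
          _ = ℓ ^ K * (k + 1) := by ring
          _ ≤ ℓ ^ K * ℓ := Nat.mul_le_mul_left _ hk
          _ = ℓ ^ (K + 1) := (pow_succ _ _).symm
      · refine Nat.ModEq.trans ?_ hba
        have : (b + ℓ ^ K * k) ≡ b + 0 [MOD ℓ ^ i] :=
          Nat.ModEq.add_left b ((Nat.modEq_zero_iff_dvd).2 (hdvd.trans (dvd_mul_right _ _)))
        simpa using this
    · intro b _
      exact Nat.mod_add_div b (ℓ ^ K)
    · rintro ⟨b, k⟩ hp
      rw [Finset.mem_product, Finset.mem_filter, Finset.mem_range, Finset.mem_range] at hp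
      obtain ⟨⟨hb, -⟩, -⟩ := hp
      simp only [Prod.mk.injEq]
      refine ⟨?_, ?_⟩
      · rw [Nat.add_mul_mod_self_left, Nat.mod_eq_of_lt hb]
      · rw [Nat.add_mul_div_left _ _ hK, Nat.div_eq_of_lt hb, zero_add]
    · intro b _
      simp only
      rw [Nat.mod_add_div]

end Pool.Agent.FDR.GD
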