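import Pool.Agent.FDR.Stmts

open scoped BigOperators
open Set

namespace Pool.Agent.FDR.GMUL

noncomputable section

/-- The unnormalised function. -/
def F (n : ℕ) (y : ℝ) : ℝ := (n : ℝ) ^ y * ∏ k ∈ Finset.range n, Real.Gamma ((y + k) / n)

theorem F_pos {n : ℕ} (hn : 0 < n) {y : ℝ} (hy : 0 < y) : 0 < F n y := by
  have hn' : (0 : ℝ) < n := by exact_mod_cast hn
  unfold F
  apply mul_pos (Real.rpow_pos_of_pos hn' _)
  apply Finset.prod_pos
  intro k _
  apply Real.Gamma_pos_of_pos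
  positivity

theorem F_add_one {n : ℕ} (hn : 0 < n) {y : ℝ} (hy : 0 < y) : F n (y + 1) = y * F n y := by
  have hn' : (0 : ℝ) < n := by exact_mod_cast hn
  unfold F
  obtain ⟨m, rfl⟩ : ∃ m, n = m + 1 := ⟨n - 1, by omega⟩
  rw [Finset.prod_range_succ, Finset.prod_range_succ']
  have h1 : Real.Gamma ((y + 1 + (m : ℕ)) / ((m + 1 : ℕ) : ℝ))
      = y / ((m + 1 : ℕ) : ℝ) * Real.Gamma ((y + (0 : ℕ)) / ((m + 1 : ℕ) : ℝ)) := by
    have h2 : (y + 1 + (m : ℕ)) / ((m + 1 : ℕ) : ℝ) = y / ((m + 1 : ℕ) : ℝ) + 1 := by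
      push_cast
      field_simp
      ring
    rw [h2, Real.Gamma_add_one (by positivity)]
    push_cast
    ring_nf
  have h3 : ∏ k ∈ Finset.range m, Real.Gamma ((y + 1 + (k : ℕ)) / ((m + 1 : ℕ) : ℝ))
      = ∏ k ∈ Finset.range m, Real.Gamma ((y + ((k + 1 : ℕ) : ℝ)) / ((m + 1 : ℕ) : ℝ)) := by
    apply Finset.prod_congr rfl
    intro k _
    congr 2
    push_cast
    ring
  rw [h1, h3, Real.rpow_add hn', Real.rpow_one]
  field_simp

theorem convex_term {n : ℕ} (hn : 0 < n) (k : ℕ) :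
    ConvexOn ℝ (Ioi (0 : ℝ)) (fun y : ℝ => Real.log (Real.Gamma ((y + k) / n))) := by
  have hn' : (0 : ℝ) < n := by exact_mod_cast hn
  have h := Real.convexOn_log_Gamma
  refine ⟨convex_Ioi 0, ?_⟩
  intro x hx y hy a b ha hb hab
  have hx' : (x + k) / n ∈ Ioi (0 : ℝ) := by
    have : (0 : ℝ) < x := hx
    show 0 < (x + k) / n
    positivity
  have hy' : (y + k) / n ∈ Ioi (0 : ℝ) := by
    have : (0 : ℝ) < y := hy
    show 0 < (y + k) / n
    positivity
  have h1 := h.2 hx' hy' ha hb hab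
  simp only [Function.comp_apply] at h1
  have h2 : a • ((x + k) / n) + b • ((y + k) / n) = (a • x + b • y + k) / n := by
    simp only [smul_eq_mul]
    have : (k : ℝ) = (a + b) * k := by rw [hab, one_mul]
    field_simp
    linear_combination (-1 : ℝ) * this
  rw [h2] at h1
  exact h1

theorem convex_F {n : ℕ} (hn : 0 < n) (c : ℝ) (hc : 0 < c) :
    ConvexOn ℝ (Ioi (0 : ℝ)) (Real.log ∘ (fun y => c * F n y)) := by
  have hn' : (0 : ℝ) < n := by exact_mod_cast hn
  have h1 : ConvexOn ℝ (Ioi (0 : ℝ)) (fun y : ℝ =>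
      ∑ k ∈ Finset.range n, Real.log (Real.Gamma ((y + k) / n))) := by
    have : ∀ s : Finset ℕ, ConvexOn ℝ (Ioi (0 : ℝ)) (fun y : ℝ =>
      ∑ k ∈ s, Real.log (Real.Gamma ((y + k) / n))) := by
      intro s
      induction s using Finset.induction_on with
      | empty => simpa using convexOn_const (0 : ℝ) (convex_Ioi (0 : ℝ))
      | insert a s ha ih =>
        simp_rw [Finset.sum_insert ha]
        exact (convex_term hn a).add ih
    exact this _
  have h2 : ConvexOn ℝ (Ioi (0 : ℝ)) (fun y : ℝ => y * Real.log n + Real.log c) := by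
    refine ⟨convex_Ioi 0, ?_⟩
    intro x _ y _ a b _ _ hab
    apply le_of_eq
    simp only [smul_eq_mul]
    have : b = 1 - a := by linarith
    rw [this]
    ring
  have h3 := h2.add h1
  refine h3.congr ?_
  intro y hy
  have hy : 0 < y := hy
  have hg : ∀ k ∈ Finset.range n, Real.Gamma ((y + k) / n) ≠ 0 := by
    intro k _
    exact (Real.Gamma_pos_of_pos (by positivity)).ne'
  show y * Real.log n + Real.log c + ∑ k ∈ Finset.range n, Real.log (Real.Gamma ((y + k) / n))
    = Real.log (c * F n y)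
  unfold F
  rw [Real.log_mul hc.ne' (mul_ne_zero (Real.rpow_pos_of_pos hn' _).ne' (Finset.prod_ne_zero_iff.mpr hg)),
    Real.log_mul (Real.rpow_pos_of_pos hn' _).ne' (Finset.prod_ne_zero_iff.mpr hg),
    Real.log_rpow hn', Real.log_prod hg]
  ring

theorem thm_GMUL : Stmt_GMul := by
  intro n hn
  have hn' : (0 : ℝ) < n := by exact_mod_cast hn
  have hF1 : 0 < F n 1 := F_pos hn one_pos
  refine ⟨F n 1, hF1, ?_⟩
  intro x hx
  have key : EqOn (fun y => (F n 1)⁻¹ * F n y) Real.Gamma (Ioi 0) := by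
    apply Real.eq_Gamma_of_log_convex
    · exact convex_F hn _ (by positivity)
    · intro y hy
      show (F n 1)⁻¹ * F n (y + 1) = y * ((F n 1)⁻¹ * F n y)
      rw [F_add_one hn hy]
      ring
    · intro y hy
      have := F_pos hn hy
      show 0 < (F n 1)⁻¹ * F n y
      positivity
    · exact inv_mul_cancel₀ hF1.ne'
  have hnx : (n : ℝ) * x ∈ Ioi (0 : ℝ) := by
    show 0 < (n : ℝ) * x
    positivity
  have h1 := key hnx
  simp only at h1
  have h2 : F n (n * x) = (n : ℝ) ^ ((n : ℝ) * x) * ∏ k ∈ Finset.range n, Real.Gamma (x + k / n) := by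
    unfold F
    congr 1
    apply Finset.prod_congr rfl
    intro k _
    congr 1
    field_simp
  rw [h2] at h1
  rw [← h1, Real.rpow_neg hn'.le]
  have h3 : (n : ℝ) ^ ((n : ℝ) * x) ≠ 0 := (Real.rpow_pos_of_pos hn' _).ne'
  field_simp

end

end Pool.Agent.FDR.GMUL
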