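import Pool.Agent.FDR.Stmts

/-!
# FDR: module GROWTH
A rational doubling formula gives a meromorphic continuation of finite order.
-/

open scoped BigOperators Polynomial Topology
open Metric Filter

namespace Pool.Agent.FDR.GROWTH

noncomputable section

variable {E ι : Type} [NormedAddCommGroup E] [NormedSpace ℂ E] [Fintype ι]

/-- homogenisation of degree `D`, as a function -/
def hom (P : MvPolynomial ι ℂ) (D : ℕ) (t : ℂ) (x : ι → ℂ) : ℂ :=
  ∑ a ∈ P.support, P.coeff a * t ^ (D - ∑ i, a i) * ∏ i, x i ^ a i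

theorem deg_le (P : MvPolynomial ι ℂ) (D : ℕ) (hD : P.totalDegree ≤ D) (a : ι →₀ ℕ)
    (ha : a ∈ P.support) : ∑ i, a i ≤ D := by
  have h1 := MvPolynomial.le_totalDegree ha
  rw [Finsupp.sum_fintype _ _ (fun _ => rfl)] at h1
  exact h1.trans hD

theorem hom_smul (P : MvPolynomial ι ℂ) (D : ℕ) (hD : P.totalDegree ≤ D) (t : ℂ)
    (x : ι → ℂ) : hom P D t (fun i => x i * t) = t ^ D * MvPolynomial.eval x P := by
  rw [hom, MvPolynomial.eval_eq', Finset.mul_sum]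
  refine Finset.sum_congr rfl fun a ha => ?_
  have h1 := deg_le P D hD a ha
  have h2 : ∏ i, (x i * t) ^ a i = (∏ i, x i ^ a i) * t ^ (∑ i, a i) := by
    rw [← Finset.prod_pow_eq_pow_sum, ← Finset.prod_mul_distrib]
    exact Finset.prod_congr rfl fun i _ => mul_pow _ _ _
  rw [h2]
  have h3 : t ^ D = t ^ (D - ∑ i, a i) * t ^ (∑ i, a i) := by
    rw [← pow_add, Nat.sub_add_cancel h1]
  rw [h3]
  ring

theorem hom_norm (P : MvPolynomial ι ℂ) (D : ℕ) (hD : P.totalDegree ≤ D) (t : ℂ)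
    (x : ι → ℂ) (M : ℝ) (hM : 1 ≤ M) (ht : ‖t‖ ≤ M) (hx : ∀ i, ‖x i‖ ≤ M) :
    ‖hom P D t x‖ ≤ (∑ a ∈ P.support, ‖P.coeff a‖) * M ^ D := by
  rw [hom, Finset.sum_mul]
  refine norm_sum_le_of_le _ fun a ha => ?_
  have h1 := deg_le P D hD a ha
  have hM0 : (0 : ℝ) ≤ M := by linarith
  rw [norm_mul, norm_mul, norm_pow, mul_assoc]
  refine mul_le_mul_of_nonneg_left ?_ (norm_nonneg _)
  have h3 : M ^ D = M ^ (D - ∑ i, a i) * M ^ (∑ i, a i) := by
    rw [← pow_add, Nat.sub_add_cancel h1]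
  rw [h3]
  refine mul_le_mul (pow_le_pow_left₀ (norm_nonneg _) ht _) ?_ (norm_nonneg _) (by positivity)
  rw [norm_prod, ← Finset.prod_pow_eq_pow_sum]
  refine Finset.prod_le_prod (fun i _ => norm_nonneg _) fun i _ => ?_
  rw [norm_pow]
  exact pow_le_pow_left₀ (norm_nonneg _) (hx i) _

theorem hom_an (P : MvPolynomial ι ℂ) (D : ℕ) {G0 : E → ℂ} {G : ι → E → ℂ} {z : E}
    (h0 : AnalyticAt ℂ G0 z) (h : ∀ i, AnalyticAt ℂ (G i) z) :
    AnalyticAt ℂ (fun z => hom P D (G0 z) (fun i => G i z)) z := by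
  unfold hom
  fun_prop

/-- the recursive sequence of numerators and denominators -/
def GG (F : E → ι → ℂ) (Q : MvPolynomial ι ℂ) (P : ι → MvPolynomial ι ℂ) (D : ℕ) :
    ℕ → (E → ℂ) × (ι → E → ℂ)
  | 0 => (fun _ => 1, fun i z => F z i)
  | k + 1 =>
    (fun z => hom Q D ((GG F Q P D k).1 ((1 / 2 : ℂ) • z))
        (fun i => (GG F Q P D k).2 i ((1 / 2 : ℂ) • z)),
     fun j z => hom (P j) D ((GG F Q P D k).1 ((1 / 2 : ℂ) • z))
        (fun i => (GG F Q P D k).2 i ((1 / 2 : ℂ) • z)))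

theorem half_mem {k : ℕ} {r : ℝ} {z : E} (hz : z ∈ ball (0 : E) (2 ^ (k + 1) * r)) :
    (1 / 2 : ℂ) • z ∈ ball (0 : E) (2 ^ k * r) := by
  rw [mem_ball_zero_iff] at hz ⊢
  rw [norm_smul]
  have : ‖(1 / 2 : ℂ)‖ = 1 / 2 := by norm_num
  rw [this]
  rw [pow_succ] at hz
  linarith

theorem GG_an (F : E → ι → ℂ) (Q : MvPolynomial ι ℂ) (P : ι → MvPolynomial ι ℂ) (D : ℕ)
    (r : ℝ) (hF : ∀ z ∈ ball (0 : E) r, ∀ i, AnalyticAt ℂ (fun z => F z i) z) (k : ℕ) :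
    ∀ z ∈ ball (0 : E) (2 ^ k * r), AnalyticAt ℂ (GG F Q P D k).1 z ∧
      ∀ i, AnalyticAt ℂ ((GG F Q P D k).2 i) z := by
  induction k with
  | zero =>
    intro z hz
    rw [pow_zero, one_mul] at hz
    exact ⟨analyticAt_const, fun i => hF z hz i⟩
  | succ k ih =>
    intro z hz
    have h1 := ih _ (half_mem hz)
    have h2 : AnalyticAt ℂ (fun z : E => (1 / 2 : ℂ) • z) z := by fun_prop
    have h3 : AnalyticAt ℂ (fun z : E => (GG F Q P D k).1 ((1 / 2 : ℂ) • z)) z :=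
      AnalyticAt.comp (f := fun z : E => (1 / 2 : ℂ) • z) h1.1 h2
    have h4 : ∀ i, AnalyticAt ℂ (fun z : E => (GG F Q P D k).2 i ((1 / 2 : ℂ) • z)) z :=
      fun i => AnalyticAt.comp (f := fun z : E => (1 / 2 : ℂ) • z) (h1.2 i) h2
    exact ⟨hom_an Q D h3 h4, fun j => hom_an (P j) D h3 h4⟩

theorem GG_eq (F : E → ι → ℂ) (Q : MvPolynomial ι ℂ) (P : ι → MvPolynomial ι ℂ) (D : ℕ)
    (hQD : Q.totalDegree ≤ D) (hPD : ∀ i, (P i).totalDegree ≤ D)
    (hF : ∀ᶠ z in 𝓝 (0 : E), ∀ i, F ((2 : ℂ) • z) i * MvPolynomial.eval (F z) Q =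
      MvPolynomial.eval (F z) (P i)) (k : ℕ) :
    ∀ᶠ z in 𝓝 (0 : E), ∀ i, (GG F Q P D k).2 i z = F z i * (GG F Q P D k).1 z := by
  induction k with
  | zero => exact Eventually.of_forall fun z i => (mul_one _).symm
  | succ k ih =>
    have ht : Tendsto (fun z : E => (1 / 2 : ℂ) • z) (𝓝 0) (𝓝 0) := by
      have : Continuous (fun z : E => (1 / 2 : ℂ) • z) := by fun_prop
      simpa using this.tendsto 0
    filter_upwards [ht.eventually ih, ht.eventually hF] with z h1 h2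
    intro j
    have h3 : (fun i => (GG F Q P D k).2 i ((1 / 2 : ℂ) • z)) =
        fun i => F ((1 / 2 : ℂ) • z) i * (GG F Q P D k).1 ((1 / 2 : ℂ) • z) := funext h1
    have h4 : (2 : ℂ) • ((1 / 2 : ℂ) • z) = z := by
      rw [smul_smul]; norm_num
    have h5 := h2 j
    rw [h4] at h5
    change hom (P j) D ((GG F Q P D k).1 ((1 / 2 : ℂ) • z))
        (fun i => (GG F Q P D k).2 i ((1 / 2 : ℂ) • z)) = F z j *
        hom Q D ((GG F Q P D k).1 ((1 / 2 : ℂ) • z))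
        (fun i => (GG F Q P D k).2 i ((1 / 2 : ℂ) • z))
    rw [h3, hom_smul _ _ (hPD j), hom_smul _ _ hQD, ← h5]
    ring

theorem GG_zero (F : E → ι → ℂ) (Q : MvPolynomial ι ℂ) (P : ι → MvPolynomial ι ℂ) (D : ℕ)
    (hQD : Q.totalDegree ≤ D) (hPD : ∀ i, (P i).totalDegree ≤ D)
    (hF : ∀ᶠ z in 𝓝 (0 : E), ∀ i, F ((2 : ℂ) • z) i * MvPolynomial.eval (F z) Q =
      MvPolynomial.eval (F z) (P i)) (k : ℕ) :
    (GG F Q P D (k + 1)).1 0 = (GG F Q P D k).1 0 ^ D * MvPolynomial.eval (F 0) Q := by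
  have h1 := (GG_eq F Q P D hQD hPD hF k).self_of_nhds
  change hom Q D ((GG F Q P D k).1 ((1 / 2 : ℂ) • 0))
        (fun i => (GG F Q P D k).2 i ((1 / 2 : ℂ) • 0)) = _
  rw [smul_zero]
  have h3 : (fun i => (GG F Q P D k).2 i 0) =
        fun i => F 0 i * (GG F Q P D k).1 0 := funext h1
  rw [h3, hom_smul _ _ hQD]

theorem GG_lower (F : E → ι → ℂ) (Q : MvPolynomial ι ℂ) (P : ι → MvPolynomial ι ℂ) (D : ℕ)
    (hD : 2 ≤ D)
    (hQD : Q.totalDegree ≤ D) (hPD : ∀ i, (P i).totalDegree ≤ D)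
    (hF : ∀ᶠ z in 𝓝 (0 : E), ∀ i, F ((2 : ℂ) • z) i * MvPolynomial.eval (F z) Q =
      MvPolynomial.eval (F z) (P i)) (c : ℝ) (hc : 0 ≤ c)
    (hq : Real.exp (-c) ≤ ‖MvPolynomial.eval (F 0) Q‖) (k : ℕ) :
    Real.exp (-(c * (D ^ k - 1))) ≤ ‖(GG F Q P D k).1 0‖ := by
  induction k with
  | zero =>
    change _ ≤ ‖(1 : ℂ)‖
    simp
  | succ k ih =>
    rw [GG_zero F Q P D hQD hPD hF k, norm_mul, norm_pow]
    have h1 : Real.exp (-(c * (D ^ k - 1))) ^ D * Real.exp (-c) ≤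
        ‖(GG F Q P D k).1 0‖ ^ D * ‖MvPolynomial.eval (F 0) Q‖ :=
      mul_le_mul (pow_le_pow_left₀ (Real.exp_pos _).le ih _) hq (Real.exp_pos _).le
        (by positivity)
    refine le_trans ?_ h1
    rw [← Real.exp_nat_mul, ← Real.exp_add]
    apply Real.exp_le_exp.mpr
    have h2 : (2 : ℝ) ≤ D := by exact_mod_cast hD
    have h3 : (0 : ℝ) ≤ c * (D - 2) := mul_nonneg hc (by linarith)
    rw [pow_succ]
    nlinarith

theorem GG_upper (F : E → ι → ℂ) (Q : MvPolynomial ι ℂ) (P : ι → MvPolynomial ι ℂ) (D : ℕ)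
    (hD : 2 ≤ D)
    (hQD : Q.totalDegree ≤ D) (hPD : ∀ i, (P i).totalDegree ≤ D) (r : ℝ) (c : ℝ) (hc : 0 ≤ c)
    (hF : ∀ z ∈ ball (0 : E) r, ∀ i, ‖F z i‖ ≤ Real.exp c)
    (hQ : ∑ a ∈ Q.support, ‖Q.coeff a‖ ≤ Real.exp c)
    (hP : ∀ i, ∑ a ∈ (P i).support, ‖(P i).coeff a‖ ≤ Real.exp c) (k : ℕ) :
    ∀ z ∈ ball (0 : E) (2 ^ k * r), ‖(GG F Q P D k).1 z‖ ≤ Real.exp (c * (2 * D ^ k - 1)) ∧
      ∀ i, ‖(GG F Q P D k).2 i z‖ ≤ Real.exp (c * (2 * D ^ k - 1)) := by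
  have h2 : (2 : ℝ) ≤ D := by exact_mod_cast hD
  induction k with
  | zero =>
    intro z hz
    rw [pow_zero, one_mul] at hz
    constructor
    · change ‖(1 : ℂ)‖ ≤ _
      rw [norm_one]
      apply Real.one_le_exp
      rw [pow_zero]
      linarith
    · intro i
      refine (hF z hz i).trans (Real.exp_le_exp.mpr ?_)
      rw [pow_zero]
      linarith
  | succ k ih =>
    intro z hz
    obtain ⟨h3, h4⟩ := ih _ (half_mem hz)
    have h5 : (1 : ℝ) ≤ (D : ℝ) ^ k := one_le_pow₀ (by linarith)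
    have h6 : 0 ≤ c * (2 * (D : ℝ) ^ k - 1) := mul_nonneg hc (by linarith)
    have h7 : Real.exp c * Real.exp (c * (2 * (D : ℝ) ^ k - 1)) ^ D ≤
        Real.exp (c * (2 * (D : ℝ) ^ (k + 1) - 1)) := by
      rw [← Real.exp_nat_mul, ← Real.exp_add]
      apply Real.exp_le_exp.mpr
      have h3 : (0 : ℝ) ≤ c * (D - 2) := mul_nonneg hc (by linarith)
      rw [pow_succ]
      nlinarith
    constructor
    · refine (hom_norm Q D hQD _ _ _ (Real.one_le_exp h6) h3 h4).trans (le_trans ?_ h7)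
      exact mul_le_mul_of_nonneg_right hQ (by positivity)
    · intro i
      refine (hom_norm (P i) D (hPD i) _ _ _ (Real.one_le_exp h6) h3 h4).trans
        (le_trans ?_ h7)
      exact mul_le_mul_of_nonneg_right (hP i) (by positivity)

theorem main (F : E → ι → ℂ) (hF : ∀ i, AnalyticAt ℂ (fun z => F z i) 0)
    (hR : ∀ i, RatIn F (fun z => F ((2 : ℂ) • z) i)) : HasGrowth F := by
  classical
  choose P0 Q0 hQ0 hPQ0 using hR
  set Q : MvPolynomial ι ℂ := ∏ i, Q0 i with hQdef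
  set P : ι → MvPolynomial ι ℂ := fun i => P0 i * ∏ j ∈ Finset.univ.erase i, Q0 j with hPdef
  have hQne : MvPolynomial.eval (F 0) Q ≠ 0 := by
    rw [hQdef, map_prod]
    exact Finset.prod_ne_zero_iff.mpr fun i _ => hQ0 i
  have hPQ : ∀ᶠ z in 𝓝 (0 : E), ∀ i, F ((2 : ℂ) • z) i * MvPolynomial.eval (F z) Q =
      MvPolynomial.eval (F z) (P i) := by
    have : ∀ᶠ z in 𝓝 (0 : E), ∀ i, F ((2 : ℂ) • z) i * MvPolynomial.eval (F z) (Q0 i) =
      MvPolynomial.eval (F z) (P0 i) := eventually_all.mpr hPQ0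
    filter_upwards [this] with z hz i
    have h1 : Q = Q0 i * ∏ j ∈ Finset.univ.erase i, Q0 j :=
      (Finset.mul_prod_erase Finset.univ Q0 (Finset.mem_univ i)).symm
    rw [h1, hPdef]
    simp only [map_mul]
    rw [← mul_assoc, hz i]
  -- the radius
  have h1 : ∀ᶠ z in 𝓝 (0 : E), ∀ i, AnalyticAt ℂ (fun z => F z i) z ∧
      ‖F z i‖ < ‖F 0 i‖ + 1 := by
    refine eventually_all.mpr fun i => ?_
    have h2 : ContinuousAt (fun z => ‖F z i‖) 0 := (hF i).continuousAt.norm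
    exact (hF i).eventually_analyticAt.and
      (h2.eventually_lt (continuousAt_const) (lt_add_one _))
  obtain ⟨ε, hε, hball⟩ := Metric.eventually_nhds_iff_ball.mp h1
  set r : ℝ := min ε 1 with hr
  have hr0 : 0 < r := lt_min hε one_pos
  have hr1 : r ≤ 1 := min_le_right _ _
  have hsub : ball (0 : E) r ⊆ ball 0 ε := ball_subset_ball (min_le_left _ _)
  -- the degree
  obtain ⟨m, hm⟩ : ∃ m : ℕ, Q.totalDegree + ∑ i, (P i).totalDegree < 2 ^ m :=
    ⟨_, Nat.lt_two_pow_self⟩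
  set m' : ℕ := m + 1 with hm'
  set D : ℕ := 2 ^ m' with hDdef
  have hD2 : 2 ≤ D := by
    rw [hDdef, hm', pow_succ]
    have := Nat.one_le_two_pow (n := m)
    omega
  have hmD : 2 ^ m ≤ D := by
    rw [hDdef, hm', pow_succ]; omega
  have hQD : Q.totalDegree ≤ D := by omega
  have hPD : ∀ i, (P i).totalDegree ≤ D := by
    intro i
    have : (P i).totalDegree ≤ ∑ i, (P i).totalDegree :=
      Finset.single_le_sum (f := fun i => (P i).totalDegree) (fun _ _ => Nat.zero_le _)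
        (Finset.mem_univ i)
    omega
  -- the constants
  obtain ⟨c1, hc1⟩ : ∃ c1 : ℝ, Real.exp (-c1) ≤ ‖MvPolynomial.eval (F 0) Q‖ :=
    ⟨-Real.log ‖MvPolynomial.eval (F 0) Q‖, by
      rw [neg_neg, Real.exp_log (norm_pos_iff.mpr hQne)]⟩
  set T : ℝ := (∑ i, (‖F 0 i‖ + 1)) + (∑ a ∈ Q.support, ‖Q.coeff a‖) +
    ∑ i, ∑ a ∈ (P i).support, ‖(P i).coeff a‖ with hT
  have hT1 : 0 ≤ ∑ i, (‖F 0 i‖ + 1) := Finset.sum_nonneg fun i _ => by positivity
  have hT2 : 0 ≤ ∑ a ∈ Q.support, ‖Q.coeff a‖ := Finset.sum_nonneg fun i _ => by positivity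
  have hT3 : 0 ≤ ∑ i, ∑ a ∈ (P i).support, ‖(P i).coeff a‖ :=
    Finset.sum_nonneg fun i _ => Finset.sum_nonneg fun a _ => by positivity
  set c : ℝ := max (max c1 T) 1 with hc
  have hcc1 : c1 ≤ c := (le_max_left _ _).trans (le_max_left _ _)
  have hcT : T ≤ c := (le_max_right _ _).trans (le_max_left _ _)
  have hc0 : 1 ≤ c := le_max_right _ _
  have hexp : T ≤ Real.exp c := hcT.trans (by linarith [Real.add_one_le_exp c])
  have hlow := GG_lower F Q P D hD2 hQD hPD hPQ c (by linarith)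
    (le_trans (Real.exp_le_exp.mpr (by linarith)) hc1)
  have hup := GG_upper F Q P D hD2 hQD hPD r c (by linarith)
    (fun z hz i => by
      have h3 := (hball z (hsub hz) i).2.le
      have h4 : ‖F 0 i‖ + 1 ≤ ∑ i, (‖F 0 i‖ + 1) :=
        Finset.single_le_sum (f := fun i => ‖F 0 i‖ + 1) (fun _ _ => by positivity)
          (Finset.mem_univ i)
      linarith)
    (by linarith)
    (fun i => by
      have h4 : ∑ a ∈ (P i).support, ‖(P i).coeff a‖ ≤
          ∑ i, ∑ a ∈ (P i).support, ‖(P i).coeff a‖ :=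
        Finset.single_le_sum (f := fun i => ∑ a ∈ (P i).support, ‖(P i).coeff a‖)
          (fun _ _ => Finset.sum_nonneg fun a _ => by positivity) (Finset.mem_univ i)
      linarith)
  have han := GG_an F Q P D r (fun z hz i => (hball z (hsub hz) i).1)
  refine ⟨2 * c * (2 / r) ^ m', m', by positivity, ?_, ?_⟩
  · rw [hm']; push_cast
    have : (0 : ℝ) ≤ m := Nat.cast_nonneg m
    linarith
  intro R hR
  have hRr : 1 ≤ R / r := by
    rw [le_div_iff₀ hr0]; linarith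
  obtain ⟨n, hn1, hn2⟩ := exists_nat_pow_near hRr (one_lt_two)
  have hk1 : R ≤ 2 ^ (n + 1) * r := by
    rw [div_lt_iff₀ hr0] at hn2
    exact hn2.le
  have hk2 : (D : ℝ) ^ (n + 1) ≤ (2 / r) ^ m' * R ^ m' := by
    rw [hDdef]
    push_cast
    rw [← pow_mul, mul_comm m' (n + 1), pow_mul, ← mul_pow]
    refine pow_le_pow_left₀ (by positivity) ?_ _
    rw [pow_succ]
    calc (2 : ℝ) ^ n * 2 ≤ R / r * 2 := by linarith
      _ = 2 / r * R := by ring
  have hRm : R ^ ((m' : ℕ) : ℝ) = R ^ m' := Real.rpow_natCast R m'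
  have hb : 2 * c * (D : ℝ) ^ (n + 1) ≤ 2 * c * (2 / r) ^ m' * R ^ ((m' : ℕ) : ℝ) := by
    rw [hRm, mul_assoc (2 * c)]
    exact mul_le_mul_of_nonneg_left hk2 (by linarith)
  have hD0 : (1 : ℝ) ≤ (D : ℝ) ^ (n + 1) := one_le_pow₀ (by
    have h2 : (2 : ℝ) ≤ D := by exact_mod_cast hD2
    linarith)
  have hbsub : ball (0 : E) R ⊆ ball 0 (2 ^ (n + 1) * r) := ball_subset_ball hk1
  have hlow' := hlow (n + 1)
  refine ⟨⟨(GG F Q P D (n + 1)).1, (GG F Q P D (n + 1)).2, ?_, ?_, ?_, ?_⟩, ?_, ?_⟩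
  · exact fun z hz => (han (n + 1) z (hbsub hz)).1
  · exact fun i z hz => (han (n + 1) z (hbsub hz)).2 i
  · intro h0
    rw [h0, norm_zero] at hlow'
    exact absurd hlow' (not_le.mpr (Real.exp_pos _))
  · exact GG_eq F Q P D hQD hPD hPQ (n + 1)
  · intro z hz
    have h5 := hup (n + 1) z (hbsub hz)
    have h6 : Real.exp (c * (2 * (D : ℝ) ^ (n + 1) - 1)) ≤
        Real.exp (2 * c * (2 / r) ^ m' * R ^ ((m' : ℕ) : ℝ)) := by
      apply Real.exp_le_exp.mpr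
      nlinarith
    exact ⟨h5.1.trans h6, fun i => (h5.2 i).trans h6⟩
  · refine le_trans (Real.exp_le_exp.mpr ?_) hlow'
    nlinarith

end

end Pool.Agent.FDR.GROWTH

namespace Pool.Agent.FDR.GROWTH

theorem thm_GROWTH : Stmt_Growth := by
  intro E ι _ _ _ F hF hR
  exact main F hF hR

end Pool.Agent.FDR.GROWTH
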