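import Pool.Agent.FDR.Stmts2

/-!
FDR/IND3 (helper92): algebraic independence on `y ^ 2 = x ^ 3 + 1` from the general
criterion `Stmt_IndG`.
-/

open scoped BigOperators Polynomial Topology
open Metric Filter

namespace Pool.Agent.FDR.IND3

noncomputable section

theorem bet_pos {x y : ℝ} (hx : 0 < x) (hy : 0 < y) : 0 < bet x y := by
  unfold bet
  have := Real.Gamma_pos_of_pos hx
  have := Real.Gamma_pos_of_pos hy
  have := Real.Gamma_pos_of_pos (add_pos hx hy)
  positivity

theorem lam_succ (k i : ℕ) : lam 1 (k + 1) i =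
    Complex.exp (2 * Real.pi * Complex.I / 3) ^ (i + 1) * lam 1 k i := by
  unfold lam
  rw [← Complex.exp_nat_mul]
  have h1 : Complex.I * Real.pi * (2 * ((k + 1 : ℕ) : ℂ) + 1) * ((i : ℂ) + 1)
      / (2 * ((1 : ℕ) : ℂ) + 1)
      = ((i + 1 : ℕ) : ℂ) * (2 * Real.pi * Complex.I / 3)
        + Complex.I * Real.pi * (2 * (k : ℂ) + 1) * ((i : ℂ) + 1) / (2 * ((1 : ℕ) : ℂ) + 1) := by
    push_cast
    ring
  rw [h1, Complex.exp_add]
  ring

theorem zne (i : ℕ) (hi : i = 0 ∨ i = 1) :
    Complex.exp (2 * Real.pi * Complex.I / 3) ^ (i + 1) ≠ 1 := by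
  have hprim := Complex.isPrimitiveRoot_exp 3 (by norm_num)
  have h3 : Complex.exp (2 * Real.pi * Complex.I / 3)
      = Complex.exp (2 * Real.pi * Complex.I / ((3 : ℕ) : ℂ)) := by norm_num
  rw [h3]
  intro h
  have h4 := hprim.dvd_of_pow_eq_one _ h
  rcases hi with rfl | rfl <;> omega

theorem lam_ne (k i : ℕ) (_hi : i = 0 ∨ i = 1) : lam 1 k i ≠ 0 := by
  unfold lam
  have h1 : 0 < bet (((i : ℝ) + 1) / (2 * (1 : ℕ) + 1)) (1 / 2) := by
    refine bet_pos (by positivity) (by norm_num)
  have h2 : ((bet (((i : ℝ) + 1) / (2 * (1 : ℕ) + 1)) (1 / 2) : ℝ) : ℂ) ≠ 0 := by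
    exact_mod_cast h1.ne'
  refine mul_ne_zero (mul_ne_zero ?_ (Complex.exp_ne_zero _)) ?_
  · push_cast
    norm_num
  · exact h2

theorem thm_IND3 (hG : Stmt_IndG) : Stmt_Ind3 := by
  intro b c C hgr hper P hP
  set z : ℂ := Complex.exp (2 * Real.pi * Complex.I / 3) with hz
  set e : (Fin 1 → ℂ) × ℂ := lamv 1 1 - lamv 1 0 with he
  have he1 : e.1 0 = (z - 1) * lam 1 0 0 := by
    have := lam_succ 0 0
    simp only [he, lamv, Prod.fst_sub, Pi.sub_apply, Fin.val_zero]
    rw [show (1 : ℕ) = 0 + 1 by rfl] at *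
    rw [lam_succ 0 0]
    ring
  have he2 : e.2 = (z ^ 2 - 1) * lam 1 0 1 := by
    simp only [he, lamv, Prod.snd_sub]
    rw [lam_succ 0 1]
    ring
  have h21 : (lamv 1 2 - lamv 1 1) = ((z • e.1, z ^ 2 • e.2) : (Fin 1 → ℂ) × ℂ) := by
    have a1 := lam_succ 1 0
    have a2 := lam_succ 0 0
    have a3 := lam_succ 1 1
    have a4 := lam_succ 0 1
    norm_num at a1 a2 a3 a4
    refine Prod.ext ?_ ?_
    · funext i
      have hi : i = 0 := Subsingleton.elim _ _
      subst hi
      simp only [Pi.smul_apply, smul_eq_mul]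
      rw [he1]
      simp only [lamv, Prod.fst_sub, Pi.sub_apply, Fin.val_zero]
      rw [a1, a2]
      ring
    · simp only [smul_eq_mul]
      rw [he2]
      simp only [lamv, Prod.snd_sub]
      rw [a3, a4]
      ring
  have hne1 : e.1 ≠ 0 := by
    intro h
    have h1 : e.1 0 = 0 := by rw [h]; rfl
    rw [he1] at h1
    rcases mul_eq_zero.1 h1 with h2 | h2
    · have := zne 0 (Or.inl rfl)
      rw [← hz] at this
      apply this
      rw [pow_one]
      linear_combination h2
    · exact lam_ne 0 0 (Or.inl rfl) h2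
  have hne2 : e.2 ≠ 0 := by
    intro h1
    rw [he2] at h1
    rcases mul_eq_zero.1 h1 with h2 | h2
    · have := zne 1 (Or.inr rfl)
      rw [← hz] at this
      apply this
      linear_combination h2
    · exact lam_ne 0 1 (Or.inr rfl) h2
  have hκ : z ≠ z ^ 2 := by
    intro h
    have := zne 0 (Or.inl rfl)
    rw [← hz] at this
    apply this
    have hz0 : z ≠ 0 := Complex.exp_ne_zero _
    have h3 : z * (z - 1) = 0 := by linear_combination -h
    rcases mul_eq_zero.1 h3 with h4 | h4
    · exact absurd h4 hz0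
    · rw [pow_one]; linear_combination h4
  have hp : IsPer (F1 C) (z • e.1, z ^ 2 • e.2) := by
    rw [← h21]
    exact hper 2 1
  obtain ⟨l, hl⟩ := hG 1 _ b c C (Function.injective_of_subsingleton b) hgr e z (z ^ 2) hne1 hne2 hκ
    hp
  have hl0 : l = 0 := Subsingleton.elim _ _
  subst hl0
  -- transfer
  let σ : Option (Fin 1) ≃ Fin 2 :=
    { toFun := fun o => match o with
        | some _ => 0
        | none => 1
      invFun := fun j => if j = 0 then some 0 else none
      left_inv := by
        intro o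
        rcases o with _ | i
        · rfl
        · have hi : i = 0 := Subsingleton.elim _ _
          subst hi
          rfl
      right_inv := by
        intro j
        fin_cases j <;> rfl }
  have h5 := hl (MvPolynomial.rename σ P) ?_
  · exact (MvPolynomial.rename_injective σ σ.injective) (by rw [h5, map_zero])
  · have hcont : Tendsto (fun w : Fin 1 → ℂ => w 0) (𝓝 0) (𝓝 (0 : ℂ)) := by
      have : ContinuousAt (fun w : Fin 1 → ℂ => w 0) 0 := (continuous_apply 0).continuousAt
      simpa [ContinuousAt] using this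
    have h6 := hcont.eventually hP
    filter_upwards [h6] with w hw
    rw [MvPolynomial.eval_rename]
    convert hw using 3
    funext o
    rcases o with _ | i
    · simp [σ]
    · have hi : i = 0 := Subsingleton.elim _ _
      subst hi
      simp [σ]

end

end Pool.Agent.FDR.IND3
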