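import Pool.Agent.FDR.Stmts2

/-!
# INDG: a criterion for algebraic independence on a line
-/

set_option autoImplicit false

open scoped BigOperators Polynomial Topology
open Metric Filter

namespace Pool.Agent.FDR.INDG

/-- homogenised evaluation -/
noncomputable def hom (P : MvPolynomial (Fin 2) ℂ) (x0 : ℂ) (x : Fin 2 → ℂ) : ℂ :=
  ∑ m ∈ P.support, P.coeff m * (x0 ^ (P.totalDegree - ∑ i, m i) * ∏ i, x i ^ m i)

theorem hom_mul (P : MvPolynomial (Fin 2) ℂ) (x0 : ℂ) (y : Fin 2 → ℂ) :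
    hom P x0 (fun i => y i * x0) = x0 ^ P.totalDegree * MvPolynomial.eval y P := by
  unfold hom
  rw [MvPolynomial.eval_eq', Finset.mul_sum]
  apply Finset.sum_congr rfl
  intro m hm
  have h1 : ∑ i, m i ≤ P.totalDegree := by
    have := MvPolynomial.le_totalDegree hm
    rwa [Finsupp.sum_fintype _ _ (fun _ => rfl)] at this
  have h2 : ∏ i, (y i * x0) ^ m i = (∏ i, y i ^ m i) * x0 ^ (∑ i, m i) := by
    rw [← Finset.prod_pow_eq_pow_sum, ← Finset.prod_mul_distrib]
    exact Finset.prod_congr rfl fun i _ => mul_pow _ _ _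
  rw [h2]
  have h3 : x0 ^ P.totalDegree = x0 ^ (P.totalDegree - ∑ i, m i) * x0 ^ (∑ i, m i) := by
    rw [← pow_add, Nat.sub_add_cancel h1]
  rw [h3]
  ring

theorem hom_analytic (P : MvPolynomial (Fin 2) ℂ) {U : Set ℂ} {g0 : ℂ → ℂ} {g : ℂ → Fin 2 → ℂ}
    (h0 : AnalyticOnNhd ℂ g0 U) (h : ∀ i, AnalyticOnNhd ℂ (fun w => g w i) U) :
    AnalyticOnNhd ℂ (fun w => hom P (g0 w) (g w)) U := by
  intro w hw
  unfold hom
  refine Finset.analyticAt_fun_sum _ fun m _ => ?_
  refine analyticAt_const.mul (((h0 w hw).pow _).mul ?_)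
  exact Finset.analyticAt_fun_prod _ fun i _ => ((h i) w hw).pow _

theorem eval_analytic (P : MvPolynomial (Fin 2) ℂ) {U : Set ℂ} {g : ℂ → Fin 2 → ℂ}
    (h : ∀ i, AnalyticOnNhd ℂ (fun w => g w i) U) :
    AnalyticOnNhd ℂ (fun w => MvPolynomial.eval (g w) P) U := by
  intro w hw
  have e : (fun w => MvPolynomial.eval (g w) P) =
      fun w => ∑ m ∈ P.support, P.coeff m * ∏ i, g w i ^ m i := by
    funext w
    rw [MvPolynomial.eval_eq']
  rw [e]
  refine Finset.analyticAt_fun_sum _ fun m _ => ?_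
  refine analyticAt_const.mul ?_
  exact Finset.analyticAt_fun_prod _ fun i _ => ((h i) w hw).pow _

/-- substitution `Y ↦ Y - μ` -/
noncomputable def shift (μ : ℂ) (P : MvPolynomial (Fin 2) ℂ) : MvPolynomial (Fin 2) ℂ :=
  MvPolynomial.aeval (fun i : Fin 2 => if i = 0 then MvPolynomial.X 0 else
    MvPolynomial.X 1 - MvPolynomial.C μ) P

theorem eval_shift (μ : ℂ) (P : MvPolynomial (Fin 2) ℂ) (a b : ℂ) :
    MvPolynomial.eval ![a, b] (shift μ P) = MvPolynomial.eval ![a, b - μ] P := by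
  unfold shift
  rw [← MvPolynomial.coe_aeval_eq_eval, ← MvPolynomial.coe_aeval_eq_eval]
  show MvPolynomial.aeval ![a, b] (MvPolynomial.aeval _ P) = MvPolynomial.aeval _ P
  rw [← AlgHom.comp_apply, MvPolynomial.comp_aeval]
  congr 2
  funext i
  fin_cases i
  · simp
  · simp

theorem eval_shift_iter (μ : ℂ) (n : ℕ) (P : MvPolynomial (Fin 2) ℂ) (a b : ℂ) :
    MvPolynomial.eval ![a, b] ((shift μ)^[n] P) = MvPolynomial.eval ![a, b - n * μ] P := by
  induction n generalizing b with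
  | zero => simp
  | succ n ih =>
    rw [Function.iterate_succ_apply', eval_shift, ih]
    have h : b - μ - n * μ = b - ((n + 1 : ℕ) : ℂ) * μ := by
      push_cast
      ring
    rw [h]

/-- The step: the relation is stable under the shift. -/
theorem step {E : Type} [NormedAddCommGroup E] [NormedSpace ℂ E] (u s : E → ℂ) (ε : ℝ)
    (hε : 0 < ε) (hu : AnalyticOnNhd ℂ u (ball 0 ε)) (hs : AnalyticOnNhd ℂ s (ball 0 ε))
    (G0 : E × ℂ → ℂ) (G1 G2 : E × ℂ → ℂ) (R : ℝ) (a0 : AnalyticOnNhd ℂ G0 (ball 0 R))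
    (a1 : AnalyticOnNhd ℂ G1 (ball 0 R)) (a2 : AnalyticOnNhd ℂ G2 (ball 0 R))
    (hne : G0 0 ≠ 0)
    (e0 : ∀ᶠ z in 𝓝 (0 : E × ℂ), G1 z = u z.1 * G0 z ∧ G2 z = (s z.1 - z.2) * G0 z)
    (e : E × ℂ) (κ κ' : ℂ) (M : ℝ) (hM : ‖(κ - κ') * e.2‖ < M)
    (hR : ‖(κ • e.1, κ' * e.2)‖ + max ε M ≤ R) (hR2 : ‖κ • e‖ < R)
    (e1 : ∀ᶠ q in 𝓝 (0 : E × ℂ), G1 ((κ • e.1, κ' * e.2) + q) = u q.1 *
      G0 ((κ • e.1, κ' * e.2) + q) ∧
      G2 ((κ • e.1, κ' * e.2) + q) = (s q.1 - q.2) * G0 ((κ • e.1, κ' * e.2) + q))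
    (P : MvPolynomial (Fin 2) ℂ)
    (hP : ∀ᶠ w in 𝓝 (0 : ℂ), MvPolynomial.eval ![u (w • e.1), s (w • e.1) - w * e.2] P = 0) :
    ∀ᶠ w in 𝓝 (0 : ℂ), MvPolynomial.eval
      ![u (w • e.1), s (w • e.1) - w * e.2] (shift ((κ - κ') * e.2) P) = 0 := by
  set γ : E × ℂ := (κ • e.1, κ' * e.2) with hγ
  set μ : ℂ := (κ - κ') * e.2 with hμ
  have hRpos : 0 < R := lt_of_le_of_lt (norm_nonneg _) hR2
  -- the line
  set D : Set ℂ := {w | ‖w • e‖ < R} with hD
  have hD0 : (0 : ℂ) ∈ D := by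
    show ‖(0 : ℂ) • e‖ < R
    rw [zero_smul, norm_zero]; exact hRpos
  have hDκ : κ ∈ D := hR2
  have hDc : Convex ℝ D := by
    intro x hx y hy a b ha hb hab
    show ‖(a • x + b • y) • e‖ < R
    have h1 : (a • x + b • y) • e = a • (x • e) + b • (y • e) := by
      rw [add_smul, smul_assoc, smul_assoc]
    rw [h1]
    have := (convex_ball (0 : E × ℂ) R) (x := x • e) (mem_ball_zero_iff.mpr hx) (y := y • e)
      (mem_ball_zero_iff.mpr hy) ha hb hab
    simpa using this
  have pline : AnalyticOnNhd ℂ (fun w : ℂ => w • e) D := fun w _ =>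
    analyticAt_id.smul analyticAt_const
  have maps : Set.MapsTo (fun w : ℂ => w • e) D (ball 0 R) := fun w hw =>
    mem_ball_zero_iff.mpr hw
  have b0 : AnalyticOnNhd ℂ (fun w : ℂ => G0 (w • e)) D := a0.comp pline maps
  have b1 : AnalyticOnNhd ℂ (fun w : ℂ => G1 (w • e)) D := a1.comp pline maps
  have b2 : AnalyticOnNhd ℂ (fun w : ℂ => G2 (w • e)) D := a2.comp pline maps
  have tline : Tendsto (fun w : ℂ => w • e) (𝓝 0) (𝓝 0) := by
    have : Continuous (fun w : ℂ => w • e) := continuous_id.smul continuous_const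
    have h := this.tendsto 0
    rwa [zero_smul] at h
  have hΦ : AnalyticOnNhd ℂ (fun w : ℂ => hom P (G0 (w • e)) ![G1 (w • e), G2 (w • e)]) D := by
    apply hom_analytic P b0
    intro i
    fin_cases i
    · exact b1
    · exact b2
  have hΦ0 : ∀ w ∈ D, hom P (G0 (w • e)) ![G1 (w • e), G2 (w • e)] = 0 := by
    have h := hΦ.eqOn_zero_of_preconnected_of_eventuallyEq_zero hDc.isPreconnected hD0 (by
      filter_upwards [tline.eventually e0, hP] with w h1 h2
      have h3 : (![G1 (w • e), G2 (w • e)] : Fin 2 → ℂ) = fun i =>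
          (![u (w • e.1), s (w • e.1) - w * e.2] : Fin 2 → ℂ) i * G0 (w • e) := by
        funext i
        fin_cases i
        · exact h1.1
        · exact h1.2
      show hom P (G0 (w • e)) ![G1 (w • e), G2 (w • e)] = 0
      rw [h3, hom_mul, h2, mul_zero])
    exact fun w hw => h hw
  -- nonvanishing of `G0` near `κ`
  have hG0 : ∀ᶠ w in 𝓝[≠] κ, G0 (w • e) ≠ 0 := by
    rcases (b0 κ hDκ).eventually_eq_zero_or_eventually_ne_zero with h | h
    · exfalso
      have h1 := b0.eqOn_zero_of_preconnected_of_eventuallyEq_zero hDc.isPreconnected hDκ h hD0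
      apply hne
      simpa using h1
    · exact h
  -- the relation at `γ + q`
  set Ω : Set (E × ℂ) := ball (0 : E) ε ×ˢ ball (0 : ℂ) M with hΩ
  have hΩc : IsPreconnected Ω := ((convex_ball _ _).prod (convex_ball _ _)).isPreconnected
  have hΩm : Set.MapsTo (fun q : E × ℂ => γ + q) Ω (ball 0 R) := by
    intro q hq
    have h1 : ‖q.1‖ < ε := by simpa using hq.1
    have h2 : ‖q.2‖ < M := by simpa using hq.2
    have h3 : ‖q‖ < max ε M := by
      rw [Prod.norm_def]
      exact max_lt (h1.trans_le (le_max_left _ _)) (h2.trans_le (le_max_right _ _))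
    have h4 : ‖γ + q‖ < R := lt_of_lt_of_le (lt_of_le_of_lt (norm_add_le _ _) (by linarith)) hR
    simpa using h4
  have hM0 : 0 < M := lt_of_le_of_lt (norm_nonneg _) hM
  have hΩ0 : (0 : E × ℂ) ∈ Ω := ⟨by simpa using hε, by simpa using hM0⟩
  have ptr : AnalyticOnNhd ℂ (fun q : E × ℂ => γ + q) Ω := fun q _ =>
    analyticAt_const.add analyticAt_id
  have c0 : AnalyticOnNhd ℂ (fun q => G0 (γ + q)) Ω := a0.comp ptr hΩm
  have c1 : AnalyticOnNhd ℂ (fun q => G1 (γ + q)) Ω := a1.comp ptr hΩm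
  have c2 : AnalyticOnNhd ℂ (fun q => G2 (γ + q)) Ω := a2.comp ptr hΩm
  have cu : AnalyticOnNhd ℂ (fun q : E × ℂ => u q.1) Ω :=
    hu.comp (fun q _ => analyticAt_fst) (fun q hq => hq.1)
  have cs : AnalyticOnNhd ℂ (fun q : E × ℂ => s q.1) Ω :=
    hs.comp (fun q _ => analyticAt_fst) (fun q hq => hq.1)
  have r1 : ∀ q ∈ Ω, G1 (γ + q) = u q.1 * G0 (γ + q) := by
    have h := c1.eqOn_of_preconnected_of_eventuallyEq (cu.mul c0) hΩc hΩ0 (by
      filter_upwards [e1] with q hq using hq.1)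
    exact fun q hq => h hq
  have r2 : ∀ q ∈ Ω, G2 (γ + q) = (s q.1 - q.2) * G0 (γ + q) := by
    have h := c2.eqOn_of_preconnected_of_eventuallyEq
      ((cs.sub (fun q _ => analyticAt_snd)).mul c0) hΩc hΩ0 (by
      filter_upwards [e1] with q hq using hq.2)
    exact fun q hq => h hq
  -- the conclusion on a punctured neighbourhood
  have hq : ∀ w : ℂ, (κ + w) • e = γ + (w • e.1, w * e.2 + μ) := by
    intro w
    apply Prod.ext
    · show (κ + w) • e.1 = κ • e.1 + w • e.1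
      exact add_smul _ _ _
    · show (κ + w) * e.2 = κ' * e.2 + (w * e.2 + μ)
      rw [hμ]; ring
  have hqΩ : ∀ᶠ w in 𝓝 (0 : ℂ), ((w • e.1, w * e.2 + μ) : E × ℂ) ∈ Ω := by
    have hc : Continuous (fun w : ℂ => ((w • e.1, w * e.2 + μ) : E × ℂ)) := by fun_prop
    have ho : IsOpen Ω := isOpen_ball.prod isOpen_ball
    have h0 : (((0 : ℂ) • e.1, (0 : ℂ) * e.2 + μ) : E × ℂ) ∈ Ω := by
      refine ⟨?_, ?_⟩
      · simpa using hε
      · simpa using hM
    exact hc.continuousAt.eventually_mem (ho.mem_nhds h0)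
  have htr : Tendsto (fun w : ℂ => κ + w) (𝓝 0) (𝓝 κ) := by
    have : Continuous (fun w : ℂ => κ + w) := continuous_const.add continuous_id
    have h := this.tendsto 0
    rwa [add_zero] at h
  have htr' : Tendsto (fun w : ℂ => κ + w) (𝓝[≠] 0) (𝓝[≠] κ) := by
    apply tendsto_nhdsWithin_of_tendsto_nhds_of_eventually_within _
      (htr.mono_left nhdsWithin_le_nhds)
    filter_upwards [self_mem_nhdsWithin] with w hw
    intro h
    apply hw
    simpa using h
  have hDo : IsOpen D := by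
    have hc : Continuous fun w : ℂ => ‖w • e‖ := by fun_prop
    exact isOpen_lt hc continuous_const
  have hfin : ∀ᶠ w in 𝓝[≠] (0 : ℂ), MvPolynomial.eval
      ![u (w • e.1), s (w • e.1) - w * e.2] (shift μ P) = 0 := by
    filter_upwards [htr'.eventually hG0, hqΩ.filter_mono nhdsWithin_le_nhds,
      (htr.eventually (hDo.mem_nhds hDκ)).filter_mono nhdsWithin_le_nhds] with w h1 h2 h3
    rw [eval_shift]
    have h4 := hΦ0 _ h3
    rw [hq] at h4
    rw [hq] at h1
    have h5 : (![G1 (γ + (w • e.1, w * e.2 + μ)), G2 (γ + (w • e.1, w * e.2 + μ))] : Fin 2 → ℂ) =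
        fun i => (![u (w • e.1), s (w • e.1) - w * e.2 - μ] : Fin 2 → ℂ) i *
          G0 (γ + (w • e.1, w * e.2 + μ)) := by
      funext i
      fin_cases i
      · exact r1 _ h2
      · show G2 (γ + (w • e.1, w * e.2 + μ)) = (s (w • e.1) - w * e.2 - μ) *
          G0 (γ + (w • e.1, w * e.2 + μ))
        rw [r2 _ h2]
        ring
    rw [h5, hom_mul] at h4
    exact (mul_eq_zero.mp h4).resolve_left (pow_ne_zero _ h1)
  -- back to a full neighbourhood
  have hline : AnalyticAt ℂ (fun w : ℂ => w • e.1) 0 := analyticAt_id.smul analyticAt_const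
  have hu0 : AnalyticAt ℂ (fun w : ℂ => u (w • e.1)) 0 :=
    AnalyticAt.fun_comp (by rw [zero_smul]; exact hu 0 (mem_ball_self hε)) hline
  have hs0 : AnalyticAt ℂ (fun w : ℂ => s (w • e.1)) 0 :=
    AnalyticAt.fun_comp (by rw [zero_smul]; exact hs 0 (mem_ball_self hε)) hline
  have han : AnalyticAt ℂ (fun w : ℂ => MvPolynomial.eval
      ![u (w • e.1), s (w • e.1) - w * e.2] (shift μ P)) 0 := by
    have := eval_analytic (shift μ P) (U := {0}) (g := fun w => ![u (w • e.1),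
      s (w • e.1) - w * e.2]) (by
        intro i w hw
        rw [Set.mem_singleton_iff] at hw
        subst hw
        fin_cases i
        · exact hu0
        · exact hs0.sub (analyticAt_id.mul analyticAt_const))
    exact this 0 rfl
  exact han.frequently_zero_iff_eventually_zero.mp hfin.frequently

theorem thm_IndG (hPA : Stmt_PerAny) (hUL : Stmt_ULoc) : Stmt_IndG := by
  intro g f b c C hinj hG e κ κ' he1 he2 hκ hper
  classical
  obtain ⟨anU, injU⟩ := hUL g f b c C hinj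
  set U : (Fin g → ℂ) → (Fin g → ℂ) := fun z l => (polyU (C.X z)).coeff l with hU
  -- choice of `l`
  have h1 : fderiv ℂ U 0 e.1 ≠ 0 := by
    intro h
    apply he1
    apply injU
    rw [h, map_zero]
  obtain ⟨l, hl⟩ : ∃ l, fderiv ℂ U 0 e.1 l ≠ 0 := by
    by_contra hcon
    push Not at hcon
    exact h1 (funext hcon)
  refine ⟨l, ?_⟩
  intro P hP
  set μ : ℂ := (κ - κ') * e.2 with hμ
  have hμ0 : μ ≠ 0 := mul_ne_zero (sub_ne_zero.mpr hκ) he2
  set M : ℝ := ‖μ‖ + 1 with hM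
  set γ : (Fin g → ℂ) × ℂ := (κ • e.1, κ' * e.2) with hγ
  set R : ℝ := ‖γ‖ + ‖κ • e‖ + M + 2 with hR
  have hM1 : 1 ≤ M := by rw [hM]; linarith [norm_nonneg μ]
  have hR1 : 1 ≤ R := by
    rw [hR]
    linarith [norm_nonneg γ, norm_nonneg (κ • e)]
  obtain ⟨Cc, ρ, -, -, hrep⟩ := hG
  obtain ⟨r, -, -⟩ := hrep R hR1
  have hperR := (hPA _ _ (F1 C) γ hper R (by
    rw [hR]; linarith [norm_nonneg (κ • e)]) r).1
  -- analyticity of the germs
  set u : (Fin g → ℂ) → ℂ := fun z => (polyU (C.X z)).coeff l with hu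
  have anu : AnalyticAt ℂ u 0 := by
    rw [analyticAt_pi_iff] at anU
    exact anU l
  have hRpos : 0 < R := by linarith
  have ans : AnalyticAt ℂ C.s 0 := by
    have h0 : (0 : (Fin g → ℂ) × ℂ) ∈ ball (0 : (Fin g → ℂ) × ℂ) R := mem_ball_self hRpos
    have h2 : AnalyticAt ℂ (fun p : (Fin g → ℂ) × ℂ => r.G none p / r.G0 p) 0 :=
      (r.an none 0 h0).div (r.an0 0 h0) r.ne
    have h3 : AnalyticAt ℂ (fun z : Fin g → ℂ => r.G none (z, 0) / r.G0 (z, 0)) 0 :=
      AnalyticAt.fun_comp (g := fun p : (Fin g → ℂ) × ℂ => r.G none p / r.G0 p)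
        (f := fun z : Fin g → ℂ => ((z, 0) : (Fin g → ℂ) × ℂ)) h2
        (analyticAt_id.prod analyticAt_const)
    refine h3.congr ?_
    have tz : Tendsto (fun z : Fin g → ℂ => ((z, 0) : (Fin g → ℂ) × ℂ)) (𝓝 0) (𝓝 0) := by
      have hc : Continuous (fun z : Fin g → ℂ => ((z, 0) : (Fin g → ℂ) × ℂ)) := by fun_prop
      exact hc.tendsto 0
    have hne0 : ∀ᶠ p in 𝓝 (0 : (Fin g → ℂ) × ℂ), r.G0 p ≠ 0 :=
      (r.an0 0 h0).continuousAt.eventually_ne r.ne
    filter_upwards [tz.eventually r.eq, tz.eventually hne0] with z h4 h5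
    show r.G none (z, 0) / r.G0 (z, 0) = C.s z
    rw [h4 none, mul_div_cancel_right₀ _ h5]
    show C.s z - 0 = C.s z
    rw [sub_zero]
  obtain ⟨ε, hε, hε1, hau, has⟩ : ∃ ε : ℝ, 0 < ε ∧ ε ≤ 1 ∧ AnalyticOnNhd ℂ u (ball 0 ε) ∧
      AnalyticOnNhd ℂ C.s (ball 0 ε) := by
    have h2 := anu.eventually_analyticAt.and ans.eventually_analyticAt
    obtain ⟨ε, hε, h3⟩ := Metric.eventually_nhds_iff_ball.mp h2
    refine ⟨min ε 1, lt_min hε one_pos, min_le_right _ _, ?_, ?_⟩
    · exact fun z hz => (h3 z (ball_subset_ball (min_le_left _ _) hz)).1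
    · exact fun z hz => (h3 z (ball_subset_ball (min_le_left _ _) hz)).2
  -- the iteration
  have hstep : ∀ Q : MvPolynomial (Fin 2) ℂ,
      (∀ᶠ w in 𝓝 (0 : ℂ), MvPolynomial.eval ![u (w • e.1), C.s (w • e.1) - w * e.2] Q = 0) →
      ∀ᶠ w in 𝓝 (0 : ℂ), MvPolynomial.eval ![u (w • e.1), C.s (w • e.1) - w * e.2]
        (shift μ Q) = 0 := by
    intro Q hQ
    refine step u C.s ε hε hau has r.G0 (r.G (some l)) (r.G none) R r.an0 (r.an _) (r.an _) r.ne
      ?_ e κ κ' M ?_ ?_ ?_ ?_ Q hQ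
    · filter_upwards [r.eq] with z hz
      exact ⟨hz (some l), hz none⟩
    · rw [← hμ, hM]; linarith
    · rw [← hγ]
      have h2 : max ε M ≤ M := max_le (hε1.trans hM1) le_rfl
      rw [hR]
      linarith [norm_nonneg (κ • e)]
    · rw [hR]
      linarith [norm_nonneg γ]
    · filter_upwards [hperR] with q hq
      exact ⟨hq (some l), hq none⟩
  have hA0 : ∀ᶠ w in 𝓝 (0 : ℂ), MvPolynomial.eval
      ![u (w • e.1), C.s (w • e.1) - w * e.2] P = 0 := by
    have tc : Tendsto (fun w : ℂ => (fun _ : Fin 1 => w)) (𝓝 0) (𝓝 0) := by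
      have hc : Continuous (fun w : ℂ => (fun _ : Fin 1 => w)) := by fun_prop
      exact hc.tendsto 0
    filter_upwards [tc.eventually hP] with w hw
    have h2 : (![u (w • e.1), C.s (w • e.1) - w * e.2] : Fin 2 → ℂ) =
        fun j : Fin 2 => F1 C (w • e) (if j = 0 then some l else none) := by
      funext j
      fin_cases j
      · rfl
      · rfl
    rw [h2]
    exact hw
  have hAn : ∀ n : ℕ, ∀ᶠ w in 𝓝 (0 : ℂ), MvPolynomial.eval
      ![u (w • e.1), C.s (w • e.1) - w * e.2] ((shift μ)^[n] P) = 0 := by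
    intro n
    induction n with
    | zero => exact hA0
    | succ n ih =>
      rw [Function.iterate_succ_apply']
      exact hstep _ ih
  -- a fixed disc
  have he1n : 0 < ‖e.1‖ := norm_pos_iff.mpr he1
  set δ : ℝ := ε / ‖e.1‖ with hδ
  have hδ0 : 0 < δ := div_pos hε he1n
  have hmap : Set.MapsTo (fun w : ℂ => w • e.1) (ball 0 δ) (ball 0 ε) := by
    intro w hw
    have h2 : ‖w‖ < δ := by simpa using hw
    have h3 : ‖w • e.1‖ < ε := by
      rw [norm_smul]
      rwa [hδ, lt_div_iff₀ he1n] at h2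
    simpa using h3
  have hlin : AnalyticOnNhd ℂ (fun w : ℂ => w • e.1) (ball 0 δ) := fun w _ =>
    analyticAt_id.smul analyticAt_const
  have hcu : AnalyticOnNhd ℂ (fun w : ℂ => u (w • e.1)) (ball 0 δ) := hau.comp hlin hmap
  have hcs : AnalyticOnNhd ℂ (fun w : ℂ => C.s (w • e.1) - w * e.2) (ball 0 δ) :=
    (has.comp hlin hmap).sub (fun w _ => analyticAt_id.mul analyticAt_const)
  have hall : ∀ n : ℕ, ∀ w ∈ ball (0 : ℂ) δ,
      MvPolynomial.eval ![u (w • e.1), C.s (w • e.1) - w * e.2 - n * μ] P = 0 := by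
    intro n w hw
    have h2 := (eval_analytic ((shift μ)^[n] P) (U := ball (0 : ℂ) δ)
      (g := fun w => ![u (w • e.1), C.s (w • e.1) - w * e.2]) (by
        intro i
        fin_cases i
        · exact hcu
        · exact hcs)).eqOn_zero_of_preconnected_of_eventuallyEq_zero
      (convex_ball _ _).isPreconnected (mem_ball_self hδ0) (hAn n) hw
    have h3 : MvPolynomial.eval ![u (w • e.1), C.s (w • e.1) - w * e.2] ((shift μ)^[n] P) = 0 := h2
    rwa [eval_shift_iter] at h3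
  -- all values of the second variable
  have hY : ∀ w ∈ ball (0 : ℂ) δ, ∀ Y : ℂ, MvPolynomial.eval ![u (w • e.1), Y] P = 0 := by
    intro w hw Y
    set q : ℂ[X] := MvPolynomial.aeval ![Polynomial.C (u (w • e.1)), Polynomial.X] P with hq
    have hqe : ∀ Y : ℂ, q.eval Y = MvPolynomial.eval ![u (w • e.1), Y] P := by
      intro Y
      rw [hq, ← MvPolynomial.coe_aeval_eq_eval, ← Polynomial.coe_aeval_eq_eval]
      show Polynomial.aeval Y (MvPolynomial.aeval _ P) = MvPolynomial.aeval _ P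
      rw [← AlgHom.restrictScalars_apply ℂ, ← AlgHom.comp_apply, MvPolynomial.comp_aeval]
      congr 2
      funext i
      fin_cases i
      · simp
      · simp
    have hq0 : q = 0 := by
      apply Polynomial.eq_zero_of_infinite_isRoot
      have hinf : (Set.range fun n : ℕ => C.s (w • e.1) - w * e.2 - n * μ).Infinite := by
        apply Set.infinite_range_of_injective
        intro a b hab
        have h2 : (a : ℂ) * μ = b * μ := by
          have h3 : C.s (w • e.1) - w * e.2 - a * μ = C.s (w • e.1) - w * e.2 - b * μ := hab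
          linear_combination -h3
        exact_mod_cast mul_right_cancel₀ hμ0 h2
      refine hinf.mono ?_
      rintro _ ⟨n, rfl⟩
      show q.eval _ = 0
      rw [hqe]
      exact hall n w hw
    rw [← hqe, hq0, Polynomial.eval_zero]
  -- infinitely many values of the first variable
  have hder : HasStrictDerivAt (fun w : ℂ => u (w • e.1)) (fderiv ℂ U 0 e.1 l) 0 := by
    have h2 : HasStrictFDerivAt U (fderiv ℂ U 0) ((0 : ℂ) • e.1) := by
      rw [zero_smul]; exact anU.hasStrictFDerivAt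
    have h3 : HasStrictDerivAt (fun w : ℂ => w • e.1) e.1 0 := by
      have := (hasStrictDerivAt_id (0 : ℂ)).smul_const e.1
      simpa using this
    have h4 := h2.comp_hasStrictDerivAt 0 h3
    have h5 := (hasStrictDerivAt_pi.mp h4) l
    exact h5
  have hinf : ((fun w : ℂ => u (w • e.1)) '' ball 0 δ).Infinite := by
    apply infinite_of_mem_nhds (u ((0 : ℂ) • e.1))
    rw [← hder.map_nhds_eq hl]
    exact image_mem_map (ball_mem_nhds _ hδ0)
  apply MvPolynomial.funext_set (s := fun i : Fin 2 => if i = 0 then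
    (fun w : ℂ => u (w • e.1)) '' ball 0 δ else Set.univ)
  · intro i
    fin_cases i
    · exact hinf
    · exact Set.infinite_univ
  · intro x hx
    obtain ⟨w, hw, hw2⟩ := hx 0 (Set.mem_univ _)
    have h2 : x = ![u (w • e.1), x 1] := by
      funext i
      fin_cases i
      · exact hw2.symm
      · rfl
    rw [map_zero, h2]
    exact hY w hw _

end Pool.Agent.FDR.INDG
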