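import Pool.Agent.FDR.Stmts

/-!
# IRR: translation-stable spaces of functions on `(ℤ/ℓ^K)ˣ`, `ℓ` a Fermat prime
-/

open scoped BigOperators Polynomial
open Polynomial

namespace Pool.Agent.FDR.IRR

noncomputable section

/-! ## Translation operators -/

/-- translation by `γ` -/
def T {G : Type} [Group G] (γ : G) : Module.End ℚ (G → ℚ) :=
  LinearMap.funLeft ℚ ℚ (fun b => γ * b)

theorem T_pow {G : Type} [Group G] (γ : G) (i : ℕ) (x : G → ℚ) (b : G) :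
    ((T γ) ^ i) x b = x (γ ^ i * b) := by
  induction i generalizing x b with
  | zero => simp
  | succ i ih =>
    rw [pow_succ, Module.End.mul_apply, ih, T, LinearMap.funLeft_apply, pow_succ', mul_assoc]

theorem aeval_mem {V : Type} [AddCommGroup V] [Module ℚ V] (T : Module.End ℚ V)
    (S : Submodule ℚ V) (h : ∀ x ∈ S, T x ∈ S) (P : ℚ[X]) {x : V} (hx : x ∈ S) :
    aeval T P x ∈ S := by
  rw [aeval_eq_sum_range, LinearMap.sum_apply]
  apply S.sum_mem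
  intro i hi
  clear hi
  rw [LinearMap.smul_apply]
  apply S.smul_mem
  induction i with
  | zero => simpa using hx
  | succ i ih =>
    rw [pow_succ', Module.End.mul_apply]
    exact h _ ih

/-- `δ = [b = 1]` -/
def dlt (G : Type) [Group G] : G → ℚ := by
  classical exact fun b => if b = 1 then 1 else 0

theorem dlt_one (G : Type) [Group G] : dlt G 1 = 1 := by
  simp [dlt]

theorem dlt_ne {G : Type} [Group G] {b : G} (h : b ≠ 1) : dlt G b = 0 := by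
  simp [dlt, h]

section cyclic

variable {G : Type} [CommGroup G] [Finite G] {γ : G}

theorem exists_pow_eq (hγ : ∀ b : G, b ∈ Subgroup.zpowers γ) (b : G) :
    ∃ k < orderOf γ, γ ^ k = b := by
  classical
  have h1 := hγ b
  rw [← mem_powers_iff_mem_zpowers, mem_powers_iff_mem_range_orderOf,
    Finset.mem_image] at h1
  obtain ⟨k, hk, rfl⟩ := h1
  exact ⟨k, Finset.mem_range.mp hk, rfl⟩

omit [Finite G] in
theorem pow_eq_iff {i k : ℕ} (hi : i < orderOf γ) (hk : k < orderOf γ) :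
    γ ^ i = γ ^ k ↔ i = k := by
  constructor
  · intro h
    exact pow_injOn_Iio_orderOf hi hk h
  · rintro rfl
    rfl

theorem surj (hγ : ∀ b : G, b ∈ Subgroup.zpowers γ) (x : G → ℚ) :
    ∃ P : ℚ[X], aeval (T γ) P (dlt G) = x := by
  refine ⟨∑ i ∈ Finset.range (orderOf γ), C (x (γ ^ i)⁻¹) * X ^ i, ?_⟩
  funext b
  obtain ⟨k, hk, hkb⟩ := exists_pow_eq hγ b⁻¹
  rw [map_sum, LinearMap.sum_apply, Finset.sum_apply, Finset.sum_eq_single k]
  · rw [map_mul, aeval_C, map_pow, aeval_X, Module.End.mul_apply, Module.algebraMap_end_apply,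
      Pi.smul_apply, T_pow, hkb, inv_inv, inv_mul_cancel, dlt_one, smul_eq_mul, mul_one]
  · intro i hi hik
    rw [map_mul, aeval_C, map_pow, aeval_X, Module.End.mul_apply, Module.algebraMap_end_apply,
      Pi.smul_apply, T_pow, dlt_ne, smul_zero]
    intro h
    apply hik
    rw [← pow_eq_iff (Finset.mem_range.mp hi) hk, hkb]
    exact eq_inv_of_mul_eq_one_left h
  · intro h
    exact absurd (Finset.mem_range.mpr hk) h

omit [Finite G] in
theorem aeval_X_pow_sub_one : aeval (T γ) (X ^ orderOf γ - 1 : ℚ[X]) = 0 := by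
  ext x b
  rw [map_sub, map_pow, aeval_X, map_one, LinearMap.sub_apply, Module.End.one_apply,
    Pi.sub_apply, T_pow, pow_orderOf_eq_one, one_mul, sub_self]
  rfl

theorem ann {P : ℚ[X]}
    (h : aeval (T γ) P (dlt G) = 0) : (X ^ orderOf γ - 1 : ℚ[X]) ∣ P := by
  have hn : 0 < orderOf γ := orderOf_pos γ
  have hm : (X ^ orderOf γ - 1 : ℚ[X]).Monic := monic_X_pow_sub_C 1 hn.ne'
  have hdeg : (X ^ orderOf γ - 1 : ℚ[X]).natDegree = orderOf γ := natDegree_X_pow_sub_C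
  rw [← modByMonic_eq_zero_iff_dvd hm]
  set R := P %ₘ (X ^ orderOf γ - 1 : ℚ[X]) with hR
  have hRdeg : R.natDegree < orderOf γ := by
    have h1 : (X ^ orderOf γ - 1 : ℚ[X]) ≠ 1 := by
      intro h2
      rw [h2, natDegree_one] at hdeg
      omega
    have := natDegree_modByMonic_lt P hm h1
    rwa [hdeg] at this
  have hR0 : aeval (T γ) R (dlt G) = 0 := by
    have h1 := modByMonic_add_div P (X ^ orderOf γ - 1 : ℚ[X])
    rw [← h1, map_add, map_mul, aeval_X_pow_sub_one, zero_mul, add_zero] at h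
    exact h
  ext i
  rw [coeff_zero]
  by_cases hi : i < orderOf γ
  · have h1 := congrFun hR0 (γ ^ i)⁻¹
    rw [aeval_eq_sum_range' hRdeg, LinearMap.sum_apply, Finset.sum_apply,
      Finset.sum_eq_single i] at h1
    · rw [LinearMap.smul_apply, Pi.smul_apply, T_pow, mul_inv_cancel, dlt_one, smul_eq_mul,
        mul_one] at h1
      exact h1
    · intro k hk hki
      rw [LinearMap.smul_apply, Pi.smul_apply, T_pow, dlt_ne, smul_zero]
      intro h2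
      apply hki
      rw [← pow_eq_iff (Finset.mem_range.mp hk) hi]
      exact mul_inv_eq_one.mp h2
    · intro h2
      exact absurd (Finset.mem_range.mpr hi) h2
  · exact coeff_eq_zero_of_natDegree_lt (by omega)

/-- a `T`-stable space with an element not killed by `X ^ (n / d)`... contains a kernel -/
theorem exists_ker (hγ : ∀ b : G, b ∈ Subgroup.zpowers γ) (S : Submodule ℚ (G → ℚ))
    (hS : ∀ x ∈ S, T γ x ∈ S) {D : G → ℚ} (hD : D ∈ S) (hD0 : D ≠ 0) {h : ℕ}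
    (hh : orderOf γ = 2 * h) (hodd : ((T γ) ^ h) D = -D) :
    ∃ d, d ∣ orderOf γ ∧ ¬ d ∣ h ∧
      ∀ f : G → ℚ, aeval (T γ) (cyclotomic d ℚ) f = 0 → f ∈ S := by
  have hn : 0 < orderOf γ := orderOf_pos γ
  obtain ⟨p, hp⟩ := surj hγ D
  have h1 : ¬ (X ^ orderOf γ - 1 : ℚ[X]) ∣ p := by
    rintro ⟨q, rfl⟩
    apply hD0
    rw [← hp, map_mul, aeval_X_pow_sub_one, zero_mul]
    rfl
  have h2 : (X ^ h - 1 : ℚ[X]) ∣ p := by
    have h3 : (X ^ orderOf γ - 1 : ℚ[X]) ∣ (X ^ h + 1) * p := by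
      apply ann
      rw [map_mul, Module.End.mul_apply, hp, map_add, map_pow, aeval_X, map_one,
        LinearMap.add_apply, hodd, Module.End.one_apply, neg_add_cancel]
    have h4 : (X ^ orderOf γ - 1 : ℚ[X]) = (X ^ h + 1) * (X ^ h - 1) := by
      rw [hh, pow_mul']
      ring
    rw [h4] at h3
    have h5 : (X ^ h + 1 : ℚ[X]) ≠ 0 := by
      have : (X ^ h + 1 : ℚ[X]).Monic := monic_X_pow_add_C 1 (by omega)
      exact this.ne_zero
    exact (mul_dvd_mul_iff_left h5).mp h3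
  obtain ⟨d, hd, hdp⟩ : ∃ d ∈ (orderOf γ).divisors, ¬ cyclotomic d ℚ ∣ p := by
    by_contra hcon
    push Not at hcon
    apply h1
    rw [← prod_cyclotomic_eq_X_pow_sub_one hn ℚ]
    apply Finset.prod_dvd_of_coprime
    · intro a _ b _ hab
      exact cyclotomic.isCoprime_rat hab
    · exact hcon
  have hdn : d ∣ orderOf γ := Nat.dvd_of_mem_divisors hd
  have hd0 : 0 < d := Nat.pos_of_dvd_of_pos hdn hn
  refine ⟨d, hdn, ?_, ?_⟩
  · intro hdh
    apply hdp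
    have h3 : cyclotomic d ℚ ∣ (X ^ h - 1 : ℚ[X]) := by
      obtain ⟨m, hm⟩ := hdh
      refine (cyclotomic.dvd_X_pow_sub_one d ℚ).trans ?_
      rw [hm, pow_mul]
      simpa using sub_dvd_pow_sub_pow (X ^ d : ℚ[X]) 1 m
    exact h3.trans h2
  · intro f hf
    obtain ⟨q, hq⟩ : cyclotomic d ℚ ∣ (X ^ orderOf γ - 1 : ℚ[X]) := by
      obtain ⟨m, hm⟩ := hdn
      refine (cyclotomic.dvd_X_pow_sub_one d ℚ).trans ?_
      rw [hm, pow_mul]
      simpa using sub_dvd_pow_sub_pow (X ^ d : ℚ[X]) 1 m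
    obtain ⟨g, hg⟩ := surj hγ f
    have h3 : (X ^ orderOf γ - 1 : ℚ[X]) ∣ cyclotomic d ℚ * g := by
      apply ann
      rw [map_mul, Module.End.mul_apply, hg, hf]
    rw [hq] at h3
    obtain ⟨g', hg'⟩ := (mul_dvd_mul_iff_left (cyclotomic_ne_zero d ℚ)).mp h3
    have hirr : Irreducible (cyclotomic d ℚ) := cyclotomic.irreducible_rat hd0
    obtain ⟨u, v, huv⟩ := (hirr.coprime_iff_not_dvd.mpr hdp).symm
    have h4 : g = (g' * q * u) * p + (g' * v) * (X ^ orderOf γ - 1 : ℚ[X]) := by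
      rw [hg', hq]
      linear_combination (-(g' * q)) * huv
    rw [← hg, h4, map_add, map_mul, map_mul (aeval (T γ)) (g' * v), aeval_X_pow_sub_one,
      mul_zero, add_zero, Module.End.mul_apply, hp]
    exact aeval_mem _ S hS _ hD

end cyclic

/-! ## The group `(ℤ/ℓ^m)ˣ` -/

section zmod

variable {ℓ : ℕ} [NeZero ℓ]

omit [NeZero ℓ] in
theorem neg_one_ne_one (hp : ℓ.Prime) (hl2 : ℓ ≠ 2) {m : ℕ} (hm : 0 < m) :
    (-1 : (ZMod (ℓ ^ m))ˣ) ≠ 1 := by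
  have h3 : 2 < ℓ := by
    have := hp.two_le
    omega
  have h4 : 2 < ℓ ^ m := lt_of_lt_of_le h3 (Nat.le_self_pow hm.ne' ℓ)
  let _ : Fact (2 < ℓ ^ m) := ⟨h4⟩
  intro h
  apply ZMod.neg_one_ne_one (n := ℓ ^ m)
  have := congrArg Units.val h
  simpa using this

omit [NeZero ℓ] in
theorem gen_pow_half (hp : ℓ.Prime) (hl2 : ℓ ≠ 2) {m : ℕ} (hm : 0 < m)
    {γ : (ZMod (ℓ ^ m))ˣ} (hγ : ∀ b, b ∈ Subgroup.zpowers γ) {h : ℕ}
    (hh : orderOf γ = 2 * h) : γ ^ h = -1 := by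
  obtain ⟨k, hk, hk1⟩ := exists_pow_eq hγ (-1)
  have h1 : γ ^ (2 * k) = 1 := by
    rw [mul_comm, pow_mul, hk1]
    simp
  have h2 : orderOf γ ∣ 2 * k := orderOf_dvd_of_pow_eq_one h1
  rw [hh] at h2
  have h3 : h ∣ k := (mul_dvd_mul_iff_left (by norm_num)).mp h2
  obtain ⟨c, hc⟩ := h3
  rw [hh] at hk
  have hc2 : c < 2 := by
    by_contra hcon
    have : h * 2 ≤ h * c := Nat.mul_le_mul_left h (by omega)
    omega
  have hc0 : c ≠ 0 := by
    rintro rfl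
    rw [mul_zero] at hc
    rw [hc, pow_zero] at hk1
    exact neg_one_ne_one hp hl2 hm hk1.symm
  have hc1 : c = 1 := by omega
  rw [hc1, mul_one] at hc
  rw [← hc]
  exact hk1

/-- reduction modulo `ℓ ^ m` -/
def red {m K : ℕ} (hm : m ≤ K) : (ZMod (ℓ ^ K))ˣ →* (ZMod (ℓ ^ m))ˣ :=
  ZMod.unitsMap (pow_dvd_pow ℓ hm)

theorem red_gen {m K : ℕ} (hm : m ≤ K) {γ : (ZMod (ℓ ^ K))ˣ}
    (hγ : ∀ b, b ∈ Subgroup.zpowers γ) (b : (ZMod (ℓ ^ m))ˣ) :
    b ∈ Subgroup.zpowers (red hm γ) := by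
  obtain ⟨c, rfl⟩ := ZMod.unitsMap_surjective (pow_dvd_pow ℓ hm) b
  obtain ⟨k, rfl⟩ := hγ c
  exact ⟨k, by simp [red, map_zpow]⟩

theorem orderOf_gen {m : ℕ} {γ : (ZMod (ℓ ^ m))ˣ}
    (hγ : ∀ b, b ∈ Subgroup.zpowers γ) : orderOf γ = Nat.totient (ℓ ^ m) := by
  rw [orderOf_eq_card_of_forall_mem_zpowers hγ, Nat.card_eq_fintype_card,
    ZMod.card_units_eq_totient]

theorem red_eq_iff {m K : ℕ} (hm : m ≤ K) (b : (ZMod (ℓ ^ K))ˣ) {a : ℕ}
    (ha : a.Coprime (ℓ ^ m)) :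
    (b : ZMod (ℓ ^ K)).val ≡ a [MOD ℓ ^ m] ↔ red hm b = ZMod.unitOfCoprime a ha := by
  rw [← ZMod.natCast_eq_natCast_iff, ZMod.natCast_val, Units.ext_iff, red, ZMod.unitsMap_val,
    ZMod.coe_unitOfCoprime]

end zmod

/-! ## Polynomials -/

theorem X_pow_sub_one_dvd {a b : ℕ} (h : a ∣ b) : (X ^ a - 1 : ℚ[X]) ∣ X ^ b - 1 := by
  obtain ⟨m, rfl⟩ := h
  rw [pow_mul]
  simpa using sub_dvd_pow_sub_pow (X ^ a : ℚ[X]) 1 m

theorem X_pow_sub_one_dvd_sub {M k k' : ℕ} (h : k ≡ k' [MOD M]) :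
    (X ^ M - 1 : ℚ[X]) ∣ X ^ k - X ^ k' := by
  have key : ∀ k k' : ℕ, k ≤ k' → k ≡ k' [MOD M] → (X ^ M - 1 : ℚ[X]) ∣ X ^ k - X ^ k' := by
    intro k k' hle h
    have h1 : M ∣ k' - k := (Nat.modEq_iff_dvd' hle).mp h
    have h2 : (X ^ k - X ^ k' : ℚ[X]) = -(X ^ k * (X ^ (k' - k) - 1)) := by
      have : k' = k + (k' - k) := by omega
      conv_lhs => rw [this, pow_add]
      ring
    rw [h2]
    exact (dvd_neg.mpr ((X_pow_sub_one_dvd h1).mul_left _))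
  rcases le_total k k' with hle | hle
  · exact key k k' hle h
  · rw [← dvd_neg, neg_sub]
    exact key k' k hle h.symm

theorem cyc_dvd {ℓ i s : ℕ} (hp : ℓ.Prime) (hs : 0 < s) (hℓ : ℓ = 2 ^ s + 1) :
    (X ^ (ℓ ^ i * 2 ^ s) - 1 : ℚ[X]) ∣ cyclotomic (ℓ ^ i * 2 ^ s) ℚ *
      ((X ^ (ℓ ^ i * 2 ^ (s - 1)) - 1) * (X ^ (Nat.totient (ℓ ^ i)) - 1)) := by
  have hN : 0 < ℓ ^ i * 2 ^ s := Nat.mul_pos (pow_pos hp.pos i) (by positivity)
  rw [← prod_cyclotomic_eq_X_pow_sub_one hN ℚ]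
  apply Finset.prod_dvd_of_coprime
  · intro a _ b _ hab
    exact cyclotomic.isCoprime_rat hab
  · intro e he
    have hdvd := Nat.dvd_of_mem_divisors he
    obtain ⟨y, z, hy, hz, rfl⟩ := (Nat.dvd_mul).mp hdvd
    obtain ⟨u, hu, rfl⟩ := (Nat.dvd_prime_pow hp).mp hy
    obtain ⟨a, ha, rfl⟩ := (Nat.dvd_prime_pow Nat.prime_two).mp hz
    rcases Nat.lt_or_ge a s with h1 | h1
    · have h2 : ℓ ^ u * 2 ^ a ∣ ℓ ^ i * 2 ^ (s - 1) :=
        Nat.mul_dvd_mul (pow_dvd_pow ℓ hu) (pow_dvd_pow 2 (by omega))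
      exact (((cyclotomic.dvd_X_pow_sub_one _ ℚ).trans (X_pow_sub_one_dvd h2)).mul_right
        _).mul_left _
    · have h3 : a = s := le_antisymm ha h1
      subst h3
      rcases Nat.lt_or_ge u i with h4 | h4
      · have h2 : ℓ ^ u * 2 ^ a ∣ Nat.totient (ℓ ^ i) := by
          rw [Nat.totient_prime_pow hp (by omega), hℓ]
          simp only [Nat.add_sub_cancel]
          rw [← hℓ]
          exact Nat.mul_dvd_mul (pow_dvd_pow ℓ (by omega)) dvd_rfl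
        exact (((cyclotomic.dvd_X_pow_sub_one _ ℚ).trans (X_pow_sub_one_dvd h2)).mul_left
          _).mul_left _
      · have h5 : u = i := le_antisymm hu h4
        subst h5
        exact Dvd.intro _ rfl

/-! ## The theorem -/

theorem thm_IRR : Stmt_Irr := by
  classical
  intro ℓ K _ hF hK S hS hx
  obtain ⟨hp, s, hs, hℓ⟩ := hF
  obtain ⟨x, hxS, b₀, hb₀⟩ := hx
  have h2s : 2 ≤ 2 ^ s := Nat.le_self_pow hs.ne' 2
  have hl2 : ℓ ≠ 2 := by omega
  have hl1 : ℓ - 1 = 2 ^ s := by omega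
  have hcyc : IsCyclic (ZMod (ℓ ^ K))ˣ := ZMod.isCyclic_units_of_prime_pow ℓ hp hl2 K
  obtain ⟨γ, hγ⟩ := hcyc.exists_generator
  have hs2 : 2 ^ s = 2 * 2 ^ (s - 1) := by
    rw [← pow_succ']
    congr 1
    omega
  have hord : orderOf γ = ℓ ^ (K - 1) * 2 ^ s := by
    rw [orderOf_gen hγ, Nat.totient_prime_pow hp hK, hl1]
  have hord2 : orderOf γ = 2 * (ℓ ^ (K - 1) * 2 ^ (s - 1)) := by
    rw [hord, hs2]
    ring
  have hhalf : γ ^ (ℓ ^ (K - 1) * 2 ^ (s - 1)) = -1 := gen_pow_half hp hl2 hK hγ hord2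
  set h := ℓ ^ (K - 1) * 2 ^ (s - 1) with hh
  have hST : ∀ x ∈ S, T γ x ∈ S := fun x hx => hS x hx γ
  have hTpowS : ∀ k : ℕ, ∀ x ∈ S, ((T γ) ^ k) x ∈ S := by
    intro k x hx
    have := aeval_mem (T γ) S hST (X ^ k) hx
    rwa [map_pow, aeval_X] at this
  -- the odd element
  set D := x - ((T γ) ^ h) x with hD
  have hDS : D ∈ S := S.sub_mem hxS (hTpowS h x hxS)
  have hD0 : D ≠ 0 := by
    intro h0
    have h1 := congrFun h0 b₀
    rw [hD, Pi.sub_apply, T_pow, hhalf, neg_one_mul, Pi.zero_apply, sub_eq_zero] at h1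
    exact hb₀ h1
  have hDodd : ((T γ) ^ h) D = -D := by
    have h1 : ((T γ) ^ h) (((T γ) ^ h) x) = x := by
      funext b
      rw [T_pow, T_pow, hhalf]
      simp
    rw [hD, map_sub, h1, neg_sub]
  obtain ⟨d, hdn, hdh, hker⟩ := exists_ker hγ S hST hDS hD0 hord2 hDodd
  obtain ⟨i, hi, hdi⟩ : ∃ i ≤ K - 1, d = ℓ ^ i * 2 ^ s := by
    rw [hord] at hdn
    obtain ⟨y, z, hy, hz, hyz⟩ := (Nat.dvd_mul).mp hdn
    obtain ⟨u, hu, rfl⟩ := (Nat.dvd_prime_pow hp).mp hy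
    obtain ⟨a, ha, rfl⟩ := (Nat.dvd_prime_pow Nat.prime_two).mp hz
    refine ⟨u, hu, ?_⟩
    rcases Nat.lt_or_ge a s with h1 | h1
    · exfalso
      apply hdh
      rw [← hyz, hh]
      exact Nat.mul_dvd_mul (pow_dvd_pow ℓ hu) (pow_dvd_pow 2 (by omega))
    · rw [← hyz, le_antisymm ha h1]
  refine ⟨i + 1, by omega, by omega, ?_⟩
  intro a a' ha ha' haa
  rw [Nat.add_sub_cancel] at haa
  have hj : i + 1 ≤ K := by omega
  have hi' : i ≤ K := by omega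
  have hac : a.Coprime (ℓ ^ (i + 1)) := ha.pow_right _
  have hac' : a'.Coprime (ℓ ^ (i + 1)) := ha'.pow_right _
  have hai : a.Coprime (ℓ ^ i) := ha.pow_right _
  have hai' : a'.Coprime (ℓ ^ i) := ha'.pow_right _
  have hgj := red_gen hj hγ
  have hgi := red_gen hi' hγ
  have hordj : orderOf (red hj γ) = ℓ ^ i * 2 ^ s := by
    rw [orderOf_gen hgj, Nat.totient_prime_pow hp (by omega), hl1, Nat.add_sub_cancel]
  have hordj2 : orderOf (red hj γ) = 2 * (ℓ ^ i * 2 ^ (s - 1)) := by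
    rw [hordj, hs2]
    ring
  have hhalfj : (red hj γ) ^ (ℓ ^ i * 2 ^ (s - 1)) = -1 :=
    gen_pow_half hp hl2 (by omega) hgj hordj2
  set h' := ℓ ^ i * 2 ^ (s - 1) with hh'
  obtain ⟨k, -, hk⟩ := exists_pow_eq hgj (ZMod.unitOfCoprime a hac)⁻¹
  obtain ⟨k', -, hk'⟩ := exists_pow_eq hgj (ZMod.unitOfCoprime a' hac')⁻¹
  -- `k ≡ k'`
  have hred : ∀ (c k : ℕ) (hc : c.Coprime (ℓ ^ (i + 1))) (hci : c.Coprime (ℓ ^ i)),
      (red hj γ) ^ k = (ZMod.unitOfCoprime c hc)⁻¹ →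
      (red hi' γ) ^ k = (ZMod.unitOfCoprime c hci)⁻¹ := by
    intro c k hc hci h1
    have h2 : red hj (γ ^ k)⁻¹ = ZMod.unitOfCoprime c hc := by
      rw [map_inv, map_pow, h1, inv_inv]
    rw [← red_eq_iff hj _ hc] at h2
    have h3 : ((γ ^ k)⁻¹ : (ZMod (ℓ ^ K))ˣ).val.val ≡ c [MOD ℓ ^ i] :=
      h2.of_dvd (pow_dvd_pow ℓ (Nat.le_succ i))
    rw [red_eq_iff hi' _ hci, map_inv, map_pow] at h3
    rw [← h3, inv_inv]
  have hkk : k ≡ k' [MOD Nat.totient (ℓ ^ i)] := by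
    rw [← orderOf_gen hgi, ← pow_eq_pow_iff_modEq, hred a k hac hai hk,
      hred a' k' hac' hai' hk']
    congr 1
    rw [Units.ext_iff, ZMod.coe_unitOfCoprime, ZMod.coe_unitOfCoprime,
      ZMod.natCast_eq_natCast_iff]
    exact haa
  set E : (ZMod (ℓ ^ K))ˣ → ℚ := fun b => if red hj b = 1 then 1 else 0 with hE
  have hEN : aeval (T γ) (X ^ (ℓ ^ i * 2 ^ s) - 1 : ℚ[X]) E = 0 := by
    rw [map_sub, map_pow, aeval_X, map_one, LinearMap.sub_apply, Module.End.one_apply,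
      sub_eq_zero]
    funext b
    rw [T_pow, hE]
    simp only
    rw [map_mul, map_pow, ← hordj, pow_orderOf_eq_one, one_mul]
  have hEk : ∀ (c k : ℕ) (hc : c.Coprime (ℓ ^ (i + 1))),
      (red hj γ) ^ k = (ZMod.unitOfCoprime c hc)⁻¹ → ∀ b : (ZMod (ℓ ^ K))ˣ,
      ((T γ) ^ k) E b = if (b : ZMod (ℓ ^ K)).val ≡ c [MOD ℓ ^ (i + 1)] then 1 else 0 := by
    intro c k hc h1 b
    rw [T_pow, hE]
    simp only
    have h0 : red hj (γ ^ k * b) = 1 ↔ red hj b = ZMod.unitOfCoprime c hc := by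
      rw [map_mul, map_pow, h1, inv_mul_eq_one, eq_comm]
    by_cases h2 : red hj b = ZMod.unitOfCoprime c hc
    · rw [if_pos (h0.mpr h2), if_pos ((red_eq_iff hj b hc).mpr h2)]
    · rw [if_neg (fun h3 => h2 (h0.mp h3)), if_neg (fun h3 => h2 ((red_eq_iff hj b hc).mp h3))]
  have hEk' : ∀ (c k : ℕ) (hc : c.Coprime (ℓ ^ (i + 1))),
      (red hj γ) ^ k = (ZMod.unitOfCoprime c hc)⁻¹ → ∀ b : (ZMod (ℓ ^ K))ˣ,
      ((T γ) ^ (h' + k)) E b =
        if ((-b : (ZMod (ℓ ^ K))ˣ) : ZMod (ℓ ^ K)).val ≡ c [MOD ℓ ^ (i + 1)] then 1 else 0 := by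
    intro c k hc h1 b
    rw [← hEk c k hc h1 (-b), T_pow, T_pow, hE]
    simp only
    have h2 : red hj (γ ^ (h' + k) * b) = red hj (γ ^ k * -b) := by
      rw [map_mul, map_mul, map_pow, map_pow, pow_add (red hj γ) h' k, hhalfj]
      have h3 : red hj (-b) = - red hj b := by
        have h5 : red hj (-1 : (ZMod (ℓ ^ K))ˣ) = -1 := by
          rw [Units.ext_iff, red, ZMod.unitsMap_val, Units.val_neg, Units.val_one,
            ZMod.cast_neg (pow_dvd_pow ℓ hj), ZMod.cast_one (pow_dvd_pow ℓ hj), Units.val_neg,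
            Units.val_one]
        rw [show (-b : (ZMod (ℓ ^ K))ˣ) = -1 * b by simp, map_mul, h5, neg_one_mul]
      rw [h3, neg_one_mul, neg_mul, mul_neg]
    rw [h2]
  have hkerE : aeval (T γ) (cyclotomic d ℚ)
      (aeval (T γ) ((1 - X ^ h') * (X ^ k - X ^ k') : ℚ[X]) E) = 0 := by
    rw [← Module.End.mul_apply, ← map_mul]
    obtain ⟨q1, hq1⟩ := cyc_dvd (ℓ := ℓ) (i := i) (s := s) hp hs hℓ
    obtain ⟨q2, hq2⟩ := X_pow_sub_one_dvd_sub hkk
    have h1 : (cyclotomic d ℚ * ((1 - X ^ h') * (X ^ k - X ^ k')) : ℚ[X]) =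
        (-(q1 * q2)) * (X ^ (ℓ ^ i * 2 ^ s) - 1) := by
      rw [hq2, hdi]
      linear_combination (-q2) * hq1
    rw [h1, map_mul, Module.End.mul_apply, hEN, map_zero]
  have hmem := hker _ hkerE
  have hfin : (aeval (T γ) ((1 - X ^ h') * (X ^ k - X ^ k') : ℚ[X]) E) =
      (fun b : (ZMod (ℓ ^ K))ˣ =>
      (if (b : ZMod (ℓ ^ K)).val ≡ a [MOD ℓ ^ (i + 1)] then (1 : ℚ) else 0) -
      (if (((-b : (ZMod (ℓ ^ K))ˣ)) : ZMod (ℓ ^ K)).val ≡ a [MOD ℓ ^ (i + 1)] then 1 else 0) -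
      (if (b : ZMod (ℓ ^ K)).val ≡ a' [MOD ℓ ^ (i + 1)] then 1 else 0) +
      (if (((-b : (ZMod (ℓ ^ K))ˣ)) : ZMod (ℓ ^ K)).val ≡ a' [MOD ℓ ^ (i + 1)]
        then 1 else 0)) := by
    have h1 : ((1 - X ^ h') * (X ^ k - X ^ k') : ℚ[X]) =
        X ^ k - X ^ (h' + k) - X ^ k' + X ^ (h' + k') := by ring
    funext b
    rw [h1]
    simp only [map_add, map_sub, map_pow, aeval_X, LinearMap.add_apply, LinearMap.sub_apply,
      Pi.add_apply, Pi.sub_apply]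
    rw [hEk a k hac hk, hEk a' k' hac' hk', hEk' a k hac hk, hEk' a' k' hac' hk']
  rw [← hfin]
  exact hmem

end

end Pool.Agent.FDR.IRR
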