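import Pool.Agent.FDR.Stmts2

/-!
IRR2: a translation-stable space of functions on `(ℤ/2^K)ˣ` with a non-even element contains the
`2`-primitive odd functions of some level.
-/

set_option autoImplicit false

open scoped BigOperators Polynomial

namespace Pool.Agent.FDR.IRR2

noncomputable section

variable {K : ℕ}

/-- reduction modulo `2 ^ j` -/
def w (j : ℕ) (b : (ZMod (2 ^ K))ˣ) : ZMod (2 ^ j) :=
  (((b : ZMod (2 ^ K)).val : ℕ) : ZMod (2 ^ j))

theorem w_eq {j : ℕ} (hj : j ≤ K) (b : (ZMod (2 ^ K))ˣ) :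
    w j b = ZMod.castHom (pow_dvd_pow 2 hj) (ZMod (2 ^ j)) (b : ZMod (2 ^ K)) := by
  rw [w, ZMod.castHom_apply, ZMod.natCast_val]

theorem w_mul {j : ℕ} (hj : j ≤ K) (b c : (ZMod (2 ^ K))ˣ) : w j (b * c) = w j b * w j c := by
  rw [w_eq hj, w_eq hj, w_eq hj, Units.val_mul, map_mul]

theorem w_neg {j : ℕ} (hj : j ≤ K) (b : (ZMod (2 ^ K))ˣ) : w j (-b) = -w j b := by
  rw [w_eq hj, w_eq hj, Units.val_neg, map_neg]

theorem w_one {j : ℕ} (hj : j ≤ K) : w j (1 : (ZMod (2 ^ K))ˣ) = 1 := by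
  rw [w_eq hj, Units.val_one, map_one]

theorem w_pow {j : ℕ} (hj : j ≤ K) (b : (ZMod (2 ^ K))ˣ) (n : ℕ) : w j (b ^ n) = w j b ^ n := by
  rw [w_eq hj, w_eq hj, Units.val_pow_eq_pow_val, map_pow]

theorem w_top (b c : (ZMod (2 ^ K))ˣ) (h : w K b = w K c) : b = c := by
  rw [w_eq le_rfl, w_eq le_rfl, ZMod.castHom_apply, ZMod.castHom_apply, ZMod.cast_id,
    ZMod.cast_id] at h
  exact Units.ext h

theorem exists_unit (K : ℕ) {a : ℕ} (ha : ¬ 2 ∣ a) :
    ∃ b : (ZMod (2 ^ K))ˣ, ∀ j ≤ K, w j b = (a : ZMod (2 ^ j)) := by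
  have hc : a.Coprime (2 ^ K) :=
    Nat.Coprime.pow_right K ((Nat.Prime.coprime_iff_not_dvd Nat.prime_two).mpr ha).symm
  refine ⟨ZMod.unitOfCoprime a hc, fun j hj => ?_⟩
  rw [w_eq hj, ZMod.coe_unitOfCoprime, map_natCast]

theorem w_odd (hK : 0 < K) (j : ℕ) (b : (ZMod (2 ^ K))ˣ) :
    ∃ q : ℕ, w j b = ((2 * q + 1 : ℕ) : ZMod (2 ^ j)) := by
  have h1 : Nat.Coprime (b : ZMod (2 ^ K)).val (2 ^ K) := ZMod.val_coe_unit_coprime b
  have h2 : Nat.Coprime (b : ZMod (2 ^ K)).val 2 :=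
    Nat.Coprime.coprime_dvd_right (dvd_pow_self 2 hK.ne') h1
  have h3 : Odd (b : ZMod (2 ^ K)).val := Nat.coprime_two_right.mp h2
  obtain ⟨q, hq⟩ := h3
  exact ⟨q, by rw [w, hq]⟩

/-! ### powers of five -/

theorem five (n : ℕ) : ∃ d : ℤ, Odd d ∧ (5 : ℤ) ^ (2 ^ n) = 1 + 2 ^ (n + 2) * d := by
  induction n with
  | zero => exact ⟨1, odd_one, by norm_num⟩
  | succ n ih =>
    obtain ⟨d, hd, h⟩ := ih
    refine ⟨d + 2 ^ (n + 1) * d ^ 2, ?_, ?_⟩
    · refine hd.add_even ?_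
      exact ⟨2 ^ n * d ^ 2, by ring⟩
    · rw [pow_succ 2 n, pow_mul, h]
      ring

theorem gen (j : ℕ) (hj : 2 ≤ j) (a : ℤ) (ha : Odd a) :
    ∃ k : ℕ, ((2 : ℤ) ^ j ∣ a - 5 ^ k) ∨ ((2 : ℤ) ^ j ∣ a + 5 ^ k) := by
  induction j, hj using Nat.le_induction with
  | base =>
    refine ⟨0, ?_⟩
    obtain ⟨q, rfl⟩ := ha
    rcases Int.even_or_odd q with ⟨r, rfl⟩ | ⟨r, rfl⟩
    · left
      exact ⟨r, by ring⟩
    · right
      exact ⟨r + 1, by ring⟩
  | succ j hj ih =>
    obtain ⟨k, hk⟩ := ih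
    obtain ⟨n, rfl⟩ : ∃ n, j = n + 2 := ⟨j - 2, by omega⟩
    obtain ⟨d, hd, h5⟩ := five n
    have hodd : Odd (d * 5 ^ k) := hd.mul (Odd.pow (by decide))
    rcases hk with ⟨c, hc⟩ | ⟨c, hc⟩
    · rcases Int.even_or_odd c with ⟨r, hr⟩ | hcodd
      · exact ⟨k, Or.inl ⟨r, by rw [hc, hr]; ring⟩⟩
      · obtain ⟨r, hr⟩ := hcodd.sub_odd hodd
        refine ⟨k + 2 ^ n, Or.inl ⟨r, ?_⟩⟩
        have : a - 5 ^ (k + 2 ^ n) = 2 ^ (n + 2) * (c - d * 5 ^ k) := by
          rw [pow_add, h5]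
          linear_combination hc
        rw [this, hr]
        ring
    · rcases Int.even_or_odd c with ⟨r, hr⟩ | hcodd
      · exact ⟨k, Or.inr ⟨r, by rw [hc, hr]; ring⟩⟩
      · obtain ⟨r, hr⟩ := hcodd.add_odd hodd
        refine ⟨k + 2 ^ n, Or.inr ⟨r, ?_⟩⟩
        have : a + 5 ^ (k + 2 ^ n) = 2 ^ (n + 2) * (c + d * 5 ^ k) := by
          rw [pow_add, h5]
          linear_combination hc
        rw [this, hr]
        ring

theorem two_pow_zero (j : ℕ) : (2 : ZMod (2 ^ j)) ^ j = 0 := by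
  have : ((2 ^ j : ℕ) : ZMod (2 ^ j)) = 0 := ZMod.natCast_self _
  push_cast at this
  exact this

theorem half_mul {j : ℕ} (hj : 1 ≤ j) (q : ℕ) :
    (2 : ZMod (2 ^ j)) ^ (j - 1) * ((2 * q + 1 : ℕ) : ZMod (2 ^ j)) = 2 ^ (j - 1) := by
  have h : (2 : ZMod (2 ^ j)) ^ (j - 1) * 2 = 0 := by
    rw [← pow_succ, Nat.sub_add_cancel hj, two_pow_zero]
  push_cast
  linear_combination (q : ZMod (2 ^ j)) * h

theorem five_half {j : ℕ} (hj : 3 ≤ j) : (5 : ZMod (2 ^ j)) ^ (2 ^ (j - 3)) = 1 + 2 ^ (j - 1) := by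
  obtain ⟨d, ⟨e, rfl⟩, h⟩ := five (j - 3)
  have h2 : (2 : ZMod (2 ^ j)) ^ (j - 1) * 2 = 0 := by
    rw [← pow_succ, Nat.sub_add_cancel (by omega), two_pow_zero]
  have h' := congrArg (Int.cast : ℤ → ZMod (2 ^ j)) h
  push_cast at h'
  rw [h', show j - 3 + 2 = j - 1 by omega]
  linear_combination (e : ZMod (2 ^ j)) * h2

theorem gen' (hK : 0 < K) {j : ℕ} (hj : 2 ≤ j) (b : (ZMod (2 ^ K))ˣ) :
    ∃ k : ℕ, w j b = 5 ^ k ∨ w j b = -5 ^ k := by
  obtain ⟨q, hq⟩ := w_odd hK j b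
  obtain ⟨k, hk⟩ := gen j hj (2 * q + 1) ⟨q, rfl⟩
  refine ⟨k, ?_⟩
  have hcast : ((2 ^ j : ℕ) : ℤ) = 2 ^ j := by push_cast; rfl
  rcases hk with hk | hk
  · left
    rw [← hcast, ← ZMod.intCast_zmod_eq_zero_iff_dvd] at hk
    push_cast at hk
    rw [hq]
    push_cast
    linear_combination hk
  · right
    rw [← hcast, ← ZMod.intCast_zmod_eq_zero_iff_dvd] at hk
    push_cast at hk
    rw [hq]
    push_cast
    linear_combination hk

/-! ### odd functions of level `j` -/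

/-- odd, level `j`, primitive -/
structure IsX (j : ℕ) (x : (ZMod (2 ^ K))ˣ → ℚ) : Prop where
  odd : ∀ b, x (-b) = -x b
  lev : ∀ b c, w j b = w j c → x b = x c
  half : ∀ t b, w j t = 1 + 2 ^ (j - 1) → x (t * b) = -x b

/-- translation -/
def Tr (g : (ZMod (2 ^ K))ˣ) : ((ZMod (2 ^ K))ˣ → ℚ) →ₗ[ℚ] ((ZMod (2 ^ K))ˣ → ℚ) where
  toFun x := fun b => x (g * b)
  map_add' _ _ := rfl
  map_smul' _ _ := rfl

theorem Tr_apply (g : (ZMod (2 ^ K))ˣ) (x : (ZMod (2 ^ K))ˣ → ℚ) (b : (ZMod (2 ^ K))ˣ) :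
    Tr g x b = x (g * b) := rfl

theorem Tr_pow (g : (ZMod (2 ^ K))ˣ) (n : ℕ) (x : (ZMod (2 ^ K))ˣ → ℚ) (b : (ZMod (2 ^ K))ˣ) :
    ((Tr g) ^ n) x b = x (g ^ n * b) := by
  induction n generalizing x b with
  | zero => simp
  | succ n ih =>
    rw [pow_succ, Module.End.mul_apply, ih, Tr_apply]
    congr 1
    rw [pow_succ]
    exact mul_left_comm g (g ^ n) b |>.trans (by rw [mul_assoc])

/-- the space of these functions -/
def XS (K : ℕ) (j : ℕ) : Submodule ℚ ((ZMod (2 ^ K))ˣ → ℚ) where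
  carrier := {x | IsX j x}
  add_mem' := by
    intro x y hx hy
    refine ⟨fun b => ?_, fun b c h => ?_, fun t b h => ?_⟩
    · rw [Pi.add_apply, Pi.add_apply, hx.odd, hy.odd]; ring
    · rw [Pi.add_apply, Pi.add_apply, hx.lev b c h, hy.lev b c h]
    · rw [Pi.add_apply, Pi.add_apply, hx.half t b h, hy.half t b h]; ring
  zero_mem' := by
    refine ⟨fun b => ?_, fun b c h => ?_, fun t b h => ?_⟩ <;> simp
  smul_mem' := by
    intro r x hx
    refine ⟨fun b => ?_, fun b c h => ?_, fun t b h => ?_⟩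
    · rw [Pi.smul_apply, Pi.smul_apply, hx.odd, smul_neg]
    · rw [Pi.smul_apply, Pi.smul_apply, hx.lev b c h]
    · rw [Pi.smul_apply, Pi.smul_apply, hx.half t b h, smul_neg]

theorem mem_XS {j : ℕ} {x : (ZMod (2 ^ K))ˣ → ℚ} : x ∈ XS K j ↔ IsX j x := Iff.rfl

theorem Tr_mem {j : ℕ} (hj : j ≤ K) (g : (ZMod (2 ^ K))ˣ) {x : (ZMod (2 ^ K))ˣ → ℚ}
    (hx : x ∈ XS K j) : Tr g x ∈ XS K j := by
  rw [mem_XS] at hx ⊢
  refine ⟨fun b => ?_, fun b c h => ?_, fun t b h => ?_⟩
  · rw [Tr_apply, Tr_apply, mul_neg, hx.odd]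
  · rw [Tr_apply, Tr_apply]
    exact hx.lev _ _ (by rw [w_mul hj, w_mul hj, h])
  · rw [Tr_apply, Tr_apply, mul_left_comm]
    exact hx.half t _ h

theorem aeval_mem {N : Submodule ℚ ((ZMod (2 ^ K))ˣ → ℚ)} (g : (ZMod (2 ^ K))ˣ)
    (hN : ∀ x ∈ N, Tr g x ∈ N) (p : ℚ[X]) {x : (ZMod (2 ^ K))ˣ → ℚ} (hx : x ∈ N) :
    Polynomial.aeval (Tr g) p x ∈ N := by
  have hpow : ∀ n : ℕ, ∀ y ∈ N, ((Tr g) ^ n) y ∈ N := by
    intro n
    induction n with
    | zero => intro y hy; simpa using hy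
    | succ n ih =>
      intro y hy
      rw [pow_succ, Module.End.mul_apply]
      exact ih _ (hN y hy)
  induction p using Polynomial.induction_on' with
  | add p q hp hq =>
    rw [map_add, LinearMap.add_apply]
    exact N.add_mem hp hq
  | monomial n a =>
    rw [Polynomial.aeval_monomial, Module.End.mul_apply, Module.algebraMap_end_apply]
    exact N.smul_mem _ (hpow n x hx)

/-- functions of level `j ≥ 3` are determined by the values at `5 ^ k`, `k < 2 ^ (j - 3)` -/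
theorem determined (hK : 0 < K) {j : ℕ} (hj : 3 ≤ j) (hjK : j ≤ K) {g : (ZMod (2 ^ K))ˣ}
    (hg : w j g = 5) {x : (ZMod (2 ^ K))ˣ → ℚ} (hx : IsX j x)
    (h : ∀ k < 2 ^ (j - 3), x (g ^ k) = 0) : x = 0 := by
  have hm : w j (g ^ (2 ^ (j - 3))) = 1 + 2 ^ (j - 1) := by
    rw [w_pow hjK, hg, five_half hj]
  have hall : ∀ k : ℕ, x (g ^ k) = 0 := by
    intro k
    induction k using Nat.strong_induction_on with
    | _ k ih =>
      by_cases hk : k < 2 ^ (j - 3)
      · exact h k hk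
      · have e : g ^ k = g ^ (2 ^ (j - 3)) * g ^ (k - 2 ^ (j - 3)) := by
          rw [← pow_add, Nat.add_sub_cancel' (not_lt.mp hk)]
        have hpos : 0 < 2 ^ (j - 3) := by positivity
        rw [e, hx.half _ _ hm, ih _ (by omega), neg_zero]
  funext b
  obtain ⟨k, hk | hk⟩ := gen' hK (by omega : 2 ≤ j) b
  · rw [hx.lev b (g ^ k) (by rw [hk, w_pow hjK, hg]), hall]
    rfl
  · rw [hx.lev b (-g ^ k) (by rw [hk, w_neg hjK, w_pow hjK, hg]), hx.odd, hall]
    simp

theorem irr (a : ℕ) : Irreducible ((Polynomial.X : ℚ[X]) ^ (2 ^ a) + 1) := by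
  have h : Polynomial.cyclotomic (2 ^ (a + 1)) ℚ = (Polynomial.X : ℚ[X]) ^ (2 ^ a) + 1 := by
    rw [Polynomial.cyclotomic_prime_pow_eq_geom_sum Nat.prime_two]
    simp [Finset.sum_range_succ]
    ring
  rw [← h]
  exact Polynomial.cyclotomic.irreducible_rat (by positivity)

theorem main (hK : 0 < K) {j : ℕ} (hj : 3 ≤ j) (hjK : j ≤ K)
    {S : Submodule ℚ ((ZMod (2 ^ K))ˣ → ℚ)}
    (hS : ∀ x ∈ S, ∀ t : (ZMod (2 ^ K))ˣ, (fun b => x (t * b)) ∈ S)
    {E : (ZMod (2 ^ K))ˣ → ℚ} (hES : E ∈ S) (hEX : IsX j E) (hE0 : E ≠ 0)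
    {f : (ZMod (2 ^ K))ˣ → ℚ} (hf : IsX j f) : f ∈ S := by
  obtain ⟨g, hg'⟩ := exists_unit K (a := 5) (by decide)
  have hg : w j g = 5 := by
    rw [hg' j hjK]; norm_cast
  set m := 2 ^ (j - 3) with hm
  have hS' : ∀ x ∈ S, Tr g x ∈ S := fun x hx => hS x hx g
  have hX' : ∀ x ∈ XS K j, Tr g x ∈ XS K j := fun x hx => Tr_mem hjK g hx
  -- the polynomial attached to a vector
  set pol : (Fin m → ℚ) → ℚ[X] := fun c =>
    ∑ i : Fin m, Polynomial.C (c i) * Polynomial.X ^ (i : ℕ) with hpol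
  have hval : ∀ (c : Fin m → ℚ) (b : (ZMod (2 ^ K))ˣ),
      Polynomial.aeval (Tr g) (pol c) E b = ∑ i : Fin m, c i * E (g ^ (i : ℕ) * b) := by
    intro c b
    rw [hpol]
    simp only [map_sum, map_mul, map_pow, Polynomial.aeval_C, Polynomial.aeval_X,
      LinearMap.sum_apply, Finset.sum_apply]
    refine Finset.sum_congr rfl (fun i _ => ?_)
    rw [Module.End.mul_apply, Module.algebraMap_end_apply, Pi.smul_apply, Tr_pow, smul_eq_mul]
  set M : Matrix (Fin m) (Fin m) ℚ := fun k i => E (g ^ (i : ℕ) * g ^ (k : ℕ)) with hM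
  have hMv : ∀ (c : Fin m → ℚ) (k : Fin m),
      M.mulVec c k = Polynomial.aeval (Tr g) (pol c) E (g ^ (k : ℕ)) := by
    intro c k
    rw [hval, Matrix.mulVec, dotProduct]
    refine Finset.sum_congr rfl (fun i _ => ?_)
    rw [hM]
    ring
  have hmin : Polynomial.aeval (Tr g) ((Polynomial.X : ℚ[X]) ^ m + 1) E = 0 := by
    funext b
    have hgm : w j (g ^ m) = 1 + 2 ^ (j - 1) := by
      rw [w_pow hjK, hg, hm, five_half hj]
    rw [map_add, map_pow, Polynomial.aeval_X, map_one, LinearMap.add_apply, Pi.add_apply,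
      Tr_pow, hEX.half _ _ hgm, Module.End.one_apply]
    simp
  have hinj : Function.Injective (Matrix.mulVecLin M) := by
    rw [injective_iff_map_eq_zero]
    intro c hc
    have h0 : Polynomial.aeval (Tr g) (pol c) E = 0 := by
      refine determined hK hj hjK hg (mem_XS.mp (aeval_mem g hX' _ (mem_XS.mpr hEX))) ?_
      intro k hk
      have := congrFun hc ⟨k, hk⟩
      rw [Matrix.mulVecLin_apply, hMv] at this
      exact this
    by_contra hne
    have hp0 : pol c ≠ 0 := by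
      intro hp
      apply hne
      funext i
      have h1 : (pol c).coeff i = c i := by
        rw [hpol]
        simp only [Polynomial.finset_sum_coeff, Polynomial.coeff_C_mul, Polynomial.coeff_X_pow]
        rw [Finset.sum_eq_single i]
        · simp
        · intro i' _ hi'
          rw [if_neg (fun h => hi' (Fin.ext h.symm)), mul_zero]
        · intro h
          exact absurd (Finset.mem_univ i) h
      rw [← h1, hp]
      simp
    have hdeg : (pol c).degree < ((Polynomial.X : ℚ[X]) ^ m + 1).degree := by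
      have e : ((Polynomial.X : ℚ[X]) ^ m + 1).degree = m := by
        have : (1 : ℚ[X]) = Polynomial.C 1 := by simp
        rw [this]
        exact Polynomial.degree_X_pow_add_C (by positivity) _
      rw [e]
      exact Polynomial.degree_sum_fin_lt c
    have hnd : ¬ ((Polynomial.X : ℚ[X]) ^ m + 1) ∣ pol c := fun hd =>
      absurd (Polynomial.degree_le_of_dvd hd hp0) (not_le.mpr hdeg)
    obtain ⟨u, v, huv⟩ := ((irr (j - 3)).coprime_iff_not_dvd).mpr hnd
    apply hE0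
    have h1 : Polynomial.aeval (Tr g) (1 : ℚ[X]) E = E := by
      rw [map_one, Module.End.one_apply]
    rw [← h1, ← huv, map_add, map_mul, map_mul, LinearMap.add_apply, Module.End.mul_apply,
      Module.End.mul_apply, h0, ← hm, hmin, map_zero, map_zero, add_zero]
  have hsurj : Function.Surjective (Matrix.mulVecLin M) :=
    LinearMap.injective_iff_surjective.mp hinj
  obtain ⟨c, hc⟩ := hsurj (fun k => f (g ^ (k : ℕ)))
  have hF : Polynomial.aeval (Tr g) (pol c) E ∈ S := aeval_mem g hS' _ hES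
  have hFX : Polynomial.aeval (Tr g) (pol c) E ∈ XS K j := aeval_mem g hX' _ (mem_XS.mpr hEX)
  have hdiff : Polynomial.aeval (Tr g) (pol c) E - f = 0 := by
    refine determined hK hj hjK hg (mem_XS.mp ((XS K j).sub_mem hFX (mem_XS.mpr hf))) ?_
    intro k hk
    have := congrFun hc ⟨k, hk⟩
    rw [Matrix.mulVecLin_apply, hMv] at this
    rw [Pi.sub_apply, this, sub_self]
  rw [sub_eq_zero] at hdiff
  rw [← hdiff]
  exact hF

theorem main2 (hK : 0 < K) (hjK : 2 ≤ K)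
    {S : Submodule ℚ ((ZMod (2 ^ K))ˣ → ℚ)}
    {E : (ZMod (2 ^ K))ˣ → ℚ} (hES : E ∈ S) (hEX : IsX 2 E) (hE0 : E ≠ 0)
    {f : (ZMod (2 ^ K))ˣ → ℚ} (hf : IsX 2 f) : f ∈ S := by
  have h5 : (5 : ZMod (2 ^ 2)) = 1 := by decide
  have hdet : ∀ x : (ZMod (2 ^ K))ˣ → ℚ, IsX 2 x → ∀ b : (ZMod (2 ^ K))ˣ,
      x b = (if w 2 b = 1 then 1 else -1) * x 1 := by
    intro x hx b
    by_cases h1 : w 2 b = 1
    · rw [if_pos h1, hx.lev b 1 (by rw [h1, w_one hjK]), one_mul]
    · rw [if_neg h1]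
      obtain ⟨k, hk | hk⟩ := gen' hK (le_refl 2) b
      · rw [h5, one_pow] at hk
        exact absurd hk h1
      · rw [h5, one_pow] at hk
        rw [hx.lev b (-1) (by rw [hk, w_neg hjK, w_one hjK]), hx.odd, neg_one_mul]
  have hE1 : E 1 ≠ 0 := by
    intro h
    apply hE0
    funext b
    rw [hdet E hEX b, h, mul_zero]
    rfl
  have hfe : f = (f 1 / E 1) • E := by
    funext b
    rw [Pi.smul_apply, smul_eq_mul, hdet f hf b, hdet E hEX b]
    field_simp
  rw [hfe]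
  exact S.smul_mem _ hES

/-- the target functions belong to the space -/
theorem target (hK : 0 < K) {j : ℕ} (hj : 2 ≤ j) (hjK : j ≤ K) (i : ZMod (2 ^ j)) :
    IsX j (fun b : (ZMod (2 ^ K))ˣ =>
      (if w j b = i then (1 : ℚ) else 0) - (if w j (-b) = i then 1 else 0) -
      (if w j b = i + 2 ^ (j - 1) then 1 else 0) +
      (if w j (-b) = i + 2 ^ (j - 1) then 1 else 0)) := by
  have h2 : (2 : ZMod (2 ^ j)) ^ (j - 1) + 2 ^ (j - 1) = 0 := by
    have : (2 : ZMod (2 ^ j)) ^ (j - 1) * 2 = 0 := by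
      rw [← pow_succ, Nat.sub_add_cancel (by omega), two_pow_zero]
    linear_combination this
  refine ⟨fun b => ?_, fun b c h => ?_, fun t b h => ?_⟩
  · simp only [neg_neg]
    ring
  · simp only [w_neg hjK, h]
  · obtain ⟨q, hq⟩ := w_odd hK j b
    have e1 : w j (t * b) = w j b + 2 ^ (j - 1) := by
      rw [w_mul hjK, h, hq, add_mul, one_mul, half_mul (by omega)]
    have e2 : w j (-(t * b)) = w j (-b) + 2 ^ (j - 1) := by
      rw [w_neg hjK, w_neg hjK, e1]
      linear_combination -h2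
    simp only [e1, e2]
    have e3 : ∀ z : ZMod (2 ^ j), (z + 2 ^ (j - 1) = i) ↔ (z = i + 2 ^ (j - 1)) := by
      intro z
      constructor
      · intro h'
        linear_combination h' - h2
      · intro h'
        linear_combination h' + h2
    have e4 : ∀ z : ZMod (2 ^ j), (z + 2 ^ (j - 1) = i + 2 ^ (j - 1)) ↔ (z = i) := by
      intro z
      exact add_left_inj _
    simp only [e3, e4]
    ring

end

theorem thm_IRR2 : Stmt_Irr2 := by
  intro K hK S hS hex
  classical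
  -- property of a level
  set P : ℕ → Prop := fun j => ∃ E ∈ S, E ≠ 0 ∧ (∀ b, E (-b) = -E b) ∧
    ∀ b c : (ZMod (2 ^ K))ˣ, w j b = w j c → E b = E c with hP
  have hPK : P K := by
    obtain ⟨x, hxS, b, hb⟩ := hex
    refine ⟨fun b => x b - x (-b), ?_, ?_, ?_, ?_⟩
    · have h1 := hS x hxS (-1)
      have h2 : (fun b => x b - x (-b)) = x - fun b => x (-1 * b) := by
        funext b
        rw [Pi.sub_apply, neg_one_mul]
      rw [h2]
      exact S.sub_mem hxS h1
    · intro h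
      apply hb
      have := congrFun h b
      simp only [Pi.zero_apply] at this
      linarith
    · intro b
      simp only [neg_neg]
      ring
    · intro b c h
      rw [w_top b c h]
  have hPex : ∃ j, P j := ⟨K, hPK⟩
  set j := Nat.find hPex with hjdef
  have hPj : P j := Nat.find_spec hPex
  have hjK : j ≤ K := Nat.find_min' hPex hPK
  have hmin : ∀ i < j, ¬ P i := fun i hi => Nat.find_min hPex hi
  have hj2 : 2 ≤ j := by
    by_contra hlt
    obtain ⟨E, -, hE0, hodd, hlev⟩ := hPj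
    apply hE0
    funext b
    have h1 : w j b = w j (-b) := by
      rw [w_neg hjK]
      have h2 : (2 : ZMod (2 ^ j)) = 0 := by
        have : j = 0 ∨ j = 1 := by omega
        rcases this with h | h
        · rw [h]; decide
        · rw [h]; decide
      linear_combination (w j b) * h2
    have h3 := hlev b (-b) h1
    rw [hodd] at h3
    show E b = 0
    linarith
  obtain ⟨E, hES, hE0, hodd, hlev⟩ := hPj
  have h2 : (2 : ZMod (2 ^ j)) ^ (j - 1) + 2 ^ (j - 1) = 0 := by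
    have : (2 : ZMod (2 ^ j)) ^ (j - 1) * 2 = 0 := by
      rw [← pow_succ, Nat.sub_add_cancel (by omega), two_pow_zero]
    linear_combination this
  -- `E` is primitive
  have hEX : IsX j E := by
    refine ⟨hodd, hlev, fun t b ht => ?_⟩
    by_contra hne
    have hmul : ∀ c : (ZMod (2 ^ K))ˣ, w j (t * c) = w j c + 2 ^ (j - 1) := by
      intro c
      obtain ⟨q, hq⟩ := w_odd hK j c
      rw [w_mul hjK, ht, hq, add_mul, one_mul, half_mul (by omega)]
    apply hmin (j - 1) (by omega)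
    refine ⟨fun b => E b + E (t * b), S.add_mem hES (hS E hES t), ?_, ?_, ?_⟩
    · intro h
      apply hne
      have := congrFun h b
      simp only [Pi.zero_apply] at this
      linarith
    · intro b
      show E (-b) + E (t * -b) = -(E b + E (t * b))
      rw [mul_neg, hodd, hodd]
      ring
    · intro b c hbc
      show E b + E (t * b) = E c + E (t * c)
      have hcase : w j b = w j c ∨ w j b = w j c + 2 ^ (j - 1) := by
        rw [w, w, ZMod.natCast_eq_natCast_iff] at hbc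
        rw [w, w]
        have hd : ((2 : ℤ) ^ (j - 1)) ∣ ((b : ZMod (2 ^ K)).val : ℤ) - ((c : ZMod (2 ^ K)).val : ℤ) := by
          have := (Nat.modEq_iff_dvd.mp hbc.symm)
          push_cast at this
          exact this
        obtain ⟨r, hr⟩ := hd
        have hcast := congrArg (Int.cast : ℤ → ZMod (2 ^ j)) hr
        push_cast at hcast
        rcases Int.even_or_odd r with ⟨s, hs⟩ | ⟨s, hs⟩
        · left
          rw [hs] at hcast
          push_cast at hcast
          have h3 : (2 : ZMod (2 ^ j)) ^ (j - 1) * ((s : ZMod (2 ^ j)) + s) = 0 := by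
            linear_combination (s : ZMod (2 ^ j)) * h2
          linear_combination hcast + h3
        · right
          rw [hs] at hcast
          push_cast at hcast
          have h3 : (2 : ZMod (2 ^ j)) ^ (j - 1) * (2 * (s : ZMod (2 ^ j)) + 1) = 2 ^ (j - 1) := by
            linear_combination (s : ZMod (2 ^ j)) * h2
          linear_combination hcast + h3
      rcases hcase with h | h
      · rw [hlev b c h, hlev (t * b) (t * c) (by rw [hmul, hmul, h])]
      · rw [hlev b (t * c) (by rw [hmul, h]), hlev (t * b) c (by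
          rw [hmul, h]; linear_combination h2)]
        ring
  refine ⟨j, hj2, hjK, ?_⟩
  intro i _
  have hX := target hK hj2 hjK (i : ZMod (2 ^ j))
  have hmem : (fun b : (ZMod (2 ^ K))ˣ =>
      (if w j b = (i : ZMod (2 ^ j)) then (1 : ℚ) else 0) -
      (if w j (-b) = (i : ZMod (2 ^ j)) then 1 else 0) -
      (if w j b = (i : ZMod (2 ^ j)) + 2 ^ (j - 1) then 1 else 0) +
      (if w j (-b) = (i : ZMod (2 ^ j)) + 2 ^ (j - 1) then 1 else 0)) ∈ S := by
    by_cases hj3 : 3 ≤ j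
    · exact main hK hj3 hjK hS hES hEX hE0 hX
    · have hj2' : j = 2 := by omega
      rw [hj2'] at hX hEX ⊢
      exact main2 hK (by omega) hES hEX hE0 hX
  have hconv : ∀ (b : (ZMod (2 ^ K))ˣ) (a : ℕ), ((b : ZMod (2 ^ K)).val ≡ a [MOD 2 ^ j]) ↔
      w j b = (a : ZMod (2 ^ j)) := by
    intro b a
    rw [w, ZMod.natCast_eq_natCast_iff]
  have hcast : (i : ZMod (2 ^ j)) + 2 ^ (j - 1) = ((i + 2 ^ (j - 1) : ℕ) : ZMod (2 ^ j)) := by
    push_cast; rfl
  rw [hcast] at hmem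
  simp only [hconv]
  exact hmem

end Pool.Agent.FDR.IRR2
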