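import Pool.Agent.FDR.Stmts

/-! Module LAMSPAN. -/

set_option autoImplicit false

open scoped BigOperators Polynomial Topology
open Metric Filter

namespace Pool.Agent.FDR.LAMSPAN

noncomputable section

/-- `exp (π i m / (2 g + 1))` -/
def e (g : ℕ) (m : ℤ) : ℂ := Complex.exp (Complex.I * Real.pi * m / (2 * g + 1))

theorem e_add (g : ℕ) (m n : ℤ) : e g (m + n) = e g m * e g n := by
  unfold e
  rw [← Complex.exp_add]
  congr 1
  push_cast
  ring

theorem e_zero (g : ℕ) : e g 0 = 1 := by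
  unfold e
  simp

theorem e_conj (g : ℕ) (m : ℤ) : (starRingEnd ℂ) (e g m) = e g (-m) := by
  unfold e
  rw [← Complex.exp_conj]
  congr 1
  simp only [map_div₀, map_mul, Complex.conj_I, Complex.conj_ofReal, map_add, map_one,
    map_natCast, map_intCast, map_ofNat]
  push_cast
  ring

theorem e_pow (g : ℕ) (m : ℤ) (k : ℕ) : e g (k * m) = e g m ^ k := by
  unfold e
  rw [← Complex.exp_nat_mul]
  congr 1
  push_cast
  ring

theorem N_ne (g : ℕ) : (2 * (g : ℂ) + 1) ≠ 0 := by
  have : ((2 * g + 1 : ℕ) : ℂ) ≠ 0 := Nat.cast_ne_zero.mpr (by omega)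
  push_cast at this
  exact this

/-- the sum over `k` -/
def E (g : ℕ) (m : ℤ) : ℂ := ∑ k ∈ Finset.range (2 * g + 1), e g ((2 * (k : ℤ) + 1) * m)

theorem E_zero (g : ℕ) : E g 0 = 2 * (g : ℂ) + 1 := by
  unfold E
  simp [e_zero]

theorem E_ne (g : ℕ) (m : ℤ) (h : ¬ ((2 * (g : ℤ) + 1) ∣ m)) : E g m = 0 := by
  have hq : e g (2 * m) ≠ 1 := by
    intro h1
    unfold e at h1
    rw [Complex.exp_eq_one_iff] at h1
    obtain ⟨n, hn⟩ := h1
    apply h
    refine ⟨n, ?_⟩
    have h2 : (2 * (Real.pi : ℂ) * Complex.I) ≠ 0 := Complex.two_pi_I_ne_zero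
    have h3 : (m : ℂ) = (2 * (g : ℂ) + 1) * n := by
      rw [div_eq_iff (N_ne g)] at hn
      apply mul_left_cancel₀ h2
      push_cast at hn
      linear_combination hn
    exact_mod_cast h3
  have hqN : e g (2 * m) ^ (2 * g + 1) = 1 := by
    rw [← e_pow]
    unfold e
    rw [Complex.exp_eq_one_iff]
    refine ⟨m, ?_⟩
    rw [div_eq_iff (N_ne g)]
    push_cast
    ring
  have hsum : ∑ k ∈ Finset.range (2 * g + 1), e g (2 * m) ^ k = 0 := by
    have h4 := geom_sum_mul (e g (2 * m)) (2 * g + 1)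
    rw [hqN, sub_self] at h4
    exact (mul_eq_zero.mp h4).resolve_right (sub_ne_zero.mpr hq)
  unfold E
  have h5 : ∀ k ∈ Finset.range (2 * g + 1), e g ((2 * (k : ℤ) + 1) * m) =
      e g m * e g (2 * m) ^ k := by
    intro k _
    rw [← e_pow, ← e_add]
    congr 1
    ring
  rw [Finset.sum_congr rfl h5, ← Finset.mul_sum, hsum, mul_zero]

/-- the positive real factor -/
def cc (g i : ℕ) : ℝ := 2 / (2 * g + 1) * bet ((i + 1) / (2 * g + 1)) (1 / 2)

theorem cc_pos (g i : ℕ) : 0 < cc g i := by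
  unfold cc bet
  have h1 : (0 : ℝ) < (i + 1) / (2 * g + 1) := by positivity
  have h2 := Real.Gamma_pos_of_pos h1
  have h3 : 0 < Real.Gamma (1 / 2 : ℝ) := Real.Gamma_pos_of_pos (by norm_num)
  have h4 : 0 < Real.Gamma ((i + 1) / (2 * g + 1) + 1 / 2 : ℝ) :=
    Real.Gamma_pos_of_pos (by positivity)
  positivity

theorem lam_eq (g k i : ℕ) :
    lam g k i = (cc g i : ℂ) * e g ((2 * (k : ℤ) + 1) * ((i : ℤ) + 1)) := by
  unfold lam cc e
  have h1 : Complex.I * Real.pi * (2 * (k : ℂ) + 1) * ((i : ℂ) + 1) / (2 * g + 1) =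
      Complex.I * Real.pi * (((2 * (k : ℤ) + 1) * ((i : ℤ) + 1) : ℤ) : ℂ) / (2 * g + 1) := by
    push_cast
    ring
  rw [h1]
  push_cast
  ring

theorem thm_LAMSPAN : Stmt_LamSpan := by
  intro g hg
  rw [eq_top_iff]
  intro w _
  have hN := N_ne g
  let u : Fin g → ℂ := fun j => w j / (cc g j : ℂ)
  let a : ℕ → ℝ := fun k =>
    2 / (2 * g + 1) * (∑ j : Fin g, u j * e g (-((2 * (k : ℤ) + 1) * ((j : ℕ) + 1)))).re
  have ha : ∀ k, (a k : ℂ) = 1 / (2 * g + 1) *
      ∑ j : Fin g, (u j * e g (-((2 * (k : ℤ) + 1) * ((j : ℕ) + 1))) +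
        (starRingEnd ℂ) (u j) * e g ((2 * (k : ℤ) + 1) * ((j : ℕ) + 1))) := by
    intro k
    have h1 : ∀ z : ℂ, ((2 / (2 * g + 1) * z.re : ℝ) : ℂ) =
        1 / (2 * g + 1) * (z + (starRingEnd ℂ) z) := by
      intro z
      rw [Complex.add_conj]
      push_cast
      ring
    show ((2 / (2 * g + 1) *
      (∑ j : Fin g, u j * e g (-((2 * (k : ℤ) + 1) * ((j : ℕ) + 1)))).re : ℝ) : ℂ) = _
    rw [h1, map_sum, ← Finset.sum_add_distrib]
    congr 1
    refine Finset.sum_congr rfl fun j _ => ?_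
    rw [map_mul, e_conj, neg_neg]
  have hgen : ∀ m : ℤ, ∑ k ∈ Finset.range (2 * g + 1), (a k : ℂ) * e g ((2 * (k : ℤ) + 1) * m) =
      1 / (2 * g + 1) * ∑ j : Fin g, (u j * E g (m - ((j : ℕ) + 1)) +
        (starRingEnd ℂ) (u j) * E g (m + ((j : ℕ) + 1))) := by
    intro m
    have h1 : ∀ k ∈ Finset.range (2 * g + 1), (a k : ℂ) * e g ((2 * (k : ℤ) + 1) * m) =
        1 / (2 * g + 1) * ∑ j : Fin g,
          (u j * e g ((2 * (k : ℤ) + 1) * (m - ((j : ℕ) + 1))) +
          (starRingEnd ℂ) (u j) * e g ((2 * (k : ℤ) + 1) * (m + ((j : ℕ) + 1)))) := by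
      intro k _
      rw [ha, mul_assoc, Finset.sum_mul]
      congr 1
      refine Finset.sum_congr rfl fun j _ => ?_
      have h2 : e g ((2 * (k : ℤ) + 1) * (m - ((j : ℕ) + 1))) =
          e g (-((2 * (k : ℤ) + 1) * ((j : ℕ) + 1))) * e g ((2 * (k : ℤ) + 1) * m) := by
        rw [← e_add]
        congr 1
        ring
      have h3 : e g ((2 * (k : ℤ) + 1) * (m + ((j : ℕ) + 1))) =
          e g ((2 * (k : ℤ) + 1) * ((j : ℕ) + 1)) * e g ((2 * (k : ℤ) + 1) * m) := by
        rw [← e_add]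
        congr 1
        ring
      rw [h2, h3]
      ring
    rw [Finset.sum_congr rfl h1, ← Finset.mul_sum, Finset.sum_comm]
    congr 1
    refine Finset.sum_congr rfl fun j _ => ?_
    rw [Finset.sum_add_distrib, ← Finset.mul_sum, ← Finset.mul_sum]
    rfl
  have hzero : ∑ k ∈ Finset.range (2 * g + 1), (a k : ℂ) = 0 := by
    have h1 := hgen 0
    simp only [mul_zero, e_zero, mul_one] at h1
    rw [h1]
    have h2 : ∀ j ∈ (Finset.univ : Finset (Fin g)),
        (u j * E g (0 - ((j : ℕ) + 1)) + (starRingEnd ℂ) (u j) * E g (0 + ((j : ℕ) + 1))) = 0 := by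
      intro j _
      have hj := j.2
      rw [E_ne, E_ne]
      · ring
      · intro h
        have := Int.le_of_dvd (by omega) h
        omega
      · intro h
        rw [zero_sub, dvd_neg] at h
        have := Int.le_of_dvd (by omega) h
        omega
    rw [Finset.sum_eq_zero h2, mul_zero]
  have hval : ∀ i : Fin g,
      ∑ k ∈ Finset.range (2 * g + 1), (a k : ℂ) * e g ((2 * (k : ℤ) + 1) * (((i : ℕ) : ℤ) + 1)) =
        u i := by
    intro i
    rw [hgen, Finset.sum_eq_single i]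
    · rw [sub_self, E_zero, E_ne]
      · field_simp
        ring
      · intro h
        have := Int.le_of_dvd (by omega) h
        have hi := i.2
        omega
    · intro j _ hji
      have hi := i.2
      have hj := j.2
      have hne : (i : ℕ) ≠ (j : ℕ) := fun h => hji (Fin.ext h.symm)
      rw [E_ne, E_ne]
      · ring
      · intro h
        have := Int.le_of_dvd (by omega) h
        omega
      · intro h
        obtain ⟨n, hn⟩ := h
        have hn0 : n = 0 := by
          by_contra hn0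
          rcases lt_or_gt_of_ne hn0 with h1 | h1
          · nlinarith
          · nlinarith
        rw [hn0] at hn
        omega
    · intro h
      exact absurd (Finset.mem_univ i) h
  have hw : w = ∑ k ∈ Finset.range (2 * g + 1),
      a k • (fun i : Fin g => lam g k i - lam g 0 i) := by
    funext i
    rw [Finset.sum_apply]
    have h1 : ∀ k ∈ Finset.range (2 * g + 1),
        (a k • (fun i : Fin g => lam g k i - lam g 0 i)) i =
          (cc g i : ℂ) * ((a k : ℂ) * e g ((2 * (k : ℤ) + 1) * (((i : ℕ) : ℤ) + 1))) -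
            (a k : ℂ) * lam g 0 i := by
      intro k _
      rw [Pi.smul_apply, Complex.real_smul, lam_eq g k i]
      ring
    rw [Finset.sum_congr rfl h1, Finset.sum_sub_distrib, ← Finset.mul_sum, ← Finset.sum_mul,
      hzero, hval i, zero_mul, sub_zero]
    show w i = (cc g i : ℂ) * (w i / (cc g i : ℂ))
    rw [mul_div_cancel₀]
    exact_mod_cast (cc_pos g i).ne'
  rw [hw]
  refine Submodule.sum_mem _ fun k _ => Submodule.smul_mem _ _ (Submodule.subset_span ?_)
  exact AddSubgroup.subset_closure ⟨(k, 0), rfl⟩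

end

end Pool.Agent.FDR.LAMSPAN
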