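import Pool.Agent.FDR.Stmts2

/-! LAMSPAN2: the periods of `y ^ 2 = x ^ (2 g + 1) + x` span `ℂ ^ g` over `ℝ`. -/

open scoped BigOperators Polynomial Topology
open Metric Filter

namespace Pool.Agent.FDR.LAMSPAN2

noncomputable section

/-- `exp (i π (2 k + 1) m / (4 g))` for an integer `m`. -/
def ee (g : ℕ) (k : ℕ) (m : ℤ) : ℂ :=
  Complex.exp (Complex.I * Real.pi * (2 * k + 1) * m / (4 * g))

theorem ee_add (g k : ℕ) (m n : ℤ) : ee g k (m + n) = ee g k m * ee g k n := by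
  unfold ee
  rw [← Complex.exp_add]
  congr 1
  push_cast
  ring

theorem ee_zero (g k : ℕ) : ee g k 0 = 1 := by
  simp [ee]

theorem ee_conj (g k : ℕ) (m : ℤ) : (starRingEnd ℂ) (ee g k m) = ee g k (-m) := by
  unfold ee
  rw [← Complex.exp_conj]
  congr 1
  simp only [map_div₀, map_mul, Complex.conj_I, Complex.conj_ofReal, map_add, map_one, map_ofNat,
    map_natCast, map_intCast]
  push_cast
  ring

theorem sum_ee {g : ℕ} (hg : 0 < g) (m : ℤ) (hm : ¬ ((4 * g : ℤ) ∣ m)) :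
    ∑ k ∈ Finset.range (4 * g), ee g k m = 0 := by
  have hg' : (g : ℂ) ≠ 0 := by exact_mod_cast hg.ne'
  set z : ℂ := Complex.exp (2 * Real.pi * Complex.I * m / (4 * g)) with hz
  have h1 : ∀ k ∈ Finset.range (4 * g), ee g k m =
      Complex.exp (Complex.I * Real.pi * m / (4 * g)) * z ^ k := by
    intro k _
    rw [hz, ← Complex.exp_nat_mul, ← Complex.exp_add]
    unfold ee
    congr 1
    field_simp
    ring
  have hz1 : z ≠ 1 := by
    intro h
    rw [hz, Complex.exp_eq_one_iff] at h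
    obtain ⟨n, hn⟩ := h
    apply hm
    refine ⟨n, ?_⟩
    have hpi : (2 * Real.pi * Complex.I : ℂ) ≠ 0 := Complex.two_pi_I_ne_zero
    have h2 : (m : ℂ) = 4 * g * n := by
      have : (2 * Real.pi * Complex.I : ℂ) * m = (2 * Real.pi * Complex.I) * (4 * g * n) := by
        field_simp at hn
        linear_combination (2 * Real.pi * Complex.I : ℂ) * hn
      exact mul_left_cancel₀ hpi this
    exact_mod_cast h2
  have hzn : z ^ (4 * g) = 1 := by
    rw [hz, ← Complex.exp_nat_mul, Complex.exp_eq_one_iff]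
    refine ⟨m, ?_⟩
    push_cast
    field_simp
  rw [Finset.sum_congr rfl h1, ← Finset.mul_sum]
  have h3 : (∑ k ∈ Finset.range (4 * g), z ^ k) * (z - 1) = 0 := by
    rw [geom_sum_mul, hzn, sub_self]
  rw [(mul_eq_zero.mp h3).resolve_right (sub_ne_zero.mpr hz1), mul_zero]

theorem bet_pos {x y : ℝ} (hx : 0 < x) (hy : 0 < y) : 0 < bet x y :=
  div_pos (mul_pos (Real.Gamma_pos_of_pos hx) (Real.Gamma_pos_of_pos hy))
    (Real.Gamma_pos_of_pos (add_pos hx hy))

/-- the positive coefficient -/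
def uu (g i : ℕ) : ℂ := 1 / g * (bet ((2 * i + 1) / (4 * g)) (1 / 2) : ℂ)

theorem lam2_eq (g k i : ℕ) : lam2 g k i = uu g i * ee g k (2 * i + 1) := by
  unfold lam2 uu ee
  push_cast
  ring

theorem uu_ne {g : ℕ} (hg : 0 < g) (i : ℕ) : uu g i ≠ 0 := by
  have hg' : (g : ℂ) ≠ 0 := by exact_mod_cast hg.ne'
  have hgr : (0 : ℝ) < g := by exact_mod_cast hg
  have hb : (bet ((2 * i + 1) / (4 * g)) (1 / 2) : ℂ) ≠ 0 := by
    exact_mod_cast (bet_pos (x := (2 * (i : ℝ) + 1) / (4 * g)) (by positivity)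
      (by norm_num)).ne'
  unfold uu
  exact mul_ne_zero (one_div_ne_zero hg') hb

/-- the real coefficients -/
def rr (g : ℕ) (w : Fin g → ℂ) (k : ℕ) : ℝ :=
  ∑ j : Fin g, (w j * ee g k (-(2 * (j : ℤ) + 1))).re

theorem rr_eq (g : ℕ) (w : Fin g → ℂ) (k : ℕ) :
    ((rr g w k : ℝ) : ℂ) = ∑ j : Fin g, (w j * ee g k (-(2 * (j : ℤ) + 1)) +
      (starRingEnd ℂ) (w j) * ee g k (2 * (j : ℤ) + 1)) / 2 := by
  unfold rr
  rw [Complex.ofReal_sum]
  refine Finset.sum_congr rfl fun j _ => ?_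
  rw [Complex.re_eq_add_conj, map_mul, ee_conj, neg_neg]

theorem key {g : ℕ} (hg : 0 < g) (w : Fin g → ℂ) (i : Fin g) :
    ∑ k ∈ Finset.range (4 * g), ((rr g w k : ℝ) : ℂ) * ee g k (2 * (i : ℤ) + 1) =
      2 * g * w i := by
  have h1 : ∀ k ∈ Finset.range (4 * g),
      ((rr g w k : ℝ) : ℂ) * ee g k (2 * (i : ℤ) + 1) =
        ∑ j : Fin g, (w j / 2 * ee g k (2 * (i : ℤ) - 2 * (j : ℤ)) +
          (starRingEnd ℂ) (w j) / 2 * ee g k (2 * (i : ℤ) + 2 * (j : ℤ) + 2)) := by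
    intro k _
    rw [rr_eq, Finset.sum_mul]
    refine Finset.sum_congr rfl fun j _ => ?_
    have e1 : ee g k (2 * (i : ℤ) - 2 * (j : ℤ)) =
        ee g k (-(2 * (j : ℤ) + 1)) * ee g k (2 * (i : ℤ) + 1) := by
      rw [← ee_add]; congr 1; ring
    have e2 : ee g k (2 * (i : ℤ) + 2 * (j : ℤ) + 2) =
        ee g k (2 * (j : ℤ) + 1) * ee g k (2 * (i : ℤ) + 1) := by
      rw [← ee_add]; congr 1; ring
    rw [e1, e2]
    ring
  rw [Finset.sum_congr rfl h1, Finset.sum_comm]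
  simp only [Finset.sum_add_distrib, ← Finset.mul_sum]
  have hA : ∀ j : Fin g, (starRingEnd ℂ) (w j) / 2 *
      ∑ k ∈ Finset.range (4 * g), ee g k (2 * (i : ℤ) + 2 * (j : ℤ) + 2) = 0 := by
    intro j
    rw [sum_ee hg _ _, mul_zero]
    have hi := i.2
    have hj := j.2
    intro hd
    have := Int.le_of_dvd (by positivity) hd
    omega
  have hB : ∀ j : Fin g, j ≠ i → w j / 2 *
      ∑ k ∈ Finset.range (4 * g), ee g k (2 * (i : ℤ) - 2 * (j : ℤ)) = 0 := by
    intro j hji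
    rw [sum_ee hg _ _, mul_zero]
    have hi := i.2
    have hj := j.2
    have hne : (i : ℕ) ≠ (j : ℕ) := fun h => hji (Fin.ext h.symm)
    intro hd
    have h0 : (2 * (i : ℤ) - 2 * (j : ℤ)) ≠ 0 := by omega
    have := Int.le_of_dvd (abs_pos.mpr h0) ((dvd_abs _ _).mpr hd)
    have h3 : |2 * (i : ℤ) - 2 * (j : ℤ)| < 4 * g := by
      rw [abs_lt]; constructor <;> omega
    omega
  rw [Finset.sum_eq_zero (fun j _ => hA j), add_zero,
    Finset.sum_eq_single i (fun j _ hji => hB j hji) (fun h => absurd (Finset.mem_univ _) h)]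
  simp only [sub_self, ee_zero, Finset.sum_const, Finset.card_range, nsmul_eq_mul, mul_one]
  push_cast
  ring

theorem thm_LAMSPAN2 : Stmt_LamSpan2 := by
  intro g hg
  rw [eq_top_iff]
  intro z _
  have hg' : (g : ℂ) ≠ 0 := by exact_mod_cast hg.ne'
  set w : Fin g → ℂ := fun j => z j / (2 * g * uu g j) with hw
  have hz : z = ∑ k ∈ Finset.range (4 * g), rr g w k • (fun i : Fin g => lam2 g k i) := by
    funext i
    rw [Finset.sum_apply]
    have h1 : ∀ k ∈ Finset.range (4 * g), (rr g w k • (fun i : Fin g => lam2 g k i)) i =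
        uu g i * (((rr g w k : ℝ) : ℂ) * ee g k (2 * (i : ℤ) + 1)) := by
      intro k _
      simp only [Pi.smul_apply, Complex.real_smul, lam2_eq]
      ring
    rw [Finset.sum_congr rfl h1, ← Finset.mul_sum, key hg, hw]
    have := uu_ne hg (i : ℕ)
    field_simp
  rw [hz]
  refine Submodule.sum_mem _ fun k _ => Submodule.smul_mem _ _ (Submodule.subset_span ?_)
  exact AddSubgroup.subset_closure ⟨k, rfl⟩

end

end Pool.Agent.FDR.LAMSPAN2
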