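import Pool.Agent.FDR.Stmts

open scoped BigOperators Polynomial Topology
open Metric Filter

namespace Pool.Agent.FDR.LATT

noncomputable section

/-- the primitive root of unity -/
def zz (m : ℕ) : ℂ := Complex.exp (2 * Real.pi * Complex.I / m)

theorem zz_prim {m : ℕ} (hm : m ≠ 0) : IsPrimitiveRoot (zz m) m :=
  Complex.isPrimitiveRoot_exp m hm

/-- the coefficient `u i` -/
def uu (g i : ℕ) : ℂ :=
  2 / (2 * g + 1) * Complex.exp (Complex.I * Real.pi * (i + 1) / (2 * g + 1)) *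
    (bet ((i + 1) / (2 * g + 1)) (1 / 2) : ℂ)

theorem bet_pos {x y : ℝ} (hx : 0 < x) (hy : 0 < y) : 0 < bet x y := by
  unfold bet
  have h1 := Real.Gamma_pos_of_pos hx
  have h2 := Real.Gamma_pos_of_pos hy
  have h3 := Real.Gamma_pos_of_pos (add_pos hx hy)
  positivity

theorem m_ne (g : ℕ) : (2 * (g : ℂ) + 1) ≠ 0 := by
  have : ((2 * g + 1 : ℕ) : ℂ) ≠ 0 := by exact_mod_cast (Nat.succ_ne_zero (2 * g))
  push_cast at this
  exact this

theorem uu_ne (g i : ℕ) : uu g i ≠ 0 := by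
  unfold uu
  have h1 : (bet (((i : ℝ) + 1) / (2 * g + 1)) (1 / 2) : ℂ) ≠ 0 := by
    exact_mod_cast (bet_pos (by positivity) (by norm_num)).ne'
  have h2 := m_ne g
  exact mul_ne_zero (mul_ne_zero (div_ne_zero two_ne_zero h2) (Complex.exp_ne_zero _)) h1

theorem lam_eq (g k i : ℕ) : lam g k i = uu g i * zz (2 * g + 1) ^ (k * (i + 1)) := by
  unfold lam uu zz
  rw [← Complex.exp_nat_mul]
  have h2 := m_ne g
  have h3 : Complex.exp (Complex.I * Real.pi * (2 * k + 1) * (i + 1) / (2 * g + 1)) =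
      Complex.exp (Complex.I * Real.pi * (i + 1) / (2 * g + 1)) *
      Complex.exp (((k * (i + 1) : ℕ) : ℂ) * (2 * Real.pi * Complex.I / ((2 * g + 1 : ℕ) : ℂ))) := by
    rw [← Complex.exp_add]
    congr 1
    push_cast
    field_simp
    ring
  rw [h3]
  ring

/-- conjugation: a rational polynomial vanishing at `z` vanishes at all `z ^ i`. -/
theorem conj_root {m : ℕ} (hm : 0 < m) {z : ℂ} (hz : IsPrimitiveRoot z m) (P : ℚ[X])
    (h : Polynomial.aeval z P = 0) {i : ℕ} (hi : i.Coprime m) :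
    Polynomial.aeval (z ^ i) P = 0 := by
  have h1 : Polynomial.cyclotomic m ℚ ∣ P := by
    rw [Polynomial.cyclotomic_eq_minpoly_rat hz hm]
    exact minpoly.dvd ℚ z h
  obtain ⟨Q, hQ⟩ := h1
  rw [hQ, map_mul]
  have h2 : Polynomial.aeval (z ^ i) (Polynomial.cyclotomic m ℚ) = 0 := by
    rw [Polynomial.cyclotomic_eq_minpoly_rat (hz.pow_of_coprime i hi) hm]
    exact minpoly.aeval ℚ _
  rw [h2, zero_mul]

theorem conj_root' {m : ℕ} (hm : 0 < m) {z : ℂ} (hz : IsPrimitiveRoot z m) (P : ℚ[X])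
    (a b : ℕ) (h : Polynomial.aeval (z ^ a) P = Polynomial.aeval (z ^ b) P) {i : ℕ}
    (hi : i.Coprime m) :
    Polynomial.aeval (z ^ (a * i)) P = Polynomial.aeval (z ^ (b * i)) P := by
  have h1 := conj_root hm hz (Polynomial.expand ℚ a P - Polynomial.expand ℚ b P) (by
    rw [map_sub, Polynomial.expand_aeval, Polynomial.expand_aeval, h, sub_self]) hi
  rw [map_sub, Polynomial.expand_aeval, Polynomial.expand_aeval, sub_eq_zero] at h1
  rw [mul_comm a, mul_comm b, pow_mul, pow_mul]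
  exact h1

/-- elements of the lattice are given by polynomials -/
theorem mem_Lam_form (g : ℕ) (γ : Fin g → ℂ) (hγ : γ ∈ Lam g) :
    ∃ A : ℚ[X], ∀ i : Fin g, γ i = uu g i * Polynomial.aeval (zz (2 * g + 1) ^ ((i : ℕ) + 1)) A := by
  unfold Lam at hγ
  induction hγ using AddSubgroup.closure_induction with
  | mem x hx =>
    obtain ⟨q, rfl⟩ := hx
    refine ⟨Polynomial.X ^ q.1 - Polynomial.X ^ q.2, fun i => ?_⟩
    simp only [map_sub, map_pow, Polynomial.aeval_X, lam_eq, ← pow_mul]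
    rw [mul_comm q.1, mul_comm q.2]
    ring
  | zero => exact ⟨0, fun i => by simp⟩
  | add x y _ _ hx hy =>
    obtain ⟨A, hA⟩ := hx
    obtain ⟨B, hB⟩ := hy
    refine ⟨A + B, fun i => ?_⟩
    rw [Pi.add_apply, hA, hB, map_add]
    ring
  | neg x _ hx =>
    obtain ⟨A, hA⟩ := hx
    refine ⟨-A, fun i => ?_⟩
    rw [Pi.neg_apply, hA, map_neg]
    ring

theorem form_mem_Lam (g : ℕ) (A : ℤ[X]) :
    (fun i : Fin g => uu g i *
      (Polynomial.aeval (zz (2 * g + 1) ^ ((i : ℕ) + 1)) A - (Polynomial.eval 1 A : ℤ))) ∈ Lam g := by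
  induction A using Polynomial.induction_on' with
  | add p q hp hq =>
    have := (Lam g).add_mem hp hq
    convert this using 1
    funext i
    simp only [map_add, Polynomial.eval_add, Pi.add_apply]
    push_cast
    ring
  | monomial n a =>
    have h1 : (fun i : Fin g => lam g n i - lam g 0 i) ∈ Lam g :=
      AddSubgroup.subset_closure ⟨(n, 0), rfl⟩
    have := (Lam g).zsmul_mem h1 a
    convert this using 1
    funext i
    simp only [Polynomial.aeval_monomial, Polynomial.eval_monomial, Pi.smul_apply, lam_eq,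
      one_pow, mul_one, zero_mul, pow_zero, ← pow_mul]
    rw [mul_comm n]
    simp
    ring

theorem geom_root {ℓ : ℕ} (y : ℂ) (hy : y ^ ℓ = 1) (hy1 : y ≠ 1) :
    ∑ k ∈ Finset.range ℓ, y ^ k = 0 := by
  have := mul_geom_sum y ℓ
  rw [hy, sub_self] at this
  exact (mul_eq_zero.mp this).resolve_left (sub_ne_zero.mpr hy1)

theorem sum_form {ℓ n0 : ℕ} (hn : 0 < n0) {z : ℂ}
    (hz : IsPrimitiveRoot z (ℓ * n0)) (A : ℚ[X]) :
    ∃ h : ℚ[X], ∑ k ∈ Finset.range ℓ, Polynomial.aeval (z ^ (1 + k * n0)) A =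
      Polynomial.aeval (z ^ ℓ) h := by
  induction A using Polynomial.induction_on' with
  | add p q hp hq =>
    obtain ⟨a, ha⟩ := hp
    obtain ⟨b, hb⟩ := hq
    exact ⟨a + b, by simp only [map_add, Finset.sum_add_distrib, ha, hb]⟩
  | monomial n a =>
    have h0 : ∑ k ∈ Finset.range ℓ, Polynomial.aeval (z ^ (1 + k * n0)) (Polynomial.monomial n a) =
        (algebraMap ℚ ℂ a) * z ^ n * ∑ k ∈ Finset.range ℓ, (z ^ (n0 * n)) ^ k := by
      rw [Finset.mul_sum]
      refine Finset.sum_congr rfl fun k _ => ?_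
      rw [Polynomial.aeval_monomial, ← pow_mul, ← pow_mul, mul_assoc, ← pow_add]
      congr 2
      ring
    by_cases hd : ℓ ∣ n
    · obtain ⟨n', rfl⟩ := hd
      refine ⟨Polynomial.C (a * ℓ) * Polynomial.X ^ n', ?_⟩
      rw [h0]
      have h1 : z ^ (n0 * (ℓ * n')) = 1 := by
        rw [show n0 * (ℓ * n') = (ℓ * n0) * n' by ring, pow_mul, hz.pow_eq_one, one_pow]
      rw [h1]
      simp only [one_pow, Finset.sum_const, Finset.card_range, nsmul_eq_mul, mul_one, map_mul,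
        map_pow, Polynomial.aeval_X, Polynomial.aeval_C, map_natCast, ← pow_mul]
      ring
    · refine ⟨0, ?_⟩
      rw [h0, geom_root (z ^ (n0 * n)), mul_zero, map_zero]
      · rw [← pow_mul, show n0 * n * ℓ = (ℓ * n0) * n by ring, pow_mul, hz.pow_eq_one, one_pow]
      · intro h
        have := (hz.pow_eq_one_iff_dvd _).mp h
        rw [mul_comm ℓ n0] at this
        exact hd (Nat.dvd_of_mul_dvd_mul_left hn this)

theorem sum_form1 {ℓ : ℕ} {z : ℂ}
    (hz : IsPrimitiveRoot z ℓ) (A : ℚ[X]) :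
    ∃ q : ℚ, ∑ k ∈ Finset.range ℓ, Polynomial.aeval (z ^ k) A = (q : ℂ) := by
  induction A using Polynomial.induction_on' with
  | add p q hp hq =>
    obtain ⟨a, ha⟩ := hp
    obtain ⟨b, hb⟩ := hq
    exact ⟨a + b, by simp only [map_add, Finset.sum_add_distrib, ha, hb]; push_cast; rfl⟩
  | monomial n a =>
    have h0 : ∑ k ∈ Finset.range ℓ, Polynomial.aeval (z ^ k) (Polynomial.monomial n a) =
        (algebraMap ℚ ℂ a) * ∑ k ∈ Finset.range ℓ, (z ^ n) ^ k := by
      rw [Finset.mul_sum]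
      refine Finset.sum_congr rfl fun k _ => ?_
      rw [Polynomial.aeval_monomial, ← pow_mul, ← pow_mul, mul_comm k n]
    by_cases hd : ℓ ∣ n
    · refine ⟨a * ℓ, ?_⟩
      rw [h0, (hz.pow_eq_one_iff_dvd _).mpr hd]
      simp
    · refine ⟨0, ?_⟩
      rw [h0, geom_root (z ^ n)]
      · simp
      · rw [← pow_mul, mul_comm, pow_mul, hz.pow_eq_one, one_pow]
      · intro h
        exact hd ((hz.pow_eq_one_iff_dvd _).mp h)

theorem claimA {ℓ n0 : ℕ} (hℓ : 0 < ℓ) (hn : 0 < n0) (hd : ℓ ∣ n0) {z : ℂ}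
    (hz : IsPrimitiveRoot z (ℓ * n0)) (A : ℚ[X])
    (hA : Polynomial.aeval z A = Polynomial.aeval (z ^ (1 + n0)) A) :
    ∃ h : ℚ[X], Polynomial.aeval z A = Polynomial.aeval (z ^ ℓ) h := by
  have hm : 0 < ℓ * n0 := Nat.mul_pos hℓ hn
  have key : ∀ k : ℕ, Polynomial.aeval (z ^ (1 + k * n0)) A = Polynomial.aeval z A := by
    intro k
    induction k with
    | zero => simp
    | succ k ih =>
      have hc : (1 + k * n0).Coprime (ℓ * n0) := by
        have h1 : (1 + k * n0).Coprime n0 := by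
          rw [Nat.coprime_add_mul_right_left]
          exact Nat.coprime_one_left n0
        exact Nat.Coprime.mul_right (h1.coprime_dvd_right hd) h1
      have := conj_root' hm hz A 1 (1 + n0) (by rw [pow_one]; exact hA) hc
      rw [one_mul] at this
      rw [← ih, this]
      obtain ⟨n1, rfl⟩ := hd
      have h2 : (1 + ℓ * n1) * (1 + k * (ℓ * n1)) =
          (1 + (k + 1) * (ℓ * n1)) + (ℓ * (ℓ * n1)) * (n1 * k) := by ring
      rw [h2, pow_add z _ (ℓ * (ℓ * n1) * (n1 * k)), pow_mul z (ℓ * (ℓ * n1)), hz.pow_eq_one,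
        one_pow, mul_one]
  obtain ⟨h, hh⟩ := sum_form hn hz A
  simp only [key, Finset.sum_const, Finset.card_range, nsmul_eq_mul] at hh
  refine ⟨Polynomial.C ((ℓ : ℚ)⁻¹) * h, ?_⟩
  have hℓ' : (ℓ : ℂ) ≠ 0 := by exact_mod_cast hℓ.ne'
  rw [map_mul, ← hh, Polynomial.aeval_C]
  simp only [map_inv₀, map_natCast]
  field_simp

theorem claimB {ℓ g : ℕ} (hp : ℓ.Prime) (hg : 2 ≤ g) (hℓ : 2 * g + 1 = ℓ) {z : ℂ}
    (hz : IsPrimitiveRoot z ℓ) (A : ℚ[X])
    (hA : ∀ i, 0 < i → i ≤ g → Polynomial.aeval (z ^ i) A = Polynomial.aeval z A) :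
    ∃ c : ℚ, Polynomial.aeval z A = (c : ℂ) := by
  have hcop : ∀ i, 0 < i → i < ℓ → i.Coprime ℓ := fun i h1 h2 =>
    (Nat.Coprime.symm ((Nat.Prime.coprime_iff_not_dvd hp).mpr (Nat.not_dvd_of_pos_of_lt h1 h2)))
  have key : ∀ i, 0 < i → i < ℓ → Polynomial.aeval (z ^ i) A = Polynomial.aeval z A := by
    intro i h1 h2
    by_cases h3 : i ≤ g
    · exact hA i h1 h3
    · push Not at h3
      obtain ⟨i', hi'⟩ : ∃ i', i' + i = ℓ := ⟨ℓ - i, by omega⟩
      have h4 : 0 < i' := by omega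
      have h5 : i' ≤ g := by omega
      have e1 := conj_root' hp.pos hz A 2 1 (by rw [pow_one]; exact hA 2 (by norm_num) hg)
        (hcop g (by omega) (by omega))
      rw [one_mul, hA g (by omega) le_rfl] at e1
      have e2 := conj_root' hp.pos hz A (2 * g) 1 (by rw [pow_one]; exact e1)
        (hcop i' h4 (by omega))
      rw [one_mul, hA i' h4 h5] at e2
      rw [← e2]
      congr 2
      obtain ⟨i'', rfl⟩ : ∃ i'', i' = i'' + 1 := ⟨i' - 1, by omega⟩
      have h6 : 2 * g * (i'' + 1) = ℓ * i'' + i := by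
        have : i + i'' = 2 * g := by omega
        have h7 : ℓ * i'' = 2 * g * i'' + i'' := by rw [← hℓ]; ring
        rw [h7, mul_add]
        omega
      rw [h6, pow_add, pow_mul, hz.pow_eq_one, one_pow, one_mul]
  obtain ⟨q, hq⟩ := sum_form1 hz A
  have h1 : ∑ k ∈ Finset.range ℓ, Polynomial.aeval (z ^ k) A =
      ((Polynomial.eval 1 A : ℚ) : ℂ) + (ℓ - 1 : ℂ) * Polynomial.aeval z A := by
    obtain ⟨n, rfl⟩ : ∃ n, ℓ = n + 1 := ⟨ℓ - 1, by omega⟩
    rw [Finset.sum_range_succ']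
    rw [Finset.sum_congr rfl (g := fun _ => Polynomial.aeval z A) (fun k hk => by
      rw [Finset.mem_range] at hk
      exact key (k + 1) (by omega) (by omega))]
    rw [Finset.sum_const, Finset.card_range, nsmul_eq_mul, pow_zero]
    have h2 : Polynomial.aeval (1 : ℂ) A = ((Polynomial.eval 1 A : ℚ) : ℂ) := by
      have := Polynomial.aeval_algebraMap_apply ℂ (1 : ℚ) A
      rw [map_one] at this
      rw [this]
      simp [Polynomial.aeval_def]
    rw [h2]
    push_cast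
    ring
  refine ⟨(q - Polynomial.eval 1 A) / (ℓ - 1), ?_⟩
  rw [hq] at h1
  have h3 : (ℓ : ℂ) - 1 ≠ 0 := by
    have : (1 : ℂ) ≠ (ℓ : ℂ) := by exact_mod_cast (by have := hp.one_lt; omega : (1 : ℕ) ≠ ℓ)
    intro h
    exact this (sub_eq_zero.mp h).symm
  push_cast
  rw [h1]
  field_simp
  ring

/-- representatives in `[1, g]` -/
def rep (b : ℕ) : ℕ := if b = 0 then 1 else b

theorem rep_spec {ℓ j' g b : ℕ} (hp : ℓ.Prime) (h2 : ℓ ≠ 2) (hg : 2 ≤ g)
    (hm : 2 * g + 1 = ℓ * ℓ ^ j') (hb : b < ℓ ^ j') (hc : (ℓ ^ j').Coprime b) :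
    rep b ≡ b [MOD ℓ ^ j'] ∧ ¬ ℓ ∣ rep b ∧ 0 < rep b ∧ rep b ≤ g := by
  rcases Nat.eq_zero_or_pos j' with rfl | hj
  · have : b = 0 := by simpa using hb
    subst this
    refine ⟨?_, ?_, ?_, ?_⟩
    · rw [pow_zero]; exact Nat.modEq_one
    · simp only [rep, if_true]
      exact fun h => hp.one_lt.ne' (Nat.dvd_one.mp h)
    · simp [rep]
    · simp only [rep, if_true]; omega
  · have h3 : ¬ ℓ ∣ b := by
      intro h
      have : ℓ ∣ ℓ ^ j' := dvd_pow_self ℓ hj.ne'
      have := Nat.dvd_gcd this h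
      rw [hc] at this
      exact hp.one_lt.ne' (Nat.dvd_one.mp this)
    have h4 : b ≠ 0 := fun h => h3 (h ▸ dvd_zero ℓ)
    have h5 : rep b = b := by simp [rep, h4]
    rw [h5]
    refine ⟨Nat.ModEq.refl b, h3, Nat.pos_of_ne_zero h4, ?_⟩
    have h6 : 3 ≤ ℓ := by have := hp.two_le; omega
    have h7 : 3 * ℓ ^ j' ≤ ℓ * ℓ ^ j' := Nat.mul_le_mul_right _ h6
    omega

theorem uu_ratio {ℓ j' g i i' : ℕ} (hm : 2 * g + 1 = ℓ ^ (j' + 1))
    (h : IsAlgebraic ℚ (bet (((i + 1 : ℕ) : ℝ) / (ℓ ^ (j' + 1) : ℕ)) (1 / 2) /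
      bet (((i' + 1 : ℕ) : ℝ) / (ℓ ^ (j' + 1) : ℕ)) (1 / 2))) :
    IsAlgebraic ℚ (uu g i / uu g i') := by
  have hexp : ∀ n : ℕ, IsAlgebraic ℚ
      (Complex.exp (Complex.I * Real.pi * (n + 1) / (2 * g + 1))) := by
    intro n
    refine IsAlgebraic.of_pow (n := 2 * (2 * g + 1)) (by omega) ?_
    rw [← Complex.exp_nat_mul]
    have : ((2 * (2 * g + 1) : ℕ) : ℂ) * (Complex.I * Real.pi * (n + 1) / (2 * g + 1)) =
        ((n + 1 : ℕ) : ℂ) * (2 * Real.pi * Complex.I) := by
      have := m_ne g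
      push_cast
      field_simp
    rw [this, Complex.exp_nat_mul_two_pi_mul_I]
    exact isAlgebraic_one
  have hc : ((2 * g + 1 : ℕ) : ℝ) = ((ℓ ^ (j' + 1) : ℕ) : ℝ) := by rw [hm]
  have hb : IsAlgebraic ℚ ((bet (((i : ℝ) + 1) / (2 * g + 1)) (1 / 2) /
      bet (((i' : ℝ) + 1) / (2 * g + 1)) (1 / 2) : ℝ) : ℂ) := by
    have h1 : (2 * (g : ℝ) + 1) = ((ℓ ^ (j' + 1) : ℕ) : ℝ) := by
      rw [← hc]; push_cast; ring
    rw [h1]
    have h2 : ((i : ℝ) + 1) = ((i + 1 : ℕ) : ℝ) := by push_cast; ring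
    have h3 : ((i' : ℝ) + 1) = ((i' + 1 : ℕ) : ℝ) := by push_cast; ring
    rw [h2, h3]
    exact h.algebraMap
  have hb' := (bet_pos (x := ((i' : ℝ) + 1) / (2 * g + 1)) (y := 1 / 2) (by positivity)
    (by norm_num)).ne'
  have : uu g i / uu g i' =
      (Complex.exp (Complex.I * Real.pi * (i + 1) / (2 * g + 1))) *
      (Complex.exp (Complex.I * Real.pi * (i' + 1) / (2 * g + 1)))⁻¹ *
      ((bet (((i : ℝ) + 1) / (2 * g + 1)) (1 / 2) /
      bet (((i' : ℝ) + 1) / (2 * g + 1)) (1 / 2) : ℝ) : ℂ) := by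
    unfold uu
    have h1 := m_ne g
    have h2 := Complex.exp_ne_zero (Complex.I * Real.pi * (i' + 1) / (2 * g + 1))
    have h3 : (bet (((i' : ℝ) + 1) / (2 * g + 1)) (1 / 2) : ℂ) ≠ 0 := by exact_mod_cast hb'
    push_cast
    field_simp
  rw [this]
  exact ((hexp i).mul (hexp i').inv).mul hb

theorem geom_val {ℓ n0 : ℕ} (hn : 0 < n0) {z : ℂ} (hz : IsPrimitiveRoot z (ℓ * n0)) (x : ℕ) :
    ∑ r ∈ Finset.range ℓ, (z ^ x) ^ (r * n0) = if ℓ ∣ x then (ℓ : ℂ) else 0 := by
  have h0 : ∀ r, (z ^ x) ^ (r * n0) = (z ^ (x * n0)) ^ r := by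
    intro r
    rw [← pow_mul, ← pow_mul]
    congr 1
    ring
  simp only [h0]
  split_ifs with hd
  · obtain ⟨y, rfl⟩ := hd
    have : z ^ (ℓ * y * n0) = 1 := by
      rw [show ℓ * y * n0 = (ℓ * n0) * y by ring, pow_mul, hz.pow_eq_one, one_pow]
    simp [this]
  · refine geom_root _ ?_ ?_
    · rw [← pow_mul, show x * n0 * ℓ = (ℓ * n0) * x by ring, pow_mul, hz.pow_eq_one, one_pow]
    · intro h
      have := (hz.pow_eq_one_iff_dvd _).mp h
      exact hd (Nat.dvd_of_mul_dvd_mul_right hn this)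

theorem thm_LATT : Stmt_Latt := by
  intro ℓ j g hp h2 hj hm hg H
  obtain ⟨j', rfl⟩ : ∃ j', j = j' + 1 := ⟨j - 1, by omega⟩
  have hmn : 2 * g + 1 = ℓ * ℓ ^ j' := by rw [hm, pow_succ]; ring
  set n0 : ℕ := ℓ ^ j' with hn0
  have hn0p : 0 < n0 := pow_pos hp.pos _
  have hz : IsPrimitiveRoot (zz (2 * g + 1)) (ℓ * n0) := by
    rw [← hmn]
    exact zz_prim (by omega)
  set z : ℂ := zz (2 * g + 1) with hzdef
  have hw : IsPrimitiveRoot (z ^ ℓ) n0 := hz.pow (Nat.mul_pos hp.pos hn0p) rfl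
  set w : ℂ := z ^ ℓ with hwdef
  have hℓC : (ℓ : ℂ) ≠ 0 := by exact_mod_cast hp.ne_zero
  let S : Finset ℕ := (Finset.range n0).filter (fun b => n0.Coprime b)
  have hScard : S.card = Nat.totient n0 := (Nat.totient_eq_card_coprime n0).symm
  set d : ℕ := Nat.totient n0 with hd
  have hdpos : 0 < d := Nat.totient_pos.mpr hn0p
  let bb : Fin d ≃ S := (S.equivFinOfCardEq hScard).symm
  have hbb : ∀ t : Fin d, ((bb t : ℕ) < n0) ∧ n0.Coprime (bb t : ℕ) := by
    intro t
    have := (bb t).2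
    simp only [S, Finset.mem_filter, Finset.mem_range] at this
    exact this
  have hrep : ∀ t : Fin d, rep (bb t : ℕ) ≡ (bb t : ℕ) [MOD n0] ∧ ¬ ℓ ∣ rep (bb t : ℕ) ∧
      0 < rep (bb t : ℕ) ∧ rep (bb t : ℕ) ≤ g := fun t =>
    rep_spec hp h2 hg hmn (hbb t).1 (hbb t).2
  -- the index of a residue class
  have hidx : ∀ i : ℕ, ¬ ℓ ∣ i → ∃ t : Fin d, (bb t : ℕ) ≡ i [MOD n0] := by
    intro i hi
    have h1 : i % n0 ∈ S := by
      simp only [S, Finset.mem_filter, Finset.mem_range]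
      refine ⟨Nat.mod_lt _ hn0p, ?_⟩
      have h3 : n0.Coprime i := (Nat.Prime.coprime_iff_not_dvd hp).mpr hi |>.pow_left j'
      unfold Nat.Coprime at *
      rw [Nat.gcd_comm, ← Nat.gcd_rec]
      exact h3
    refine ⟨bb.symm ⟨_, h1⟩, ?_⟩
    rw [Equiv.apply_symm_apply]
    exact Nat.mod_modEq _ _
  have hwpow : ∀ a b : ℕ, a ≡ b [MOD n0] → w ^ a = w ^ b := by
    intro a b hab
    rw [← Nat.mod_add_div a n0, ← Nat.mod_add_div b n0, pow_add, pow_add, pow_mul, pow_mul,
      hw.pow_eq_one, one_pow, one_pow, hab]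
  -- the Vandermonde matrix
  let A : Matrix (Fin d) (Fin d) ℂ := Matrix.vandermonde (fun t => w ^ (bb t : ℕ))
  have hAdet : A.det ≠ 0 := by
    rw [Matrix.det_vandermonde_ne_zero_iff]
    intro t t' h
    have h3 := hw.pow_inj (hbb t).1 (hbb t').1 h
    exact bb.injective (Subtype.ext h3)
  have hAunit : IsUnit A.det := isUnit_iff_ne_zero.mpr hAdet
  let e : Fin d → (Fin g → ℂ) := fun s i =>
    if ℓ ∣ ((i : ℕ) + 1) then 0 else ℓ * uu g i * (w ^ ((i : ℕ) + 1)) ^ (s : ℕ)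
  let v : Fin d → (Fin d → ℂ) := fun t s => A⁻¹ s t / (ℓ * uu g (rep (bb t : ℕ) - 1))
  have hval : ∀ (c : Fin d → ℂ) (i : Fin g) (t : Fin d), ¬ ℓ ∣ ((i : ℕ) + 1) →
      (bb t : ℕ) ≡ (i : ℕ) + 1 [MOD n0] →
      (∑ s, c s • e s) i = ℓ * uu g i * A.mulVec c t := by
    intro c i t hi ht
    rw [Finset.sum_apply]
    simp only [Pi.smul_apply, smul_eq_mul, e, if_neg hi, Matrix.mulVec, dotProduct, A,
      Matrix.vandermonde_apply]
    rw [Finset.mul_sum]
    refine Finset.sum_congr rfl fun s _ => ?_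
    rw [hwpow _ _ ht]
    ring
  have hval0 : ∀ (c : Fin d → ℂ) (i : Fin g), ℓ ∣ ((i : ℕ) + 1) →
      (∑ s, c s • e s) i = 0 := by
    intro c i hi
    rw [Finset.sum_apply]
    simp [e, hi]
  -- index of a representative
  let ix : Fin d → Fin g := fun t => ⟨rep (bb t : ℕ) - 1, by
    have := hrep t
    omega⟩
  have hix1 : ∀ t, ((ix t : Fin g) : ℕ) + 1 = rep (bb t : ℕ) := fun t => by
    have := (hrep t).2.2.1
    simp only [ix]
    omega
  have hvalx : ∀ (c : Fin d → ℂ) (t : Fin d),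
      (∑ s, c s • e s) (ix t) = ℓ * uu g (ix t) * A.mulVec c t := by
    intro c t
    refine hval c (ix t) t ?_ ?_
    · rw [hix1]; exact (hrep t).2.1
    · rw [hix1]; exact (hrep t).1.symm
  have hmv : ∀ t t' : Fin d, A.mulVec (v t) t' =
      if t' = t then (ℓ * uu g (rep (bb t : ℕ) - 1))⁻¹ else 0 := by
    intro t t'
    have h3 : A.mulVec (v t) t' = (A * A⁻¹) t' t * (ℓ * uu g (rep (bb t : ℕ) - 1))⁻¹ := by
      simp only [Matrix.mulVec, dotProduct, Matrix.mul_apply, v]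
      rw [Finset.sum_mul]
      refine Finset.sum_congr rfl fun s _ => ?_
      ring
    rw [h3, Matrix.mul_nonsing_inv _ hAunit, Matrix.one_apply]
    split_ifs <;> simp
  have hune : ∀ t : Fin d, (ℓ * uu g (rep (bb t : ℕ) - 1) : ℂ) ≠ 0 := fun t =>
    mul_ne_zero hℓC (uu_ne _ _)
  refine ⟨d, e, v, hdpos, ?_, ?_, ?_, ?_, ?_⟩
  · -- independence of e
    rw [Fintype.linearIndependent_iff]
    intro c hc
    have h3 : A.mulVec c = 0 := by
      funext t
      have := hvalx c t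
      rw [hc, Pi.zero_apply] at this
      have h4 := mul_ne_zero hℓC (uu_ne g (ix t))
      exact (mul_eq_zero.mp this.symm).resolve_left h4
    have h4 := Matrix.eq_zero_of_mulVec_eq_zero hAdet h3
    intro i
    rw [h4]; rfl
  · -- e s in the lattice
    intro s
    have h3 := form_mem_Lam g (Polynomial.X ^ (ℓ * (s : ℕ)) *
      (Polynomial.C (ℓ : ℤ) - ∑ r ∈ Finset.range ℓ, Polynomial.X ^ (r * n0)))
    convert h3 using 1
    funext i
    simp only [map_mul, map_pow, Polynomial.aeval_X, map_sub, map_sum, Polynomial.aeval_C,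
      Polynomial.eval_mul, Polynomial.eval_pow, Polynomial.eval_X, one_pow, Polynomial.eval_sub,
      Polynomial.eval_C, Polynomial.eval_finsetSum, Finset.sum_const, Finset.card_range, e]
    rw [← hzdef, geom_val hn0p hz]
    split_ifs with h4
    · simp
    · have : (z ^ ((i : ℕ) + 1)) ^ (ℓ * (s : ℕ)) = (w ^ ((i : ℕ) + 1)) ^ (s : ℕ) := by
        rw [hwdef, ← pow_mul, ← pow_mul, ← pow_mul]
        congr 1
        ring
      rw [this]
      simp
      ring
  · -- independence of v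
    rw [Fintype.linearIndependent_iff]
    intro c hc t
    have h3 : A.mulVec (∑ t, c t • v t) t = c t * (ℓ * uu g (rep (bb t : ℕ) - 1))⁻¹ := by
      rw [Matrix.mulVec_sum, Finset.sum_apply]
      rw [Finset.sum_eq_single t]
      · rw [Matrix.mulVec_smul, Pi.smul_apply, hmv, if_pos rfl, smul_eq_mul]
      · intro t' _ ht'
        rw [Matrix.mulVec_smul, Pi.smul_apply, hmv, if_neg ht'.symm, smul_zero]
      · simp
    rw [hc, Matrix.mulVec_zero, Pi.zero_apply] at h3
    exact (mul_eq_zero.mp h3.symm).resolve_right (inv_ne_zero (hune t))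
  · -- algebraicity
    intro t i
    by_cases hi : ℓ ∣ ((i : ℕ) + 1)
    · rw [hval0 _ _ hi]
      exact isAlgebraic_zero
    · obtain ⟨t', ht'⟩ := hidx _ hi
      rw [hval _ _ _ hi ht', hmv]
      split_ifs with htt
      · subst htt
        have h3 : (ℓ : ℂ) * uu g i * (ℓ * uu g (rep (bb t' : ℕ) - 1))⁻¹ =
            uu g i / uu g (rep (bb t' : ℕ) - 1) := by
          have := uu_ne g (rep (bb t' : ℕ) - 1)
          field_simp
        rw [h3]
        refine uu_ratio hm ?_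
        have h5 := hrep t'
        have h6 : rep (bb t' : ℕ) - 1 + 1 = rep (bb t' : ℕ) := by omega
        rw [h6]
        refine H _ _ (by omega) (by have := i.2; omega) h5.2.2.1 h5.2.2.2 hi h5.2.1 ?_
        rw [Nat.add_sub_cancel]
        exact (h5.1.trans ht').symm
      · rw [mul_zero]
        exact isAlgebraic_zero
  · -- last clause
    intro γ hγ hspan
    obtain ⟨P, hP⟩ := mem_Lam_form g γ hγ
    obtain ⟨c, hc⟩ := (Submodule.mem_span_range_iff_exists_fun ℂ).mp hspan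
    have hAval : ∀ i : Fin g, ¬ ℓ ∣ ((i : ℕ) + 1) → ∀ i' : Fin g, ¬ ℓ ∣ ((i' : ℕ) + 1) →
        (i : ℕ) + 1 ≡ (i' : ℕ) + 1 [MOD n0] →
        Polynomial.aeval (z ^ ((i : ℕ) + 1)) P = Polynomial.aeval (z ^ ((i' : ℕ) + 1)) P := by
      have h3 : ∀ i : Fin g, ¬ ℓ ∣ ((i : ℕ) + 1) → ∀ t : Fin d,
          (bb t : ℕ) ≡ (i : ℕ) + 1 [MOD n0] →
          Polynomial.aeval (z ^ ((i : ℕ) + 1)) P = ℓ * A.mulVec c t := by
        intro i hi t ht
        have h4 := hval c i t hi ht
        rw [hc, hP i] at h4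
        have h5 := uu_ne g i
        have h6 : uu g i * Polynomial.aeval (z ^ ((i : ℕ) + 1)) P =
            uu g i * (ℓ * A.mulVec c t) := by rw [h4]; ring
        exact mul_left_cancel₀ h5 h6
      intro i hi i' hi' hii
      obtain ⟨t, ht⟩ := hidx _ hi
      rw [h3 i hi t ht, h3 i' hi' t (ht.trans hii)]
    -- the claim
    have hclaim : ∃ h : ℚ[X], Polynomial.aeval z P = Polynomial.aeval w h := by
      have hnd1 : ¬ ℓ ∣ 1 := fun h => hp.one_lt.ne' (Nat.dvd_one.mp h)
      rcases Nat.eq_zero_or_pos j' with hj0 | hj0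
      · have hn1 : n0 = 1 := by rw [hn0, hj0, pow_zero]
        have hz1 : IsPrimitiveRoot z ℓ := by rw [hn1, mul_one] at hz; exact hz
        have hℓg : 2 * g + 1 = ℓ := by rw [hmn, hn1, mul_one]
        obtain ⟨c, hc⟩ := claimB hp hg hℓg hz1 P (fun i hi1 hi2 => by
          have hnd : ¬ ℓ ∣ i := Nat.not_dvd_of_pos_of_lt hi1 (by omega)
          have := hAval ⟨i - 1, by omega⟩ (by
            have : i - 1 + 1 = i := by omega
            simp only [this]; exact hnd) ⟨0, by omega⟩ (by simpa using hnd1)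
            (by rw [hn1]; exact Nat.modEq_one)
          have h9 : i - 1 + 1 = i := by omega
          simp only [h9, zero_add, pow_one] at this
          exact this)
        exact ⟨Polynomial.C c, by rw [hc, Polynomial.aeval_C]; rfl⟩
      · have hdvd : ℓ ∣ n0 := dvd_pow_self ℓ hj0.ne'
        refine claimA hp.pos hn0p hdvd hz P ?_
        have h6 : 3 ≤ ℓ := by have := hp.two_le; omega
        have h7 : 3 * n0 ≤ ℓ * n0 := Nat.mul_le_mul_right _ h6
        have h8 : n0 < g := by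
          rcases lt_or_eq_of_le (show n0 ≤ g by omega) with h | h
          · exact h
          · exfalso
            have : 3 ≤ n0 := le_trans h6 (Nat.le_of_dvd hn0p hdvd)
            omega
        have := hAval ⟨0, by omega⟩ (by simpa using hnd1) ⟨n0, h8⟩ (by
          intro h
          exact hnd1 ((Nat.dvd_add_right hdvd).mp h)) (by
          simp [Nat.ModEq])
        simp only [zero_add, pow_one] at this
        rw [this, add_comm]
    obtain ⟨h, hh⟩ := hclaim
    have hall : ∀ i : ℕ, ¬ ℓ ∣ i → Polynomial.aeval (z ^ i) P = Polynomial.aeval (w ^ i) h := by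
      intro i hi
      have hcop : i.Coprime (ℓ * n0) := by
        have h3 : ℓ.Coprime i := (Nat.Prime.coprime_iff_not_dvd hp).mpr hi
        exact Nat.Coprime.mul_right h3.symm (h3.pow_left j').symm
      have h3 := conj_root (Nat.mul_pos hp.pos hn0p) hz (P - Polynomial.expand ℚ ℓ h) (by
        rw [map_sub, Polynomial.expand_aeval, hh, sub_self]) hcop
      rw [map_sub, Polynomial.expand_aeval, sub_eq_zero] at h3
      rw [h3, hwdef, ← pow_mul, ← pow_mul, mul_comm]
    set h' : ℚ[X] := h %ₘ Polynomial.cyclotomic n0 ℚ with hh'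
    have hdeg : h'.natDegree < d := by
      have h3 : (Polynomial.cyclotomic n0 ℚ).Monic := Polynomial.cyclotomic.monic n0 ℚ
      have h4 := Polynomial.natDegree_modByMonic_lt h h3 (by
        intro h5
        have := congrArg Polynomial.natDegree h5
        rw [Polynomial.natDegree_cyclotomic, Polynomial.natDegree_one] at this
        omega)
      rwa [Polynomial.natDegree_cyclotomic] at h4
    have hall' : ∀ i : ℕ, ¬ ℓ ∣ i → Polynomial.aeval (z ^ i) P = Polynomial.aeval (w ^ i) h' := by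
      intro i hi
      rw [hall i hi]
      have h3 : ℓ.Coprime i := (Nat.Prime.coprime_iff_not_dvd hp).mpr hi
      have h4 : IsPrimitiveRoot (w ^ i) n0 := hw.pow_of_coprime i (h3.pow_left j').symm
      have h5 : Polynomial.aeval (w ^ i) (Polynomial.cyclotomic n0 ℚ) = 0 := by
        rw [Polynomial.cyclotomic_eq_minpoly_rat h4 hn0p]
        exact minpoly.aeval ℚ _
      conv_lhs => rw [← Polynomial.modByMonic_add_div h (Polynomial.cyclotomic n0 ℚ)]
      rw [map_add, map_mul, h5, zero_mul, add_zero]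
    have hfin : γ = ∑ s : Fin d, ((h'.coeff s : ℝ) / ℓ) • e s := by
      funext i
      have hsm : (∑ s : Fin d, ((h'.coeff s : ℝ) / ℓ) • e s) i =
          (∑ s : Fin d, (((h'.coeff s : ℂ) / ℓ)) • e s) i := by
        rw [Finset.sum_apply, Finset.sum_apply]
        refine Finset.sum_congr rfl fun s _ => ?_
        simp only [Pi.smul_apply, smul_eq_mul, Complex.real_smul]
        push_cast
        rfl
      rw [hsm]
      by_cases hi : ℓ ∣ ((i : ℕ) + 1)
      · rw [hval0 (fun s => (h'.coeff s : ℂ) / ℓ) i hi]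
        rw [← hc]
        exact hval0 c i hi
      · rw [hP i, ← hzdef, hall' _ hi, Polynomial.aeval_eq_sum_range' hdeg,
          Finset.sum_apply, Finset.mul_sum, ← Fin.sum_univ_eq_sum_range
            (fun k => uu g i * h'.coeff k • (w ^ ((i : ℕ) + 1)) ^ k) d]
        refine Finset.sum_congr rfl fun s _ => ?_
        simp only [Pi.smul_apply, smul_eq_mul, e, if_neg hi]
        rw [Algebra.smul_def]
        simp only [eq_ratCast]
        field_simp
    rw [hfin]
    exact Submodule.sum_mem _ fun s _ =>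
      Submodule.smul_mem _ _ (Submodule.subset_span ⟨s, rfl⟩)

end

end Pool.Agent.FDR.LATT
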