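import Pool.Agent.FDR.Stmts2

/-!
# LATT2 : periods of `y ^ 2 = x ^ (2 g + 1) + x` on the complex line of `lam2 g 0`
-/

open scoped BigOperators Polynomial Topology

namespace Pool.Agent.FDR.LATT2

noncomputable section

/-- `exp (2 π i / (4 g))` -/
def z (g : ℕ) : ℂ := Complex.exp (2 * Real.pi * Complex.I / ((4 * g : ℕ) : ℂ))

theorem z_prim (g : ℕ) (hg : 0 < g) : IsPrimitiveRoot (z g) (4 * g) :=
  Complex.isPrimitiveRoot_exp (4 * g) (by omega)

/-- conjugation by a power -/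
theorem conj_pow {n : ℕ} (hn : 0 < n) {z : ℂ} (hz : IsPrimitiveRoot z n) (A : ℤ[X]) (t u : ℕ)
    (hu : u.Coprime n) (h : Polynomial.aeval (z ^ t) A = Polynomial.aeval z A) :
    Polynomial.aeval (z ^ (t * u)) A = Polynomial.aeval (z ^ u) A := by
  have h1 : Polynomial.aeval z (A.comp (Polynomial.X ^ t) - A) = 0 := by
    rw [map_sub, Polynomial.aeval_comp, map_pow, Polynomial.aeval_X, h, sub_self]
  have h2 : minpoly ℤ z ∣ (A.comp (Polynomial.X ^ t) - A) :=
    minpoly.isIntegrallyClosed_dvd (hz.isIntegral hn) h1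
  rw [hz.minpoly_eq_pow_coprime hu] at h2
  have h3 : Polynomial.aeval (z ^ u) (A.comp (Polynomial.X ^ t) - A) = 0 := by
    obtain ⟨B, hB⟩ := h2
    rw [hB, map_mul, minpoly.aeval, zero_mul]
  rw [map_sub, Polynomial.aeval_comp, map_pow, Polynomial.aeval_X, sub_eq_zero] at h3
  rw [mul_comm t u, pow_mul]
  exact h3

theorem lam2_eq (g : ℕ) (hg : 0 < g) (k i : ℕ) :
    lam2 g k i = (z g ^ (2 * i + 1)) ^ k * lam2 g 0 i := by
  have hg' : (g : ℂ) ≠ 0 := by exact_mod_cast hg.ne'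
  unfold lam2 z
  have e : Complex.exp (Complex.I * Real.pi * (2 * k + 1) * (2 * i + 1) / (4 * g)) =
      (Complex.exp (2 * Real.pi * Complex.I / ((4 * g : ℕ) : ℂ)) ^ (2 * i + 1)) ^ k *
        Complex.exp (Complex.I * Real.pi * (2 * ((0 : ℕ) : ℂ) + 1) * (2 * i + 1) / (4 * g)) := by
    rw [← pow_mul, ← Complex.exp_nat_mul, ← Complex.exp_add]
    congr 1
    push_cast
    field_simp
    ring
  rw [e]
  ring

theorem exists_poly (g : ℕ) (hg : 0 < g) (γ : Fin g → ℂ) (h : γ ∈ Lam2 g) :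
    ∃ A : ℤ[X], ∀ i : Fin g,
      γ i = Polynomial.aeval (z g ^ (2 * (i : ℕ) + 1)) A * lam2 g 0 i := by
  refine AddSubgroup.closure_induction (p := fun γ _ => ∃ A : ℤ[X], ∀ i : Fin g,
      γ i = Polynomial.aeval (z g ^ (2 * (i : ℕ) + 1)) A * lam2 g 0 i) ?_ ?_ ?_ ?_ h
  · rintro _ ⟨k, rfl⟩
    refine ⟨Polynomial.X ^ k, fun i => ?_⟩
    rw [map_pow, Polynomial.aeval_X]
    exact lam2_eq g hg k i
  · exact ⟨0, fun i => by simp⟩
  · rintro a b _ _ ⟨A, hA⟩ ⟨B, hB⟩
    refine ⟨A + B, fun i => ?_⟩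
    rw [map_add, add_mul, ← hA, ← hB]
    rfl
  · rintro a _ ⟨A, hA⟩
    refine ⟨-A, fun i => ?_⟩
    rw [map_neg, neg_mul, ← hA]
    rfl

theorem bet_pos' (g i : ℕ) (hg : 0 < g) :
    0 < bet ((2 * i + 1) / (4 * g)) (1 / 2) := by
  have hg' : (0 : ℝ) < g := by exact_mod_cast hg
  have h1 : (0 : ℝ) < (2 * i + 1) / (4 * g) := by positivity
  unfold bet
  have h2 := Real.Gamma_pos_of_pos h1
  have h3 := Real.Gamma_pos_of_pos (show (0 : ℝ) < 1 / 2 by norm_num)
  have h4 := Real.Gamma_pos_of_pos (show (0 : ℝ) < (2 * i + 1) / (4 * g) + 1 / 2 by positivity)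
  positivity

theorem lam2_ne (g i : ℕ) (hg : 0 < g) : lam2 g 0 i ≠ 0 := by
  have hg' : (g : ℂ) ≠ 0 := by exact_mod_cast hg.ne'
  unfold lam2
  refine mul_ne_zero (mul_ne_zero (one_div_ne_zero hg') (Complex.exp_ne_zero _)) ?_
  exact_mod_cast (bet_pos' g i hg).ne'

theorem thm_LATT2 : Stmt_Latt2 := by
  intro a g ha hg γ hγ hs
  have hg4 : 4 ∣ g := by
    rw [hg]
    exact pow_dvd_pow 2 ha
  have hg0 : 0 < g := by rw [hg]; positivity
  obtain ⟨m, hm⟩ := hg4
  have hm0 : 0 < m := by omega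
  have hz := z_prim g hg0
  obtain ⟨A, hA⟩ := exists_poly g hg0 γ hγ
  rw [Submodule.mem_span_singleton] at hs
  obtain ⟨w, hw⟩ := hs
  have hAw : ∀ i < g, Polynomial.aeval (z g ^ (2 * i + 1)) A = w := by
    intro i hi
    have h1 := hA ⟨i, hi⟩
    rw [← hw] at h1
    exact (mul_right_cancel₀ (lam2_ne g i hg0) h1).symm
  have h1 : Polynomial.aeval (z g) A = w := by
    have := hAw 0 hg0
    simpa using this
  have cop : ∀ u : ℕ, Odd u → u.Coprime (4 * g) := by
    intro u hu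
    have : 4 * g = 2 ^ (a + 2) := by rw [hg]; ring
    rw [this]
    exact Nat.Coprime.pow_right _ (Nat.coprime_two_right.2 hu)
  -- `A (z ^ (g - 1)) = A z`
  have h2 : Polynomial.aeval (z g ^ (g - 1)) A = Polynomial.aeval (z g) A := by
    have := hAw (g / 2 - 1) (by omega)
    have e : 2 * (g / 2 - 1) + 1 = g - 1 := by omega
    rw [e] at this
    rw [this, h1]
  have zpow_mod : ∀ s t : ℕ, s ≡ t [MOD 4 * g] → z g ^ s = z g ^ t := by
    intro s t hst
    exact pow_eq_pow_of_modEq hst hz.pow_eq_one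
  have h3 : Polynomial.aeval (z g ^ (1 + 2 * g)) A = Polynomial.aeval (z g) A := by
    have h := conj_pow (by omega) hz A (g - 1) (g - 1)
      (cop _ ⟨2 * m - 1, by omega⟩) h2
    have e : z g ^ ((g - 1) * (g - 1)) = z g ^ (1 + 2 * g) := by
      apply zpow_mod
      obtain ⟨m', rfl⟩ : ∃ m', m = m' + 1 := ⟨m - 1, by omega⟩
      have e1 : g - 1 = 4 * m' + 3 := by omega
      rw [e1]
      have e2 : (4 * m' + 3) * (4 * m' + 3) + (4 * g) * 1 = 1 + 2 * g + (4 * g) * (m' + 1) := by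
        rw [hm]; ring
      have e3 : (4 * m' + 3) * (4 * m' + 3) + (4 * g) * 1 ≡
          1 + 2 * g + (4 * g) * (m' + 1) [MOD 4 * g] := by rw [e2]
      have e4 : (4 * m' + 3) * (4 * m' + 3) + (4 * g) * 1 ≡
          (4 * m' + 3) * (4 * m' + 3) [MOD 4 * g] := by
        simp [Nat.ModEq]
      have e5 : 1 + 2 * g + (4 * g) * (m' + 1) ≡ 1 + 2 * g [MOD 4 * g] := by
        simp [Nat.ModEq]
      exact e4.symm.trans (e3.trans e5)
    rw [e] at h
    rw [h, h2]
  have h4 : Polynomial.aeval (z g ^ (4 * g - 1)) A = w := by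
    have h := conj_pow (by omega) hz A (1 + 2 * g) (2 * g - 1) (cop _ ⟨g - 1, by omega⟩) h3
    have e : z g ^ ((1 + 2 * g) * (2 * g - 1)) = z g ^ (4 * g - 1) := by
      apply zpow_mod
      obtain ⟨g', rfl⟩ : ∃ g', g = g' + 1 := ⟨g - 1, by omega⟩
      have e1 : 2 * (g' + 1) - 1 = 2 * g' + 1 := by omega
      have e2 : 4 * (g' + 1) - 1 = 4 * g' + 3 := by omega
      rw [e1, e2]
      have e3 : (1 + 2 * (g' + 1)) * (2 * g' + 1) = 4 * g' + 3 + (4 * (g' + 1)) * g' := by ring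
      rw [e3]
      simp [Nat.ModEq]
    rw [e] at h
    rw [h]
    have := hAw (g - 1) (by omega)
    have e : 2 * (g - 1) + 1 = 2 * g - 1 := by omega
    rwa [e] at this
  -- conjugation
  have hconj : (starRingEnd ℂ) (z g) = z g ^ (4 * g - 1) := by
    have hz1 : z g ^ (4 * g) = 1 := hz.pow_eq_one
    have hn : ‖z g‖ = 1 := hz.norm'_eq_one (by omega)
    have hne : z g ≠ 0 := hz.ne_zero (by omega)
    have e1 : (starRingEnd ℂ) (z g) = (z g)⁻¹ := by
      rw [Complex.inv_def, Complex.normSq_eq_norm_sq, hn]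
      simp
    rw [e1]
    apply inv_eq_of_mul_eq_one_right
    rw [← pow_succ', ← hz1]
    congr 1
    omega
  have hreal : (starRingEnd ℂ) w = w := by
    have h5 : (starRingEnd ℂ) (Polynomial.aeval (z g) A) =
        Polynomial.aeval ((starRingEnd ℂ) (z g)) A := by
      exact (Polynomial.aeval_algHom_apply ((starRingEnd ℂ).toIntAlgHom) (z g) A).symm
    rw [h1, hconj, h4] at h5
    exact h5
  rw [Submodule.mem_span_singleton]
  refine ⟨w.re, ?_⟩
  have hw' : (w.re : ℂ) = w := Complex.conj_eq_iff_re.1 hreal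
  rw [← hw]
  ext i
  show (w.re : ℝ) • lam2 g 0 i = w * lam2 g 0 i
  rw [Complex.real_smul, hw']

end

end Pool.Agent.FDR.LATT2
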