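import Pool.Agent.FDR.Stmts

/-!
# FDR: the linear system for the function `A + B y`
-/

open scoped BigOperators Polynomial Topology
open Metric Filter Polynomial

namespace Pool.Agent.FDR.LINSYS

noncomputable section

variable {g : ℕ}

/-! ## Polynomials -/

theorem polyU_monic (x : Fin g → ℂ) : (polyU x).Monic := by
  unfold polyU
  exact monic_prod_of_monic _ _ (fun k _ => monic_X_sub_C _)

theorem polyU_natDegree (x : Fin g → ℂ) : (polyU x).natDegree = g := by
  unfold polyU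
  rw [natDegree_prod_of_monic _ _ (fun k _ => monic_X_sub_C _)]
  simp

theorem polyU_dvd (x : Fin g → ℂ) (k : Fin g) : (X - C (x k)) ∣ polyU x := by
  unfold polyU
  exact Finset.dvd_prod_of_mem _ (Finset.mem_univ k)

theorem polyV_eval {x : Fin g → ℂ} (hx : Function.Injective x) (y : Fin g → ℂ) (k : Fin g) :
    (polyV x y).eval (x k) = y k := by
  unfold polyV
  exact Lagrange.eval_interpolate_at_node y (fun a _ b _ h => hx h) (Finset.mem_univ k)

theorem polyV_degree {x : Fin g → ℂ} (hx : Function.Injective x) (y : Fin g → ℂ) :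
    (polyV x y).degree < g := by
  have := Lagrange.degree_interpolate_lt (s := Finset.univ) (v := x) y
    (fun a _ b _ h => hx h)
  simpa [polyV] using this

/-- the polynomials multiplying the unknowns -/
def bas (V : ℂ[X]) (t : Fin 3 × Fin g) : ℂ[X] :=
  if t.1 = 0 then X ^ (t.2 : ℕ) else if t.1 = 1 then X ^ (g + (t.2 : ℕ)) else
    X ^ (t.2 : ℕ) * V

theorem bas0 (V : ℂ[X]) (i : Fin g) : bas V (0, i) = X ^ (i : ℕ) := by simp [bas]
theorem bas1 (V : ℂ[X]) (i : Fin g) : bas V (1, i) = X ^ (g + (i : ℕ)) := by simp [bas]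
theorem bas2 (V : ℂ[X]) (i : Fin g) : bas V (2, i) = X ^ (i : ℕ) * V := by
  unfold bas
  rw [if_neg (show ¬ ((2 : Fin 3) = 0) by decide), if_neg (show ¬ ((2 : Fin 3) = 1) by decide)]

/-- The non-leading part of `A`. -/
def A0 (v : Fin 3 × Fin g → ℂ) : ℂ[X] :=
  ∑ i : Fin g, C (v (0, i)) * X ^ (i : ℕ) + ∑ i : Fin g, C (v (1, i)) * X ^ (g + (i : ℕ))

theorem polyA_eq (v : Fin 3 × Fin g → ℂ) : polyA v = X ^ (2 * g) + A0 v := by
  unfold polyA A0
  ring

theorem sum_bas (v : Fin 3 × Fin g → ℂ) (V : ℂ[X]) :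
    ∑ t, v t • bas V t = A0 v + polyB v * V := by
  rw [Fintype.sum_prod_type, Fin.sum_univ_three]
  simp only [bas0, bas1, bas2, A0, polyB, Finset.sum_mul, smul_eq_C_mul, mul_assoc]

theorem coeff_B (v : Fin 3 × Fin g → ℂ) (j : Fin g) : (polyB v).coeff j = v (2, j) := by
  unfold polyB
  rw [finsetSum_coeff, Finset.sum_eq_single j]
  · simp
  · intro i _ hij
    rw [coeff_C_mul_X_pow, if_neg]
    intro h
    exact hij (Fin.ext h.symm)
  · simp

theorem degree_B (v : Fin 3 × Fin g → ℂ) : (polyB v).degree < g := by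
  unfold polyB
  exact degree_sum_fin_lt (fun i : Fin g => v (2, i))

theorem coeff_A0_low (v : Fin 3 × Fin g → ℂ) (j : Fin g) : (A0 v).coeff j = v (0, j) := by
  unfold A0
  rw [coeff_add, finsetSum_coeff, finsetSum_coeff, Finset.sum_eq_single j,
    Finset.sum_eq_zero]
  · simp
  · intro i _
    rw [coeff_C_mul_X_pow, if_neg]
    have := j.2
    omega
  · intro i _ hij
    rw [coeff_C_mul_X_pow, if_neg]
    intro h
    exact hij (Fin.ext h.symm)
  · simp

theorem coeff_A0_high (v : Fin 3 × Fin g → ℂ) (j : Fin g) :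
    (A0 v).coeff (g + j) = v (1, j) := by
  unfold A0
  rw [coeff_add, finsetSum_coeff, finsetSum_coeff, Finset.sum_eq_zero,
    Finset.sum_eq_single j]
  · simp
  · intro i _ hij
    rw [coeff_C_mul_X_pow, if_neg]
    intro h
    exact hij (Fin.ext (by omega))
  · simp
  · intro i _
    rw [coeff_C_mul_X_pow, if_neg]
    have := i.2
    omega

theorem degree_A0 (v : Fin 3 × Fin g → ℂ) : (A0 v).degree < (2 * g : ℕ) := by
  unfold A0
  refine lt_of_le_of_lt (degree_add_le _ _) (max_lt ?_ ?_)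
  · refine lt_of_lt_of_le (degree_sum_fin_lt (fun i : Fin g => v (0, i))) ?_
    exact_mod_cast (by omega : g ≤ 2 * g)
  · refine lt_of_le_of_lt (degree_sum_le _ _)
      ((Finset.sup_lt_iff (WithBot.bot_lt_coe _)).2 (fun i _ => ?_))
    refine lt_of_le_of_lt (degree_C_mul_X_pow_le _ _) ?_
    have := i.2
    exact_mod_cast (by omega : g + (i : ℕ) < 2 * g)

theorem B_zero {v : Fin 3 × Fin g → ℂ} {x : Fin g → ℂ} (hx : Function.Injective x)
    (h : ∀ k, (polyB v).eval (x k) = 0) : polyB v = 0 := by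
  refine Polynomial.eq_zero_of_degree_lt_of_eval_index_eq_zero (v := x) Finset.univ
    (fun a _ b _ h => hx h) ?_ (fun i _ => h i)
  simpa using degree_B v

/-! ## The linear system -/

/-- The matrix of the system. -/
def mat (U V : Fin 3 → ℂ[X]) : Matrix (Fin 3 × Fin g) (Fin 3 × Fin g) ℂ :=
  fun t t' => (bas (V t.1) t' %ₘ U t.1).coeff (t.2 : ℕ)

/-- The right hand side. -/
def rhs (U : Fin 3 → ℂ[X]) (t : Fin 3 × Fin g) : ℂ :=
  -((X ^ (2 * g) : ℂ[X]) %ₘ U t.1).coeff (t.2 : ℕ)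

theorem mod_sum {κ : Type} (s : Finset κ) (U : ℂ[X]) (v : κ → ℂ) (B : κ → ℂ[X]) :
    (∑ t ∈ s, v t • B t) %ₘ U = ∑ t ∈ s, v t • (B t %ₘ U) := by
  have h : Polynomial.modByMonicHom U (∑ t ∈ s, v t • B t) =
      ∑ t ∈ s, v t • Polynomial.modByMonicHom U (B t) := by
    rw [map_sum]
    exact Finset.sum_congr rfl (fun t _ => by rw [map_smul])
  exact h

theorem mulVec_eq (U V : Fin 3 → ℂ[X]) (v : Fin 3 × Fin g → ℂ) (t : Fin 3 × Fin g) :
    (mat U V).mulVec v t = ((A0 v + polyB v * V t.1) %ₘ U t.1).coeff (t.2 : ℕ) := by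
  rw [← sum_bas, mod_sum, finsetSum_coeff]
  simp only [Matrix.mulVec, dotProduct, mat, coeff_smul, smul_eq_mul]
  exact Finset.sum_congr rfl (fun i _ => mul_comm _ _)

theorem dvd_of_coeff {U P : ℂ[X]} (hU : U.Monic) (hd : U.natDegree = g)
    (h : ∀ l : Fin g, (P %ₘ U).coeff l = 0) : U ∣ P := by
  rw [← modByMonic_eq_zero_iff_dvd hU]
  ext l
  rw [coeff_zero]
  by_cases hl : l < g
  · exact h ⟨l, hl⟩
  · have h1 : (P %ₘ U).degree < U.degree := degree_modByMonic_lt P hU
    have h2 : U.degree = (g : ℕ) := by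
      rw [degree_eq_natDegree hU.ne_zero, hd]
    rw [h2] at h1
    refine coeff_eq_zero_of_degree_lt (lt_of_lt_of_le h1 ?_)
    exact_mod_cast not_lt.1 hl

theorem eval_of_dvd {x : Fin g → ℂ} {P : ℂ[X]} (h : polyU x ∣ P) (k : Fin g) :
    P.eval (x k) = 0 := by
  have h1 := (polyU_dvd x k).trans h
  exact dvd_iff_isRoot.1 h1

theorem sol_eval (U V : Fin 3 → ℂ[X]) (hU : ∀ a, (U a).Monic ∧ (U a).natDegree = g)
    (p : Fin 3 × Fin g → ℂ) (hp : (mat U V).mulVec p = rhs U) (a : Fin 3) :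
    U a ∣ polyA p + polyB p * V a := by
  refine dvd_of_coeff (hU a).1 (hU a).2 (fun l => ?_)
  have h1 := congrFun hp (a, l)
  rw [mulVec_eq] at h1
  have h2 : polyA p + polyB p * V a = X ^ (2 * g) + (A0 p + polyB p * V a) := by
    rw [polyA_eq]; ring
  rw [h2, add_modByMonic, coeff_add]
  simp only [rhs] at h1
  rw [h1]
  ring

theorem ker_zero (r : Fin 2) (b c : Fin 2 → Fin g → ℂ)
    (hb : Function.Injective (fun q : Fin 2 × Fin g => b q.1 q.2))
    (hc : ∀ s k, c s k ≠ 0) (U V : Fin 3 → ℂ[X])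
    (h0 : U 0 = polyU (b 0)) (h1 : U 1 = polyU (b 1)) (h2 : U 2 = polyU (b (1 - r)))
    (k0 : V 0 = polyV (b 0) (c 0)) (k1 : V 1 = polyV (b 1) (c 1))
    (k2 : V 2 = -polyV (b (1 - r)) (c (1 - r))) (v : Fin 3 × Fin g → ℂ)
    (hv : (mat U V).mulVec v = 0) : v = 0 := by
  have hbs : ∀ s, Function.Injective (b s) := by
    intro s k k' h
    have := @hb (s, k) (s, k') h
    simpa using this
  have key : ∀ a : Fin 3, (U a).Monic → (U a).natDegree = g → U a ∣ A0 v + polyB v * V a := by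
    intro a ha hd
    refine dvd_of_coeff ha hd (fun l => ?_)
    have := congrFun hv (a, l)
    rw [mulVec_eq] at this
    simpa using this
  have e0 : ∀ k, (A0 v).eval (b 0 k) + (polyB v).eval (b 0 k) * c 0 k = 0 := by
    intro k
    have := key 0 (h0 ▸ polyU_monic _) (h0 ▸ polyU_natDegree _)
    rw [h0] at this
    have := eval_of_dvd this k
    rwa [eval_add, eval_mul, k0, polyV_eval (hbs 0)] at this
  have e1 : ∀ k, (A0 v).eval (b 1 k) + (polyB v).eval (b 1 k) * c 1 k = 0 := by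
    intro k
    have := key 1 (h1 ▸ polyU_monic _) (h1 ▸ polyU_natDegree _)
    rw [h1] at this
    have := eval_of_dvd this k
    rwa [eval_add, eval_mul, k1, polyV_eval (hbs 1)] at this
  have e : ∀ s k, (A0 v).eval (b s k) + (polyB v).eval (b s k) * c s k = 0 := by
    intro s k
    fin_cases s
    · exact e0 k
    · exact e1 k
  have e2 : ∀ k, (A0 v).eval (b (1 - r) k) - (polyB v).eval (b (1 - r) k) * c (1 - r) k = 0 := by
    intro k
    have := key 2 (h2 ▸ polyU_monic _) (h2 ▸ polyU_natDegree _)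
    rw [h2] at this
    have := eval_of_dvd this k
    rw [eval_add, eval_mul, k2, eval_neg, polyV_eval (hbs (1 - r))] at this
    rw [sub_eq_add_neg, ← mul_neg]
    exact this
  have hB : polyB v = 0 := by
    refine B_zero (hbs (1 - r)) (fun k => ?_)
    have h3 := e (1 - r) k
    have h4 := e2 k
    have h5 : 2 * c (1 - r) k * (polyB v).eval (b (1 - r) k) = 0 := by
      linear_combination h3 - h4
    rcases mul_eq_zero.1 h5 with h6 | h6
    · exfalso
      rcases mul_eq_zero.1 h6 with h7 | h7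
      · norm_num at h7
      · exact hc _ _ h7
    · exact h6
  have hA : A0 v = 0 := by
    refine Polynomial.eq_zero_of_degree_lt_of_eval_index_eq_zero
      (v := fun q : Fin 2 × Fin g => b q.1 q.2) Finset.univ (fun a _ b _ h => hb h) ?_ (fun q _ => ?_)
    · simpa using degree_A0 v
    · have := e q.1 q.2
      rwa [hB, eval_zero, zero_mul, add_zero] at this
  funext t
  obtain ⟨a, i⟩ := t
  fin_cases a
  · have := coeff_A0_low v i
    rw [hA, coeff_zero] at this
    exact this.symm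
  · have := coeff_A0_high v i
    rw [hA, coeff_zero] at this
    exact this.symm
  · have := coeff_B v i
    rw [hB, coeff_zero] at this
    exact this.symm

/-! ## Analyticity -/

/-- polynomials with analytic coefficients -/
def PA (P : (Fin g → ℂ) → ℂ[X]) : Prop :=
  ∀ l, AnalyticAt ℂ (fun z => (P z).coeff l) 0

theorem PA.mul {P Q : (Fin g → ℂ) → ℂ[X]} (hP : PA P) (hQ : PA Q) :
    PA (fun z => P z * Q z) := by
  intro l
  simp only [coeff_mul]
  have := Finset.analyticAt_fun_sum (𝕜 := ℂ) (f := fun (x : ℕ × ℕ) (z : Fin g → ℂ) =>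
    (P z).coeff x.1 * (Q z).coeff x.2) (c := (0 : Fin g → ℂ)) (Finset.HasAntidiagonal.antidiagonal l)
    (fun x _ => (hP x.1).mul (hQ x.2))
  exact this

theorem PA.C {h : (Fin g → ℂ) → ℂ} (hh : AnalyticAt ℂ h 0) : PA (fun z => C (h z)) := by
  intro l
  by_cases hl : l = 0
  · subst hl
    simpa using hh
  · have : (fun z : Fin g → ℂ => (Polynomial.C (h z)).coeff l) = fun _ => 0 := by
      funext z
      rw [coeff_C, if_neg hl]
    rw [this]
    exact analyticAt_const

theorem PA.const (P : ℂ[X]) : PA (fun _ : Fin g → ℂ => P) := fun _ => analyticAt_const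

theorem PA.sub {P Q : (Fin g → ℂ) → ℂ[X]} (hP : PA P) (hQ : PA Q) :
    PA (fun z => P z - Q z) := by
  intro l
  simp only [coeff_sub]
  exact (hP l).sub (hQ l)

theorem PA.prod {κ : Type} (s : Finset κ) {P : κ → (Fin g → ℂ) → ℂ[X]}
    (hP : ∀ k ∈ s, PA (P k)) : PA (fun z => ∏ k ∈ s, P k z) := by
  classical
  induction s using Finset.induction_on with
  | empty => simpa using PA.const 1
  | insert a s ha ih =>
    simp only [Finset.prod_insert ha]
    exact (hP a (Finset.mem_insert_self a s)).mul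
      (ih (fun k hk => hP k (Finset.mem_insert_of_mem hk)))

theorem PA.sum {κ : Type} (s : Finset κ) {P : κ → (Fin g → ℂ) → ℂ[X]}
    (hP : ∀ k ∈ s, PA (P k)) : PA (fun z => ∑ k ∈ s, P k z) := by
  intro l
  simp only [finsetSum_coeff]
  exact Finset.analyticAt_fun_sum (𝕜 := ℂ) s (fun k hk => hP k hk l)

theorem X_an {f : ℂ[X]} {b c : Fin g → ℂ} (D : Chart g f b c) (k : Fin g) :
    AnalyticAt ℂ (fun z => D.X z k) 0 := analyticAt_pi_iff.1 D.an k

theorem PA_U {f : ℂ[X]} {b c : Fin g → ℂ} (D : Chart g f b c) : PA (fun z => polyU (D.X z)) := by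
  unfold polyU
  exact PA.prod _ (fun k _ => (PA.const X).sub (PA.C (X_an D k)))

theorem PA_V {f : ℂ[X]} {b c : Fin g → ℂ} (D : Chart g f b c) (hb : Function.Injective b)
    (hY : ∀ k, AnalyticAt ℂ (fun z => D.Y z k) 0) :
    PA (fun z => polyV (D.X z) (D.Y z)) := by
  unfold polyV
  simp only [Lagrange.interpolate_apply, Lagrange.basis, Lagrange.basisDivisor]
  refine PA.sum _ (fun k _ => (PA.C (hY k)).mul (PA.prod _ (fun j hj => ?_)))
  refine (PA.C ?_).mul ((PA.const X).sub (PA.C (X_an D j)))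
  refine ((X_an D k).sub (X_an D j)).inv ?_
  show D.X 0 k - D.X 0 j ≠ 0
  rw [D.X0]
  intro h
  have := hb (sub_eq_zero.1 h)
  subst this
  simp at hj

theorem F4_an {f : ℂ[X]} {b c : Fin 2 → Fin g → ℂ} (D : ∀ r, Chart g f (b r) (c r))
    (hb : ∀ r, Function.Injective (b r))
    (hY : ∀ r k, AnalyticAt ℂ (fun z => (D r).Y z k) 0) (i : (Fin 2 × Fin 2) × Fin g) :
    AnalyticAt ℂ (fun z => F4 D z i) 0 := by
  obtain ⟨⟨r, a⟩, l⟩ := i
  fin_cases a
  · exact PA_U (D r) l
  · exact PA_V (D r) (hb r) (hY r) l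

theorem rat_an {ι : Type} [Fintype ι] {F : (Fin g → ℂ) → ι → ℂ}
    (hF : ∀ i, AnalyticAt ℂ (fun z => F z i) 0) {h : (Fin g → ℂ) → ℂ} (hh : RatIn F h) :
    AnalyticAt ℂ h 0 := by
  obtain ⟨P, Q, hQ, he⟩ := hh
  have aP : AnalyticAt ℂ (fun z => MvPolynomial.eval (F z) P) 0 := by
    have := AnalyticAt.aeval_mvPolynomial (𝕜 := ℂ) (f := F) hF P
    simpa [MvPolynomial.aeval_def, MvPolynomial.eval₂_id] using this
  have aQ : AnalyticAt ℂ (fun z => MvPolynomial.eval (F z) Q) 0 := by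
    have := AnalyticAt.aeval_mvPolynomial (𝕜 := ℂ) (f := F) hF Q
    simpa [MvPolynomial.aeval_def, MvPolynomial.eval₂_id] using this
  refine (aP.div aQ hQ).congr ?_
  filter_upwards [he, aQ.continuousAt.eventually_ne hQ] with z h1 h2
  rw [Pi.div_apply, div_eq_iff h2]
  exact h1.symm

/-! ## The main theorem -/

section main

variable {f : ℂ[X]} {b c : Fin 2 → Fin g → ℂ}

/-- the polynomials `U` of the three groups of rows -/
def rowU (D : ∀ r, Chart g f (b r) (c r)) (r : Fin 2) (z : Fin g → ℂ) : Fin 3 → ℂ[X] :=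
  ![polyU ((D 0).X z), polyU ((D 1).X z), polyU (b (1 - r))]

/-- the polynomials `V` of the three groups of rows -/
def rowV (D : ∀ r, Chart g f (b r) (c r)) (r : Fin 2) (z : Fin g → ℂ) : Fin 3 → ℂ[X] :=
  ![polyV ((D 0).X z) ((D 0).Y z), polyV ((D 1).X z) ((D 1).Y z),
    -polyV (b (1 - r)) (c (1 - r))]

theorem rowU_monic (D : ∀ r, Chart g f (b r) (c r)) (r : Fin 2) (z : Fin g → ℂ) (a : Fin 3) :
    (rowU D r z a).Monic ∧ (rowU D r z a).natDegree = g := by
  fin_cases a
  · exact ⟨polyU_monic _, polyU_natDegree _⟩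
  · exact ⟨polyU_monic _, polyU_natDegree _⟩
  · exact ⟨polyU_monic _, polyU_natDegree _⟩

theorem ratU (h1 : Stmt_RC1) (D : ∀ r, Chart g f (b r) (c r)) (hF : ContinuousAt (F4 D) 0)
    (s : Fin 2) (l : ℕ) : RatIn (F4 D) (fun z => (polyU ((D s).X z)).coeff l) := by
  obtain ⟨hconst, hcoord, -⟩ := h1 _ _ (F4 D) hF
  rcases lt_trichotomy l g with hl | hl | hl
  · exact hcoord ((s, 0), ⟨l, hl⟩)
  · have : (fun z => (polyU ((D s).X z)).coeff l) = fun _ => 1 := by
      funext z
      have := polyU_monic ((D s).X z)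
      rw [Monic, leadingCoeff, polyU_natDegree] at this
      rw [hl, this]
    rw [this]
    exact hconst 1
  · have : (fun z => (polyU ((D s).X z)).coeff l) = fun _ => 0 := by
      funext z
      exact coeff_eq_zero_of_natDegree_lt (by rw [polyU_natDegree]; exact hl)
    rw [this]
    exact hconst 0

theorem ratV (h1 : Stmt_RC1) (D : ∀ r, Chart g f (b r) (c r)) (hF : ContinuousAt (F4 D) 0)
    (hinj : ∀ s, ∀ᶠ z in 𝓝 (0 : Fin g → ℂ), Function.Injective ((D s).X z))
    (s : Fin 2) (l : ℕ) :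
    RatIn (F4 D) (fun z => (polyV ((D s).X z) ((D s).Y z)).coeff l) := by
  obtain ⟨hconst, hcoord, -, -, -, -, hcongr, -⟩ := h1 _ _ (F4 D) hF
  by_cases hl : l < g
  · exact hcoord ((s, 1), ⟨l, hl⟩)
  · refine hcongr (fun _ => 0) _ (hconst 0) ?_
    filter_upwards [hinj s] with z hz
    refine coeff_eq_zero_of_degree_lt (lt_of_lt_of_le (polyV_degree hz _) ?_)
    exact_mod_cast not_lt.1 hl

theorem ratBas (h1 : Stmt_RC1) (D : ∀ r, Chart g f (b r) (c r)) (hF : ContinuousAt (F4 D) 0)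
    (hinj : ∀ s, ∀ᶠ z in 𝓝 (0 : Fin g → ℂ), Function.Injective ((D s).X z))
    (s : Fin 2) (t : Fin 3 × Fin g) (l : ℕ) :
    RatIn (F4 D) (fun z => (bas (polyV ((D s).X z) ((D s).Y z)) t).coeff l) := by
  obtain ⟨hconst, -⟩ := h1 _ _ (F4 D) hF
  obtain ⟨a, i⟩ := t
  fin_cases a
  · exact hconst ((X ^ (i : ℕ) : ℂ[X]).coeff l)
  · exact hconst ((X ^ (g + (i : ℕ)) : ℂ[X]).coeff l)
  · show RatIn (F4 D) (fun z => (bas (polyV ((D s).X z) ((D s).Y z)) (2, i)).coeff l)
    simp only [bas2, coeff_X_pow_mul']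
    by_cases hl : (i : ℕ) ≤ l
    · simp only [if_pos hl]
      exact ratV h1 D hF hinj s _
    · simp only [if_neg hl]
      exact hconst 0

theorem deg_bas (V : ℂ[X]) (hV : V.degree < g) (t : Fin 3 × Fin g) :
    (bas V t).natDegree ≤ 2 * g := by
  obtain ⟨a, i⟩ := t
  have hi := i.2
  fin_cases a
  · show (bas V (0, i)).natDegree ≤ 2 * g
    rw [bas0, natDegree_X_pow]
    omega
  · show (bas V (1, i)).natDegree ≤ 2 * g
    rw [bas1, natDegree_X_pow]
    omega
  · show (bas V (2, i)).natDegree ≤ 2 * g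
    rw [bas2]
    refine natDegree_mul_le.trans ?_
    rw [natDegree_X_pow]
    have : V.natDegree ≤ g := natDegree_le_of_degree_le hV.le
    omega

theorem ratRow (h1 : Stmt_RC1) (h3 : Stmt_RC3) (D : ∀ r, Chart g f (b r) (c r))
    (hF : ContinuousAt (F4 D) 0)
    (hinj : ∀ s, ∀ᶠ z in 𝓝 (0 : Fin g → ℂ), Function.Injective ((D s).X z))
    (r : Fin 2) (t t' : Fin 3 × Fin g) :
    RatIn (F4 D) (fun z => mat (rowU D r z) (rowV D r z) t t') := by
  have key : ∀ s : Fin 2, ∀ l : ℕ, RatIn (F4 D) (fun z =>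
      (bas (polyV ((D s).X z) ((D s).Y z)) t' %ₘ polyU ((D s).X z)).coeff l) := by
    intro s
    refine (h3 _ _ (F4 D) hF (fun z => bas (polyV ((D s).X z) ((D s).Y z)) t')
      (fun z => polyU ((D s).X z)) (2 * g) g ?_ (ratBas h1 D hF hinj s t') ?_
      (ratU h1 D hF s)).2
    · filter_upwards [hinj s] with z hz
      exact deg_bas _ (polyV_degree hz _) t'
    · exact Eventually.of_forall (fun z => ⟨polyU_monic _, polyU_natDegree _⟩)
  obtain ⟨a, i⟩ := t
  fin_cases a
  · exact key 0 i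
  · exact key 1 i
  · exact (h1 _ _ (F4 D) hF).1
      ((bas (-polyV (b (1 - r)) (c (1 - r))) t' %ₘ polyU (b (1 - r))).coeff i)

theorem ratRhs (h1 : Stmt_RC1) (h3 : Stmt_RC3) (D : ∀ r, Chart g f (b r) (c r))
    (hF : ContinuousAt (F4 D) 0) (r : Fin 2) (t : Fin 3 × Fin g) :
    RatIn (F4 D) (fun z => rhs (rowU D r z) t) := by
  obtain ⟨hconst, -, -, -, hneg, -⟩ := h1 _ _ (F4 D) hF
  have key : ∀ s : Fin 2, ∀ l : ℕ, RatIn (F4 D) (fun z =>
      ((X ^ (2 * g) : ℂ[X]) %ₘ polyU ((D s).X z)).coeff l) := by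
    intro s
    refine (h3 _ _ (F4 D) hF (fun _ => X ^ (2 * g))
      (fun z => polyU ((D s).X z)) (2 * g) g ?_ (fun l => hconst _) ?_
      (ratU h1 D hF s)).2
    · exact Eventually.of_forall (fun z => by rw [natDegree_X_pow])
    · exact Eventually.of_forall (fun z => ⟨polyU_monic _, polyU_natDegree _⟩)
  obtain ⟨a, i⟩ := t
  fin_cases a
  · exact hneg _ (key 0 i)
  · exact hneg _ (key 1 i)
  · exact hconst (-((X ^ (2 * g) : ℂ[X]) %ₘ polyU (b (1 - r))).coeff i)

/-- the solution -/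
def sol (D : ∀ r, Chart g f (b r) (c r)) (r : Fin 2) (z : Fin g → ℂ) : Fin 3 × Fin g → ℂ :=
  (mat (rowU D r z) (rowV D r z))⁻¹.mulVec (rhs (rowU D r z))

end main

theorem thm_LINSYS (h1 : Stmt_RC1) (h3 : Stmt_RC3) (h4 : Stmt_RC4) (hD : Stmt_ChartD) :
    Stmt_LinSys := by
  intro g hg f hf hdeg b c D hb r
  have hbs : ∀ s, Function.Injective (b s) := by
    intro s k k' h
    have := @hb (s, k) (s, k') h
    simpa using this
  have hch := fun s => hD g f (b s) (c s) (D s) (hbs s)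
  have hY : ∀ s k, AnalyticAt ℂ (fun z => (D s).Y z k) 0 := fun s => (hch s).1
  have hY0 : ∀ s k, (D s).Y 0 k = c s k := fun s => (hch s).2.2.1
  have hinj : ∀ s, ∀ᶠ z in 𝓝 (0 : Fin g → ℂ), Function.Injective ((D s).X z) := by
    intro s
    filter_upwards [(hch s).2.2.2.2] with z hz
    exact hz.1
  have hc : ∀ s k, c s k ≠ 0 := by
    intro s k
    have h5 := ((D s).β k).y_ne (b s k) (mem_ball_self ((D s).β k).rpos)
    rwa [((D s).β k).y_b] at h5
  have hFan : ∀ i, AnalyticAt ℂ (fun z => F4 D z i) 0 := F4_an D hbs hY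
  have hF : ContinuousAt (F4 D) 0 := continuousAt_pi.2 (fun i => (hFan i).continuousAt)
  have hM := ratRow h1 h3 D hF hinj r
  have hR := ratRhs h1 h3 D hF r
  have hX0 : ∀ s, (D s).X 0 = b s := fun s => (D s).X0
  have hYY : ∀ s, (D s).Y 0 = c s := fun s => funext (hY0 s)
  have hdet : (mat (g := g) (rowU D r 0) (rowV D r 0)).det ≠ 0 := by
    intro h
    obtain ⟨v, hv0, hv⟩ := Matrix.exists_mulVec_eq_zero_iff.2 h
    refine hv0 (ker_zero r b c hb hc (rowU D r 0) (rowV D r 0) ?_ ?_ ?_ ?_ ?_ ?_ v hv)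
    · simp [rowU, hX0]
    · simp [rowU, hX0]
    · simp [rowU]
    · simp [rowV, hX0, hYY]
    · simp [rowV, hX0, hYY]
    · simp [rowV]
  have hinv := h4 _ _ _ (F4 D) hF (fun z => mat (g := g) (rowU D r z) (rowV D r z)) hM hdet
  obtain ⟨-, -, -, hmul, -, -, -, hsum, -⟩ := h1 _ _ (F4 D) hF
  have hsol : ∀ t, RatIn (F4 D) (fun z => sol D r z t) := by
    intro t
    exact hsum _ Finset.univ _ (fun t' _ => hmul _ _ (hinv t t') (hR t'))
  have hdet' : ∀ᶠ z in 𝓝 (0 : Fin g → ℂ),
      (mat (g := g) (rowU D r z) (rowV D r z)).det ≠ 0 := by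
    have hcont : ContinuousAt (fun z => mat (g := g) (rowU D r z) (rowV D r z)) 0 :=
      continuousAt_pi.2 (fun t => continuousAt_pi.2
        (fun t' => (rat_an hFan (hM t t')).continuousAt))
    have h6 : Continuous (fun M : Matrix (Fin 3 × Fin g) (Fin 3 × Fin g) ℂ => M.det) :=
      continuous_id.matrix_det
    exact (h6.continuousAt.comp hcont).eventually_ne hdet
  have hev : ∀ᶠ z in 𝓝 (0 : Fin g → ℂ),
      (∀ q : Fin 2 × Fin g, (polyA (sol D r z)).eval ((D q.1).X z q.2) +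
        (polyB (sol D r z)).eval ((D q.1).X z q.2) * (D q.1).Y z q.2 = 0) ∧
      ∀ k, (polyA (sol D r z)).eval (b (1 - r) k) -
        (polyB (sol D r z)).eval (b (1 - r) k) * c (1 - r) k = 0 := by
    filter_upwards [hdet', hinj 0, hinj 1] with z hz i0 i1
    have hs : (mat (rowU D r z) (rowV D r z)).mulVec (sol D r z) = rhs (rowU D r z) := by
      unfold sol
      rw [Matrix.mulVec_mulVec, Matrix.mul_nonsing_inv _ (isUnit_iff_ne_zero.2 hz),
        Matrix.one_mulVec]
    have hdvd := sol_eval (rowU D r z) (rowV D r z) (rowU_monic D r z) (sol D r z) hs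
    constructor
    · rintro ⟨s, k⟩
      fin_cases s
      · have h5 : polyU ((D 0).X z) ∣ polyA (sol D r z) +
            polyB (sol D r z) * polyV ((D 0).X z) ((D 0).Y z) := hdvd 0
        have h6 := eval_of_dvd h5 k
        rw [eval_add, eval_mul, polyV_eval i0] at h6
        exact h6
      · have h5 : polyU ((D 1).X z) ∣ polyA (sol D r z) +
            polyB (sol D r z) * polyV ((D 1).X z) ((D 1).Y z) := hdvd 1
        have h6 := eval_of_dvd h5 k
        rw [eval_add, eval_mul, polyV_eval i1] at h6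
        exact h6
    · intro k
      have h5 : polyU (b (1 - r)) ∣ polyA (sol D r z) +
            polyB (sol D r z) * (-polyV (b (1 - r)) (c (1 - r))) := hdvd 2
      have h6 := eval_of_dvd h5 k
      rw [eval_add, eval_mul, eval_neg, polyV_eval (hbs (1 - r))] at h6
      rw [sub_eq_add_neg, ← mul_neg]
      exact h6
  have h0 := hev.self_of_nhds
  have hB0 : polyB (sol D r 0) = 0 := by
    refine B_zero (hbs (1 - r)) (fun k => ?_)
    have h5 := h0.1 (1 - r, k)
    have h6 := h0.2 k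
    simp only [hX0, hYY] at h5
    have h7 : 2 * c (1 - r) k * (polyB (sol D r 0)).eval (b (1 - r) k) = 0 := by
      linear_combination h5 - h6
    rcases mul_eq_zero.1 h7 with h8 | h8
    · exfalso
      rcases mul_eq_zero.1 h8 with h9 | h9
      · norm_num at h9
      · exact hc _ _ h9
    · exact h8
  have hA0 : polyA (sol D r 0) = ∏ q : Fin 2 × Fin g, (X - C (b q.1 q.2)) := by
    have hm1 : (∏ q : Fin 2 × Fin g, (X - C (b q.1 q.2))).Monic :=
      monic_prod_of_monic _ _ (fun q _ => monic_X_sub_C _)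
    have hd1 : (∏ q : Fin 2 × Fin g, (X - C (b q.1 q.2))).natDegree = 2 * g := by
      rw [natDegree_prod_of_monic _ _ (fun q _ => monic_X_sub_C _)]
      simp
    have hm2 : (polyA (sol D r 0)).Monic := by
      rw [polyA_eq]
      exact monic_X_pow_add (degree_A0 _)
    have hd2 : (polyA (sol D r 0)).natDegree = 2 * g := by
      rw [polyA_eq]
      refine natDegree_eq_of_degree_eq_some ?_
      rw [degree_add_eq_left_of_degree_lt (by rw [degree_X_pow]; exact degree_A0 _), degree_X_pow]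
    refine eq_of_monic_of_dvd_of_natDegree_le hm1 hm2 ?_ (by rw [hd1, hd2])
    refine Finset.prod_dvd_of_coprime ?_ ?_
    · intro q _ q' _ hqq
      exact isCoprime_X_sub_C_of_isUnit_sub
        (sub_ne_zero.2 (fun h => hqq (hb h))).isUnit
    · intro q _
      rw [dvd_iff_isRoot, IsRoot]
      have h5 := h0.1 q
      rw [hB0, eval_zero, zero_mul, add_zero, hX0] at h5
      exact h5
  refine ⟨sol D r, ?_, hA0, hB0, hsol, hev⟩
  exact analyticAt_pi_iff.2 (fun t => rat_an hFan (hsol t))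

end

end Pool.Agent.FDR.LINSYS
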