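import Pool.Agent.FDR.Stmts2

open scoped BigOperators Topology
open Metric Filter Set

namespace Pool.Agent.FDR.LOOP

noncomputable section

/-! ### operations on arcs -/

theorem rev_maps : Set.MapsTo (fun t : ℝ => 1 - t) (Icc 0 1) (Icc 0 1) := by
  intro t ht
  exact ⟨by linarith [ht.2], by linarith [ht.1]⟩

/-- the reversed arc -/
def rev {N : ℕ} (A : Arc N) : Arc N where
  x := fun t => A.x (1 - t)
  y := fun t => A.y (1 - t)
  hx := A.hx.comp ((contDiff_const.sub contDiff_id).contDiffOn) rev_maps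
  hy := A.hy.comp ((contDiff_const.sub contDiff_id).contDiffOn) rev_maps
  eqn := fun t ht => A.eqn (1 - t) (rev_maps ht)

theorem int_rev {N : ℕ} (A : Arc N) (a b : ℕ) : (rev A).int a b = - A.int a b := by
  unfold Arc.int rev
  have h : ∀ t : ℝ, A.x (1 - t) ^ (a - 1) * A.y (1 - t) ^ (b - 1) *
      (A.y (1 - t) * deriv (fun t => A.x (1 - t)) t - A.x (1 - t) * deriv (fun t => A.y (1 - t)) t)
      = (fun t => -(A.x t ^ (a - 1) * A.y t ^ (b - 1) *
      (A.y t * deriv A.x t - A.x t * deriv A.y t))) (1 - t) := by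
    intro t
    simp only [deriv_comp_const_sub]
    ring
  simp only [h]
  rw [intervalIntegral.integral_comp_sub_left
    (fun t => -(A.x t ^ (a - 1) * A.y t ^ (b - 1) * (A.y t * deriv A.x t - A.x t * deriv A.y t)))]
  simp [intervalIntegral.integral_neg]

/-- the arc with exchanged coordinates -/
def swap {N : ℕ} (A : Arc N) : Arc N where
  x := A.y
  y := A.x
  hx := A.hy
  hy := A.hx
  eqn := fun t ht => by rw [add_comm]; exact A.eqn t ht

theorem int_swap {N : ℕ} (A : Arc N) (a b : ℕ) : (swap A).int a b = - A.int b a := by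
  unfold Arc.int swap
  rw [← intervalIntegral.integral_neg]
  refine intervalIntegral.integral_congr fun t _ => ?_
  ring

/-- the arc multiplied by roots of unity -/
def scale {N : ℕ} (A : Arc N) (p q : ℂ) (hp : p ^ N = 1) (hq : q ^ N = 1) : Arc N where
  x := fun t => p * A.x t
  y := fun t => q * A.y t
  hx := contDiffOn_const.mul A.hx
  hy := contDiffOn_const.mul A.hy
  eqn := fun t ht => by rw [mul_pow, mul_pow, hp, hq, one_mul, one_mul]; exact A.eqn t ht

theorem int_scale {N : ℕ} (A : Arc N) (p q : ℂ) (hp : p ^ N = 1) (hq : q ^ N = 1) {a b : ℕ}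
    (ha : 0 < a) (hb : 0 < b) : (scale A p q hp hq).int a b = p ^ a * q ^ b * A.int a b := by
  unfold Arc.int scale
  rw [← intervalIntegral.integral_const_mul]
  refine intervalIntegral.integral_congr fun t _ => ?_
  simp only [deriv_const_mul_field]
  obtain ⟨a, rfl⟩ := Nat.exists_eq_add_of_lt ha
  obtain ⟨b, rfl⟩ := Nat.exists_eq_add_of_lt hb
  simp only [zero_add, Nat.add_sub_cancel, mul_pow, pow_succ]
  ring

/-! ### the basic arc -/

/-- `2 ^ (-1/N)` -/
def cc (N : ℕ) : ℝ := (1 / 2 : ℝ) ^ (1 / N : ℝ)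

theorem cc_pos (N : ℕ) : 0 < cc N := Real.rpow_pos_of_pos (by norm_num) _

theorem cc_pow {N : ℕ} (hN : 0 < N) : cc N ^ N = 1 / 2 := by
  unfold cc
  rw [← Real.rpow_natCast, ← Real.rpow_mul (by norm_num)]
  have : (N : ℝ) ≠ 0 := by positivity
  rw [one_div_mul_cancel this, Real.rpow_one]

theorem pow_le_half {N : ℕ} (hN : 0 < N) {u : ℝ} (h0 : 0 ≤ u) (h1 : u ≤ cc N) :
    u ^ N ≤ 1 / 2 := by
  rw [← cc_pow hN]
  exact pow_le_pow_left₀ h0 h1 N

/-- `(1 - u ^ N) ^ (1 / N)` -/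
def yy (N : ℕ) (u : ℝ) : ℝ := (1 - u ^ N) ^ (1 / N : ℝ)

theorem yy_pow {N : ℕ} (hN : 0 < N) {u : ℝ} (hu : u ^ N ≤ 1 / 2) : yy N u ^ N = 1 - u ^ N := by
  unfold yy
  rw [← Real.rpow_natCast, ← Real.rpow_mul (by linarith)]
  have : (N : ℝ) ≠ 0 := by positivity
  rw [one_div_mul_cancel this, Real.rpow_one]

theorem yy_cc {N : ℕ} (hN : 0 < N) : yy N (cc N) = cc N := by
  unfold yy
  rw [cc_pow hN]
  unfold cc
  norm_num

theorem yy_zero {N : ℕ} (hN : 0 < N) : yy N 0 = 1 := by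
  unfold yy
  rw [zero_pow hN.ne']
  simp

theorem maps_cc (N : ℕ) {t : ℝ} (ht : t ∈ Icc (0 : ℝ) 1) : 0 ≤ cc N * t ∧ cc N * t ≤ cc N :=
  ⟨mul_nonneg (cc_pos N).le ht.1, by nlinarith [cc_pos N, ht.2]⟩

theorem contDiffOn_yy {N : ℕ} (hN : 0 < N) :
    ContDiffOn ℝ 1 (fun t : ℝ => yy N (cc N * t)) (Icc 0 1) := by
  unfold yy
  refine ContDiffOn.rpow_const_of_ne ?_ ?_
  · exact contDiffOn_const.sub ((contDiffOn_const.mul contDiffOn_id).pow N)
  · intro t ht
    have := pow_le_half hN (maps_cc N ht).1 (maps_cc N ht).2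
    linarith

/-- the first half of the arc `κ` -/
def arc1 {N : ℕ} (hN : 0 < N) : Arc N where
  x := fun t => ((cc N * t : ℝ) : ℂ)
  y := fun t => ((yy N (cc N * t) : ℝ) : ℂ)
  hx := Complex.ofRealCLM.contDiff.comp_contDiffOn (contDiffOn_const.mul contDiffOn_id)
  hy := Complex.ofRealCLM.contDiff.comp_contDiffOn (contDiffOn_yy hN)
  eqn := fun t ht => by
    have h := pow_le_half hN (maps_cc N ht).1 (maps_cc N ht).2
    have h2 := yy_pow hN h
    rw [← Complex.ofReal_pow, ← Complex.ofReal_pow, h2, ← Complex.ofReal_add]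
    simp

theorem deriv_x {N : ℕ} (t : ℝ) :
    deriv (fun t : ℝ => ((cc N * t : ℝ) : ℂ)) t = ((cc N : ℝ) : ℂ) := by
  have h : HasDerivAt (fun t : ℝ => cc N * t) (cc N) t := by
    simpa using (hasDerivAt_id t).const_mul (cc N)
  exact h.ofReal_comp.deriv

theorem deriv_y {N : ℕ} (hN : 0 < N) {t : ℝ} (ht : t ∈ Icc (0 : ℝ) 1) :
    deriv (fun t : ℝ => ((yy N (cc N * t) : ℝ) : ℂ)) t =
      ((-(cc N * (cc N * t) ^ (N - 1) * (1 - (cc N * t) ^ N) ^ (1 / N - 1 : ℝ)) : ℝ) : ℂ) := by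
  have h0 : HasDerivAt (fun t : ℝ => cc N * t) (cc N) t := by
    simpa using (hasDerivAt_id t).const_mul (cc N)
  have h1 : HasDerivAt (fun t : ℝ => 1 - (cc N * t) ^ N)
      (-((N : ℝ) * (cc N * t) ^ (N - 1) * cc N)) t := by
    simpa using (h0.pow N).const_sub 1
  have hle := pow_le_half hN (maps_cc N ht).1 (maps_cc N ht).2
  have hne : (1 - (cc N * t) ^ N) ≠ 0 := by linarith
  have h2 := h1.rpow_const (p := (1 / N : ℝ)) (Or.inl hne)
  have h3 : HasDerivAt (fun t : ℝ => yy N (cc N * t))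
      (-(cc N * (cc N * t) ^ (N - 1) * (1 - (cc N * t) ^ N) ^ (1 / N - 1 : ℝ))) t := by
    unfold yy
    convert h2 using 1
    have : (N : ℝ) ≠ 0 := by positivity
    field_simp
  exact h3.ofReal_comp.deriv

theorem integrand {N : ℕ} (hN : 0 < N) {a b : ℕ} (hb : 0 < b) {t : ℝ}
    (ht : t ∈ Icc (0 : ℝ) 1) :
    (cc N * t) ^ (a - 1) * (yy N (cc N * t)) ^ (b - 1) * (yy N (cc N * t) * cc N - cc N * t *
      (-(cc N * (cc N * t) ^ (N - 1) * (1 - (cc N * t) ^ N) ^ (1 / N - 1 : ℝ)))) =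
    cc N * ((cc N * t) ^ (a - 1) * (1 - (cc N * t) ^ N) ^ (b / N - 1 : ℝ)) := by
  obtain ⟨b, rfl⟩ := Nat.exists_eq_add_of_lt hb
  simp only [zero_add, Nat.add_sub_cancel]
  set u := cc N * t with hu
  have hle := pow_le_half hN (maps_cc N ht).1 (maps_cc N ht).2
  rw [← hu] at hle
  have hpos : 0 < 1 - u ^ N := by linarith
  have hN' : (N : ℝ) ≠ 0 := by positivity
  have h1 : u * u ^ (N - 1) = u ^ N := by
    rw [← pow_succ', Nat.sub_add_cancel hN]
  have h2 : yy N u = (1 - u ^ N) ^ (1 / N - 1 : ℝ) * (1 - u ^ N) := by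
    unfold yy
    rw [Real.rpow_sub_one hpos.ne']
    field_simp
  have h3 : yy N u ^ b * (1 - u ^ N) ^ (1 / N - 1 : ℝ) =
      (1 - u ^ N) ^ (((b + 1 : ℕ) : ℝ) / N - 1 : ℝ) := by
    unfold yy
    rw [← Real.rpow_natCast, ← Real.rpow_mul hpos.le, ← Real.rpow_add hpos]
    congr 1
    push_cast
    field_simp
    ring
  rw [← h3]
  have h4 : yy N u * cc N - u * (-(cc N * u ^ (N - 1) * (1 - u ^ N) ^ (1 / N - 1 : ℝ))) =
      cc N * (1 - u ^ N) ^ (1 / N - 1 : ℝ) := by
    rw [h2]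
    have : u * (-(cc N * u ^ (N - 1) * (1 - u ^ N) ^ (1 / N - 1 : ℝ))) =
      -(cc N * (u * u ^ (N - 1)) * (1 - u ^ N) ^ (1 / N - 1 : ℝ)) := by ring
    rw [this, h1]
    ring
  rw [h4]
  ring

theorem int_arc1 {N : ℕ} (hN : 0 < N) {a b : ℕ} (hb : 0 < b) :
    (arc1 hN).int a b =
      ((∫ u in (0 : ℝ)..cc N, u ^ (a - 1) * (1 - u ^ N) ^ (b / N - 1 : ℝ) : ℝ) : ℂ) := by
  unfold Arc.int arc1
  simp only
  have h : ∀ t ∈ Set.uIcc (0 : ℝ) 1, ((cc N * t : ℝ) : ℂ) ^ (a - 1) *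
      ((yy N (cc N * t) : ℝ) : ℂ) ^ (b - 1) *
      (((yy N (cc N * t) : ℝ) : ℂ) * deriv (fun t : ℝ => ((cc N * t : ℝ) : ℂ)) t -
        ((cc N * t : ℝ) : ℂ) * deriv (fun t : ℝ => ((yy N (cc N * t) : ℝ) : ℂ)) t) =
      ((cc N * ((cc N * t) ^ (a - 1) * (1 - (cc N * t) ^ N) ^ (b / N - 1 : ℝ)) : ℝ) : ℂ) := by
    intro t ht
    rw [Set.uIcc_of_le zero_le_one] at ht
    rw [deriv_x, deriv_y hN ht, ← integrand hN hb ht]
    push_cast
    ring
  rw [intervalIntegral.integral_congr h, intervalIntegral.integral_ofReal]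
  congr 1
  rw [intervalIntegral.integral_const_mul,
    intervalIntegral.integral_comp_mul_left
      (fun u : ℝ => u ^ (a - 1) * (1 - u ^ N) ^ (b / N - 1 : ℝ)) (cc_pos N).ne']
  simp only [mul_zero, mul_one, smul_eq_mul]
  rw [← mul_assoc, mul_inv_cancel₀ (cc_pos N).ne', one_mul]

/-! ### the Beta integral -/

/-- the integrand of the Beta integral -/
def gg (N a b : ℕ) (x : ℝ) : ℂ := (x : ℂ) ^ ((a : ℂ) / N - 1) * (1 - (x : ℂ)) ^ ((b : ℂ) / N - 1)

theorem re_pos {N a : ℕ} (hN : 0 < N) (ha : 0 < a) : 0 < ((a : ℂ) / N).re := by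
  have : ((a : ℂ) / N) = (((a : ℝ) / N : ℝ) : ℂ) := by push_cast; rfl
  rw [this, Complex.ofReal_re]
  positivity

theorem gg_int {N a b : ℕ} (hN : 0 < N) (ha : 0 < a) (hb : 0 < b) :
    IntervalIntegrable (gg N a b) MeasureTheory.volume 0 1 :=
  Complex.betaIntegral_convergent (re_pos hN ha) (re_pos hN hb)

theorem gg_comp {N a b : ℕ} (hN : 0 < N) (ha : 0 < a) {u : ℝ} (h0 : 0 < u) (h1 : u ≤ cc N) :
    ((N : ℝ) * u ^ (N - 1)) • gg N a b (u ^ N) =
      (((N : ℝ) * (u ^ (a - 1) * (1 - u ^ N) ^ (b / N - 1 : ℝ)) : ℝ) : ℂ) := by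
  have hle := pow_le_half hN h0.le h1
  have hN' : (N : ℝ) ≠ 0 := by positivity
  have e1 : ((u ^ N : ℝ) : ℂ) ^ ((a : ℂ) / N - 1) = (((u ^ N) ^ ((a : ℝ) / N - 1) : ℝ) : ℂ) := by
    rw [Complex.ofReal_cpow (by positivity)]
    push_cast
    rfl
  have e2 : (1 - ((u ^ N : ℝ) : ℂ)) ^ ((b : ℂ) / N - 1) =
      (((1 - u ^ N) ^ ((b : ℝ) / N - 1) : ℝ) : ℂ) := by
    rw [Complex.ofReal_cpow (by linarith)]
    push_cast
    rfl
  unfold gg
  rw [e1, e2, Complex.real_smul, ← Complex.ofReal_mul, ← Complex.ofReal_mul]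
  congr 1
  have e3 : u ^ (N - 1) * (u ^ N) ^ ((a : ℝ) / N - 1) = u ^ (a - 1) := by
    rw [← Real.rpow_natCast u N, ← Real.rpow_mul h0.le, ← Real.rpow_natCast, ← Real.rpow_add h0,
      ← Real.rpow_natCast]
    congr 1
    rw [Nat.cast_sub hN, Nat.cast_sub ha]
    field_simp
    push_cast
    ring
  rw [← e3]
  ring

theorem half {N a b : ℕ} (hN : 0 < N) (ha : 0 < a) (hb : 0 < b) :
    ∫ x in (0 : ℝ)..(1 / 2), gg N a b x = N * (arc1 hN).int a b := by
  have hc := cc_pos N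
  have key := intervalIntegral.integral_deriv_smul_comp''' (a := 0) (b := cc N)
    (f := fun u : ℝ => u ^ N) (f' := fun u : ℝ => (N : ℝ) * u ^ (N - 1)) (g := gg N a b)
    (by fun_prop)
    (fun x _ => (hasDerivAt_pow N x).hasDerivWithinAt)
    (by
      intro x hx
      obtain ⟨u, hu, rfl⟩ := hx
      rw [min_eq_left hc.le, max_eq_right hc.le] at hu
      have hle := pow_le_half hN hu.1.le hu.2.le
      have hpos : 0 < u ^ N := pow_pos hu.1 N
      refine ContinuousAt.continuousWithinAt ?_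
      unfold gg
      refine ContinuousAt.mul ?_ ?_
      · refine ContinuousAt.cpow (Complex.continuous_ofReal.continuousAt) continuousAt_const ?_
        left
        rw [Complex.ofReal_re]
        exact hpos
      · refine ContinuousAt.cpow
          (continuousAt_const.sub Complex.continuous_ofReal.continuousAt) continuousAt_const ?_
        left
        simp only [Complex.sub_re, Complex.one_re, Complex.ofReal_re]
        linarith)
    (by
      have h1 := (gg_int (b := b) hN ha hb).1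
      rw [Set.uIcc_of_le hc.le]
      have h2 : MeasureTheory.IntegrableOn (gg N a b) (Icc 0 1) :=
        (integrableOn_Icc_iff_integrableOn_Ioc).mpr h1
      refine h2.mono_set ?_
      rintro _ ⟨u, hu, rfl⟩
      exact ⟨pow_nonneg hu.1 N, (pow_le_half hN hu.1 hu.2).trans (by norm_num)⟩)
    (by
      rw [Set.uIcc_of_le hc.le, integrableOn_Icc_iff_integrableOn_Ioc]
      have h3 : MeasureTheory.IntegrableOn (fun u : ℝ =>
          (((N : ℝ) * (u ^ (a - 1) * (1 - u ^ N) ^ (b / N - 1 : ℝ)) : ℝ) : ℂ)) (Ioc 0 (cc N)) := by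
        refine (ContinuousOn.integrableOn_Icc ?_).mono_set Ioc_subset_Icc_self
        refine Complex.continuous_ofReal.comp_continuousOn ?_
        refine continuousOn_const.mul ((continuousOn_id.pow _).mul ?_)
        refine ContinuousOn.rpow_const (by fun_prop) fun u hu => Or.inl ?_
        have := pow_le_half hN hu.1 hu.2
        linarith
      refine h3.congr_fun ?_ measurableSet_Ioc
      intro u hu
      exact (gg_comp hN ha hu.1 hu.2).symm)
  rw [zero_pow hN.ne', cc_pow hN] at key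
  rw [← key, int_arc1 hN hb, ← intervalIntegral.integral_ofReal,
    ← intervalIntegral.integral_const_mul]
  refine intervalIntegral.integral_congr_ae (MeasureTheory.ae_of_all _ fun u hu => ?_)
  rw [Set.uIoc_of_le hc.le] at hu
  have := gg_comp (b := b) hN ha hu.1 hu.2
  simp only [Function.comp]
  rw [this]
  push_cast
  rfl

theorem gg_symm (N a b : ℕ) (x : ℝ) : gg N a b (1 - x) = gg N b a x := by
  unfold gg
  push_cast
  rw [sub_sub_cancel, mul_comm]

theorem beta_eq {N a b : ℕ} (hN : 0 < N) (ha : 0 < a) (hb : 0 < b) :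
    Complex.betaIntegral (a / N) (b / N) =
      N * ((arc1 hN).int a b + (arc1 hN).int b a) := by
  have h1 : Complex.betaIntegral (a / N) (b / N) = ∫ x in (0 : ℝ)..1, gg N a b x := rfl
  have hi := gg_int (b := b) hN ha hb
  have hi1 : IntervalIntegrable (gg N a b) MeasureTheory.volume 0 (1 / 2) :=
    hi.mono_set (by
      rw [Set.uIcc_of_le (by norm_num), Set.uIcc_of_le (by norm_num)]
      exact Icc_subset_Icc le_rfl (by norm_num))
  have hi2 : IntervalIntegrable (gg N a b) MeasureTheory.volume (1 / 2) 1 :=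
    hi.mono_set (by
      rw [Set.uIcc_of_le (by norm_num), Set.uIcc_of_le (by norm_num)]
      exact Icc_subset_Icc (by norm_num) le_rfl)
  rw [h1, ← intervalIntegral.integral_add_adjacent_intervals hi1 hi2, half hN ha hb, mul_add,
    ← half hN hb ha]
  congr 1
  have h2 := intervalIntegral.integral_comp_sub_left (a := 0) (b := 1 / 2) (gg N a b) 1
  simp only [gg_symm] at h2
  rw [h2]
  norm_num

/-! ### the loop -/

/-- the second half of the arc `κ` -/
def arc2 {N : ℕ} (hN : 0 < N) : Arc N := rev (swap (arc1 hN))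

theorem int_arc2 {N : ℕ} (hN : 0 < N) (a b : ℕ) :
    (arc2 hN).int a b = (arc1 hN).int b a := by
  unfold arc2
  rw [int_rev, int_swap, neg_neg]

theorem zeta_pow {N : ℕ} (hN : 0 < N) : zeta N ^ N = 1 := by
  unfold zeta
  rw [← Complex.exp_nat_mul]
  have : (N : ℂ) * (2 * Real.pi * Complex.I / N) = 2 * Real.pi * Complex.I := by
    have : (N : ℂ) ≠ 0 := by exact_mod_cast hN.ne'
    field_simp
  rw [this, Complex.exp_two_pi_mul_I]

theorem zeta_pow_pow {N : ℕ} (hN : 0 < N) (r : ℕ) : (zeta N ^ r) ^ N = 1 := by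
  rw [← pow_mul, mul_comm, pow_mul, zeta_pow hN, one_pow]

/-- the eight arcs -/
def arcs {N : ℕ} (hN : 0 < N) (r s : ℕ) : Fin 8 → Arc N :=
  ![scale (arc1 hN) (zeta N ^ r) (zeta N ^ s) (zeta_pow_pow hN _) (zeta_pow_pow hN _),
    scale (arc2 hN) (zeta N ^ r) (zeta N ^ s) (zeta_pow_pow hN _) (zeta_pow_pow hN _),
    rev (scale (arc2 hN) (zeta N ^ r) (zeta N ^ (s + 1)) (zeta_pow_pow hN _) (zeta_pow_pow hN _)),
    rev (scale (arc1 hN) (zeta N ^ r) (zeta N ^ (s + 1)) (zeta_pow_pow hN _) (zeta_pow_pow hN _)),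
    scale (arc1 hN) (zeta N ^ (r + 1)) (zeta N ^ (s + 1)) (zeta_pow_pow hN _)
      (zeta_pow_pow hN _),
    scale (arc2 hN) (zeta N ^ (r + 1)) (zeta N ^ (s + 1)) (zeta_pow_pow hN _)
      (zeta_pow_pow hN _),
    rev (scale (arc2 hN) (zeta N ^ (r + 1)) (zeta N ^ s) (zeta_pow_pow hN _)
      (zeta_pow_pow hN _)),
    rev (scale (arc1 hN) (zeta N ^ (r + 1)) (zeta N ^ s) (zeta_pow_pow hN _)
      (zeta_pow_pow hN _))]

/-- the loop -/
def loop {N : ℕ} (hN : 0 < N) (r s : ℕ) : Loop N where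
  m := 8
  arc := arcs hN r s
  closed := by
    intro i
    fin_cases i <;>
      simp [arcs, scale, rev, swap, arc1, arc2, yy_zero hN, yy_cc hN]

theorem thm_LOOP : Stmt_Loop := by
  intro N hN r s
  refine ⟨loop hN r s, fun p => ?_⟩
  have ha : 0 < p.a := p.2.1
  have hb : 0 < p.b := p.2.2.1
  have hN' : (N : ℂ) ≠ 0 := by exact_mod_cast hN.ne'
  have hper : (loop hN r s).per p = ∑ i : Fin 8, (arcs hN r s i).int p.a p.b := rfl
  rw [hper, Fin.sum_univ_eight]
  unfold fper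
  rw [beta_eq hN ha hb]
  simp only [arcs, Matrix.cons_val]
  simp only [int_rev, int_scale _ _ _ _ _ ha hb, int_arc2]
  simp only [← pow_mul]
  have e1 : zeta N ^ (r * p.a + s * p.b) = zeta N ^ (r * p.a) * zeta N ^ (s * p.b) := pow_add _ _ _
  have e2 : zeta N ^ ((s + 1) * p.b) = zeta N ^ (s * p.b) * zeta N ^ p.b := by
    rw [add_mul, one_mul, pow_add]
  have e3 : zeta N ^ ((r + 1) * p.a) = zeta N ^ (r * p.a) * zeta N ^ p.a := by
    rw [add_mul, one_mul, pow_add]
  rw [e1, e2, e3]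
  field_simp
  ring

end

end Pool.Agent.FDR.LOOP
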