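import Pool.Agent.FDR.Stmts2

/-!
# FDR, module MAIN2: assembly
-/

namespace Pool.Agent.FDR.MAIN2

theorem thm_MAIN2 (hDesc : Stmt_Desc) (hCore : Stmt_Core2) (hOdd : Stmt_Odd)
    (hOdd2 : Stmt_Odd2) : Stmt_Main2 := by
  intro n N k hN α hα I hI
  have hdeg : ∀ j, ∃ ℓ K, ℓ.Prime ∧ OddAt ℓ ∧ 0 < K ∧ (N j = ℓ ^ K ∨ N j = 2 * ℓ ^ K) := by
    intro j
    obtain ⟨ℓ, K, s, hp, hs, hK, hNj⟩ := hN j
    refine ⟨ℓ, K, hp, ?_, hK, hNj⟩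
    rcases Nat.eq_zero_or_pos s with h0 | h0
    · have : ℓ = 2 := by rw [hs, h0]; rfl
      rw [this]
      exact hOdd2
    · exact hOdd ℓ ⟨hp, s, h0, hs⟩
  have hpos : ∀ j, 0 < N j := by
    intro j
    obtain ⟨ℓ, K, hp, -, -, h | h⟩ := hdeg j
    · rw [h]; exact pow_pos hp.pos K
    · rw [h]; exact Nat.mul_pos two_pos (pow_pos hp.pos K)
  exact hCore n N k hdeg I fun t ht => hDesc n N k α hpos hα I hI t ht

end Pool.Agent.FDR.MAIN2
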