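import Pool.Agent.FDR.PD

/-!
# FDR, module MUM: the Mumford vector fields in coordinates
-/

open scoped BigOperators Polynomial Topology
open Metric Filter

namespace Pool.Agent.FDR.MUM

open Pool.Agent.FDR.PDL

noncomputable section

/-! ### The recursion -/

theorem rec_coeff {g : ℕ} (Q : Fin g → ℂ[X]) (N : ℕ) (hN : g ≤ N) (G : ℕ → ℂ[X])
    (S : Set ℂ) (hS : S.Infinite)
    (h : ∀ a ∈ S, (Polynomial.X - Polynomial.C a) * ∑ j : Fin g, Polynomial.C (a ^ (j : ℕ)) * Q j =
      ∑ i ∈ Finset.range N, Polynomial.C (a ^ i) * G i) (j : Fin g) (l : ℕ) :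
    (Q j).coeff l = ∑ t ∈ Finset.range (j + 1), (G (j - t)).coeff (l + 1 + t) := by
  -- the polynomial identity in `a`
  have key : ∀ l : ℕ, (∑ j : Fin g, Polynomial.C ((Q j).coeff l) * Polynomial.X ^ (j : ℕ)) -
      Polynomial.X * (∑ j : Fin g, Polynomial.C ((Q j).coeff (l + 1)) * Polynomial.X ^ (j : ℕ)) =
      ∑ i ∈ Finset.range N, Polynomial.C ((G i).coeff (l + 1)) * (Polynomial.X : ℂ[X]) ^ i := by
    intro l
    apply Polynomial.eq_of_infinite_eval_eq
    refine hS.mono ?_
    intro a ha
    have h1 := congrArg (fun p : ℂ[X] => p.coeff (l + 1)) (h a ha)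
    simp only [sub_mul, Polynomial.coeff_sub, Polynomial.coeff_X_mul, Polynomial.coeff_C_mul,
      Polynomial.finsetSum_coeff] at h1
    simp only [Set.mem_ofPred_eq, Polynomial.eval_sub, Polynomial.eval_mul, Polynomial.eval_X,
      Polynomial.eval_finsetSum, Polynomial.eval_C, Polynomial.eval_pow]
    have h2 : ∀ i ∈ Finset.range N, (G i).coeff (l + 1) * a ^ i = a ^ i * (G i).coeff (l + 1) :=
      fun i _ => mul_comm _ _
    rw [Finset.sum_congr rfl h2, ← h1]
    congr 1
    · exact Finset.sum_congr rfl fun j _ => mul_comm _ _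
    · congr 1
      exact Finset.sum_congr rfl fun j _ => mul_comm _ _
  have hcoef : ∀ (l m : ℕ) (hm : m < g), (∑ j : Fin g, Polynomial.C ((Q j).coeff l) *
      (Polynomial.X : ℂ[X]) ^ (j : ℕ)).coeff m = (Q ⟨m, hm⟩).coeff l := by
    intro l m hm
    simp only [Polynomial.finsetSum_coeff, Polynomial.coeff_C_mul, Polynomial.coeff_X_pow]
    rw [Finset.sum_eq_single ⟨m, hm⟩]
    · simp
    · intro b _ hb
      have : m ≠ (b : ℕ) := fun e => hb (Fin.ext e.symm)
      simp [this]
    · intro hh
      exact absurd (Finset.mem_univ _) hh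
  have hcoefR : ∀ (l m : ℕ) (_ : m < N), (∑ i ∈ Finset.range N,
      Polynomial.C ((G i).coeff (l + 1)) * (Polynomial.X : ℂ[X]) ^ i).coeff m =
      (G m).coeff (l + 1) := by
    intro l m hm
    simp only [Polynomial.finsetSum_coeff, Polynomial.coeff_C_mul, Polynomial.coeff_X_pow]
    rw [Finset.sum_eq_single m]
    · simp
    · intro b _ hb
      simp [hb.symm]
    · intro hh
      exact absurd (Finset.mem_range.2 hm) hh
  have hrec : ∀ (n : ℕ) (hn : n < g) (l : ℕ), (Q ⟨n, hn⟩).coeff l =
      ∑ t ∈ Finset.range (n + 1), (G (n - t)).coeff (l + 1 + t) := by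
    intro n
    induction n with
    | zero =>
      intro hn l
      have h1 := congrArg (fun p : ℂ[X] => p.coeff 0) (key l)
      simp only [Polynomial.coeff_sub, Polynomial.coeff_X_mul_zero, sub_zero] at h1
      rw [hcoef l 0 hn, hcoefR l 0 (lt_of_lt_of_le hn hN)] at h1
      simpa using h1
    | succ n ih =>
      intro hn l
      have h1 := congrArg (fun p : ℂ[X] => p.coeff (n + 1)) (key l)
      simp only [Polynomial.coeff_sub, Polynomial.coeff_X_mul] at h1
      rw [hcoef l (n + 1) hn, hcoef (l + 1) n (by omega),
        hcoefR l (n + 1) (lt_of_lt_of_le hn hN), ih (by omega) (l + 1)] at h1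
      rw [sub_eq_iff_eq_add] at h1
      rw [Finset.sum_range_succ', h1, add_comm]
      simp only [Nat.sub_zero, add_zero]
      congr 1
      refine Finset.sum_congr rfl ?_
      intro t _
      have e1 : n - t = n + 1 - (t + 1) := by omega
      have e2 : l + 1 + 1 + t = l + 1 + (t + 1) := by omega
      rw [e1, e2]
  exact hrec j j.2 l

/-! ### Facts on the Lagrange basis -/

section point

variable {g : ℕ} (x : Fin g → ℂ)

/-- `∏ l ≠ k, (X - x l)` -/
def M (k : Fin g) : ℂ[X] :=
  ∏ l ∈ Finset.univ.erase k, (Polynomial.X - Polynomial.C (x l))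

theorem polyU_eq (k : Fin g) :
    polyU x = (Polynomial.X - Polynomial.C (x k)) * M x k := by
  unfold polyU M
  exact (Finset.mul_prod_erase Finset.univ (fun l => Polynomial.X - Polynomial.C (x l))
    (Finset.mem_univ k)).symm

theorem M_eval_ne (hx : Function.Injective x) (k : Fin g) : (M x k).eval (x k) ≠ 0 := by
  unfold M
  rw [Polynomial.eval_prod, Finset.prod_ne_zero_iff]
  intro l hl
  simp only [Polynomial.eval_sub, Polynomial.eval_X, Polynomial.eval_C]
  exact sub_ne_zero.2 fun h => (Finset.ne_of_mem_erase hl) (hx h).symm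

theorem M_eq (hx : Function.Injective x) (k : Fin g) :
    M x k = Polynomial.C ((M x k).eval (x k)) * Lagrange.basis Finset.univ x k := by
  unfold Lagrange.basis Lagrange.basisDivisor
  rw [Finset.prod_mul_distrib]
  have h1 : (M x k).eval (x k) = ∏ l ∈ Finset.univ.erase k, (x k - x l) := by
    unfold M
    rw [Polynomial.eval_prod]
    simp
  rw [← map_prod, ← mul_assoc, ← Polynomial.C_mul, h1]
  have h2 : (∏ l ∈ Finset.univ.erase k, (x k - x l)) *
      ∏ l ∈ Finset.univ.erase k, (x k - x l)⁻¹ = 1 := by
    rw [← Finset.prod_mul_distrib]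
    refine Finset.prod_eq_one ?_
    intro l hl
    refine mul_inv_cancel₀ (sub_ne_zero.2 fun h => (Finset.ne_of_mem_erase hl) (hx h).symm)
  rw [h2, Polynomial.C_1, one_mul]
  rfl

theorem basis_natDegree_lt (hx : Function.Injective x) (k : Fin g) :
    (Lagrange.basis Finset.univ x k).natDegree < g := by
  have hg : 0 < g := lt_of_le_of_lt (Nat.zero_le _) k.2
  have h1 := Lagrange.degree_basis (s := Finset.univ) (v := x) (i := k)
    (fun a _ b _ h => hx h) (Finset.mem_univ k)
  have h2 := Polynomial.natDegree_eq_of_degree_eq_some h1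
  rw [h2, Finset.card_univ, Fintype.card_fin]
  omega

theorem eval_basis (hx : Function.Injective x) (k : Fin g) (a : ℂ) :
    (Lagrange.basis Finset.univ x k).eval a = ∑ j : Fin g, a ^ (j : ℕ) * lagC x k j := by
  rw [Polynomial.eval_eq_sum_range' (basis_natDegree_lt x hx k), ← Fin.sum_univ_eq_sum_range
    (fun i => (Lagrange.basis Finset.univ x k).coeff i * a ^ i) g]
  refine Finset.sum_congr rfl fun j _ => ?_
  unfold lagC
  ring

theorem eval_polyU (hx : Function.Injective x) (k : Fin g) (a : ℂ) :
    (polyU x).eval a =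
      (a - x k) * ((M x k).eval (x k) * (Lagrange.basis Finset.univ x k).eval a) := by
  have h := congrArg (fun p : ℂ[X] => p.eval a) (M_eq x hx k)
  simp only [Polynomial.eval_mul, Polynomial.eval_C] at h
  rw [polyU_eq x k, Polynomial.eval_mul, h]
  simp

theorem U_identity (hx : Function.Injective x) (y : Fin g → ℂ) (a : ℂ) :
    (Polynomial.X - Polynomial.C a) *
      (∑ k, Polynomial.C (y k * (Lagrange.basis Finset.univ x k).eval a) * M x k) =
    Polynomial.C ((polyV x y).eval a) * polyU x - Polynomial.C ((polyU x).eval a) * polyV x y := by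
  have h1 : (polyV x y).eval a = ∑ k, y k * (Lagrange.basis Finset.univ x k).eval a := by
    unfold polyV
    rw [Lagrange.interpolate_apply, Polynomial.eval_finsetSum]
    simp
  have h2 : polyV x y = ∑ k, Polynomial.C (y k) * Lagrange.basis Finset.univ x k := by
    unfold polyV
    rw [Lagrange.interpolate_apply]
  rw [h1, map_sum, Finset.sum_mul, Finset.mul_sum]
  have h3 : Polynomial.C ((polyU x).eval a) * polyV x y = ∑ k,
      Polynomial.C ((polyU x).eval a) * (Polynomial.C (y k) *
        Lagrange.basis Finset.univ x k) := by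
    rw [h2, Finset.mul_sum]
  rw [h3, ← Finset.sum_sub_distrib]
  refine Finset.sum_congr rfl ?_
  intro k _
  rw [eval_polyU x hx k a]
  have h4 := M_eq x hx k
  have h5 : Polynomial.C ((a - x k) * ((M x k).eval (x k) *
      (Lagrange.basis Finset.univ x k).eval a)) * (Polynomial.C (y k) *
      Lagrange.basis Finset.univ x k) = (Polynomial.C a - Polynomial.C (x k)) *
      Polynomial.C ((Lagrange.basis Finset.univ x k).eval a) * Polynomial.C (y k) *
      (Polynomial.C ((M x k).eval (x k)) * Lagrange.basis Finset.univ x k) := by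
    simp only [map_mul, map_sub]
    ring
  rw [h5, ← h4, polyU_eq x k]
  simp only [map_mul]
  ring

theorem polyU_monic : (polyU x).Monic :=
  Polynomial.monic_prod_of_monic _ _ fun _ _ => Polynomial.monic_X_sub_C _

theorem polyU_natDegree : (polyU x).natDegree = g := by
  unfold polyU
  rw [Polynomial.natDegree_prod_of_monic _ _ fun k _ => Polynomial.monic_X_sub_C _]
  simp

theorem polyV_degree_lt (hx : Function.Injective x) (y : Fin g → ℂ) :
    (polyV x y).degree < (g : ℕ) := by
  have := Lagrange.degree_interpolate_lt (s := Finset.univ) (v := x) y (fun a _ b _ h => hx h)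
  simpa [polyV] using this

theorem polyV_eval (hx : Function.Injective x) (y : Fin g → ℂ) (k : Fin g) :
    (polyV x y).eval (x k) = y k :=
  Lagrange.eval_interpolate_at_node y (fun a _ b _ h => hx h) (Finset.mem_univ k)

theorem U_dvd (hx : Function.Injective x) (p : ℂ[X]) (hp : ∀ k, p.eval (x k) = 0) :
    polyU x ∣ p := by
  unfold polyU
  refine Finset.prod_dvd_of_coprime ?_ ?_
  · exact (Polynomial.pairwise_coprime_X_sub_C hx).set_pairwise _
  · intro k _
    exact Polynomial.dvd_iff_isRoot.2 (hp k)

theorem U_mul_W (hx : Function.Injective x) (y : Fin g → ℂ) (f : ℂ[X])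
    (hf : ∀ k, y k ^ 2 = f.eval (x k)) : polyU x * polyW f x y = f - polyV x y ^ 2 := by
  have h1 : polyU x ∣ f - polyV x y ^ 2 := by
    apply U_dvd x hx
    intro k
    simp [polyV_eval x hx y k, hf k]
  have h2 := Polynomial.modByMonic_add_div (f - polyV x y ^ 2) (polyU x)
  rw [(Polynomial.modByMonic_eq_zero_iff_dvd (polyU_monic x)).2 h1, zero_add] at h2
  exact h2

theorem W_monic (hx : Function.Injective x) (y : Fin g → ℂ) (f : ℂ[X])
    (hf : ∀ k, y k ^ 2 = f.eval (x k)) (hm : f.Monic) (hd : f.natDegree = 2 * g + 1)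
    (hg : 0 < g) : (polyW f x y).Monic ∧ (polyW f x y).natDegree = g + 1 := by
  have hV : (polyV x y).natDegree ≤ g - 1 := by
    by_cases h0 : polyV x y = 0
    · simp [h0]
    · have := (Polynomial.natDegree_lt_iff_degree_lt h0).2 (polyV_degree_lt x hx y)
      omega
  have hV2 : (polyV x y ^ 2).natDegree < f.natDegree := by
    have := Polynomial.natDegree_pow_le (p := polyV x y) (n := 2)
    omega
  have h1 : (f - polyV x y ^ 2).Monic := by
    apply hm.sub_of_left
    exact Polynomial.degree_lt_degree hV2
  have h2 : (f - polyV x y ^ 2).natDegree = 2 * g + 1 := by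
    rw [Polynomial.natDegree_sub_eq_left_of_natDegree_lt hV2, hd]
  rw [← U_mul_W x hx y f hf] at h1 h2
  have h3 := (polyU_monic x).of_mul_monic_left h1
  refine ⟨h3, ?_⟩
  rw [(polyU_monic x).natDegree_mul h3, polyU_natDegree] at h2
  omega

/-- The identity for the derivative of `V`. -/
theorem V_identity (hx : Function.Injective x) (y : Fin g → ℂ) (f : ℂ[X])
    (hf : ∀ k, y k ^ 2 = f.eval (x k)) (hm : f.Monic) (hd : f.natDegree = 2 * g + 1)
    (hg : 0 < g) (a : ℂ) (ha : ∀ k, a ≠ x k) (D : ℂ[X]) (hD : D.natDegree < g)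
    (hDx : ∀ k, D.eval (x k) = ((Polynomial.derivative f).eval (x k) / 2 -
      (Polynomial.derivative (polyV x y)).eval (x k) * y k) *
      (Lagrange.basis Finset.univ x k).eval a) :
    (Polynomial.X - Polynomial.C a) * D = Polynomial.C (1 / 2) *
      ((Polynomial.X - Polynomial.C a) * (Polynomial.C ((polyU x).eval a) * polyU x) -
        (Polynomial.C ((polyU x).eval a) * polyW f x y -
          Polynomial.C ((polyW f x y).eval a) * polyU x)) := by
  obtain ⟨hWm, hWd⟩ := W_monic x hx y f hf hm hd hg
  rw [← sub_eq_zero]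
  have hinj : Function.Injective (fun o : Option (Fin g) => o.elim a x) := by
    intro o o' h
    cases o with
    | none =>
      cases o' with
      | none => rfl
      | some k => exact absurd h (ha k)
    | some k =>
      cases o' with
      | none => exact absurd h.symm (ha k)
      | some k' => exact congrArg some (hx h)
  refine Polynomial.eq_zero_of_natDegree_lt_card_of_eval_eq_zero _ hinj ?_ ?_
  · intro o
    cases o with
    | none =>
      simp only [Option.elim_none, Polynomial.eval_sub, Polynomial.eval_mul, Polynomial.eval_X,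
        Polynomial.eval_C]
      ring
    | some k =>
      have hUk : (polyU x).eval (x k) = 0 := by
        rw [polyU_eq x k]
        simp
      have hder := congrArg (fun p : ℂ[X] => (Polynomial.derivative p).eval (x k))
        (U_mul_W x hx y f hf)
      have hdU : (Polynomial.derivative (polyU x)).eval (x k) = (M x k).eval (x k) := by
        rw [polyU_eq x k]
        simp
      simp only [Polynomial.derivative_mul, Polynomial.derivative_sub, Polynomial.derivative_pow,
        Polynomial.eval_add, Polynomial.eval_mul, Polynomial.eval_sub, Polynomial.eval_pow,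
        polyV_eval x hx y k, hUk, hdU, zero_mul, add_zero, Polynomial.eval_C] at hder
      simp only [Option.elim_some, Polynomial.eval_sub, Polynomial.eval_mul, Polynomial.eval_X,
        Polynomial.eval_C, hDx k, hUk]
      rw [eval_polyU x hx k a]
      have h6 : (Polynomial.derivative f).eval (x k) / 2 -
          (Polynomial.derivative (polyV x y)).eval (x k) * y k =
          (M x k).eval (x k) * (polyW f x y).eval (x k) / 2 := by
        rw [hder]
        norm_num
        ring
      rw [h6]
      ring
  · rw [Fintype.card_option, Fintype.card_fin, Nat.lt_succ_iff]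
    rw [Polynomial.natDegree_le_iff_coeff_eq_zero]
    intro N hN
    obtain ⟨n, rfl⟩ : ∃ n, N = n + 1 := ⟨N - 1, by omega⟩
    have hn : g ≤ n := by omega
    have c1 : ∀ p : ℂ[X], ((Polynomial.X - Polynomial.C a) * p).coeff (n + 1) =
        p.coeff n - p.coeff (n + 1) * a := by
      intro p
      rw [mul_comm, Polynomial.coeff_mul_X_sub_C]
    have d1 : ∀ m, g ≤ m → D.coeff m = 0 := fun m hm' =>
      Polynomial.coeff_eq_zero_of_natDegree_lt (lt_of_lt_of_le hD hm')
    have d2 : ∀ m, g < m → (polyU x).coeff m = 0 := fun m hm' =>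
      Polynomial.coeff_eq_zero_of_natDegree_lt (by rw [polyU_natDegree]; exact hm')
    have d3 : ∀ m, g + 1 < m → (polyW f x y).coeff m = 0 := fun m hm' =>
      Polynomial.coeff_eq_zero_of_natDegree_lt (by rw [hWd]; exact hm')
    simp only [Polynomial.coeff_sub, Polynomial.coeff_C_mul, c1]
    rw [d1 n hn, d1 (n + 1) (by omega), d2 (n + 1) (by omega)]
    rcases Nat.eq_or_lt_of_le hn with h7 | h7
    · subst h7
      have e1 : (polyU x).coeff g = 1 := by
        have := polyU_monic x
        rwa [Polynomial.Monic, Polynomial.leadingCoeff, polyU_natDegree] at this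
      have e2 : (polyW f x y).coeff (g + 1) = 1 := by
        rwa [Polynomial.Monic, Polynomial.leadingCoeff, hWd] at hWm
      rw [e1, e2]
      ring
    · rw [d2 n h7, d3 (n + 1) (by omega)]
      ring

end point

/-! ### The module -/

theorem eval_eq_range (p : ℂ[X]) (n : ℕ) (h : p.natDegree < n) (a : ℂ) :
    p.eval a = ∑ i ∈ Finset.range n, a ^ i * p.coeff i := by
  rw [Polynomial.eval_eq_sum_range' h]
  exact Finset.sum_congr rfl fun i _ => mul_comm _ _

theorem thm_MUM (hChartD : Stmt_ChartD) : Stmt_Mum := by
  intro g f hm hd b c C hb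
  rcases Nat.eq_zero_or_pos g with hg0 | hg
  · subst hg0
    exact Filter.Eventually.of_forall fun z j => j.elim0
  have hXan : ∀ k, AnalyticAt ℂ (fun z => C.X z k) 0 := by
    intro k
    exact (analyticAt_pi_iff (f := fun k z => C.X z k)).1 C.an k
  obtain ⟨hYan, _, _, _, hev⟩ := hChartD g f b c C hb
  have e1 : ∀ᶠ z in 𝓝 (0 : Fin g → ℂ), ∀ k, AnalyticAt ℂ (fun z => C.X z k) z := by
    rw [Filter.eventually_all]
    exact fun k => (hXan k).eventually_analyticAt
  have e2 : ∀ᶠ z in 𝓝 (0 : Fin g → ℂ), ∀ k, AnalyticAt ℂ (fun z => C.Y z k) z := by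
    rw [Filter.eventually_all]
    exact fun k => (hYan k).eventually_analyticAt
  filter_upwards [e1, e2, hev.eventually_nhds] with z hX hY hev'
  obtain ⟨hinj, hYz, hder⟩ := hev'.self_of_nhds
  have hxne : ∀ k l, k ≠ l → C.X z k - C.X z l ≠ 0 := fun k l hkl =>
    sub_ne_zero.2 fun h => hkl (hinj h)
  -- analyticity of `V`
  have hV : AnP (fun z => polyV (C.X z) (C.Y z)) z := by
    have h1 : (fun z => polyV (C.X z) (C.Y z)) = fun z => ∑ k, Polynomial.C (C.Y z k) *
        ∏ l ∈ Finset.univ.erase k, (Polynomial.C ((C.X z k - C.X z l)⁻¹) *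
          (Polynomial.X - Polynomial.C (C.X z l))) := by
      funext z
      unfold polyV
      rw [Lagrange.interpolate_apply]
      rfl
    rw [h1]
    refine AnP.sum _ fun k _ => (AnP.C (hY k)).mul (AnP.prod _ fun l hl => ?_)
    refine (AnP.C ?_).mul ((AnP.const _ _).sub (AnP.C (hX l)))
    exact ((hX k).sub (hX l)).inv (hxne k l (Finset.ne_of_mem_erase hl).symm)
  have hVdeg : ∀ᶠ w in 𝓝 z, (polyV (C.X w) (C.Y w)).natDegree < g := by
    filter_upwards [hev'] with w hw
    by_cases h0 : polyV (C.X w) (C.Y w) = 0
    · rw [h0]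
      simpa using hg
    · exact (Polynomial.natDegree_lt_iff_degree_lt h0).2 (polyV_degree_lt _ hw.1 _)
  choose QV hQVdeg hQV using fun j : Fin g => PD_of_AnP (v := Pi.single j (1 : ℂ)) hV hVdeg
  -- derivative of `U`
  have hU : ∀ j : Fin g, PD (fun z => polyU (C.X z)) z (Pi.single j 1)
      (-∑ k, Polynomial.C (C.Y z k * lagC (C.X z) k j) * M (C.X z) k) := by
    intro j
    have h1 : PD (fun z => polyU (C.X z)) z (Pi.single j 1)
      (-∑ k ∈ Finset.univ, Polynomial.C (fderiv ℂ (fun z => C.X z k) z (Pi.single j 1)) *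
        ∏ l ∈ Finset.univ.erase k, (Polynomial.X - Polynomial.C (C.X z l))) :=
      PD.prod_X_sub_C (x := fun k z => C.X z k) Finset.univ
        (fun k _ => (hX k).differentiableAt)
    simp only [(hder j).1] at h1
    exact h1
  have hS : {a : ℂ | ∀ k, a ≠ C.X z k}.Infinite := by
    have h1 : {a : ℂ | ∀ k, a ≠ C.X z k} = (Set.range (C.X z))ᶜ := by
      ext a
      simp only [Set.mem_ofPred_eq, Set.mem_compl_iff, Set.mem_range, not_exists]
      exact forall_congr' fun k => ne_comm
    rw [h1]
    exact (Set.finite_range _).infinite_compl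
  have hf : ∀ k, C.Y z k ^ 2 = f.eval (C.X z k) := fun k => (hYz k).2
  obtain ⟨hWm, hWd⟩ := W_monic (C.X z) hinj (C.Y z) f hf hm hd hg
  intro j l
  constructor
  · rw [(hU j l).2]
    have h1 := rec_coeff (fun j : Fin g => (-∑ k, Polynomial.C (C.Y z k * lagC (C.X z) k j) *
      M (C.X z) k)) (g + 1) (by omega)
      (fun i => - (Polynomial.C ((polyV (C.X z) (C.Y z)).coeff i) * polyU (C.X z) -
        Polynomial.C ((polyU (C.X z)).coeff i) * polyV (C.X z) (C.Y z)))
      Set.univ Set.infinite_univ ?_ j l
    · rw [h1]
      simp only [Polynomial.coeff_neg, Polynomial.coeff_sub, Polynomial.coeff_C_mul]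
      rw [Finset.sum_neg_distrib]
      congr 1
      refine Finset.sum_congr rfl ?_
      intro t _
      ring
    · intro a _
      have h2 : ∑ j : Fin g, Polynomial.C (a ^ (j : ℕ)) *
          (-∑ k, Polynomial.C (C.Y z k * lagC (C.X z) k j) * M (C.X z) k) =
          -∑ k, Polynomial.C (C.Y z k * (Lagrange.basis Finset.univ (C.X z) k).eval a) *
            M (C.X z) k := by
        simp only [mul_neg, Finset.sum_neg_distrib, Finset.mul_sum]
        rw [Finset.sum_comm]
        congr 1
        refine Finset.sum_congr rfl ?_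
        intro k _
        rw [eval_basis _ hinj, Finset.mul_sum, map_sum, Finset.sum_mul]
        refine Finset.sum_congr rfl ?_
        intro j _
        rw [← mul_assoc, ← map_mul]
        congr 2
        ring
      rw [h2, mul_neg, U_identity _ hinj]
      rw [eval_eq_range (polyV (C.X z) (C.Y z)) (g + 1)
        (lt_trans hVdeg.self_of_nhds (Nat.lt_succ_self _)),
        eval_eq_range (polyU (C.X z)) (g + 1) (by rw [polyU_natDegree]; exact Nat.lt_succ_self _),
        map_sum, map_sum, Finset.sum_mul, Finset.sum_mul, ← Finset.sum_sub_distrib,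
        ← Finset.sum_neg_distrib]
      refine Finset.sum_congr rfl ?_
      intro i _
      simp only [map_mul]
      ring
  · rw [(hQV j l).2]
    have h1 := rec_coeff (fun j : Fin g => QV j -
      Polynomial.C ((polyU (C.X z)).coeff j / 2) * polyU (C.X z)) (g + 2) (by omega)
      (fun i => Polynomial.C (1 / 2) * (Polynomial.C ((polyW f (C.X z) (C.Y z)).coeff i) *
        polyU (C.X z) - Polynomial.C ((polyU (C.X z)).coeff i) * polyW f (C.X z) (C.Y z)) +
        ((if i = g then Polynomial.C (1 / 2) * (Polynomial.X * polyU (C.X z)) else 0) -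
        (if i = g + 1 then Polynomial.C (1 / 2) * polyU (C.X z) else 0)))
      {a : ℂ | ∀ k, a ≠ C.X z k} hS ?_ j l
    · simp only [Polynomial.coeff_sub, Polynomial.coeff_C_mul, sub_eq_iff_eq_add] at h1
      rw [h1, add_comm, sub_eq_add_neg]
      congr 1
      · ring
      · rw [neg_div', ← Finset.sum_neg_distrib, Finset.sum_div]
        refine Finset.sum_congr rfl ?_
        intro t ht
        have := Finset.mem_range.1 ht
        have hj := j.2
        have h2 : (j : ℕ) - t ≠ g := by omega
        have h3 : (j : ℕ) - t ≠ g + 1 := by omega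
        simp only [h2, h3, if_false, sub_zero, add_zero, Polynomial.coeff_C_mul,
          Polynomial.coeff_sub]
        ring
    · intro a ha
      have hD : (∑ j : Fin g, Polynomial.C (a ^ (j : ℕ)) * QV j).natDegree < g := by
        have h5 : (∑ j : Fin g, Polynomial.C (a ^ (j : ℕ)) * QV j).natDegree ≤ g - 1 := by
          refine Polynomial.natDegree_sum_le_of_forall_le _ _ ?_
          intro i _
          refine (Polynomial.natDegree_C_mul_le _ _).trans ?_
          have := hQVdeg i
          omega
        omega
      have hDx : ∀ k, (∑ j : Fin g, Polynomial.C (a ^ (j : ℕ)) * QV j).eval (C.X z k) =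
          ((Polynomial.derivative f).eval (C.X z k) / 2 -
          (Polynomial.derivative (polyV (C.X z) (C.Y z))).eval (C.X z k) * C.Y z k) *
          (Lagrange.basis Finset.univ (C.X z) k).eval a := by
        intro k
        have h6 : ∀ j : Fin g, (QV j).eval (C.X z k) =
            ((Polynomial.derivative f).eval (C.X z k) / 2 -
            (Polynomial.derivative (polyV (C.X z) (C.Y z))).eval (C.X z k) * C.Y z k) *
            lagC (C.X z) k j := by
          intro j
          have h7 := (hQV j).eval hVdeg (hQVdeg j) (hX k).differentiableAt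
          have h8 : (fun w => (polyV (C.X w) (C.Y w)).eval (C.X w k)) =ᶠ[𝓝 z]
              fun w => C.Y w k := by
            filter_upwards [hev'] with w hw
            exact polyV_eval _ hw.1 _ k
          rw [h8.fderiv_eq, (hder j).1 k, (hder j).2.1 k] at h7
          have h9 : (QV j).eval (C.X z k) = (Polynomial.derivative f).eval (C.X z k) / 2 *
              lagC (C.X z) k j - (Polynomial.derivative (polyV (C.X z) (C.Y z))).eval (C.X z k) *
              (C.Y z k * lagC (C.X z) k j) := by
            rw [h7]
            ring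
          rw [h9]
          ring
        rw [Polynomial.eval_finsetSum, eval_basis _ hinj, Finset.mul_sum]
        refine Finset.sum_congr rfl ?_
        intro j _
        rw [Polynomial.eval_mul, Polynomial.eval_C, h6]
        ring
      have hid := V_identity (C.X z) hinj (C.Y z) f hf hm hd hg a ha _ hD hDx
      have h10 : ∑ j : Fin g, Polynomial.C (a ^ (j : ℕ)) *
          (QV j - Polynomial.C ((polyU (C.X z)).coeff j / 2) * polyU (C.X z)) =
          ∑ j : Fin g, Polynomial.C (a ^ (j : ℕ)) * QV j -
          Polynomial.C (((polyU (C.X z)).eval a - a ^ g) / 2) * polyU (C.X z) := by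
        simp only [mul_sub, Finset.sum_sub_distrib]
        congr 1
        have h11 : ((polyU (C.X z)).eval a - a ^ g) / 2 =
            ∑ j : Fin g, a ^ (j : ℕ) * ((polyU (C.X z)).coeff j / 2) := by
          rw [eval_eq_range (polyU (C.X z)) (g + 1)
            (by rw [polyU_natDegree]; exact Nat.lt_succ_self _), Finset.sum_range_succ]
          have e1 : (polyU (C.X z)).coeff g = 1 := by
            have := polyU_monic (C.X z)
            rwa [Polynomial.Monic, Polynomial.leadingCoeff, polyU_natDegree] at this
          rw [e1, mul_one, add_sub_cancel_right, Finset.sum_div,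
            ← Fin.sum_univ_eq_sum_range (fun i => a ^ i * (polyU (C.X z)).coeff i / 2) g]
          exact Finset.sum_congr rfl fun i _ => by ring
        rw [h11, map_sum, Finset.sum_mul]
        refine Finset.sum_congr rfl ?_
        intro i _
        rw [map_mul]
        ring
      rw [h10, mul_sub, hid, Finset.sum_congr rfl fun i _ => mul_add _ _ _,
        Finset.sum_add_distrib, Finset.sum_congr rfl fun i _ => mul_sub _ _ _,
        Finset.sum_sub_distrib]
      have h12 : ∑ i ∈ Finset.range (g + 2), Polynomial.C (a ^ i) *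
          (if i = g then Polynomial.C (1 / 2) * (Polynomial.X * polyU (C.X z)) else 0) =
          Polynomial.C (a ^ g) * (Polynomial.C (1 / 2) * (Polynomial.X * polyU (C.X z))) := by
        rw [Finset.sum_eq_single g]
        · rw [if_pos rfl]
        · intro i _ hi
          rw [if_neg hi, mul_zero]
        · intro hh
          exact absurd (Finset.mem_range.2 (by omega)) hh
      have h13 : ∑ i ∈ Finset.range (g + 2), Polynomial.C (a ^ i) *
          (if i = g + 1 then Polynomial.C (1 / 2) * polyU (C.X z) else 0) =
          Polynomial.C (a ^ (g + 1)) * (Polynomial.C (1 / 2) * polyU (C.X z)) := by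
        rw [Finset.sum_eq_single (g + 1)]
        · rw [if_pos rfl]
        · intro i _ hi
          rw [if_neg hi, mul_zero]
        · intro hh
          exact absurd (Finset.mem_range.2 (by omega)) hh
      have h14 : ∑ i ∈ Finset.range (g + 2), Polynomial.C (a ^ i) * (Polynomial.C (1 / 2) *
          (Polynomial.C ((polyW f (C.X z) (C.Y z)).coeff i) * polyU (C.X z) -
            Polynomial.C ((polyU (C.X z)).coeff i) * polyW f (C.X z) (C.Y z))) =
          Polynomial.C (1 / 2) * (Polynomial.C ((polyW f (C.X z) (C.Y z)).eval a) *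
            polyU (C.X z) - Polynomial.C ((polyU (C.X z)).eval a) *
            polyW f (C.X z) (C.Y z)) := by
        rw [eval_eq_range (polyU (C.X z)) (g + 2) (by rw [polyU_natDegree]; omega),
          eval_eq_range (polyW f (C.X z) (C.Y z)) (g + 2) (by rw [hWd]; omega), map_sum, map_sum,
          Finset.sum_mul, Finset.sum_mul, ← Finset.sum_sub_distrib, Finset.mul_sum]
        refine Finset.sum_congr rfl ?_
        intro i _
        simp only [map_mul]
        ring
      rw [h12, h13, h14]
      have h15 : Polynomial.C (((polyU (C.X z)).eval a - a ^ g) / 2) =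
          Polynomial.C (1 / 2) * (Polynomial.C ((polyU (C.X z)).eval a) -
            Polynomial.C (a ^ g)) := by
        rw [← map_sub, ← map_mul]
        congr 1
        ring
      rw [h15, pow_succ, map_mul]
      ring

end

end Pool.Agent.FDR.MUM
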