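import Pool.Agent.FDR.Stmts

open scoped BigOperators

namespace Pool.Agent.FDR.ODD

theorem unit_coprime {ℓ K : ℕ} (hK : 0 < K) (t : (ZMod (ℓ ^ K))ˣ) :
    (t : ZMod (ℓ ^ K)).val.Coprime ℓ := by
  have h := ZMod.val_coe_unit_coprime t
  exact Nat.Coprime.coprime_dvd_right (dvd_pow_self ℓ hK.ne') h

theorem sum_units {V : Type} [AddCommGroup V] {ℓ K i a : ℕ} [NeZero ℓ]
    (hi : 0 < i) (ha : a.Coprime ℓ) (f : ℕ → V) :
    ∑ u : (ZMod (ℓ ^ K))ˣ,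
      (if ((u : ZMod (ℓ ^ K)).val ≡ a [MOD ℓ ^ i]) then f (u : ZMod (ℓ ^ K)).val else 0) =
    ∑ b ∈ (Finset.range (ℓ ^ K)).filter (fun b => b ≡ a [MOD ℓ ^ i]), f b := by
  classical
  rw [← Finset.sum_filter]
  refine Finset.sum_bij (fun u _ => (u : ZMod (ℓ ^ K)).val) ?_ ?_ ?_ ?_
  · intro u hu
    simp only [Finset.mem_filter, Finset.mem_univ, true_and, Finset.mem_range] at hu ⊢
    exact ⟨ZMod.val_lt _, hu⟩
  · intro u _ u' _ h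
    exact Units.ext (ZMod.val_injective _ h)
  · intro b hb
    simp only [Finset.mem_filter, Finset.mem_range] at hb
    have h1 : b.Coprime ℓ := by
      have h2 : b ≡ a [MOD ℓ] := hb.2.of_dvd (dvd_pow_self ℓ hi.ne')
      have h3 : Nat.gcd b ℓ = Nat.gcd a ℓ := Nat.ModEq.gcd_eq h2
      rw [Nat.Coprime, h3]
      exact ha
    have h4 : ((ZMod.unitOfCoprime b (Nat.Coprime.pow_right K h1) : (ZMod (ℓ ^ K))ˣ) :
        ZMod (ℓ ^ K)).val = b := by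
      rw [ZMod.coe_unitOfCoprime, ZMod.val_natCast, Nat.mod_eq_of_lt hb.1]
    refine ⟨ZMod.unitOfCoprime b (Nat.Coprime.pow_right K h1), ?_, h4⟩
    simp only [Finset.mem_filter, Finset.mem_univ, true_and]
    rw [h4]
    exact hb.2
  · intro u _
    rfl

theorem hlog_periodic (x : ℚ) : Hlog (x + 1) = Hlog x := by
  unfold Hlog
  rw [Int.fract_add_one]

theorem hlog_one_sub {x : ℚ} (h0 : 0 < x) (h1 : x < 1) : Hlog (1 - x) = - Hlog x := by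
  unfold Hlog
  have hf1 : Int.fract x = x := by
    rw [Int.fract_eq_self]
    exact ⟨h0.le, h1⟩
  have hf2 : Int.fract (1 - x) = 1 - x := by
    rw [Int.fract_eq_self]
    constructor <;> linarith
  rw [hf1, hf2]
  push_cast
  rw [sub_sub_cancel]
  ring

/-- the values at units -/
theorem hlog_neg_unit {ℓ K : ℕ} [NeZero ℓ] (hℓ : ℓ.Prime) (hK0 : 0 < K)
    (b : (ZMod (ℓ ^ K))ˣ) :
    Hlog ((((-b : (ZMod (ℓ ^ K))ˣ) : ZMod (ℓ ^ K)).val : ℚ) / ((ℓ ^ K : ℕ) : ℚ)) =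
      - Hlog (((b : ZMod (ℓ ^ K)).val : ℚ) / ((ℓ ^ K : ℕ) : ℚ)) := by
  have hlt : (1 : ℕ) < ℓ ^ K := Nat.one_lt_pow hK0.ne' hℓ.one_lt
  have hb0 : (b : ZMod (ℓ ^ K)).val ≠ 0 := by
    intro h0
    have := ZMod.val_coe_unit_coprime b
    rw [h0] at this
    have h2 := Nat.coprime_zero_left _ |>.mp this
    omega
  have hv : ((-b : (ZMod (ℓ ^ K))ˣ) : ZMod (ℓ ^ K)).val = ℓ ^ K - (b : ZMod (ℓ ^ K)).val := by
    rw [Units.val_neg]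
    have : NeZero (b : ZMod (ℓ ^ K)) := ⟨fun h => hb0 (by rw [h]; exact ZMod.val_zero)⟩
    exact ZMod.val_neg_of_ne_zero _
  have hlt2 := ZMod.val_lt (b : ZMod (ℓ ^ K))
  have hpos : (0 : ℚ) < ((ℓ ^ K : ℕ) : ℚ) := by exact_mod_cast pow_pos hℓ.pos K
  rw [hv, Nat.cast_sub hlt2.le, sub_div, div_self hpos.ne']
  refine hlog_one_sub ?_ ?_
  · have : (0 : ℚ) < ((b : ZMod (ℓ ^ K)).val : ℚ) := by
      exact_mod_cast Nat.pos_of_ne_zero hb0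
    positivity
  · rw [div_lt_one hpos]
    exact_mod_cast hlt2

/-- the sum of `Hlog` over a residue class -/
theorem class_sum (hGD : Stmt_GD) (hDist : Stmt_Dist) {ℓ K : ℕ} [NeZero ℓ] (hℓ : ℓ.Prime)
    {j i : ℕ} (hj : 0 < j) (hjK : j ≤ K) (hi : i.Coprime ℓ) :
    ∑ b : (ZMod (ℓ ^ K))ˣ, (if ((b : ZMod (ℓ ^ K)).val ≡ i [MOD ℓ ^ j]) then
      Hlog (((b : ZMod (ℓ ^ K)).val : ℚ) / ((ℓ ^ K : ℕ) : ℚ)) else 0) -
      Hlog ((i : ℚ) / ((ℓ ^ j : ℕ) : ℚ)) ∈ algLog := by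
  have h1 := hGD (ℝ ⧸ algLog) (fun y => algLog.mkQ (Hlog y)) ℓ hℓ
    (fun y => by simp only [hlog_periodic]) (fun y hy => by
      have h2 := hDist ℓ hℓ.pos y hy
      rw [← map_sum, ← sub_eq_zero, ← map_sub]
      exact (Submodule.Quotient.mk_eq_zero _).mpr h2) j K i hj hjK hi
  rw [sum_units hj hi (fun b => Hlog ((b : ℚ) / ((ℓ ^ K : ℕ) : ℚ)))]
  rw [← Submodule.Quotient.mk_eq_zero, ← Submodule.mkQ_apply, map_sub, map_sum, h1, sub_self]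

theorem thm_ODD (hIrr : Stmt_Irr) (hGD : Stmt_GD) (hDist : Stmt_Dist) (hTh : Stmt_ThetaH)
    (hT : Stmt_T) : Stmt_Odd := by
  intro ℓ hF K _ hK0 D hD
  classical
  have hℓ : ℓ.Prime := hF.1
  have hℓ2 : ℓ ≠ 2 := by
    obtain ⟨_, s, hs, h⟩ := hF
    rcases Nat.exists_eq_succ_of_ne_zero hs.ne' with ⟨r, rfl⟩
    rw [Nat.succ_eq_add_one, pow_succ] at h
    have := Nat.pos_of_ne_zero (pow_ne_zero r (two_ne_zero : (2 : ℕ) ≠ 0))
    omega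
  by_contra hcon
  push Not at hcon
  obtain ⟨b0, hb0⟩ := hcon
  let Hv : (ZMod (ℓ ^ K))ˣ → ℝ := fun b =>
    Hlog (((b : ZMod (ℓ ^ K)).val : ℚ) / ((ℓ ^ K : ℕ) : ℚ))
  let S : Submodule ℚ ((ZMod (ℓ ^ K))ˣ → ℚ) :=
    { carrier := {x | ∀ t : (ZMod (ℓ ^ K))ˣ, ∑ b, (x b : ℝ) * Hv (t * b) ∈ algLog}
      zero_mem' := by
        intro t
        simp only [Pi.zero_apply, Rat.cast_zero, zero_mul, Finset.sum_const_zero]
        exact algLog.zero_mem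
      add_mem' := by
        intro x y hx hy t
        have h1 : ∑ b, (((x + y) b : ℚ) : ℝ) * Hv (t * b) =
            ∑ b, (x b : ℝ) * Hv (t * b) + ∑ b, (y b : ℝ) * Hv (t * b) := by
          rw [← Finset.sum_add_distrib]
          refine Finset.sum_congr rfl fun b _ => ?_
          rw [Pi.add_apply]
          push_cast
          ring
        rw [h1]
        exact algLog.add_mem (hx t) (hy t)
      smul_mem' := by
        intro c x hx t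
        have h1 : ∑ b, (((c • x) b : ℚ) : ℝ) * Hv (t * b) =
            c • ∑ b, (x b : ℝ) * Hv (t * b) := by
          rw [Finset.smul_sum]
          refine Finset.sum_congr rfl fun b _ => ?_
          rw [Pi.smul_apply, smul_eq_mul, Rat.smul_def]
          push_cast
          ring
        rw [h1]
        exact algLog.smul_mem c (hx t) }
  have hmem : ∀ x : (ZMod (ℓ ^ K))ˣ → ℚ, x ∈ S ↔
      ∀ t : (ZMod (ℓ ^ K))ˣ, ∑ b, (x b : ℝ) * Hv (t * b) ∈ algLog := fun x => Iff.rfl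
  have htr : ∀ x ∈ S, ∀ t : (ZMod (ℓ ^ K))ˣ, (fun b => x (t * b)) ∈ S := by
    intro x hx t
    rw [hmem] at hx ⊢
    intro t'
    have h1 := hx (t' * t⁻¹)
    have h2 : ∑ b, ((x (t * b) : ℚ) : ℝ) * Hv (t' * b) =
        ∑ b, (x b : ℝ) * Hv (t' * t⁻¹ * b) := by
      refine Fintype.sum_equiv (Equiv.mulLeft t) _ _ ?_
      intro b
      simp only [Equiv.coe_mulLeft]
      congr 2
      rw [mul_assoc, inv_mul_cancel_left]
    rw [h2]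
    exact h1
  obtain ⟨j, hj0, hjK, hf⟩ := hIrr ℓ K hF hK0 S htr ⟨D, (hmem D).mpr hD, b0, hb0⟩
  -- differences of Hlog values
  have hdiff : ∀ i i' : ℕ, i.Coprime ℓ → i'.Coprime ℓ → i ≡ i' [MOD ℓ ^ (j - 1)] →
      Hlog ((i : ℚ) / ((ℓ ^ j : ℕ) : ℚ)) - Hlog ((i' : ℚ) / ((ℓ ^ j : ℕ) : ℚ)) ∈ algLog := by
    intro i i' hi hi' hii
    have h1 := (hmem _).mp (hf i i' hi hi' hii) 1
    simp only [one_mul] at h1
    have hpos : ∀ a : ℕ, ∑ b : (ZMod (ℓ ^ K))ˣ,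
        (((if (b : ZMod (ℓ ^ K)).val ≡ a [MOD ℓ ^ j] then (1 : ℚ) else 0) : ℚ) : ℝ) * Hv b =
        ∑ b : (ZMod (ℓ ^ K))ˣ, (if ((b : ZMod (ℓ ^ K)).val ≡ a [MOD ℓ ^ j]) then
          Hlog (((b : ZMod (ℓ ^ K)).val : ℚ) / ((ℓ ^ K : ℕ) : ℚ)) else 0) := by
      intro a
      refine Finset.sum_congr rfl fun b _ => ?_
      split_ifs
      · rw [Rat.cast_one, one_mul]
      · rw [Rat.cast_zero, zero_mul]
    have hneg : ∀ a : ℕ, ∑ b : (ZMod (ℓ ^ K))ˣ,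
        (((if (((-b : (ZMod (ℓ ^ K))ˣ)) : ZMod (ℓ ^ K)).val ≡ a [MOD ℓ ^ j] then (1 : ℚ)
          else 0) : ℚ) : ℝ) * Hv b =
        - ∑ b : (ZMod (ℓ ^ K))ˣ, (if ((b : ZMod (ℓ ^ K)).val ≡ a [MOD ℓ ^ j]) then
          Hlog (((b : ZMod (ℓ ^ K)).val : ℚ) / ((ℓ ^ K : ℕ) : ℚ)) else 0) := by
      intro a
      rw [← hpos, ← Finset.sum_neg_distrib]
      refine Fintype.sum_equiv (Equiv.neg (ZMod (ℓ ^ K))ˣ) _ _ ?_
      intro b
      rw [Equiv.neg_apply]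
      have h2 : Hv (-b) = - Hv b := hlog_neg_unit hℓ hK0 b
      rw [h2]
      ring
    have h2 : ∀ b : (ZMod (ℓ ^ K))ˣ, ((((if (b : ZMod (ℓ ^ K)).val ≡ i [MOD ℓ ^ j] then
        (1 : ℚ) else 0) -
      (if (((-b : (ZMod (ℓ ^ K))ˣ)) : ZMod (ℓ ^ K)).val ≡ i [MOD ℓ ^ j] then 1 else 0) -
      (if (b : ZMod (ℓ ^ K)).val ≡ i' [MOD ℓ ^ j] then 1 else 0) +
      (if (((-b : (ZMod (ℓ ^ K))ˣ)) : ZMod (ℓ ^ K)).val ≡ i' [MOD ℓ ^ j] then 1 else 0) : ℚ)) :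
        ℝ) * Hv b =
      (((if (b : ZMod (ℓ ^ K)).val ≡ i [MOD ℓ ^ j] then (1 : ℚ) else 0) : ℚ) : ℝ) * Hv b -
      (((if (((-b : (ZMod (ℓ ^ K))ˣ)) : ZMod (ℓ ^ K)).val ≡ i [MOD ℓ ^ j] then (1 : ℚ)
          else 0) : ℚ) : ℝ) * Hv b -
      (((if (b : ZMod (ℓ ^ K)).val ≡ i' [MOD ℓ ^ j] then (1 : ℚ) else 0) : ℚ) : ℝ) * Hv b +
      (((if (((-b : (ZMod (ℓ ^ K))ˣ)) : ZMod (ℓ ^ K)).val ≡ i' [MOD ℓ ^ j] then (1 : ℚ)
          else 0) : ℚ) : ℝ) * Hv b := by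
      intro b
      push_cast
      ring
    rw [Finset.sum_congr rfl fun b _ => h2 b, Finset.sum_add_distrib, Finset.sum_sub_distrib,
      Finset.sum_sub_distrib, hpos, hpos, hneg, hneg] at h1
    have h3 := class_sum hGD hDist hℓ hj0 hjK hi
    have h4 := class_sum hGD hDist hℓ hj0 hjK hi'
    set A : ℝ := ∑ b : (ZMod (ℓ ^ K))ˣ, (if ((b : ZMod (ℓ ^ K)).val ≡ i [MOD ℓ ^ j]) then
          Hlog (((b : ZMod (ℓ ^ K)).val : ℚ) / ((ℓ ^ K : ℕ) : ℚ)) else 0) with hA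
    set B : ℝ := ∑ b : (ZMod (ℓ ^ K))ˣ, (if ((b : ZMod (ℓ ^ K)).val ≡ i' [MOD ℓ ^ j]) then
          Hlog (((b : ZMod (ℓ ^ K)).val : ℚ) / ((ℓ ^ K : ℕ) : ℚ)) else 0) with hB
    have h5 : A - B ∈ algLog := by
      have h6 := algLog.smul_mem (1 / 2 : ℚ) h1
      rw [Rat.smul_def] at h6
      have h7 : (((1 / 2 : ℚ)) : ℝ) * (A - -A - B + -B) = A - B := by
        push_cast
        ring
      rwa [h7] at h6
    have h8 := algLog.add_mem (algLog.sub_mem h5 h3) h4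
    have h9 : A - B - (A - Hlog ((i : ℚ) / ((ℓ ^ j : ℕ) : ℚ))) +
        (B - Hlog ((i' : ℚ) / ((ℓ ^ j : ℕ) : ℚ))) =
        Hlog ((i : ℚ) / ((ℓ ^ j : ℕ) : ℚ)) - Hlog ((i' : ℚ) / ((ℓ ^ j : ℕ) : ℚ)) := by ring
    rwa [h9] at h8
  refine hT ℓ j hℓ hℓ2 hj0 ?_
  intro i i' hi0 hi1 hi0' hi1' hd hd' hii
  have hc : i.Coprime ℓ := ((Nat.Prime.coprime_iff_not_dvd hℓ).mpr hd).symm
  have hc' : i'.Coprime ℓ := ((Nat.Prime.coprime_iff_not_dvd hℓ).mpr hd').symm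
  have h2c : Nat.Coprime 2 ℓ := (Nat.coprime_primes Nat.prime_two hℓ).mpr (Ne.symm hℓ2)
  have hpos : (0 : ℚ) < ((ℓ ^ j : ℕ) : ℚ) := by exact_mod_cast pow_pos hℓ.pos j
  have hodd : Odd (ℓ ^ j) := (hℓ.odd_of_ne_two hℓ2).pow
  -- the half values
  have hhalf : ∀ i : ℕ, 0 < i → i < ℓ ^ j →
      0 < (i : ℚ) / ((ℓ ^ j : ℕ) : ℚ) ∧ (i : ℚ) / ((ℓ ^ j : ℕ) : ℚ) < 1 ∧
      (i : ℚ) / ((ℓ ^ j : ℕ) : ℚ) ≠ 1 / 2 := by
    intro i h0 h1
    refine ⟨by positivity, ?_, ?_⟩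
    · rw [div_lt_one hpos]
      exact_mod_cast h1
    · intro h
      rw [div_eq_div_iff hpos.ne' two_ne_zero] at h
      have h2 : i * 2 = ℓ ^ j := by
        have : ((i * 2 : ℕ) : ℚ) = ((ℓ ^ j : ℕ) : ℚ) := by
          rw [Nat.cast_mul, Nat.cast_two, h, one_mul]
        exact_mod_cast this
      obtain ⟨r, hr⟩ := hodd
      omega
  obtain ⟨hx0, hx1, hx2⟩ := hhalf i hi0 hi1
  obtain ⟨hy0, hy1, hy2⟩ := hhalf i' hi0' hi1'
  have e1 := hTh _ hx0 hx1 hx2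
  have e2 := hTh _ hy0 hy1 hy2
  have d1 := hdiff i i' hc hc' hii
  have d2 := hdiff (2 * i) (2 * i') (Nat.Coprime.mul_left h2c hc)
    (Nat.Coprime.mul_left h2c hc') (hii.mul_left 2)
  have hcast : ∀ i : ℕ, (((2 * i : ℕ)) : ℚ) / ((ℓ ^ j : ℕ) : ℚ) =
      2 * ((i : ℚ) / ((ℓ ^ j : ℕ) : ℚ)) := by
    intro i
    push_cast
    ring
  rw [hcast, hcast] at d2
  set x : ℚ := (i : ℚ) / ((ℓ ^ j : ℕ) : ℚ) with hx
  set y : ℚ := (i' : ℚ) / ((ℓ ^ j : ℕ) : ℚ) with hy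
  have e3 := algLog.add_mem (algLog.sub_mem e1 e2)
    (algLog.sub_mem (algLog.smul_mem (2 : ℚ) d1) d2)
  rw [Rat.smul_def] at e3
  have e4 : 2 * Real.log (bet x (1 / 2)) - (Real.log Real.pi + 2 * Hlog x - Hlog (2 * x)) -
      (2 * Real.log (bet y (1 / 2)) - (Real.log Real.pi + 2 * Hlog y - Hlog (2 * y))) +
      ((((2 : ℚ)) : ℝ) * (Hlog x - Hlog y) - (Hlog (2 * x) - Hlog (2 * y))) =
      2 * (Real.log (bet x (1 / 2)) - Real.log (bet y (1 / 2))) := by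
    push_cast
    ring
  rw [e4] at e3
  have e5 := algLog.smul_mem (1 / 2 : ℚ) e3
  rw [Rat.smul_def] at e5
  have e6 : (((1 / 2 : ℚ)) : ℝ) * (2 * (Real.log (bet x (1 / 2)) - Real.log (bet y (1 / 2)))) =
      Real.log (bet x (1 / 2)) - Real.log (bet y (1 / 2)) := by
    push_cast
    ring
  rw [e6] at e5
  have hbpos : ∀ z : ℚ, 0 < z → 0 < bet (z : ℝ) (1 / 2) := by
    intro z hz
    have hz' : (0 : ℝ) < (z : ℝ) := by exact_mod_cast hz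
    unfold bet
    have h1 := Real.Gamma_pos_of_pos hz'
    have h2 := Real.Gamma_pos_of_pos (show (0 : ℝ) < 1 / 2 by norm_num)
    have h3 := Real.Gamma_pos_of_pos (show (0 : ℝ) < (z : ℝ) + 1 / 2 by linarith)
    positivity
  have e7 : IsAlgebraic ℚ (Real.exp (Real.log (bet x (1 / 2)) - Real.log (bet y (1 / 2)))) := e5
  rw [Real.exp_sub, Real.exp_log (hbpos x hx0), Real.exp_log (hbpos y hy0)] at e7
  have hxc : ((x : ℚ) : ℝ) = (i : ℝ) / ((ℓ ^ j : ℕ) : ℝ) := by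
    rw [hx]
    push_cast
    rfl
  have hyc : ((y : ℚ) : ℝ) = (i' : ℝ) / ((ℓ ^ j : ℕ) : ℝ) := by
    rw [hy]
    push_cast
    rfl
  rw [hxc, hyc] at e7
  exact e7

end Pool.Agent.FDR.ODD
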