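import Pool.Agent.FDR.Stmts

open scoped BigOperators

namespace Pool.Agent.FDR.ONE

theorem unit_coprime {ℓ K : ℕ} (hK : 0 < K) (t : (ZMod (ℓ ^ K))ˣ) :
    (t : ZMod (ℓ ^ K)).val.Coprime ℓ := by
  have h := ZMod.val_coe_unit_coprime t
  exact Nat.Coprime.coprime_dvd_right (dvd_pow_self ℓ hK.ne') h

theorem sum_units {V : Type} [AddCommGroup V] {ℓ K i a : ℕ} [NeZero ℓ] (hℓ : ℓ.Prime)
    (hi : 0 < i) (ha : a.Coprime ℓ) (f : ℕ → V) :
    ∑ u : (ZMod (ℓ ^ K))ˣ,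
      (if ((u : ZMod (ℓ ^ K)).val ≡ a [MOD ℓ ^ i]) then f (u : ZMod (ℓ ^ K)).val else 0) =
    ∑ b ∈ (Finset.range (ℓ ^ K)).filter (fun b => b ≡ a [MOD ℓ ^ i]), f b := by
  classical
  rw [← Finset.sum_filter]
  refine Finset.sum_bij (fun u _ => (u : ZMod (ℓ ^ K)).val) ?_ ?_ ?_ ?_
  · intro u hu
    simp only [Finset.mem_filter, Finset.mem_univ, true_and, Finset.mem_range] at hu ⊢
    exact ⟨ZMod.val_lt _, hu⟩
  · intro u _ u' _ h
    exact Units.ext (ZMod.val_injective _ h)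
  · intro b hb
    simp only [Finset.mem_filter, Finset.mem_range] at hb
    have h1 : b.Coprime ℓ := by
      have h2 : b ≡ a [MOD ℓ] := hb.2.of_dvd (dvd_pow_self ℓ hi.ne')
      have h3 : Nat.gcd b ℓ = Nat.gcd a ℓ := Nat.ModEq.gcd_eq h2
      rw [Nat.Coprime, h3]
      exact ha
    have h4 : ((ZMod.unitOfCoprime b (Nat.Coprime.pow_right K h1) : (ZMod (ℓ ^ K))ˣ) :
        ZMod (ℓ ^ K)).val = b := by
      rw [ZMod.coe_unitOfCoprime, ZMod.val_natCast, Nat.mod_eq_of_lt hb.1]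
    refine ⟨ZMod.unitOfCoprime b (Nat.Coprime.pow_right K h1), ?_, h4⟩
    simp only [Finset.mem_filter, Finset.mem_univ, true_and]
    rw [h4]
    exact hb.2
  · intro u _
    rfl

theorem periodic_int {V : Type} {h : ℚ → V} (hp : ∀ x, h (x + 1) = h x) (x : ℚ) (m : ℤ) :
    h (x + m) = h x := by
  have h1 : Function.Periodic h (1 : ℚ) := hp
  have h2 := h1.int_mul m x
  rwa [mul_one] at h2

/-- the key computation -/
theorem key (hGD : Stmt_GD) {V : Type} [AddCommGroup V] (h : ℚ → V) {ℓ K : ℕ} [NeZero ℓ]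
    (hℓ : ℓ.Prime) (hp : ∀ x, h (x + 1) = h x)
    (hd : ∀ x : ℚ, (∀ z : ℤ, (ℓ : ℚ) * x ≠ z) →
      ∑ k ∈ Finset.range ℓ, h (x + k / ℓ) = h (ℓ * x))
    {k a : ℕ} (hk : 0 < k) (hkK : k ≤ K) (ha : a.Coprime ℓ) {x : ℚ} {m : ℤ}
    (hx : x = a / ((ℓ ^ k : ℕ) : ℚ) + m) (t : (ZMod (ℓ ^ K))ˣ) :
    ∑ b : (ZMod (ℓ ^ K))ˣ, (if ((b : ZMod (ℓ ^ K)).val ≡ a [MOD ℓ ^ k]) then
      h ((((t * b : (ZMod (ℓ ^ K))ˣ) : ZMod (ℓ ^ K)).val : ℚ) / ((ℓ ^ K : ℕ) : ℚ)) else 0) =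
    h (((t : ZMod (ℓ ^ K)).val : ℚ) * x) := by
  have hK : 0 < K := lt_of_lt_of_le hk hkK
  have htc := unit_coprime hK t
  have h1 := hGD V h ℓ hℓ hp hd k K ((t : ZMod (ℓ ^ K)).val * a) hk hkK
    (Nat.Coprime.mul_left htc ha)
  have h2 : h (((((t : ZMod (ℓ ^ K)).val * a : ℕ)) : ℚ) / ((ℓ ^ k : ℕ) : ℚ)) =
      h (((t : ZMod (ℓ ^ K)).val : ℚ) * x) := by
    rw [hx, mul_add]
    have h3 : (((t : ZMod (ℓ ^ K)).val : ℚ)) * (m : ℚ) =
        (((((t : ZMod (ℓ ^ K)).val : ℤ) * m : ℤ)) : ℚ) := by push_cast; ring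
    rw [h3, periodic_int hp]
    congr 1
    push_cast
    ring
  rw [← h2, ← h1, ← sum_units (K := K) hℓ hk (Nat.Coprime.mul_left htc ha)
    (fun b => h ((b : ℚ) / ((ℓ ^ K : ℕ) : ℚ)))]
  refine Fintype.sum_equiv (Equiv.mulLeft t) _ _ ?_
  intro b
  simp only [Equiv.coe_mulLeft]
  have h5 : (((t * b : (ZMod (ℓ ^ K))ˣ) : ZMod (ℓ ^ K)).val ≡
      (t : ZMod (ℓ ^ K)).val * a [MOD ℓ ^ k]) ↔ ((b : ZMod (ℓ ^ K)).val ≡ a [MOD ℓ ^ k]) := by
    have h6 : ((t * b : (ZMod (ℓ ^ K))ˣ) : ZMod (ℓ ^ K)).val ≡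
        (t : ZMod (ℓ ^ K)).val * (b : ZMod (ℓ ^ K)).val [MOD ℓ ^ k] := by
      rw [Units.val_mul, ZMod.val_mul]
      exact (Nat.mod_modEq _ _).of_dvd (pow_dvd_pow ℓ hkK)
    constructor
    · intro h7
      have h8 := h6.symm.trans h7
      exact Nat.ModEq.cancel_left_of_coprime
        (Nat.Coprime.gcd_eq_one (Nat.Coprime.pow_left k htc.symm)) h8
    · intro h7
      exact h6.trans (h7.mul_left _)
  by_cases h9 : ((b : ZMod (ℓ ^ K)).val ≡ a [MOD ℓ ^ k])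
  · rw [if_pos h9, if_pos (h5.mpr h9)]
  · rw [if_neg h9, if_neg (fun h => h9 (h5.mp h))]

theorem hlog_periodic (x : ℚ) : Hlog (x + 1) = Hlog x := by
  unfold Hlog
  rw [Int.fract_add_one]

theorem hermite (n : ℕ) (hn : 0 < n) (x : ℚ) :
    ∑ k ∈ Finset.range n, (Int.fract (x + k / n) - 1 / 2) = Int.fract (n * x) - 1 / 2 := by
  have hn' : (n : ℚ) ≠ 0 := by exact_mod_cast hn.ne'
  have hnp : (0 : ℚ) < n := by exact_mod_cast hn
  have hper : Function.Periodic (fun x : ℚ => ∑ k ∈ Finset.range n,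
      (Int.fract (x + k / n) - 1 / 2) - (Int.fract (n * x) - 1 / 2)) (1 / n : ℚ) := by
    intro y
    have h1 : Int.fract ((n : ℚ) * (y + 1 / n)) = Int.fract (n * y) := by
      rw [mul_add, mul_one_div_cancel hn', Int.fract_add_one]
    have h2 : ∑ k ∈ Finset.range n, (Int.fract (y + 1 / n + k / n) - 1 / 2) =
        ∑ k ∈ Finset.range n, (Int.fract (y + ((k + 1 : ℕ) : ℚ) / n) - 1 / 2) := by
      refine Finset.sum_congr rfl fun k _ => ?_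
      congr 2
      push_cast
      ring
    have h3 := Finset.sum_range_succ' (fun k : ℕ => Int.fract (y + (k : ℚ) / n) - 1 / 2) n
    have h4 := Finset.sum_range_succ (fun k : ℕ => Int.fract (y + (k : ℚ) / n) - 1 / 2) n
    have h5 : Int.fract (y + (n : ℚ) / n) = Int.fract (y + ((0 : ℕ) : ℚ) / n) := by
      rw [div_self hn', Int.fract_add_one]
      simp
    beta_reduce
    rw [h1, h2]
    rw [h4] at h3
    rw [h5] at h3
    linarith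
  have h1 := hper.sub_zsmul_eq (x := x) ⌊(n : ℚ) * x⌋
  set y : ℚ := x - ⌊(n : ℚ) * x⌋ • (1 / n : ℚ) with hy
  have hny : (n : ℚ) * y = Int.fract ((n : ℚ) * x) := by
    rw [hy, mul_sub, zsmul_eq_mul, Int.fract]
    field_simp
  have hy0 : 0 ≤ y := by
    have h2 : 0 ≤ (n : ℚ) * y := by rw [hny]; exact Int.fract_nonneg _
    exact nonneg_of_mul_nonneg_right h2 hnp
  have hy1 : y < 1 / n := by
    rw [lt_div_iff₀ hnp, mul_comm, hny]
    exact Int.fract_lt_one _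
  have h2 : ∀ k ∈ Finset.range n, Int.fract (y + (k : ℚ) / n) - 1 / 2 =
      y + (k : ℚ) / n - 1 / 2 := by
    intro k hk
    rw [Finset.mem_range] at hk
    rw [Int.fract_eq_self.mpr]
    have h3 : (0 : ℚ) ≤ (k : ℚ) / n := by positivity
    refine ⟨by linarith, ?_⟩
    have h4 : (k : ℚ) + 1 ≤ n := by exact_mod_cast hk
    have h5 : (k : ℚ) / n + 1 / n ≤ 1 := by
      rw [← add_div, div_le_one hnp]
      exact h4
    linarith
  rw [Finset.sum_congr rfl h2] at h1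
  have h6 : Int.fract ((n : ℚ) * y) = n * y := by
    rw [hny, Int.fract_fract]
  rw [h6] at h1
  have h7 : ∑ k ∈ Finset.range n, (y + (k : ℚ) / n - 1 / 2) = n * y - 1 / 2 := by
    rw [Finset.sum_sub_distrib, Finset.sum_add_distrib, ← Finset.sum_div]
    simp only [Finset.sum_const, Finset.card_range, nsmul_eq_mul]
    have h8 : (∑ i ∈ Finset.range n, (i : ℚ)) = n * (n - 1) / 2 := by
      have := Finset.sum_range_id_mul_two n
      have h9 : ((∑ i ∈ Finset.range n, i : ℕ) : ℚ) * 2 = n * (n - 1) := by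
        have h10 : (((∑ i ∈ Finset.range n, i) * 2 : ℕ) : ℚ) = ((n * (n - 1) : ℕ) : ℚ) := by
          rw [this]
        push_cast [Nat.cast_sub (show 1 ≤ n from hn)] at h10
        push_cast
        exact h10
      push_cast at h9
      linarith
    rw [h8]
    field_simp
    ring
  rw [h7] at h1
  linarith

theorem lowest {ℓ : ℕ} (hℓ : ℓ.Prime) {x : ℚ} (hx : ∀ z : ℤ, x ≠ z) {K : ℕ} {z : ℤ}
    (hz : (ℓ : ℚ) ^ K * x = z) :
    ∃ (k a : ℕ), 0 < k ∧ a.Coprime ℓ ∧ ∃ m : ℤ, x = a / ((ℓ ^ k : ℕ) : ℚ) + m := by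
  have hden : x.den ∣ ℓ ^ K := by
    have h1 : x = Rat.divInt z ((ℓ ^ K : ℕ) : ℤ) := by
      rw [Rat.divInt_eq_div]
      have : ((ℓ ^ K : ℕ) : ℚ) ≠ 0 := by
        exact_mod_cast (pow_pos hℓ.pos K).ne'
      rw [eq_div_iff (by exact_mod_cast this)]
      rw [← hz]
      push_cast
      ring
    have h2 := Rat.den_dvd z ((ℓ ^ K : ℕ) : ℤ)
    rw [← h1] at h2
    exact_mod_cast h2
  obtain ⟨k, _, hk⟩ := (Nat.dvd_prime_pow hℓ).mp hden
  have hk0 : 0 < k := by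
    rcases Nat.eq_zero_or_pos k with h | h
    · exfalso
      rw [h, pow_zero] at hk
      exact hx x.num (by rw [Rat.coe_int_num_of_den_eq_one hk])
    · exact h
  have hpos : (0 : ℤ) < ((ℓ ^ k : ℕ) : ℤ) := by exact_mod_cast pow_pos hℓ.pos k
  refine ⟨k, (x.num % ((ℓ ^ k : ℕ) : ℤ)).toNat, hk0, ?_, x.num / ((ℓ ^ k : ℕ) : ℤ), ?_⟩
  · have h1 : Int.gcd x.num ((ℓ ^ k : ℕ) : ℤ) = 1 := by
      have := x.reduced
      rw [hk] at this
      rw [Int.gcd, Int.natAbs_natCast]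
      exact this
    have h2 : Int.gcd (x.num % ((ℓ ^ k : ℕ) : ℤ)) ((ℓ ^ k : ℕ) : ℤ) = 1 := by
      rw [Int.gcd_emod]
      exact h1
    have h3 : (((x.num % ((ℓ ^ k : ℕ) : ℤ)).toNat : ℕ) : ℤ) = x.num % ((ℓ ^ k : ℕ) : ℤ) :=
      Int.toNat_of_nonneg (Int.emod_nonneg _ hpos.ne')
    rw [← h3] at h2
    have h4 : Nat.gcd (x.num % ((ℓ ^ k : ℕ) : ℤ)).toNat (ℓ ^ k) = 1 := by
      exact_mod_cast h2
    exact Nat.Coprime.coprime_dvd_right (dvd_pow_self ℓ hk0.ne') h4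
  · have h3 : (((x.num % ((ℓ ^ k : ℕ) : ℤ)).toNat : ℕ) : ℤ) = x.num % ((ℓ ^ k : ℕ) : ℤ) :=
      Int.toNat_of_nonneg (Int.emod_nonneg _ hpos.ne')
    have h4 : (((x.num % ((ℓ ^ k : ℕ) : ℤ)).toNat : ℕ) : ℚ) =
        ((x.num % ((ℓ ^ k : ℕ) : ℤ) : ℤ) : ℚ) := by exact_mod_cast h3
    rw [h4]
    have h5 : x = x.num / ((ℓ ^ k : ℕ) : ℚ) := by
      conv_lhs => rw [← Rat.num_div_den x, hk]
    have h6 : (x.num : ℚ) = ((ℓ ^ k : ℕ) : ℚ) * ((x.num / ((ℓ ^ k : ℕ) : ℤ) : ℤ) : ℚ) +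
        ((x.num % ((ℓ ^ k : ℕ) : ℤ) : ℤ) : ℚ) := by
      have := Int.mul_ediv_add_emod x.num ((ℓ ^ k : ℕ) : ℤ)
      exact_mod_cast this.symm
    have hne : ((ℓ ^ k : ℕ) : ℚ) ≠ 0 := by exact_mod_cast (pow_pos hℓ.pos k).ne'
    conv_lhs => rw [h5, h6]
    field_simp
    ring

theorem thm_ONE (hGD : Stmt_GD) (hDist : Stmt_Dist) : Stmt_One := by
  intro ℓ hℓ hOdd ι s n x hx hsum
  classical
  have : NeZero ℓ := ⟨hℓ.ne_zero⟩
  have hch : ∀ i, ∃ (k a : ℕ), i ∈ s → (0 < k ∧ a.Coprime ℓ ∧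
      ∃ m : ℤ, x i = a / ((ℓ ^ k : ℕ) : ℚ) + m) := by
    intro i
    by_cases hi : i ∈ s
    · obtain ⟨h1, K, z, hz⟩ := hx i hi
      obtain ⟨k, a, h⟩ := lowest hℓ h1 hz
      exact ⟨k, a, fun _ => h⟩
    · exact ⟨0, 0, fun h => absurd h hi⟩
  choose k a hka using hch
  set K : ℕ := s.sup k + 1 with hKdef
  have hK0 : 0 < K := Nat.succ_pos _
  have hkK : ∀ i ∈ s, k i ≤ K := fun i hi => (Finset.le_sup hi).trans (Nat.le_succ _)
  set D : (ZMod (ℓ ^ K))ˣ → ℚ := fun b => ∑ i ∈ s, (n i : ℚ) *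
    (if ((b : ZMod (ℓ ^ K)).val ≡ a i [MOD ℓ ^ k i]) then 1 else 0) with hD
  -- the general formula
  have hgen : ∀ (V : Type) [AddCommGroup V] [Module ℚ V] (h : ℚ → V),
      (∀ x, h (x + 1) = h x) → (∀ x : ℚ, (∀ z : ℤ, (ℓ : ℚ) * x ≠ z) →
      ∑ k ∈ Finset.range ℓ, h (x + k / ℓ) = h (ℓ * x)) → ∀ t : (ZMod (ℓ ^ K))ˣ,
      ∑ b : (ZMod (ℓ ^ K))ˣ, D b •
        h ((((t * b : (ZMod (ℓ ^ K))ˣ) : ZMod (ℓ ^ K)).val : ℚ) / ((ℓ ^ K : ℕ) : ℚ)) =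
      ∑ i ∈ s, (n i : ℚ) • h (((t : ZMod (ℓ ^ K)).val : ℚ) * x i) := by
    intro V _ _ h hp hd t
    simp only [hD, Finset.sum_smul]
    rw [Finset.sum_comm]
    refine Finset.sum_congr rfl fun i hi => ?_
    obtain ⟨h1, h2, m, h3⟩ := hka i hi
    rw [← key hGD h hℓ hp hd h1 (hkK i hi) h2 h3 t, Finset.smul_sum]
    refine Finset.sum_congr rfl fun b _ => ?_
    rw [mul_smul]
    congr 1
    split_ifs
    · rw [one_smul]
    · rw [zero_smul]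
  have heven : ∀ b, D b = D (-b) := by
    refine hOdd K hK0 D ?_
    intro t
    have h1 := hgen (ℝ ⧸ algLog) (fun y => algLog.mkQ (Hlog y))
      (fun y => by simp only [hlog_periodic]) (fun y hy => by
        have h2 := hDist ℓ hℓ.pos y hy
        rw [← map_sum, ← sub_eq_zero, ← map_sub]
        exact (Submodule.Quotient.mk_eq_zero _).mpr h2) t
    rw [← Submodule.Quotient.mk_eq_zero, ← Submodule.mkQ_apply, map_sum]
    have h3 : ∀ b : (ZMod (ℓ ^ K))ˣ, algLog.mkQ ((D b : ℝ) *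
        Hlog ((((t * b : (ZMod (ℓ ^ K))ˣ) : ZMod (ℓ ^ K)).val : ℚ) / ((ℓ ^ K : ℕ) : ℚ))) =
        D b • algLog.mkQ (Hlog ((((t * b : (ZMod (ℓ ^ K))ˣ) : ZMod (ℓ ^ K)).val : ℚ) /
          ((ℓ ^ K : ℕ) : ℚ))) := by
      intro b
      rw [← map_smul, Rat.smul_def]
    rw [Finset.sum_congr rfl fun b _ => h3 b, h1]
    have h4 := hsum (t : ZMod (ℓ ^ K)).val (unit_coprime hK0 t)
    rw [← Submodule.Quotient.mk_eq_zero, ← Submodule.mkQ_apply, map_sum] at h4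
    rw [← h4]
    refine Finset.sum_congr rfl fun i _ => ?_
    rw [← map_smul, Rat.smul_def]
    push_cast
    rfl
  have h1 := hgen ℚ (fun y => Int.fract y - 1 / 2) (fun y => by
      simp only [Int.fract_add_one]) (fun y _ => hermite ℓ hℓ.pos y) 1
  have hone : ((1 : (ZMod (ℓ ^ K))ˣ) : ZMod (ℓ ^ K)).val = 1 := by
    have : Fact (1 < ℓ ^ K) := ⟨Nat.one_lt_pow hK0.ne' hℓ.one_lt⟩
    rw [Units.val_one, ZMod.val_one]
  simp only [hone, one_mul, Nat.cast_one, smul_eq_mul] at h1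
  rw [← h1]
  -- the sum is odd
  set g : (ZMod (ℓ ^ K))ˣ → ℚ := fun b =>
    Int.fract (((b : ZMod (ℓ ^ K)).val : ℚ) / ((ℓ ^ K : ℕ) : ℚ)) - 1 / 2 with hg
  have hodd : ∀ b, g (-b) = - g b := by
    intro b
    simp only [hg]
    have hlt : (1 : ℕ) < ℓ ^ K := Nat.one_lt_pow hK0.ne' hℓ.one_lt
    have hb0 : (b : ZMod (ℓ ^ K)).val ≠ 0 := by
      intro h0
      have := ZMod.val_coe_unit_coprime b
      rw [h0] at this
      have h2 := Nat.coprime_zero_left _ |>.mp this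
      omega
    have hv : ((-b : (ZMod (ℓ ^ K))ˣ) : ZMod (ℓ ^ K)).val = ℓ ^ K - (b : ZMod (ℓ ^ K)).val := by
      rw [Units.val_neg]
      have : NeZero (b : ZMod (ℓ ^ K)) := ⟨fun h => hb0 (by rw [h]; exact ZMod.val_zero)⟩
      exact ZMod.val_neg_of_ne_zero _
    have hlt2 := ZMod.val_lt (b : ZMod (ℓ ^ K))
    rw [hv]
    have hpos : (0 : ℚ) < ((ℓ ^ K : ℕ) : ℚ) := by exact_mod_cast pow_pos hℓ.pos K
    have hf1 : Int.fract (((b : ZMod (ℓ ^ K)).val : ℚ) / ((ℓ ^ K : ℕ) : ℚ)) =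
        ((b : ZMod (ℓ ^ K)).val : ℚ) / ((ℓ ^ K : ℕ) : ℚ) := by
      rw [Int.fract_eq_self]
      refine ⟨by positivity, ?_⟩
      rw [div_lt_one hpos]
      exact_mod_cast hlt2
    have hf2 : Int.fract (((ℓ ^ K - (b : ZMod (ℓ ^ K)).val : ℕ) : ℚ) / ((ℓ ^ K : ℕ) : ℚ)) =
        1 - ((b : ZMod (ℓ ^ K)).val : ℚ) / ((ℓ ^ K : ℕ) : ℚ) := by
      rw [Nat.cast_sub hlt2.le, sub_div, div_self hpos.ne']
      rw [Int.fract_eq_self]
      have h3 : (0 : ℚ) < ((b : ZMod (ℓ ^ K)).val : ℚ) / ((ℓ ^ K : ℕ) : ℚ) := by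
        have : (0 : ℚ) < ((b : ZMod (ℓ ^ K)).val : ℚ) := by
          exact_mod_cast Nat.pos_of_ne_zero hb0
        positivity
      have h4 : ((b : ZMod (ℓ ^ K)).val : ℚ) / ((ℓ ^ K : ℕ) : ℚ) < 1 := by
        rw [div_lt_one hpos]
        exact_mod_cast hlt2
      constructor
      · linarith
      · linarith
    rw [hf1, hf2]
    ring
  have h2 : ∑ b, D b * g b = - ∑ b, D b * g b := by
    conv_lhs => rw [← Equiv.sum_comp (Equiv.neg (ZMod (ℓ ^ K))ˣ)]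
    rw [← Finset.sum_neg_distrib]
    refine Finset.sum_congr rfl fun b _ => ?_
    rw [Equiv.neg_apply, ← heven b, hodd b]
    ring
  have h3 : ∑ b, D b * g b = 0 := by linarith
  exact h3

end Pool.Agent.FDR.ONE
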