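import Pool.Agent.FDR.Stmts2

/-!
# FDR module ONE2: points with denominators `2 ℓ ^ K`
-/

open scoped BigOperators

namespace Pool.Agent.FDR.ONE2

open Finset

lemma Hlog_add_int (x : ℚ) (m : ℤ) : Hlog (x + m) = Hlog x := by
  unfold Hlog
  rw [Int.fract_add_intCast]

lemma fract_half (x : ℚ) (m : ℤ) (h : x + 1 / 2 = m) : Int.fract x = 1 / 2 := by
  have h1 : x = 1 / 2 + ((m - 1 : ℤ) : ℚ) := by push_cast; linarith
  rw [h1, Int.fract_add_intCast, Int.fract_eq_self.mpr]
  constructor <;> norm_num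

lemma Hlog_half (x : ℚ) (m : ℤ) (h : x + 1 / 2 = m) : Hlog x = 0 := by
  unfold Hlog
  rw [fract_half x m h]
  norm_num

lemma fract_dist (x : ℚ) :
    (Int.fract (2 * x) - 1 / 2) - (Int.fract (x + 1 / 2) - 1 / 2) = Int.fract x - 1 / 2 := by
  have h0 := Int.fract_nonneg x
  have h1 := Int.fract_lt_one x
  have hx : x = Int.fract x + (⌊x⌋ : ℚ) := by
    have := Int.fract_add_floor x
    linarith
  set y := Int.fract x with hy
  have e1 : Int.fract (2 * x) = Int.fract (2 * y) := by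
    have : 2 * x = 2 * y + ((2 * ⌊x⌋ : ℤ) : ℚ) := by push_cast; linarith
    rw [this, Int.fract_add_intCast]
  have e2 : Int.fract (x + 1 / 2) = Int.fract (y + 1 / 2) := by
    have : x + 1 / 2 = (y + 1 / 2) + ((⌊x⌋ : ℤ) : ℚ) := by linarith
    rw [this, Int.fract_add_intCast]
  rw [e1, e2]
  rcases lt_or_ge y (1 / 2) with h | h
  · rw [Int.fract_eq_self.mpr ⟨by linarith, by linarith⟩,
      Int.fract_eq_self.mpr ⟨by linarith, by linarith⟩]
    ring
  · have e3 : Int.fract (2 * y) = 2 * y - 1 := by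
      have : 2 * y = (2 * y - 1) + ((1 : ℤ) : ℚ) := by push_cast; ring
      rw [this, Int.fract_add_intCast, Int.fract_eq_self.mpr ⟨by linarith, by linarith⟩]
      push_cast; ring
    have e4 : Int.fract (y + 1 / 2) = y - 1 / 2 := by
      have : y + 1 / 2 = (y - 1 / 2) + ((1 : ℤ) : ℚ) := by push_cast; ring
      rw [this, Int.fract_add_intCast, Int.fract_eq_self.mpr ⟨by linarith, by linarith⟩]
    rw [e3, e4]
    ring

lemma not_int_mul (ℓ K t : ℕ) (x : ℚ) (z : ℤ) (ht : t.Coprime ℓ)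
    (hz : (ℓ : ℚ) ^ K * x = z) (hx : ∀ m : ℤ, x ≠ m) : ∀ m : ℤ, (t : ℚ) * x ≠ m := by
  intro m hm
  have h1 : IsCoprime (t : ℤ) ((ℓ : ℤ) ^ K) := by
    have := Nat.Coprime.pow_right K ht
    have h2 := Nat.isCoprime_iff_coprime.mpr this
    push_cast at h2
    exact h2
  obtain ⟨a, b, hab⟩ := h1
  refine hx (a * m + b * z) ?_
  have h2 : ((a : ℚ) * t + b * (ℓ : ℚ) ^ K) = 1 := by exact_mod_cast hab
  calc x = ((a : ℚ) * t + b * (ℓ : ℚ) ^ K) * x := by rw [h2, one_mul]
    _ = a * ((t : ℚ) * x) + b * ((ℓ : ℚ) ^ K * x) := by ring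
    _ = ((a * m + b * z : ℤ) : ℚ) := by rw [hm, hz]; push_cast; ring

/-- ONE2 -/
theorem thm_ONE2 (hOne : Stmt_One) (hDist : Stmt_Dist) : Stmt_One2 := by
  classical
  intro ℓ hℓ hodd ι s n x hx hrel
  by_cases h2 : ℓ = 2
  · subst h2
    refine hOne 2 hℓ hodd ι s n x (fun i hi => ⟨(hx i hi).1, ?_⟩)
      (fun t ht => hrel t (Nat.Coprime.mul_right ht ht))
    obtain ⟨K, z, hz⟩ := (hx i hi).2
    refine ⟨K + 1, z, ?_⟩
    rw [← hz, pow_succ]
    push_cast
    ring
  have hℓodd : Odd ℓ := hℓ.odd_of_ne_two h2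
  set A : ι → Prop := fun i => ∃ (K : ℕ) (z : ℤ), (ℓ : ℚ) ^ K * x i = z with hA
  set C : ι → Prop := fun i => ∃ z : ℤ, x i + 1 / 2 = z with hC
  set s' : Finset (ι ⊕ ι) := (s.filter (fun i => A i ∨ ¬ C i)).disjSum
    (s.filter (fun i => ¬ A i ∧ ¬ C i)) with hs'
  set n' : ι ⊕ ι → ℤ := Sum.elim n (fun i => -n i) with hn'
  set x' : ι ⊕ ι → ℚ := Sum.elim (fun i => if A i then x i else 2 * x i)
    (fun i => x i + 1 / 2) with hx'
  -- type B facts
  have hBint : ∀ i ∈ s, ¬ A i → ¬ C i → (∀ z : ℤ, 2 * x i ≠ z) ∧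
      (∃ (K : ℕ) (z : ℤ), (ℓ : ℚ) ^ K * (2 * x i) = z) ∧
      (∃ (K : ℕ) (z : ℤ), (ℓ : ℚ) ^ K * (x i + 1 / 2) = z) := by
    intro i hi hAi hCi
    obtain ⟨hxi, K, z, hz⟩ := hx i hi
    refine ⟨?_, ⟨K, z, by rw [← hz]; ring⟩, ?_⟩
    · intro m hm
      rcases Int.even_or_odd' m with ⟨w, hw | hw⟩
      · apply hxi w
        rw [hw] at hm
        push_cast at hm
        linarith
      · apply hCi
        refine ⟨w + 1, ?_⟩
        rw [hw] at hm
        push_cast at hm ⊢
        linarith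
    · have hzodd : Odd z := by
        rw [← Int.not_even_iff_odd]
        rintro ⟨w, hw⟩
        apply hAi
        refine ⟨K, w, ?_⟩
        rw [hw] at hz
        push_cast at hz
        linarith
      obtain ⟨u, hu⟩ := hzodd
      obtain ⟨v, hv⟩ := hℓodd.pow (n := K)
      refine ⟨K, u + v + 1, ?_⟩
      have hv' : (ℓ : ℚ) ^ K = 2 * v + 1 := by exact_mod_cast hv
      rw [hu] at hz
      push_cast at hz ⊢
      have : (ℓ : ℚ) ^ K * (x i + 1 / 2) = (2 * (ℓ : ℚ) ^ K * x i + (ℓ : ℚ) ^ K) / 2 := by ring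
      rw [this, hz, hv']
      ring
  have hs'cond : ∀ i ∈ s', (∀ z : ℤ, x' i ≠ z) ∧ ∃ (K : ℕ) (z : ℤ), (ℓ : ℚ) ^ K * x' i = z := by
    intro i hi
    rw [hs', Finset.mem_disjSum] at hi
    rcases hi with ⟨j, hj, rfl⟩ | ⟨j, hj, rfl⟩
    · obtain ⟨hjs, hj⟩ := Finset.mem_filter.mp hj
      by_cases hAj : A j
      · have e : x' (Sum.inl j) = x j := by simp [hx', hAj]
        rw [e]
        exact ⟨(hx j hjs).1, hAj⟩
      · have hCj : ¬ C j := hj.resolve_left hAj
        have e : x' (Sum.inl j) = 2 * x j := by simp [hx', hAj]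
        rw [e]
        exact ⟨(hBint j hjs hAj hCj).1, (hBint j hjs hAj hCj).2.1⟩
    · obtain ⟨hjs, hAj, hCj⟩ := Finset.mem_filter.mp hj
      have e : x' (Sum.inr j) = x j + 1 / 2 := by simp [hx']
      rw [e]
      exact ⟨fun z hz => hCj ⟨z, hz⟩, (hBint j hjs hAj hCj).2.2⟩
  -- the relation for odd `t`
  have hodd_t : ∀ t : ℕ, Odd t → t.Coprime ℓ →
      ∑ i ∈ s', (n' i : ℝ) * Hlog (t * x' i) ∈ algLog := by
    intro t ht htℓ
    have ht2 : t.Coprime (2 * ℓ) :=
      Nat.Coprime.mul_right (Nat.coprime_two_right.mpr ht) htℓ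
    have h0 := hrel t ht2
    have h1 : ∑ i ∈ s', (n' i : ℝ) * Hlog (t * x' i)
        = ∑ i ∈ s, (n i : ℝ) * Hlog (t * x i)
          - ∑ i ∈ s, (n i : ℝ) * (Hlog (t * x i) - (if A i then Hlog (t * x i) else
            if C i then 0 else Hlog (t * (2 * x i)) - Hlog (t * (x i + 1 / 2)))) := by
      rw [hs', Finset.sum_disjSum, Finset.sum_filter, Finset.sum_filter, ← Finset.sum_sub_distrib,
        ← Finset.sum_add_distrib]
      refine Finset.sum_congr rfl (fun i _ => ?_)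
      by_cases hAi : A i
      · simp [hn', hx', hAi]
      · by_cases hCi : C i
        · simp [hAi, hCi]
        · simp [hn', hx', hAi, hCi]
          ring
    rw [h1]
    refine algLog.sub_mem h0 (Submodule.sum_mem _ (fun i hi => ?_))
    have h3 : Hlog (t * x i) - (if A i then Hlog (t * x i) else
            if C i then 0 else Hlog (t * (2 * x i)) - Hlog (t * (x i + 1 / 2))) ∈ algLog := by
      by_cases hAi : A i
      · simp [hAi]
      by_cases hCi : C i
      · rw [if_neg hAi, if_pos hCi]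
        obtain ⟨m, hm⟩ := hCi
        obtain ⟨w, hw⟩ := ht
        have : Hlog (t * x i) = 0 := by
          refine Hlog_half _ (t * m - w) ?_
          have e : x i = m - 1 / 2 := by linarith
          rw [e, hw]
          push_cast
          ring
        rw [this, sub_zero]
        exact algLog.zero_mem
      · rw [if_neg hAi, if_neg hCi]
        obtain ⟨hB1, ⟨K, z, hz⟩, -⟩ := hBint i hi hAi hCi
        have h4 := hDist 2 (by norm_num) (t * x i) (by
          have := not_int_mul ℓ K t (2 * x i) z htℓ hz hB1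
          intro m hm
          apply this m
          rw [← hm]
          push_cast
          ring)
        rw [Finset.sum_range_succ, Finset.sum_range_one] at h4
        obtain ⟨w, hw⟩ := ht
        have e1 : Hlog (t * (x i + 1 / 2)) = Hlog (t * x i + ((1 : ℕ) : ℚ) / ((2 : ℕ) : ℚ)) := by
          rw [← Hlog_add_int (t * x i + ((1 : ℕ) : ℚ) / ((2 : ℕ) : ℚ)) w]
          congr 1
          rw [hw]
          push_cast
          ring
        have e2 : Hlog (t * (2 * x i)) = Hlog (((2 : ℕ) : ℚ) * (t * x i)) := by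
          congr 1
          push_cast
          ring
        have e3 : Hlog (t * x i) = Hlog (t * x i + ((0 : ℕ) : ℚ) / ((2 : ℕ) : ℚ)) := by
          congr 1
          push_cast
          ring
        rw [e1, e2]
        convert h4 using 1
        rw [← e3]
        ring
    have h5 := algLog.toAddSubgroup.zsmul_mem h3 (n i)
    rw [zsmul_eq_mul] at h5
    exact h5
  -- common denominator
  have hKex : ∀ i : ι ⊕ ι, ∃ K : ℕ, i ∈ s' → ∃ z : ℤ, (ℓ : ℚ) ^ K * x' i = z := by
    intro i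
    by_cases hi : i ∈ s'
    · obtain ⟨K, z, hz⟩ := (hs'cond i hi).2
      exact ⟨K, fun _ => ⟨z, hz⟩⟩
    · exact ⟨0, fun h => absurd h hi⟩
  choose Kf hKf using hKex
  set KK : ℕ := ∑ i ∈ s', Kf i + 1 with hKK
  have hKK' : ∀ i ∈ s', ∃ z : ℤ, (ℓ : ℚ) ^ KK * x' i = z := by
    intro i hi
    obtain ⟨z, hz⟩ := hKf i hi
    have hle : Kf i ≤ KK :=
      (Finset.single_le_sum (f := Kf) (fun _ _ => Nat.zero_le _) hi).trans (Nat.le_succ _)
    refine ⟨(ℓ : ℤ) ^ (KK - Kf i) * z, ?_⟩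
    have : (ℓ : ℚ) ^ KK = (ℓ : ℚ) ^ (KK - Kf i) * (ℓ : ℚ) ^ Kf i := by
      rw [← pow_add]; congr 1; omega
    rw [this, mul_assoc, hz]
    push_cast
    ring
  have hall_t : ∀ t : ℕ, t.Coprime ℓ → ∑ i ∈ s', (n' i : ℝ) * Hlog (t * x' i) ∈ algLog := by
    intro t ht
    rcases Nat.even_or_odd t with hev | hod
    · have h1 := hodd_t (t + ℓ ^ KK) (hev.add_odd hℓodd.pow) (by
        rw [hKK, pow_succ, mul_comm]
        exact (Nat.coprime_add_mul_left_left t ℓ _).mpr ht)
      have h3 : ∑ i ∈ s', (n' i : ℝ) * Hlog (((t + ℓ ^ KK : ℕ) : ℚ) * x' i)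
          = ∑ i ∈ s', (n' i : ℝ) * Hlog (t * x' i) := by
        refine Finset.sum_congr rfl (fun i hi => ?_)
        obtain ⟨z, hz⟩ := hKK' i hi
        congr 1
        rw [← Hlog_add_int (t * x' i) z]
        congr 1
        rw [← hz]
        push_cast
        ring
      rw [h3] at h1
      exact h1
    · exact hodd_t t hod ht
  have hfin := hOne ℓ hℓ hodd (ι ⊕ ι) s' n' x' hs'cond hall_t
  rw [← hfin, hs', Finset.sum_disjSum, Finset.sum_filter, Finset.sum_filter,
    ← Finset.sum_add_distrib]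
  refine Finset.sum_congr rfl (fun i _ => ?_)
  by_cases hAi : A i
  · simp [hn', hx', hAi]
  · by_cases hCi : C i
    · obtain ⟨m, hm⟩ := id hCi
      simp [hAi, hCi, fract_half (x i) m hm]
    · have h6 := fract_dist (x i)
      rw [← h6]
      simp [hn', hx', hAi, hCi]
      ring

end Pool.Agent.FDR.ONE2
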