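import Pool.Agent.FDR.Stmts

/-!
# PERANY : periods do not depend on the representation
-/

open scoped Topology
open Metric Filter

namespace Pool.Agent.FDR.PERANY

variable {E ι : Type} [NormedAddCommGroup E] [NormedSpace ℂ E]

/-- nonzero analytic functions on a ball do not vanish identically near any point -/
theorem frequently_ne {R : ℝ} {A : E → ℂ} (hA : AnalyticOnNhd ℂ A (ball 0 R)) (h0 : A 0 ≠ 0)
    {p : E} (hp : p ∈ ball (0 : E) R) : ∃ᶠ q in 𝓝 p, A q ≠ 0 := by
  intro h
  have hR : (0 : E) ∈ ball (0 : E) R := by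
    rw [mem_ball, dist_self]
    exact lt_of_le_of_lt dist_nonneg (mem_ball.1 hp)
  have h1 : A =ᶠ[𝓝 p] 0 := by
    filter_upwards [h] with q hq
    simpa using hq
  have h2 := hA.eqOn_zero_of_preconnected_of_eventuallyEq_zero
    (convex_ball (0 : E) R).isPreconnected hp h1
  exact h0 (h2 hR)

/-- cancellation of a nonzero analytic factor -/
theorem cancel {R : ℝ} {A : E → ℂ} (hA : AnalyticOnNhd ℂ A (ball 0 R)) (h0 : A 0 ≠ 0)
    {p : E} (hp : p ∈ ball (0 : E) R) {f g : E → ℂ} (hf : ContinuousAt f p)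
    (hg : ContinuousAt g p) (h : ∀ᶠ q in 𝓝 p, A q * f q = A q * g q) : f p = g p := by
  by_contra hne
  have h1 : ∀ᶠ q in 𝓝 p, f q - g q ≠ 0 := by
    have h2 : ContinuousAt (fun q => f q - g q) p := hf.sub hg
    exact h2.eventually_ne (sub_ne_zero.2 hne)
  obtain ⟨q, hq1, hq2, hq3⟩ := ((frequently_ne hA h0 hp).and_eventually (h1.and h)).exists
  apply hq2
  have h4 := mul_left_cancel₀ hq1 hq3
  rw [h4, sub_self]

/-- the germ is continuous near `0` -/
theorem germ_cont [Finite ι] {F : E → ι → ℂ} {R : ℝ} (hR : 0 < R) (r : Rep F R) :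
    ∀ᶠ z in 𝓝 (0 : E), ∀ i, ContinuousAt (fun z => F z i) z := by
  have h0 : (0 : E) ∈ ball (0 : E) R := by simpa using hR
  have hne : ∀ᶠ z in 𝓝 (0 : E), r.G0 z ≠ 0 :=
    ((r.an0 0 h0).continuousAt).eventually_ne r.ne
  have h1 : ∀ᶠ z in 𝓝 (0 : E), z ∈ ball (0 : E) R := isOpen_ball.mem_nhds h0
  filter_upwards [r.eq.eventually_nhds, hne.eventually_nhds, h1] with z hz1 hz2 hz3
  intro i
  have h3 : (fun z => F z i) =ᶠ[𝓝 z] fun z => r.G i z / r.G0 z := by
    filter_upwards [hz1, hz2] with q hq1 hq2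
    rw [hq1 i, mul_div_assoc, div_self hq2, mul_one]
  have h4 : ContinuousAt (fun z => r.G i z / r.G0 z) z := by
    refine ((r.an i z hz3).continuousAt).div ((r.an0 z hz3).continuousAt) ?_
    exact hz2.self_of_nhds
  exact h4.congr_of_eventuallyEq h3

/-- two representations agree -/
theorem rep_eq {F : E → ι → ℂ} {R R' : ℝ} (r : Rep F R) (r' : Rep F R') (i : ι) :
    ∀ z ∈ ball (0 : E) (min R R'), r.G i z * r'.G0 z = r'.G i z * r.G0 z := by
  intro z hz
  have hpos : 0 < min R R' := lt_of_le_of_lt (norm_nonneg z) (by simpa using hz)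
  have h0 : (0 : E) ∈ ball (0 : E) (min R R') := by simpa using hpos
  have hs1 : ball (0 : E) (min R R') ⊆ ball 0 R := ball_subset_ball (min_le_left _ _)
  have hs2 : ball (0 : E) (min R R') ⊆ ball 0 R' := ball_subset_ball (min_le_right _ _)
  have h1 : AnalyticOnNhd ℂ (fun z => r.G i z * r'.G0 z) (ball 0 (min R R')) :=
    ((r.an i).mono hs1).mul (r'.an0.mono hs2)
  have h2 : AnalyticOnNhd ℂ (fun z => r'.G i z * r.G0 z) (ball 0 (min R R')) :=
    ((r'.an i).mono hs2).mul (r.an0.mono hs1)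
  have h3 : (fun z => r.G i z * r'.G0 z) =ᶠ[𝓝 0] fun z => r'.G i z * r.G0 z := by
    filter_upwards [r.eq, r'.eq] with q h4 h5
    rw [h4 i, h5 i]
    ring
  exact h1.eqOn_of_preconnected_of_eventuallyEq h2
    (convex_ball (0 : E) (min R R')).isPreconnected h0 h3 hz

theorem thm_PERANY : Stmt_PerAny := by
  intro E ι _ _ _ F γ hγ R hR r
  obtain ⟨R', hR', r', hper⟩ := hγ
  have hRpos : 0 < R := lt_of_le_of_lt (norm_nonneg γ) hR
  have hmin : γ ∈ ball (0 : E) (min R R') := by
    simpa using ⟨hR, hR'⟩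
  have hshift : Tendsto (fun w : E => γ + w) (𝓝 0) (𝓝 γ) := by
    have : Tendsto (fun w : E => γ + w) (𝓝 0) (𝓝 (γ + 0)) :=
      (continuous_const.add continuous_id).tendsto 0
    simpa using this
  have hball : ∀ᶠ w in 𝓝 (0 : E), γ + w ∈ ball (0 : E) (min R R') :=
    hshift.eventually (isOpen_ball.mem_nhds hmin)
  have first : ∀ᶠ w in 𝓝 (0 : E), ∀ i, r.G i (γ + w) = F w i * r.G0 (γ + w) := by
    filter_upwards [hball, hper.eventually_nhds, germ_cont hRpos r] with w hw1 hw2 hw3
    intro i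
    have hw4 : γ + w ∈ ball (0 : E) R := ball_subset_ball (min_le_left _ _) hw1
    have hw5 : γ + w ∈ ball (0 : E) R' := ball_subset_ball (min_le_right _ _) hw1
    have hc : Tendsto (fun q : E => -γ + q) (𝓝 (γ + w)) (𝓝 w) := by
      have : Tendsto (fun q : E => -γ + q) (𝓝 (γ + w)) (𝓝 (-γ + (γ + w))) :=
        (continuous_const.add continuous_id).tendsto _
      simpa using this
    have key := cancel (R := R') r'.an0 r'.ne (p := γ + w) hw5
      (f := fun q => r.G i q) (g := fun q => F (-γ + q) i * r.G0 q)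
      ((r.an i _ hw4).continuousAt) ?_ ?_
    · simpa using key
    · refine ContinuousAt.mul ?_ ((r.an0 _ hw4).continuousAt)
      have h6 := hw3 i
      have h7 : (fun q : E => F (-γ + q) i) = (fun z => F z i) ∘ (fun q : E => -γ + q) := rfl
      rw [h7]
      refine ContinuousAt.comp ?_ ((continuous_const.add continuous_id).continuousAt)
      simpa using h6
    · have h8 : ∀ᶠ q in 𝓝 (γ + w), q ∈ ball (0 : E) (min R R') := isOpen_ball.mem_nhds hw1
      filter_upwards [h8, hc.eventually hw2] with q hq1 hq2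
      have h9 := rep_eq r r' i q hq1
      have h10 := hq2 i
      have h11 : γ + (-γ + q) = q := by abel
      rw [h11] at h10
      rw [mul_comm (r'.G0 q) (r.G i q), h9, h10]
      ring
  refine ⟨first, ?_⟩
  intro ε hε hle w hw i
  have hεpos : 0 < ε := lt_of_le_of_lt (norm_nonneg w) (by simpa using hw)
  have h0 : (0 : E) ∈ ball (0 : E) ε := by simpa using hεpos
  have hmaps : ∀ w ∈ ball (0 : E) ε, γ + w ∈ ball (0 : E) R := by
    intro w hw
    rw [mem_ball_zero_iff] at *
    calc ‖γ + w‖ ≤ ‖γ‖ + ‖w‖ := norm_add_le _ _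
      _ < ‖γ‖ + ε := by linarith
      _ ≤ R := hle
  have hsh : ∀ w : E, AnalyticAt ℂ (fun w : E => γ + w) w := fun w =>
    analyticAt_const.add analyticAt_id
  have h1 : AnalyticOnNhd ℂ (fun w => r.G i (γ + w)) (ball 0 ε) := by
    intro w hw
    exact AnalyticAt.fun_comp (r.an i _ (hmaps w hw)) (hsh w)
  have h2 : AnalyticOnNhd ℂ (fun w => F w i * r.G0 (γ + w)) (ball 0 ε) := by
    intro w hw
    exact (hε i w hw).mul (AnalyticAt.fun_comp (r.an0 _ (hmaps w hw)) (hsh w))
  have h3 : (fun w => r.G i (γ + w)) =ᶠ[𝓝 0] fun w => F w i * r.G0 (γ + w) := by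
    filter_upwards [first] with w hw
    exact hw i
  exact h1.eqOn_of_preconnected_of_eventuallyEq h2 (convex_ball (0 : E) ε).isPreconnected h0 h3 hw

end Pool.Agent.FDR.PERANY
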