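import Pool.Agent.FDR.Stmts

/-!
# FDR, module PERFST: functions which do not depend on the second coordinate
-/

open scoped BigOperators Polynomial Topology
open Metric Filter

namespace Pool.Agent.FDR.PERFST

noncomputable section

theorem per_zero {E ι : Type} [NormedAddCommGroup E] [NormedSpace ℂ E] [Fintype ι]
    (U : E → ι → ℂ) (hG : HasGrowth (fun p : E × ℂ => U p.1)) (η : ℂ) :
    IsPer (fun p : E × ℂ => U p.1) (0, η) := by
  obtain ⟨C, ρ, hC, hρ, hG⟩ := hG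
  obtain ⟨r, -, -⟩ := hG (‖η‖ + 1) (by linarith [norm_nonneg η])
  have hnη : ‖((0 : E), η)‖ < ‖η‖ + 1 := by
    rw [Prod.norm_def]
    simp only [norm_zero]
    rw [max_eq_right (norm_nonneg η)]
    linarith
  refine ⟨‖η‖ + 1, hnη, r, ?_⟩
  have hRpos : 0 < ‖η‖ + 1 := by positivity
  -- near zero `U` is analytic
  have han0 : AnalyticAt ℂ (fun z : E => r.G0 (z, 0)) 0 := by
    have h1 : AnalyticAt ℂ r.G0 ((ContinuousLinearMap.inl ℂ E ℂ) 0) := by
      rw [map_zero]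
      exact r.an0 0 (mem_ball_self hRpos)
    exact h1.comp ((ContinuousLinearMap.inl ℂ E ℂ).analyticAt 0)
  have han : ∀ i, AnalyticAt ℂ (fun z : E => r.G i (z, 0)) 0 := by
    intro i
    have h1 : AnalyticAt ℂ (r.G i) ((ContinuousLinearMap.inl ℂ E ℂ) 0) := by
      rw [map_zero]
      exact r.an i 0 (mem_ball_self hRpos)
    exact h1.comp ((ContinuousLinearMap.inl ℂ E ℂ).analyticAt 0)
  have hne : (fun z : E => r.G0 (z, 0)) 0 ≠ 0 := r.ne
  have hU : ∀ᶠ z in 𝓝 (0 : E), ∀ i, U z i = r.G i (z, 0) / r.G0 (z, 0) := by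
    have h1 : Tendsto (fun z : E => (z, (0 : ℂ))) (𝓝 (0 : E)) (𝓝 (0 : E × ℂ)) := by
      have := ((ContinuousLinearMap.inl ℂ E ℂ).continuous).tendsto 0
      rwa [map_zero] at this
    filter_upwards [h1.eventually r.eq, han0.continuousAt.eventually_ne hne] with z hz hz0 i
    rw [eq_div_iff hz0]
    exact (hz i).symm
  have hUan : ∀ i, AnalyticAt ℂ (fun z => U z i) 0 := by
    intro i
    refine ((han i).div han0 hne).congr ?_
    filter_upwards [hU] with z hz
    exact (hz i).symm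
  have hUan' : ∀ᶠ z in 𝓝 (0 : E), ∀ i, AnalyticAt ℂ (fun z => U z i) z := by
    rw [eventually_all]
    exact fun i => (hUan i).eventually_analyticAt
  obtain ⟨ε0, hε0, hball⟩ := Metric.eventually_nhds_iff_ball.mp hUan'
  obtain ⟨ε, hε, hεle, hεR⟩ : ∃ ε : ℝ, 0 < ε ∧ ε ≤ ε0 ∧ ε ≤ ‖η‖ + 1 :=
    ⟨min ε0 (‖η‖ + 1), lt_min hε0 hRpos, min_le_left _ _, min_le_right _ _⟩
  -- the identity theorem
  set S : Set (E × ℂ) := ball (0 : E) ε ×ˢ ball (0 : ℂ) (‖η‖ + 1) with hS
  have hSsub : S ⊆ ball (0 : E × ℂ) (‖η‖ + 1) := by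
    rintro ⟨z, w⟩ ⟨hz, hw⟩
    simp only [mem_ball_zero_iff] at hz hw ⊢
    rw [Prod.norm_def]
    exact max_lt (hz.trans_le hεR) hw
  have hSconv : Convex ℝ S := (convex_ball _ _).prod (convex_ball _ _)
  have hSopen : IsOpen S := isOpen_ball.prod isOpen_ball
  have h0S : (0 : E × ℂ) ∈ S := ⟨mem_ball_self hε, mem_ball_self hRpos⟩
  have hηS : ((0 : E), η) ∈ S := ⟨mem_ball_self hε, by
    rw [mem_ball_zero_iff]; linarith⟩
  have key : ∀ i, ∀ p ∈ S, r.G i p = U p.1 i * r.G0 p := by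
    intro i
    have h1 : AnalyticOnNhd ℂ (r.G i) S := fun p hp => r.an i p (hSsub hp)
    have h2 : AnalyticOnNhd ℂ (fun p : E × ℂ => U p.1 i * r.G0 p) S := by
      intro p hp
      refine AnalyticAt.mul ?_ (r.an0 p (hSsub hp))
      have h3 : AnalyticAt ℂ (fun z => U z i) ((ContinuousLinearMap.fst ℂ E ℂ) p) :=
        hball _ (ball_subset_ball hεle hp.1) i
      exact h3.comp ((ContinuousLinearMap.fst ℂ E ℂ).analyticAt p)
    refine h1.eqOn_of_preconnected_of_eventuallyEq h2 hSconv.isPreconnected h0S ?_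
    filter_upwards [r.eq] with p hp
    exact hp i
  have h4 : ∀ᶠ p in 𝓝 ((0 : E), η), p ∈ S := hSopen.mem_nhds hηS
  have h5 : Tendsto (fun w : E × ℂ => ((0 : E), η) + w) (𝓝 0) (𝓝 ((0 : E), η)) := by
    have : Continuous (fun w : E × ℂ => ((0 : E), η) + w) := by fun_prop
    have := this.tendsto 0
    rwa [add_zero] at this
  filter_upwards [h5.eventually h4] with w hw i
  have := key i _ hw
  rw [this]
  simp

theorem thm_PERFST (hPerGroup : Stmt_PerGroup) (hPull : Stmt_Pull) : Stmt_PerFst := by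
  intro E ι _ _ _ U hG γ η hγ
  obtain ⟨-, hadd, hneg⟩ := hPerGroup (E × ℂ) ι (fun p : E × ℂ => U p.1) hG
  have h1 : IsPer (fun p : E × ℂ => U p.1) (γ, 0) := by
    have h2 := hadd _ _ hγ (hneg _ (per_zero U hG η))
    have h3 : (γ, η) + -((0 : E), η) = (γ, 0) := by
      ext <;> simp
    rwa [h3] at h2
  have h4 := (hPull (E × ℂ) E ι ι (fun p : E × ℂ => U p.1) (ContinuousLinearMap.inl ℂ E ℂ) id
    hG).2 γ (by simpa using h1)
  exact h4

end

end Pool.Agent.FDR.PERFST
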