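import Pool.Agent.FDR.Stmts

/-!
# FDR, module PULL: pullback along continuous linear maps, and subfamilies
-/

open scoped BigOperators Polynomial Topology
open Metric Filter

namespace Pool.Agent.FDR.PULL

noncomputable section

/-- pullback of a representation -/
def pullRep {E E' ι ι' : Type} [NormedAddCommGroup E] [NormedSpace ℂ E]
    [NormedAddCommGroup E'] [NormedSpace ℂ E'] {F : E → ι → ℂ} (L : E' →L[ℂ] E) (φ : ι' → ι)
    {R : ℝ} (hR : 0 < R) (r : Rep F (‖L‖ * R + 1)) :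
    Rep (fun z i => F (L z) (φ i)) R where
  G0 := fun z => r.G0 (L z)
  G := fun i z => r.G (φ i) (L z)
  an0 := by
    intro z hz
    have h1 : L z ∈ ball (0 : E) (‖L‖ * R + 1) := by
      rw [mem_ball_zero_iff] at hz ⊢
      calc ‖L z‖ ≤ ‖L‖ * ‖z‖ := L.le_opNorm z
        _ ≤ ‖L‖ * R := by gcongr
        _ < _ := by linarith
    exact (r.an0 _ h1).comp (L.analyticAt z)
  an := by
    intro i z hz
    have h1 : L z ∈ ball (0 : E) (‖L‖ * R + 1) := by
      rw [mem_ball_zero_iff] at hz ⊢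
      calc ‖L z‖ ≤ ‖L‖ * ‖z‖ := L.le_opNorm z
        _ ≤ ‖L‖ * R := by gcongr
        _ < _ := by linarith
    exact (r.an (φ i) _ h1).comp (L.analyticAt z)
  ne := by
    rw [map_zero]
    exact r.ne
  eq := by
    have h1 : Tendsto (fun z => L z) (𝓝 (0 : E')) (𝓝 (0 : E)) := by
      have := L.continuous.tendsto 0
      rwa [map_zero] at this
    filter_upwards [h1.eventually r.eq] with z hz i
    exact hz (φ i)

theorem thm_PULL (hPerAny : Stmt_PerAny) : Stmt_Pull := by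
  intro E E' ι ι' _ _ _ _ _ _ F L φ hG
  have hG' := hG
  obtain ⟨C, ρ, hC, hρ, hG⟩ := hG
  refine ⟨⟨C * (‖L‖ + 1) ^ ρ, ρ, by positivity, hρ, ?_⟩, ?_⟩
  · intro R hR
    have hR' : 1 ≤ ‖L‖ * R + 1 := by
      have : 0 ≤ ‖L‖ * R := by positivity
      linarith
    obtain ⟨r, hr, hr0⟩ := hG (‖L‖ * R + 1) hR'
    have hle : C * (‖L‖ * R + 1) ^ ρ ≤ C * (‖L‖ + 1) ^ ρ * R ^ ρ := by
      rw [mul_assoc, ← Real.mul_rpow (by positivity) (by positivity)]
      have h2 : ‖L‖ * R + 1 ≤ (‖L‖ + 1) * R := by nlinarith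
      gcongr
    refine ⟨pullRep L φ (by linarith) r, ?_, ?_⟩
    · intro z hz
      have h1 : L z ∈ ball (0 : E) (‖L‖ * R + 1) := by
        rw [mem_ball_zero_iff] at hz ⊢
        calc ‖L z‖ ≤ ‖L‖ * ‖z‖ := L.le_opNorm z
          _ ≤ ‖L‖ * R := by gcongr
          _ < _ := by linarith
      obtain ⟨h3, h4⟩ := hr _ h1
      refine ⟨h3.trans (Real.exp_le_exp.mpr hle), fun i => (h4 (φ i)).trans
        (Real.exp_le_exp.mpr hle)⟩
    · have : (pullRep L φ (by linarith : 0 < R) r).G0 0 = r.G0 0 := by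
        change r.G0 (L 0) = _
        rw [map_zero]
      rw [this]
      exact (Real.exp_le_exp.mpr (neg_le_neg hle)).trans hr0
  · intro γ hγ
    obtain ⟨r, -, -⟩ := hG (‖L‖ * (‖γ‖ + 1) + 1) (by
      have : 0 ≤ ‖L‖ * (‖γ‖ + 1) := by positivity
      linarith)
    have h1 : ‖L γ‖ < ‖L‖ * (‖γ‖ + 1) + 1 := by
      calc ‖L γ‖ ≤ ‖L‖ * ‖γ‖ := L.le_opNorm γ
        _ ≤ ‖L‖ * (‖γ‖ + 1) := by gcongr; linarith
        _ < _ := by linarith
    obtain ⟨h2, -⟩ := hPerAny E ι F (L γ) hγ _ h1 r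
    have h3 : 0 < ‖γ‖ + 1 := by positivity
    refine ⟨‖γ‖ + 1, by linarith, pullRep L φ h3 r, ?_⟩
    have h4 : Tendsto (fun z => L z) (𝓝 (0 : E')) (𝓝 (0 : E)) := by
      have := L.continuous.tendsto 0
      rwa [map_zero] at this
    filter_upwards [h4.eventually h2] with w hw i
    change r.G (φ i) (L (γ + w)) = F (L w) (φ i) * r.G0 (L (γ + w))
    rw [map_add]
    exact hw (φ i)

end

end Pool.Agent.FDR.PULL
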