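import Pool.Agent.FDR.Stmts

open scoped BigOperators Polynomial Topology
open Metric Filter

namespace Pool.Agent.FDR.RC1

theorem ratin_const {E ι : Type} [NormedAddCommGroup E] [NormedSpace ℂ E] (F : E → ι → ℂ)
    (c : ℂ) : RatIn F (fun _ => c) :=
  ⟨MvPolynomial.C c, 1, by simp, Eventually.of_forall fun z => by simp⟩

theorem ratin_coord {E ι : Type} [NormedAddCommGroup E] [NormedSpace ℂ E] (F : E → ι → ℂ)
    (i : ι) : RatIn F (fun z => F z i) :=
  ⟨MvPolynomial.X i, 1, by simp, Eventually.of_forall fun z => by simp⟩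

theorem ratin_add {E ι : Type} [NormedAddCommGroup E] [NormedSpace ℂ E] {F : E → ι → ℂ}
    {h h' : E → ℂ} (H : RatIn F h) (H' : RatIn F h') : RatIn F (fun z => h z + h' z) := by
  obtain ⟨P, Q, hQ, hP⟩ := H
  obtain ⟨P', Q', hQ', hP'⟩ := H'
  refine ⟨P * Q' + P' * Q, Q * Q', by simp [hQ, hQ'], ?_⟩
  filter_upwards [hP, hP'] with z h1 h2
  simp only [map_mul, map_add]
  linear_combination MvPolynomial.eval (F z) Q' * h1 + MvPolynomial.eval (F z) Q * h2

theorem ratin_mul {E ι : Type} [NormedAddCommGroup E] [NormedSpace ℂ E] {F : E → ι → ℂ}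
    {h h' : E → ℂ} (H : RatIn F h) (H' : RatIn F h') : RatIn F (fun z => h z * h' z) := by
  obtain ⟨P, Q, hQ, hP⟩ := H
  obtain ⟨P', Q', hQ', hP'⟩ := H'
  refine ⟨P * P', Q * Q', by simp [hQ, hQ'], ?_⟩
  filter_upwards [hP, hP'] with z h1 h2
  simp only [map_mul]
  rw [← h1, ← h2]
  ring

theorem ratin_neg {E ι : Type} [NormedAddCommGroup E] [NormedSpace ℂ E] {F : E → ι → ℂ}
    {h : E → ℂ} (H : RatIn F h) : RatIn F (fun z => -h z) := by
  obtain ⟨P, Q, hQ, hP⟩ := H
  refine ⟨-P, Q, hQ, ?_⟩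
  filter_upwards [hP] with z h1
  simp only [map_neg]
  rw [← h1]
  ring

theorem ratin_congr {E ι : Type} [NormedAddCommGroup E] [NormedSpace ℂ E] {F : E → ι → ℂ}
    {h h' : E → ℂ} (H : RatIn F h) (H' : ∀ᶠ z in 𝓝 (0 : E), h' z = h z) : RatIn F h' := by
  obtain ⟨P, Q, hQ, hP⟩ := H
  refine ⟨P, Q, hQ, ?_⟩
  filter_upwards [hP, H'] with z h1 h2
  rw [h2, h1]

theorem ratin_sum {E ι : Type} [NormedAddCommGroup E] [NormedSpace ℂ E] {F : E → ι → ℂ}
    {κ : Type} (s : Finset κ) (h : κ → E → ℂ) (H : ∀ k ∈ s, RatIn F (h k)) :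
    RatIn F (fun z => ∑ k ∈ s, h k z) := by
  classical
  induction s using Finset.induction_on with
  | empty => simpa using ratin_const F 0
  | insert a s ha ih =>
    have := ratin_add (H a (Finset.mem_insert_self a s))
      (ih fun k hk => H k (Finset.mem_insert_of_mem hk))
    simpa [Finset.sum_insert ha] using this

theorem ratin_prod {E ι : Type} [NormedAddCommGroup E] [NormedSpace ℂ E] {F : E → ι → ℂ}
    {κ : Type} (s : Finset κ) (h : κ → E → ℂ) (H : ∀ k ∈ s, RatIn F (h k)) :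
    RatIn F (fun z => ∏ k ∈ s, h k z) := by
  classical
  induction s using Finset.induction_on with
  | empty => simpa using ratin_const F 1
  | insert a s ha ih =>
    have := ratin_mul (H a (Finset.mem_insert_self a s))
      (ih fun k hk => H k (Finset.mem_insert_of_mem hk))
    simpa [Finset.prod_insert ha] using this

theorem continuousAt_eval {E ι : Type} [NormedAddCommGroup E] [NormedSpace ℂ E] [Fintype ι]
    {F : E → ι → ℂ} (hF : ContinuousAt F 0) (P : MvPolynomial ι ℂ) :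
    ContinuousAt (fun z => MvPolynomial.eval (F z) P) 0 :=
  ((MvPolynomial.continuous_eval P).continuousAt).comp hF

theorem ratin_inv {E ι : Type} [NormedAddCommGroup E] [NormedSpace ℂ E] [Fintype ι]
    {F : E → ι → ℂ} (hF : ContinuousAt F 0)
    {h : E → ℂ} (H : RatIn F h) (h0 : h 0 ≠ 0) : RatIn F (fun z => (h z)⁻¹) := by
  obtain ⟨P, Q, hQ, hP⟩ := H
  have e0 := hP.self_of_nhds
  have hP0 : MvPolynomial.eval (F 0) P ≠ 0 := by
    rw [← e0]; exact mul_ne_zero h0 hQ
  refine ⟨Q, P, hP0, ?_⟩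
  have c := (continuousAt_eval hF P).eventually_ne hP0
  filter_upwards [hP, c] with z h1 h2
  have hz : h z ≠ 0 := by
    intro hz
    rw [hz, zero_mul] at h1
    exact h2 h1.symm
  rw [← h1]
  field_simp

theorem thm_RC1 : Stmt_RC1 := by
  intro E ι _ _ _ F hF
  refine ⟨fun c => ratin_const F c, fun i => ratin_coord F i, fun h h' H H' => ratin_add H H',
    fun h h' H H' => ratin_mul H H', fun h H => ratin_neg H, fun h H h0 => ratin_inv hF H h0,
    fun h h' H H' => ratin_congr H H', fun κ s h H => ratin_sum s h H,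
    fun κ s h H => ratin_prod s h H⟩

end Pool.Agent.FDR.RC1
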