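import Pool.Agent.FDR.Stmts

open scoped BigOperators Polynomial Topology
open Metric Filter

namespace Pool.Agent.FDR.RC2

variable {E ι : Type} [NormedAddCommGroup E] [NormedSpace ℂ E] [Fintype ι]

/-- derivative of a polynomial in `F` -/
theorem hasFDerivAt_eval {F : E → ι → ℂ} {z : E} (F' : ι → (E →L[ℂ] ℂ))
    (hF : ∀ i, HasFDerivAt (fun z => F z i) (F' i) z) (P : MvPolynomial ι ℂ) :
    ∃ L : E →L[ℂ] ℂ, HasFDerivAt (fun z => MvPolynomial.eval (F z) P) L z ∧
      ∀ v, L v = ∑ i, MvPolynomial.eval (F z) (MvPolynomial.pderiv i P) * F' i v := by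
  classical
  induction P using MvPolynomial.induction_on with
  | C a =>
    refine ⟨0, ?_, fun v => ?_⟩
    · have : (fun z => MvPolynomial.eval (F z) (MvPolynomial.C a)) = fun _ : E => a := by
        funext w; simp
      rw [this]
      exact hasFDerivAt_const a z
    · simp
  | add p q hp hq =>
    obtain ⟨L1, h1, h1'⟩ := hp
    obtain ⟨L2, h2, h2'⟩ := hq
    refine ⟨L1 + L2, ?_, fun v => ?_⟩
    · have h3 : (fun z => MvPolynomial.eval (F z) (p + q)) =
          (fun z => MvPolynomial.eval (F z) p) + fun z => MvPolynomial.eval (F z) q := by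
        funext w; simp
      rw [h3]
      exact h1.add h2
    · have : (L1 + L2) v = L1 v + L2 v := rfl
      rw [this, h1', h2', ← Finset.sum_add_distrib]
      refine Finset.sum_congr rfl fun i _ => ?_
      rw [map_add, map_add]
      ring
  | mul_X p n hp =>
    obtain ⟨L1, h1, h1'⟩ := hp
    have h3 : (fun z => MvPolynomial.eval (F z) (p * MvPolynomial.X n)) =
        (fun z => MvPolynomial.eval (F z) p) * fun z => F z n := by
      funext w; simp
    refine ⟨_, h3 ▸ h1.mul (hF n), fun v => ?_⟩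
    have h4 : (MvPolynomial.eval (F z) p • F' n + F z n • L1) v =
        MvPolynomial.eval (F z) p * F' n v + F z n * L1 v := rfl
    rw [h4, h1', Finset.mul_sum]
    have h2 : ∀ i, MvPolynomial.eval (F z) (MvPolynomial.pderiv i (p * MvPolynomial.X n)) *
        F' i v = F z n * (MvPolynomial.eval (F z) (MvPolynomial.pderiv i p) * F' i v) +
          (if i = n then MvPolynomial.eval (F z) p * F' n v else 0) := by
      intro i
      rw [Derivation.leibniz, MvPolynomial.pderiv_X]
      by_cases h : i = n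
      · subst h
        simp only [smul_eq_mul, Pi.single_eq_same, mul_one, map_add, map_mul,
          MvPolynomial.eval_X, if_true]
        ring
      · have : (Pi.single i (1 : MvPolynomial ι ℂ) : ι → MvPolynomial ι ℂ) n = 0 := by
          rw [Pi.single_apply, if_neg (Ne.symm h)]
        rw [this]
        simp only [smul_eq_mul, mul_zero, zero_add, map_mul, MvPolynomial.eval_X, if_neg h,
          add_zero]
        ring
    rw [Finset.sum_congr rfl fun i _ => h2 i, Finset.sum_add_distrib, Finset.sum_ite_eq',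
      if_pos (Finset.mem_univ n), add_comm]

theorem thm_RC2 (hRC1 : Stmt_RC1) : Stmt_RC2 := by
  classical
  intro E ι _ _ _ F hFan v hFd h hh
  have hF : ContinuousAt F 0 := continuousAt_pi.2 fun i => (hFan i).continuousAt
  obtain ⟨hconst, hcoord, hadd, hmul, hneg, hinv, hcongr, hsum, hprod⟩ := hRC1 E ι F hF
  obtain ⟨P, Q, hQ, hPQ⟩ := hh
  have hpoly : ∀ R : MvPolynomial ι ℂ, RatIn F (fun z => MvPolynomial.eval (F z) R) :=
    fun R => ⟨R, 1, by simp, Eventually.of_forall fun z => by simp⟩
  have hcQ : ContinuousAt (fun z => MvPolynomial.eval (F z) Q) 0 :=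
    ((MvPolynomial.continuous_eval Q).continuousAt).comp hF
  have hQne := hcQ.eventually_ne hQ
  -- directional derivative of polynomials in F
  set D : MvPolynomial ι ℂ → E → ℂ := fun R z =>
    ∑ i, MvPolynomial.eval (F z) (MvPolynomial.pderiv i R) *
      fderiv ℂ (fun z => F z i) z v with hD
  have hDR : ∀ R, RatIn F (D R) := fun R =>
    hsum ι Finset.univ _ fun i _ => hmul _ _ (hpoly _) (hFd i)
  have key : RatIn F (fun z => (D P z * MvPolynomial.eval (F z) Q +
      -(MvPolynomial.eval (F z) P * D Q z)) *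
      ((MvPolynomial.eval (F z) Q * MvPolynomial.eval (F z) Q)⁻¹)) := by
    refine hmul _ _ (hadd _ _ (hmul _ _ (hDR P) (hpoly Q))
      (hneg _ (hmul _ _ (hpoly P) (hDR Q)))) (hinv _ (hmul _ _ (hpoly Q) (hpoly Q)) ?_)
    exact mul_ne_zero hQ hQ
  refine hcongr _ _ key ?_
  have hdiff : ∀ᶠ z in 𝓝 (0 : E), ∀ i, DifferentiableAt ℂ (fun z => F z i) z := by
    rw [eventually_all]
    intro i
    filter_upwards [(hFan i).eventually_analyticAt] with z hz
    exact hz.differentiableAt
  filter_upwards [hPQ.eventually_nhds, hQne, hdiff] with z h1 h2 h3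
  obtain ⟨LP, hP', hLP⟩ := hasFDerivAt_eval (fun i => fderiv ℂ (fun z => F z i) z)
    (fun i => (h3 i).hasFDerivAt) P
  obtain ⟨LQ, hQ', hLQ⟩ := hasFDerivAt_eval (fun i => fderiv ℂ (fun z => F z i) z)
    (fun i => (h3 i).hasFDerivAt) Q
  have hcQz : ContinuousAt (fun z => MvPolynomial.eval (F z) Q) z := hQ'.continuousAt
  have heq : h =ᶠ[𝓝 z] fun z => MvPolynomial.eval (F z) P * (MvPolynomial.eval (F z) Q)⁻¹ := by
    filter_upwards [h1, hcQz.eventually_ne h2] with w hw hw2
    rw [← hw]
    field_simp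
  have hinvd : HasFDerivAt (fun z => (MvPolynomial.eval (F z) Q)⁻¹)
      (-((MvPolynomial.eval (F z) Q) ^ 2)⁻¹ • LQ) z := by
    have := (hasDerivAt_inv h2).comp_hasFDerivAt z hQ'
    exact this
  have hquot := hP'.mul hinvd
  have heq2 : (fun z => MvPolynomial.eval (F z) P * (MvPolynomial.eval (F z) Q)⁻¹) =
      (fun z => MvPolynomial.eval (F z) P) * fun z => (MvPolynomial.eval (F z) Q)⁻¹ := rfl
  rw [heq.fderiv_eq, heq2, hquot.fderiv]
  have e3 : (MvPolynomial.eval (F z) P • (-((MvPolynomial.eval (F z) Q) ^ 2)⁻¹ • LQ) +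
      (MvPolynomial.eval (F z) Q)⁻¹ • LP) v = MvPolynomial.eval (F z) P *
        (-((MvPolynomial.eval (F z) Q) ^ 2)⁻¹ * LQ v) + (MvPolynomial.eval (F z) Q)⁻¹ * LP v := rfl
  rw [e3, hLP, hLQ]
  change _ = (D P z * _ + -(_ * D Q z)) * _
  have e1 : ∑ i, MvPolynomial.eval (F z) (MvPolynomial.pderiv i P) *
      fderiv ℂ (fun z => F z i) z v = D P z := rfl
  have e2 : ∑ i, MvPolynomial.eval (F z) (MvPolynomial.pderiv i Q) *
      fderiv ℂ (fun z => F z i) z v = D Q z := rfl
  rw [e1, e2]
  field_simp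
  ring

end Pool.Agent.FDR.RC2
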