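import Pool.Agent.FDR.Stmts

open scoped BigOperators Polynomial Topology
open Metric Filter

namespace Pool.Agent.FDR.RC3

theorem key (hRC1 : Stmt_RC1) {E ι : Type} [NormedAddCommGroup E] [NormedSpace ℂ E] [Fintype ι]
    (F : E → ι → ℂ) (hF : ContinuousAt F 0) (U : E → ℂ[X]) (m : ℕ)
    (hU : ∀ᶠ z in 𝓝 (0 : E), (U z).Monic ∧ (U z).natDegree = m)
    (hUc : ∀ l, RatIn F (fun z => (U z).coeff l)) :
    ∀ (n : ℕ) (P : E → ℂ[X]), (∀ᶠ z in 𝓝 (0 : E), (P z).degree < n) →
      (∀ l, RatIn F (fun z => (P z).coeff l)) →
      (∀ l, RatIn F (fun z => (P z /ₘ U z).coeff l)) ∧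
      (∀ l, RatIn F (fun z => (P z %ₘ U z).coeff l)) := by
  obtain ⟨hconst, hcoord, hadd, hmul, hneg, hinv, hcongr, hsum, hprod⟩ := hRC1 E ι F hF
  intro n
  induction n with
  | zero =>
    intro P hP _
    have hP0 : ∀ᶠ z in 𝓝 (0 : E), P z = 0 := by
      filter_upwards [hP] with z hz
      by_contra hne
      rw [Polynomial.degree_eq_natDegree hne] at hz
      have h2 : (P z).natDegree < 0 := by exact_mod_cast hz
      exact absurd h2 (Nat.not_lt_zero _)
    refine ⟨fun l => hcongr _ _ (hconst 0) ?_, fun l => hcongr _ _ (hconst 0) ?_⟩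
    · filter_upwards [hP0] with z hz
      simp [hz]
    · filter_upwards [hP0] with z hz
      simp [hz]
  | succ n ih =>
    intro P hP hPc
    by_cases hnm : n < m
    · refine ⟨fun l => hcongr _ _ (hconst 0) ?_, fun l => hcongr _ _ (hPc l) ?_⟩
      · filter_upwards [hP, hU] with z hz hu
        have hlt : (P z).degree < (U z).degree := by
          rw [Polynomial.degree_eq_natDegree hu.1.ne_zero, hu.2]
          refine lt_of_lt_of_le hz ?_
          exact_mod_cast hnm
        rw [(Polynomial.divByMonic_eq_zero_iff hu.1).2 hlt]
        simp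
      · filter_upwards [hP, hU] with z hz hu
        have hlt : (P z).degree < (U z).degree := by
          rw [Polynomial.degree_eq_natDegree hu.1.ne_zero, hu.2]
          refine lt_of_lt_of_le hz ?_
          exact_mod_cast hnm
        rw [(Polynomial.modByMonic_eq_self_iff hu.1).2 hlt]
    · rw [not_lt] at hnm
      set P' : E → ℂ[X] := fun z =>
        P z - Polynomial.C ((P z).coeff n) * Polynomial.X ^ (n - m) * U z with hP'
      have hP'd : ∀ᶠ z in 𝓝 (0 : E), (P' z).degree < n := by
        filter_upwards [hP, hU] with z hz hu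
        rw [Polynomial.degree_lt_iff_coeff_zero] at hz ⊢
        intro k hk
        simp only [hP', Polynomial.coeff_sub]
        rw [mul_assoc, Polynomial.coeff_C_mul, Polynomial.coeff_X_pow_mul']
        have hle : n - m ≤ k := le_trans (Nat.sub_le _ _) hk
        rw [if_pos hle]
        rcases Nat.eq_or_lt_of_le hk with h | h
        · subst h
          have : n - (n - m) = m := by omega
          rw [this]
          have hlead : (U z).coeff m = 1 := by
            have := hu.1
            rw [Polynomial.Monic, Polynomial.leadingCoeff, hu.2] at this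
            exact this
          rw [hlead]; ring
        · rw [hz k (by omega)]
          have : (U z).coeff (k - (n - m)) = 0 :=
            Polynomial.coeff_eq_zero_of_natDegree_lt (by rw [hu.2]; omega)
          rw [this]; ring
      have hP'c : ∀ l, RatIn F (fun z => (P' z).coeff l) := by
        intro l
        have h1 : RatIn F (fun z => (P z).coeff l +
            -((P z).coeff n * (if n - m ≤ l then (U z).coeff (l - (n - m)) else 0))) := by
          refine hadd _ _ (hPc l) (hneg _ (hmul _ _ (hPc n) ?_))
          by_cases hl : n - m ≤ l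
          · simpa [hl] using hUc (l - (n - m))
          · simpa [hl] using hconst 0
        refine hcongr _ _ h1 (Eventually.of_forall fun z => ?_)
        simp only [hP', Polynomial.coeff_sub]
        rw [mul_assoc, Polynomial.coeff_C_mul, Polynomial.coeff_X_pow_mul']
        ring
      obtain ⟨h1, h2⟩ := ih P' hP'd hP'c
      have hdm : ∀ᶠ z in 𝓝 (0 : E),
          P z /ₘ U z = Polynomial.C ((P z).coeff n) * Polynomial.X ^ (n - m) + P' z /ₘ U z ∧
          P z %ₘ U z = P' z %ₘ U z := by
        filter_upwards [hU] with z hu
        have := Polynomial.div_modByMonic_unique (f := P z)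
          (Polynomial.C ((P z).coeff n) * Polynomial.X ^ (n - m) + P' z /ₘ U z)
          (P' z %ₘ U z) hu.1 ⟨?_, Polynomial.degree_modByMonic_lt _ hu.1⟩
        · exact this
        · have h3 := Polynomial.modByMonic_add_div (P' z) (U z)
          have h4 : P' z = P z -
            Polynomial.C ((P z).coeff n) * Polynomial.X ^ (n - m) * U z := rfl
          calc P' z %ₘ U z + U z * (Polynomial.C ((P z).coeff n) * Polynomial.X ^ (n - m) +
                P' z /ₘ U z)
              = (P' z %ₘ U z + U z * (P' z /ₘ U z)) +
                Polynomial.C ((P z).coeff n) * Polynomial.X ^ (n - m) * U z := by ring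
            _ = P' z + Polynomial.C ((P z).coeff n) * Polynomial.X ^ (n - m) * U z := by rw [h3]
            _ = P z := by rw [h4]; ring
      refine ⟨fun l => ?_, fun l => ?_⟩
      · have h5 : RatIn F (fun z => (P z).coeff n * (if l = n - m then 1 else 0) +
            (P' z /ₘ U z).coeff l) := by
          refine hadd _ _ (hmul _ _ (hPc n) ?_) (h1 l)
          by_cases hl : l = n - m
          · simpa [hl] using hconst 1
          · simpa [hl] using hconst 0
        refine hcongr _ _ h5 ?_
        filter_upwards [hdm] with z hz
        rw [hz.1, Polynomial.coeff_add, Polynomial.coeff_C_mul, Polynomial.coeff_X_pow]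
      · refine hcongr _ _ (h2 l) ?_
        filter_upwards [hdm] with z hz
        rw [hz.2]

theorem thm_RC3 (hRC1 : Stmt_RC1) : Stmt_RC3 := by
  intro E ι _ _ _ F hF P U n m hP hPc hU hUc
  refine key hRC1 F hF U m hU hUc (n + 1) P ?_ hPc
  filter_upwards [hP] with z hz
  refine lt_of_le_of_lt Polynomial.degree_le_natDegree ?_
  exact_mod_cast Nat.lt_succ_of_le hz

end Pool.Agent.FDR.RC3
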