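import Pool.Agent.FDR.Stmts

/-!
# FDR, module RC4: inverses of matrices with entries in `RatIn F`
-/

open scoped BigOperators Polynomial Topology
open Metric Filter

namespace Pool.Agent.FDR.RC4

noncomputable section

theorem thm_RC4 (hRC1 : Stmt_RC1) : Stmt_RC4 := by
  intro E ι κ _ _ _ _ _ F hF A hA hdet i j
  obtain ⟨hconst, -, hadd, hmul, hneg, hinv, hcongr, hsum, hprod⟩ := hRC1 E ι F hF
  have hdetR : ∀ B : E → Matrix κ κ ℂ, (∀ i j, RatIn F (fun z => B z i j)) →
      RatIn F (fun z => (B z).det) := by
    intro B hB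
    have h1 : (fun z => (B z).det) =
        fun z => ∑ σ ∈ (Finset.univ : Finset (Equiv.Perm κ)),
          ((fun (σ : Equiv.Perm κ) (z : E) =>
            ((Equiv.Perm.sign σ : ℤ) : ℂ) * ∏ i ∈ Finset.univ, B z (σ i) i) σ z) := by
      funext z
      rw [Matrix.det_apply']
    rw [h1]
    apply hsum
    intro σ _
    apply hmul _ _ (hconst _)
    exact hprod κ Finset.univ (fun i z => B z (σ i) i) (fun i _ => hB _ _)
  have h2 : (fun z => (A z)⁻¹ i j) = fun z => ((A z).det)⁻¹ * (A z).adjugate i j := by
    funext z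
    rw [Matrix.inv_def, Ring.inverse_eq_inv']
    rfl
  rw [h2]
  apply hmul _ _ (hinv _ (hdetR A hA) hdet)
  have h3 : (fun z => (A z).adjugate i j) =
      fun z => ((A z).updateRow j (Pi.single i 1)).det := by
    funext z
    rw [Matrix.adjugate_apply]
  rw [h3]
  apply hdetR
  intro k l
  by_cases hk : k = j
  · subst hk
    have : (fun z => ((A z).updateRow k (Pi.single i 1)) k l) =
        fun _ => (Pi.single i (1 : ℂ) : κ → ℂ) l := by
      funext z
      simp
    rw [this]
    exact hconst _
  · have : (fun z => ((A z).updateRow j (Pi.single i 1)) k l) = fun z => A z k l := by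
      funext z
      rw [Matrix.updateRow_ne hk]
    rw [this]
    exact hA k l

end

end Pool.Agent.FDR.RC4
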