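import Pool.Agent.FDR.Stmts

open scoped BigOperators Polynomial Topology
open Metric Filter MeasureTheory Set

namespace Pool.Agent.FDR.SHEETS

theorem bdd {f f' : ℂ → ℂ} {C s : ℝ} (hC : 0 ≤ C) (hs : s < 1)
    (hf : ∀ z ∈ ball (0 : ℂ) 1, HasDerivAt f (f' z) z) (h0 : f 0 = 0)
    (hb : ∀ z ∈ ball (0 : ℂ) 1, ‖f' z‖ ≤ C * (1 - ‖z‖) ^ (-s)) :
    ∀ z ∈ ball (0 : ℂ) 1, ‖f z‖ ≤ C / (1 - s) := by
  intro z hz
  have hz1 : ‖z‖ < 1 := by simpa using hz
  have hs' : 0 < 1 - s := by linarith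
  have hin : ∀ r ∈ Icc (0 : ℝ) 1, (r : ℂ) * z ∈ ball (0 : ℂ) 1 := by
    intro r hr
    rw [mem_ball_zero_iff, norm_mul, Complex.norm_real, Real.norm_of_nonneg hr.1]
    calc r * ‖z‖ ≤ 1 * ‖z‖ := mul_le_mul_of_nonneg_right hr.2 (norm_nonneg _)
      _ < 1 := by rw [one_mul]; exact hz1
  have hpos : ∀ r ∈ Icc (0 : ℝ) 1, 0 < 1 - r * ‖z‖ := by
    intro r hr
    have : r * ‖z‖ ≤ 1 * ‖z‖ := mul_le_mul_of_nonneg_right hr.2 (norm_nonneg _)
    linarith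
  have hd : ∀ r ∈ Icc (0 : ℝ) 1, HasDerivAt (fun r : ℝ => f ((r : ℂ) * z))
      (z * f' ((r : ℂ) * z)) r := by
    intro r hr
    have h1 := hf _ (hin r hr)
    have h2 : HasDerivAt (fun r : ℝ => (r : ℂ) * z) z r := by
      have := (Complex.ofRealCLM.hasDerivAt (x := r)).mul_const z
      simpa using this
    have h3 := h1.scomp r h2
    rw [smul_eq_mul] at h3
    exact h3
  have hB : ∀ r ∈ Icc (0 : ℝ) 1,
      HasDerivAt (fun r : ℝ => C / (1 - s) * (1 - (1 - r * ‖z‖) ^ (1 - s)))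
      (‖z‖ * (C * (1 - r * ‖z‖) ^ (-s))) r := by
    intro r hr
    have h1 : HasDerivAt (fun r : ℝ => 1 - r * ‖z‖) (-‖z‖) r := by
      have := ((hasDerivAt_id r).mul_const ‖z‖).const_sub 1
      simpa using this
    have h2 := (h1.rpow_const (p := 1 - s) (Or.inl (hpos r hr).ne')).const_sub 1
    have h3 := h2.const_mul (C / (1 - s))
    have e1 : 1 - s - 1 = -s := by ring
    have e2 : C / (1 - s) * -(-‖z‖ * (1 - s) * (1 - r * ‖z‖) ^ (1 - s - 1)) =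
        ‖z‖ * (C * (1 - r * ‖z‖) ^ (-s)) := by
      rw [e1]
      field_simp
    rw [e2] at h3
    exact h3
  have key := image_norm_le_of_norm_deriv_right_le_deriv_boundary' (a := 0) (b := 1)
    (f := fun r : ℝ => f ((r : ℂ) * z)) (f' := fun r : ℝ => z * f' ((r : ℂ) * z))
    (fun r hr => (hd r hr).continuousAt.continuousWithinAt)
    (fun r hr => (hd r ⟨hr.1, hr.2.le⟩).hasDerivWithinAt)
    (B := fun r : ℝ => C / (1 - s) * (1 - (1 - r * ‖z‖) ^ (1 - s)))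
    (B' := fun r : ℝ => ‖z‖ * (C * (1 - r * ‖z‖) ^ (-s)))
    (by simp [h0])
    (fun r hr => (hB r hr).continuousAt.continuousWithinAt)
    (fun r hr => (hB r ⟨hr.1, hr.2.le⟩).hasDerivWithinAt)
    (by
      intro r hr
      have h1 := hb _ (hin r ⟨hr.1, hr.2.le⟩)
      rw [norm_mul]
      rw [norm_mul, Complex.norm_real, Real.norm_of_nonneg hr.1] at h1
      exact mul_le_mul_of_nonneg_left h1 (norm_nonneg _))
    (right_mem_Icc.mpr zero_le_one)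
  simp only [Complex.ofReal_one, one_mul] at key
  refine key.trans ?_
  have h1 : 0 ≤ (1 - ‖z‖) ^ (1 - s) := Real.rpow_nonneg (by linarith) _
  have h2 : 0 ≤ C / (1 - s) := by positivity
  nlinarith

theorem one_sub_le {z : ℂ} {m : ℕ} (hm : 0 < m) (hz : ‖z‖ < 1) : 1 - ‖z‖ ≤ ‖1 + z ^ m‖ := by
  have h1 : ‖z ^ m‖ ≤ ‖z‖ := by
    rw [norm_pow]
    exact pow_le_of_le_one (norm_nonneg _) hz.le hm.ne'
  have h2 : ‖(1 : ℂ)‖ ≤ ‖1 + z ^ m‖ + ‖z ^ m‖ := by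
    have := norm_sub_le (1 + z ^ m) (z ^ m)
    rwa [add_sub_cancel_right] at this
  rw [norm_one] at h2
  linarith

theorem slit {w : ℂ} (hw : ‖w‖ < 1) : 1 + w ∈ Complex.slitPlane := by
  left
  have h := Complex.abs_re_le_norm w
  have h1 := neg_abs_le w.re
  rw [Complex.add_re, Complex.one_re]
  linarith

/-- the substitution `u = s ^ 2` in the Beta integral -/
theorem beta_sq {p : ℝ} (hp : 0 < p) :
    IntervalIntegrable (fun s : ℝ => (((1 - s ^ 2) ^ (p - 1) : ℝ) : ℂ)) volume 0 1 ∧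
    ∫ s in (0 : ℝ)..1, (((1 - s ^ 2) ^ (p - 1) : ℝ) : ℂ) = (bet p (1 / 2) : ℂ) / 2 := by
  set G : ℝ → ℂ := fun x => (x : ℂ) ^ ((1 / 2 : ℂ) - 1) * (1 - (x : ℂ)) ^ ((p : ℂ) - 1) with hG
  have himg : (fun s : ℝ => s ^ 2) '' Ioo (0 : ℝ) 1 = Ioo (0 : ℝ) 1 := by
    ext u
    constructor
    · rintro ⟨s, ⟨h1, h2⟩, rfl⟩
      exact ⟨by positivity, by simp only; nlinarith⟩
    · rintro ⟨h1, h2⟩
      refine ⟨Real.sqrt u, ⟨Real.sqrt_pos.mpr h1, ?_⟩, Real.sq_sqrt h1.le⟩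
      rw [Real.sqrt_lt' one_pos]
      simpa using h2
  have hinj : InjOn (fun s : ℝ => s ^ 2) (Ioo (0 : ℝ) 1) := by
    intro x hx y hy h
    exact (pow_left_inj₀ hx.1.le hy.1.le two_ne_zero).mp h
  have hder : ∀ x ∈ Ioo (0 : ℝ) 1, HasDerivWithinAt (fun s : ℝ => s ^ 2) (2 * x)
      (Ioo (0 : ℝ) 1) x := by
    intro x _
    have := (hasDerivAt_pow 2 x).hasDerivWithinAt (s := Ioo (0 : ℝ) 1)
    simpa using this
  have hcongr : ∀ x ∈ Ioo (0 : ℝ) 1, |2 * x| • G (x ^ 2) =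
      2 * (((1 - x ^ 2) ^ (p - 1) : ℝ) : ℂ) := by
    intro x hx
    have hx0 : (0 : ℝ) < x := hx.1
    have hx1 : (0 : ℝ) < 1 - x ^ 2 := by nlinarith [hx.2]
    simp only [hG]
    have e1 : (((x ^ 2 : ℝ)) : ℂ) ^ ((1 / 2 : ℂ) - 1) = ((x⁻¹ : ℝ) : ℂ) := by
      have : ((1 / 2 : ℂ) - 1) = (((-(1 / 2) : ℝ)) : ℂ) := by
        push_cast
        norm_num
      rw [this, ← Complex.ofReal_cpow (by positivity)]
      congr 1
      rw [← Real.rpow_natCast, ← Real.rpow_mul hx0.le, ← Real.rpow_neg_one]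
      norm_num
    have e2 : ((1 : ℂ) - ((x ^ 2 : ℝ) : ℂ)) ^ ((p : ℂ) - 1) =
        (((1 - x ^ 2) ^ (p - 1) : ℝ) : ℂ) := by
      rw [Complex.ofReal_cpow hx1.le]
      push_cast
      rfl
    rw [e1, e2, abs_of_pos (by positivity), Complex.real_smul]
    push_cast
    have : (x : ℂ) ≠ 0 := by exact_mod_cast hx0.ne'
    field_simp
  have hp' : 0 < ((p : ℝ) : ℂ).re := by simpa using hp
  have hh' : 0 < (1 / 2 : ℂ).re := by norm_num
  have hconv := Complex.betaIntegral_convergent hh' hp'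
  have hint : IntegrableOn G (Ioo (0 : ℝ) 1) := by
    rw [intervalIntegrable_iff_integrableOn_Ioo_of_le zero_le_one] at hconv
    exact hconv
  have hint2 : IntegrableOn (fun x : ℝ => 2 * (((1 - x ^ 2) ^ (p - 1) : ℝ) : ℂ))
      (Ioo (0 : ℝ) 1) := by
    have h1 := (integrableOn_image_iff_integrableOn_abs_deriv_smul measurableSet_Ioo hder hinj
      G).mp (by rw [himg]; exact hint)
    exact h1.congr_fun hcongr measurableSet_Ioo
  have hint3 : IntegrableOn (fun x : ℝ => (((1 - x ^ 2) ^ (p - 1) : ℝ) : ℂ))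
      (Ioo (0 : ℝ) 1) := by
    have h1 := Integrable.const_mul hint2 (1 / 2 : ℂ)
    refine (integrable_congr ?_).mp h1
    filter_upwards with x
    ring
  constructor
  · rw [intervalIntegrable_iff_integrableOn_Ioo_of_le zero_le_one]
    exact hint3
  · have h1 := integral_image_eq_integral_abs_deriv_smul measurableSet_Ioo hder hinj G
    rw [himg, setIntegral_congr_fun measurableSet_Ioo hcongr, integral_const_mul] at h1
    rw [intervalIntegral.integral_of_le zero_le_one, integral_Ioc_eq_integral_Ioo]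
    have h2 : Complex.betaIntegral (1 / 2) p = ∫ x in Ioo (0 : ℝ) 1, G x := by
      rw [Complex.betaIntegral, intervalIntegral.integral_of_le zero_le_one,
        integral_Ioc_eq_integral_Ioo]
    have h3 : (bet p (1 / 2) : ℂ) = Complex.betaIntegral (1 / 2) p := by
      have h4 := Complex.Gamma_mul_Gamma_eq_betaIntegral hh' hp'
      have h5 : Complex.Gamma ((1 / 2 : ℂ) + p) ≠ 0 := by
        apply Complex.Gamma_ne_zero_of_re_pos
        simp only [Complex.add_re, Complex.ofReal_re]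
        linarith
      have h6 : Complex.betaIntegral (1 / 2) p =
          Complex.Gamma (1 / 2) * Complex.Gamma p / Complex.Gamma ((1 / 2 : ℂ) + p) := by
        rw [eq_div_iff h5, h4]
        ring
      rw [h6, bet]
      push_cast
      rw [← Complex.Gamma_ofReal, ← Complex.Gamma_ofReal, ← Complex.Gamma_ofReal]
      push_cast
      rw [add_comm (1 / 2 : ℂ) (p : ℂ)]
      ring
    rw [h3, h2, h1]
    ring

/-- the comparison of the integrals on the two discs -/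
theorem sheet (m c : ℕ) (hc : 0 < c) (hcm : c < m) :
    ∃ J : ℂ → ℂ, J 0 = 0 ∧ (∀ x ∈ ball (0 : ℂ) 1,
      HasDerivAt J (x ^ (c - 1) * (1 + x ^ m) ^ (-(1 / 2) : ℂ)) x ∧ ‖J x‖ ≤ 2) ∧
    ∀ a : ℂ, a ^ m = -1 → ∃ K : ℂ → ℂ, K 0 = 0 ∧ (∀ v ∈ ball (0 : ℂ) 1,
      HasDerivAt K (-(2 / m) * a ^ c * (1 - v ^ 2) ^ ((c / m - 1 : ℂ))) v ∧ ‖K v‖ ≤ 2 ∧
      K (-v) = -K v) ∧
      ∀ v : ℝ, 0 < v → v < 1 → J (a * (((1 - v ^ 2) ^ (1 / m : ℝ) : ℝ) : ℂ)) =
        K v + 1 / m * a ^ c * (bet (c / m) (1 / 2) : ℂ) := by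
  have hm : 0 < m := by omega
  have hmR : (0 : ℝ) < m := by exact_mod_cast hm
  have hcR : (0 : ℝ) < c := by exact_mod_cast hc
  have hc1R : (1 : ℝ) ≤ c := by exact_mod_cast hc
  have hcmR : (c : ℝ) < m := by exact_mod_cast hcm
  have hpow : ∀ z : ℂ, ‖z‖ < 1 → ‖z ^ m‖ < 1 := by
    intro z hz
    rw [norm_pow]
    exact pow_lt_one₀ (norm_nonneg _) hz hm.ne'
  -- J
  have hJd : DifferentiableOn ℂ (fun x : ℂ => x ^ (c - 1) * (1 + x ^ m) ^ (-(1 / 2) : ℂ))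
      (ball 0 1) := by
    intro x hx
    have hx1 : ‖x‖ < 1 := by simpa using hx
    have h1 : DifferentiableAt ℂ (fun x : ℂ => (1 + x ^ m) ^ (-(1 / 2) : ℂ)) x :=
      DifferentiableAt.cpow_const (by fun_prop) (slit (hpow x hx1))
    exact ((differentiableAt_pow _).mul h1).differentiableWithinAt
  obtain ⟨J, hJ0, hJ⟩ := hJd.isExactOn_ball.with_val_at 0 0
  have hJb : ∀ z ∈ ball (0 : ℂ) 1, ‖J z‖ ≤ 1 / (1 - 1 / 2) := by
    refine bdd zero_le_one (by norm_num) hJ hJ0 ?_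
    intro z hz
    have hz1 : ‖z‖ < 1 := by simpa using hz
    rw [norm_mul, norm_pow, one_mul]
    have h1 : ‖(1 + z ^ m) ^ (-(1 / 2) : ℂ)‖ = ‖1 + z ^ m‖ ^ (-(1 / 2) : ℝ) := by
      have : (-(1 / 2) : ℂ) = ((-(1 / 2) : ℝ) : ℂ) := by push_cast; rfl
      rw [this, Complex.norm_cpow_real]
    rw [h1]
    have h2 : ‖1 + z ^ m‖ ^ (-(1 / 2) : ℝ) ≤ (1 - ‖z‖) ^ (-(1 / 2) : ℝ) :=
      Real.rpow_le_rpow_of_nonpos (by linarith) (one_sub_le hm hz1) (by norm_num)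
    have h3 : ‖z‖ ^ (c - 1) ≤ 1 := pow_le_one₀ (norm_nonneg _) hz1.le
    have h4 : 0 ≤ ‖1 + z ^ m‖ ^ (-(1 / 2) : ℝ) := Real.rpow_nonneg (norm_nonneg _) _
    calc ‖z‖ ^ (c - 1) * ‖1 + z ^ m‖ ^ (-(1 / 2) : ℝ) ≤ 1 * ‖1 + z ^ m‖ ^ (-(1 / 2) : ℝ) :=
          mul_le_mul_of_nonneg_right h3 h4
      _ ≤ _ := by rw [one_mul]; exact h2
  refine ⟨J, hJ0, fun x hx => ⟨hJ x hx, (hJb x hx).trans (by norm_num)⟩, ?_⟩
  intro a ha
  have hna : ‖a‖ = 1 := by
    have h1 : ‖a‖ ^ m = 1 := by rw [← norm_pow, ha, norm_neg, norm_one]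
    exact (pow_eq_one_iff_of_nonneg (norm_nonneg _) hm.ne').mp h1
  -- K
  have hexp : ((c / m - 1 : ℂ)) = (((c / m - 1 : ℝ)) : ℂ) := by push_cast; rfl
  have hsq : ∀ v : ℂ, ‖v‖ < 1 → 1 - v ^ 2 ∈ Complex.slitPlane := by
    intro v hv
    have h1 : ‖-v ^ 2‖ < 1 := by
      rw [norm_neg, norm_pow]
      exact pow_lt_one₀ (norm_nonneg _) hv two_ne_zero
    have h2 := slit h1
    rwa [← sub_eq_add_neg] at h2
  have hKd : DifferentiableOn ℂ
      (fun v : ℂ => -(2 / m) * a ^ c * (1 - v ^ 2) ^ ((c / m - 1 : ℂ))) (ball 0 1) := by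
    intro x hx
    have hx1 : ‖x‖ < 1 := by simpa using hx
    have h1 : DifferentiableAt ℂ (fun v : ℂ => (1 - v ^ 2) ^ ((c / m - 1 : ℂ))) x :=
      DifferentiableAt.cpow_const (by fun_prop) (hsq x hx1)
    exact (h1.const_mul _).differentiableWithinAt
  obtain ⟨K, hK0, hK⟩ := hKd.isExactOn_ball.with_val_at 0 0
  have hKb : ∀ z ∈ ball (0 : ℂ) 1, ‖K z‖ ≤ (2 / m) / (1 - (1 - c / m)) := by
    refine bdd (by positivity) (by have : (0 : ℝ) < c / m := by positivity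
                                   linarith) hK hK0 ?_
    intro z hz
    have hz1 : ‖z‖ < 1 := by simpa using hz
    have h1 : ‖(1 - z ^ 2) ^ ((c / m - 1 : ℂ))‖ = ‖1 - z ^ 2‖ ^ ((c / m - 1 : ℝ)) := by
      rw [hexp, Complex.norm_cpow_real]
    have h2 : ‖-(2 / m) * a ^ c‖ = 2 / m := by
      rw [norm_mul, norm_neg, norm_pow, hna, one_pow, mul_one, norm_div, Complex.norm_natCast]
      norm_num
    rw [norm_mul, h1, h2]
    have h3 : 1 - ‖z‖ ≤ ‖1 - z ^ 2‖ := by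
      have h4 : ‖(1 : ℂ)‖ ≤ ‖1 - z ^ 2‖ + ‖z ^ 2‖ := by
        have := norm_add_le (1 - z ^ 2) (z ^ 2)
        rwa [sub_add_cancel] at this
      have h5 : ‖z ^ 2‖ ≤ ‖z‖ := by
        rw [norm_pow]
        exact pow_le_of_le_one (norm_nonneg _) hz1.le two_ne_zero
      rw [norm_one] at h4
      linarith
    have h6 : ‖1 - z ^ 2‖ ^ ((c / m - 1 : ℝ)) ≤ (1 - ‖z‖) ^ ((c / m - 1 : ℝ)) := by
      refine Real.rpow_le_rpow_of_nonpos (by linarith) h3 ?_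
      have : (c : ℝ) / m < 1 := (div_lt_one hmR).mpr hcmR
      linarith
    have h7 : (-(1 - (c : ℝ) / m)) = c / m - 1 := by ring
    rw [h7]
    exact mul_le_mul_of_nonneg_left h6 (by positivity)
  have hKb2 : ∀ z ∈ ball (0 : ℂ) 1, ‖K z‖ ≤ 2 := by
    intro z hz
    refine (hKb z hz).trans ?_
    rw [sub_sub_cancel, div_div_div_cancel_right₀ hmR.ne', div_le_iff₀ hcR]
    linarith
  have hKodd : ∀ v ∈ ball (0 : ℂ) 1, K (-v) = -K v := by
    have hneg : ∀ v ∈ ball (0 : ℂ) 1, -v ∈ ball (0 : ℂ) 1 := by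
      intro v hv
      simpa using hv
    have hd1 : ∀ v ∈ ball (0 : ℂ) 1, HasDerivAt (fun v => K (-v))
        (-(-(2 / m) * a ^ c * (1 - v ^ 2) ^ ((c / m - 1 : ℂ)))) v := by
      intro v hv
      have h1 := (hK (-v) (hneg v hv)).comp v (hasDerivAt_neg v)
      have h2 : (-v) ^ 2 = v ^ 2 := by ring
      rw [h2, mul_neg_one] at h1
      exact h1
    have hd2 : ∀ v ∈ ball (0 : ℂ) 1, HasDerivAt (fun v => -K v)
        (-(-(2 / m) * a ^ c * (1 - v ^ 2) ^ ((c / m - 1 : ℂ)))) v := fun v hv => (hK v hv).neg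
    have h3 := isOpen_ball.eqOn_of_deriv_eq (convex_ball (0 : ℂ) 1).isPreconnected
      (f := fun v => K (-v)) (g := fun v => -K v)
      (fun v hv => (hd1 v hv).differentiableAt.differentiableWithinAt)
      (fun v hv => (hd2 v hv).differentiableAt.differentiableWithinAt)
      (fun v hv => by rw [(hd1 v hv).deriv, (hd2 v hv).deriv]) (mem_ball_self one_pos)
      (by simp [hK0])
    exact h3
  refine ⟨K, hK0, fun v hv => ⟨hK v hv, hKb2 v hv, hKodd v hv⟩, ?_⟩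
  -- comparison
  have hp : (0 : ℝ) < c / m := by positivity
  obtain ⟨hbi, hbe⟩ := beta_sq hp
  have hball : ∀ v : ℝ, 0 ≤ v → v < 1 → (v : ℂ) ∈ ball (0 : ℂ) 1 := by
    intro v h0 h1
    rw [mem_ball_zero_iff, Complex.norm_real, Real.norm_of_nonneg h0]
    exact h1
  have hKval : ∀ v : ℝ, 0 ≤ v → v < 1 → -(2 / m) * a ^ c *
      (1 - (v : ℂ) ^ 2) ^ ((c / m - 1 : ℂ)) =
      -(2 / m) * a ^ c * (((1 - v ^ 2) ^ ((c : ℝ) / m - 1) : ℝ) : ℂ) := by
    intro v h0 h1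
    have h2 : 0 ≤ 1 - v ^ 2 := by nlinarith
    rw [Complex.ofReal_cpow h2]
    push_cast
    rfl
  have hKint : ∀ v : ℝ, 0 ≤ v → v < 1 → K v =
      ∫ s in (0 : ℝ)..v, -(2 / m) * a ^ c * (((1 - s ^ 2) ^ ((c : ℝ) / m - 1) : ℝ) : ℂ) := by
    intro v h0 h1
    have h2 := intervalIntegral.integral_eq_sub_of_hasDerivAt (a := (0 : ℝ)) (b := v)
      (f := fun s : ℝ => K s)
      (f' := fun s : ℝ => -(2 / m) * a ^ c * (((1 - s ^ 2) ^ ((c : ℝ) / m - 1) : ℝ) : ℂ))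
      (by
        intro s hs
        rw [uIcc_of_le h0] at hs
        have hs1 : s < 1 := lt_of_le_of_lt hs.2 h1
        have h3 := (hK s (hball s hs.1 hs1)).comp_ofReal
        rw [hKval s hs.1 hs1] at h3
        exact h3)
      (by
        have h3 := hbi.const_mul (-(2 / (m : ℂ)) * a ^ c)
        refine h3.mono_set ?_
        rw [uIcc_of_le h0, uIcc_of_le zero_le_one]
        exact Icc_subset_Icc_right h1.le)
    rw [h2, Complex.ofReal_zero, hK0, sub_zero]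
  have hcont : ContinuousWithinAt (fun v : ℝ => ∫ s in (0 : ℝ)..v,
      -(2 / m) * a ^ c * (((1 - s ^ 2) ^ ((c : ℝ) / m - 1) : ℝ) : ℂ)) (Icc 0 1) 1 := by
    have h3 := hbi.const_mul (-(2 / (m : ℂ)) * a ^ c)
    have h4 := intervalIntegral.continuousOn_primitive_interval' h3 (left_mem_uIcc)
    rw [uIcc_of_le zero_le_one] at h4
    exact h4 1 (right_mem_Icc.mpr zero_le_one)
  have hlimK : Tendsto (fun v : ℝ => K v) (𝓝[<] 1)
      (𝓝 (-(1 / m * a ^ c * (bet (c / m) (1 / 2) : ℂ)))) := by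
    have h5 : Tendsto (fun v : ℝ => ∫ s in (0 : ℝ)..v,
        -(2 / m) * a ^ c * (((1 - s ^ 2) ^ ((c : ℝ) / m - 1) : ℝ) : ℂ)) (𝓝[<] 1)
        (𝓝 (∫ s in (0 : ℝ)..1,
        -(2 / m) * a ^ c * (((1 - s ^ 2) ^ ((c : ℝ) / m - 1) : ℝ) : ℂ))) := by
      have h6 : 𝓝[<] (1 : ℝ) ≤ 𝓝[Icc 0 1] (1 : ℝ) := by
        rw [← nhdsWithin_Ioo_eq_nhdsLT (zero_lt_one' ℝ)]
        exact nhdsWithin_mono _ Ioo_subset_Icc_self
      exact hcont.tendsto.mono_left h6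
    rw [intervalIntegral.integral_const_mul, hbe] at h5
    have h7 : -(2 / (m : ℂ)) * a ^ c * ((bet ((c : ℝ) / m) (1 / 2) : ℂ) / 2) =
        -(1 / m * a ^ c * (bet (c / m) (1 / 2) : ℂ)) := by ring
    rw [h7] at h5
    refine h5.congr' ?_
    have h8 : Ioo (0 : ℝ) 1 ∈ 𝓝[<] (1 : ℝ) := Ioo_mem_nhdsLT zero_lt_one
    filter_upwards [h8] with v hv
    exact (hKint v hv.1.le hv.2).symm
  -- the curve
  set τ : ℝ → ℝ := fun v => (1 - v ^ 2) ^ (1 / m : ℝ) with hτ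
  have hτ0 : ∀ v : ℝ, 0 < v → v < 1 → 0 < τ v ∧ τ v < 1 ∧ τ v ^ m = 1 - v ^ 2 := by
    intro v h0 h1
    have h2 : 0 < 1 - v ^ 2 := by nlinarith
    have h3 : 1 - v ^ 2 < 1 := by nlinarith
    refine ⟨Real.rpow_pos_of_pos h2 _, Real.rpow_lt_one h2.le h3 (by positivity), ?_⟩
    rw [hτ]
    simp only
    rw [← Real.rpow_natCast, ← Real.rpow_mul h2.le, one_div, inv_mul_cancel₀ hmR.ne',
      Real.rpow_one]
  have haτ : ∀ v : ℝ, 0 < v → v < 1 → a * (τ v : ℂ) ∈ ball (0 : ℂ) 1 := by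
    intro v h0 h1
    obtain ⟨h2, h3, _⟩ := hτ0 v h0 h1
    rw [mem_ball_zero_iff, norm_mul, hna, one_mul, Complex.norm_real, Real.norm_of_nonneg h2.le]
    exact h3
  have hlimJ : Tendsto (fun v : ℝ => J (a * (τ v : ℂ))) (𝓝[<] 1) (𝓝 0) := by
    have h1 : ContinuousAt J 0 := (hJ 0 (mem_ball_self one_pos)).continuousAt
    have h2 : Tendsto (fun v : ℝ => a * (τ v : ℂ)) (𝓝[<] 1) (𝓝 0) := by
      have h3 : ContinuousAt (fun v : ℝ => a * (τ v : ℂ)) 1 := by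
        have h4 : ContinuousAt τ 1 := by
          rw [hτ]
          refine ContinuousAt.rpow_const (by fun_prop) ?_
          right
          positivity
        have h5 : ContinuousAt (fun v : ℝ => ((τ v : ℝ) : ℂ)) 1 :=
          Complex.continuous_ofReal.continuousAt.comp h4
        exact continuousAt_const.mul h5
      have h6 := h3.tendsto.mono_left (nhdsWithin_le_nhds (s := Iio (1 : ℝ)))
      have h7 : a * (τ 1 : ℂ) = 0 := by
        rw [hτ]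
        simp only [one_pow, sub_self]
        rw [Real.zero_rpow (by positivity)]
        simp
      rwa [h7] at h6
    have h8 := h1.tendsto.comp h2
    rw [hJ0] at h8
    exact h8
  have hτd : ∀ v : ℝ, 0 < v → v < 1 →
      HasDerivAt τ (-(2 * v) * (1 / m) * (1 - v ^ 2) ^ ((1 / m : ℝ) - 1)) v := by
    intro v h0 h1
    have h2 : 0 < 1 - v ^ 2 := by nlinarith
    have h3 : HasDerivAt (fun v : ℝ => 1 - v ^ 2) (-(2 * v)) v := by
      have := (hasDerivAt_pow 2 v).const_sub 1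
      simpa using this
    exact h3.rpow_const (Or.inl h2.ne')
  have hhd : ∀ v : ℝ, v ∈ Ioo (0 : ℝ) 1 → HasDerivAt
      (fun v : ℝ => J (a * (τ v : ℂ)) - K v) 0 v := by
    intro v hv
    obtain ⟨h0, h1⟩ := hv
    obtain ⟨h2, h3, h4⟩ := hτ0 v h0 h1
    have h5 : 0 < 1 - v ^ 2 := by nlinarith
    have h6 := (hJ _ (haτ v h0 h1))
    have h7 : HasDerivAt (fun v : ℝ => a * (τ v : ℂ))
        (a * ((-(2 * v) * (1 / m) * (1 - v ^ 2) ^ ((1 / m : ℝ) - 1) : ℝ) : ℂ)) v :=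
      ((hτd v h0 h1).ofReal_comp).const_mul a
    have h8 := h6.scomp v h7
    have h9 := (hK v (hball v h0.le h1)).comp_ofReal
    have h10 := h8.sub h9
    have h11 : (a * ((-(2 * v) * (1 / m) * (1 - v ^ 2) ^ ((1 / m : ℝ) - 1) : ℝ) : ℂ)) •
        ((a * (τ v : ℂ)) ^ (c - 1) * (1 + (a * (τ v : ℂ)) ^ m) ^ (-(1 / 2) : ℂ)) -
        -(2 / m) * a ^ c * (1 - (v : ℂ) ^ 2) ^ ((c / m - 1 : ℂ)) = 0 := by
      rw [hKval v h0.le h1]
      have e1 : (1 : ℂ) + (a * (τ v : ℂ)) ^ m = ((v ^ 2 : ℝ) : ℂ) := by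
        rw [mul_pow, ha]
        have : ((τ v : ℂ)) ^ m = ((1 - v ^ 2 : ℝ) : ℂ) := by
          rw [← h4]
          push_cast
          rfl
        rw [this]
        push_cast
        ring
      have e2 : (((v ^ 2 : ℝ)) : ℂ) ^ (-(1 / 2) : ℂ) = ((v⁻¹ : ℝ) : ℂ) := by
        have : (-(1 / 2) : ℂ) = (((-(1 / 2) : ℝ)) : ℂ) := by
          push_cast
          rfl
        rw [this, ← Complex.ofReal_cpow (by positivity)]
        congr 1
        rw [← Real.rpow_natCast, ← Real.rpow_mul h0.le, ← Real.rpow_neg_one]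
        norm_num
      have e3 : (1 - v ^ 2) ^ ((c : ℝ) / m - 1) =
          τ v ^ (c - 1) * (1 - v ^ 2) ^ ((1 / m : ℝ) - 1) := by
        rw [hτ]
        simp only
        rw [← Real.rpow_natCast ((1 - v ^ 2) ^ (1 / m : ℝ)) (c - 1), ← Real.rpow_mul h5.le,
          ← Real.rpow_add h5]
        congr 1
        rw [Nat.cast_sub hc]
        push_cast
        field_simp
        ring
      rw [e1, e2, e3, smul_eq_mul, mul_pow]
      have e4 : a ^ c = a * a ^ (c - 1) := by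
        rw [← pow_succ']
        congr 1
        omega
      rw [e4]
      push_cast
      have hv0 : (v : ℂ) ≠ 0 := by exact_mod_cast h0.ne'
      field_simp
      ring
    rw [h11] at h10
    exact h10
  have hconst : ∀ v ∈ Ioo (0 : ℝ) 1, ∀ w ∈ Ioo (0 : ℝ) 1,
      J (a * (τ v : ℂ)) - K v = J (a * (τ w : ℂ)) - K w := by
    intro v hv w hw
    exact isOpen_Ioo.is_const_of_deriv_eq_zero isPreconnected_Ioo
      (f := fun v : ℝ => J (a * (τ v : ℂ)) - K v)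
      (fun v hv => (hhd v hv).differentiableAt.differentiableWithinAt)
      (fun v hv => (hhd v hv).deriv) hv hw
  intro v h0 h1
  have hlim := hlimJ.sub hlimK
  have hc2 : Tendsto (fun w : ℝ => J (a * (τ w : ℂ)) - K w) (𝓝[<] 1)
      (𝓝 (J (a * (τ v : ℂ)) - K v)) := by
    refine tendsto_const_nhds.congr' ?_
    have h8 : Ioo (0 : ℝ) 1 ∈ 𝓝[<] (1 : ℝ) := Ioo_mem_nhdsLT zero_lt_one
    filter_upwards [h8] with w hw
    exact hconst v ⟨h0, h1⟩ w hw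
  have huniq := tendsto_nhds_unique hc2 hlim
  rw [zero_sub, neg_neg] at huniq
  rw [← huniq]
  ring

theorem thm_SHEETS : Stmt_Sheets := by
  intro g hg
  have hcm : ∀ i ≤ g, i + 1 < 2 * g + 1 := by
    intro i hi
    omega
  have ha : ∀ k, aRoot g k ^ (2 * g + 1) = -1 := by
    intro k
    unfold aRoot
    rw [← Complex.exp_nat_mul]
    have h1 : (((2 * g + 1 : ℕ)) : ℂ) *
        (Complex.I * Real.pi * (2 * k + 1) / (2 * g + 1)) =
        Real.pi * Complex.I + (k : ℂ) * (2 * Real.pi * Complex.I) := by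
      push_cast
      have : (2 * (g : ℂ) + 1) ≠ 0 := by exact_mod_cast (Nat.succ_ne_zero (2 * g))
      field_simp
      ring
    rw [h1, Complex.exp_add, Complex.exp_nat_mul_two_pi_mul_I, mul_one, Complex.exp_pi_mul_I]
  have hJ : ∀ i, ∃ J : ℂ → ℂ, i ≤ g → (J 0 = 0 ∧ (∀ x ∈ ball (0 : ℂ) 1,
      HasDerivAt J (x ^ i * (1 + x ^ (2 * g + 1)) ^ (-(1 / 2) : ℂ)) x ∧ ‖J x‖ ≤ 2) ∧
      ∀ a : ℂ, a ^ (2 * g + 1) = -1 → ∃ K : ℂ → ℂ, K 0 = 0 ∧ (∀ v ∈ ball (0 : ℂ) 1,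
      HasDerivAt K (-(2 / (2 * g + 1)) * a ^ (i + 1) *
        (1 - v ^ 2) ^ ((((i : ℂ) + 1) / (2 * g + 1) - 1 : ℂ))) v ∧ ‖K v‖ ≤ 2 ∧
      K (-v) = -K v) ∧
      ∀ v : ℝ, 0 < v → v < 1 → J (a * (((1 - v ^ 2) ^ (1 / (2 * g + 1) : ℝ) : ℝ) : ℂ)) =
        K v + 1 / (2 * g + 1) * a ^ (i + 1) *
          (bet ((i + 1) / (2 * g + 1)) (1 / 2) : ℂ)) := by
    intro i
    by_cases hi : i ≤ g
    · obtain ⟨J, h1, h2, h3⟩ := sheet (2 * g + 1) (i + 1) (Nat.succ_pos i) (hcm i hi)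
      refine ⟨J, fun _ => ⟨h1, ?_, ?_⟩⟩
      · simpa using h2
      · push_cast at h3
        exact h3
    · exact ⟨fun _ => 0, fun h => absurd h hi⟩
  choose J hJ using hJ
  have hK : ∀ k i, ∃ K : ℂ → ℂ, i ≤ g → (K 0 = 0 ∧ (∀ v ∈ ball (0 : ℂ) 1,
      HasDerivAt K (-(2 / (2 * g + 1)) * aRoot g k ^ (i + 1) *
        (1 - v ^ 2) ^ ((((i : ℂ) + 1) / (2 * g + 1) - 1 : ℂ))) v ∧ ‖K v‖ ≤ 2 ∧
      K (-v) = -K v) ∧
      ∀ v : ℝ, 0 < v → v < 1 →
        J i (aRoot g k * (((1 - v ^ 2) ^ (1 / (2 * g + 1) : ℝ) : ℝ) : ℂ)) =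
        K v + 1 / (2 * g + 1) * aRoot g k ^ (i + 1) *
          (bet ((i + 1) / (2 * g + 1)) (1 / 2) : ℂ)) := by
    intro k i
    by_cases hi : i ≤ g
    · obtain ⟨K, h⟩ := (hJ i hi).2.2 (aRoot g k) (ha k)
      exact ⟨K, fun _ => h⟩
    · exact ⟨fun _ => 0, fun h => absurd h hi⟩
  choose K hK using hK
  refine ⟨J, K, 2, fun i hi => ⟨(hJ i hi).1, (hJ i hi).2.1⟩,
    fun k i hi => ⟨(hK k i hi).1, (hK k i hi).2.1⟩, ?_⟩
  intro k i hi v h0 h1
  rw [(hK k i hi).2.2 v h0 h1]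
  congr 1
  unfold lam aRoot
  rw [← Complex.exp_nat_mul]
  have h2 : (((i + 1 : ℕ)) : ℂ) * (Complex.I * Real.pi * (2 * k + 1) / (2 * g + 1)) =
      Complex.I * Real.pi * (2 * k + 1) * (i + 1) / (2 * g + 1) := by
    push_cast
    ring
  rw [h2]
  ring

end Pool.Agent.FDR.SHEETS
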