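import Pool.Agent.FDR.Stmts2

/-! Module SHEETS2 (squad FDR): abelian integrals of `y ^ 2 = x ^ (2 g + 1) + x`. -/

set_option autoImplicit false

open scoped BigOperators Polynomial Topology
open Metric Filter

namespace Pool.Agent.FDR.SHEETS2

/-- A primitive on the unit disc of an even function with an integrable bound. -/
lemma prim (φ : ℂ → ℂ) (hφ : DifferentiableOn ℂ φ (ball 0 1)) (A p : ℝ) (hA : 0 ≤ A)
    (hp : 0 < p) (hb : ∀ v ∈ ball (0 : ℂ) 1, ‖φ v‖ ≤ A * (1 - ‖v‖) ^ (p - 1))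
    (he : ∀ v, φ (-v) = φ v) :
    ∃ F : ℂ → ℂ, F 0 = 0 ∧ ∀ v ∈ ball (0 : ℂ) 1,
      HasDerivAt F (φ v) v ∧ ‖F v‖ ≤ A / p ∧ F (-v) = -F v := by
  obtain ⟨F, hF0, hF⟩ := hφ.isExactOn_ball.with_val_at 0 0
  refine ⟨F, hF0, fun v hv => ⟨hF v hv, ?_, ?_⟩⟩
  · -- the bound
    have hv1 : ‖v‖ < 1 := by simpa using hv
    have hmem : ∀ t : ℝ, 0 ≤ t → t ≤ 1 → (t : ℂ) * v ∈ ball (0 : ℂ) 1 := by
      intro t h0 h1
      rw [mem_ball_zero_iff, norm_mul, Complex.norm_real, Real.norm_of_nonneg h0]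
      nlinarith [norm_nonneg v]
    have hpos : ∀ t : ℝ, 0 ≤ t → t ≤ 1 → 0 < 1 - t * ‖v‖ := by
      intro t h0 h1
      nlinarith [norm_nonneg v]
    have hd : ∀ t : ℝ, 0 ≤ t → t ≤ 1 →
        HasDerivAt (fun t : ℝ => F ((t : ℂ) * v)) (v * φ ((t : ℂ) * v)) t := by
      intro t h0 h1
      have h2 : HasDerivAt (fun t : ℝ => (t : ℂ) * v) v t := by
        have := (Complex.ofRealCLM.hasDerivAt (x := t)).mul_const v
        simpa using this
      exact HasDerivAt.scomp t (hF _ (hmem t h0 h1)) h2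
    have hB : ∀ t : ℝ, 0 ≤ t → t ≤ 1 →
        HasDerivAt (fun t : ℝ => A / p * (1 - (1 - t * ‖v‖) ^ p))
          (A * ‖v‖ * (1 - t * ‖v‖) ^ (p - 1)) t := by
      intro t h0 h1
      have h2 : HasDerivAt (fun t : ℝ => 1 - t * ‖v‖) (-‖v‖) t := by
        have := ((hasDerivAt_id t).mul_const ‖v‖).const_sub 1
        simpa using this
      have h3 := (h2.rpow_const (p := p) (Or.inl (hpos t h0 h1).ne')).const_sub 1
      have h4 := h3.const_mul (A / p)
      have e : A / p * -(-‖v‖ * p * (1 - t * ‖v‖) ^ (p - 1))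
          = A * ‖v‖ * (1 - t * ‖v‖) ^ (p - 1) := by
        field_simp
      rw [e] at h4
      exact h4
    have h := image_norm_le_of_norm_deriv_right_le_deriv_boundary' (a := 0) (b := 1)
      (f := fun t : ℝ => F ((t : ℂ) * v)) (f' := fun t : ℝ => v * φ ((t : ℂ) * v))
      (B := fun t : ℝ => A / p * (1 - (1 - t * ‖v‖) ^ p))
      (B' := fun t : ℝ => A * ‖v‖ * (1 - t * ‖v‖) ^ (p - 1))
      (fun t ht => (hd t ht.1 ht.2).continuousAt.continuousWithinAt)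
      (fun t ht => (hd t ht.1 ht.2.le).hasDerivWithinAt)
      (by simp [hF0])
      (fun t ht => (hB t ht.1 ht.2).continuousAt.continuousWithinAt)
      (fun t ht => (hB t ht.1 ht.2.le).hasDerivWithinAt)
      (by
        intro t ht
        rw [norm_mul]
        have h1 := hb _ (hmem t ht.1 ht.2.le)
        rw [norm_mul, Complex.norm_real, Real.norm_of_nonneg ht.1] at h1
        calc ‖v‖ * ‖φ ((t : ℂ) * v)‖ ≤ ‖v‖ * (A * (1 - t * ‖v‖) ^ (p - 1)) :=
              mul_le_mul_of_nonneg_left h1 (norm_nonneg _)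
          _ = _ := by ring)
      (x := 1) ⟨zero_le_one, le_rfl⟩
    simp only [Complex.ofReal_one, one_mul] at h
    refine h.trans ?_
    have h5 : 0 ≤ (1 - ‖v‖) ^ p := Real.rpow_nonneg (by linarith) _
    have h6 : 0 ≤ A / p := by positivity
    nlinarith
  · -- oddness
    have hneg : ∀ w ∈ ball (0 : ℂ) 1, -w ∈ ball (0 : ℂ) 1 := by
      intro w hw
      simpa using hw
    have hG : ∀ w ∈ ball (0 : ℂ) 1, HasDerivAt (fun w => F w + F (-w)) 0 w := by
      intro w hw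
      have h1 := hF w hw
      have h2 := hF (-w) (hneg w hw)
      have h3 : HasDerivAt (fun w => F (-w)) (-φ (-w)) w := by
        have h := HasDerivAt.comp w h2 (hasDerivAt_neg w)
        rw [mul_neg, mul_one] at h
        exact h
      have h4 := h1.add h3
      rw [he w, add_neg_cancel] at h4
      exact h4
    have h5 := isOpen_ball.is_const_of_deriv_eq_zero (convex_ball (0 : ℂ) 1).isPreconnected
      (fun w hw => (hG w hw).differentiableAt.differentiableWithinAt)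
      (fun w hw => (hG w hw).deriv) hv (mem_ball_self one_pos)
    simp only [neg_zero, hF0, add_zero] at h5
    linear_combination h5

lemma ball_pow {s : ℂ} (hs : s ∈ ball (0 : ℂ) 1) {n : ℕ} (hn : n ≠ 0) :
    ‖s ^ n‖ ≤ ‖s‖ ∧ ‖s‖ < 1 := by
  have h1 : ‖s‖ < 1 := by simpa using hs
  refine ⟨?_, h1⟩
  rw [norm_pow]
  calc ‖s‖ ^ n ≤ ‖s‖ ^ 1 := pow_le_pow_of_le_one (norm_nonneg _) h1.le (Nat.one_le_iff_ne_zero.2 hn)
    _ = ‖s‖ := pow_one _

lemma slit {w : ℂ} (hw : ‖w‖ < 1) : 1 + w ∈ Complex.slitPlane := by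
  left
  have h1 : |w.re| ≤ ‖w‖ := Complex.abs_re_le_norm w
  have h2 := abs_le.1 h1
  simp only [Complex.add_re, Complex.one_re]
  linarith

/-- norm bound for `(1 + w) ^ (q : ℂ)` with real `q ≤ 0`. -/
lemma norm_bd {w : ℂ} {x q : ℝ} (hw : ‖w‖ ≤ x) (hx : x < 1) (hq : q ≤ 0) :
    ‖(1 + w) ^ (q : ℂ)‖ ≤ (1 - x) ^ q := by
  have h1 : 1 - x ≤ ‖1 + w‖ := by
    have h2 : ‖(1 : ℂ)‖ - ‖w‖ ≤ ‖1 + w‖ := by
      have := norm_sub_norm_le (1 : ℂ) (-w)
      rw [norm_neg] at this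
      simpa using this
    rw [norm_one] at h2
    linarith
  rw [Complex.norm_cpow_real]
  exact Real.rpow_le_rpow_of_nonpos (by linarith) h1 hq

lemma aRoot2_norm (g k : ℕ) : ‖aRoot2 g k‖ = 1 := by
  unfold aRoot2
  have : Complex.I * Real.pi * (2 * k + 1) / (4 * g)
      = ((Real.pi * (2 * k + 1) / (4 * g) : ℝ) : ℂ) * Complex.I := by
    push_cast; ring
  rw [this, Complex.norm_exp_ofReal_mul_I]

lemma aRoot2_pow (g k : ℕ) (hg : 0 < g) : aRoot2 g k ^ (4 * g) = -1 := by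
  unfold aRoot2
  rw [← Complex.exp_nat_mul]
  have hg' : (g : ℂ) ≠ 0 := by exact_mod_cast hg.ne'
  have : ((4 * g : ℕ) : ℂ) * (Complex.I * Real.pi * (2 * k + 1) / (4 * g))
      = Real.pi * Complex.I + (k : ℤ) * (2 * Real.pi * Complex.I) := by
    push_cast
    field_simp
    ring
  rw [this, Complex.exp_add, Complex.exp_int_mul_two_pi_mul_I, Complex.exp_pi_mul_I]
  simp

lemma exp_pow_root (g k i : ℕ) :
    Complex.exp (Complex.I * Real.pi * (2 * k + 1) * (2 * i + 1) / (4 * g))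
      = aRoot2 g k ^ (2 * i + 1) := by
  unfold aRoot2
  rw [← Complex.exp_nat_mul]
  congr 1
  push_cast
  ring

/-- The Beta integral as a real number. -/
lemma betaI (p : ℝ) (hp : 0 < p) :
    Complex.betaIntegral (1 / 2) (p : ℂ) = ((bet p (1 / 2) : ℝ) : ℂ) := by
  have h := Complex.Gamma_mul_Gamma_eq_betaIntegral (s := (1 / 2 : ℂ)) (t := (p : ℂ))
    (by norm_num) (by simpa using hp)
  have e1 : (1 / 2 : ℂ) = ((1 / 2 : ℝ) : ℂ) := by push_cast; ring
  rw [e1, ← Complex.ofReal_add, Complex.Gamma_ofReal, Complex.Gamma_ofReal, Complex.Gamma_ofReal]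
    at h
  have h0 : Real.Gamma (1 / 2 + p) ≠ 0 := (Real.Gamma_pos_of_pos (by linarith)).ne'
  have h1 : ((Real.Gamma (1 / 2 + p) : ℝ) : ℂ) ≠ 0 := by exact_mod_cast h0
  unfold bet
  rw [add_comm p (1 / 2), e1]
  push_cast
  rw [eq_div_iff (by exact_mod_cast h1)]
  push_cast at h
  rw [mul_comm (Complex.betaIntegral _ _), ← h]
  ring

/-- derivative of `τ` and the pull-back of the form -/
lemma real_form (g i : ℕ) (hg : 0 < g) (v : ℝ) (hv0 : 0 < v) (hv1 : v < 1) :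
    ∃ τ' : ℝ, HasDerivAt (fun v : ℝ => (1 - v ^ 2) ^ (1 / (4 * g) : ℝ)) τ' v ∧
      τ' * (2 * ((1 - v ^ 2) ^ (1 / (4 * g) : ℝ)) ^ (2 * i) * (1 / v))
        = -(1 / g) * (1 - v ^ 2) ^ ((2 * i + 1) / (4 * g) - 1 : ℝ) := by
  have h1 : 0 < 1 - v ^ 2 := by nlinarith
  have hg' : (0 : ℝ) < g := by exact_mod_cast hg
  refine ⟨-(2 * v) * (1 / (4 * g)) * (1 - v ^ 2) ^ (1 / (4 * g) - 1 : ℝ), ?_, ?_⟩
  · have h2 : HasDerivAt (fun v : ℝ => 1 - v ^ 2) (-(2 * v)) v := by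
      have := (hasDerivAt_pow 2 v).const_sub 1
      simpa using this
    exact h2.rpow_const (Or.inl h1.ne')
  · have h3 : ((1 - v ^ 2) ^ (1 / (4 * g) : ℝ)) ^ (2 * i)
        = (1 - v ^ 2) ^ (2 * i / (4 * g) : ℝ) := by
      rw [← Real.rpow_natCast, ← Real.rpow_mul h1.le]
      congr 1
      push_cast
      ring
    have h4 : (1 - v ^ 2) ^ (1 / (4 * g) - 1 : ℝ) * (1 - v ^ 2) ^ (2 * i / (4 * g) : ℝ)
        = (1 - v ^ 2) ^ ((2 * i + 1) / (4 * g) - 1 : ℝ) := by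
      rw [← Real.rpow_add h1]
      congr 1
      ring
    rw [h3, ← h4]
    field_simp
    norm_num

/-- the comparison constant -/
lemma compare (g : ℕ) (hg : 0 < g) (k i : ℕ) (J K : ℂ → ℂ) (hJ0 : J 0 = 0) (hK0 : K 0 = 0)
    (hJ : ∀ s ∈ ball (0 : ℂ) 1,
      HasDerivAt J (2 * s ^ (2 * i) * (1 + s ^ (4 * g)) ^ (-(1 / 2) : ℂ)) s)
    (hK : ∀ v ∈ ball (0 : ℂ) 1,
      HasDerivAt K (-(1 / g) * aRoot2 g k ^ (2 * i + 1) *
        (1 - v ^ 2) ^ (((2 * i + 1) / (4 * g) - 1 : ℂ))) v) (v : ℝ) (hv0 : 0 < v) (hv1 : v < 1) :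
    J (aRoot2 g k * (((1 - v ^ 2) ^ (1 / (4 * g) : ℝ) : ℝ) : ℂ)) = K v + lam2 g k i / 2 := by
  have hg' : (0 : ℝ) < g := by exact_mod_cast hg
  set α : ℂ := aRoot2 g k with hα
  have hα1 : ‖α‖ = 1 := aRoot2_norm g k
  have hα4 : α ^ (4 * g) = -1 := aRoot2_pow g k hg
  set τ : ℝ → ℝ := fun v => (1 - v ^ 2) ^ (1 / (4 * g) : ℝ) with hτ
  set p : ℝ := (2 * i + 1) / (4 * g) with hp
  have hp0 : 0 < p := by positivity
  -- the derivative of the difference vanishes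
  have hD : ∀ v ∈ Set.Ioo (0 : ℝ) 1, HasDerivAt (fun v : ℝ => J (α * (τ v : ℂ)) - K (v : ℂ)) 0 v := by
    rintro v ⟨hv0, hv1⟩
    obtain ⟨τ', hτ', he⟩ := real_form g i hg v hv0 hv1
    have h1 : 0 < 1 - v ^ 2 := by nlinarith
    have hτ0 : 0 < τ v := Real.rpow_pos_of_pos h1 _
    have hτ1 : τ v < 1 := by
      apply Real.rpow_lt_one h1.le (by nlinarith)
      positivity
    have hs : α * (τ v : ℂ) ∈ ball (0 : ℂ) 1 := by
      rw [mem_ball_zero_iff, norm_mul, hα1, one_mul, Complex.norm_real, Real.norm_of_nonneg hτ0.le]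
      exact hτ1
    have hvb : (v : ℂ) ∈ ball (0 : ℂ) 1 := by
      rw [mem_ball_zero_iff, Complex.norm_real, Real.norm_of_nonneg hv0.le]
      exact hv1
    have hsd : HasDerivAt (fun v : ℝ => α * (τ v : ℂ)) (α * (τ' : ℂ)) v :=
      (hτ'.ofReal_comp).const_mul α
    have hJd : HasDerivAt (fun v : ℝ => J (α * (τ v : ℂ)))
        ((α * (τ' : ℂ)) * (2 * (α * (τ v : ℂ)) ^ (2 * i) *
          (1 + (α * (τ v : ℂ)) ^ (4 * g)) ^ (-(1 / 2) : ℂ))) v :=
      HasDerivAt.scomp v (hJ _ hs) hsd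
    have hKd : HasDerivAt (fun v : ℝ => K (v : ℂ))
        (-(1 / g) * α ^ (2 * i + 1) * (1 - (v : ℂ) ^ 2) ^ (((2 * i + 1) / (4 * g) - 1 : ℂ))) v :=
      (hK _ hvb).comp_ofReal
    have h4 : (α * (τ v : ℂ)) ^ (4 * g) = -(1 - (v : ℂ) ^ 2) := by
      rw [mul_pow, hα4]
      have : (τ v) ^ (4 * g) = 1 - v ^ 2 := by
        rw [hτ]
        simp only
        rw [← Real.rpow_natCast, ← Real.rpow_mul h1.le]
        push_cast
        rw [one_div, inv_mul_cancel₀ (by positivity), Real.rpow_one]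
      have h5 : ((τ v : ℝ) : ℂ) ^ (4 * g) = ((1 - v ^ 2 : ℝ) : ℂ) := by
        rw [← this]; push_cast; ring
      rw [h5]
      push_cast
      ring
    have h5 : (1 + (α * (τ v : ℂ)) ^ (4 * g)) ^ (-(1 / 2) : ℂ) = ((1 / v : ℝ) : ℂ) := by
      rw [h4]
      have e1 : (1 + -(1 - (v : ℂ) ^ 2)) = ((v ^ 2 : ℝ) : ℂ) := by push_cast; ring
      have e2 : (-(1 / 2) : ℂ) = ((-(1 / 2) : ℝ) : ℂ) := by push_cast; ring
      rw [e1, e2, ← Complex.ofReal_cpow (by positivity)]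
      congr 1
      rw [← Real.rpow_natCast, ← Real.rpow_mul hv0.le]
      norm_num
      rw [Real.rpow_neg_one]
    have h6 : (1 - (v : ℂ) ^ 2) ^ (((2 * i + 1) / (4 * g) - 1 : ℂ))
        = (((1 - v ^ 2) ^ ((2 * i + 1) / (4 * g) - 1 : ℝ) : ℝ) : ℂ) := by
      rw [Complex.ofReal_cpow h1.le]
      push_cast
      rfl
    have h7 := hJd.sub hKd
    have e : (α * (τ' : ℂ)) * (2 * (α * (τ v : ℂ)) ^ (2 * i) *
          (1 + (α * (τ v : ℂ)) ^ (4 * g)) ^ (-(1 / 2) : ℂ)) -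
        -(1 / g) * α ^ (2 * i + 1) * (1 - (v : ℂ) ^ 2) ^ (((2 * i + 1) / (4 * g) - 1 : ℂ)) = 0 := by
      rw [h5, h6]
      have he' : ((τ' * (2 * (τ v) ^ (2 * i) * (1 / v)) : ℝ) : ℂ)
          = ((-(1 / g) * (1 - v ^ 2) ^ ((2 * i + 1) / (4 * g) - 1 : ℝ) : ℝ) : ℂ) := by
        rw [← he]
      push_cast at he'
      push_cast
      rw [mul_pow, pow_succ α (2 * i)]
      linear_combination α ^ (2 * i) * α * he'
    rw [e] at h7
    exact h7
  -- constant difference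
  have hconst : ∀ v ∈ Set.Ioo (0 : ℝ) 1,
      J (α * (τ v : ℂ)) - K (v : ℂ) = J (α * (τ (1 / 2) : ℂ)) - K ((1 / 2 : ℝ) : ℂ) := by
    intro v hv
    exact isOpen_Ioo.is_const_of_deriv_eq_zero (𝕜 := ℝ)
      (f := fun v : ℝ => J (α * (τ v : ℂ)) - K (v : ℂ)) isPreconnected_Ioo
      (fun w hw => (hD w hw).differentiableAt.differentiableWithinAt)
      (fun w hw => (hD w hw).deriv) hv ⟨by norm_num, by norm_num⟩
  set c₀ : ℂ := J (α * (τ (1 / 2) : ℂ)) - K ((1 / 2 : ℝ) : ℂ) with hc₀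
  -- the integral
  have hsq : ∀ x ∈ Set.Ioo (0 : ℝ) 1, Real.sqrt x ∈ Set.Ioo (0 : ℝ) 1 := by
    rintro x ⟨h0, h1⟩
    refine ⟨Real.sqrt_pos.2 h0, ?_⟩
    rw [Real.sqrt_lt' one_pos]
    simpa using h1
  have hint : ∫ x in (0 : ℝ)..1, (-(1 / (2 * g)) * α ^ (2 * i + 1)) *
      ((x : ℂ) ^ ((1 / 2 : ℂ) - 1) * (1 - (x : ℂ)) ^ ((p : ℂ) - 1)) = -c₀ - 0 := by
    apply intervalIntegral.integral_eq_sub_of_hasDerivAt_of_tendsto (f := fun x : ℝ => K (Real.sqrt x : ℂ))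
      one_pos
    · intro x hx
      have hs := hsq x hx
      have hb : ((Real.sqrt x : ℝ) : ℂ) ∈ ball (0 : ℂ) 1 := by
        rw [mem_ball_zero_iff, Complex.norm_real, Real.norm_of_nonneg hs.1.le]
        exact hs.2
      have h1 : HasDerivAt (fun x : ℝ => ((Real.sqrt x : ℝ) : ℂ))
          ((1 / (2 * Real.sqrt x) : ℝ) : ℂ) x := (Real.hasDerivAt_sqrt hx.1.ne').ofReal_comp
      have h2 := HasDerivAt.scomp x (hK _ hb) h1
      refine HasDerivAt.congr_deriv h2 ?_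
      rw [smul_eq_mul]
      have h3 : (((Real.sqrt x : ℝ) : ℂ)) ^ 2 = (x : ℂ) := by
        rw [← Complex.ofReal_pow, Real.sq_sqrt hx.1.le]
      have h4 : (x : ℂ) ^ ((1 / 2 : ℂ) - 1) = ((1 / Real.sqrt x : ℝ) : ℂ) := by
        have e2 : ((1 / 2 : ℂ) - 1) = ((-(1 / 2) : ℝ) : ℂ) := by push_cast; ring
        rw [e2, ← Complex.ofReal_cpow hx.1.le, Real.rpow_neg hx.1.le, ← Real.sqrt_eq_rpow, one_div]
      rw [h3, h4]
      have h5 : (((2 * i + 1) / (4 * g) - 1 : ℂ)) = (p : ℂ) - 1 := by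
        rw [hp]; push_cast; ring
      rw [h5]
      push_cast
      have h6 : ((Real.sqrt x : ℝ) : ℂ) ≠ 0 := by
        exact_mod_cast hs.1.ne'
      have h7 : (g : ℂ) ≠ 0 := by exact_mod_cast hg.ne'
      field_simp
    · exact (Complex.betaIntegral_convergent (u := 1 / 2) (v := (p : ℂ)) (by norm_num)
        (by simpa using hp0)).const_mul _
    · -- at zero
      have h1 : ContinuousAt (fun x : ℝ => K (Real.sqrt x : ℂ)) 0 := by
        have h2 : ContinuousAt K ((Real.sqrt 0 : ℝ) : ℂ) := by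
          rw [Real.sqrt_zero, Complex.ofReal_zero]
          exact (hK 0 (mem_ball_self one_pos)).continuousAt
        exact ContinuousAt.comp (f := fun x : ℝ => ((Real.sqrt x : ℝ) : ℂ)) h2
          (by fun_prop)
      have h3 := h1.tendsto
      rw [Real.sqrt_zero, Complex.ofReal_zero, hK0] at h3
      exact h3.mono_left nhdsWithin_le_nhds
    · -- at one
      have h1 : Tendsto (fun x : ℝ => J (α * (((1 - x) ^ (1 / (4 * g) : ℝ) : ℝ) : ℂ)) - c₀) (𝓝[<] 1)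
          (𝓝 (0 - c₀)) := by
        apply Tendsto.sub_const
        have h2 : ContinuousAt (fun x : ℝ => α * (((1 - x) ^ (1 / (4 * g) : ℝ) : ℝ) : ℂ)) 1 := by
          apply ContinuousAt.mul continuousAt_const
          apply Complex.continuous_ofReal.continuousAt.comp
          apply ContinuousAt.rpow_const (by fun_prop)
          right
          positivity
        have h3 : α * (((1 - 1) ^ (1 / (4 * g) : ℝ) : ℝ) : ℂ) = 0 := by
          rw [sub_self, Real.zero_rpow (by positivity)]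
          simp
        have h4 : ContinuousAt J (α * (((1 - 1) ^ (1 / (4 * g) : ℝ) : ℝ) : ℂ)) := by
          rw [h3]
          exact (hJ 0 (mem_ball_self one_pos)).continuousAt
        have h5 := (ContinuousAt.comp (f := fun x : ℝ =>
          α * (((1 - x) ^ (1 / (4 * g) : ℝ) : ℝ) : ℂ)) h4 h2).tendsto
        simp only [Function.comp] at h5
        rw [h3, hJ0] at h5
        exact h5.mono_left nhdsWithin_le_nhds
      rw [zero_sub] at h1
      apply h1.congr'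
      have hmem : Set.Ioo (0 : ℝ) 1 ∈ 𝓝[<] (1 : ℝ) := Ioo_mem_nhdsLT one_pos
      filter_upwards [hmem] with x hx
      have hs := hsq x hx
      have h2 := hconst _ hs
      have h3 : τ (Real.sqrt x) = (1 - x) ^ (1 / (4 * g) : ℝ) := by
        rw [hτ]
        simp only
        rw [Real.sq_sqrt hx.1.le]
      rw [h3] at h2
      linear_combination h2
  have hc : c₀ = lam2 g k i / 2 := by
    rw [intervalIntegral.integral_const_mul] at hint
    have h1 := betaI p hp0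
    unfold Complex.betaIntegral at h1
    rw [h1] at hint
    unfold lam2
    rw [exp_pow_root, ← hα]
    have h2 : (bet ((2 * i + 1) / (4 * g)) (1 / 2)) = bet p (1 / 2) := by rw [hp]
    rw [h2]
    have h7 : (g : ℂ) ≠ 0 := by exact_mod_cast hg.ne'
    have h8 : c₀ = -((-(1 / (2 * g)) * α ^ (2 * i + 1)) * ((bet p (1 / 2) : ℝ) : ℂ)) := by
      rw [hint]; ring
    rw [h8]
    field_simp
  have h := hconst v ⟨hv0, hv1⟩
  rw [hc] at h
  linear_combination h

theorem thm_SHEETS2 : Stmt_Sheets2 := by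
  intro g hg
  have hg' : (0 : ℝ) < g := by exact_mod_cast hg
  have hgC : (g : ℂ) ≠ 0 := by exact_mod_cast hg.ne'
  -- the functions J
  have hJ : ∀ i : ℕ, ∃ F : ℂ → ℂ, F 0 = 0 ∧ ∀ s ∈ ball (0 : ℂ) 1,
      HasDerivAt F (2 * s ^ (2 * i) * (1 + s ^ (4 * g)) ^ (-(1 / 2) : ℂ)) s ∧
        ‖F s‖ ≤ 2 / (1 / 2) ∧ F (-s) = -F s := by
    intro i
    apply prim (fun s => 2 * s ^ (2 * i) * (1 + s ^ (4 * g)) ^ (-(1 / 2) : ℂ)) _ 2 (1 / 2)
      (by norm_num) (by norm_num)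
    · intro s hs
      have h1 := ball_pow hs (n := 4 * g) (by omega)
      have e2 : (-(1 / 2) : ℂ) = ((-(1 / 2) : ℝ) : ℂ) := by push_cast; ring
      rw [norm_mul, norm_mul, norm_pow, e2]
      have h2 : ‖(2 : ℂ)‖ = 2 := by simp
      have h3 := norm_bd h1.1 h1.2 (q := -(1 / 2)) (by norm_num)
      have h4 : ‖s‖ ^ (2 * i) ≤ 1 := pow_le_one₀ (norm_nonneg _) h1.2.le
      rw [h2]
      have e3 : (1 / 2 - 1 : ℝ) = -(1 / 2) := by norm_num
      rw [e3]
      calc 2 * ‖s‖ ^ (2 * i) * ‖(1 + s ^ (4 * g)) ^ ((-(1 / 2) : ℝ) : ℂ)‖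
          ≤ 2 * 1 * (1 - ‖s‖) ^ (-(1 / 2) : ℝ) := by gcongr
        _ = _ := by ring
    · intro s
      rw [(even_two_mul i).neg_pow, show 4 * g = 2 * (2 * g) by ring, (even_two_mul (2 * g)).neg_pow]
    · intro s hs
      have h1 := ball_pow hs (n := 4 * g) (by omega)
      have h2 := slit (lt_of_le_of_lt h1.1 h1.2)
      have h3 : DifferentiableAt ℂ (fun s : ℂ => 1 + s ^ (4 * g)) s := by fun_prop
      have h4 : DifferentiableAt ℂ (fun s : ℂ => (1 + s ^ (4 * g)) ^ (-(1 / 2) : ℂ)) s :=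
        h3.cpow (differentiableAt_const _) h2
      exact (((differentiableAt_id.pow (2 * i)).const_mul 2).mul h4).differentiableWithinAt
  choose J hJ0 hJ1 using hJ
  -- the functions K
  have hK : ∀ k i : ℕ, ∃ F : ℂ → ℂ, i ≤ g → (F 0 = 0 ∧ ∀ v ∈ ball (0 : ℂ) 1,
      HasDerivAt F (-(1 / g) * aRoot2 g k ^ (2 * i + 1) *
        (1 - v ^ 2) ^ (((2 * i + 1) / (4 * g) - 1 : ℂ))) v ∧
        ‖F v‖ ≤ 1 / ((2 * i + 1) / (4 * g)) ∧ F (-v) = -F v) := by
    intro k i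
    by_cases hi : i ≤ g
    swap
    · exact ⟨0, fun h => absurd h hi⟩
    have hiR : (i : ℝ) ≤ g := by exact_mod_cast hi
    have hg1 : (1 : ℝ) ≤ g := by exact_mod_cast hg
    have hp0 : (0 : ℝ) < (2 * i + 1) / (4 * g) := by positivity
    have hp1 : ((2 * i + 1) / (4 * g) - 1 : ℝ) ≤ 0 := by
      have : ((2 * i + 1) / (4 * g) : ℝ) ≤ 1 := by
        rw [div_le_one (by positivity)]
        linarith
      linarith
    obtain ⟨F, h0, h1⟩ := prim (fun v => -(1 / g) * aRoot2 g k ^ (2 * i + 1) *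
        (1 - v ^ 2) ^ (((2 * i + 1) / (4 * g) - 1 : ℂ))) (by
      intro s hs
      have h1 := ball_pow hs (n := 2) (by omega)
      have h2 : 1 + -(s ^ 2) ∈ Complex.slitPlane := slit (by
        rw [norm_neg]; exact lt_of_le_of_lt h1.1 h1.2)
      have h3 : DifferentiableAt ℂ (fun s : ℂ => 1 - s ^ 2) s := by fun_prop
      have h4 : DifferentiableAt ℂ
          (fun s : ℂ => (1 - s ^ 2) ^ (((2 * i + 1) / (4 * g) - 1 : ℂ))) s :=
        h3.cpow (differentiableAt_const _) (by rwa [sub_eq_add_neg])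
      exact (h4.const_mul _).differentiableWithinAt) 1 ((2 * i + 1) / (4 * g)) (by norm_num) hp0
      (by
        intro s hs
        have h1 := ball_pow hs (n := 2) (by omega)
        have e2 : (((2 * i + 1) / (4 * g) - 1 : ℂ)) = (((2 * i + 1) / (4 * g) - 1 : ℝ) : ℂ) := by
          push_cast; ring
        rw [norm_mul, norm_mul, norm_pow, aRoot2_norm, one_pow, mul_one, e2, sub_eq_add_neg]
        have h3 := norm_bd (w := -(s ^ 2)) (by rw [norm_neg]; exact h1.1) h1.2 hp1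
        have h5 : ‖(-(1 / g) : ℂ)‖ ≤ 1 := by
          rw [norm_neg, norm_div, norm_one, Complex.norm_natCast, div_le_one hg']
          exact hg1
        exact mul_le_mul h5 h3 (norm_nonneg _) (by norm_num))
      (by
        intro s
        rw [neg_sq])
    exact ⟨F, fun _ => ⟨h0, h1⟩⟩
  choose K hK using hK
  refine ⟨J, K, 4 * g + 4, ?_, ?_, ?_⟩
  · intro i _
    refine ⟨hJ0 i, fun s hs => ?_⟩
    obtain ⟨h1, h2, h3⟩ := hJ1 i s hs
    refine ⟨h1, ?_, h3⟩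
    linarith
  · intro k i hi
    obtain ⟨h0, h1⟩ := hK k i hi
    refine ⟨h0, fun v hv => ?_⟩
    obtain ⟨h2, h3, h4⟩ := h1 v hv
    refine ⟨h2, ?_, h4⟩
    have h5 : (1 : ℝ) / ((2 * i + 1) / (4 * g)) ≤ 4 * g := by
      rw [one_div_div, div_le_iff₀ (by positivity)]
      have : (0 : ℝ) ≤ i := Nat.cast_nonneg i
      nlinarith
    linarith
  · intro k i hi v hv0 hv1
    obtain ⟨h0, h1⟩ := hK k i hi
    exact compare g hg k i (J i) (K k i) (hJ0 i) h0 (fun s hs => (hJ1 i s hs).1)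
      (fun v hv => (h1 v hv).1) v hv0 hv1

end Pool.Agent.FDR.SHEETS2
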