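import Pool.Agent.FDR.Stmts

/-!
# FDR: the transcendence theorem, from `TBig` and `TSmall`
-/

namespace Pool.Agent.FDR.T

theorem thm_T (hTBig : Stmt_TBig) (hTSmall : Stmt_TSmall) : Stmt_T := by
  intro ℓ j hℓ h2 hj H
  have hℓ3 : 3 ≤ ℓ := by
    have := hℓ.two_le
    omega
  have hodd : Odd (ℓ ^ j) := (hℓ.odd_of_ne_two h2).pow
  obtain ⟨g, hg⟩ := hodd
  by_cases hg2 : 2 ≤ g
  · refine hTBig ℓ j g hℓ h2 hj hg.symm hg2 ?_
    intro i i' hi hig hi' hig' hd hd' hmod
    exact H i i' hi (by omega) hi' (by omega) hd hd' hmod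
  · have hle : ℓ ^ 1 ≤ ℓ ^ j := Nat.pow_le_pow_right (by omega) hj
    rw [pow_one] at hle
    have hℓ' : ℓ = 3 := by omega
    subst hℓ'
    have hj1 : j = 1 := by
      by_contra hne
      have h2j : 2 ≤ j := by omega
      have : 3 ^ 2 ≤ 3 ^ j := Nat.pow_le_pow_right (by norm_num) h2j
      omega
    subst hj1
    apply hTSmall
    have h := H 1 2 (by norm_num) (by norm_num) (by norm_num) (by norm_num) (by norm_num)
      (by norm_num) (by norm_num [Nat.ModEq, Nat.mod_one])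
    norm_num at h ⊢
    exact h

end Pool.Agent.FDR.T
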