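import Pool.Agent.FDR.Stmts2

/-!
# FDR, module T2
-/

namespace Pool.Agent.FDR.T2

theorem alg_ratio (x y : ℝ) (hx : IsAlgebraic ℚ (bet x (1 / 2) ^ 2 / Real.pi))
    (hy : IsAlgebraic ℚ (bet y (1 / 2) ^ 2 / Real.pi)) :
    IsAlgebraic ℚ (bet x (1 / 2) / bet y (1 / 2)) := by
  have h := hx.mul hy.inv
  have hp : (Real.pi : ℝ) ≠ 0 := Real.pi_ne_zero
  have e : bet x (1 / 2) ^ 2 / Real.pi * (bet y (1 / 2) ^ 2 / Real.pi)⁻¹ =
      (bet x (1 / 2) / bet y (1 / 2)) ^ 2 := by
    rw [inv_div, div_pow, div_mul_div_comm]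
    rw [mul_comm Real.pi, mul_div_mul_right _ _ hp]
  rw [e] at h
  exact h.of_pow (by norm_num)

theorem thm_T2 (hB : Stmt_TBig2) (hS : Stmt_TSmall2) : Stmt_T2 := by
  intro j hj H
  set g : ℕ := 2 ^ (j - 2) with hg
  have h4 : 4 * g = 2 ^ j := by
    rw [hg, show (4 : ℕ) = 2 ^ 2 by norm_num, ← pow_add]
    congr 1
    omega
  have hgpos : 0 < g := by rw [hg]; positivity
  have key : ∀ i : ℕ, i ≤ g →
      IsAlgebraic ℚ (bet ((2 * i + 1) / (4 * g)) (1 / 2) / bet (1 / (4 * g)) (1 / 2)) := by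
    intro i hi
    apply alg_ratio
    · have h := H (2 * i + 1) (by omega) (by omega) (by omega)
      rw [← h4] at h
      push_cast at h
      exact h
    · have h := H 1 (by omega) (by omega) (by omega)
      rw [← h4] at h
      push_cast at h
      exact h
  rcases Nat.lt_or_ge j 4 with h | h
  · refine hS g ?_ key
    interval_cases j
    · left; rw [hg]; norm_num
    · right; rw [hg]; norm_num
  · exact hB (j - 2) g (by omega) hg (fun i hi => key i hi.le)

end Pool.Agent.FDR.T2
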