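import Pool.Agent.FDR.Stmts

/-!
# FDR, module TBIG: transcendence for `ℓ ^ j = 2 g + 1 ≥ 5`
-/

open scoped BigOperators Polynomial Topology
open Metric Filter

namespace Pool.Agent.FDR.TBIG

noncomputable section

/-- the base points -/
def bb (g : ℕ) (r : Fin 2) (k : Fin g) : ℝ :=
  if (r : ℕ) = 0 ∧ (k : ℕ) = 0 then 0 else ((r : ℕ) * g + (k : ℕ) + 1 : ℕ)

theorem bb_nonneg (g : ℕ) (r : Fin 2) (k : Fin g) : 0 ≤ bb g r k := by
  unfold bb
  split_ifs
  · exact le_refl _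
  · positivity

theorem bb_inj (g : ℕ) : Function.Injective (fun q : Fin 2 × Fin g => bb g q.1 q.2) := by
  rintro ⟨r, k⟩ ⟨r', k'⟩ h
  simp only [bb] at h
  have hk := k.isLt
  have hk' := k'.isLt
  have hr := r.isLt
  have hr' := r'.isLt
  have key : (if (r : ℕ) = 0 ∧ (k : ℕ) = 0 then 0 else ((r : ℕ) * g + (k : ℕ) + 1 : ℕ)) =
      (if (r' : ℕ) = 0 ∧ (k' : ℕ) = 0 then 0 else ((r' : ℕ) * g + (k' : ℕ) + 1 : ℕ)) := by
    split_ifs at h ⊢ with h1 h2 h2
    · rfl
    · exfalso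
      have : ((0 : ℝ)) < (((r' : ℕ) * g + (k' : ℕ) + 1 : ℕ) : ℝ) := by positivity
      linarith
    · exfalso
      have : ((0 : ℝ)) < (((r : ℕ) * g + (k : ℕ) + 1 : ℕ) : ℝ) := by positivity
      linarith
    · exact_mod_cast h
  have hr2 : (r : ℕ) = 0 ∨ (r : ℕ) = 1 := by omega
  have hr2' : (r' : ℕ) = 0 ∨ (r' : ℕ) = 1 := by omega
  have : (r : ℕ) = (r' : ℕ) ∧ (k : ℕ) = (k' : ℕ) := by
    clear h
    generalize (r : ℕ) = R at *
    generalize (r' : ℕ) = R' at *
    generalize (k : ℕ) = A at *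
    generalize (k' : ℕ) = A' at *
    rcases hr2 with h1 | h1 <;> rcases hr2' with h2 | h2 <;> subst h1 <;> subst h2 <;>
      simp only [zero_mul, one_mul, zero_add, true_and, one_ne_zero, false_and, if_false] at key <;>
      (try split_ifs at key) <;> omega
  exact Prod.ext (Fin.ext this.1) (Fin.ext this.2)

/-- the `y`-coordinates -/
def cc (g : ℕ) (r : Fin 2) (k : Fin g) : ℝ := Real.sqrt (bb g r k ^ (2 * g + 1) + 1)

theorem cc_pos (g : ℕ) (r : Fin 2) (k : Fin g) : 0 < cc g r k := by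
  unfold cc
  have := bb_nonneg g r k
  positivity

theorem cc_sq (g : ℕ) (r : Fin 2) (k : Fin g) :
    cc g r k ^ 2 = bb g r k ^ (2 * g + 1) + 1 := by
  unfold cc
  have := bb_nonneg g r k
  exact Real.sq_sqrt (by positivity)

theorem bb_alg (g : ℕ) (r : Fin 2) (k : Fin g) : IsAlgebraic ℚ ((bb g r k : ℝ) : ℂ) := by
  unfold bb
  split_ifs
  · simpa using isAlgebraic_zero
  · simpa using isAlgebraic_natCast (R := ℚ) (A := ℂ) ((r : ℕ) * g + (k : ℕ) + 1)

theorem cc_alg (g : ℕ) (r : Fin 2) (k : Fin g) : IsAlgebraic ℚ ((cc g r k : ℝ) : ℂ) := by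
  have h : ((cc g r k : ℝ) : ℂ) ^ 2 = ((bb g r k : ℝ) : ℂ) ^ (2 * g + 1) + 1 := by
    have := cc_sq g r k
    exact_mod_cast congrArg (fun x : ℝ => (x : ℂ)) this
  have h2 : IsAlgebraic ℚ (((cc g r k : ℝ) : ℂ) ^ 2) := by
    rw [h]
    exact ((bb_alg g r k).pow _).add isAlgebraic_one
  exact h2.of_pow two_pos

theorem thm_TBIG (hBranch : Stmt_Branch) (hChart : Stmt_Chart) (hF1G : Stmt_F1G)
    (hCont : Stmt_Cont) (hPull : Stmt_Pull) (hPerFst : Stmt_PerFst) (hPerGroup : Stmt_PerGroup)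
    (hULoc : Stmt_ULoc) (hLamSpan : Stmt_LamSpan) (hLatt : Stmt_Latt) (hAlgInd : Stmt_AlgInd)
    (hArith : Stmt_Arith) (hSL : Stmt_SL) : Stmt_TBig := by
  intro ℓ j g hℓ hℓ2 hj hm hg halg
  have hg0 : 0 < g := by omega
  obtain ⟨d, e, v, hd, heind, heL, hvind, hvalg, hespan⟩ := hLatt ℓ j g hℓ hℓ2 hj hm hg halg
  -- the curve and the charts
  set f : ℂ[X] := Polynomial.X ^ (2 * g + 1) + 1 with hf
  have hfdeg : f.natDegree = 2 * g + 1 := by
    rw [hf]; exact Polynomial.natDegree_X_pow_add_C (r := (1 : ℂ))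
  have hfm : f.Monic := by
    rw [hf]; exact Polynomial.monic_X_pow_add_C (1 : ℂ) (by omega)
  set b : Fin 2 → Fin g → ℂ := fun r k => ((bb g r k : ℝ) : ℂ) with hb
  set c : Fin 2 → Fin g → ℂ := fun r k => ((cc g r k : ℝ) : ℂ) with hc
  have hbinj : Function.Injective (fun q : Fin 2 × Fin g => b q.1 q.2) := by
    intro q q' h
    apply bb_inj g
    have : ((bb g q.1 q.2 : ℝ) : ℂ) = ((bb g q'.1 q'.2 : ℝ) : ℂ) := h
    exact_mod_cast this
  have hbinj' : ∀ r, Function.Injective (b r) := by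
    intro r k k' h
    have := @hbinj (r, k) (r, k') h
    exact (Prod.mk.inj this).2
  have hcb : ∀ r k, c r k ^ 2 = f.eval (b r k) := by
    intro r k
    have := cc_sq g r k
    rw [hf]
    simp only [Polynomial.eval_add, Polynomial.eval_pow, Polynomial.eval_X, Polynomial.eval_one,
      hb, hc]
    exact_mod_cast congrArg (fun x : ℝ => (x : ℂ)) this
  have hc0 : ∀ r k, c r k ≠ 0 := by
    intro r k
    have := cc_pos g r k
    simp only [hc]
    exact_mod_cast this.ne'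
  have hβ : ∀ r k, Nonempty (Branch f (b r k) (c r k)) := fun r k =>
    hBranch f _ _ (hcb r k) (hc0 r k)
  choose C hC using fun r => hChart g f (b r) (c r) (hbinj' r) (fun k => (hβ r k).some)
  have hGF : HasGrowth (F1 (C 0)) := hF1G g hg0 f hfm hfdeg b c C hbinj
  have hb0 : b 0 ⟨0, hg0⟩ = 0 := by
    simp [hb, bb]
  have hc00 : c 0 ⟨0, hg0⟩ = 1 := by
    simp [hc, cc, bb]
  have hPerF : ∀ k k' : ℕ, IsPer (F1 (C 0)) (lamv g k - lamv g k') :=
    hCont g hg0 (b 0) (c 0) hb0 hc00 (hbinj' 0) (C 0) hGF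
  -- the functions U
  set U : (Fin g → ℂ) → (Fin g → ℂ) := fun z l => (polyU ((C 0).X z)).coeff l with hU
  have hU1 : (fun (p : (Fin g → ℂ) × ℂ) => U p.1) =
      (fun (p : (Fin g → ℂ) × ℂ) (i : Fin g) =>
        F1 (C 0) ((ContinuousLinearMap.id ℂ ((Fin g → ℂ) × ℂ)) p) (some i)) := by
    funext p i
    simp [hU, F1]
  have hU2 : U = (fun (z : Fin g → ℂ) (i : Fin g) =>
      F1 (C 0) ((ContinuousLinearMap.inl ℂ (Fin g → ℂ) ℂ) z) (some i)) := by
    funext z i
    simp [hU, F1]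
  have hGU : HasGrowth U := by
    rw [hU2]
    exact (hPull _ _ _ _ (F1 (C 0)) (ContinuousLinearMap.inl ℂ (Fin g → ℂ) ℂ) some hGF).1
  have hGUp : HasGrowth (fun (p : (Fin g → ℂ) × ℂ) => U p.1) := by
    rw [hU1]
    exact (hPull _ _ _ _ (F1 (C 0)) (ContinuousLinearMap.id ℂ ((Fin g → ℂ) × ℂ)) some hGF).1
  have hPerU0 : ∀ k k' : ℕ, IsPer U (fun i : Fin g => lam g k i - lam g k' i) := by
    intro k k'
    apply hPerFst (Fin g → ℂ) (Fin g) U hGUp _ (lam g k g - lam g k' g)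
    have h1 := (hPull _ _ _ _ (F1 (C 0)) (ContinuousLinearMap.id ℂ ((Fin g → ℂ) × ℂ))
      some hGF).2 (lamv g k - lamv g k') (hPerF k k')
    rw [← hU1] at h1
    exact h1
  have hPerU : ∀ γ ∈ Lam g, IsPer U γ := by
    intro γ hγ
    obtain ⟨hz, hadd, hneg⟩ := hPerGroup (Fin g → ℂ) (Fin g) U hGU
    unfold Lam at hγ
    induction hγ using AddSubgroup.closure_induction with
    | mem x hx =>
      obtain ⟨q, rfl⟩ := hx
      exact hPerU0 q.1 q.2
    | zero => exact hz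
    | add x y _ _ hx hy => exact hadd x y hx hy
    | neg x _ hx => exact hneg x hx
  obtain ⟨hUan, hUinj⟩ := hULoc g f (b 0) (c 0) (C 0) (hbinj' 0)
  obtain ⟨φ, hφ⟩ := hAlgInd g d hd U hUan hUinj hGU (Lam g) hPerU (hLamSpan g hg0) e heind heL
    hespan
  -- the subspace
  let L0 : (Fin d → ℂ) →ₗ[ℂ] (Fin g → ℂ) := Fintype.linearCombination ℂ e
  let L1 : (Fin d → ℂ) →L[ℂ] (Fin g → ℂ) := LinearMap.toContinuousLinearMap L0
  have hL1 : ∀ w, L1 w = ∑ s, w s • e s := fun w => by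
    change L0 w = _
    exact Fintype.linearCombination_apply ℂ e w
  let L : (Fin d → ℂ) →L[ℂ] (Fin g → ℂ) × ℂ := (ContinuousLinearMap.inl ℂ (Fin g → ℂ) ℂ).comp L1
  have hL : ∀ w, L w = (∑ s, w s • e s, 0) := fun w => by
    change (ContinuousLinearMap.inl ℂ (Fin g → ℂ) ℂ) (L1 w) = _
    rw [hL1]
    rfl
  -- the field
  let S : Set ℂ := (Set.range fun k : Fin g => b 0 k) ∪ (Set.range fun k : Fin g => c 0 k) ∪
    (Set.range fun q : Fin d × Fin g => (∑ s, v q.1 s • e s) q.2)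
  have hSfin : S.Finite := by
    exact ((Set.finite_range _).union (Set.finite_range _)).union (Set.finite_range _)
  have hSint : ∀ x ∈ S, IsIntegral ℚ x := by
    intro x hx
    rcases hx with (⟨k, rfl⟩ | ⟨k, rfl⟩) | ⟨q, rfl⟩
    · exact (bb_alg g 0 k).isIntegral
    · exact (cc_alg g 0 k).isIntegral
    · exact (hvalg q.1 q.2).isIntegral
  let K : IntermediateField ℚ ℂ := IntermediateField.adjoin ℚ S
  have hKfin : FiniteDimensional ℚ K := by
    have : Finite S := hSfin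
    exact IntermediateField.finiteDimensional_adjoin hSint
  have hSK : ∀ x ∈ S, x ∈ K := fun x hx => IntermediateField.subset_adjoin ℚ S hx
  obtain ⟨n, H, hHan, hH0, hHd, hHF⟩ := hArith g d K f (by
      intro i
      rw [hf]
      simp only [Polynomial.coeff_add, Polynomial.coeff_X_pow, Polynomial.coeff_one]
      refine K.add_mem ?_ ?_ <;> split_ifs
      · exact K.one_mem
      · exact K.zero_mem
      · exact K.one_mem
      · exact K.zero_mem)
    (b 0) (c 0) (fun k => hSK _ (Or.inl (Or.inl ⟨k, rfl⟩)))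
    (fun k => hSK _ (Or.inl (Or.inr ⟨k, rfl⟩))) (hbinj' 0) (C 0) L v
    (by
      intro t i
      rw [hL]
      exact hSK _ (Or.inr ⟨(t, i), rfl⟩))
    (by
      intro t
      rw [hL]
      exact K.zero_mem)
  -- the functions of Schneider and Lang
  have hGf : HasGrowth (fun (w : Fin d → ℂ) (i : Fin (d + 1)) => U (L1 w) (φ i)) :=
    (hPull _ _ _ _ U L1 φ hGU).1
  have hPf : ∀ s : Fin d,
      IsPer (fun (w : Fin d → ℂ) (i : Fin (d + 1)) => U (L1 w) (φ i)) (Pi.single s 1) := by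
    intro s
    apply (hPull _ _ _ _ U L1 φ hGU).2
    have : L1 (Pi.single s 1) = e s := by
      rw [hL1]
      simp [Pi.single_apply]
    rw [this]
    exact hPerU _ (heL s)
  refine hSL d n hd K hKfin v hvind H hHan hH0 hHd
    (fun (w : Fin d → ℂ) (i : Fin (d + 1)) => U (L1 w) (φ i)) ?_ hGf hPf ?_
  · intro i
    obtain ⟨P, hP⟩ := hHF (some (φ i))
    refine ⟨P, ?_⟩
    filter_upwards [hP] with w hw
    rw [← hw, hL, hL1]
    rfl
  · intro P hP
    apply hφ P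
    filter_upwards [hP] with w hw
    rw [← hw]
    simp only [hL1]

end

end Pool.Agent.FDR.TBIG
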