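import Pool.Agent.FDR.Stmts2

/-!
# FDR, module TBIG2: transcendence for `4 g = 2 ^ (a + 2) ≥ 16`
-/

open scoped BigOperators Polynomial Topology
open Metric Filter

namespace Pool.Agent.FDR.TBIG2

noncomputable section

/-- the base points -/
def bb (g : ℕ) (r : Fin 2) (k : Fin g) : ℝ :=
  if (r : ℕ) = 0 ∧ (k : ℕ) = 0 then 1 / 4 else ((r : ℕ) * g + (k : ℕ) + 1 : ℕ)

theorem bb_pos (g : ℕ) (r : Fin 2) (k : Fin g) : 0 < bb g r k := by
  unfold bb
  split_ifs
  · norm_num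
  · positivity

theorem bb_inj (g : ℕ) : Function.Injective (fun q : Fin 2 × Fin g => bb g q.1 q.2) := by
  rintro ⟨r, k⟩ ⟨r', k'⟩ h
  simp only [bb] at h
  have hk := k.isLt
  have hk' := k'.isLt
  have hr := r.isLt
  have hr' := r'.isLt
  have key : (if (r : ℕ) = 0 ∧ (k : ℕ) = 0 then 0 else ((r : ℕ) * g + (k : ℕ) + 1 : ℕ)) =
      (if (r' : ℕ) = 0 ∧ (k' : ℕ) = 0 then 0 else ((r' : ℕ) * g + (k' : ℕ) + 1 : ℕ)) := by
    split_ifs at h ⊢ with h1 h2 h2
    · rfl
    · exfalso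
      have : ((1 : ℝ)) ≤ (((r' : ℕ) * g + (k' : ℕ) + 1 : ℕ) : ℝ) := by
        exact_mod_cast (by omega : 1 ≤ ((r' : ℕ) * g + (k' : ℕ) + 1 : ℕ))
      linarith
    · exfalso
      have : ((1 : ℝ)) ≤ (((r : ℕ) * g + (k : ℕ) + 1 : ℕ) : ℝ) := by
        exact_mod_cast (by omega : 1 ≤ ((r : ℕ) * g + (k : ℕ) + 1 : ℕ))
      linarith
    · exact_mod_cast h
  have hr2 : (r : ℕ) = 0 ∨ (r : ℕ) = 1 := by omega
  have hr2' : (r' : ℕ) = 0 ∨ (r' : ℕ) = 1 := by omega
  have : (r : ℕ) = (r' : ℕ) ∧ (k : ℕ) = (k' : ℕ) := by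
    clear h
    generalize (r : ℕ) = R at *
    generalize (r' : ℕ) = R' at *
    generalize (k : ℕ) = A at *
    generalize (k' : ℕ) = A' at *
    rcases hr2 with h1 | h1 <;> rcases hr2' with h2 | h2 <;> subst h1 <;> subst h2 <;>
      simp only [zero_mul, one_mul, zero_add, true_and, one_ne_zero, false_and, if_false] at key <;>
      (try split_ifs at key) <;> omega
  exact Prod.ext (Fin.ext this.1) (Fin.ext this.2)

/-- the `y`-coordinates -/
def cc (g : ℕ) (r : Fin 2) (k : Fin g) : ℝ := Real.sqrt (bb g r k ^ (2 * g + 1) + bb g r k)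

theorem cc_pos (g : ℕ) (r : Fin 2) (k : Fin g) : 0 < cc g r k := by
  unfold cc
  have := bb_pos g r k
  positivity

theorem cc_sq (g : ℕ) (r : Fin 2) (k : Fin g) :
    cc g r k ^ 2 = bb g r k ^ (2 * g + 1) + bb g r k := by
  unfold cc
  have := bb_pos g r k
  exact Real.sq_sqrt (by positivity)

theorem bb_alg (g : ℕ) (r : Fin 2) (k : Fin g) : IsAlgebraic ℚ ((bb g r k : ℝ) : ℂ) := by
  unfold bb
  split_ifs
  · have : (((1 / 4 : ℝ)) : ℂ) = algebraMap ℚ ℂ (1 / 4) := by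
      simp
    rw [this]
    exact isAlgebraic_algebraMap _
  · simpa using isAlgebraic_natCast (R := ℚ) (A := ℂ) ((r : ℕ) * g + (k : ℕ) + 1)

theorem cc_alg (g : ℕ) (r : Fin 2) (k : Fin g) : IsAlgebraic ℚ ((cc g r k : ℝ) : ℂ) := by
  have h : ((cc g r k : ℝ) : ℂ) ^ 2 = ((bb g r k : ℝ) : ℂ) ^ (2 * g + 1) + ((bb g r k : ℝ) : ℂ) := by
    have := cc_sq g r k
    exact_mod_cast congrArg (fun x : ℝ => (x : ℂ)) this
  have h2 : IsAlgebraic ℚ (((cc g r k : ℝ) : ℂ) ^ 2) := by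
    rw [h]
    exact ((bb_alg g r k).pow _).add (bb_alg g r k)
  exact h2.of_pow two_pos

theorem bet_pos {x y : ℝ} (hx : 0 < x) (hy : 0 < y) : 0 < bet x y := by
  unfold bet
  exact div_pos (mul_pos (Real.Gamma_pos_of_pos hx) (Real.Gamma_pos_of_pos hy))
    (Real.Gamma_pos_of_pos (add_pos hx hy))

theorem lam2_ne (g : ℕ) (hg : 0 < g) (i : ℕ) : lam2 g 0 i ≠ 0 := by
  unfold lam2
  have hg' : (g : ℂ) ≠ 0 := by exact_mod_cast hg.ne'
  have hgr : (0 : ℝ) < g := by exact_mod_cast hg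
  have hb := bet_pos (x := (2 * (i : ℝ) + 1) / (4 * g)) (y := 1 / 2) (by positivity) (by norm_num)
  refine mul_ne_zero (mul_ne_zero (one_div_ne_zero hg') (Complex.exp_ne_zero _)) ?_
  exact_mod_cast hb.ne'

theorem lam2_ratio_alg (g : ℕ) (hg : 0 < g) (i : ℕ)
    (h : IsAlgebraic ℚ (bet ((2 * i + 1) / (4 * g)) (1 / 2) / bet (1 / (4 * g)) (1 / 2))) :
    IsAlgebraic ℚ (1 / lam2 g 0 0 * lam2 g 0 i) := by
  have hg' : (g : ℂ) ≠ 0 := by exact_mod_cast hg.ne'
  have hgr : (0 : ℝ) < g := by exact_mod_cast hg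
  have hb0 : ((bet (1 / (4 * g)) (1 / 2) : ℝ) : ℂ) ≠ 0 := by
    have hb := bet_pos (x := 1 / (4 * (g : ℝ))) (y := 1 / 2) (by positivity) (by norm_num)
    exact_mod_cast hb.ne'
  set ω : ℂ := Complex.exp (Complex.I * Real.pi * (2 * i) / (4 * g)) with hω
  have e : 1 / lam2 g 0 0 * lam2 g 0 i = ω *
      ((bet ((2 * i + 1) / (4 * g)) (1 / 2) / bet (1 / (4 * g)) (1 / 2) : ℝ) : ℂ) := by
    unfold lam2
    have e1 : Complex.exp (Complex.I * Real.pi * (2 * ((0 : ℕ) : ℂ) + 1) * (2 * (i : ℂ) + 1) /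
        (4 * g)) = Complex.exp (Complex.I * Real.pi * (2 * ((0 : ℕ) : ℂ) + 1) *
          (2 * ((0 : ℕ) : ℂ) + 1) / (4 * g)) * ω := by
      rw [hω, ← Complex.exp_add]
      congr 1
      push_cast
      field_simp
      ring
    have e2 : ((bet ((2 * ((0 : ℕ) : ℝ) + 1) / (4 * g)) (1 / 2) : ℝ) : ℂ) =
        ((bet (1 / (4 * g)) (1 / 2) : ℝ) : ℂ) := by
      norm_num
    rw [e1, e2]
    have hE : Complex.exp (Complex.I * Real.pi * (2 * ((0 : ℕ) : ℂ) + 1) *
          (2 * ((0 : ℕ) : ℂ) + 1) / (4 * g)) ≠ 0 := Complex.exp_ne_zero _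
    rw [Complex.ofReal_div]
    field_simp
  rw [e]
  refine IsAlgebraic.mul ?_ ?_
  · have h1 : ω ^ (4 * g) = 1 := by
      rw [hω, ← Complex.exp_nat_mul]
      have : ((4 * g : ℕ) : ℂ) * (Complex.I * Real.pi * (2 * i) / (4 * g)) =
          (i : ℂ) * (2 * Real.pi * Complex.I) := by
        push_cast
        field_simp
      rw [this]
      have := Complex.exp_int_mul_two_pi_mul_I (i : ℤ)
      simpa using this
    have h2 : IsAlgebraic ℚ (ω ^ (4 * g)) := by
      rw [h1]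
      exact isAlgebraic_one
    exact h2.of_pow (by omega)
  · exact h.algebraMap (A := ℂ)

theorem thm_TBIG2 (hBranch : Stmt_Branch) (hChart : Stmt_Chart) (hF1G : Stmt_F1G)
    (hCont : Stmt_Cont2) (hPull : Stmt_Pull) (hPerFst : Stmt_PerFst) (hPerGroup : Stmt_PerGroup)
    (hULoc : Stmt_ULoc) (hLamSpan : Stmt_LamSpan2) (hLatt : Stmt_Latt2) (hAlgInd : Stmt_AlgInd)
    (hArith : Stmt_Arith) (hSL : Stmt_SL) : Stmt_TBig2 := by
  intro a g ha hga halg
  have hg0 : 0 < g := by rw [hga]; positivity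
  -- the line
  set e : Fin 1 → (Fin g → ℂ) := fun _ i => lam2 g 0 i with he
  set v : Fin 1 → (Fin 1 → ℂ) := fun _ _ => 1 / lam2 g 0 0 with hv
  have he0 : e 0 ≠ 0 := by
    intro h
    have := congrFun h ⟨0, hg0⟩
    exact lam2_ne g hg0 0 this
  have heind : LinearIndependent ℂ e := LinearIndependent.of_subsingleton 0 he0
  have hvind : LinearIndependent ℂ v := by
    refine LinearIndependent.of_subsingleton 0 ?_
    intro h
    have := congrFun h 0
    exact one_div_ne_zero (lam2_ne g hg0 0) this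
  have hemem : (fun i : Fin g => lam2 g 0 i) ∈ Lam2 g :=
    AddSubgroup.subset_closure ⟨0, rfl⟩
  have heL : ∀ s, e s ∈ Lam2 g := fun s => hemem
  have hrange : Set.range e = {fun i : Fin g => lam2 g 0 i} := Set.range_unique
  have hespan : ∀ γ ∈ Lam2 g, γ ∈ Submodule.span ℂ (Set.range e) →
      γ ∈ Submodule.span ℝ (Set.range e) := by
    rw [hrange]
    exact hLatt a g ha hga
  have hvalg : ∀ t i, IsAlgebraic ℚ ((∑ s, v t s • e s) i) := by
    intro t i
    have h1 := lam2_ratio_alg g hg0 i (halg i i.isLt)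
    simpa [hv, he] using h1
  -- the curve and the charts
  set f : ℂ[X] := Polynomial.X ^ (2 * g + 1) + Polynomial.X with hf
  have hlow : (Polynomial.X : ℂ[X]).degree < ((2 * g + 1 : ℕ) : WithBot ℕ) := by
    rw [Polynomial.degree_X]
    exact_mod_cast (by omega : 1 < 2 * g + 1)
  have hfdeg : f.natDegree = 2 * g + 1 := by
    rw [hf]
    apply Polynomial.natDegree_eq_of_degree_eq_some
    rw [Polynomial.degree_add_eq_left_of_degree_lt] <;> rw [Polynomial.degree_X_pow]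
    exact hlow
  have hfm : f.Monic := by
    rw [hf]
    exact Polynomial.monic_X_pow_add hlow
  set b : Fin 2 → Fin g → ℂ := fun r k => ((bb g r k : ℝ) : ℂ) with hb
  set c : Fin 2 → Fin g → ℂ := fun r k => ((cc g r k : ℝ) : ℂ) with hc
  have hbinj : Function.Injective (fun q : Fin 2 × Fin g => b q.1 q.2) := by
    intro q q' h
    apply bb_inj g
    have : ((bb g q.1 q.2 : ℝ) : ℂ) = ((bb g q'.1 q'.2 : ℝ) : ℂ) := h
    exact_mod_cast this
  have hbinj' : ∀ r, Function.Injective (b r) := by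
    intro r k k' h
    have := @hbinj (r, k) (r, k') h
    exact (Prod.mk.inj this).2
  have hcb : ∀ r k, c r k ^ 2 = f.eval (b r k) := by
    intro r k
    have := cc_sq g r k
    rw [hf]
    simp only [Polynomial.eval_add, Polynomial.eval_pow, Polynomial.eval_X, hb, hc]
    exact_mod_cast congrArg (fun x : ℝ => (x : ℂ)) this
  have hc0 : ∀ r k, c r k ≠ 0 := by
    intro r k
    have := cc_pos g r k
    simp only [hc]
    exact_mod_cast this.ne'
  have hβ : ∀ r k, Nonempty (Branch f (b r k) (c r k)) := fun r k =>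
    hBranch f _ _ (hcb r k) (hc0 r k)
  choose C hC using fun r => hChart g f (b r) (c r) (hbinj' r) (fun k => (hβ r k).some)
  have hGF : HasGrowth (F1 (C 0)) := hF1G g hg0 f hfm hfdeg b c C hbinj
  have hb0 : b 0 ⟨0, hg0⟩ = 1 / 4 := by
    simp [hb, bb]
  have hc00 : c 0 ⟨0, hg0⟩ = (Real.sqrt ((1 / 4) ^ (2 * g + 1) + 1 / 4) : ℂ) := by
    simp [hc, cc, bb]
  have hPerF : ∀ k : ℕ, IsPer (F1 (C 0)) (lamv2 g k) :=
    hCont g hg0 (b 0) (c 0) hb0 hc00 (hbinj' 0) (C 0) hGF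
  -- the functions U
  set U : (Fin g → ℂ) → (Fin g → ℂ) := fun z l => (polyU ((C 0).X z)).coeff l with hU
  have hU1 : (fun (p : (Fin g → ℂ) × ℂ) => U p.1) =
      (fun (p : (Fin g → ℂ) × ℂ) (i : Fin g) =>
        F1 (C 0) ((ContinuousLinearMap.id ℂ ((Fin g → ℂ) × ℂ)) p) (some i)) := by
    funext p i
    simp [hU, F1]
  have hU2 : U = (fun (z : Fin g → ℂ) (i : Fin g) =>
      F1 (C 0) ((ContinuousLinearMap.inl ℂ (Fin g → ℂ) ℂ) z) (some i)) := by
    funext z i
    simp [hU, F1]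
  have hGU : HasGrowth U := by
    rw [hU2]
    exact (hPull _ _ _ _ (F1 (C 0)) (ContinuousLinearMap.inl ℂ (Fin g → ℂ) ℂ) some hGF).1
  have hGUp : HasGrowth (fun (p : (Fin g → ℂ) × ℂ) => U p.1) := by
    rw [hU1]
    exact (hPull _ _ _ _ (F1 (C 0)) (ContinuousLinearMap.id ℂ ((Fin g → ℂ) × ℂ)) some hGF).1
  have hPerU0 : ∀ k : ℕ, IsPer U (fun i : Fin g => lam2 g k i) := by
    intro k
    apply hPerFst (Fin g → ℂ) (Fin g) U hGUp _ (lam2 g k g)
    have h1 := (hPull _ _ _ _ (F1 (C 0)) (ContinuousLinearMap.id ℂ ((Fin g → ℂ) × ℂ))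
      some hGF).2 (lamv2 g k) (hPerF k)
    rw [← hU1] at h1
    exact h1
  have hPerU : ∀ γ ∈ Lam2 g, IsPer U γ := by
    intro γ hγ
    obtain ⟨hz, hadd, hneg⟩ := hPerGroup (Fin g → ℂ) (Fin g) U hGU
    unfold Lam2 at hγ
    induction hγ using AddSubgroup.closure_induction with
    | mem x hx =>
      obtain ⟨q, rfl⟩ := hx
      exact hPerU0 q
    | zero => exact hz
    | add x y _ _ hx hy => exact hadd x y hx hy
    | neg x _ hx => exact hneg x hx
  obtain ⟨hUan, hUinj⟩ := hULoc g f (b 0) (c 0) (C 0) (hbinj' 0)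
  obtain ⟨φ, hφ⟩ := hAlgInd g 1 one_pos U hUan hUinj hGU (Lam2 g) hPerU (hLamSpan g hg0) e heind
    heL hespan
  -- the subspace
  let L0 : (Fin 1 → ℂ) →ₗ[ℂ] (Fin g → ℂ) := Fintype.linearCombination ℂ e
  let L1 : (Fin 1 → ℂ) →L[ℂ] (Fin g → ℂ) := LinearMap.toContinuousLinearMap L0
  have hL1 : ∀ w, L1 w = ∑ s, w s • e s := fun w => by
    change L0 w = _
    exact Fintype.linearCombination_apply ℂ e w
  let L : (Fin 1 → ℂ) →L[ℂ] (Fin g → ℂ) × ℂ := (ContinuousLinearMap.inl ℂ (Fin g → ℂ) ℂ).comp L1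
  have hL : ∀ w, L w = (∑ s, w s • e s, 0) := fun w => by
    change (ContinuousLinearMap.inl ℂ (Fin g → ℂ) ℂ) (L1 w) = _
    rw [hL1]
    rfl
  -- the field
  let S : Set ℂ := (Set.range fun k : Fin g => b 0 k) ∪ (Set.range fun k : Fin g => c 0 k) ∪
    (Set.range fun q : Fin 1 × Fin g => (∑ s, v q.1 s • e s) q.2)
  have hSfin : S.Finite := by
    exact ((Set.finite_range _).union (Set.finite_range _)).union (Set.finite_range _)
  have hSint : ∀ x ∈ S, IsIntegral ℚ x := by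
    intro x hx
    rcases hx with (⟨k, rfl⟩ | ⟨k, rfl⟩) | ⟨q, rfl⟩
    · exact (bb_alg g 0 k).isIntegral
    · exact (cc_alg g 0 k).isIntegral
    · exact (hvalg q.1 q.2).isIntegral
  let K : IntermediateField ℚ ℂ := IntermediateField.adjoin ℚ S
  have hKfin : FiniteDimensional ℚ K := by
    have : Finite S := hSfin
    exact IntermediateField.finiteDimensional_adjoin hSint
  have hSK : ∀ x ∈ S, x ∈ K := fun x hx => IntermediateField.subset_adjoin ℚ S hx
  obtain ⟨n, H, hHan, hH0, hHd, hHF⟩ := hArith g 1 K f (by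
      intro i
      rw [hf]
      simp only [Polynomial.coeff_add, Polynomial.coeff_X_pow, Polynomial.coeff_X]
      refine K.add_mem ?_ ?_ <;> split_ifs
      · exact K.one_mem
      · exact K.zero_mem
      · exact K.one_mem
      · exact K.zero_mem)
    (b 0) (c 0) (fun k => hSK _ (Or.inl (Or.inl ⟨k, rfl⟩)))
    (fun k => hSK _ (Or.inl (Or.inr ⟨k, rfl⟩))) (hbinj' 0) (C 0) L v
    (by
      intro t i
      rw [hL]
      exact hSK _ (Or.inr ⟨(t, i), rfl⟩))
    (by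
      intro t
      rw [hL]
      exact K.zero_mem)
  -- the functions of Schneider and Lang
  have hGf : HasGrowth (fun (w : Fin 1 → ℂ) (i : Fin (1 + 1)) => U (L1 w) (φ i)) :=
    (hPull _ _ _ _ U L1 φ hGU).1
  have hPf : ∀ s : Fin 1,
      IsPer (fun (w : Fin 1 → ℂ) (i : Fin (1 + 1)) => U (L1 w) (φ i)) (Pi.single s 1) := by
    intro s
    apply (hPull _ _ _ _ U L1 φ hGU).2
    have : L1 (Pi.single s 1) = e s := by
      have hs : s = 0 := Subsingleton.elim _ _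
      subst hs
      rw [hL1]
      simp
    rw [this]
    exact hPerU _ (heL s)
  refine hSL 1 n one_pos K hKfin v hvind H hHan hH0 hHd
    (fun (w : Fin 1 → ℂ) (i : Fin (1 + 1)) => U (L1 w) (φ i)) ?_ hGf hPf ?_
  · intro i
    obtain ⟨P, hP⟩ := hHF (some (φ i))
    refine ⟨P, ?_⟩
    filter_upwards [hP] with w hw
    rw [← hw, hL, hL1]
    rfl
  · intro P hP
    apply hφ P
    filter_upwards [hP] with w hw
    rw [← hw]
    simp only [hL1]

end

end Pool.Agent.FDR.TBIG2
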