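import Pool.Agent.FDR.Stmts

/-! Module THETAH. -/

set_option autoImplicit false

open scoped BigOperators Polynomial Topology
open Metric Filter

namespace Pool.Agent.FDR.THETAH

theorem log_mem {a : ℝ} (ha : 0 < a) (halg : IsAlgebraic ℚ a) : Real.log a ∈ algLog := by
  show IsAlgebraic ℚ (Real.exp (Real.log a))
  rw [Real.exp_log ha]
  exact halg

theorem rmul_mem {y : ℝ} (q : ℚ) (hy : y ∈ algLog) : (q : ℝ) * y ∈ algLog := by
  have := algLog.smul_mem q hy
  rwa [Rat.smul_def] at this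

theorem sin_mem (q : ℚ) (h0 : 0 < q) (h1 : q < 1) : Real.log (Real.sin (Real.pi * q)) ∈ algLog := by
  have h0' : (0 : ℝ) < q := by exact_mod_cast h0
  have h1' : (q : ℝ) < 1 := by exact_mod_cast h1
  refine log_mem ?_ ?_
  · apply Real.sin_pos_of_pos_of_lt_pi
    · exact mul_pos Real.pi_pos h0'
    · nlinarith [Real.pi_pos]
  · have h := Real.isAlgebraic_sin_rat_mul_pi q
    rw [mul_comm]
    exact h.extendScalars (algebraMap ℤ ℚ).injective_int

theorem two_mem : Real.log 2 ∈ algLog := by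
  refine log_mem two_pos ?_
  have := isAlgebraic_algebraMap (R := ℚ) (A := ℝ) 2
  simpa using this

theorem refl_log {x : ℝ} (h0 : 0 < x) (h1 : x < 1) :
    Real.log (Real.Gamma x) + Real.log (Real.Gamma (1 - x)) =
      Real.log Real.pi - Real.log (Real.sin (Real.pi * x)) := by
  have hs : 0 < Real.sin (Real.pi * x) := by
    apply Real.sin_pos_of_pos_of_lt_pi
    · exact mul_pos Real.pi_pos h0
    · nlinarith [Real.pi_pos]
  rw [← Real.log_mul (Real.Gamma_pos_of_pos h0).ne' (Real.Gamma_pos_of_pos (by linarith)).ne',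
    Real.Gamma_mul_Gamma_one_sub, Real.log_div Real.pi_pos.ne' hs.ne']

theorem dup_log {x : ℝ} (h0 : 0 < x) :
    Real.log (Real.Gamma x) + Real.log (Real.Gamma (x + 1 / 2)) =
      Real.log (Real.Gamma (2 * x)) + (1 - 2 * x) * Real.log 2 + Real.log Real.pi / 2 := by
  rw [← Real.log_mul (Real.Gamma_pos_of_pos h0).ne' (Real.Gamma_pos_of_pos (by linarith)).ne',
    Real.Gamma_mul_Gamma_add_half, Real.log_mul, Real.log_mul, Real.log_rpow two_pos,
    Real.log_sqrt Real.pi_pos.le]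
  · exact (Real.Gamma_pos_of_pos (by linarith)).ne'
  · exact (Real.rpow_pos_of_pos two_pos _).ne'
  · exact (mul_pos (Real.Gamma_pos_of_pos (by linarith)) (Real.rpow_pos_of_pos two_pos _)).ne'
  · exact (Real.sqrt_pos.2 Real.pi_pos).ne'

theorem log_bet {x : ℝ} (h0 : 0 < x) :
    Real.log (bet x (1 / 2)) = Real.log (Real.Gamma x) + Real.log Real.pi / 2
      - Real.log (Real.Gamma (x + 1 / 2)) := by
  unfold bet
  rw [Real.Gamma_one_half_eq, Real.log_div, Real.log_mul, Real.log_sqrt Real.pi_pos.le]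
  · exact (Real.Gamma_pos_of_pos h0).ne'
  · exact (Real.sqrt_pos.2 Real.pi_pos).ne'
  · exact (mul_pos (Real.Gamma_pos_of_pos h0) (Real.sqrt_pos.2 Real.pi_pos)).ne'
  · exact (Real.Gamma_pos_of_pos (by linarith)).ne'

theorem Hlog_of {x : ℚ} (h0 : 0 < x) (h1 : x < 1) :
    Hlog x = Real.log (Real.Gamma x) - Real.log (Real.Gamma (1 - x)) := by
  unfold Hlog
  rw [Int.fract_eq_self.2 ⟨h0.le, h1⟩]

theorem thm_THETAH : Stmt_ThetaH := by
  intro x h0 h1 hne
  have h0' : (0 : ℝ) < x := by exact_mod_cast h0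
  have h1' : (x : ℝ) < 1 := by exact_mod_cast h1
  have hb := log_bet h0'
  have hd := dup_log h0'
  have hr := refl_log h0' h1'
  have hH := Hlog_of h0 h1
  rcases lt_or_gt_of_ne hne with h | h
  · have hx2 : 2 * x < 1 := by linarith
    have hx0 : 0 < 2 * x := by linarith
    have hH2 := Hlog_of hx0 hx2
    have hr2 := refl_log (x := ((2 * x : ℚ) : ℝ)) (by exact_mod_cast hx0) (by exact_mod_cast hx2)
    have e : 2 * Real.log (bet x (1 / 2)) - (Real.log Real.pi + 2 * Hlog x - Hlog (2 * x)) =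
        ((-2 : ℚ) : ℝ) * Real.log (Real.sin (Real.pi * (x : ℝ)))
          + Real.log (Real.sin (Real.pi * ((2 * x : ℚ) : ℝ)))
          + ((-2 * (1 - 2 * x) : ℚ) : ℝ) * Real.log 2 := by
      rw [hH, hH2, hb]
      push_cast at hr2 hd hr ⊢
      linarith
    rw [e]
    exact algLog.add_mem (algLog.add_mem (rmul_mem _ (sin_mem x h0 h1)) (sin_mem _ hx0 hx2))
      (rmul_mem _ two_mem)
  · have hx2 : 2 * x - 1 < 1 := by linarith
    have hx0 : 0 < 2 * x - 1 := by linarith
    have hx0' : (0 : ℝ) < 2 * x - 1 := by exact_mod_cast hx0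
    have hfr : Int.fract (2 * x) = 2 * x - 1 := by
      rw [← Int.fract_sub_one, Int.fract_eq_self.2 ⟨hx0.le, hx2⟩]
    have hH2 : Hlog (2 * x) = Real.log (Real.Gamma ((2 * x - 1 : ℚ) : ℝ))
        - Real.log (Real.Gamma (1 - ((2 * x - 1 : ℚ) : ℝ))) := by
      unfold Hlog
      rw [hfr]
    have hr2 := refl_log (x := ((2 * x - 1 : ℚ) : ℝ)) (by exact_mod_cast hx0)
      (by exact_mod_cast hx2)
    have hG : Real.log (Real.Gamma (2 * x)) =
        Real.log ((2 * x - 1 : ℚ) : ℝ) + Real.log (Real.Gamma ((2 * x - 1 : ℚ) : ℝ)) := by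
      have h3 : Real.Gamma (2 * (x : ℝ)) = (2 * x - 1) * Real.Gamma (2 * x - 1) := by
        have := Real.Gamma_add_one (s := (2 * x - 1 : ℝ)) hx0'.ne'
        rw [sub_add_cancel] at this
        exact this
      rw [h3, Real.log_mul hx0'.ne' (Real.Gamma_pos_of_pos hx0').ne']
      push_cast
      rfl
    have e : 2 * Real.log (bet x (1 / 2)) - (Real.log Real.pi + 2 * Hlog x - Hlog (2 * x)) =
        ((-2 : ℚ) : ℝ) * Real.log (Real.sin (Real.pi * (x : ℝ)))
          + Real.log (Real.sin (Real.pi * ((2 * x - 1 : ℚ) : ℝ)))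
          + ((-2 * (1 - 2 * x) : ℚ) : ℝ) * Real.log 2
          + ((-2 : ℚ) : ℝ) * Real.log ((2 * x - 1 : ℚ) : ℝ) := by
      rw [hH, hH2, hb]
      push_cast at hr2 hd hr hG ⊢
      linarith
    rw [e]
    have hl : Real.log ((2 * x - 1 : ℚ) : ℝ) ∈ algLog := by
      refine log_mem (by exact_mod_cast hx0) ?_
      exact isAlgebraic_algebraMap (R := ℚ) (A := ℝ) (2 * x - 1)
    exact algLog.add_mem (algLog.add_mem (algLog.add_mem (rmul_mem _ (sin_mem x h0 h1))
      (sin_mem _ hx0 hx2)) (rmul_mem _ two_mem)) (rmul_mem _ hl)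

end Pool.Agent.FDR.THETAH
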