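import Pool.Agent.FDR.Stmts2

/-!
# FDR, module TSMALL2: transcendence for `n = 4` and `n = 8`
-/

open scoped BigOperators Polynomial Topology
open Metric Filter

namespace Pool.Agent.FDR.TSMALL2

noncomputable section

/-- the base points -/
def bb (g : ℕ) (r : Fin 2) (k : Fin g) : ℝ :=
  if (r : ℕ) = 0 ∧ (k : ℕ) = 0 then 1 / 4 else ((r : ℕ) * g + (k : ℕ) + 1 : ℕ)

theorem bb_pos (g : ℕ) (r : Fin 2) (k : Fin g) : 0 < bb g r k := by
  unfold bb
  split_ifs
  · norm_num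
  · positivity

theorem bb_inj (g : ℕ) : Function.Injective (fun q : Fin 2 × Fin g => bb g q.1 q.2) := by
  rintro ⟨r, k⟩ ⟨r', k'⟩ h
  simp only [bb] at h
  have hk := k.isLt
  have hk' := k'.isLt
  have hr := r.isLt
  have hr' := r'.isLt
  have key : (if (r : ℕ) = 0 ∧ (k : ℕ) = 0 then 0 else ((r : ℕ) * g + (k : ℕ) + 1 : ℕ)) =
      (if (r' : ℕ) = 0 ∧ (k' : ℕ) = 0 then 0 else ((r' : ℕ) * g + (k' : ℕ) + 1 : ℕ)) := by
    split_ifs at h ⊢ with h1 h2 h2
    · rfl
    · exfalso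
      have h3 : (1 : ℝ) ≤ (((r' : ℕ) * g + (k' : ℕ) + 1 : ℕ) : ℝ) := by
        exact_mod_cast Nat.le_add_left 1 _
      linarith
    · exfalso
      have h3 : (1 : ℝ) ≤ (((r : ℕ) * g + (k : ℕ) + 1 : ℕ) : ℝ) := by
        exact_mod_cast Nat.le_add_left 1 _
      linarith
    · exact_mod_cast h
  have hr2 : (r : ℕ) = 0 ∨ (r : ℕ) = 1 := by omega
  have hr2' : (r' : ℕ) = 0 ∨ (r' : ℕ) = 1 := by omega
  have : (r : ℕ) = (r' : ℕ) ∧ (k : ℕ) = (k' : ℕ) := by
    clear h
    generalize (r : ℕ) = R at *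
    generalize (r' : ℕ) = R' at *
    generalize (k : ℕ) = A at *
    generalize (k' : ℕ) = A' at *
    rcases hr2 with h1 | h1 <;> rcases hr2' with h2 | h2 <;> subst h1 <;> subst h2 <;>
      simp only [zero_mul, one_mul, zero_add, true_and, one_ne_zero, false_and, if_false] at key <;>
      (try split_ifs at key) <;> omega
  exact Prod.ext (Fin.ext this.1) (Fin.ext this.2)

/-- the `y`-coordinates -/
def cc (g : ℕ) (r : Fin 2) (k : Fin g) : ℝ := Real.sqrt (bb g r k ^ (2 * g + 1) + bb g r k)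

theorem cc_pos (g : ℕ) (r : Fin 2) (k : Fin g) : 0 < cc g r k := by
  unfold cc
  have := bb_pos g r k
  positivity

theorem cc_sq (g : ℕ) (r : Fin 2) (k : Fin g) :
    cc g r k ^ 2 = bb g r k ^ (2 * g + 1) + bb g r k := by
  unfold cc
  have := bb_pos g r k
  exact Real.sq_sqrt (by positivity)

theorem bb_alg (g : ℕ) (r : Fin 2) (k : Fin g) : IsAlgebraic ℚ ((bb g r k : ℝ) : ℂ) := by
  unfold bb
  split_ifs
  · have h := isAlgebraic_algebraMap (R := ℚ) (A := ℂ) (1 / 4)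
    have e : (((1 / 4 : ℝ)) : ℂ) = algebraMap ℚ ℂ (1 / 4) := by
      simp
    rw [e]
    exact h
  · simpa using isAlgebraic_natCast (R := ℚ) (A := ℂ) ((r : ℕ) * g + (k : ℕ) + 1)

theorem cc_alg (g : ℕ) (r : Fin 2) (k : Fin g) : IsAlgebraic ℚ ((cc g r k : ℝ) : ℂ) := by
  have h : ((cc g r k : ℝ) : ℂ) ^ 2 = ((bb g r k : ℝ) : ℂ) ^ (2 * g + 1) +
      ((bb g r k : ℝ) : ℂ) := by
    have := cc_sq g r k
    exact_mod_cast congrArg (fun x : ℝ => (x : ℂ)) this
  have h2 : IsAlgebraic ℚ (((cc g r k : ℝ) : ℂ) ^ 2) := by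
    rw [h]
    exact ((bb_alg g r k).pow _).add (bb_alg g r k)
  exact h2.of_pow two_pos

/-- `exp (I π q)` is algebraic for rational `q` -/
theorem exp_alg (a n : ℕ) (hn : 0 < n) :
    IsAlgebraic ℚ (Complex.exp (Complex.I * Real.pi * a / n)) := by
  have h : Complex.exp (Complex.I * Real.pi * a / n) ^ (2 * n) = 1 := by
    rw [← Complex.exp_nat_mul]
    have hn' : (n : ℂ) ≠ 0 := by exact_mod_cast hn.ne'
    have e : ((2 * n : ℕ) : ℂ) * (Complex.I * Real.pi * a / n) =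
        (a : ℂ) * (2 * Real.pi * Complex.I) := by
      push_cast
      field_simp
    rw [e]
    exact Complex.exp_nat_mul_two_pi_mul_I a
  have h1 : IsAlgebraic ℚ (Complex.exp (Complex.I * Real.pi * a / n) ^ (2 * n)) := by
    rw [h]
    exact isAlgebraic_one
  exact h1.of_pow (by positivity)

theorem bet_pos {x y : ℝ} (hx : 0 < x) (hy : 0 < y) : 0 < bet x y := by
  unfold bet
  have h1 := Real.Gamma_pos_of_pos hx
  have h2 := Real.Gamma_pos_of_pos hy
  have h3 := Real.Gamma_pos_of_pos (add_pos hx hy)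
  positivity

theorem bet_pos' (g i : ℕ) (hg : 0 < g) : 0 < bet ((2 * i + 1) / (4 * g)) (1 / 2) := by
  have hg' : (0 : ℝ) < g := by exact_mod_cast hg
  exact bet_pos (by positivity) (by norm_num)

theorem lam2_ne (g k i : ℕ) (hg : 0 < g) : lam2 g k i ≠ 0 := by
  unfold lam2
  have hg' : (g : ℂ) ≠ 0 := by exact_mod_cast hg.ne'
  have h := bet_pos' g i hg
  refine mul_ne_zero (mul_ne_zero (one_div_ne_zero hg') (Complex.exp_ne_zero _)) ?_
  exact_mod_cast h.ne'

/-- comparison of the periods -/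
theorem lam2_rel (g k i : ℕ) (hg : 0 < g) :
    lam2 g k i = Complex.exp (Complex.I * Real.pi * (k * (2 * i + 1) : ℕ) / (2 * g : ℕ)) *
      lam2 g 0 i := by
  unfold lam2
  have hg' : (g : ℂ) ≠ 0 := by exact_mod_cast hg.ne'
  have e : Complex.exp (Complex.I * Real.pi * (2 * k + 1) * (2 * i + 1) / (4 * g)) =
      Complex.exp (Complex.I * Real.pi * (k * (2 * i + 1) : ℕ) / (2 * g : ℕ)) *
      Complex.exp (Complex.I * Real.pi * (2 * (0 : ℕ) + 1) * (2 * i + 1) / (4 * g)) := by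
    rw [← Complex.exp_add]
    congr 1
    push_cast
    field_simp
    ring
  rw [e]
  ring

theorem exp_val (a n : ℕ) (hn : 0 < n) (m r : ℕ) (h : a = 2 * n * m + r) :
    Complex.exp (Complex.I * Real.pi * (a : ℕ) / (n : ℕ)) =
      Complex.exp (Complex.I * Real.pi * (r : ℕ) / (n : ℕ)) := by
  have hn' : (n : ℂ) ≠ 0 := by exact_mod_cast hn.ne'
  have e : Complex.I * Real.pi * (a : ℕ) / (n : ℕ) =
      Complex.I * Real.pi * (r : ℕ) / (n : ℕ) + (m : ℂ) * (2 * Real.pi * Complex.I) := by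
    rw [h]
    push_cast
    field_simp
    ring
  rw [e, Complex.exp_add, Complex.exp_nat_mul_two_pi_mul_I, mul_one]

/-- the half turn -/
theorem exp_half (a n : ℕ) (hn : 0 < n) :
    Complex.exp (Complex.I * Real.pi * (a + n : ℕ) / (n : ℕ)) =
      -Complex.exp (Complex.I * Real.pi * (a : ℕ) / (n : ℕ)) := by
  have hn' : (n : ℂ) ≠ 0 := by exact_mod_cast hn.ne'
  have e : Complex.I * Real.pi * (a + n : ℕ) / (n : ℕ) =
      Complex.I * Real.pi * (a : ℕ) / (n : ℕ) + Real.pi * Complex.I := by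
    push_cast
    field_simp
  rw [e, Complex.exp_add, Complex.exp_pi_mul_I]
  ring

/-- the second period, `g = 1` -/
theorem per_one : ∃ κ κ' : ℂ, κ ≠ κ' ∧
    lamv2 1 1 = (κ • (lamv2 1 0).1, κ' • (lamv2 1 0).2) := by
  set z : ℂ := Complex.exp (Complex.I * Real.pi * (1 : ℕ) / (2 : ℕ)) with hz
  have hz0 : z ≠ 0 := Complex.exp_ne_zero _
  refine ⟨z, -z, ?_, ?_⟩
  · intro h
    have : (2 : ℂ) * z = 0 := by linear_combination h
    exact hz0 ((mul_eq_zero.mp this).resolve_left two_ne_zero)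
  · unfold lamv2
    refine Prod.ext ?_ ?_
    · funext i
      have hi : (i : ℕ) = 0 := by omega
      show lam2 1 1 (i : ℕ) = z * lam2 1 0 (i : ℕ)
      rw [hi, lam2_rel 1 1 0 one_pos]
    · show lam2 1 1 1 = -z * lam2 1 0 1
      rw [lam2_rel 1 1 1 one_pos]
      have e := exp_half 1 2 two_pos
      have e2 : Complex.exp (Complex.I * Real.pi * ((1 * (2 * 1 + 1) : ℕ) : ℂ) /
          ((2 * 1 : ℕ) : ℂ)) = -z := e
      rw [e2]

/-- the second period, `g = 2` -/
theorem per_two : ∃ κ κ' : ℂ, κ ≠ κ' ∧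
    lamv2 2 1 + lamv2 2 3 = (κ • (lamv2 2 0).1, κ' • (lamv2 2 0).2) := by
  set z : ℂ := Complex.exp (Complex.I * Real.pi * (1 : ℕ) / (4 : ℕ)) with hz
  have hz0 : z ≠ 0 := Complex.exp_ne_zero _
  set z3 : ℂ := Complex.exp (Complex.I * Real.pi * (3 : ℕ) / (4 : ℕ)) with hz3
  have h3 : z3 = z ^ 3 := by
    rw [hz, hz3, ← Complex.exp_nat_mul]
    congr 1
    push_cast
    ring
  have h2 : z ^ 2 = Complex.I := by
    rw [hz, ← Complex.exp_nat_mul]
    have e : ((2 : ℕ) : ℂ) * (Complex.I * Real.pi * (1 : ℕ) / (4 : ℕ)) =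
        Real.pi / 2 * Complex.I := by
      push_cast
      ring
    rw [e, Complex.exp_pi_div_two_mul_I]
  have hk : z + z3 ≠ 0 := by
    have e : z + z3 = z * (1 + Complex.I) := by
      rw [h3, ← h2]
      ring
    rw [e]
    refine mul_ne_zero hz0 ?_
    intro h
    have := congrArg Complex.re h
    simp at this
  refine ⟨z + z3, -(z + z3), ?_, ?_⟩
  · intro h
    have : (2 : ℂ) * (z + z3) = 0 := by linear_combination h
    exact hk ((mul_eq_zero.mp this).resolve_left two_ne_zero)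
  · unfold lamv2
    refine Prod.ext ?_ ?_
    · funext i
      show lam2 2 1 (i : ℕ) + lam2 2 3 (i : ℕ) = (z + z3) * lam2 2 0 (i : ℕ)
      have hi : (i : ℕ) = 0 ∨ (i : ℕ) = 1 := by omega
      rcases hi with hi | hi
      · rw [hi, lam2_rel 2 1 0 two_pos, lam2_rel 2 3 0 two_pos]
        have e1 : Complex.exp (Complex.I * Real.pi * ((1 * (2 * 0 + 1) : ℕ) : ℂ) /
          ((2 * 2 : ℕ) : ℂ)) = z := rfl
        have e2 : Complex.exp (Complex.I * Real.pi * ((3 * (2 * 0 + 1) : ℕ) : ℂ) /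
          ((2 * 2 : ℕ) : ℂ)) = z3 := rfl
        rw [e1, e2]
        ring
      · rw [hi, lam2_rel 2 1 1 two_pos, lam2_rel 2 3 1 two_pos]
        have e1 : Complex.exp (Complex.I * Real.pi * ((1 * (2 * 1 + 1) : ℕ) : ℂ) /
          ((2 * 2 : ℕ) : ℂ)) = z3 := rfl
        have e2 : Complex.exp (Complex.I * Real.pi * ((3 * (2 * 1 + 1) : ℕ) : ℂ) /
          ((2 * 2 : ℕ) : ℂ)) = z :=
          exp_val (3 * (2 * 1 + 1)) (2 * 2) (by norm_num) 1 1 (by norm_num)
        rw [e1, e2]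
        ring
    · show lam2 2 1 2 + lam2 2 3 2 = -(z + z3) * lam2 2 0 2
      rw [lam2_rel 2 1 2 two_pos, lam2_rel 2 3 2 two_pos]
      have e1 : Complex.exp (Complex.I * Real.pi * ((1 * (2 * 2 + 1) : ℕ) : ℂ) /
          ((2 * 2 : ℕ) : ℂ)) = -z := exp_half 1 4 (by norm_num)
      have e2 : Complex.exp (Complex.I * Real.pi * ((3 * (2 * 2 + 1) : ℕ) : ℂ) /
          ((2 * 2 : ℕ) : ℂ)) = -z3 := by
        have h1 := exp_val (3 * (2 * 2 + 1)) (2 * 2) (by norm_num) 1 (3 + 4) (by norm_num)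
        rw [h1]
        exact exp_half 3 4 (by norm_num)
      rw [e1, e2]
      ring

theorem second_period {g : ℕ} (hg : g = 1 ∨ g = 2) {P : (Fin g → ℂ) × ℂ → Prop}
    (hP : ∀ k, P (lamv2 g k)) (hadd : ∀ γ δ, P γ → P δ → P (γ + δ)) :
    ∃ κ κ' : ℂ, κ ≠ κ' ∧ P (κ • (lamv2 g 0).1, κ' • (lamv2 g 0).2) := by
  rcases hg with rfl | rfl
  · obtain ⟨κ, κ', h1, h2⟩ := per_one
    exact ⟨κ, κ', h1, h2 ▸ hP 1⟩
  · obtain ⟨κ, κ', h1, h2⟩ := per_two
    exact ⟨κ, κ', h1, h2 ▸ hadd _ _ (hP 1) (hP 3)⟩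

theorem thm_TSMALL2 (hBranch : Stmt_Branch) (hChart : Stmt_Chart) (hF1G : Stmt_F1G)
    (hCont : Stmt_Cont2) (hPull : Stmt_Pull) (hPerGroup : Stmt_PerGroup)
    (hIndG : Stmt_IndG) (hArith : Stmt_Arith) (hSL : Stmt_SL) : Stmt_TSmall2 := by
  intro g hg12 halg
  have hg0 : 0 < g := by omega
  -- the curve and the charts
  set f : ℂ[X] := Polynomial.X ^ (2 * g + 1) + Polynomial.X with hf
  have hdegX : (Polynomial.X : ℂ[X]).degree < ((2 * g + 1 : ℕ) : WithBot ℕ) := by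
    rw [Polynomial.degree_X]
    exact_mod_cast (by omega : 1 < 2 * g + 1)
  have hfdeg : f.natDegree = 2 * g + 1 := by
    rw [hf]
    apply Polynomial.natDegree_eq_of_degree_eq_some
    rw [Polynomial.degree_add_eq_left_of_degree_lt, Polynomial.degree_X_pow]
    rw [Polynomial.degree_X_pow]
    exact hdegX
  have hfm : f.Monic := by
    rw [hf]
    exact Polynomial.monic_X_pow_add hdegX
  set b : Fin 2 → Fin g → ℂ := fun r k => ((bb g r k : ℝ) : ℂ) with hb
  set c : Fin 2 → Fin g → ℂ := fun r k => ((cc g r k : ℝ) : ℂ) with hc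
  have hbinj : Function.Injective (fun q : Fin 2 × Fin g => b q.1 q.2) := by
    intro q q' h
    apply bb_inj g
    have : ((bb g q.1 q.2 : ℝ) : ℂ) = ((bb g q'.1 q'.2 : ℝ) : ℂ) := h
    exact_mod_cast this
  have hbinj' : ∀ r, Function.Injective (b r) := by
    intro r k k' h
    have := @hbinj (r, k) (r, k') h
    exact (Prod.mk.inj this).2
  have hcb : ∀ r k, c r k ^ 2 = f.eval (b r k) := by
    intro r k
    have := cc_sq g r k
    rw [hf]
    simp only [Polynomial.eval_add, Polynomial.eval_pow, Polynomial.eval_X, hb, hc]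
    exact_mod_cast congrArg (fun x : ℝ => (x : ℂ)) this
  have hc0 : ∀ r k, c r k ≠ 0 := by
    intro r k
    have := cc_pos g r k
    simp only [hc]
    exact_mod_cast this.ne'
  have hβ : ∀ r k, Nonempty (Branch f (b r k) (c r k)) := fun r k =>
    hBranch f _ _ (hcb r k) (hc0 r k)
  choose C hC using fun r => hChart g f (b r) (c r) (hbinj' r) (fun k => (hβ r k).some)
  have hGF : HasGrowth (F1 (C 0)) := hF1G g hg0 f hfm hfdeg b c C hbinj
  have hb0 : b 0 ⟨0, hg0⟩ = 1 / 4 := by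
    simp [hb, bb]
  have hc00 : c 0 ⟨0, hg0⟩ = (Real.sqrt ((1 / 4) ^ (2 * g + 1) + 1 / 4) : ℂ) := by
    simp [hc, cc, bb]
  have hPerF : ∀ k : ℕ, IsPer (F1 (C 0)) (lamv2 g k) :=
    hCont g hg0 (b 0) (c 0) hb0 hc00 (hbinj' 0) (C 0) hGF
  obtain ⟨-, hadd, -⟩ := hPerGroup _ _ (F1 (C 0)) hGF
  obtain ⟨κ, κ', hκ, hper⟩ := second_period hg12 hPerF hadd
  set e : (Fin g → ℂ) × ℂ := lamv2 g 0 with he
  have he1 : e.1 ≠ 0 := by
    intro h
    exact lam2_ne g 0 0 hg0 (congrFun h ⟨0, hg0⟩)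
  have he2 : e.2 ≠ 0 := lam2_ne g 0 g hg0
  obtain ⟨l, hl⟩ := hIndG g f (b 0) (c 0) (C 0) (hbinj' 0) hGF e κ κ' he1 he2 hκ hper
  -- the line
  let L : (Fin 1 → ℂ) →L[ℂ] (Fin g → ℂ) × ℂ :=
    (ContinuousLinearMap.proj (R := ℂ) (φ := fun _ : Fin 1 => ℂ) 0).smulRight e
  have hL : ∀ w, L w = w 0 • e := fun w => rfl
  have hl00 : lam2 g 0 0 ≠ 0 := lam2_ne g 0 0 hg0
  let v : Fin 1 → (Fin 1 → ℂ) := fun _ _ => (lam2 g 0 0)⁻¹
  have hv : LinearIndependent ℂ v := by
    rw [linearIndependent_unique_iff]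
    intro h
    exact inv_ne_zero hl00 (congrFun h 0)
  -- the ratios are algebraic
  have hratio : ∀ i : ℕ, i ≤ g → IsAlgebraic ℚ ((lam2 g 0 0)⁻¹ * lam2 g 0 i) := by
    intro i hi
    have hgc : (g : ℂ) ≠ 0 := by exact_mod_cast hg0.ne'
    have h1 := halg i hi
    have hb1 : (bet (1 / (4 * g)) (1 / 2) : ℂ) ≠ 0 := by
      have := bet_pos' g 0 hg0
      rw [Nat.cast_zero, mul_zero, zero_add] at this
      exact_mod_cast this.ne'
    have h2 : (lam2 g 0 0)⁻¹ * lam2 g 0 i =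
        Complex.exp (Complex.I * Real.pi * (i : ℕ) / (2 * g : ℕ)) *
          ((bet ((2 * i + 1) / (4 * g)) (1 / 2) / bet (1 / (4 * g)) (1 / 2) : ℝ) : ℂ) := by
      have e0 : lam2 g 0 0 = 1 / g * Complex.exp (Complex.I * Real.pi / (4 * g)) *
          (bet (1 / (4 * g)) (1 / 2) : ℂ) := by
        unfold lam2
        norm_num
      have e1 : lam2 g 0 i = 1 / g * (Complex.exp (Complex.I * Real.pi * (i : ℕ) /
          (2 * g : ℕ)) * Complex.exp (Complex.I * Real.pi / (4 * g))) *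
          (bet ((2 * i + 1) / (4 * g)) (1 / 2) : ℂ) := by
        unfold lam2
        rw [← Complex.exp_add]
        congr 3
        push_cast
        field_simp
        ring
      rw [e0, e1]
      have hE := Complex.exp_ne_zero (Complex.I * Real.pi / (4 * g))
      push_cast
      field_simp
    rw [h2]
    refine (exp_alg i (2 * g) (by omega)).mul ?_
    exact h1.algebraMap (A := ℂ)
  -- the field
  let S : Set ℂ := (Set.range fun k : Fin g => b 0 k) ∪ (Set.range fun k : Fin g => c 0 k) ∪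
    (Set.range fun i : Fin (g + 1) => (lam2 g 0 0)⁻¹ * lam2 g 0 (i : ℕ))
  have hSfin : S.Finite := by
    exact ((Set.finite_range _).union (Set.finite_range _)).union (Set.finite_range _)
  have hSint : ∀ x ∈ S, IsIntegral ℚ x := by
    intro x hx
    rcases hx with (⟨k, rfl⟩ | ⟨k, rfl⟩) | ⟨q, rfl⟩
    · exact (bb_alg g 0 k).isIntegral
    · exact (cc_alg g 0 k).isIntegral
    · exact (hratio (q : ℕ) (by omega)).isIntegral
  let K : IntermediateField ℚ ℂ := IntermediateField.adjoin ℚ S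
  have hKfin : FiniteDimensional ℚ K := by
    have : Finite S := hSfin
    exact IntermediateField.finiteDimensional_adjoin hSint
  have hSK : ∀ x ∈ S, x ∈ K := fun x hx => IntermediateField.subset_adjoin ℚ S hx
  obtain ⟨n, H, hHan, hH0, hHd, hHF⟩ := hArith g 1 K f (by
      intro i
      rw [hf]
      simp only [Polynomial.coeff_add, Polynomial.coeff_X_pow, Polynomial.coeff_X]
      refine K.add_mem ?_ ?_ <;> split_ifs
      · exact K.one_mem
      · exact K.zero_mem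
      · exact K.one_mem
      · exact K.zero_mem)
    (b 0) (c 0) (fun k => hSK _ (Or.inl (Or.inl ⟨k, rfl⟩)))
    (fun k => hSK _ (Or.inl (Or.inr ⟨k, rfl⟩))) (hbinj' 0) (C 0) L v
    (by
      intro t i
      rw [hL]
      exact hSK _ (Or.inr ⟨⟨(i : ℕ), by omega⟩, rfl⟩))
    (by
      intro t
      rw [hL]
      exact hSK _ (Or.inr ⟨⟨g, by omega⟩, rfl⟩))
  -- the functions of Schneider and Lang
  let φ : Fin (1 + 1) → Option (Fin g) := fun j => if j = 0 then some l else none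
  have hPL := hPull _ _ _ _ (F1 (C 0)) L φ hGF
  have hPf : ∀ s : Fin 1,
      IsPer (fun (w : Fin 1 → ℂ) (i : Fin (1 + 1)) => F1 (C 0) (L w) (φ i))
        (Pi.single s 1) := by
    intro s
    apply hPL.2
    have : L (Pi.single s 1) = e := by
      rw [hL, Subsingleton.elim s 0, Pi.single_eq_same, one_smul]
    rw [this]
    exact hPerF 0
  refine hSL 1 n one_pos K hKfin v hv H hHan hH0 hHd
    (fun (w : Fin 1 → ℂ) (i : Fin (1 + 1)) => F1 (C 0) (L w) (φ i)) ?_ hPL.1 hPf ?_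
  · intro i
    obtain ⟨P, hP⟩ := hHF (φ i)
    exact ⟨P, hP⟩
  · intro P hP
    exact hl P hP

end

end Pool.Agent.FDR.TSMALL2
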