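import Pool.Agent.FDR.PD

/-!
# FDR, module ULOC: the coefficients of `U` are local coordinates
-/

open scoped BigOperators Polynomial Topology
open Metric Filter

namespace Pool.Agent.FDR.ULOC

open Pool.Agent.FDR.PDL

noncomputable section

theorem thm_ULOC (hChartD : Stmt_ChartD) : Stmt_ULoc := by
  classical
  intro g f b c C hb
  have hXan : ∀ k, AnalyticAt ℂ (fun z => C.X z k) 0 := by
    intro k
    exact (analyticAt_pi_iff (f := fun k z => C.X z k)).1 C.an k
  have hU : AnP (fun z => polyU (C.X z)) 0 := by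
    unfold polyU
    exact AnP.prod _ fun k _ => (AnP.const _ _).sub (AnP.C (hXan k))
  have hpi : AnalyticAt ℂ (fun (z : Fin g → ℂ) (l : Fin g) => (polyU (C.X z)).coeff l) 0 :=
    (analyticAt_pi_iff (f := fun (l : Fin g) z => (polyU (C.X z)).coeff l)).2 fun l => hU l
  refine ⟨hpi, ?_⟩
  rw [injective_iff_map_eq_zero]
  intro v hv
  obtain ⟨_, _, hY0, _, hev⟩ := hChartD g f b c C hb
  obtain ⟨_, hYz, hder⟩ := hev.self_of_nhds
  have hPD : PD (fun z => polyU (C.X z)) 0 v
      (-∑ k ∈ Finset.univ, Polynomial.C (fderiv ℂ (fun z => C.X z k) 0 v) *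
        ∏ l ∈ Finset.univ.erase k, (Polynomial.X - Polynomial.C (C.X 0 l))) :=
    PD.prod_X_sub_C (x := fun k z => C.X z k) Finset.univ
      (fun k _ => (hXan k).differentiableAt)
  have hzero : (-∑ k ∈ Finset.univ, Polynomial.C (fderiv ℂ (fun z => C.X z k) 0 v) *
        ∏ l ∈ Finset.univ.erase k, (Polynomial.X - Polynomial.C (C.X 0 l)) : ℂ[X]) = 0 := by
    ext l
    rw [← (hPD l).2, Polynomial.coeff_zero]
    by_cases hl : l < g
    · have h1 := congrFun hv ⟨l, hl⟩
      have h2 : fderiv ℂ (fun (z : Fin g → ℂ) (l : Fin g) => (polyU (C.X z)).coeff l) 0 v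
          ⟨l, hl⟩ = fderiv ℂ (fun z => (polyU (C.X z)).coeff l) 0 v := by
        rw [fderiv_pi (φ := fun (l : Fin g) z => (polyU (C.X z)).coeff l)
          fun l => (hU l).differentiableAt]
        rfl
      rw [← h2]
      exact h1
    · have hmon : ∀ z, (polyU (C.X z)).Monic := fun z => by
        unfold polyU
        exact Polynomial.monic_prod_of_monic _ _ fun k _ => Polynomial.monic_X_sub_C _
      have hdeg : ∀ z, (polyU (C.X z)).natDegree = g := fun z => by
        unfold polyU
        rw [Polynomial.natDegree_prod_of_monic _ _ fun k _ => Polynomial.monic_X_sub_C _]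
        simp
      have hconst : (fun z => (polyU (C.X z)).coeff l) = fun _ => if l = g then 1 else 0 := by
        funext z
        by_cases hlg : l = g
        · subst hlg
          rw [if_pos rfl]
          have := hmon z
          rw [Polynomial.Monic, Polynomial.leadingCoeff, hdeg z] at this
          exact this
        · rw [if_neg hlg]
          apply Polynomial.coeff_eq_zero_of_natDegree_lt
          rw [hdeg z]
          omega
      rw [hconst]
      simp
  have hdX : ∀ k, fderiv ℂ (fun z => C.X z k) 0 v = 0 := by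
    intro k
    have h1 := congrArg (fun p : ℂ[X] => p.eval (b k)) hzero
    simp only [Polynomial.eval_neg, Polynomial.eval_finsetSum, Polynomial.eval_mul,
      Polynomial.eval_C, Polynomial.eval_zero, neg_eq_zero] at h1
    rw [Finset.sum_eq_single k] at h1
    · rcases mul_eq_zero.1 h1 with h2 | h2
      · exact h2
      · rw [Polynomial.eval_prod, Finset.prod_eq_zero_iff] at h2
        obtain ⟨l, hl, h3⟩ := h2
        have h4 : b k - b l = 0 := by simpa [C.X0] using h3
        exact absurd (hb (sub_eq_zero.1 h4)).symm (Finset.ne_of_mem_erase hl)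
    · intro l _ hlk
      rw [Polynomial.eval_prod, Finset.prod_eq_zero (i := k)
        (Finset.mem_erase.2 ⟨hlk.symm, Finset.mem_univ _⟩), mul_zero]
      simp [C.X0]
    · intro h
      exact absurd (Finset.mem_univ _) h
  have hlin : ∀ k, ∑ j, v j * lagC (C.X 0) k j = 0 := by
    intro k
    have h1 : v = ∑ j, v j • (Pi.single j 1 : Fin g → ℂ) := by
      funext i
      simp [Finset.sum_apply, Pi.single_apply]
    have h2 := hdX k
    rw [h1, map_sum] at h2
    simp only [map_smul, smul_eq_mul, (hder _).1 k] at h2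
    have h3 : C.Y 0 k * ∑ j, v j * lagC (C.X 0) k j = 0 := by
      rw [← h2, Finset.mul_sum]
      refine Finset.sum_congr rfl fun j _ => by ring
    exact (mul_eq_zero.1 h3).resolve_left (hYz k).1
  have hinj : Function.Injective (C.X 0) := by rw [C.X0]; exact hb
  funext i
  have h1 : ∑ j, v j * ∑ k, C.X 0 k ^ (i : ℕ) * lagC (C.X 0) k j = v i := by
    simp only [sum_pow_mul_lagC (C.X 0) hinj i]
    simp
  rw [← h1]
  simp only [Finset.mul_sum]
  rw [Finset.sum_comm]
  have h2 : ∀ k, ∑ j, v j * (C.X 0 k ^ (i : ℕ) * lagC (C.X 0) k j) = 0 := by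
    intro k
    have h3 : ∑ j, v j * (C.X 0 k ^ (i : ℕ) * lagC (C.X 0) k j) =
        C.X 0 k ^ (i : ℕ) * ∑ j, v j * lagC (C.X 0) k j := by
      rw [Finset.mul_sum]
      exact Finset.sum_congr rfl fun j _ => by ring
    rw [h3, hlin k, mul_zero]
  simp only [h2, Finset.sum_const_zero, Pi.zero_apply]

end

end Pool.Agent.FDR.ULOC
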