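import Pool.Agent.Lib70.PiTranscendental
import Pool.Agent.FDR.ABELA
import Pool.Agent.FDR.ABELB
import Pool.Agent.FDR.ARITH
import Pool.Agent.FDR.BETAREFL
import Pool.Agent.FDR.BRANCH
import Pool.Agent.FDR.CHART
import Pool.Agent.FDR.CHARTD
import Pool.Agent.FDR.CONT
import Pool.Agent.FDR.CORE2
import Pool.Agent.FDR.DESC
import Pool.Agent.FDR.DIST
import Pool.Agent.FDR.DOUB
import Pool.Agent.FDR.DOUB2
import Pool.Agent.FDR.F1G
import Pool.Agent.FDR.F4D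
import Pool.Agent.FDR.FINAL
import Pool.Agent.FDR.GD
import Pool.Agent.FDR.GMUL
import Pool.Agent.FDR.GROWTH
import Pool.Agent.FDR.IND3
import Pool.Agent.FDR.INDG
import Pool.Agent.FDR.IRR
import Pool.Agent.FDR.IRR2
import Pool.Agent.FDR.LAMSPAN
import Pool.Agent.FDR.LAMSPAN2
import Pool.Agent.FDR.LATT
import Pool.Agent.FDR.LATT2
import Pool.Agent.FDR.LINSYS
import Pool.Agent.FDR.LOOP
import Pool.Agent.FDR.MAIN2
import Pool.Agent.FDR.ODD
import Pool.Agent.FDR.ODD2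
import Pool.Agent.FDR.ONE
import Pool.Agent.FDR.ONE2
import Pool.Agent.FDR.PERANY
import Pool.Agent.FDR.PERFST
import Pool.Agent.FDR.PERGROUP
import Pool.Agent.FDR.PULL
import Pool.Agent.FDR.RC1
import Pool.Agent.FDR.RC2
import Pool.Agent.FDR.RC3
import Pool.Agent.FDR.RC4
import Pool.Agent.FDR.SHEETS2
import Pool.Agent.FDR.T
import Pool.Agent.FDR.T2
import Pool.Agent.FDR.TBIG
import Pool.Agent.FDR.TBIG2
import Pool.Agent.FDR.THETAH
import Pool.Agent.FDR.TSMALL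
import Pool.Agent.FDR.TSMALL2
import Pool.Agent.FDR.ULOC
import Pool.Agent.FDR.MUM
import Pool.Agent.FDR.SHEETS
import Pool.Agent.FDR.CONT2
import Pool.Agent.FDR.SL.AI
import Pool.Agent.FDR.SL.AIDIR
import Pool.Agent.FDR.SL.AILEAF
import Pool.Agent.FDR.SL.AIMINOR
import Pool.Agent.FDR.SL.AITRANS
import Pool.Agent.FDR.SL.BOUND
import Pool.Agent.FDR.SL.DAEV
import Pool.Agent.FDR.SL.DBASIS
import Pool.Agent.FDR.SL.DCAU
import Pool.Agent.FDR.SL.DLEAD
import Pool.Agent.FDR.SL.DLINE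
import Pool.Agent.FDR.SL.DORDA
import Pool.Agent.FDR.SL.DORDB
import Pool.Agent.FDR.SL.DORDC
import Pool.Agent.FDR.SL.DPERM
import Pool.Agent.FDR.SL.GAPP
import Pool.Agent.FDR.SL.LIOU
import Pool.Agent.FDR.SL.MAIN
import Pool.Agent.FDR.SL.SCHW
import Pool.Agent.FDR.SL.SIEG
import Pool.Agent.FDR.SL.SLAUX
import Pool.Agent.FDR.SL.SLNUM

/-!
# FDR: assembly of all modules
-/

namespace Pool.Agent.FDR.Assembly

theorem branch : Stmt_Branch := BRANCH.thm_BRANCH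
theorem chart : Stmt_Chart := CHART.thm_CHART
theorem chartD : Stmt_ChartD := CHARTD.thm_CHARTD
theorem rc1 : Stmt_RC1 := RC1.thm_RC1
theorem rc2 : Stmt_RC2 := RC2.thm_RC2 rc1
theorem rc3 : Stmt_RC3 := RC3.thm_RC3 rc1
theorem rc4 : Stmt_RC4 := RC4.thm_RC4 rc1
theorem growth : Stmt_Growth := GROWTH.thm_GROWTH
theorem perAny : Stmt_PerAny := PERANY.thm_PERANY
theorem pull : Stmt_Pull := PULL.thm_PULL perAny
theorem perGroup : Stmt_PerGroup := PERGROUP.thm_PERGROUP perAny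
theorem perFst : Stmt_PerFst := PERFST.thm_PERFST perGroup pull
theorem uloc : Stmt_ULoc := ULOC.thm_ULOC chartD
theorem mum : Stmt_Mum := MUM.thm_MUM chartD
theorem f4d : Stmt_F4D := F4D.thm_F4D rc1 rc3 chartD mum
theorem linSys : Stmt_LinSys := LINSYS.thm_LINSYS rc1 rc3 rc4 chartD
theorem doub : Stmt_Doub := DOUB.thm_DOUB ABELA.thm_ABELA ABELB.thm_ABELB linSys chartD
theorem doub2 : Stmt_Doub2 := DOUB2.thm_DOUB2 rc1 rc2 rc3 chartD mum f4d doub
theorem f1g : Stmt_F1G := F1G.thm_F1G growth pull doub2 f4d chartD rc1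
theorem arith : Stmt_Arith := ARITH.thm_Arith chartD
theorem indG : Stmt_IndG := INDG.thm_IndG perAny uloc
theorem ind3 : Stmt_Ind3 := IND3.thm_IND3 indG
theorem cont : Stmt_Cont := CONT.thm_CONT SHEETS.thm_SHEETS chart
theorem cont2 : Stmt_Cont2 := CONT2.thm_CONT2 SHEETS2.thm_SHEETS2

/-- The periodic Schneider-Lang theorem in several variables. -/
theorem sl : Stmt_SL :=
  SL.MAIN.thm_SL SL.DPERM.thm_DPERM SL.DAEV.thm_DAEV SL.DLINE.thm_DLINE SL.DBASIS.thm_DBASIS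
    SL.DORDA.thm_DORDA SL.DORDB.thm_DORDB SL.DORDC.thm_DORDC (SL.DLEAD.thm_DLEAD SL.DORDC.thm_DORDC)
    SL.DCAU.thm_DCAU SL.SCHW.thm_SCHW
    (SLAUX.thm_SLAUX SL.BOUND.thm_BOUND SL.SIEG.thm_SIEG SL.LIOU.thm_LIOU)
    (SL.GAPP.thm_GAPP perAny perGroup) SL.SLNUM.thm_SLNUM

theorem algInd : Stmt_AlgInd :=
  SL.AI.thm_AlgInd SL.AIDIR.thm_AIDIR (SL.AITRANS.thm_AITRANS perAny) SL.AIMINOR.thm_AIMINOR
    SL.AILEAF.thm_AILEAF

theorem tBig : Stmt_TBig :=
  TBIG.thm_TBIG branch chart f1g cont pull perFst perGroup uloc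
    LAMSPAN.thm_LAMSPAN LATT.thm_LATT algInd arith sl

theorem tBig2 : Stmt_TBig2 :=
  TBIG2.thm_TBIG2 branch chart f1g cont2 pull perFst perGroup uloc
    LAMSPAN2.thm_LAMSPAN2 LATT2.thm_LATT2 algInd arith sl

theorem tSmall2 : Stmt_TSmall2 :=
  TSMALL2.thm_TSMALL2 branch chart f1g cont2 pull perGroup indG arith sl

theorem dist : Stmt_Dist := DIST.thm_DIST GMUL.thm_GMUL
theorem odd2 : Stmt_Odd2 :=
  ODD2.thm_ODD2 IRR2.thm_IRR2 GD.thm_GD dist THETAH.thm_THETAH (T2.thm_T2 tBig2 tSmall2)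
theorem one : Stmt_One := ONE.thm_ONE GD.thm_GD dist
theorem one2 : Stmt_One2 := ONE2.thm_ONE2 one dist
theorem core2 : Stmt_Core2 := CORE2.thm_CORE2 one2 BETAREFL.thm_BETAREFL
  Pool.Agent.Lib70.PiTr.transcendental_pi

theorem tSmall : Stmt_TSmall :=
  TSMALL.thm_TSMALL branch chart f1g cont pull ind3 arith sl

theorem odd : Stmt_Odd :=
  ODD.thm_ODD IRR.thm_IRR GD.thm_GD dist THETAH.thm_THETAH (T.thm_T tBig tSmall)

theorem main2 : Stmt_Main2 := MAIN2.thm_MAIN2 DESC.thm_DESC core2 odd odd2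

/-- Every de Rham-Betti class on a tensor product of `H¹` of Fermat curves of good degrees is a
Hodge class. -/
theorem final : Stmt_Final := FINAL.thm_FINAL main2 LOOP.thm_LOOP

end Pool.Agent.FDR.Assembly
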