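import Mathlib

/-!
# FDR: de Rham-Betti classes on Fermat curves
Basic definitions shared by all modules.
-/

open scoped BigOperators Polynomial Topology
open Metric Filter

namespace Pool.Agent.FDR

noncomputable section

section general

variable {E ι : Type} [NormedAddCommGroup E] [NormedSpace ℂ E]

/-- Near `0`, `h` is a rational function of `F` whose denominator does not vanish at `F 0`. -/
def RatIn (F : E → ι → ℂ) (h : E → ℂ) : Prop :=
  ∃ P Q : MvPolynomial ι ℂ, MvPolynomial.eval (F 0) Q ≠ 0 ∧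
    ∀ᶠ z in 𝓝 (0 : E), h z * MvPolynomial.eval (F z) Q = MvPolynomial.eval (F z) P

/-- A representation of the germ `F` as a quotient of analytic functions on the ball of
radius `R`. -/
structure Rep (F : E → ι → ℂ) (R : ℝ) where
  G0 : E → ℂ
  G : ι → E → ℂ
  an0 : AnalyticOnNhd ℂ G0 (ball 0 R)
  an : ∀ i, AnalyticOnNhd ℂ (G i) (ball 0 R)
  ne : G0 0 ≠ 0
  eq : ∀ᶠ z in 𝓝 (0 : E), ∀ i, G i z = F z i * G0 z

/-- `F` extends to a family of meromorphic functions of finite order on `E`. -/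
def HasGrowth (F : E → ι → ℂ) : Prop :=
  ∃ C ρ : ℝ, 0 < C ∧ 1 ≤ ρ ∧ ∀ R : ℝ, 1 ≤ R → ∃ r : Rep F R,
    (∀ z ∈ ball (0 : E) R, ‖r.G0 z‖ ≤ Real.exp (C * R ^ ρ) ∧
      ∀ i, ‖r.G i z‖ ≤ Real.exp (C * R ^ ρ)) ∧
    Real.exp (-(C * R ^ ρ)) ≤ ‖r.G0 0‖

/-- `γ` is a period of the meromorphic continuation of `F`. -/
def IsPer (F : E → ι → ℂ) (γ : E) : Prop :=
  ∃ R : ℝ, ‖γ‖ < R ∧ ∃ r : Rep F R,
    ∀ᶠ w in 𝓝 (0 : E), ∀ i, r.G i (γ + w) = F w i * r.G0 (γ + w)

end general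

/-! ## Hyperelliptic curves `y ^ 2 = f x` -/

/-- A local branch of `y = √(f x)` near `(b, c)` and primitives of `x ^ i / y`. -/
structure Branch (f : ℂ[X]) (b c : ℂ) where
  r : ℝ
  rpos : 0 < r
  y : ℂ → ℂ
  I : ℕ → ℂ → ℂ
  y_b : y b = c
  y_diff : DifferentiableOn ℂ y (ball b r)
  y_sq : ∀ x ∈ ball b r, y x ^ 2 = f.eval x
  y_ne : ∀ x ∈ ball b r, y x ≠ 0
  I_b : ∀ i, I i b = 0
  I_deriv : ∀ i, ∀ x ∈ ball b r, HasDerivAt (I i) (x ^ i / y x) x

/-- Mumford's polynomial `U`, with roots the `x`-coordinates. -/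
def polyU {g : ℕ} (x : Fin g → ℂ) : ℂ[X] := ∏ k, (Polynomial.X - Polynomial.C (x k))

/-- Mumford's polynomial `V`, interpolating the `y`-coordinates. -/
def polyV {g : ℕ} (x y : Fin g → ℂ) : ℂ[X] := Lagrange.interpolate Finset.univ x y

/-- Mumford's polynomial `W`. -/
def polyW {g : ℕ} (f : ℂ[X]) (x y : Fin g → ℂ) : ℂ[X] := (f - polyV x y ^ 2) /ₘ polyU x

/-- The coefficient of `X ^ j` in the `k`-th Lagrange basis polynomial at the nodes `x`. -/
def lagC {g : ℕ} (x : Fin g → ℂ) (k : Fin g) (j : ℕ) : ℂ :=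
  (Lagrange.basis Finset.univ x k).coeff j

/-- Local coordinates near the divisor `∑ (b k, c k)` on the Jacobian of `y ^ 2 = f x`
given by the abelian integrals of `x ^ i dx / y`, `i < g`. -/
structure Chart (g : ℕ) (f : ℂ[X]) (b c : Fin g → ℂ) where
  β : ∀ k, Branch f (b k) (c k)
  X : (Fin g → ℂ) → (Fin g → ℂ)
  an : AnalyticAt ℂ X 0
  X0 : X 0 = b
  right : ∀ᶠ z in 𝓝 (0 : Fin g → ℂ), ∀ i : Fin g, ∑ k, (β k).I i (X z k) = z i
  left : ∀ᶠ x in 𝓝 b, X (fun i : Fin g => ∑ k, (β k).I i (x k)) = x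

/-- the `y`-coordinates -/
def Chart.Y {g : ℕ} {f : ℂ[X]} {b c : Fin g → ℂ} (C : Chart g f b c) (z : Fin g → ℂ)
    (k : Fin g) : ℂ := (C.β k).y (C.X z k)

/-- the abelian integral of `x ^ g dx / y` -/
def Chart.s {g : ℕ} {f : ℂ[X]} {b c : Fin g → ℂ} (C : Chart g f b c) (z : Fin g → ℂ) : ℂ :=
  ∑ k, (C.β k).I g (C.X z k)

/-- The functions attached to a chart: the coefficients of `U`, and `s z - w`. -/
def F1 {g : ℕ} {f : ℂ[X]} {b c : Fin g → ℂ} (C : Chart g f b c)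
    (p : (Fin g → ℂ) × ℂ) : Option (Fin g) → ℂ
  | some l => (polyU (C.X p.1)).coeff l
  | none => C.s p.1 - p.2

/-- `A` as a function of its parameters: monic of degree `2 g`. -/
def polyA {g : ℕ} (p : Fin 3 × Fin g → ℂ) : ℂ[X] :=
  Polynomial.X ^ (2 * g) + ∑ i : Fin g, Polynomial.C (p (0, i)) * Polynomial.X ^ (i : ℕ) +
    ∑ i : Fin g, Polynomial.C (p (1, i)) * Polynomial.X ^ (g + (i : ℕ))

/-- `B` as a function of its parameters: degree `< g`. -/
def polyB {g : ℕ} (p : Fin 3 × Fin g → ℂ) : ℂ[X] :=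
  ∑ i : Fin g, Polynomial.C (p (2, i)) * Polynomial.X ^ (i : ℕ)

/-- The two charts together: coefficients of `U₀, V₀, U₁, V₁`. -/
def F4 {g : ℕ} {f : ℂ[X]} {b c : Fin 2 → Fin g → ℂ} (C : ∀ r, Chart g f (b r) (c r))
    (z : Fin g → ℂ) : (Fin 2 × Fin 2) × Fin g → ℂ
  | ((r, 0), l) => (polyU ((C r).X z)).coeff l
  | ((r, 1), l) => (polyV ((C r).X z) ((C r).Y z)).coeff l

/-! ## Gamma values -/

/-- Euler's Beta function for real arguments. -/
def bet (x y : ℝ) : ℝ := Real.Gamma x * Real.Gamma y / Real.Gamma (x + y)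

/-- The `i`-th coordinate of the `k`-th half period difference vector of
`y ^ 2 = x ^ (2 g + 1) + 1`. -/
def lam (g k i : ℕ) : ℂ :=
  2 / (2 * g + 1) * Complex.exp (Complex.I * Real.pi * (2 * k + 1) * (i + 1) / (2 * g + 1)) *
    (bet ((i + 1) / (2 * g + 1)) (1 / 2) : ℂ)

/-- The vector of all `lam g k i`, `i ≤ g`. -/
def lamv (g k : ℕ) : (Fin g → ℂ) × ℂ := (fun i => lam g k i, lam g k g)

theorem exp_intCast_mul_aux (n : ℤ) (x : ℝ) : Real.exp (x * n) = Real.exp x ^ n := by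
  rw [Real.exp_mul, Real.rpow_intCast]

theorem isAlgebraic_zpow_aux {x : ℝ} (hx : IsAlgebraic ℚ x) (n : ℤ) :
    IsAlgebraic ℚ (x ^ n) := by
  cases n with
  | ofNat n => simpa using hx.pow n
  | negSucc n =>
    rw [zpow_negSucc]
    exact (hx.pow (n + 1)).inv

/-- `x` is the logarithm of an algebraic number. -/
def algLog : Submodule ℚ ℝ where
  carrier := {x | IsAlgebraic ℚ (Real.exp x)}
  zero_mem' := by
    simp only [Set.mem_ofPred_eq, Real.exp_zero]
    exact isAlgebraic_one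
  add_mem' := by
    intro a b ha hb
    simp only [Set.mem_ofPred_eq] at *
    rw [Real.exp_add]
    exact ha.mul hb
  smul_mem' := by
    intro q x hx
    simp only [Set.mem_ofPred_eq] at *
    have h1 : IsAlgebraic ℚ (Real.exp (q * x) ^ q.den) := by
      rw [← Real.exp_nat_mul]
      have : (q.den : ℝ) * ((q : ℝ) * x) = (q.num : ℝ) * x := by
        have h2 : (q.den : ℝ) * (q : ℝ) = (q.num : ℝ) := by
          have := Rat.mul_den_eq_num q
          have h3 : ((q * q.den : ℚ) : ℝ) = ((q.num : ℚ) : ℝ) := by rw [this]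
          push_cast at h3
          linarith
        rw [← mul_assoc, h2]
      rw [this, mul_comm, exp_intCast_mul_aux]
      exact isAlgebraic_zpow_aux hx _
    have h4 : IsAlgebraic ℚ (Real.exp (q * x)) := h1.of_pow q.den_pos
    simpa [Rat.smul_def] using h4

/-- `log (Γ(⟨x⟩) / Γ(1 - ⟨x⟩))` -/
def Hlog (x : ℚ) : ℝ :=
  Real.log (Real.Gamma (Int.fract x : ℚ)) - Real.log (Real.Gamma (1 - (Int.fract x : ℚ)))

end

end Pool.Agent.FDR
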