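import Pool.Agent.FDR.Stmts

open scoped BigOperators Polynomial Topology
open Metric Filter

namespace Pool.Agent.FDR.F4D

section analytic

variable {E : Type} [NormedAddCommGroup E] [NormedSpace ℂ E]

/-- all coefficients are analytic at `0` -/
def CA (P : E → ℂ[X]) : Prop := ∀ l, AnalyticAt ℂ (fun z => (P z).coeff l) 0

theorem CA.mul {P Q : E → ℂ[X]} (hP : CA P) (hQ : CA Q) : CA (fun z => P z * Q z) := by
  intro l
  simp only [Polynomial.coeff_mul]
  exact Finset.analyticAt_fun_sum _ (fun i _ => (hP _).mul (hQ _))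

theorem CA.const (P : ℂ[X]) : CA (fun _ : E => P) := fun _ => analyticAt_const

theorem CA.C {a : E → ℂ} (ha : AnalyticAt ℂ a 0) : CA (fun z => Polynomial.C (a z)) := by
  intro l
  simp only [Polynomial.coeff_C]
  by_cases hl : l = 0
  · simpa [hl] using ha
  · simpa [hl] using (analyticAt_const : AnalyticAt ℂ (fun _ : E => (0 : ℂ)) 0)

theorem CA.sub {P Q : E → ℂ[X]} (hP : CA P) (hQ : CA Q) : CA (fun z => P z - Q z) := by
  intro l
  simp only [Polynomial.coeff_sub]
  exact (hP l).sub (hQ l)

theorem CA.sum {κ : Type} (s : Finset κ) {P : κ → E → ℂ[X]} (hP : ∀ k ∈ s, CA (P k)) :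
    CA (fun z => ∑ k ∈ s, P k z) := by
  intro l
  simp only [Polynomial.finsetSum_coeff]
  exact Finset.analyticAt_fun_sum _ (fun k hk => hP k hk l)

theorem CA.prod {κ : Type} [DecidableEq κ] (s : Finset κ) {P : κ → E → ℂ[X]}
    (hP : ∀ k ∈ s, CA (P k)) : CA (fun z => ∏ k ∈ s, P k z) := by
  induction s using Finset.induction_on with
  | empty => simpa using CA.const (E := E) 1
  | insert a s ha ih =>
    simp only [Finset.prod_insert ha]
    exact (hP a (Finset.mem_insert_self a s)).mul
      (ih (fun k hk => hP k (Finset.mem_insert_of_mem hk)))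

theorem CA_polyU {g : ℕ} {x : E → Fin g → ℂ} (hx : ∀ k, AnalyticAt ℂ (fun z => x z k) 0) :
    CA (fun z => polyU (x z)) := by
  unfold polyU
  exact CA.prod _ (fun k _ => (CA.const Polynomial.X).sub (CA.C (hx k)))

theorem CA_polyV {g : ℕ} {x y : E → Fin g → ℂ} (hx : ∀ k, AnalyticAt ℂ (fun z => x z k) 0)
    (hy : ∀ k, AnalyticAt ℂ (fun z => y z k) 0) (hinj : Function.Injective (x 0)) :
    CA (fun z => polyV (x z) (y z)) := by
  unfold polyV
  have : ∀ z, Lagrange.interpolate Finset.univ (x z) (y z) =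
      ∑ i, Polynomial.C (y z i) * ∏ j ∈ Finset.univ.erase i,
        (Polynomial.C (x z i - x z j)⁻¹ * (Polynomial.X - Polynomial.C (x z j))) := by
    intro z
    rfl
  simp only [this]
  refine CA.sum _ (fun i _ => (CA.C (hy i)).mul (CA.prod _ fun j hj => ?_))
  refine (CA.C ?_).mul ((CA.const Polynomial.X).sub (CA.C (hx j)))
  refine ((hx i).sub (hx j)).inv ?_
  rw [Finset.mem_erase] at hj
  intro h
  exact hj.1 (hinj (sub_eq_zero.1 h)).symm

end analytic

theorem polyU_monic {g : ℕ} (x : Fin g → ℂ) : (polyU x).Monic := by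
  unfold polyU
  exact Polynomial.monic_prod_X_sub_C _ _

theorem polyU_natDegree {g : ℕ} (x : Fin g → ℂ) : (polyU x).natDegree = g := by
  unfold polyU
  rw [Polynomial.natDegree_prod_of_monic _ _ (fun i _ => Polynomial.monic_X_sub_C _)]
  simp

theorem polyV_degree {g : ℕ} (x y : Fin g → ℂ) (h : Function.Injective x) :
    (polyV x y).degree < g := by
  unfold polyV
  have := Lagrange.degree_interpolate_lt (s := Finset.univ) (v := x) (r := y) h.injOn
  simpa using this

theorem thm_F4D (hRC1 : Stmt_RC1) (hRC3 : Stmt_RC3) (hCD : Stmt_ChartD) (hMum : Stmt_Mum) :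
    Stmt_F4D := by
  intro g f hf hdeg b c C hinj
  have hXan : ∀ r k, AnalyticAt ℂ (fun z => (C r).X z k) 0 := fun r k =>
    (analyticAt_pi_iff.1 (C r).an) k
  have hYan : ∀ r k, AnalyticAt ℂ (fun z => (C r).Y z k) 0 := fun r k =>
    (hCD g f (b r) (c r) (C r) (hinj r)).1 k
  have hX0 : ∀ r, Function.Injective ((C r).X 0) := fun r => by
    rw [(C r).X0]; exact hinj r
  have han : ∀ i, AnalyticAt ℂ (fun z => F4 C z i) 0 := by
    rintro ⟨⟨r, s⟩, l⟩
    fin_cases s
    · exact CA_polyU (hXan r) l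
    · exact CA_polyV (hXan r) (hYan r) (hX0 r) l
  refine ⟨han, ?_⟩
  have hcont : ContinuousAt (F4 C) 0 := continuousAt_pi.2 (fun i => (han i).continuousAt)
  obtain ⟨hconst, hcoord, hadd, hmul, hneg, hinv, hcongr, hsum, hprod⟩ :=
    hRC1 (Fin g → ℂ) ((Fin 2 × Fin 2) × Fin g) (F4 C) hcont
  -- eventually injective
  have hXinj : ∀ r, ∀ᶠ z in 𝓝 (0 : Fin g → ℂ), Function.Injective ((C r).X z) := fun r => by
    filter_upwards [(hCD g f (b r) (c r) (C r) (hinj r)).2.2.2.2] with z hz
    exact hz.1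
  -- coefficients of U
  have hU : ∀ r l, RatIn (F4 C) (fun z => (polyU ((C r).X z)).coeff l) := by
    intro r l
    rcases lt_trichotomy l g with h | h | h
    · exact hcoord ((r, 0), ⟨l, h⟩)
    · refine hcongr _ _ (hconst 1) (Eventually.of_forall fun z => ?_)
      have h1 := polyU_monic ((C r).X z)
      rw [Polynomial.Monic, Polynomial.leadingCoeff, polyU_natDegree] at h1
      simp only [h]
      exact h1
    · refine hcongr _ _ (hconst 0) (Eventually.of_forall fun z => ?_)
      exact Polynomial.coeff_eq_zero_of_natDegree_lt (by rw [polyU_natDegree]; exact h)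
  have hV : ∀ r l, RatIn (F4 C) (fun z => (polyV ((C r).X z) ((C r).Y z)).coeff l) := by
    intro r l
    by_cases h : l < g
    · exact hcoord ((r, 1), ⟨l, h⟩)
    · refine hcongr _ _ (hconst 0) ?_
      filter_upwards [hXinj r] with z hz
      refine Polynomial.coeff_eq_zero_of_degree_lt ?_
      refine lt_of_lt_of_le (polyV_degree _ _ hz) ?_
      exact_mod_cast not_lt.1 h
  have hW : ∀ r l, RatIn (F4 C) (fun z => (polyW f ((C r).X z) ((C r).Y z)).coeff l) := by
    intro r
    refine (hRC3 _ _ (F4 C) hcont (fun z => f - polyV ((C r).X z) ((C r).Y z) ^ 2)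
      (fun z => polyU ((C r).X z)) (2 * g + 1) g ?_ ?_ ?_ (hU r)).1
    · filter_upwards [hXinj r] with z hz
      refine le_trans (Polynomial.natDegree_sub_le _ _) ?_
      refine max_le hdeg.le ?_
      refine le_trans Polynomial.natDegree_pow_le ?_
      have : (polyV ((C r).X z) ((C r).Y z)).natDegree ≤ g :=
        Polynomial.natDegree_le_of_degree_le (polyV_degree _ _ hz).le
      omega
    · intro l
      have h1 : RatIn (F4 C) (fun z => f.coeff l + -∑ x ∈ Finset.HasAntidiagonal.antidiagonal l,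
          (polyV ((C r).X z) ((C r).Y z)).coeff x.1 *
            (polyV ((C r).X z) ((C r).Y z)).coeff x.2) :=
        hadd _ _ (hconst _) (hneg _ (hsum _ _ _ fun x _ => hmul _ _ (hV r _) (hV r _)))
      refine hcongr _ _ h1 (Eventually.of_forall fun z => ?_)
      simp only [Polynomial.coeff_sub, pow_two, Polynomial.coeff_mul]
      ring
    · exact Eventually.of_forall fun z => ⟨polyU_monic _, polyU_natDegree _⟩
  rintro ⟨⟨r, s⟩, l⟩ j
  have hM := hMum g f hf hdeg (b r) (c r) (C r) (hinj r)
  fin_cases s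
  · have h1 : RatIn (F4 C) (fun z => - ∑ t ∈ Finset.range ((j : ℕ) + 1),
        ((polyU ((C r).X z)).coeff (l + 1 + t) *
            (polyV ((C r).X z) ((C r).Y z)).coeff (j - t) + -
          ((polyU ((C r).X z)).coeff (j - t) *
            (polyV ((C r).X z) ((C r).Y z)).coeff (l + 1 + t)))) :=
      hneg _ (hsum _ _ _ fun t _ => hadd _ _ (hmul _ _ (hU r _) (hV r _))
        (hneg _ (hmul _ _ (hU r _) (hV r _))))
    refine hcongr _ _ h1 ?_
    filter_upwards [hM] with z hz
    have h2 := (hz j l).1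
    have h3 : (fun z => F4 C z ((r, 0), l)) = (fun z => (polyU ((C r).X z)).coeff l) := rfl
    change fderiv ℂ (fun z => F4 C z ((r, 0), l)) z (Pi.single j 1) = _
    rw [h3, h2]
    simp only [sub_eq_add_neg]
  · have h1 : RatIn (F4 C) (fun z => (1 / 2) * ((polyU ((C r).X z)).coeff j *
        (polyU ((C r).X z)).coeff l + -
      (∑ t ∈ Finset.range ((j : ℕ) + 1),
        ((polyU ((C r).X z)).coeff (j - t) *
            (polyW f ((C r).X z) ((C r).Y z)).coeff (l + 1 + t) + -
          ((polyW f ((C r).X z) ((C r).Y z)).coeff (j - t) *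
            (polyU ((C r).X z)).coeff (l + 1 + t)))))) :=
      hmul _ _ (hconst _) (hadd _ _ (hmul _ _ (hU r _) (hU r _))
        (hneg _ (hsum _ _ _ fun t _ => hadd _ _ (hmul _ _ (hU r _) (hW r _))
        (hneg _ (hmul _ _ (hW r _) (hU r _))))))
    refine hcongr _ _ h1 ?_
    filter_upwards [hM] with z hz
    have h2 := (hz j l).2
    have h3 : (fun z => F4 C z ((r, 1), l)) =
      (fun z => (polyV ((C r).X z) ((C r).Y z)).coeff l) := rfl
    change fderiv ℂ (fun z => F4 C z ((r, 1), l)) z (Pi.single j 1) = _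
    rw [h3, h2]
    simp only [← sub_eq_add_neg]
    ring

end Pool.Agent.FDR.F4D
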