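import Pool.Agent.FDR.Stmts

/-!
# FDR: the main theorem for powers of Fermat primes
-/

namespace Pool.Agent.FDR.MAIN

theorem thm_MAIN (hDesc : Stmt_Desc) (hCore : Stmt_Core) (hOdd : Stmt_Odd) : Stmt_Main := by
  intro n N k hN α hα I hI
  refine hCore n N k ?_ I ?_
  · intro j
    obtain ⟨ℓ, K, hℓ, hK, hNj⟩ := hN j
    exact ⟨ℓ, K, hℓ.1, hOdd ℓ hℓ, hK, hNj⟩
  · intro t ht
    refine hDesc n N k α ?_ hα I hI t ht
    intro j
    obtain ⟨ℓ, K, hℓ, hK, hNj⟩ := hN j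
    rw [hNj]
    exact pow_pos hℓ.1.pos K

end Pool.Agent.FDR.MAIN
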