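import Pool.Agent.FDR.Stmts2

/-!
# FDR, module ODD2: the main theorem at the prime `2`
-/

open scoped BigOperators Polynomial Topology
open Metric Filter

namespace Pool.Agent.FDR.ODD2

noncomputable section

/-! ### elementary facts on `Hlog` -/

theorem Hlog_add_one (x : ℚ) : Hlog (x + 1) = Hlog x := by
  unfold Hlog
  rw [Int.fract_add_one]

theorem Hlog_neg (x : ℚ) (hx : Int.fract x ≠ 0) : Hlog (-x) = -Hlog x := by
  unfold Hlog
  rw [Int.fract_neg hx]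
  have h : (1 : ℝ) - ((1 - Int.fract x : ℚ) : ℝ) = ((Int.fract x : ℚ) : ℝ) := by
    push_cast
    ring
  rw [h]
  push_cast
  ring

/-! ### the space `S` -/

/-- the value of `Hlog` at a unit -/
def HU (K : ℕ) (b : (ZMod (2 ^ K))ˣ) : ℝ := Hlog (((b : ZMod (2 ^ K)).val : ℚ) / ((2 ^ K : ℕ) : ℚ))

/-- the space of relations -/
def SS (K : ℕ) : Submodule ℚ ((ZMod (2 ^ K))ˣ → ℚ) where
  carrier := {D | ∀ t : (ZMod (2 ^ K))ˣ, ∑ b, (D b : ℝ) * HU K (t * b) ∈ algLog}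
  zero_mem' := by
    intro t
    simp
  add_mem' := by
    intro x y hx hy t
    have := algLog.add_mem (hx t) (hy t)
    rw [← Finset.sum_add_distrib] at this
    convert this using 2
    push_cast [Pi.add_apply]
    ring
  smul_mem' := by
    intro q x hx t
    have := algLog.smul_mem q (hx t)
    rw [Finset.smul_sum] at this
    convert this using 2
    rw [Rat.smul_def]
    push_cast [Pi.smul_apply, smul_eq_mul]
    ring

theorem mem_SS (K : ℕ) (D : (ZMod (2 ^ K))ˣ → ℚ) :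
    D ∈ SS K ↔ ∀ t : (ZMod (2 ^ K))ˣ, ∑ b, (D b : ℝ) * HU K (t * b) ∈ algLog := Iff.rfl

theorem SS_stable (K : ℕ) : ∀ x ∈ SS K, ∀ t : (ZMod (2 ^ K))ˣ, (fun b => x (t * b)) ∈ SS K := by
  intro x hx t
  rw [mem_SS] at hx ⊢
  intro s
  have h := hx (s * t⁻¹)
  have h1 : ∑ b, (x (t * b) : ℝ) * HU K (s * b) = ∑ b, (x b : ℝ) * HU K (s * t⁻¹ * b) := by
    rw [← Equiv.sum_comp (Equiv.mulLeft t) (fun b => (x b : ℝ) * HU K (s * t⁻¹ * b))]
    refine Finset.sum_congr rfl fun b _ => ?_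
    simp only [Equiv.coe_mulLeft]
    congr 2
    group
  rw [h1]
  exact h

/-- `HU` is odd -/
theorem HU_neg (K : ℕ) (hK : 0 < K) (b : (ZMod (2 ^ K))ˣ) : HU K (-b) = -HU K b := by
  have hN : 1 < 2 ^ K := Nat.one_lt_two_pow (by omega)
  have : Fact (1 < 2 ^ K) := ⟨hN⟩
  have : NeZero (2 ^ K) := ⟨by omega⟩
  have hb0 : (b : ZMod (2 ^ K)) ≠ 0 := b.ne_zero
  have hv0 : 0 < (b : ZMod (2 ^ K)).val := by
    rcases Nat.eq_zero_or_pos (b : ZMod (2 ^ K)).val with h | h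
    · exact absurd ((ZMod.val_eq_zero _).mp h) hb0
    · exact h
  have hv1 : (b : ZMod (2 ^ K)).val < 2 ^ K := ZMod.val_lt _
  have hv : ((-b : (ZMod (2 ^ K))ˣ) : ZMod (2 ^ K)).val = 2 ^ K - (b : ZMod (2 ^ K)).val := by
    rw [Units.val_neg, ZMod.neg_val, if_neg hb0]
  unfold HU
  rw [hv]
  have hNq : ((2 ^ K : ℕ) : ℚ) ≠ 0 := by exact_mod_cast (by omega : 2 ^ K ≠ 0)
  have hNp : (0 : ℚ) < ((2 ^ K : ℕ) : ℚ) := by exact_mod_cast (by omega : 0 < 2 ^ K)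
  have h1 : (((2 ^ K - (b : ZMod (2 ^ K)).val : ℕ)) : ℚ) / ((2 ^ K : ℕ) : ℚ)
      = -(((b : ZMod (2 ^ K)).val : ℚ) / ((2 ^ K : ℕ) : ℚ)) + 1 := by
    rw [Nat.cast_sub hv1.le]
    field_simp
    ring
  rw [h1, Hlog_add_one]
  refine Hlog_neg _ ?_
  have h2 : Int.fract (((b : ZMod (2 ^ K)).val : ℚ) / ((2 ^ K : ℕ) : ℚ))
      = ((b : ZMod (2 ^ K)).val : ℚ) / ((2 ^ K : ℕ) : ℚ) := by
    rw [Int.fract_eq_self]
    constructor
    · positivity
    · rw [div_lt_one hNp]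
      exact_mod_cast hv1
  rw [h2]
  have h3 : ((b : ZMod (2 ^ K)).val : ℚ) ≠ 0 := by exact_mod_cast (by omega)
  exact div_ne_zero h3 hNq

/-! ### sums over residue classes -/

theorem sum_units (K j i : ℕ) (hj : 0 < j) (hi : ¬ 2 ∣ i) :
    ∑ b : (ZMod (2 ^ K))ˣ, (if (b : ZMod (2 ^ K)).val ≡ i [MOD 2 ^ j] then (1 : ℝ) else 0) * HU K b
      = ∑ b ∈ (Finset.range (2 ^ K)).filter (fun b => b ≡ i [MOD 2 ^ j]),
          Hlog ((b : ℚ) / ((2 ^ K : ℕ) : ℚ)) := by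
  have : NeZero (2 ^ K) := ⟨by positivity⟩
  have h0 : ∑ b : (ZMod (2 ^ K))ˣ,
      (if (b : ZMod (2 ^ K)).val ≡ i [MOD 2 ^ j] then (1 : ℝ) else 0) * HU K b
      = ∑ b ∈ Finset.univ.filter (fun b : (ZMod (2 ^ K))ˣ =>
          (b : ZMod (2 ^ K)).val ≡ i [MOD 2 ^ j]), HU K b := by
    rw [Finset.sum_filter]
    refine Finset.sum_congr rfl fun b _ => ?_
    split_ifs <;> simp
  rw [h0]
  refine Finset.sum_bij (fun b _ => (b : ZMod (2 ^ K)).val) ?_ ?_ ?_ ?_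
  · intro b hb
    rw [Finset.mem_filter] at hb ⊢
    exact ⟨Finset.mem_range.mpr (ZMod.val_lt _), hb.2⟩
  · intro b _ b' _ h
    exact Units.ext (ZMod.val_injective _ h)
  · intro n hn
    rw [Finset.mem_filter, Finset.mem_range] at hn
    have hodd : ¬ 2 ∣ n := by
      intro h
      apply hi
      have h1 : n ≡ i [MOD 2] := hn.2.of_dvd (dvd_pow_self 2 (by omega))
      exact (h1.dvd_iff (dvd_refl 2)).mp h
    have hcop : n.Coprime (2 ^ K) := by
      apply Nat.Coprime.pow_right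
      rw [Nat.coprime_comm]
      exact (Nat.Prime.coprime_iff_not_dvd Nat.prime_two).mpr hodd
    refine ⟨ZMod.unitOfCoprime n hcop, ?_, ?_⟩
    · rw [Finset.mem_filter]
      refine ⟨Finset.mem_univ _, ?_⟩
      rw [ZMod.coe_unitOfCoprime, ZMod.val_natCast_of_lt hn.1]
      exact hn.2
    · rw [ZMod.coe_unitOfCoprime, ZMod.val_natCast_of_lt hn.1]
  · intro b _
    rfl

/-- reflection of the sums -/
theorem sum_neg (K j i : ℕ) (hK : 0 < K) :
    ∑ b : (ZMod (2 ^ K))ˣ,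
      (if (((-b : (ZMod (2 ^ K))ˣ)) : ZMod (2 ^ K)).val ≡ i [MOD 2 ^ j] then (1 : ℝ) else 0)
        * HU K b
      = -∑ b : (ZMod (2 ^ K))ˣ,
        (if (b : ZMod (2 ^ K)).val ≡ i [MOD 2 ^ j] then (1 : ℝ) else 0) * HU K b := by
  have : NeZero (2 ^ K) := ⟨by positivity⟩
  rw [← Equiv.sum_comp (Equiv.neg (ZMod (2 ^ K))ˣ) (fun b : (ZMod (2 ^ K))ˣ =>
    (if (((-b : (ZMod (2 ^ K))ˣ)) : ZMod (2 ^ K)).val ≡ i [MOD 2 ^ j] then (1 : ℝ) else 0)
        * HU K b), ← Finset.sum_neg_distrib]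
  refine Finset.sum_congr rfl fun b _ => ?_
  simp only [Equiv.neg_apply, neg_neg]
  rw [HU_neg K hK]
  ring

theorem thm_ODD2 (hIrr : Stmt_Irr2) (hGD : Stmt_GD) (hDist : Stmt_Dist) (hTh : Stmt_ThetaH)
    (hT : Stmt_T2) : Stmt_Odd2 := by
  intro K _ hK D hD
  by_contra hcon
  push Not at hcon
  have hDS : D ∈ SS K := hD
  obtain ⟨j, hj2, hjK, hf⟩ := hIrr K hK (SS K) (SS_stable K) ⟨D, hDS, hcon⟩
  refine hT j hj2 ?_
  intro i hi0 hilt hi2
  have : NeZero (2 ^ K) := ⟨by positivity⟩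
  -- the class sums
  have hodd' : ¬ 2 ∣ i + 2 ^ (j - 1) := by
    intro h
    apply hi2
    have : 2 ∣ 2 ^ (j - 1) := dvd_pow_self 2 (by omega)
    exact (Nat.dvd_add_left this).mp h
  have hrel := (mem_SS K _).mp (hf i hi2) 1
  set T : ℕ → ℝ := fun i => ∑ b : (ZMod (2 ^ K))ˣ,
    (if (b : ZMod (2 ^ K)).val ≡ i [MOD 2 ^ j] then (1 : ℝ) else 0) * HU K b with hTdef
  have h1 : 2 * (T i - T (i + 2 ^ (j - 1))) ∈ algLog := by
    convert hrel using 1
    have e1 := sum_neg K j i hK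
    have e2 := sum_neg K j (i + 2 ^ (j - 1)) hK
    have e3 : ∀ b : (ZMod (2 ^ K))ˣ,
        ((((if (b : ZMod (2 ^ K)).val ≡ i [MOD 2 ^ j] then (1 : ℚ) else 0) -
      (if (((-b : (ZMod (2 ^ K))ˣ)) : ZMod (2 ^ K)).val ≡ i [MOD 2 ^ j] then 1 else 0) -
      (if (b : ZMod (2 ^ K)).val ≡ i + 2 ^ (j - 1) [MOD 2 ^ j] then 1 else 0) +
      (if (((-b : (ZMod (2 ^ K))ˣ)) : ZMod (2 ^ K)).val ≡ i + 2 ^ (j - 1) [MOD 2 ^ j] then 1
        else 0) : ℚ) : ℝ)) * HU K (1 * b)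
        = (if (b : ZMod (2 ^ K)).val ≡ i [MOD 2 ^ j] then (1 : ℝ) else 0) * HU K b
          - (if (((-b : (ZMod (2 ^ K))ˣ)) : ZMod (2 ^ K)).val ≡ i [MOD 2 ^ j] then (1 : ℝ) else 0)
              * HU K b
          - (if (b : ZMod (2 ^ K)).val ≡ i + 2 ^ (j - 1) [MOD 2 ^ j] then (1 : ℝ) else 0) * HU K b
          + (if (((-b : (ZMod (2 ^ K))ˣ)) : ZMod (2 ^ K)).val ≡ i + 2 ^ (j - 1) [MOD 2 ^ j]
              then (1 : ℝ) else 0) * HU K b := by
      intro b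
      rw [one_mul]
      simp only [Rat.cast_add, Rat.cast_sub, apply_ite (Rat.cast : ℚ → ℝ), Rat.cast_one,
        Rat.cast_zero]
      ring
    simp only [e3]
    rw [Finset.sum_add_distrib, Finset.sum_sub_distrib, Finset.sum_sub_distrib, e1, e2]
    simp only [hTdef]
    ring
  have h2 : T i - T (i + 2 ^ (j - 1)) ∈ algLog := by
    have := algLog.smul_mem (1 / 2 : ℚ) h1
    rw [Rat.smul_def] at this
    convert this using 1
    push_cast
    ring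
  -- the distribution relations modulo `algLog`
  have hper : ∀ x : ℚ, algLog.mkQ (Hlog (x + 1)) = algLog.mkQ (Hlog x) := fun x => by
    rw [Hlog_add_one]
  have hdis : ∀ x : ℚ, (∀ z : ℤ, ((2 : ℕ) : ℚ) * x ≠ z) →
      ∑ k ∈ Finset.range 2, algLog.mkQ (Hlog (x + k / (2 : ℕ))) = algLog.mkQ (Hlog ((2 : ℕ) * x)) := by
    intro x hx
    have := hDist 2 (by norm_num) x hx
    rw [← map_sum, ← sub_eq_zero, ← map_sub]
    rw [Submodule.mkQ_apply, Submodule.Quotient.mk_eq_zero]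
    exact this
  have hTi : ∀ a : ℕ, ¬ 2 ∣ a → T a - Hlog ((a : ℚ) / ((2 ^ j : ℕ) : ℚ)) ∈ algLog := by
    intro a ha
    have hcop : a.Coprime 2 := by
      rw [Nat.coprime_comm]
      exact (Nat.Prime.coprime_iff_not_dvd Nat.prime_two).mpr ha
    have h3 := hGD (ℝ ⧸ algLog) (fun x => algLog.mkQ (Hlog x)) 2 Nat.prime_two hper hdis j K a
      (by omega) hjK hcop
    rw [← map_sum, ← sub_eq_zero, ← map_sub] at h3
    rw [Submodule.mkQ_apply, Submodule.Quotient.mk_eq_zero] at h3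
    simp only [hTdef]
    rw [sum_units K j a (by omega) ha]
    exact h3
  have h4 : Hlog ((i : ℚ) / ((2 ^ j : ℕ) : ℚ)) - Hlog (((i + 2 ^ (j - 1) : ℕ) : ℚ) / ((2 ^ j : ℕ) : ℚ))
      ∈ algLog := by
    have := algLog.add_mem (algLog.sub_mem h2 (hTi i hi2)) (hTi _ hodd')
    convert this using 1
    ring
  set x : ℚ := (i : ℚ) / ((2 ^ j : ℕ) : ℚ) with hx
  have hpow : ((2 ^ j : ℕ) : ℚ) = 2 * ((2 ^ (j - 1) : ℕ) : ℚ) := by
    have : 2 ^ j = 2 * 2 ^ (j - 1) := by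
      rw [← pow_succ']
      congr 1
      omega
    exact_mod_cast this
  have hpne : ((2 ^ (j - 1) : ℕ) : ℚ) ≠ 0 := by
    exact_mod_cast (by positivity : 2 ^ (j - 1) ≠ 0)
  have hxe : ((i + 2 ^ (j - 1) : ℕ) : ℚ) / ((2 ^ j : ℕ) : ℚ) = x + 1 / 2 := by
    rw [hx, hpow]
    push_cast
    push_cast at hpne
    field_simp
  rw [hxe] at h4
  have h2x : 2 * x = (i : ℚ) / ((2 ^ (j - 1) : ℕ) : ℚ) := by
    rw [hx, hpow]
    field_simp
  have hnon : ∀ z : ℤ, ((2 : ℕ) : ℚ) * x ≠ z := by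
    intro z hz
    have h5 : (i : ℚ) / ((2 ^ (j - 1) : ℕ) : ℚ) = z := by
      rw [← h2x]
      exact_mod_cast hz
    rw [div_eq_iff hpne] at h5
    have h6 : (i : ℤ) = z * ((2 ^ (j - 1) : ℕ) : ℤ) := by exact_mod_cast h5
    have h7 : (2 : ℤ) ∣ (i : ℤ) := by
      rw [h6]
      refine Dvd.dvd.mul_left ?_ z
      push_cast
      exact dvd_pow_self 2 (by omega)
    exact hi2 (by exact_mod_cast h7)
  have h8 : Hlog x + Hlog (x + 1 / 2) - Hlog (2 * x) ∈ algLog := by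
    have := hDist 2 (by norm_num) x hnon
    simpa [Finset.sum_range_succ] using this
  have hx0 : 0 < x := by
    rw [hx]
    have : (0 : ℚ) < i := by exact_mod_cast hi0
    have h' : (0 : ℚ) < ((2 ^ j : ℕ) : ℚ) := by exact_mod_cast (by positivity : 0 < 2 ^ j)
    positivity
  have hx1 : x < 1 := by
    rw [hx]
    have h' : (0 : ℚ) < ((2 ^ j : ℕ) : ℚ) := by exact_mod_cast (by positivity : 0 < 2 ^ j)
    rw [div_lt_one h']
    exact_mod_cast hilt
  have hxh : x ≠ 1 / 2 := by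
    intro h
    refine hnon 1 ?_
    rw [h]
    norm_num
  have h9 := hTh x hx0 hx1 hxh
  have h10 : 2 * Real.log (bet x (1 / 2)) - Real.log Real.pi ∈ algLog := by
    have := algLog.add_mem (algLog.add_mem h9 h4) h8
    have h11 : 2 * Real.log (bet x (1 / 2)) - Real.log Real.pi
        = 2 * Real.log (bet (↑x) (1 / 2)) - (Real.log Real.pi + 2 * Hlog x - Hlog (2 * x)) +
          (Hlog x - Hlog (x + 1 / 2)) +
        (Hlog x + Hlog (x + 1 / 2) - Hlog (2 * x)) - 0 * Hlog x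
        - 0 := by ring
    rw [h11]
    simpa using this
  have hbet : 0 < bet x (1 / 2) := by
    unfold bet
    have hxr : (0 : ℝ) < (x : ℝ) := by exact_mod_cast hx0
    have g1 := Real.Gamma_pos_of_pos hxr
    have g2 := Real.Gamma_pos_of_pos (by norm_num : (0 : ℝ) < 1 / 2)
    have g3 := Real.Gamma_pos_of_pos (by positivity : (0 : ℝ) < (x : ℝ) + 1 / 2)
    positivity
  have h12 : IsAlgebraic ℚ (Real.exp (2 * Real.log (bet x (1 / 2)) - Real.log Real.pi)) := h10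
  have h13 : Real.exp (2 * Real.log (bet x (1 / 2)) - Real.log Real.pi)
      = bet x (1 / 2) ^ 2 / Real.pi := by
    rw [Real.exp_sub, Real.exp_log Real.pi_pos]
    congr 1
    rw [mul_comm, Real.exp_mul, Real.exp_log hbet]
    norm_num
  rw [h13] at h12
  have h14 : ((x : ℚ) : ℝ) = (i : ℝ) / ((2 ^ j : ℕ) : ℝ) := by
    rw [hx]
    push_cast
    rfl
  rw [h14] at h12
  exact h12

end

end Pool.Agent.FDR.ODD2
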