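import Pool.Agent.FDR.Assembly

/-!
# The de Rham-Betti conjecture for tensor products of `H¹` of Fermat curves

`F_N` is the Fermat curve `x ^ N + y ^ N = 1` over the algebraic numbers.  We use

* the basis `ω_{a,b} = x ^ (a-1) y ^ (b-N) dx`, `0 < a, b < N`, `a + b ≠ N`, of the algebraic de Rham
  cohomology `H¹_dR(F_N)` (forms of the second kind; those with `a + b < N` are a basis of the forms of
  the first kind, i.e. of the step `F¹` of the Hodge filtration, and those with `a + b > N` span the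
  complementary `(0,1)` part of the Hodge decomposition, as they are eigenvectors of the action of the
  group of `N`-th roots of unity on `x` and `y`);
* the integrals of these forms over all closed curves on `F_N`.

A de Rham-Betti class on `H¹(F_{N_1}) ⊗ ... ⊗ H¹(F_{N_n}) (k)` is a tensor with algebraic coordinates
in the basis of products of the `ω_{a,b}`, whose values on all products of closed curves are rational
multiples of `(2 π i) ^ k`.
-/

open scoped BigOperators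

namespace Pool.Agent.Results.MP_470b79_ag.FermatDRB

noncomputable section

/-- `N = ℓ ^ K` or `N = 2 ℓ ^ K`, `K ≥ 1`, where `ℓ` is a prime of the form `2 ^ s + 1`, `s ≥ 0`
(so `ℓ` is `2`, `3`, `5`, `17`, `257`, `65537` or another Fermat prime). -/
def GoodDegree (N : ℕ) : Prop :=
  ∃ ℓ K s : ℕ, ℓ.Prime ∧ ℓ = 2 ^ s + 1 ∧ 0 < K ∧ (N = ℓ ^ K ∨ N = 2 * ℓ ^ K)

/-- The index set of the basis `ω_{a,b}` of `H¹_dR(F_N)`: `0 < a < N`, `0 < b < N`, `a + b ≠ N`. -/
def FormIdx (N : ℕ) : Type :=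
  {p : Fin N × Fin N // 0 < (p.1 : ℕ) ∧ 0 < (p.2 : ℕ) ∧ (p.1 : ℕ) + (p.2 : ℕ) ≠ N}

instance (N : ℕ) : Fintype (FormIdx N) := by unfold FormIdx; infer_instance
instance (N : ℕ) : DecidableEq (FormIdx N) := by unfold FormIdx; infer_instance

/-- the exponent `a` of `ω_{a,b}` -/
def FormIdx.a {N : ℕ} (p : FormIdx N) : ℕ := (p.1.1 : ℕ)
/-- the exponent `b` of `ω_{a,b}` -/
def FormIdx.b {N : ℕ} (p : FormIdx N) : ℕ := (p.1.2 : ℕ)

/-- A `C¹` arc `[0,1] → F_N` on the affine Fermat curve `x ^ N + y ^ N = 1`. -/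
structure Arc (N : ℕ) where
  x : ℝ → ℂ
  y : ℝ → ℂ
  hx : ContDiffOn ℝ 1 x (Set.Icc 0 1)
  hy : ContDiffOn ℝ 1 y (Set.Icc 0 1)
  eqn : ∀ t ∈ Set.Icc (0 : ℝ) 1, x t ^ N + y t ^ N = 1

/-- The integral over an arc of `ω_{a,b} = x ^ (a-1) y ^ (b-N) dx`, written without denominators:
on the curve `ω_{a,b} = x ^ (a-1) y ^ (b-1) (y dx - x dy)`. -/
def Arc.integral {N : ℕ} (A : Arc N) (p : FormIdx N) : ℂ :=
  ∫ t in (0 : ℝ)..1, A.x t ^ (p.a - 1) * A.y t ^ (p.b - 1) *
    (A.y t * deriv A.x t - A.x t * deriv A.y t)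

/-- A closed curve on the affine Fermat curve, composed of `m` consecutive `C¹` arcs. -/
structure Loop (N : ℕ) where
  m : ℕ
  arc : Fin m → Arc N
  closed : ∀ i : Fin m, (arc i).x 1 = (arc (finRotate m i)).x 0 ∧
    (arc i).y 1 = (arc (finRotate m i)).y 0

/-- The period of `ω_{a,b}` along a closed curve. -/
def Loop.period {N : ℕ} (γ : Loop N) (p : FormIdx N) : ℂ := ∑ i, (γ.arc i).integral p

/-- `α` (the coordinates in the basis of products of the `ω_{a,b}`) is a de Rham-Betti class on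
`H¹(F_{N_1}) ⊗ ... ⊗ H¹(F_{N_n}) (k)`: its coordinates are algebraic numbers, and its values on products
of closed curves are rational multiples of `(2 π i) ^ k`. -/
def IsDeRhamBetti {n : ℕ} (N : Fin n → ℕ) (k : ℤ) (α : (∀ j, FormIdx (N j)) → ℂ) : Prop :=
  (∀ I, IsAlgebraic ℚ (α I)) ∧
  ∀ γ : ∀ j, Loop (N j), ∃ q : ℚ,
    ∑ I : ∀ j, FormIdx (N j), α I * ∏ j, (γ j).period (I j) = (2 * Real.pi * Complex.I) ^ k * q

/-- `α` is of Hodge type `(0,0)` in `H¹(F_{N_1}) ⊗ ... ⊗ H¹(F_{N_n}) (k)`: if there is a nonzero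
coordinate then `n = 2 k`, and in every nonzero coordinate exactly `k` of the forms `ω_{a_j,b_j}` are of
the first kind. -/
def IsHodge {n : ℕ} (N : Fin n → ℕ) (k : ℤ) (α : (∀ j, FormIdx (N j)) → ℂ) : Prop :=
  ∀ I, α I ≠ 0 → (n : ℤ) = 2 * k ∧
    ((Finset.univ.filter fun j => (I j).a + (I j).b < N j).card : ℤ) = k

/-! ### Comparison with the definitions of the library -/

/-- an arc of the library as an arc -/
def toArc {N : ℕ} (A : Pool.Agent.FDR.Arc N) : Arc N := ⟨A.x, A.y, A.hx, A.hy, A.eqn⟩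

/-- a loop of the library as a loop -/
def toLoop {N : ℕ} (γ : Pool.Agent.FDR.Loop N) : Loop N :=
  ⟨γ.m, fun i => toArc (γ.arc i), γ.closed⟩

/-- Every de Rham-Betti class on `H¹(F_{N_1}) ⊗ ... ⊗ H¹(F_{N_n}) (k)`, where every `N_j` is `ℓ ^ K` or
`2 ℓ ^ K` with `ℓ = 2` or `ℓ` a Fermat prime, is a Hodge class. -/
theorem result : ∀ (n : ℕ) (N : Fin n → ℕ) (k : ℤ), (∀ j, GoodDegree (N j)) →
    ∀ α : (∀ j, FormIdx (N j)) → ℂ, IsDeRhamBetti N k α → IsHodge N k α := by
  intro n N k hN α hα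
  have hF : Pool.Agent.FDR.Stmt_Final := Pool.Agent.FDR.Assembly.final
  refine hF n N k hN α ⟨hα.1, fun γ => ?_⟩
  obtain ⟨q, hq⟩ := hα.2 (fun j => toLoop (γ j))
  exact ⟨q, hq⟩

end

end Pool.Agent.Results.MP_470b79_ag.FermatDRB
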