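import Pool.Agent.FDR.Stmts

/-!
# FDR, helper file: coefficientwise directional derivatives of families of polynomials
(used by the modules ULOC and MUM)
-/

open scoped BigOperators Polynomial Topology
open Metric Filter

namespace Pool.Agent.FDR.PDL

noncomputable section

variable {E : Type} [NormedAddCommGroup E] [NormedSpace ℂ E]

/-- Coefficientwise directional derivative. -/
def PD (P : E → ℂ[X]) (z v : E) (Q : ℂ[X]) : Prop :=
  ∀ l, DifferentiableAt ℂ (fun z => (P z).coeff l) z ∧
    fderiv ℂ (fun z => (P z).coeff l) z v = Q.coeff l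

/-- Coefficientwise analyticity. -/
def AnP (P : E → ℂ[X]) (z : E) : Prop := ∀ l, AnalyticAt ℂ (fun z => (P z).coeff l) z

variable {P P' : E → ℂ[X]} {z v : E} {Q Q' : ℂ[X]}

theorem PD.const (p : ℂ[X]) (z v : E) : PD (fun _ => p) z v 0 := by
  intro l
  refine ⟨differentiableAt_const _, ?_⟩
  simp

theorem PD.C {φ : E → ℂ} (h : DifferentiableAt ℂ φ z) :
    PD (fun z => Polynomial.C (φ z)) z v (Polynomial.C (fderiv ℂ φ z v)) := by
  intro l
  simp only [Polynomial.coeff_C]
  by_cases hl : l = 0
  · simp only [hl, if_true]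
    exact ⟨h, trivial⟩
  · simp only [hl, if_false]
    exact ⟨differentiableAt_const _, by simp⟩

theorem PD.add (h : PD P z v Q) (h' : PD P' z v Q') :
    PD (fun z => P z + P' z) z v (Q + Q') := by
  intro l
  simp only [Polynomial.coeff_add]
  refine ⟨(h l).1.add (h' l).1, ?_⟩
  rw [fderiv_fun_add (h l).1 (h' l).1]
  rw [← (h l).2, ← (h' l).2]
  rfl

theorem PD.neg (h : PD P z v Q) : PD (fun z => - P z) z v (-Q) := by
  intro l
  simp only [Polynomial.coeff_neg]
  refine ⟨(h l).1.neg, ?_⟩
  rw [fderiv_fun_neg, ← (h l).2]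
  rfl

theorem PD.sub (h : PD P z v Q) (h' : PD P' z v Q') :
    PD (fun z => P z - P' z) z v (Q - Q') := by
  simp only [sub_eq_add_neg]
  exact h.add h'.neg

theorem PD.sum {κ : Type} (s : Finset κ) {P : κ → E → ℂ[X]} {Q : κ → ℂ[X]}
    (h : ∀ k ∈ s, PD (P k) z v (Q k)) :
    PD (fun z => ∑ k ∈ s, P k z) z v (∑ k ∈ s, Q k) := by
  classical
  induction s using Finset.induction_on with
  | empty => simpa using PD.const (0 : ℂ[X]) z v
  | insert a s ha ih =>
    simp only [Finset.sum_insert ha]
    exact (h a (Finset.mem_insert_self _ _)).add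
      (ih fun k hk => h k (Finset.mem_insert_of_mem hk))

theorem PD.mul (h : PD P z v Q) (h' : PD P' z v Q') :
    PD (fun z => P z * P' z) z v (Q * P' z + P z * Q') := by
  intro l
  simp only [Polynomial.coeff_mul, Polynomial.coeff_add]
  have h1 : ∀ x ∈ Finset.HasAntidiagonal.antidiagonal l,
      HasFDerivAt (fun z => (P z).coeff x.1 * (P' z).coeff x.2)
        ((P z).coeff x.1 • fderiv ℂ (fun z => (P' z).coeff x.2) z +
          (P' z).coeff x.2 • fderiv ℂ (fun z => (P z).coeff x.1) z) z := by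
    intro x _
    exact (h x.1).1.hasFDerivAt.mul (h' x.2).1.hasFDerivAt
  have h2 := HasFDerivAt.fun_sum h1
  refine ⟨h2.differentiableAt, ?_⟩
  rw [h2.fderiv]
  rw [← Finset.sum_add_distrib]
  have h3 : (∑ x ∈ Finset.HasAntidiagonal.antidiagonal l,
      ((P z).coeff x.1 • fderiv ℂ (fun z => (P' z).coeff x.2) z +
          (P' z).coeff x.2 • fderiv ℂ (fun z => (P z).coeff x.1) z)) v =
      ∑ x ∈ Finset.HasAntidiagonal.antidiagonal l,
      ((P z).coeff x.1 * (fderiv ℂ (fun z => (P' z).coeff x.2) z v) +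
          (P' z).coeff x.2 * (fderiv ℂ (fun z => (P z).coeff x.1) z v)) := by
    simp only [FunLike.coe_sum, Finset.sum_apply, add_apply,
      smul_apply, smul_eq_mul]
  rw [h3]
  refine Finset.sum_congr rfl ?_
  intro x _
  rw [(h x.1).2, (h' x.2).2]
  ring

theorem PD.congr (h : PD P z v Q) (e : ∀ᶠ w in 𝓝 z, P' w = P w) : PD P' z v Q := by
  intro l
  have e1 : (fun w => (P' w).coeff l) =ᶠ[𝓝 z] fun w => (P w).coeff l := by
    filter_upwards [e] with w hw
    rw [hw]
  exact ⟨(h l).1.congr_of_eventuallyEq e1, by rw [e1.fderiv_eq]; exact (h l).2⟩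

theorem PD.unique (h : PD P z v Q) (h' : PD P z v Q') : Q = Q' := by
  ext l
  rw [← (h l).2, ← (h' l).2]

theorem PD.X_sub_C {φ : E → ℂ} (h : DifferentiableAt ℂ φ z) :
    PD (fun z => Polynomial.X - Polynomial.C (φ z)) z v (-Polynomial.C (fderiv ℂ φ z v)) := by
  have := (PD.const (Polynomial.X : ℂ[X]) z v).sub (PD.C (v := v) h)
  simpa using this

theorem PD.prod_X_sub_C {κ : Type} [DecidableEq κ] (s : Finset κ) {x : κ → E → ℂ}
    (h : ∀ k ∈ s, DifferentiableAt ℂ (x k) z) :
    PD (fun z => ∏ k ∈ s, (Polynomial.X - Polynomial.C (x k z))) z v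
      (-∑ k ∈ s, Polynomial.C (fderiv ℂ (x k) z v) *
        ∏ l ∈ s.erase k, (Polynomial.X - Polynomial.C (x l z))) := by
  induction s using Finset.induction_on with
  | empty => simpa using PD.const (1 : ℂ[X]) z v
  | insert a s ha ih =>
    have h1 := PD.X_sub_C (v := v) (h a (Finset.mem_insert_self _ _))
    have h2 := ih fun k hk => h k (Finset.mem_insert_of_mem hk)
    have h3 := h1.mul h2
    have e1 : (fun z => ∏ k ∈ insert a s, (Polynomial.X - Polynomial.C (x k z))) =
        fun z => (Polynomial.X - Polynomial.C (x a z)) *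
          ∏ k ∈ s, (Polynomial.X - Polynomial.C (x k z)) := by
      funext w
      rw [Finset.prod_insert ha]
    rw [e1]
    convert h3 using 1
    rw [Finset.sum_insert ha, Finset.erase_insert ha]
    have e2 : ∑ k ∈ s, Polynomial.C (fderiv ℂ (x k) z v) *
        ∏ l ∈ (insert a s).erase k, (Polynomial.X - Polynomial.C (x l z)) =
        (Polynomial.X - Polynomial.C (x a z)) * ∑ k ∈ s, Polynomial.C (fderiv ℂ (x k) z v) *
        ∏ l ∈ s.erase k, (Polynomial.X - Polynomial.C (x l z)) := by
      rw [Finset.mul_sum]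
      refine Finset.sum_congr rfl ?_
      intro k hk
      have hne : a ≠ k := fun e => ha (e ▸ hk)
      rw [Finset.erase_insert_of_ne hne, Finset.prod_insert
        (fun hh => ha (Finset.mem_of_mem_erase hh))]
      ring
    rw [e2]
    ring

theorem PD.prod {κ : Type} [DecidableEq κ] (s : Finset κ) {P : κ → E → ℂ[X]}
    (h : ∀ k ∈ s, ∃ Q, PD (P k) z v Q) :
    ∃ Q, PD (fun z => ∏ k ∈ s, P k z) z v Q := by
  induction s using Finset.induction_on with
  | empty => exact ⟨0, by simpa using PD.const (1 : ℂ[X]) z v⟩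
  | insert a s ha ih =>
    obtain ⟨Q1, h1⟩ := h a (Finset.mem_insert_self _ _)
    obtain ⟨Q2, h2⟩ := ih fun k hk => h k (Finset.mem_insert_of_mem hk)
    refine ⟨_, (h1.mul h2).congr (Filter.Eventually.of_forall fun w => ?_)⟩
    rw [Finset.prod_insert ha]

/-- Derivative of an evaluation at a moving point. -/
theorem PD.eval (h : PD P z v Q) {n : ℕ} (hn : ∀ᶠ w in 𝓝 z, (P w).natDegree < n)
    (hQ : Q.natDegree < n) {x : E → ℂ} (hx : DifferentiableAt ℂ x z) :
    fderiv ℂ (fun w => (P w).eval (x w)) z v =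
      Q.eval (x z) + (Polynomial.derivative (P z)).eval (x z) * fderiv ℂ x z v := by
  have e1 : (fun w => (P w).eval (x w)) =ᶠ[𝓝 z]
      fun w => ∑ l ∈ Finset.range n, (P w).coeff l * x w ^ l := by
    filter_upwards [hn] with w hw
    exact Polynomial.eval_eq_sum_range' hw _
  rw [e1.fderiv_eq]
  have h1 : ∀ l ∈ Finset.range n, HasFDerivAt (fun w => (P w).coeff l * x w ^ l)
      ((P z).coeff l • ((l : ℂ) * x z ^ (l - 1)) • fderiv ℂ x z +
        (x z ^ l) • fderiv ℂ (fun z => (P z).coeff l) z) z := by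
    intro l _
    refine (h l).1.hasFDerivAt.mul ?_
    have := hx.hasFDerivAt.pow l
    convert this using 1
    simp
  have h2 := HasFDerivAt.fun_sum h1
  rw [h2.fderiv]
  have h3 : (∑ l ∈ Finset.range n,
      ((P z).coeff l • ((l : ℂ) * x z ^ (l - 1)) • fderiv ℂ x z +
        (x z ^ l) • fderiv ℂ (fun z => (P z).coeff l) z)) v =
      ∑ l ∈ Finset.range n, ((P z).coeff l * (((l : ℂ) * x z ^ (l - 1)) * fderiv ℂ x z v) +
        x z ^ l * fderiv ℂ (fun z => (P z).coeff l) z v) := by
    simp only [FunLike.coe_sum, Finset.sum_apply, add_apply,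
      smul_apply, smul_eq_mul]
  rw [h3, Finset.sum_add_distrib, add_comm]
  congr 1
  · rw [Polynomial.eval_eq_sum_range' hQ]
    refine Finset.sum_congr rfl ?_
    intro l _
    rw [(h l).2]
    ring
  · have h4 : (Polynomial.derivative (P z)).eval (x z) =
        ∑ l ∈ Finset.range n, (P z).coeff l * ((l : ℂ) * x z ^ (l - 1)) := by
      rw [Polynomial.derivative_eval, Polynomial.sum_over_range' _ _ n hn.self_of_nhds]
      · refine Finset.sum_congr rfl ?_
        intro l _
        ring
      · intro l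
        simp
    rw [h4, Finset.sum_mul]
    refine Finset.sum_congr rfl ?_
    intro l _
    ring

theorem AnP.const (p : ℂ[X]) (z : E) : AnP (fun _ => p) z := fun _ => analyticAt_const

theorem AnP.C {φ : E → ℂ} (h : AnalyticAt ℂ φ z) : AnP (fun z => Polynomial.C (φ z)) z := by
  intro l
  simp only [Polynomial.coeff_C]
  by_cases hl : l = 0
  · simpa only [hl, if_true] using h
  · simp only [hl, if_false]
    exact analyticAt_const

theorem AnP.add (h : AnP P z) (h' : AnP P' z) : AnP (fun z => P z + P' z) z := by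
  intro l
  simp only [Polynomial.coeff_add]
  exact (h l).add (h' l)

theorem AnP.sub (h : AnP P z) (h' : AnP P' z) : AnP (fun z => P z - P' z) z := by
  intro l
  simp only [Polynomial.coeff_sub]
  exact (h l).sub (h' l)

theorem AnP.mul (h : AnP P z) (h' : AnP P' z) : AnP (fun z => P z * P' z) z := by
  intro l
  simp only [Polynomial.coeff_mul]
  exact Finset.analyticAt_fun_sum _ fun x _ => (h x.1).mul (h' x.2)

theorem AnP.prod {κ : Type} [DecidableEq κ] (s : Finset κ) {P : κ → E → ℂ[X]}
    (h : ∀ k ∈ s, AnP (P k) z) : AnP (fun z => ∏ k ∈ s, P k z) z := by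
  induction s using Finset.induction_on with
  | empty => simpa using AnP.const (1 : ℂ[X]) z
  | insert a s ha ih =>
    have h1 := h a (Finset.mem_insert_self _ _)
    have h2 := ih fun k hk => h k (Finset.mem_insert_of_mem hk)
    have h3 := h1.mul h2
    simpa only [Finset.prod_insert ha] using h3

theorem AnP.sum {κ : Type} [DecidableEq κ] (s : Finset κ) {P : κ → E → ℂ[X]}
    (h : ∀ k ∈ s, AnP (P k) z) : AnP (fun z => ∑ k ∈ s, P k z) z := by
  intro l
  simp only [Polynomial.finsetSum_coeff]
  exact Finset.analyticAt_fun_sum _ fun k hk => h k hk l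

theorem PD_of_AnP (h : AnP P z) {n : ℕ} (hn : ∀ᶠ w in 𝓝 z, (P w).natDegree < n) :
    ∃ Q : ℂ[X], Q.natDegree < n ∧ PD P z v Q := by
  have hc : ∀ l, n ≤ l → fderiv ℂ (fun z => (P z).coeff l) z v = 0 := by
    intro l hl
    have e : (fun z => (P z).coeff l) =ᶠ[𝓝 z] fun _ => (0 : ℂ) := by
      filter_upwards [hn] with w hw
      exact Polynomial.coeff_eq_zero_of_natDegree_lt (lt_of_lt_of_le hw hl)
    rw [e.fderiv_eq]
    simp
  have hn0 : 0 < n := lt_of_le_of_lt (Nat.zero_le _) hn.self_of_nhds
  refine ⟨∑ l ∈ Finset.range n,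
    Polynomial.C (fderiv ℂ (fun z => (P z).coeff l) z v) * Polynomial.X ^ l, ?_, ?_⟩
  · have h5 : (∑ l ∈ Finset.range n, Polynomial.C (fderiv ℂ (fun z => (P z).coeff l) z v) *
        Polynomial.X ^ l).natDegree ≤ n - 1 := by
      refine Polynomial.natDegree_sum_le_of_forall_le _ _ ?_
      intro l hl
      refine (Polynomial.natDegree_C_mul_X_pow_le _ _).trans ?_
      have := Finset.mem_range.1 hl
      omega
    omega
  · intro l
    refine ⟨(h l).differentiableAt, ?_⟩
    simp only [Polynomial.finsetSum_coeff, Polynomial.coeff_C_mul, Polynomial.coeff_X_pow]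
    by_cases hl : l < n
    · rw [Finset.sum_eq_single l]
      · simp
      · intro m _ hm
        simp [hm.symm]
      · intro hh
        exact absurd (Finset.mem_range.2 hl) hh
    · rw [hc l (not_lt.1 hl)]
      refine (Finset.sum_eq_zero ?_).symm
      intro m hm
      have := Finset.mem_range.1 hm
      have hne : l ≠ m := by omega
      simp [hne]

/-- The sum `∑ k, x k ^ i * lagC x k j` is the Kronecker delta. -/
theorem sum_pow_mul_lagC {g : ℕ} (x : Fin g → ℂ) (hx : Function.Injective x) (i j : Fin g) :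
    ∑ k, x k ^ (i : ℕ) * lagC x k j = if j = i then 1 else 0 := by
  have h1 : (Polynomial.X ^ (i : ℕ) : ℂ[X]) =
      Lagrange.interpolate Finset.univ x (fun k => (x k) ^ (i : ℕ)) := by
    have h2 := Lagrange.eq_interpolate (s := Finset.univ) (v := x)
      (f := (Polynomial.X ^ (i : ℕ) : ℂ[X])) (fun a _ b _ h => hx h) (by
        rw [Polynomial.degree_X_pow, Finset.card_univ, Fintype.card_fin]
        exact_mod_cast i.2)
    rw [h2]
    congr 1
    funext k
    simp
  have h3 := congrArg (fun p : ℂ[X] => p.coeff (j : ℕ)) h1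
  simp only [Lagrange.interpolate_apply, Polynomial.finsetSum_coeff, Polynomial.coeff_C_mul,
    Polynomial.coeff_X_pow] at h3
  unfold lagC
  rw [← h3]
  simp only [Fin.ext_iff]

end

end Pool.Agent.FDR.PDL
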