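import Pool.Agent.FDR.SL.MAIN
import Pool.Agent.FDR.SL.DPERM
import Pool.Agent.FDR.SL.DAEV
import Pool.Agent.FDR.SL.DLINE
import Pool.Agent.FDR.SL.DBASIS
import Pool.Agent.FDR.SL.DORDA
import Pool.Agent.FDR.SL.DORDB
import Pool.Agent.FDR.SL.DORDC
import Pool.Agent.FDR.SL.DLEAD
import Pool.Agent.FDR.SL.DCAU
import Pool.Agent.FDR.SL.SCHW
import Pool.Agent.FDR.SL.BOUND
import Pool.Agent.FDR.SL.SIEG
import Pool.Agent.FDR.SL.LIOU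
import Pool.Agent.FDR.SL.SLAUX
import Pool.Agent.FDR.SL.GAPP
import Pool.Agent.FDR.SL.SLNUM

namespace Pool.Agent.FDR.SL

open Pool.Agent.FDR

/-- The periodic Schneider-Lang theorem. -/
theorem thm_SL (hPA : Stmt_PerAny) (hPG : Stmt_PerGroup) : Stmt_SL :=
  MAIN.thm_SL DPERM.thm_DPERM DAEV.thm_DAEV DLINE.thm_DLINE DBASIS.thm_DBASIS
    DORDA.thm_DORDA DORDB.thm_DORDB DORDC.thm_DORDC (DLEAD.thm_DLEAD DORDC.thm_DORDC)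
    DCAU.thm_DCAU SCHW.thm_SCHW
    (SLAUX.thm_SLAUX BOUND.thm_BOUND SIEG.thm_SIEG LIOU.thm_LIOU)
    (GAPP.thm_GAPP hPA hPG) SLNUM.thm_SLNUM

end Pool.Agent.FDR.SL
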