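import Pool.Agent.FDR.Stmts

/-!
# FDR, part 2: powers of `2`, twice prime powers, and genuine loops

The curve `y ^ 2 = x ^ (2 g + 1) + x`, `n = 4 g = 2 ^ j`, in the coordinate `s` with
`x = s ^ 2`, `y = s * √(1 + s ^ (4 g))`, `x ^ i dx / y = 2 s ^ (2 i) ds / √(1 + s ^ (4 g))`.
-/

open scoped BigOperators Polynomial Topology
open Metric Filter

namespace Pool.Agent.FDR

noncomputable section

/-! ## 4b. Periods of `y ^ 2 = x ^ (2 g + 1) + x` -/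

/-- the roots of `s ^ (4 g) = -1` -/
def aRoot2 (g k : ℕ) : ℂ := Complex.exp (Complex.I * Real.pi * (2 * k + 1) / (4 * g))

/-- The `i`-th coordinate of the `k`-th period of `y ^ 2 = x ^ (2 g + 1) + x`. -/
def lam2 (g k i : ℕ) : ℂ :=
  1 / g * Complex.exp (Complex.I * Real.pi * (2 * k + 1) * (2 * i + 1) / (4 * g)) *
    (bet ((2 * i + 1) / (4 * g)) (1 / 2) : ℂ)

/-- The vector of all `lam2 g k i`, `i ≤ g`. -/
def lamv2 (g k : ℕ) : (Fin g → ℂ) × ℂ := (fun i => lam2 g k i, lam2 g k g)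

/-- SHEETS2: the abelian integrals on the unit disc of the coordinate `s` and on the discs around
the branch points `s = aRoot2 g k` (coordinate `v`, `s = aRoot2 g k * (1 - v ^ 2) ^ (1 / (4 g))`),
and their comparison. -/
def Stmt_Sheets2 : Prop := ∀ (g : ℕ), 0 < g →
  ∃ (J : ℕ → ℂ → ℂ) (K : ℕ → ℕ → ℂ → ℂ) (M : ℝ),
    (∀ i ≤ g, J i 0 = 0 ∧ ∀ s ∈ ball (0 : ℂ) 1,
      HasDerivAt (J i) (2 * s ^ (2 * i) * (1 + s ^ (4 * g)) ^ (-(1 / 2) : ℂ)) s ∧ ‖J i s‖ ≤ M ∧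
        J i (-s) = -J i s) ∧
    (∀ k, ∀ i ≤ g, K k i 0 = 0 ∧ ∀ v ∈ ball (0 : ℂ) 1,
      HasDerivAt (K k i) (-(1 / g) * aRoot2 g k ^ (2 * i + 1) *
        (1 - v ^ 2) ^ (((2 * i + 1) / (4 * g) - 1 : ℂ))) v ∧ ‖K k i v‖ ≤ M ∧
        K k i (-v) = -K k i v) ∧
    ∀ k, ∀ i ≤ g, ∀ v : ℝ, 0 < v → v < 1 →
      J i (aRoot2 g k * (((1 - v ^ 2) ^ (1 / (4 * g) : ℝ) : ℝ) : ℂ)) =
        K k i v + lam2 g k i / 2

/-- CONT2: analytic continuation along the discs gives the periods `lamv2 g k`. -/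
def Stmt_Cont2 : Prop := ∀ (g : ℕ) (hg : 0 < g) (b c : Fin g → ℂ),
  b ⟨0, hg⟩ = 1 / 4 → c ⟨0, hg⟩ = (Real.sqrt ((1 / 4) ^ (2 * g + 1) + 1 / 4) : ℂ) →
  Function.Injective b →
  ∀ C : Chart g (Polynomial.X ^ (2 * g + 1) + Polynomial.X) b c, HasGrowth (F1 C) →
  ∀ k : ℕ, IsPer (F1 C) (lamv2 g k)

/-- The period lattice (first kind) of `y ^ 2 = x ^ (2 g + 1) + x`. -/
def Lam2 (g : ℕ) : AddSubgroup (Fin g → ℂ) :=
  AddSubgroup.closure (Set.range fun (k : ℕ) (i : Fin g) => lam2 g k i)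

/-- LAMSPAN2 -/
def Stmt_LamSpan2 : Prop := ∀ g : ℕ, 0 < g →
  Submodule.span ℝ (Lam2 g : Set (Fin g → ℂ)) = ⊤

/-- LATT2: the complex line of the period `lam2 g 0` contains only real multiples of it among
the periods, if `4 g ≥ 16` is a power of `2`. -/
def Stmt_Latt2 : Prop := ∀ (a g : ℕ), 2 ≤ a → g = 2 ^ a → ∀ γ ∈ Lam2 g,
  γ ∈ Submodule.span ℂ {fun i : Fin g => lam2 g 0 i} →
  γ ∈ Submodule.span ℝ {fun i : Fin g => lam2 g 0 i}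

/-- TBIG2: transcendence for `n = 4 g ≥ 16` a power of `2`. -/
def Stmt_TBig2 : Prop := ∀ (a g : ℕ), 2 ≤ a → g = 2 ^ a →
  ¬ (∀ i : ℕ, i < g →
    IsAlgebraic ℚ (bet ((2 * i + 1) / (4 * g)) (1 / 2) / bet (1 / (4 * g)) (1 / 2)))

/-- INDG: a general criterion for algebraic independence on a line: a period whose second
coordinate is out of phase. -/
def Stmt_IndG : Prop := ∀ (g : ℕ) (f : ℂ[X]) (b c : Fin g → ℂ) (C : Chart g f b c),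
  Function.Injective b → HasGrowth (F1 C) → ∀ (e : (Fin g → ℂ) × ℂ) (κ κ' : ℂ),
  e.1 ≠ 0 → e.2 ≠ 0 → κ ≠ κ' → IsPer (F1 C) (κ • e.1, κ' • e.2) →
  ∃ l : Fin g, ∀ P : MvPolynomial (Fin 2) ℂ,
    (∀ᶠ w in 𝓝 (0 : Fin 1 → ℂ),
      MvPolynomial.eval (fun j : Fin 2 => F1 C (w 0 • e) (if j = 0 then some l else none)) P = 0) →
    P = 0

/-- TSMALL2: transcendence for `n = 4` and `n = 8`. -/
def Stmt_TSmall2 : Prop := ∀ g : ℕ, (g = 1 ∨ g = 2) →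
  ¬ (∀ i : ℕ, i ≤ g →
    IsAlgebraic ℚ (bet ((2 * i + 1) / (4 * g)) (1 / 2) / bet (1 / (4 * g)) (1 / 2)))

/-- T2: the transcendence theorem for powers of `2`. -/
def Stmt_T2 : Prop := ∀ j : ℕ, 2 ≤ j →
  ¬ (∀ i : ℕ, 0 < i → i < 2 ^ j → ¬ 2 ∣ i →
    IsAlgebraic ℚ (bet (i / (2 ^ j : ℕ)) (1 / 2) ^ 2 / Real.pi))

/-! ## 5b. Gamma values -/

/-- IRR2: a translation-stable space of functions on `(ℤ/2^K)ˣ` with a non-even element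
contains the `2`-primitive odd functions of some level `2 ^ j`, `j ≥ 2`. -/
def Stmt_Irr2 : Prop := ∀ (K : ℕ), 0 < K → ∀ (S : Submodule ℚ ((ZMod (2 ^ K))ˣ → ℚ)),
  (∀ x ∈ S, ∀ t : (ZMod (2 ^ K))ˣ, (fun b => x (t * b)) ∈ S) →
  (∃ x ∈ S, ∃ b, x b ≠ x (-b)) →
  ∃ j : ℕ, 2 ≤ j ∧ j ≤ K ∧ ∀ i : ℕ, ¬ 2 ∣ i →
    (fun b : (ZMod (2 ^ K))ˣ =>
      (if (b : ZMod (2 ^ K)).val ≡ i [MOD 2 ^ j] then (1 : ℚ) else 0) -
      (if (((-b : (ZMod (2 ^ K))ˣ)) : ZMod (2 ^ K)).val ≡ i [MOD 2 ^ j] then 1 else 0) -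
      (if (b : ZMod (2 ^ K)).val ≡ i + 2 ^ (j - 1) [MOD 2 ^ j] then 1 else 0) +
      (if (((-b : (ZMod (2 ^ K))ˣ)) : ZMod (2 ^ K)).val ≡ i + 2 ^ (j - 1) [MOD 2 ^ j] then 1
        else 0)) ∈ S

/-- ODD2: the main theorem at the prime `2`. -/
def Stmt_Odd2 : Prop := OddAt 2

/-- ONE2: the main theorem on one prime, for arbitrary combinations of `Hlog` values at points
with denominators `2 ℓ ^ K`. -/
def Stmt_One2 : Prop := ∀ (ℓ : ℕ), ℓ.Prime → OddAt ℓ → ∀ (ι : Type) (s : Finset ι) (n : ι → ℤ)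
  (x : ι → ℚ),
  (∀ i ∈ s, (∀ z : ℤ, x i ≠ z) ∧ ∃ (K : ℕ) (z : ℤ), (2 : ℚ) * (ℓ : ℚ) ^ K * x i = z) →
  (∀ t : ℕ, t.Coprime (2 * ℓ) → ∑ i ∈ s, (n i : ℝ) * Hlog (t * x i) ∈ algLog) →
  ∑ i ∈ s, (n i : ℚ) * (Int.fract (x i) - 1 / 2) = 0

/-! ## 6b. De Rham-Betti classes -/

/-- `N = ℓ ^ K` or `N = 2 ℓ ^ K`, `K ≥ 1`, where `ℓ` is `2` or a Fermat prime, i.e. a prime of
the form `2 ^ s + 1`, `s ≥ 0`. -/
def GoodDeg (N : ℕ) : Prop :=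
  ∃ ℓ K s : ℕ, ℓ.Prime ∧ ℓ = 2 ^ s + 1 ∧ 0 < K ∧ (N = ℓ ^ K ∨ N = 2 * ℓ ^ K)

/-- CORE2: the Galois-stable Rohrlich conjecture for `ℓ ^ K` and `2 ℓ ^ K` at primes with
`OddAt`. -/
def Stmt_Core2 : Prop := ∀ (n : ℕ) (N : Fin n → ℕ) (k : ℤ),
  (∀ j, ∃ ℓ K, ℓ.Prime ∧ OddAt ℓ ∧ 0 < K ∧ (N j = ℓ ^ K ∨ N j = 2 * ℓ ^ K)) →
  ∀ I : ∀ j, FIdx (N j),
  (∀ t : ℕ, (∀ j, t.Coprime (N j)) →
    IsAlgebraic ℚ ((∏ j, bet (((t * (I j).a) % N j : ℕ) / N j)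
      (((t * (I j).b) % N j : ℕ) / N j)) / Real.pi ^ k)) →
  (n : ℤ) = 2 * k ∧ ((Finset.univ.filter fun j => (I j).a + (I j).b < N j).card : ℤ) = k

/-- MAIN2 -/
def Stmt_Main2 : Prop := ∀ (n : ℕ) (N : Fin n → ℕ) (k : ℤ), (∀ j, GoodDeg (N j)) →
  ∀ α : (∀ j, FIdx (N j)) → ℂ, IsDRB N k α → IsHodge N k α

/-! ## 7. Loops -/

/-- A `C¹` arc on the affine Fermat curve `x ^ N + y ^ N = 1`. -/
structure Arc (N : ℕ) where
  x : ℝ → ℂ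
  y : ℝ → ℂ
  hx : ContDiffOn ℝ 1 x (Set.Icc 0 1)
  hy : ContDiffOn ℝ 1 y (Set.Icc 0 1)
  eqn : ∀ t ∈ Set.Icc (0 : ℝ) 1, x t ^ N + y t ^ N = 1

/-- The integral over an arc of the regular form
`ω_{a,b} = x ^ (a-1) y ^ (b-1) (y dx - x dy) = x ^ (a-1) y ^ (b-N) dx`. -/
def Arc.int {N : ℕ} (A : Arc N) (a b : ℕ) : ℂ :=
  ∫ t in (0 : ℝ)..1, A.x t ^ (a - 1) * A.y t ^ (b - 1) *
    (A.y t * deriv A.x t - A.x t * deriv A.y t)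

/-- A closed curve, composed of `m` consecutive `C¹` arcs, on the affine Fermat curve. -/
structure Loop (N : ℕ) where
  m : ℕ
  arc : Fin m → Arc N
  closed : ∀ i : Fin m, (arc i).x 1 = (arc (finRotate m i)).x 0 ∧
    (arc i).y 1 = (arc (finRotate m i)).y 0

/-- The period of `ω_{a,b}` over a loop. -/
def Loop.per {N : ℕ} (γ : Loop N) (p : FIdx N) : ℂ := ∑ i, (γ.arc i).int p.a p.b

/-- LOOP: the numbers `ζ ^ (r a + s b) * fper` are the periods of one loop. -/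
def Stmt_Loop : Prop := ∀ (N : ℕ), 0 < N → ∀ r s : ℕ, ∃ γ : Loop N, ∀ p : FIdx N,
  γ.per p = zeta N ^ (r * p.a + s * p.b) * fper N p

/-- `α` is a de Rham-Betti class on `⨂ j, H¹(F_{N j}) (k)`: its coordinates in the basis of
products of the forms `ω_{a,b}` are algebraic, and its values on products of loops are
rational multiples of `(2 π i) ^ k`. -/
def IsDeRhamBetti {n : ℕ} (N : Fin n → ℕ) (k : ℤ) (α : (∀ j, FIdx (N j)) → ℂ) : Prop :=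
  (∀ I, IsAlgebraic ℚ (α I)) ∧
  ∀ γ : ∀ j, Loop (N j), ∃ q : ℚ,
    ∑ I : ∀ j, FIdx (N j), α I * ∏ j, (γ j).per (I j) = (2 * Real.pi * Complex.I) ^ k * q

/-- FINAL: every de Rham-Betti class on products of Fermat curves of these degrees is a Hodge
class. -/
def Stmt_Final : Prop := ∀ (n : ℕ) (N : Fin n → ℕ) (k : ℤ), (∀ j, GoodDeg (N j)) →
  ∀ α : (∀ j, FIdx (N j)) → ℂ, IsDeRhamBetti N k α → IsHodge N k α

end

end Pool.Agent.FDR
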