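import Pool.Agent.FDR.Stmts

/-!
# FDR, module TSMALL: Schneider's theorem for `y ^ 2 = x ^ 3 + 1`
-/

open scoped BigOperators Polynomial Topology
open Metric Filter

namespace Pool.Agent.FDR.TSMALL

noncomputable section

/-- the indices of the two functions -/
def ph (i : Fin 2) : Option (Fin 1) := if i = 0 then some 0 else none

theorem ph_inj : Function.Injective ph := by
  intro i j h
  fin_cases i <;> fin_cases j <;> simp_all [ph]

theorem bet_pos {x y : ℝ} (hx : 0 < x) (hy : 0 < y) : 0 < bet x y := by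
  unfold bet
  exact div_pos (mul_pos (Real.Gamma_pos_of_pos hx) (Real.Gamma_pos_of_pos hy))
    (Real.Gamma_pos_of_pos (add_pos hx hy))

/-- `exp (2 π i q)` is algebraic -/
theorem exp_alg (m : ℕ) : IsAlgebraic ℚ (Complex.exp (Complex.I * Real.pi * m / 3)) := by
  have h : Complex.exp (Complex.I * Real.pi * m / 3) ^ 6 = 1 := by
    rw [← Complex.exp_nat_mul, Complex.exp_eq_one_iff]
    exact ⟨m, by push_cast; ring⟩
  have h2 : IsAlgebraic ℚ (Complex.exp (Complex.I * Real.pi * m / 3) ^ 6) := by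
    rw [h]; exact isAlgebraic_one
  exact h2.of_pow (by norm_num)

theorem lam_eq (k i : ℕ) : lam 1 k i =
    2 / 3 * Complex.exp (Complex.I * Real.pi * ((2 * k + 1) * (i + 1) : ℕ) / 3) *
      (bet ((i + 1) / 3) (1 / 2) : ℂ) := by
  unfold lam
  push_cast
  congr 2
  · norm_num
  · congr 1
    norm_num
    ring
  · norm_num

theorem thm_TSMALL (hBranch : Stmt_Branch) (hChart : Stmt_Chart) (hF1G : Stmt_F1G)
    (hCont : Stmt_Cont) (hPull : Stmt_Pull) (hInd3 : Stmt_Ind3)
    (hArith : Stmt_Arith) (hSL : Stmt_SL) : Stmt_TSmall := by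
  intro halg
  -- the curve and the charts
  have hfdeg : (Polynomial.X ^ 3 + 1 : ℂ[X]).natDegree = 3 :=
    Polynomial.natDegree_X_pow_add_C (r := (1 : ℂ))
  have hfm : (Polynomial.X ^ 3 + 1 : ℂ[X]).Monic :=
    Polynomial.monic_X_pow_add_C (1 : ℂ) (by norm_num)
  set b : Fin 2 → Fin 1 → ℂ := fun r _ => if r = 0 then 0 else 2 with hb
  set c : Fin 2 → Fin 1 → ℂ := fun r _ => if r = 0 then 1 else 3 with hc
  have hbinj : Function.Injective (fun q : Fin 2 × Fin 1 => b q.1 q.2) := by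
    rintro ⟨r, k⟩ ⟨r', k'⟩ h
    have hk : k = k' := Subsingleton.elim _ _
    subst hk
    fin_cases r <;> fin_cases r' <;> simp_all
  have hbinj' : ∀ r, Function.Injective (b r) := fun r k k' _ => Subsingleton.elim _ _
  have hcb : ∀ r k, c r k ^ 2 = (Polynomial.X ^ 3 + 1 : ℂ[X]).eval (b r k) := by
    intro r k
    simp only [Polynomial.eval_add, Polynomial.eval_pow, Polynomial.eval_X, Polynomial.eval_one,
      hb, hc]
    split_ifs <;> norm_num
  have hc0 : ∀ r k, c r k ≠ 0 := by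
    intro r k
    simp only [hc]
    split_ifs <;> norm_num
  have hβ : ∀ r k, Nonempty (Branch (Polynomial.X ^ 3 + 1 : ℂ[X]) (b r k) (c r k)) :=
    fun r k => hBranch _ _ _ (hcb r k) (hc0 r k)
  choose C hC using fun r => hChart 1 (Polynomial.X ^ 3 + 1 : ℂ[X]) (b r) (c r) (hbinj' r)
    (fun k => (hβ r k).some)
  have hGF : HasGrowth (F1 (C 0)) :=
    hF1G 1 one_pos (Polynomial.X ^ 3 + 1 : ℂ[X]) hfm (by rw [hfdeg]) b c C hbinj
  have hPerF : ∀ k k' : ℕ, IsPer (F1 (C 0)) (lamv 1 k - lamv 1 k') :=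
    hCont 1 one_pos (b 0) (c 0) (by simp [hb]) (by simp [hc]) (hbinj' 0) (C 0) hGF
  -- the period
  set lam0 : (Fin 1 → ℂ) × ℂ := lamv 1 1 - lamv 1 0 with hlam0
  set l0 : ℂ := lam 1 1 0 - lam 1 0 0 with hl0
  set l1 : ℂ := lam 1 1 1 - lam 1 0 1 with hl1
  have hlam01 : lam0 = (fun _ => l0, l1) := by
    rw [hlam0, hl0, hl1]
    ext i
    · fin_cases i
      rfl
    · rfl
  set B1 : ℝ := bet (1 / 3) (1 / 2) with hB1
  set B2 : ℝ := bet (2 / 3) (1 / 2) with hB2
  have hB1p : 0 < B1 := bet_pos (by norm_num) (by norm_num)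
  have hB2p : 0 < B2 := bet_pos (by norm_num) (by norm_num)
  set E1 : ℂ := Complex.exp (Complex.I * Real.pi * (3 : ℕ) / 3) -
    Complex.exp (Complex.I * Real.pi * (1 : ℕ) / 3) with hE1
  set E2 : ℂ := Complex.exp (Complex.I * Real.pi * (6 : ℕ) / 3) -
    Complex.exp (Complex.I * Real.pi * (2 : ℕ) / 3) with hE2
  have hl0' : l0 = 2 / 3 * E1 * (B1 : ℂ) := by
    rw [hl0, lam_eq, lam_eq, hE1, hB1]
    norm_num
    ring
  have hl1' : l1 = 2 / 3 * E2 * (B2 : ℂ) := by
    rw [hl1, lam_eq, lam_eq, hE2, hB2]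
    norm_num
    ring
  have hE1alg : IsAlgebraic ℚ E1 := (exp_alg 3).sub (exp_alg 1)
  have hE2alg : IsAlgebraic ℚ E2 := (exp_alg 6).sub (exp_alg 2)
  have hE10 : E1 ≠ 0 := by
    rw [hE1, sub_ne_zero]
    intro h
    rw [Complex.exp_eq_exp_iff_exists_int] at h
    obtain ⟨n, hn⟩ := h
    have h2 : (Complex.I * Real.pi) * (2 / 3 - 2 * n) = 0 := by
      push_cast at hn
      linear_combination hn
    have h3 : (Complex.I * Real.pi : ℂ) ≠ 0 :=
      mul_ne_zero Complex.I_ne_zero (by exact_mod_cast Real.pi_ne_zero)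
    have h4 : (2 / 3 - 2 * n : ℂ) = 0 := (mul_eq_zero.mp h2).resolve_left h3
    have h5 : (3 * n : ℂ) = 1 := by linear_combination (-3 / 2 : ℂ) * h4
    have h6 : (3 * n : ℤ) = 1 := by exact_mod_cast h5
    omega
  have hl00 : l0 ≠ 0 := by
    rw [hl0']
    refine mul_ne_zero (mul_ne_zero (by norm_num) hE10) ?_
    exact_mod_cast hB1p.ne'
  have hratio : IsAlgebraic ℚ (l1 / l0) := by
    have h1 : l1 / l0 = E2 * E1⁻¹ * (((B1 / B2 : ℝ) : ℂ))⁻¹ := by
      rw [hl0', hl1']
      have h2 : (B1 : ℂ) ≠ 0 := by exact_mod_cast hB1p.ne'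
      have h3 : (B2 : ℂ) ≠ 0 := by exact_mod_cast hB2p.ne'
      push_cast
      field_simp
    rw [h1]
    have h4 : IsAlgebraic ℚ (((B1 / B2 : ℝ) : ℂ)) := by
      have := halg.algebraMap (A := ℂ)
      simpa using this
    exact (hE2alg.mul hE1alg.inv).mul h4.inv
  -- the line
  let L : (Fin 1 → ℂ) →L[ℂ] (Fin 1 → ℂ) × ℂ :=
    (ContinuousLinearMap.proj (R := ℂ) (φ := fun _ : Fin 1 => ℂ) 0).smulRight lam0
  have hL : ∀ w : Fin 1 → ℂ, L w = w 0 • lam0 := fun w => rfl
  let v : Fin 1 → (Fin 1 → ℂ) := fun _ _ => l0⁻¹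
  have hLv : ∀ t, L (v t) = (fun _ => 1, l1 / l0) := by
    intro t
    rw [hL, hlam01]
    ext i
    · simp [v, hl00]
    · simp [v, div_eq_inv_mul]
  have hvind : LinearIndependent ℂ v := by
    rw [linearIndependent_unique_iff]
    intro h
    have := congrFun h 0
    simp only [v, Pi.zero_apply] at this
    exact (inv_ne_zero hl00) this
  -- the field
  let K : IntermediateField ℚ ℂ := IntermediateField.adjoin ℚ {l1 / l0}
  have hKfin : FiniteDimensional ℚ K := by
    apply IntermediateField.finiteDimensional_adjoin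
    intro x hx
    rw [Set.mem_singleton_iff] at hx
    rw [hx]
    exact hratio.isIntegral
  have hrK : l1 / l0 ∈ K := IntermediateField.subset_adjoin ℚ _ rfl
  obtain ⟨n, H, hHan, hH0, hHd, hHF⟩ := hArith 1 1 K (Polynomial.X ^ 3 + 1 : ℂ[X]) (by
      intro i
      simp only [Polynomial.coeff_add, Polynomial.coeff_X_pow, Polynomial.coeff_one]
      refine K.add_mem ?_ ?_ <;> split_ifs
      · exact K.one_mem
      · exact K.zero_mem
      · exact K.one_mem
      · exact K.zero_mem)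
    (b 0) (c 0) (fun k => by simp only [hb, if_true]; exact K.zero_mem)
    (fun k => by simp only [hc, if_true]; exact K.one_mem) (hbinj' 0) (C 0) L v
    (by
      intro t i
      rw [hLv t]
      exact K.one_mem)
    (by
      intro t
      rw [hLv t]
      exact hrK)
  -- the functions of Schneider and Lang
  have hP := hPull _ _ _ _ (F1 (C 0)) L ph hGF
  refine hSL 1 n one_pos K hKfin v hvind H hHan hH0 hHd
    (fun (w : Fin 1 → ℂ) (i : Fin (1 + 1)) => F1 (C 0) (L w) (ph i)) ?_ hP.1 ?_ ?_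
  · intro i
    exact hHF (ph i)
  · intro s
    apply hP.2
    have : L (Pi.single s 1) = lam0 := by
      have hs : s = 0 := Subsingleton.elim _ _
      subst hs
      rw [hL]
      simp
    rw [this]
    exact hPerF 1 0
  · intro P hPz
    have hinj := MvPolynomial.rename_injective (R := ℂ) ph ph_inj
    apply hinj
    rw [map_zero]
    apply hInd3 (b 0) (c 0) (C 0) hGF hPerF
    have ht : Tendsto (fun (w : ℂ) (_ : Fin 1) => w) (𝓝 0) (𝓝 0) := by
      have : Continuous (fun (w : ℂ) (_ : Fin 1) => w) := by fun_prop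
      have h0 := this.tendsto 0
      exact h0
    filter_upwards [ht.eventually hPz] with w hw
    rw [MvPolynomial.eval_rename]
    exact hw

end

end Pool.Agent.FDR.TSMALL
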